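import Mathlib

/-! Uniqueness of the coefficients of an absolutely convergent cosine series with general
frequencies, vanishing on the half line. -/

set_option autoImplicit false

namespace Run7.h374

open Filter Topology MeasureTheory
open scoped Interval Classical

/-- mean of a product of two cosines -/
noncomputable def cmean (a b T : ℝ) : ℝ := (1 / T) * ∫ x in (0:ℝ)..T, Real.cos (a * x) * Real.cos (b * x)

lemma abs_cmean_le (a b : ℝ) {T : ℝ} (hT : 0 < T) : |cmean a b T| ≤ 1 := by
  unfold cmean
  rw [abs_mul, abs_of_pos (by positivity : 0 < 1 / T)]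
  have h1 : ‖∫ x in (0:ℝ)..T, Real.cos (a * x) * Real.cos (b * x)‖ ≤ 1 * |T - 0| := by
    apply intervalIntegral.norm_integral_le_of_norm_le_const
    intro x _
    rw [norm_mul, Real.norm_eq_abs, Real.norm_eq_abs]
    have := Real.abs_cos_le_one (a * x)
    have := Real.abs_cos_le_one (b * x)
    have := abs_nonneg (Real.cos (a * x))
    have := abs_nonneg (Real.cos (b * x))
    nlinarith
  rw [sub_zero, abs_of_pos hT, one_mul, Real.norm_eq_abs] at h1
  rw [one_div, inv_mul_le_iff₀ hT, mul_one]
  exact h1

lemma integral_cos_cos {a b : ℝ} (h1 : a + b ≠ 0) (h2 : a - b ≠ 0) (T : ℝ) :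
    ∫ x in (0:ℝ)..T, Real.cos (a * x) * Real.cos (b * x) =
      Real.sin ((a + b) * T) / (2 * (a + b)) + Real.sin ((a - b) * T) / (2 * (a - b)) := by
  have hd : ∀ x ∈ Set.uIcc (0:ℝ) T, HasDerivAt (fun x => Real.sin ((a + b) * x) / (2 * (a + b)) +
      Real.sin ((a - b) * x) / (2 * (a - b))) (Real.cos (a * x) * Real.cos (b * x)) x := by
    intro x _
    have e1 : HasDerivAt (fun x : ℝ => Real.sin ((a + b) * x)) (Real.cos ((a + b) * x) * (a + b)) x := by
      have := ((hasDerivAt_id x).const_mul (a + b)).sin
      simpa using this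
    have e2 : HasDerivAt (fun x : ℝ => Real.sin ((a - b) * x)) (Real.cos ((a - b) * x) * (a - b)) x := by
      have := ((hasDerivAt_id x).const_mul (a - b)).sin
      simpa using this
    have e3 := (e1.div_const (2 * (a + b))).add (e2.div_const (2 * (a - b)))
    have e4 : Real.cos (a * x) * Real.cos (b * x) =
        Real.cos ((a + b) * x) * (a + b) / (2 * (a + b)) +
        Real.cos ((a - b) * x) * (a - b) / (2 * (a - b)) := by
      rw [add_mul, sub_mul, Real.cos_add, Real.cos_sub]
      field_simp
      ring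
    rw [e4]
    exact e3
  rw [intervalIntegral.integral_eq_sub_of_hasDerivAt hd
    (by apply Continuous.intervalIntegrable; fun_prop)]
  simp

lemma integral_cos_sq {a : ℝ} (h1 : a ≠ 0) (T : ℝ) :
    ∫ x in (0:ℝ)..T, Real.cos (a * x) * Real.cos (a * x) =
      Real.sin (2 * a * T) / (4 * a) + T / 2 := by
  have hd : ∀ x ∈ Set.uIcc (0:ℝ) T, HasDerivAt (fun x => Real.sin (2 * a * x) / (4 * a) + x / 2)
      (Real.cos (a * x) * Real.cos (a * x)) x := by
    intro x _
    have e1 : HasDerivAt (fun x : ℝ => Real.sin (2 * a * x)) (Real.cos (2 * a * x) * (2 * a)) x := by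
      have := ((hasDerivAt_id x).const_mul (2 * a)).sin
      simpa using this
    have e3 := (e1.div_const (4 * a)).add ((hasDerivAt_id x).div_const 2)
    have e4 : Real.cos (a * x) * Real.cos (a * x) =
        Real.cos (2 * a * x) * (2 * a) / (4 * a) + 1 / 2 := by
      rw [mul_assoc 2 a x, Real.cos_two_mul]
      field_simp
      ring
    rw [e4]
    exact e3
  rw [intervalIntegral.integral_eq_sub_of_hasDerivAt hd
    (by apply Continuous.intervalIntegrable; fun_prop)]
  simp

lemma tendsto_cmean_ne {a b : ℝ} (h1 : a + b ≠ 0) (h2 : a - b ≠ 0) :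
    Tendsto (fun n : ℕ => cmean a b n) atTop (𝓝 0) := by
  have hb : ∀ n : ℕ, ‖Real.sin ((a + b) * n) / (2 * (a + b)) + Real.sin ((a - b) * n) / (2 * (a - b))‖ ≤
      1 / |2 * (a + b)| + 1 / |2 * (a - b)| := by
    intro n
    refine (norm_add_le _ _).trans (add_le_add ?_ ?_)
    · rw [norm_div, Real.norm_eq_abs, Real.norm_eq_abs]
      have := Real.abs_sin_le_one ((a + b) * n)
      gcongr
    · rw [norm_div, Real.norm_eq_abs, Real.norm_eq_abs]
      have := Real.abs_sin_le_one ((a - b) * n)
      gcongr
  have h3 : Tendsto (fun n : ℕ => (1 / (n : ℝ)) * (Real.sin ((a + b) * n) / (2 * (a + b)) +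
      Real.sin ((a - b) * n) / (2 * (a - b)))) atTop (𝓝 0) := by
    have h4 : Tendsto (fun n : ℕ => (1 / (n : ℝ)) * (1 / |2 * (a + b)| + 1 / |2 * (a - b)|)) atTop (𝓝 0) := by
      simpa using (tendsto_one_div_atTop_nhds_zero_nat (𝕜 := ℝ)).mul_const
        (1 / |2 * (a + b)| + 1 / |2 * (a - b)|)
    apply squeeze_zero_norm _ h4
    intro n
    rw [norm_mul, Real.norm_of_nonneg (by positivity : (0:ℝ) ≤ 1 / n)]
    have := hb n
    gcongr
  refine h3.congr fun n => ?_
  unfold cmean
  rw [integral_cos_cos h1 h2]

lemma tendsto_cmean_eq {a : ℝ} (h1 : a ≠ 0) :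
    Tendsto (fun n : ℕ => cmean a a n) atTop (𝓝 (1 / 2)) := by
  have h3 : Tendsto (fun n : ℕ => (1 / (n : ℝ)) * (Real.sin (2 * a * n) / (4 * a))) atTop (𝓝 0) := by
    have h4 : Tendsto (fun n : ℕ => (1 / (n : ℝ)) * (1 / |4 * a|)) atTop (𝓝 0) := by
      simpa using (tendsto_one_div_atTop_nhds_zero_nat (𝕜 := ℝ)).mul_const (1 / |4 * a|)
    apply squeeze_zero_norm _ h4
    intro n
    rw [norm_mul, Real.norm_of_nonneg (by positivity : (0:ℝ) ≤ 1 / n), norm_div, Real.norm_eq_abs,
      Real.norm_eq_abs]
    have := Real.abs_sin_le_one (2 * a * n)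
    gcongr
  have h4 : Tendsto (fun n : ℕ => (1 / (n : ℝ)) * (Real.sin (2 * a * n) / (4 * a)) + 1 / 2) atTop
      (𝓝 (0 + 1 / 2)) := h3.add_const _
  rw [zero_add] at h4
  refine h4.congr' ?_
  filter_upwards [eventually_gt_atTop 0] with n hn
  unfold cmean
  rw [integral_cos_sq h1, mul_add]
  have : (n : ℝ) ≠ 0 := by positivity
  field_simp

/-- uniqueness -/
theorem cos_unique {κ : Type*} [Countable κ] {a τ : κ → ℝ} (hτ : ∀ i, 0 < τ i)
    (hinj : Function.Injective τ) (ha : Summable fun i => |a i|)
    (h0 : ∀ x : ℝ, 0 ≤ x → ∑' i, a i * Real.cos (τ i * x) = 0) : a = 0 := by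
  ext m
  have h1 : ∀ n : ℕ, ∑' i, a i * cmean (τ i) (τ m) n = 0 := by
    intro n
    have hs := intervalIntegral.hasSum_integral_of_dominated_convergence (a := 0) (b := (n : ℝ))
      (μ := volume)
      (F := fun i x => a i * (Real.cos (τ i * x) * Real.cos (τ m * x)))
      (f := fun x => ∑' i, a i * (Real.cos (τ i * x) * Real.cos (τ m * x)))
      (bound := fun i _ => |a i|)
      (fun i => (by fun_prop : Continuous fun x => a i * (Real.cos (τ i * x) *
        Real.cos (τ m * x))).aestronglyMeasurable)
      (fun i => Eventually.of_forall fun x _ => by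
        rw [norm_mul, Real.norm_eq_abs, norm_mul, Real.norm_eq_abs, Real.norm_eq_abs]
        have b1 := Real.abs_cos_le_one (τ i * x)
        have b2 := Real.abs_cos_le_one (τ m * x)
        have b3 : |Real.cos (τ i * x)| * |Real.cos (τ m * x)| ≤ 1 := by
          have := abs_nonneg (Real.cos (τ i * x))
          have := abs_nonneg (Real.cos (τ m * x))
          nlinarith
        have := abs_nonneg (a i)
        nlinarith)
      (Eventually.of_forall fun x _ => ha)
      (by simp)
      (Eventually.of_forall fun x _ => by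
        apply Summable.hasSum
        apply Summable.of_norm_bounded ha
        intro i
        rw [norm_mul, Real.norm_eq_abs, norm_mul, Real.norm_eq_abs, Real.norm_eq_abs]
        have b1 := Real.abs_cos_le_one (τ i * x)
        have b2 := Real.abs_cos_le_one (τ m * x)
        have b3 : |Real.cos (τ i * x)| * |Real.cos (τ m * x)| ≤ 1 := by
          have := abs_nonneg (Real.cos (τ i * x))
          have := abs_nonneg (Real.cos (τ m * x))
          nlinarith
        have := abs_nonneg (a i)
        nlinarith)
    have h2 : ∫ x in (0:ℝ)..n, ∑' i, a i * (Real.cos (τ i * x) * Real.cos (τ m * x)) = 0 := by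
      rw [intervalIntegral.integral_congr (g := fun _ => (0:ℝ))]
      · simp
      · intro x hx
        rw [Set.uIcc_of_le (by positivity)] at hx
        have h3 := h0 x hx.1
        have h4 : ∑' i, a i * (Real.cos (τ i * x) * Real.cos (τ m * x)) =
            (∑' i, a i * Real.cos (τ i * x)) * Real.cos (τ m * x) := by
          rw [← tsum_mul_right]
          congr 1
          ext i; ring
        simp only
        rw [h4, h3, zero_mul]
    rw [h2] at hs
    have h5 := (hs.mul_left (1 / (n : ℝ))).tsum_eq
    rw [mul_zero] at h5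
    rw [← h5]
    congr 1
    ext i
    unfold cmean
    rw [intervalIntegral.integral_const_mul]
    ring
  have h2 : Tendsto (fun n : ℕ => ∑' i, a i * cmean (τ i) (τ m) n) atTop
      (𝓝 (∑' i, a i * (if i = m then 1 / 2 else 0))) := by
    apply tendsto_tsum_of_dominated_convergence ha
    · intro i
      apply Tendsto.const_mul
      split_ifs with h
      · rw [h]; exact tendsto_cmean_eq (hτ m).ne'
      · apply tendsto_cmean_ne
        · have := hτ i; have := hτ m; positivity
        · intro h'
          exact h (hinj (by linarith))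
    · filter_upwards [eventually_gt_atTop 0] with n hn i
      rw [norm_mul, Real.norm_eq_abs, Real.norm_eq_abs]
      have := abs_cmean_le (τ i) (τ m) (T := (n : ℝ)) (by exact_mod_cast hn)
      have := abs_nonneg (a i)
      nlinarith
  simp only [h1] at h2
  have h3 := tendsto_nhds_unique h2 tendsto_const_nhds
  have h4 : ∑' i, a i * (if i = m then (1:ℝ) / 2 else 0) = a m * (1 / 2) := by
    rw [tsum_eq_single m]
    · rw [if_pos rfl]
    · intro i hi
      rw [if_neg hi, mul_zero]
  rw [h4] at h3
  simpa using h3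

end Run7.h374
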