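import Mathlib

/-! Division of entire functions; polynomial growth. -/

set_option autoImplicit false

namespace Run7.h374

open Filter Topology Metric

/-- an entire function vanishing at the zeros (all simple) of `g` is divisible by `g` -/
lemma exists_quot {f g : ℂ → ℂ} (hf : Differentiable ℂ f) (hg : Differentiable ℂ g)
    (hz : ∀ z, g z = 0 → f z = 0 ∧ deriv g z ≠ 0) :
    ∃ H : ℂ → ℂ, Differentiable ℂ H ∧ ∀ z, f z = H z * g z := by
  classical
  set H : ℂ → ℂ := fun z => if g z = 0 then deriv f z / deriv g z else f z / g z with hH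
  refine ⟨H, ?_, ?_⟩
  · intro z₀
    by_cases h0 : g z₀ = 0
    · obtain ⟨hf0, hg'⟩ := hz z₀ h0
      have d1 : Differentiable ℂ (dslope f z₀) := by
        rw [← differentiableOn_univ]
        exact (Complex.differentiableOn_dslope univ_mem).2 hf.differentiableOn
      have d2 : Differentiable ℂ (dslope g z₀) := by
        rw [← differentiableOn_univ]
        exact (Complex.differentiableOn_dslope univ_mem).2 hg.differentiableOn
      have e2 : dslope g z₀ z₀ ≠ 0 := by rw [dslope_same]; exact hg'
      have hne : ∀ᶠ z in 𝓝 z₀, dslope g z₀ z ≠ 0 :=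
        d2.continuous.continuousAt.eventually_ne e2
      have heq : H =ᶠ[𝓝 z₀] fun z => dslope f z₀ z / dslope g z₀ z := by
        filter_upwards [hne] with z hzn
        by_cases hzz : z = z₀
        · subst hzz
          simp only [hH]
          rw [if_pos h0, dslope_same, dslope_same]
        · have hzz' : z - z₀ ≠ 0 := sub_ne_zero.2 hzz
          have ef : f z = (z - z₀) * dslope f z₀ z := by
            rw [dslope_of_ne _ hzz, slope_def_field, hf0, sub_zero]
            field_simp
          have eg : g z = (z - z₀) * dslope g z₀ z := by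
            rw [dslope_of_ne _ hzz, slope_def_field, h0, sub_zero]
            field_simp
          have hgz : g z ≠ 0 := by rw [eg]; exact mul_ne_zero hzz' hzn
          simp only [hH]
          rw [if_neg hgz, ef, eg, mul_div_mul_left _ _ hzz']
      exact ((d1 z₀).div (d2 z₀) e2).congr_of_eventuallyEq heq
    · have hne : ∀ᶠ z in 𝓝 z₀, g z ≠ 0 := hg.continuous.continuousAt.eventually_ne h0
      have heq : H =ᶠ[𝓝 z₀] fun z => f z / g z := by
        filter_upwards [hne] with z hzn
        simp only [hH]
        rw [if_neg hzn]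
      exact ((hf z₀).div (hg z₀) h0).congr_of_eventuallyEq heq
  · intro z
    by_cases h0 : g z = 0
    · rw [(hz z h0).1, h0, mul_zero]
    · simp only [hH]
      rw [if_neg h0, div_mul_cancel₀ _ h0]

/-- an entire function with polynomial growth along a sequence of discs, tending to zero along a
path going to infinity, vanishes -/
lemma eq_zero_of_growth {H : ℂ → ℂ} (hH : Differentiable ℂ H) {r : ℕ → ℝ}
    (hr : Tendsto r atTop atTop) {C : ℝ} {p : ℕ}
    (hb : ∀ᶠ n in atTop, ∀ z ∈ sphere (0:ℂ) (r n), ‖H z‖ ≤ C * r n ^ p)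
    {w : ℕ → ℂ} (hw : Tendsto (fun n => ‖w n‖) atTop atTop)
    (h0 : Tendsto (fun n => H (w n)) atTop (𝓝 0)) : H = 0 := by
  have hder : ∀ m, p < m → iteratedDeriv m H 0 = 0 := by
    intro m hm
    have h1 : ∀ᶠ n in atTop, ‖iteratedDeriv m H 0‖ ≤ (m.factorial * C) * (r n)⁻¹ := by
      filter_upwards [hb, hr.eventually (eventually_ge_atTop 1)] with n hn hr1
      have hrn : 0 < r n := by linarith
      have h2 := Complex.norm_iteratedDeriv_le_of_forall_mem_sphere_norm_le m hrn
        hH.diffContOnCl hn
      refine h2.trans ?_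
      have hC : 0 ≤ C * r n ^ p := (norm_nonneg _).trans (hn (r n : ℂ) (by simp [abs_of_pos hrn]))
      have hC0 : 0 ≤ C := by
        by_contra hcon
        push Not at hcon
        have : C * r n ^ p < 0 := mul_neg_of_neg_of_pos hcon (by positivity)
        linarith
      obtain ⟨d, hd⟩ : ∃ d, m = p + 1 + d := ⟨m - (p + 1), by omega⟩
      have h3 : r n ^ p / r n ^ m ≤ (r n)⁻¹ := by
        rw [hd, pow_add, pow_succ, div_le_iff₀ (by positivity)]
        have h4 : (1:ℝ) ≤ r n ^ d := one_le_pow₀ hr1
        have h5 : (r n)⁻¹ * (r n ^ p * r n * r n ^ d) = r n ^ p * r n ^ d := by field_simp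
        rw [h5]
        have h6 : 0 ≤ r n ^ p := by positivity
        nlinarith
      calc m.factorial * (C * r n ^ p) / r n ^ m = (m.factorial * C) * (r n ^ p / r n ^ m) := by ring
        _ ≤ (m.factorial * C) * (r n)⁻¹ := by gcongr
    have h2 : Tendsto (fun n => (m.factorial * C) * (r n)⁻¹) atTop (𝓝 0) := by
      simpa using (tendsto_inv_atTop_zero.comp hr).const_mul ((m.factorial : ℝ) * C)
    have h3 : ‖iteratedDeriv m H 0‖ ≤ 0 := ge_of_tendsto h2 h1
    exact norm_le_zero_iff.1 h3
  -- H is a polynomial
  set P : Polynomial ℂ := ∑ m ∈ Finset.range (p + 1),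
    Polynomial.monomial m ((m.factorial : ℂ)⁻¹ * iteratedDeriv m H 0) with hP
  have hPe : ∀ z, H z = P.eval z := by
    intro z
    rw [← Complex.taylorSeries_eq_of_entire' 0 z hH, tsum_eq_sum (s := Finset.range (p + 1))]
    · rw [hP, Polynomial.eval_finsetSum]
      apply Finset.sum_congr rfl
      intro m _
      rw [Polynomial.eval_monomial, sub_zero]
    · intro m hm
      rw [hder m (by simpa using hm)]
      ring
  have hPd : ¬ 0 < P.degree := by
    intro hd
    have h1 := Polynomial.tendsto_norm_atTop P hd hw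
    have h2 : Tendsto (fun n => ‖H (w n)‖) atTop (𝓝 0) := by simpa using h0.norm
    have h3 : Tendsto (fun n => ‖H (w n)‖) atTop atTop := by
      refine h1.congr fun n => ?_
      rw [hPe]
    exact not_tendsto_nhds_of_tendsto_atTop h3 0 h2
  have hPC : P = Polynomial.C (P.coeff 0) := Polynomial.eq_C_of_degree_le_zero (not_lt.1 hPd)
  have hconst : ∀ z, H z = P.coeff 0 := by
    intro z
    rw [hPe, hPC, Polynomial.eval_C, Polynomial.coeff_C_zero]
  have h1 : Tendsto (fun n => H (w n)) atTop (𝓝 (P.coeff 0)) := by
    simp only [hconst]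
    exact tendsto_const_nhds
  have h2 := tendsto_nhds_unique h1 h0
  ext z
  rw [hconst, h2]
  rfl

end Run7.h374
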