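import Pool.Agent.Run7.h374.SinLow
import Pool.Agent.Run7.h374.QuotE

/-! Annihilators of the polynomials from entire functions which are small on the imaginary axis. -/

set_option autoImplicit false

namespace Run7.h374

open Filter Topology Metric

/-- `∑ a n (-(1 / t n)) ∏_{j ≠ n} (1 - z / t j)` -/
noncomputable def LL (t : ℕ → ℝ) (a : ℕ → ℂ) (z : ℂ) : ℂ :=
  ∑' n, a n * (-(1 / (t n : ℂ)) * prodExc t n z)

section

variable {t : ℕ → ℝ} (ht : ∀ n, 0 < t n) (hs : Summable fun n => (t n)⁻¹) {a : ℕ → ℂ}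
  (ha : Summable fun n => ‖a n‖)

include ht hs ha

lemma LL_differentiable : Differentiable ℂ (LL t a) := by
  have hbt : Summable fun n => ‖a n‖ * (t n)⁻¹ := by
    apply Summable.of_nonneg_of_le _ _ (hs.mul_left (∑' i, ‖a i‖))
    · intro i
      have := ht i
      positivity
    · intro i
      have h1 : ‖a i‖ ≤ ∑' i, ‖a i‖ := ha.le_tsum i (fun j _ => norm_nonneg _)
      have := ht i
      gcongr
  have hterm : ∀ i z, ‖a i * (-(1 / (t i : ℂ)) * prodExc t i z)‖ =
      ‖a i‖ * (t i)⁻¹ * ‖prodExc t i z‖ := by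
    intro i z
    rw [norm_mul, norm_mul, norm_neg, norm_div, norm_one, Complex.norm_real,
      Real.norm_of_nonneg (ht i).le]
    ring
  intro z
  obtain ⟨C, hC, hCb⟩ := growth_prodExc ht hs one_pos
  set R := ‖z‖ + 1 with hR
  have h1 : DifferentiableOn ℂ (LL t a) (ball (0:ℂ) R) := by
    apply Complex.differentiableOn_tsum_of_summable_norm
      (hbt.mul_right (C * Real.exp (1 * R)))
    · intro i
      exact (((differentiable_prodExc ht hs i).const_mul _).const_mul _).differentiableOn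
    · exact isOpen_ball
    · intro i w hw
      rw [hterm]
      have h2 : ‖w‖ ≤ R := by
        have : ‖w‖ < R := by simpa using hw
        exact this.le
      have h3 := ht i
      have h4 := hCb i w
      have h5 : Real.exp (1 * ‖w‖) ≤ Real.exp (1 * R) := Real.exp_le_exp.2 (by linarith)
      have h6 : ‖prodExc t i w‖ ≤ C * Real.exp (1 * R) := h4.trans (by gcongr)
      gcongr
  exact (h1 z (by simp [hR])).differentiableAt (isOpen_ball.mem_nhds (by simp [hR]))

omit hs ha in
lemma LL_at (n : ℕ) : LL t a (t n : ℂ) = a n * (-(1 / (t n : ℂ)) * prodExc t n (t n : ℂ)) := by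
  unfold LL
  apply tsum_eq_single n
  intro j hj
  rw [prodExc_eq_zero ht (Ne.symm hj)]
  ring

omit ha in
lemma LL_eq {z : ℂ} (hz : ∀ n, z ≠ (t n : ℂ)) :
    LL t a z = prodAll t z * ∑' n, a n / (z - (t n : ℂ)) := by
  unfold LL
  rw [← tsum_mul_left]
  congr 1
  ext i
  rw [prodExc_eq_div ht hs i (hz i)]
  ring

end

/-- good points -/
structure Good (M C : ℝ) (k : ℂ) : Prop where
  ne : k ≠ 0
  far : ∀ n, 2 * M ≤ ‖(sq n : ℂ) - k ^ 2‖
  summ : Summable fun n => 1 / ‖(sq n : ℂ) - k ^ 2‖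
  le : ∑' n, 1 / ‖(sq n : ℂ) - k ^ 2‖ ≤ C
  sin : Real.exp |k.im| / 4 ≤ ‖Complex.sin k‖

/-- the constant -/
noncomputable def CC : ℝ := (∑' n, 1 / sq n) + ∑' m : ℤ, 1 / (|(m : ℝ) + 1 / 2| ^ (2:ℝ))

lemma CC_left : ∑' n, 1 / sq n ≤ CC := by
  unfold CC
  have : 0 ≤ ∑' m : ℤ, 1 / (|(m : ℝ) + 1 / 2| ^ (2:ℝ)) := tsum_nonneg fun m => by positivity
  linarith

lemma CC_right : ∑' m : ℤ, 1 / (|(m : ℝ) + 1 / 2| ^ (2:ℝ)) ≤ CC := by
  unfold CC
  have : 0 ≤ ∑' n, 1 / sq n := tsum_nonneg fun n => by have := sq_pos n; positivity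
  linarith

lemma good_horizontal {M : ℝ} {k : ℂ} (h1 : 1 ≤ |k.im|)
    (h2 : k.re ^ 2 + 2 * M ≤ k.im ^ 2) (h2' : k.re ^ 2 ≤ k.im ^ 2) : Good M CC k := by
  have hre : ∀ n, ((sq n : ℂ) - k ^ 2).re = sq n - k.re ^ 2 + k.im ^ 2 := by
    intro n
    rw [Complex.sub_re, Complex.ofReal_re, pow_two, Complex.mul_re]
    ring
  have hge : ∀ n, sq n - k.re ^ 2 + k.im ^ 2 ≤ ‖(sq n : ℂ) - k ^ 2‖ := by
    intro n
    rw [← hre]
    exact Complex.re_le_norm _
  have hle : ∀ n, 1 / ‖(sq n : ℂ) - k ^ 2‖ ≤ 1 / sq n := by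
    intro n
    have := hge n
    apply one_div_le_one_div_of_le (sq_pos n)
    linarith
  have hsm : Summable fun n => 1 / ‖(sq n : ℂ) - k ^ 2‖ :=
    Summable.of_nonneg_of_le (fun n => by positivity) hle summable_sq_inv
  refine ⟨?_, ?_, hsm, ?_, norm_sin_ge h1⟩
  · intro h
    rw [h] at h1
    simp at h1
    linarith
  · intro n
    have := hge n
    have := sq_pos n
    linarith
  · exact (hsm.tsum_le_tsum hle summable_sq_inv).trans CC_left

lemma good_vertical {M : ℝ} {N : ℕ} (hN : 4 * M ≤ (N : ℝ)) {k : ℂ}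
    (h : |k.re| = ((N : ℝ) + 1 / 2) * Real.pi) : Good M CC k := by
  have hπ := Real.pi_gt_three
  set x : ℝ := ((N : ℝ) + 1 / 2) * Real.pi with hx
  have hx0 : 0 < x := by positivity
  have hge : ∀ n : ℕ, |Real.pi * (n + 1) - x| * (Real.pi * (n + 1) + x) ≤ ‖(sq n : ℂ) - k ^ 2‖ := by
    intro n
    have e1 : (sq n : ℂ) - k ^ 2 = ((Real.pi * (n + 1) : ℝ) - k) * ((Real.pi * (n + 1) : ℝ) + k) := by
      unfold sq; push_cast; ring
    rw [e1, norm_mul]
    have a1 : |Real.pi * (n + 1) - k.re| ≤ ‖((Real.pi * (n + 1) : ℝ) : ℂ) - k‖ := by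
      have := Complex.abs_re_le_norm (((Real.pi * (n + 1) : ℝ) : ℂ) - k)
      rwa [Complex.sub_re, Complex.ofReal_re] at this
    have a2 : |Real.pi * (n + 1) + k.re| ≤ ‖((Real.pi * (n + 1) : ℝ) : ℂ) + k‖ := by
      have := Complex.abs_re_le_norm (((Real.pi * (n + 1) : ℝ) : ℂ) + k)
      rwa [Complex.add_re, Complex.ofReal_re] at this
    have a3 : |Real.pi * (n + 1) - x| * (Real.pi * (n + 1) + x) =
        |Real.pi * (n + 1) - k.re| * |Real.pi * (n + 1) + k.re| := by
      have hp : 0 < Real.pi * ((n:ℝ) + 1) + x := by positivity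
      rcases abs_choice k.re with h' | h'
      · rw [h'] at h
        rw [h, abs_of_pos hp]
      · rw [h'] at h
        have : k.re = -x := by linarith
        rw [this, sub_neg_eq_add, ← sub_eq_add_neg, abs_of_pos hp, mul_comm]
    rw [a3]
    gcongr
  have hdist : ∀ n : ℕ, |Real.pi * (n + 1) - x| = Real.pi * |(((n : ℤ) - N : ℤ) : ℝ) + 1 / 2| := by
    intro n
    have : Real.pi * (n + 1) - x = Real.pi * ((((n : ℤ) - N : ℤ) : ℝ) + 1 / 2) := by
      rw [hx]; push_cast; ring
    rw [this, abs_mul, abs_of_pos Real.pi_pos]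
  have hhalf : ∀ m : ℤ, (1:ℝ) / 2 ≤ |(m : ℝ) + 1 / 2| := by
    intro m
    rcases le_or_gt 0 m with hm | hm
    · have : (0:ℝ) ≤ m := by exact_mod_cast hm
      rw [abs_of_nonneg (by linarith)]; linarith
    · have h1 : m ≤ -1 := by omega
      have : (m : ℝ) ≤ -1 := by exact_mod_cast h1
      rw [abs_of_nonpos (by linarith)]; linarith
  have hle : ∀ n : ℕ, 1 / ‖(sq n : ℂ) - k ^ 2‖ ≤ 1 / (|(((n : ℤ) - N : ℤ) : ℝ) + 1 / 2| ^ (2:ℝ)) := by
    intro n
    have b1 := hhalf ((n : ℤ) - N)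
    apply one_div_le_one_div_of_le
    · positivity
    · refine le_trans ?_ (hge n)
      rw [Real.rpow_two, hdist n]
      set y := |(((n : ℤ) - N : ℤ) : ℝ) + 1 / 2| with hy
      have hy0 : 0 < y := by linarith
      have b2 : Real.pi * y ≤ Real.pi * (n + 1) + x := by
        rw [hy, ← hdist n, abs_le]
        have : (0:ℝ) ≤ Real.pi * (n + 1) := by positivity
        constructor <;> linarith
      calc y ^ 2 ≤ (Real.pi * y) * (Real.pi * y) := by
            have : (1:ℝ) ≤ Real.pi * Real.pi := by nlinarith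
            nlinarith [sq_nonneg y]
        _ ≤ (Real.pi * y) * (Real.pi * (n + 1) + x) := by gcongr
  have hsZ : Summable fun m : ℤ => 1 / (|(m : ℝ) + 1 / 2| ^ (2:ℝ)) :=
    (Real.summable_one_div_int_add_rpow (1 / 2) 2).2 (by norm_num)
  have hinj : Function.Injective fun n : ℕ => ((n : ℤ) - N) := by
    intro i j hij
    simp only [sub_left_inj, Nat.cast_inj] at hij
    exact hij
  have hs2 : Summable fun n : ℕ => 1 / (|(((n : ℤ) - N : ℤ) : ℝ) + 1 / 2| ^ (2:ℝ)) :=
    hsZ.comp_injective hinj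
  have hsm : Summable fun n => 1 / ‖(sq n : ℂ) - k ^ 2‖ :=
    Summable.of_nonneg_of_le (fun n => by positivity) hle hs2
  refine ⟨?_, ?_, hsm, ?_, ?_⟩
  · intro h0
    rw [h0, Complex.zero_re, abs_zero] at h
    linarith
  · intro n
    refine le_trans ?_ (hge n)
    rw [hdist n]
    have b1 := hhalf ((n : ℤ) - N)
    have b2 : x ≤ Real.pi * (n + 1) + x := by
      have : (0:ℝ) ≤ Real.pi * (n + 1) := by positivity
      linarith
    have b3 : 2 * M ≤ Real.pi * (1 / 2) * x := by
      rw [hx]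
      have : (0:ℝ) ≤ N := by positivity
      nlinarith
    calc 2 * M ≤ Real.pi * (1 / 2) * x := b3
      _ ≤ Real.pi * |(((n : ℤ) - N : ℤ) : ℝ) + 1 / 2| * (Real.pi * (n + 1) + x) := by gcongr
  · refine (hsm.tsum_le_tsum hle hs2).trans ?_
    refine le_trans ?_ CC_right
    exact tsum_comp_le_tsum_of_inj hsZ (fun m => by positivity) hinj
  · rcases abs_choice k.re with h' | h'
    · rw [h'] at h
      have := norm_sin_vertical (N := (N : ℤ)) (k := k) (by rw [h]; push_cast; ring)
      have := Real.exp_pos |k.im|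
      linarith
    · rw [h'] at h
      have := norm_sin_vertical (N := (N : ℤ)) (k := -k) (by rw [Complex.neg_re, h]; push_cast; ring)
      rw [Complex.sin_neg, norm_neg, Complex.neg_im, abs_neg] at this
      have := Real.exp_pos |k.im|
      linarith

/-- bound of a quotient at good points -/
lemma good_bound {t : ℕ → ℝ} (ht : ∀ n, 0 < t n) (hs : Summable fun n => (t n)⁻¹) {M : ℝ}
    (hM1 : 1 ≤ M) (hM : ∀ n, |t n - sq n| ≤ M) :
    ∃ c : ℝ, 0 < c ∧ ∀ k, Good M CC k →
      c * Real.exp |k.im| ≤ ‖k‖ * ‖prodAll t (k ^ 2)‖ ∧ (∀ n, k ^ 2 ≠ (t n : ℂ)) ∧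
      ∀ n, 1 ≤ ‖k ^ 2 - (t n : ℂ)‖ := by
  refine ⟨Real.exp (-(2 * M * CC + M * ∑' n, 1 / sq n)) / 4, by positivity, ?_⟩
  intro k hk
  have h1 := psi_lower ht hs (by linarith) hM hk.far hk.summ hk.le
  have h3 : ∀ n, 1 ≤ ‖k ^ 2 - (t n : ℂ)‖ := by
    intro n
    have h4 := hk.far n
    have h5 := hM n
    have h6 : ‖(sq n : ℂ) - k ^ 2‖ ≤ ‖k ^ 2 - (t n : ℂ)‖ + |t n - sq n| := by
      have e : (sq n : ℂ) - k ^ 2 = -(k ^ 2 - (t n : ℂ)) + -(((t n - sq n : ℝ)) : ℂ) := by
        push_cast; ring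
      rw [e]
      refine (norm_add_le _ _).trans ?_
      rw [norm_neg, norm_neg, Complex.norm_real, Real.norm_eq_abs]
    linarith
  refine ⟨?_, ?_, h3⟩
  · have h2 := hk.sin
    calc Real.exp (-(2 * M * CC + M * ∑' n, 1 / sq n)) / 4 * Real.exp |k.im|
        = Real.exp (-(2 * M * CC + M * ∑' n, 1 / sq n)) * (Real.exp |k.im| / 4) := by ring
      _ ≤ Real.exp (-(2 * M * CC + M * ∑' n, 1 / sq n)) * ‖Complex.sin k‖ := by gcongr
      _ ≤ _ := h1
  · intro n h
    have := h3 n
    rw [h, sub_self, norm_zero] at this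
    linarith

/-- the interpolation formula -/
theorem interpolation {t : ℕ → ℝ} (ht : ∀ n, 0 < t n) (hinj : Function.Injective t)
    (hs : Summable fun n => (t n)⁻¹) {M : ℝ} (hM1 : 1 ≤ M) (hM : ∀ n, |t n - sq n| ≤ M)
    {R : ℂ → ℂ} (hR : Differentiable ℂ R) (heven : ∀ k, R (-k) = R k) {C : ℝ} {p : ℕ}
    (hC : 0 ≤ C) (hgrow : ∀ k, ‖R k‖ ≤ C * (1 + ‖k‖) ^ p * Real.exp |k.im|)
    {C2 : ℝ} (hdec : ∀ y : ℝ, 1 ≤ y → ‖R (y * Complex.I)‖ * y ^ 2 ≤ C2 * Real.exp y)
    {a : ℕ → ℂ} (ha : ∀ n, R (Real.sqrt (t n) : ℂ) =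
      a n * (-(1 / (t n : ℂ)) * prodExc t n (t n : ℂ)))
    (hsum : Summable fun n => ‖a n‖) : ∀ k, R k = LL t a (k ^ 2) := by
  have hLd := LL_differentiable ht hs hsum
  have hLd2 : Differentiable ℂ (fun k : ℂ => LL t a (k ^ 2)) := hLd.comp (differentiable_pow 2)
  set f : ℂ → ℂ := fun k => R k - LL t a (k ^ 2) with hf
  have hfd : Differentiable ℂ f := hR.sub hLd2
  set G : ℂ → ℂ := fun k => prodAll t (k ^ 2) with hG
  have hGe : ∀ n k, G k = (1 - k ^ 2 / (t n : ℂ)) * prodExc t n (k ^ 2) := fun n k =>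
    prodAll_eq ht hs n (k ^ 2)
  have hGd : Differentiable ℂ G := by
    have e : G = fun k => (1 - k ^ 2 / (t 0 : ℂ)) * prodExc t 0 (k ^ 2) := by
      ext k; exact hGe 0 k
    rw [e]
    have h1 : Differentiable ℂ (fun k : ℂ => prodExc t 0 (k ^ 2)) :=
      (differentiable_prodExc ht hs 0).comp (differentiable_pow 2)
    have h2 : Differentiable ℂ (fun k : ℂ => 1 - k ^ 2 / (t 0 : ℂ)) := by fun_prop
    exact h2.mul h1
  have hz : ∀ z, G z = 0 → f z = 0 ∧ deriv G z ≠ 0 := by
    intro z hGz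
    have h1 : ∃ n, z ^ 2 = (t n : ℂ) := by
      by_contra hcon
      push Not at hcon
      exact prodAll_ne_zero ht hs hcon hGz
    obtain ⟨n, hn⟩ := h1
    have hn0 : (t n : ℂ) ≠ 0 := by exact_mod_cast (ht n).ne'
    have hz0 : z ≠ 0 := by
      intro h; rw [h] at hn; simp at hn; exact hn0 hn.symm
    have hpne : prodExc t n (t n : ℂ) ≠ 0 := by
      apply prodExc_ne_zero ht hs
      intro j hj h2
      apply hj
      have h3 : t n = t j := by exact_mod_cast h2
      exact (hinj h3).symm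
    constructor
    · simp only [hf]
      rw [hn, LL_at ht n, ← ha n]
      have hsq : z ^ 2 = (Real.sqrt (t n) : ℂ) ^ 2 := by
        rw [hn, ← Complex.ofReal_pow, Real.sq_sqrt (ht n).le]
      rcases sq_eq_sq_iff_eq_or_eq_neg.1 hsq with h | h
      · rw [h, sub_self]
      · rw [h, heven, sub_self]
    · have h1 : HasDerivAt (fun k : ℂ => 1 - k ^ 2 / (t n : ℂ)) (-(2 * z / (t n : ℂ))) z := by
        have := ((hasDerivAt_pow 2 z).div_const (t n : ℂ)).const_sub 1
        simpa using this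
      have h2 : HasDerivAt (fun k : ℂ => prodExc t n (k ^ 2)) (deriv (fun k : ℂ => prodExc t n (k ^ 2)) z) z := by
        apply DifferentiableAt.hasDerivAt
        exact ((differentiable_prodExc ht hs n).comp (differentiable_pow 2)) z
      have h3 := h1.mul h2
      have e : G = fun k => (1 - k ^ 2 / (t n : ℂ)) * prodExc t n (k ^ 2) := by
        ext k; exact hGe n k
      have h4 : HasDerivAt G (-(2 * z / (t n : ℂ)) * prodExc t n (z ^ 2) +
          (1 - z ^ 2 / (t n : ℂ)) * deriv (fun k : ℂ => prodExc t n (k ^ 2)) z) z := by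
        rw [e]; exact h3
      rw [h4.deriv, hn, div_self hn0, sub_self, zero_mul, add_zero]
      apply mul_ne_zero _ hpne
      rw [neg_ne_zero]
      exact div_ne_zero (mul_ne_zero two_ne_zero hz0) hn0
  obtain ⟨H, hHd, hH⟩ := exists_quot hfd hGd hz
  obtain ⟨c, hc, hgood⟩ := good_bound ht hs hM1 hM
  set S : ℝ := ∑' n, ‖a n‖ with hS
  have hS0 : 0 ≤ S := tsum_nonneg fun n => norm_nonneg _
  -- value of H at good points
  have hHval : ∀ k, Good M CC k → H k = R k / G k - ∑' n, a n / (k ^ 2 - (t n : ℂ)) := by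
    intro k hk
    obtain ⟨h1, h2, h3⟩ := hgood k hk
    have hGk : G k ≠ 0 := prodAll_ne_zero ht hs h2
    have h4 := hH k
    simp only [hf] at h4
    rw [LL_eq ht hs h2] at h4
    have h5 : prodAll t (k ^ 2) = G k := rfl
    rw [h5] at h4
    field_simp
    linear_combination -h4
  have hHb : ∀ k, Good M CC k → ‖H k‖ ≤ ‖R k‖ / ‖G k‖ + S := by
    intro k hk
    obtain ⟨h1, h2, h3⟩ := hgood k hk
    rw [hHval k hk]
    refine (norm_sub_le _ _).trans ?_
    rw [norm_div]
    gcongr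
    apply tsum_of_norm_bounded hsum.hasSum
    intro n
    rw [norm_div]
    exact div_le_self (norm_nonneg _) (h3 n)
  have hHb2 : ∀ k, Good M CC k → ‖H k‖ ≤ (C / c + S) * (1 + ‖k‖) ^ (p + 1) := by
    intro k hk
    obtain ⟨h1, h2, h3⟩ := hgood k hk
    have hGk : G k ≠ 0 := prodAll_ne_zero ht hs h2
    have hGk' : 0 < ‖G k‖ := norm_pos_iff.2 hGk
    refine (hHb k hk).trans ?_
    have h4 : ‖R k‖ / ‖G k‖ ≤ C / c * (1 + ‖k‖) ^ (p + 1) := by
      rw [div_le_iff₀ hGk']
      have h5 : Real.exp |k.im| ≤ (‖k‖ * ‖G k‖) / c := by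
        rw [le_div_iff₀ hc]; rw [mul_comm]; exact h1
      calc ‖R k‖ ≤ C * (1 + ‖k‖) ^ p * Real.exp |k.im| := hgrow k
        _ ≤ C * (1 + ‖k‖) ^ p * ((‖k‖ * ‖G k‖) / c) := by gcongr
        _ ≤ C * (1 + ‖k‖) ^ p * (((1 + ‖k‖) * ‖G k‖) / c) := by
            gcongr
            linarith
        _ = C / c * (1 + ‖k‖) ^ (p + 1) * ‖G k‖ := by rw [pow_succ]; ring
    have h5 : S ≤ S * (1 + ‖k‖) ^ (p + 1) := by
      have : (1:ℝ) ≤ (1 + ‖k‖) ^ (p + 1) := one_le_pow₀ (by linarith [norm_nonneg k])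
      nlinarith
    rw [add_mul]
    exact add_le_add h4 h5
  -- growth on discs
  set r : ℕ → ℝ := fun N => ((N : ℝ) + 1 / 2) * Real.pi with hr
  have hrtend : Tendsto r atTop atTop := by
    apply Tendsto.atTop_mul_const Real.pi_pos
    exact tendsto_atTop_add_const_right _ _ tendsto_natCast_atTop_atTop
  have hbound : ∀ᶠ N in atTop, ∀ z ∈ sphere (0:ℂ) (r N), ‖H z‖ ≤ ((C / c + S) * 4 ^ (p + 1)) * r N ^ (p + 1) := by
    filter_upwards [tendsto_natCast_atTop_atTop.eventually (eventually_ge_atTop (4 * M)),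
      eventually_ge_atTop 1] with N hN hN1
    intro z hz
    have hπ := Real.pi_gt_three
    have hN1' : (1:ℝ) ≤ N := by exact_mod_cast hN1
    have hrN : 1 ≤ r N := by
      simp only [hr]; nlinarith
    have hrM : 4 * M ≤ r N := by simp only [hr]; nlinarith
    set U : Set ℂ := (Set.Ioo (-(r N)) (r N)) ×ℂ (Set.Ioo (-(2 * r N)) (2 * r N)) with hU
    have hnormU : ∀ w ∈ closure U, ‖w‖ ≤ 3 * r N := by
      intro w hw
      rw [hU, Complex.closure_reProdIm, closure_Ioo (by linarith), closure_Ioo (by linarith)] at hw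
      obtain ⟨h1, h2⟩ := hw
      have h1' : |w.re| ≤ r N := abs_le.2 h1
      have h2' : |w.im| ≤ 2 * r N := abs_le.2 h2
      refine (Complex.norm_le_abs_re_add_abs_im w).trans ?_
      linarith
    have hUb : Bornology.IsBounded U := by
      apply (isBounded_closedBall (x := (0:ℂ)) (r := 3 * r N)).subset
      intro w hw
      simpa using hnormU w (subset_closure hw)
    have hfr : ∀ w ∈ frontier U, Good M CC w := by
      intro w hw
      rw [hU, Complex.frontier_reProdIm, closure_Ioo (by linarith), closure_Ioo (by linarith),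
        frontier_Ioo (by linarith), frontier_Ioo (by linarith)] at hw
      rcases hw with ⟨h1, h2⟩ | ⟨h1, h2⟩
      · have h1' : |w.re| ≤ r N := abs_le.2 h1
        have h2' : |w.im| = 2 * r N := by
          have h2'' : w.im = -(2 * r N) ∨ w.im = 2 * r N := h2
          rcases h2'' with h | h
          · rw [h, abs_neg, abs_of_nonneg (by linarith)]
          · rw [h, abs_of_nonneg (by linarith)]
        have h3 : w.re ^ 2 ≤ r N ^ 2 := by rw [← sq_abs]; gcongr
        have h4 : w.im ^ 2 = 4 * r N ^ 2 := by rw [← sq_abs, h2']; ring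
        apply good_horizontal
        · rw [h2']; linarith
        · rw [h4]; nlinarith
        · rw [h4]; nlinarith
      · have h1' : |w.re| = r N := by
          have h1'' : w.re = -r N ∨ w.re = r N := h1
          rcases h1'' with h | h
          · rw [h, abs_neg, abs_of_nonneg (by linarith)]
          · rw [h, abs_of_nonneg (by linarith)]
        exact good_vertical hN h1'
    have hmax := Complex.norm_le_of_forall_mem_frontier_norm_le hUb hHd.diffContOnCl
      (C := (C / c + S) * (4 * r N) ^ (p + 1)) (by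
        intro w hw
        refine (hHb2 w (hfr w hw)).trans ?_
        have h1 := hnormU w (frontier_subset_closure hw)
        have h2 : 0 ≤ C / c + S := by positivity
        have h3 := norm_nonneg w
        gcongr
        linarith) (z := z) (by
        have h1 : ‖z‖ = r N := by simpa using hz
        rw [hU, Complex.closure_reProdIm, closure_Ioo (by linarith), closure_Ioo (by linarith)]
        constructor
        · exact abs_le.1 ((Complex.abs_re_le_norm z).trans h1.le)
        · have := (Complex.abs_im_le_norm z).trans h1.le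
          exact abs_le.1 (this.trans (by linarith)))
    refine hmax.trans (le_of_eq ?_)
    rw [mul_pow]; ring
  -- decay along the imaginary axis
  have haxis : ∀ᶠ n : ℕ in atTop, Good M CC ((n : ℝ) * Complex.I) := by
    filter_upwards [tendsto_natCast_atTop_atTop.eventually (eventually_ge_atTop (2 * M + 1))] with n hn
    apply good_horizontal
    · simp only [Complex.mul_im, Complex.ofReal_re, Complex.I_im, mul_one, Complex.ofReal_im,
        Complex.I_re, mul_zero, add_zero]
      rw [abs_of_nonneg (by positivity)]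
      linarith
    · simp only [Complex.mul_re, Complex.mul_im, Complex.ofReal_re, Complex.I_im, mul_one,
        Complex.ofReal_im, Complex.I_re, mul_zero, add_zero, sub_zero]
      nlinarith
    · simp only [Complex.mul_re, Complex.mul_im, Complex.ofReal_re, Complex.I_im, mul_one,
        Complex.ofReal_im, Complex.I_re, mul_zero, add_zero, sub_zero]
      nlinarith
  have hlim : Tendsto (fun n : ℕ => H ((n : ℝ) * Complex.I)) atTop (𝓝 0) := by
    have hb : ∀ᶠ n : ℕ in atTop, ‖H ((n : ℝ) * Complex.I)‖ ≤ (C2 / c + S) * (1 / (n : ℝ)) := by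
      filter_upwards [haxis, eventually_ge_atTop 1] with n hn hn1
      obtain ⟨h1, h2, h3⟩ := hgood _ hn
      have hn1' : (1:ℝ) ≤ n := by exact_mod_cast hn1
      have him : ((n : ℝ) * Complex.I : ℂ).im = n := by simp
      have hnorm : ‖((n : ℝ) * Complex.I : ℂ)‖ = n := by
        rw [norm_mul, Complex.norm_I, mul_one, Complex.norm_real, Real.norm_of_nonneg (by positivity)]
      rw [him, abs_of_nonneg (by positivity), hnorm] at h1
      have hGk : G ((n : ℝ) * Complex.I) ≠ 0 := prodAll_ne_zero ht hs h2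
      have hGk' : 0 < ‖G ((n : ℝ) * Complex.I)‖ := norm_pos_iff.2 hGk
      rw [hHval _ hn]
      refine (norm_sub_le _ _).trans ?_
      rw [norm_div, add_mul]
      apply add_le_add
      · rw [div_le_iff₀ hGk']
        have h5 : Real.exp n ≤ ((n : ℝ) * ‖G ((n : ℝ) * Complex.I)‖) / c := by
          rw [le_div_iff₀ hc, mul_comm]; exact h1
        have h6 := hdec n hn1'
        have hC2 : 0 ≤ C2 := by
          have h7 : 0 ≤ C2 * Real.exp n := le_trans (by positivity) h6
          by_contra hcon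
          push Not at hcon
          have := mul_neg_of_neg_of_pos hcon (Real.exp_pos n)
          linarith
        have h7 : ‖R ((n : ℝ) * Complex.I)‖ ≤ C2 * Real.exp n / (n : ℝ) ^ 2 := by
          rw [le_div_iff₀ (by positivity)]; exact h6
        calc ‖R ((n : ℝ) * Complex.I)‖ ≤ C2 * Real.exp n / (n : ℝ) ^ 2 := h7
          _ ≤ C2 * (((n : ℝ) * ‖G ((n : ℝ) * Complex.I)‖) / c) / (n : ℝ) ^ 2 := by gcongr
          _ = C2 / c * (1 / (n : ℝ)) * ‖G ((n : ℝ) * Complex.I)‖ := by field_simp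
      · have h4 : ∀ m, ‖a m / (((n : ℝ) * Complex.I) ^ 2 - (t m : ℂ))‖ ≤ ‖a m‖ * (1 / (n : ℝ)) := by
          intro m
          rw [norm_div]
          have h5 : (n : ℝ) ≤ ‖((n : ℝ) * Complex.I) ^ 2 - (t m : ℂ)‖ := by
            have e : ((n : ℝ) * Complex.I) ^ 2 - (t m : ℂ) = -(((n : ℝ) ^ 2 + t m : ℝ) : ℂ) := by
              rw [mul_pow, Complex.I_sq]; push_cast; ring
            rw [e, norm_neg, Complex.norm_real, Real.norm_of_nonneg (by have := ht m; positivity)]
            have := ht m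
            nlinarith
          rw [mul_one_div]
          gcongr
        have h5 := tsum_of_norm_bounded (hsum.mul_right (1 / (n : ℝ))).hasSum h4
        rwa [tsum_mul_right] at h5
    have h0 : Tendsto (fun n : ℕ => (C2 / c + S) * (1 / (n : ℝ))) atTop (𝓝 0) := by
      simpa using (tendsto_one_div_atTop_nhds_zero_nat (𝕜 := ℝ)).const_mul (C2 / c + S)
    exact squeeze_zero_norm' hb h0
  have hw : Tendsto (fun n : ℕ => ‖((n : ℝ) * Complex.I : ℂ)‖) atTop atTop := by
    refine tendsto_natCast_atTop_atTop.congr fun n => ?_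
    rw [norm_mul, Complex.norm_I, mul_one, Complex.norm_real, Real.norm_of_nonneg (by positivity)]
  have hH0 := eq_zero_of_growth hHd hrtend hbound hw hlim
  intro k
  have h1 := hH k
  rw [hH0] at h1
  simp only [hf, Pi.zero_apply, zero_mul] at h1
  exact sub_eq_zero.1 h1

/-- all moments vanish when the function is small on the imaginary axis -/
theorem moments_vanish {t : ℕ → ℝ} (ht : ∀ n, 0 < t n)
    (hs : Summable fun n => (t n)⁻¹) {M : ℝ} (hM1 : 1 ≤ M) (hM : ∀ n, |t n - sq n| ≤ M)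
    {R : ℂ → ℂ} {a : ℕ → ℂ} (hRL : ∀ k, R k = LL t a (k ^ 2))
    (hdec : ∀ N : ℕ, ∃ C2 : ℝ, ∀ y : ℝ, 1 ≤ y →
      ‖R (y * Complex.I)‖ * y ^ N ≤ C2 * Real.exp y)
    (hsum : ∀ j : ℕ, Summable fun n => ‖a n‖ * t n ^ j) (J : ℕ) :
    ∑' n, a n * (t n : ℂ) ^ J = 0 := by
  obtain ⟨c, hc, hgood⟩ := good_bound ht hs hM1 hM
  have hsumC : ∀ j : ℕ, Summable fun n => a n * (t n : ℂ) ^ j := by
    intro j
    apply Summable.of_norm_bounded (hsum j)
    intro n
    rw [norm_mul, norm_pow, Complex.norm_real, Real.norm_of_nonneg (ht n).le]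
  have haxis : ∀ᶠ n : ℕ in atTop, Good M CC ((n : ℝ) * Complex.I) := by
    filter_upwards [tendsto_natCast_atTop_atTop.eventually (eventually_ge_atTop (2 * M + 1))] with n hn
    apply good_horizontal
    · simp only [Complex.mul_im, Complex.ofReal_re, Complex.I_im, mul_one, Complex.ofReal_im,
        Complex.I_re, mul_zero, add_zero]
      rw [abs_of_nonneg (by positivity)]
      linarith
    · simp only [Complex.mul_re, Complex.mul_im, Complex.ofReal_re, Complex.I_im, mul_one,
        Complex.ofReal_im, Complex.I_re, mul_zero, add_zero, sub_zero]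
      nlinarith
    · simp only [Complex.mul_re, Complex.mul_im, Complex.ofReal_re, Complex.I_im, mul_one,
        Complex.ofReal_im, Complex.I_re, mul_zero, add_zero, sub_zero]
      nlinarith
  -- the Cauchy transform is small
  set A : ℕ → ℂ := fun m => ∑' n, a n / (((m : ℝ) ^ 2 : ℝ) + (t n : ℂ)) with hA
  have hAsmall : ∀ N : ℕ, ∃ C3 : ℝ, ∀ᶠ m : ℕ in atTop, ‖A m‖ * (m : ℝ) ^ N ≤ C3 := by
    intro N
    obtain ⟨C2, hC2⟩ := hdec (N + 1)
    refine ⟨C2 / c, ?_⟩
    filter_upwards [haxis, eventually_ge_atTop 1] with m hm hm1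
    obtain ⟨h1, h2, h3⟩ := hgood _ hm
    have hm1' : (1:ℝ) ≤ m := by exact_mod_cast hm1
    have him : ((m : ℝ) * Complex.I : ℂ).im = m := by simp
    have hnorm : ‖((m : ℝ) * Complex.I : ℂ)‖ = m := by
      rw [norm_mul, Complex.norm_I, mul_one, Complex.norm_real, Real.norm_of_nonneg (by positivity)]
    rw [him, abs_of_nonneg (by positivity), hnorm] at h1
    have hG : prodAll t (((m : ℝ) * Complex.I) ^ 2) ≠ 0 := prodAll_ne_zero ht hs h2
    have hG' : 0 < ‖prodAll t (((m : ℝ) * Complex.I) ^ 2)‖ := norm_pos_iff.2 hG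
    have e1 : R ((m : ℝ) * Complex.I) = -(prodAll t (((m : ℝ) * Complex.I) ^ 2) * A m) := by
      rw [hRL, LL_eq ht hs h2, ← mul_neg]
      congr 1
      simp only [hA]
      rw [← tsum_neg]
      congr 1
      ext n
      have e : ((m : ℝ) * Complex.I) ^ 2 - (t n : ℂ) = -((((m : ℝ) ^ 2 : ℝ) : ℂ) + (t n : ℂ)) := by
        rw [mul_pow, Complex.I_sq]; push_cast; ring
      rw [e, div_neg]
    have e2 : ‖R ((m : ℝ) * Complex.I)‖ = ‖prodAll t (((m : ℝ) * Complex.I) ^ 2)‖ * ‖A m‖ := by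
      rw [e1, norm_neg, norm_mul]
    have h4 := hC2 m hm1'
    rw [e2] at h4
    rw [le_div_iff₀ hc]
    have h5 : c * Real.exp m * (‖A m‖ * (m : ℝ) ^ N) ≤ C2 * Real.exp m := by
      calc c * Real.exp m * (‖A m‖ * (m : ℝ) ^ N)
          ≤ (m * ‖prodAll t (((m : ℝ) * Complex.I) ^ 2)‖) * (‖A m‖ * (m : ℝ) ^ N) := by gcongr
        _ = ‖prodAll t (((m : ℝ) * Complex.I) ^ 2)‖ * ‖A m‖ * (m : ℝ) ^ (N + 1) := by
            rw [pow_succ]; ring
        _ ≤ C2 * Real.exp m := h4
    have h6 := Real.exp_pos (m : ℝ)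
    have h7 : Real.exp m * (‖A m‖ * (m : ℝ) ^ N * c) ≤ Real.exp m * C2 := by
      calc Real.exp m * (‖A m‖ * (m : ℝ) ^ N * c) = c * Real.exp m * (‖A m‖ * (m : ℝ) ^ N) := by ring
        _ ≤ C2 * Real.exp m := h5
        _ = Real.exp m * C2 := by ring
    exact le_of_mul_le_mul_left h7 h6
  induction J using Nat.strong_induction_on with
  | _ J ih =>
    have hxne : ∀ m n : ℕ, 1 ≤ m → ((((m : ℝ) ^ 2 : ℝ) : ℂ) + (t n : ℂ)) ≠ 0 := by
      intro m n hm
      rw [← Complex.ofReal_add]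
      have := ht n
      have : (0:ℝ) < (m : ℝ) ^ 2 + t n := by positivity
      exact_mod_cast this.ne'
    -- reduce
    have hred : ∀ m : ℕ, 1 ≤ m → ∑' n, a n * (t n : ℂ) ^ J / ((((m : ℝ) ^ 2 : ℝ) : ℂ) + (t n : ℂ)) =
        (-(((m : ℝ) ^ 2 : ℝ) : ℂ)) ^ J * A m := by
      intro m hm
      set x : ℂ := (((m : ℝ) ^ 2 : ℝ) : ℂ) with hx
      have e1 : ∀ n, a n * (t n : ℂ) ^ J / (x + (t n : ℂ)) =
          (∑ i ∈ Finset.range J, a n * (t n : ℂ) ^ i * (-x) ^ (J - 1 - i)) +
            (-x) ^ J * (a n / (x + (t n : ℂ))) := by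
        intro n
        have h1 := hxne m n hm
        have h2 := geom_sum₂_mul (t n : ℂ) (-x) J
        rw [sub_neg_eq_add] at h2
        have h3 : (t n : ℂ) ^ J = (∑ i ∈ Finset.range J, (t n : ℂ) ^ i * (-x) ^ (J - 1 - i)) *
            ((t n : ℂ) + x) + (-x) ^ J := by rw [h2]; ring
        have h4 : ∑ i ∈ Finset.range J, a n * (t n : ℂ) ^ i * (-x) ^ (J - 1 - i) =
            a n * ∑ i ∈ Finset.range J, (t n : ℂ) ^ i * (-x) ^ (J - 1 - i) := by
          rw [Finset.mul_sum]
          apply Finset.sum_congr rfl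
          intro i _; ring
        rw [h4]
        rw [← hx] at h1
        generalize (∑ i ∈ Finset.range J, (t n : ℂ) ^ i * (-x) ^ (J - 1 - i)) = sg at h3 ⊢
        rw [h3]
        field_simp
        ring
      have hs1 : ∀ i ∈ Finset.range J, Summable fun n => a n * (t n : ℂ) ^ i * (-x) ^ (J - 1 - i) :=
        fun i _ => (hsumC i).mul_right _
      have hs2 : Summable fun n => (-x) ^ J * (a n / (x + (t n : ℂ))) := by
        apply Summable.mul_left
        apply Summable.of_norm_bounded (hsum 0)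
        intro n
        rw [norm_div, pow_zero, mul_one]
        apply div_le_self (norm_nonneg _)
        rw [hx, ← Complex.ofReal_add, Complex.norm_real, Real.norm_of_nonneg
          (by have := ht n; positivity)]
        have h1 : (1:ℝ) ≤ m := by exact_mod_cast hm
        have := ht n
        nlinarith
      calc ∑' n, a n * (t n : ℂ) ^ J / (x + (t n : ℂ))
          = ∑' n, ((∑ i ∈ Finset.range J, a n * (t n : ℂ) ^ i * (-x) ^ (J - 1 - i)) +
            (-x) ^ J * (a n / (x + (t n : ℂ)))) := tsum_congr e1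
        _ = (∑' n, ∑ i ∈ Finset.range J, a n * (t n : ℂ) ^ i * (-x) ^ (J - 1 - i)) +
            ∑' n, (-x) ^ J * (a n / (x + (t n : ℂ))) :=
            (summable_sum hs1).tsum_add hs2
        _ = 0 + (-x) ^ J * A m := by
            congr 1
            · rw [Summable.tsum_finsetSum hs1]
              apply Finset.sum_eq_zero
              intro i hi
              rw [tsum_mul_right, ih i (Finset.mem_range.1 hi), zero_mul]
            · rw [tsum_mul_left]
        _ = _ := by rw [zero_add]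
    have hl1 : Tendsto (fun m : ℕ => ∑' n, a n * (t n : ℂ) ^ J *
        ((((m : ℝ) ^ 2 : ℝ) : ℂ) / ((((m : ℝ) ^ 2 : ℝ) : ℂ) + (t n : ℂ)))) atTop
        (𝓝 (∑' n, a n * (t n : ℂ) ^ J * 1)) := by
      apply tendsto_tsum_of_dominated_convergence (hsum J)
      · intro n
        apply Tendsto.const_mul
        have h1 : Tendsto (fun m : ℕ => (m : ℝ) ^ 2 / ((m : ℝ) ^ 2 + t n)) atTop (𝓝 1) := by
          have h2 : Tendsto (fun m : ℕ => 1 - t n / ((m : ℝ) ^ 2 + t n)) atTop (𝓝 (1 - 0)) := by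
            apply Tendsto.const_sub
            apply Tendsto.div_atTop tendsto_const_nhds
            apply tendsto_atTop_add_const_right
            exact (tendsto_pow_atTop (by norm_num)).comp tendsto_natCast_atTop_atTop
          rw [sub_zero] at h2
          refine h2.congr fun m => ?_
          have := ht n
          have : (m : ℝ) ^ 2 + t n ≠ 0 := by positivity
          field_simp
          ring
        have h3 := (Complex.continuous_ofReal.tendsto (1:ℝ)).comp h1
        refine Tendsto.congr (fun m => ?_) h3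
        simp only [Function.comp_apply]
        push_cast
        rfl
      · filter_upwards [eventually_ge_atTop 1] with m hm n
        rw [norm_mul, norm_mul, norm_pow, Complex.norm_real, Real.norm_of_nonneg (ht n).le]
        have h1 : ‖(((m : ℝ) ^ 2 : ℝ) : ℂ) / ((((m : ℝ) ^ 2 : ℝ) : ℂ) + (t n : ℂ))‖ ≤ 1 := by
          rw [norm_div, ← Complex.ofReal_add, Complex.norm_real, Complex.norm_real,
            Real.norm_of_nonneg (by positivity), Real.norm_of_nonneg (by have := ht n; positivity)]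
          apply div_le_one_of_le₀ _ (by have := ht n; positivity)
          have := ht n; linarith
        have h2 : 0 ≤ ‖a n‖ * t n ^ J := mul_nonneg (norm_nonneg _) (pow_nonneg (ht n).le _)
        nlinarith
    have hl2 : Tendsto (fun m : ℕ => ∑' n, a n * (t n : ℂ) ^ J *
        ((((m : ℝ) ^ 2 : ℝ) : ℂ) / ((((m : ℝ) ^ 2 : ℝ) : ℂ) + (t n : ℂ)))) atTop (𝓝 0) := by
      obtain ⟨C3, hC3⟩ := hAsmall (2 * J + 3)
      have hb : ∀ᶠ m : ℕ in atTop, ‖∑' n, a n * (t n : ℂ) ^ J *
          ((((m : ℝ) ^ 2 : ℝ) : ℂ) / ((((m : ℝ) ^ 2 : ℝ) : ℂ) + (t n : ℂ)))‖ ≤ C3 * (1 / (m : ℝ)) := by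
        filter_upwards [hC3, eventually_ge_atTop 1] with m hm hm1
        have hm1' : (1:ℝ) ≤ m := by exact_mod_cast hm1
        have e1 : ∑' n, a n * (t n : ℂ) ^ J *
          ((((m : ℝ) ^ 2 : ℝ) : ℂ) / ((((m : ℝ) ^ 2 : ℝ) : ℂ) + (t n : ℂ))) =
          (((m : ℝ) ^ 2 : ℝ) : ℂ) * ((-(((m : ℝ) ^ 2 : ℝ) : ℂ)) ^ J * A m) := by
          rw [← hred m hm1, ← tsum_mul_left]
          congr 1; ext n; ring
        rw [e1, norm_mul, norm_mul, norm_pow, norm_neg, Complex.norm_real,
          Real.norm_of_nonneg (by positivity), mul_one_div, le_div_iff₀ (by positivity)]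
        refine le_trans (le_of_eq ?_) hm
        ring
      have h0 : Tendsto (fun m : ℕ => C3 * (1 / (m : ℝ))) atTop (𝓝 0) := by
        simpa using (tendsto_one_div_atTop_nhds_zero_nat (𝕜 := ℝ)).const_mul C3
      exact squeeze_zero_norm' hb h0
    have h := tendsto_nhds_unique hl1 hl2
    simpa using h

end Run7.h374
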