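import Pool.Agent.Run7.h374.Flat2

/-! Asymptotics of the fundamental solutions, uniformly for `x ∈ [0, 1]` and `k ∈ ℂ`. -/

set_option autoImplicit false

namespace Run7.h374

open Filter Topology Metric MeasureTheory
open scoped Interval ComplexConjugate

variable {q : ℝ → ℝ} {K : ℝ}

lemma norm_Cx_le2 {x : ℝ} (hx : 0 ≤ x) (k : ℂ) : ‖Cx x k‖ ≤ Real.exp (|k.im| * x) := by
  have := norm_Cx_le x k
  rwa [abs_of_nonneg hx] at this

lemma norm_Sx_le2 {x : ℝ} (hx : 0 ≤ x) {k : ℂ} (hk : k ≠ 0) :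
    ‖Sx x k‖ ≤ Real.exp (|k.im| * x) / ‖k‖ := by
  have hk' : 0 < ‖k‖ := norm_pos_iff.2 hk
  rw [le_div_iff₀ hk', mul_comm, ← norm_mul, Sx_mul]
  refine (norm_sin_le' _).trans (le_of_eq ?_)
  have : (k * (x : ℂ)).im = k.im * x := by simp
  rw [this, abs_mul, abs_of_nonneg hx]

lemma int_asy (hK : ∀ x, |q x| ≤ K) {W Y : ℝ → ℂ} {A B x y : ℝ} (hx : x ∈ Set.Icc (0:ℝ) 1)
    (hA : 0 ≤ A) (hB : 0 ≤ B)
    (hW : ∀ t ∈ Set.Icc (0:ℝ) x, ‖W t‖ ≤ A * Real.exp (y * (x - t)))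
    (hY : ∀ t ∈ Set.Icc (0:ℝ) 1, ‖Y t‖ ≤ B * Real.exp (y * t)) :
    ‖∫ t in (0:ℝ)..x, W t * ((q t : ℂ) * Y t)‖ ≤ A * (K * B) * Real.exp (y * x) := by
  have hK0 : 0 ≤ K := (abs_nonneg _).trans (hK 0)
  have h1 : ∀ t ∈ Ι (0:ℝ) x, ‖W t * ((q t : ℂ) * Y t)‖ ≤ A * (K * B) * Real.exp (y * x) := by
    intro t ht
    rw [Set.uIoc_of_le hx.1] at ht
    rw [norm_mul, norm_mul, Complex.norm_real, Real.norm_eq_abs]
    have h2 := hW t ⟨ht.1.le, ht.2⟩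
    have h3 := hK t
    have h4 := hY t ⟨ht.1.le, ht.2.trans hx.2⟩
    calc ‖W t‖ * (|q t| * ‖Y t‖) ≤ (A * Real.exp (y * (x - t))) * (K * (B * Real.exp (y * t))) := by
          gcongr
      _ = A * (K * B) * (Real.exp (y * (x - t)) * Real.exp (y * t)) := by ring
      _ = _ := by rw [← Real.exp_add]; congr 2; ring
  refine (intervalIntegral.norm_integral_le_of_norm_le_const h1).trans ?_
  rw [sub_zero, abs_of_nonneg hx.1]
  have : 0 ≤ A * (K * B) * Real.exp (y * x) := by positivity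
  nlinarith [hx.2]

/-- asymptotics -/
theorem asym_all (hq : Continuous q) (hK : ∀ x, |q x| ≤ K) :
    ∃ C : ℝ, 1 ≤ C ∧ ∀ x ∈ Set.Icc (0:ℝ) 1, ∀ k : ℂ, k ≠ 0 →
      ‖fy1 q x k - Cx x k‖ ≤ C * Real.exp (|k.im| * x) / ‖k‖ ∧
      ‖fy2 q x k - Sx x k‖ ≤ C * Real.exp (|k.im| * x) / ‖k‖ ^ 2 ∧
      ‖fz1 q x k + k ^ 2 * Sx x k‖ ≤ C * Real.exp (|k.im| * x) ∧
      ‖fz2 q x k - Cx x k‖ ≤ C * Real.exp (|k.im| * x) / ‖k‖ ∧
      ‖fy1 q x k‖ ≤ C * Real.exp (|k.im| * x) ∧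
      ‖fy2 q x k‖ ≤ C * Real.exp (|k.im| * x) / ‖k‖ ∧
      ‖fy2 q x k‖ ≤ C * Real.exp (|k.im| * x) := by
  have hK0 : 0 ≤ K := (abs_nonneg _).trans (hK 0)
  set E := Real.exp (1 + K) with hE
  have hE0 : 0 < E := Real.exp_pos _
  set C1 := 1 + K * E with hC1
  have hC10 : 0 ≤ C1 := by positivity
  set C := 1 + E + C1 + K * E + K * C1 with hC
  have hKE : 0 ≤ K * E := by positivity
  have hKC : 0 ≤ K * C1 := by positivity
  refine ⟨C, by linarith, fun x hx k hk => ?_⟩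
  have hk' : 0 < ‖k‖ := norm_pos_iff.2 hk
  have a1 : ∀ t ∈ Set.Icc (0:ℝ) 1, ‖fy1 q t k‖ ≤ E * Real.exp (|k.im| * t) := by
    intro t ht
    refine (fy1_bound hK t k).trans ?_
    rw [hE, ← Real.exp_add, abs_of_nonneg ht.1]
    apply Real.exp_le_exp.2
    nlinarith [ht.1, ht.2, abs_nonneg k.im]
  have a2 : ∀ t ∈ Set.Icc (0:ℝ) 1, ‖fy2 q t k‖ ≤ E * Real.exp (|k.im| * t) := by
    intro t ht
    refine (fy2_bound hK t k).trans ?_
    rw [hE, ← Real.exp_add, abs_of_nonneg ht.1]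
    apply Real.exp_le_exp.2
    nlinarith [ht.1, ht.2, abs_nonneg k.im]
  have hS : ∀ t ∈ Set.Icc (0:ℝ) 1, ∀ s ∈ Set.Icc (0:ℝ) t,
      ‖Sx (t - s) k‖ ≤ 1 / ‖k‖ * Real.exp (|k.im| * (t - s)) := by
    intro t _ s hs
    refine (norm_Sx_le2 (by linarith [hs.2]) hk).trans (le_of_eq ?_)
    ring
  have hCc : ∀ t ∈ Set.Icc (0:ℝ) 1, ∀ s ∈ Set.Icc (0:ℝ) t,
      ‖Cx (t - s) k‖ ≤ 1 * Real.exp (|k.im| * (t - s)) := by
    intro t _ s hs
    rw [one_mul]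
    exact norm_Cx_le2 (by linarith [hs.2]) k
  have b2 : ∀ t ∈ Set.Icc (0:ℝ) 1, ‖fy2 q t k‖ ≤ C1 / ‖k‖ * Real.exp (|k.im| * t) := by
    intro t ht
    have e := Vsol_int hq Sx_cont hK norm_Sx_le' t k
    have h1 := int_asy hK (W := fun s => Sx (t - s) k) (Y := fun s => fy2 q s k) (y := |k.im|) ht
      (one_div_pos.2 hk').le hE0.le (hS t ht) a2
    show ‖Vsol q Sx t k‖ ≤ _
    rw [e]
    refine (norm_add_le _ _).trans ?_
    have h2 := norm_Sx_le2 ht.1 hk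
    have h3 : Real.exp (|k.im| * t) / ‖k‖ + 1 / ‖k‖ * (K * E) * Real.exp (|k.im| * t) =
        C1 / ‖k‖ * Real.exp (|k.im| * t) := by rw [hC1]; ring
    rw [← h3]
    exact add_le_add h2 h1
  have hX := Real.exp_pos (|k.im| * x)
  refine ⟨?_, ?_, ?_, ?_, ?_, ?_, ?_⟩
  · have e := Vsol_int hq Cx_cont hK norm_Cx_le' x k
    have h1 := int_asy hK (W := fun s => Sx (x - s) k) (Y := fun s => fy1 q s k) (y := |k.im|) hx
      (one_div_pos.2 hk').le hE0.le (hS x hx) a1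
    have e2 : fy1 q x k - Cx x k = ∫ t in (0:ℝ)..x, Sx (x - t) k * ((q t : ℂ) * fy1 q t k) := by
      show Vsol q Cx x k - Cx x k = _
      rw [e, add_sub_cancel_left]; rfl
    rw [e2]
    refine h1.trans ?_
    rw [one_div_mul_eq_div, div_mul_eq_mul_div]
    gcongr
    linarith
  · have e := Vsol_int hq Sx_cont hK norm_Sx_le' x k
    have h1 := int_asy hK (W := fun s => Sx (x - s) k) (Y := fun s => fy2 q s k) (y := |k.im|) hx
      (one_div_pos.2 hk').le (by positivity : 0 ≤ C1 / ‖k‖) (hS x hx) b2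
    have e2 : fy2 q x k - Sx x k = ∫ t in (0:ℝ)..x, Sx (x - t) k * ((q t : ℂ) * fy2 q t k) := by
      show Vsol q Sx x k - Sx x k = _
      rw [e, add_sub_cancel_left]; rfl
    rw [e2]
    refine h1.trans ?_
    calc 1 / ‖k‖ * (K * (C1 / ‖k‖)) * Real.exp (|k.im| * x)
        = K * C1 * Real.exp (|k.im| * x) / ‖k‖ ^ 2 := by field_simp
      _ ≤ C * Real.exp (|k.im| * x) / ‖k‖ ^ 2 := by gcongr; linarith
  · have h1 := int_asy hK (W := fun s => Cx (x - s) k) (Y := fun s => fy1 q s k) (y := |k.im|) hx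
      zero_le_one hE0.le (hCc x hx) a1
    have e2 : fz1 q x k + k ^ 2 * Sx x k = ∫ t in (0:ℝ)..x, Cx (x - t) k * ((q t : ℂ) * fy1 q t k) := by
      unfold fz1
      rw [Vsold_int hq Cx_cont hK norm_Cx_le', neg_add_eq_sub, sub_add_cancel]; rfl
    rw [e2]
    refine h1.trans ?_
    gcongr
    linarith
  · have h1 := int_asy hK (W := fun s => Cx (x - s) k) (Y := fun s => fy2 q s k) (y := |k.im|) hx
      zero_le_one (by positivity : 0 ≤ C1 / ‖k‖) (hCc x hx) b2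
    have e2 : fz2 q x k - Cx x k = ∫ t in (0:ℝ)..x, Cx (x - t) k * ((q t : ℂ) * fy2 q t k) := by
      unfold fz2
      rw [Vsold_int hq Sx_cont hK norm_Sx_le', add_sub_cancel_left]; rfl
    rw [e2]
    refine h1.trans ?_
    rw [one_mul, mul_div_assoc', div_mul_eq_mul_div]
    gcongr
    linarith
  · refine (a1 x hx).trans ?_
    gcongr
    linarith
  · refine (b2 x hx).trans ?_
    rw [div_mul_eq_mul_div]
    gcongr
    linarith
  · refine (a2 x hx).trans ?_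
    gcongr
    linarith

end Run7.h374
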