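import Pool.Agent.Run7.h374.Spec

/-! Existence of the Hill spectrum and its first asymptotics. -/

set_option autoImplicit false
set_option linter.unusedSectionVars false

namespace Run7.h374

open Filter Topology MeasureTheory AddCircle
open scoped ComplexConjugate Classical

/-- a family of reals with finite sublevel sets can be sorted -/
lemma exists_sorted {J : Type*} [Infinite J] (ν : J → ℝ) (hfin : ∀ M, {j | ν j ≤ M}.Finite) :
    ∃ e : ℕ ≃ J, Monotone (fun n => ν (e n)) := by
  have hcount : Countable J := by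
    have h1 : (Set.univ : Set J) = ⋃ n : ℕ, {j | ν j ≤ n} := by
      ext j
      simp only [Set.mem_univ, Set.mem_iUnion, Set.mem_ofPred_eq, true_iff]
      exact exists_nat_ge (ν j)
    have h2 : (Set.univ : Set J).Countable := by
      rw [h1]
      exact Set.countable_iUnion fun n => (hfin n).countable
    exact Set.countable_univ_iff.1 h2
  obtain ⟨g, hg⟩ := hcount.exists_injective_nat
  -- lexicographic order
  let lt : J → J → Prop := fun i j => ν i < ν j ∨ (ν i = ν j ∧ g i < g j)
  have hlt_trichotomy : ∀ i j, lt i j ∨ i = j ∨ lt j i := by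
    intro i j
    rcases lt_trichotomy (ν i) (ν j) with h | h | h
    · exact Or.inl (Or.inl h)
    · rcases lt_trichotomy (g i) (g j) with h' | h' | h'
      · exact Or.inl (Or.inr ⟨h, h'⟩)
      · exact Or.inr (Or.inl (hg h'))
      · exact Or.inr (Or.inr (Or.inr ⟨h.symm, h'⟩))
    · exact Or.inr (Or.inr (Or.inl h))
  have hlt_irrefl : ∀ i, ¬ lt i i := by
    rintro i (h | ⟨_, h⟩) <;> exact lt_irrefl _ h
  have hlt_trans : ∀ i j k, lt i j → lt j k → lt i k := by
    rintro i j k (h | ⟨h, h'⟩) (h1 | ⟨h1, h1'⟩)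
    · exact Or.inl (h.trans h1)
    · exact Or.inl (h1 ▸ h)
    · exact Or.inl (h ▸ h1)
    · exact Or.inr ⟨h.trans h1, h'.trans h1'⟩
  have hfinlt : ∀ j, {i | lt i j}.Finite := by
    intro j
    apply (hfin (ν j)).subset
    rintro i (h | ⟨h, _⟩)
    · exact h.le
    · exact h.le
  let r : J → ℕ := fun j => {i | lt i j}.ncard
  have hr_lt : ∀ i j, lt i j → r i < r j := by
    intro i j hij
    apply Set.ncard_lt_ncard _ (hfinlt j)
    constructor
    · intro k hk
      exact hlt_trans k i j hk hij
    · intro h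
      exact hlt_irrefl i (h hij)
  have hr_inj : Function.Injective r := by
    intro i j hij
    rcases hlt_trichotomy i j with h | h | h
    · exact absurd hij (hr_lt i j h).ne
    · exact h
    · exact absurd hij (hr_lt j i h).ne'
  have hr_surj : Function.Surjective r := by
    -- the range is downward closed
    have hdown : ∀ n j, r j = n + 1 → ∃ i, r i = n := by
      intro n j hj
      -- choose i maximal below j
      have hne : {i | lt i j}.Nonempty := by
        rw [Set.nonempty_iff_ne_empty]
        intro h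
        have : r j = 0 := by
          show {i | lt i j}.ncard = 0
          rw [h, Set.ncard_empty]
        omega
      obtain ⟨i, hi, himax⟩ := Set.exists_max_image {i | lt i j} r (hfinlt j) hne
      refine ⟨i, ?_⟩
      have h1 : {k | lt k j} = insert i {k | lt k i} := by
        ext k
        simp only [Set.mem_ofPred_eq, Set.mem_insert_iff]
        constructor
        · intro hk
          rcases hlt_trichotomy k i with h | h | h
          · exact Or.inr h
          · exact Or.inl h
          · have := himax k hk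
            have := hr_lt i k h
            omega
        · rintro (h | h)
          · rw [h]; exact hi
          · exact hlt_trans k i j h hi
      have h2 : r j = r i + 1 := by
        show {k | lt k j}.ncard = {k | lt k i}.ncard + 1
        have h3 : i ∉ {k | lt k i} := hlt_irrefl i
        rw [h1, Set.ncard_insert_of_notMem h3 (hfinlt i)]
      omega
    have hunb : ∀ n, ∃ j, n ≤ r j := by
      intro n
      by_contra hcon
      push Not at hcon
      have : Finite J := by
        apply Finite.of_injective (fun j => (⟨r j, hcon j⟩ : Fin n))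
        intro i j hij
        exact hr_inj (congrArg Fin.val hij)
      exact not_finite J
    intro n
    obtain ⟨j, hj⟩ := hunb n
    obtain ⟨m, hm⟩ := Nat.exists_eq_add_of_le hj
    clear hj
    induction m generalizing j with
    | zero => exact ⟨j, by omega⟩
    | succ m ih =>
      obtain ⟨i, hi⟩ := hdown (n + m) j (by omega)
      exact ih i (by omega)
  let e : ℕ ≃ J := (Equiv.ofBijective r ⟨hr_inj, hr_surj⟩).symm
  refine ⟨e, ?_⟩
  intro n m hnm
  by_contra hcon
  push Not at hcon
  have h1 : lt (e m) (e n) := Or.inl hcon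
  have h2 := hr_lt _ _ h1
  have h3 : r (e m) = m := (Equiv.ofBijective r ⟨hr_inj, hr_surj⟩).apply_symm_apply m
  have h4 : r (e n) = n := (Equiv.ofBijective r ⟨hr_inj, hr_surj⟩).apply_symm_apply n
  omega

lemma infinite_index {J : Type*} (φ : HilbertBasis J ℂ HH) : Infinite J := by
  by_contra hcon
  rw [not_infinite_iff_finite] at hcon
  have := Fintype.ofFinite J
  have hfd : FiniteDimensional ℂ HH := φ.toOrthonormalBasis.toBasis.finiteDimensional_of_finite
  have hli : LinearIndependent ℂ (fun k : ℤ => bas k) := bas.orthonormal.linearIndependent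
  have : Finite ℤ := hli.finite
  exact not_finite ℤ

/-- the Hill spectrum exists -/
theorem exists_hillSpectrum {q : ℝ → ℝ} (hq : Continuous q) (hper : ∀ x, q (x + 1) = q x) :
    ∃ lam : ℕ → ℝ, IsHillSpectrum q lam := by
  obtain ⟨J, φ, ν, hrel⟩ := exists_eigenbasis_HH (QQ hq hper) (sym_QQ hq hper)
  have := infinite_index φ
  obtain ⟨e, he⟩ := exists_sorted ν (finite_sublevel (sym_QQ hq hper) hrel finite_dd)
  refine ⟨fun n => ν (e n), he, fun μ => ?_⟩
  rw [← mult_eq hq hper hrel μ]
  have h1 : {n | ν (e n) = μ} = e ⁻¹' {j | ν j = μ} := rfl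
  rw [h1]
  exact Set.encard_preimage_of_bijective e.bijective _

/-- the sorted free eigenvalues -/
noncomputable def lam0 (n : ℕ) : ℝ := Real.pi ^ 2 * (((n + 1) / 2 : ℕ) : ℝ) ^ 2

lemma lam0_mono : Monotone lam0 := by
  intro n m h
  unfold lam0
  have : (n + 1) / 2 ≤ (m + 1) / 2 := Nat.div_le_div_right (by omega)
  gcongr

lemma lam0_even (n : ℕ) : lam0 (2 * n) = Real.pi ^ 2 * (n : ℝ) ^ 2 := by
  unfold lam0
  rw [show (2 * n + 1) / 2 = n by omega]

lemma lam0_odd (n : ℕ) (hn : 1 ≤ n) : lam0 (2 * n - 1) = Real.pi ^ 2 * (n : ℝ) ^ 2 := by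
  unfold lam0
  rw [show (2 * n - 1 + 1) / 2 = n by omega]

lemma exists_free_basis : ∃ φ0 : HilbertBasis ℕ ℂ HH, Rel bas dd 0 φ0 lam0 := by
  obtain ⟨φ0, hφ0⟩ := exists_reindex (bas : HilbertBasis ℤ ℂ HH) Equiv.intEquivNat.symm
  refine ⟨φ0, fun n => ?_⟩
  rw [hφ0]
  have h1 : lam0 n = dd (Equiv.intEquivNat.symm n) := by
    obtain ⟨m, rfl | rfl⟩ := n.even_or_odd'
    · rw [lam0_even]
      have : Equiv.intEquivNat.symm (2 * m) = (m : ℤ) := by
        rw [Equiv.symm_apply_eq]
        rfl
      rw [this]; unfold dd; push_cast; rfl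
    · have h2 := lam0_odd (m + 1) (by omega)
      have h3 : 2 * (m + 1) - 1 = 2 * m + 1 := by omega
      rw [h3] at h2
      rw [h2]
      have : Equiv.intEquivNat.symm (2 * m + 1) = Int.negSucc m := by
        rw [Equiv.symm_apply_eq]
        rfl
      rw [this]; unfold dd
      push_cast [Int.negSucc_eq]
      ring
  rw [h1]
  have h2 := IsD.basis (b := (bas : HilbertBasis ℤ ℂ HH)) (d := dd) (Equiv.intEquivNat.symm n)
  simpa using h2

variable {q : ℝ → ℝ} (hq : Continuous q) (hper : ∀ x, q (x + 1) = q x)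

/-- `|λ_n - λ_n(0)| ≤ ‖q‖` -/
theorem abs_lam_sub {lam : ℕ → ℝ} (hlam : IsHillSpectrum q lam) (n : ℕ) :
    |lam n - lam0 n| ≤ ‖qC q hq hper‖ := by
  obtain ⟨φ, hφ⟩ := exists_nat_basis hq hper hlam
  obtain ⟨φ0, hφ0⟩ := exists_free_basis
  have hs0 : Sym (0 : HH →L[ℂ] HH) := by intro f g; simp
  have h1 := hφ0.trans hs0 hφ
  rw [sub_zero] at h1
  exact abs_sub_le_of_rel (sym_QQ hq hper) h1 lam0_mono hlam.mono (norm_mulOp_le _) n

/-- Lipschitz dependence of the eigenvalues on the potential -/
theorem abs_lam_sub' {q' : ℝ → ℝ} (hq' : Continuous q') (hper' : ∀ x, q' (x + 1) = q' x)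
    {lam lam' : ℕ → ℝ} (hlam : IsHillSpectrum q lam) (hlam' : IsHillSpectrum q' lam') (n : ℕ) :
    |lam' n - lam n| ≤ ‖qC q' hq' hper' - qC q hq hper‖ := by
  obtain ⟨φ, hφ⟩ := exists_nat_basis hq hper hlam
  obtain ⟨φ', hφ'⟩ := exists_nat_basis hq' hper' hlam'
  have h1 := hφ.trans (sym_QQ hq hper) hφ'
  refine abs_sub_le_of_rel ((sym_QQ hq' hper').sub (sym_QQ hq hper)) h1 hlam.mono hlam'.mono ?_ n
  rw [mulOp_sub]
  exact norm_mulOp_le _

end Run7.h374
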