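import Mathlib

/-! Quasi-analyticity (Bang's proof of the Denjoy-Carleman theorem), for derivative chains. -/

set_option autoImplicit false

namespace Run7.h374

open Filter Topology

/-- Taylor estimate for a derivative chain -/
lemma chain_taylor (d : ℕ) : ∀ (g : ℕ → ℝ → ℝ), (∀ k x, HasDerivAt (g k) (g (k + 1) x) x) →
    ∀ K : ℝ, (∀ x, |g d x| ≤ K) → ∀ y h : ℝ, 0 ≤ h →
      |g 0 (y + h)| ≤ ∑ i ∈ Finset.range d, |g i y| * h ^ i / i.factorial + K * h ^ d / d.factorial := by
  induction d with
  | zero =>
    intro g _ K hK y h _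
    simpa using hK (y + h)
  | succ d ih =>
    intro g hg K hK y h hh
    have h1 := ih (fun k => g (k + 1)) (fun k x => hg (k + 1) x) K hK y
    -- comparison
    set B : ℝ → ℝ := fun s => ∑ i ∈ Finset.range (d + 1), |g i y| * s ^ i / i.factorial +
      K * s ^ (d + 1) / (d + 1).factorial with hB
    set B' : ℝ → ℝ := fun s => ∑ i ∈ Finset.range d, |g (i + 1) y| * s ^ i / i.factorial +
      K * s ^ d / d.factorial with hB'
    have hBd : ∀ s, HasDerivAt B (B' s) s := by
      intro s
      have e1 : ∀ i ∈ Finset.range (d + 1), HasDerivAt (fun s : ℝ => |g i y| * s ^ i / i.factorial)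
          (|g i y| * (i * s ^ (i - 1)) / i.factorial) s := by
        intro i _
        exact ((hasDerivAt_pow i s).const_mul _).div_const _
      have e2 := HasDerivAt.fun_sum e1
      have e3 : HasDerivAt (fun s : ℝ => K * s ^ (d + 1) / (d + 1).factorial)
          (K * ((d + 1 : ℕ) * s ^ d) / (d + 1).factorial) s :=
        ((hasDerivAt_pow (d + 1) s).const_mul _).div_const _
      have e4 := e2.add e3
      have e5 : B' s = (∑ i ∈ Finset.range (d + 1), |g i y| * (i * s ^ (i - 1)) / i.factorial) +
          K * ((d + 1 : ℕ) * s ^ d) / (d + 1).factorial := by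
        show ∑ i ∈ Finset.range d, |g (i + 1) y| * s ^ i / i.factorial +
          K * s ^ d / d.factorial = _
        rw [Finset.sum_range_succ']
        have f1 : ∀ i : ℕ, |g (i + 1) y| * (((i + 1 : ℕ) : ℝ) * s ^ (i + 1 - 1)) / (i + 1).factorial =
            |g (i + 1) y| * s ^ i / i.factorial := by
          intro i
          rw [Nat.factorial_succ, Nat.add_sub_cancel]
          push_cast
          have : (i.factorial : ℝ) ≠ 0 := by positivity
          have h2 : ((i : ℝ) + 1) ≠ 0 := by positivity
          field_simp
        rw [Finset.sum_congr rfl (fun i _ => f1 i)]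
        have f2 : K * (((d + 1 : ℕ) : ℝ) * s ^ d) / (d + 1).factorial = K * s ^ d / d.factorial := by
          rw [Nat.factorial_succ]
          have : (d.factorial : ℝ) ≠ 0 := by positivity
          have h2 : ((d : ℝ) + 1) ≠ 0 := by positivity
          push_cast
          field_simp
        rw [f2]
        simp
      rw [e5]
      exact e4
    have key := image_norm_le_of_norm_deriv_right_le_deriv_boundary (f := fun s => g 0 (y + s))
      (f' := fun s => g 1 (y + s)) (a := 0) (b := h)
      (by
        have : Continuous (fun s => g 0 (y + s)) := by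
          apply continuous_iff_continuousAt.2
          intro s
          exact ((hg 0 (y + s)).comp_const_add y s).continuousAt
        exact this.continuousOn)
      (by
        intro s _
        exact ((hg 0 (y + s)).comp_const_add y s).hasDerivWithinAt)
      (B := B) (B' := B') (by simp [hB, Finset.sum_range_succ']) (by intro s; exact hBd s)
      (by
        intro s hs
        exact h1 s hs.1)
    have := key (Set.right_mem_Icc.2 hh)
    exact this

/-- one step of Bang's argument -/
lemma bang_step {g : ℕ → ℝ → ℝ} (hg : ∀ k x, HasDerivAt (g k) (g (k + 1) x) x) {A : ℕ → ℝ}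
    (hA : ∀ k, 0 < A k) (hgA : ∀ k x, |g k x| ≤ A k)
    (hmono : ∀ j k, j ≤ k → A (j + 1) / A j ≤ A (k + 1) / A k) (n : ℕ) {y h : ℝ} (hh : 0 ≤ h)
    (hhn : Real.exp 1 * h * (A (n + 1) / A n) ≤ 1)
    (hy : ∀ k, |g k y| ≤ Real.exp ((k : ℝ) - (n + 1)) * A k) (k : ℕ) :
    |g k (y + h)| ≤ Real.exp ((k : ℝ) - n) * A k := by
  rcases le_or_gt (n + 1) k with hk | hk
  · refine (hgA k _).trans ?_
    have h1 : (1:ℝ) ≤ Real.exp ((k : ℝ) - n) := by
      apply Real.one_le_exp
      have : ((n + 1 : ℕ) : ℝ) ≤ k := by exact_mod_cast hk
      push_cast at this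
      linarith
    have := hA k
    nlinarith
  · set ν : ℝ := A (n + 1) / A n with hν
    have hν0 : 0 < ν := div_pos (hA _) (hA _)
    obtain ⟨d, hd⟩ : ∃ d, n + 1 = k + d := ⟨n + 1 - k, by omega⟩
    have hgrow : ∀ i, k + i ≤ n + 1 → A (k + i) ≤ A k * ν ^ i := by
      intro i
      induction i with
      | zero => intro _; simp
      | succ i ih =>
        intro hi
        have h1 := ih (by omega)
        have h2 := hmono (k + i) n (by omega)
        have h3 : A (k + (i + 1)) ≤ A (k + i) * ν := by
          have h4 := hA (k + i)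
          rw [div_le_iff₀ h4] at h2
          rw [← add_assoc]
          linarith
        calc A (k + (i + 1)) ≤ A (k + i) * ν := h3
          _ ≤ (A k * ν ^ i) * ν := by gcongr
          _ = A k * ν ^ (i + 1) := by ring
    have ht := chain_taylor d (fun i => g (k + i)) (fun i x => hg (k + i) x) (A (n + 1))
      (by intro x; rw [← hd]; exact hgA _ x) y h hh
    simp only [add_zero] at ht
    refine ht.trans ?_
    have hsum : ∑ i ∈ Finset.range d, |g (k + i) y| * h ^ i / i.factorial +
        A (n + 1) * h ^ d / d.factorial ≤
        Real.exp ((k : ℝ) - (n + 1)) * A k * ∑ i ∈ Finset.range (d + 1),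
          (Real.exp 1 * h * ν) ^ i / i.factorial := by
      rw [Finset.mul_sum, Finset.sum_range_succ]
      apply add_le_add
      · apply Finset.sum_le_sum
        intro i hi
        have hi' := Finset.mem_range.1 hi
        have h1 := hy (k + i)
        have h2 := hgrow i (by omega)
        have e1 : Real.exp (((k + i : ℕ) : ℝ) - (n + 1)) =
            Real.exp ((k : ℝ) - (n + 1)) * Real.exp 1 ^ i := by
          rw [← Real.exp_nat_mul, ← Real.exp_add]
          congr 1
          push_cast
          ring
        rw [e1] at h1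
        calc |g (k + i) y| * h ^ i / i.factorial
            ≤ (Real.exp ((k : ℝ) - (n + 1)) * Real.exp 1 ^ i * (A k * ν ^ i)) * h ^ i / i.factorial := by
              gcongr
              exact h1.trans (by gcongr)
          _ = Real.exp ((k : ℝ) - (n + 1)) * A k * ((Real.exp 1 * h * ν) ^ i / i.factorial) := by
              rw [mul_pow, mul_pow]; ring
      · have h2 := hgrow d (by omega)
        rw [← hd] at h2
        have e1 : (1:ℝ) = Real.exp ((k : ℝ) - (n + 1)) * Real.exp 1 ^ d := by
          rw [← Real.exp_nat_mul, ← Real.exp_add]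
          have : (k : ℝ) - (n + 1) + (d : ℝ) * 1 = 0 := by
            have : ((n + 1 : ℕ) : ℝ) = ((k + d : ℕ) : ℝ) := by rw [hd]
            push_cast at this
            linarith
          rw [this, Real.exp_zero]
        calc A (n + 1) * h ^ d / d.factorial = 1 * (A (n + 1) * h ^ d / d.factorial) := by ring
          _ ≤ (Real.exp ((k : ℝ) - (n + 1)) * Real.exp 1 ^ d) * ((A k * ν ^ d) * h ^ d / d.factorial) := by
              rw [← e1]
              gcongr
          _ = Real.exp ((k : ℝ) - (n + 1)) * A k * ((Real.exp 1 * h * ν) ^ d / d.factorial) := by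
              rw [mul_pow, mul_pow]; ring
    refine hsum.trans ?_
    have hx0 : 0 ≤ Real.exp 1 * h * ν := by positivity
    have h3 : ∑ i ∈ Finset.range (d + 1), (Real.exp 1 * h * ν) ^ i / i.factorial ≤ Real.exp 1 :=
      (Real.sum_le_exp_of_nonneg hx0 (d + 1)).trans (Real.exp_le_exp.2 hhn)
    calc Real.exp ((k : ℝ) - (n + 1)) * A k * ∑ i ∈ Finset.range (d + 1),
          (Real.exp 1 * h * ν) ^ i / i.factorial
        ≤ Real.exp ((k : ℝ) - (n + 1)) * A k * Real.exp 1 := by
          have := (hA k).le
          gcongr
      _ = Real.exp ((k : ℝ) - n) * A k := by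
          rw [mul_right_comm, ← Real.exp_add]
          congr 2
          ring

/-- the Denjoy-Carleman uniqueness theorem for derivative chains on the half line -/
theorem bang {g : ℕ → ℝ → ℝ} (hg : ∀ k x, HasDerivAt (g k) (g (k + 1) x) x) {A : ℕ → ℝ}
    (hA : ∀ k, 0 < A k) (hgA : ∀ k x, |g k x| ≤ A k)
    (hmono : ∀ j k, j ≤ k → A (j + 1) / A j ≤ A (k + 1) / A k)
    (hdiv : ¬ Summable fun k => A k / A (k + 1)) (h0 : ∀ k, g k 0 = 0) {x : ℝ} (hx : 0 ≤ x) :
    g 0 x = 0 := by
  set τ : ℕ → ℝ := fun k => A k / A (k + 1) / Real.exp 1 with hτ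
  have hτ0 : ∀ k, 0 < τ k := fun k => by
    have := hA k
    have := hA (k + 1)
    positivity
  -- induction: for x up to a partial sum
  have key : ∀ d j : ℕ, ∀ x : ℝ, 0 ≤ x → x ≤ ∑ i ∈ Finset.range d, τ (j + i) →
      ∀ k, |g k x| ≤ Real.exp ((k : ℝ) - j) * A k := by
    intro d
    induction d with
    | zero =>
      intro j x hx hx' k
      simp only [Finset.range_zero, Finset.sum_empty] at hx'
      have : x = 0 := le_antisymm hx' hx
      rw [this, h0, abs_zero]
      have := hA k
      positivity
    | succ d ih =>
      intro j x hx hx' k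
      rw [Finset.sum_range_succ'] at hx'
      simp only [add_zero] at hx'
      set s := ∑ i ∈ Finset.range d, τ (j + (i + 1)) with hs
      have hs' : s = ∑ i ∈ Finset.range d, τ ((j + 1) + i) := by
        rw [hs]; apply Finset.sum_congr rfl; intro i _; congr 1; ring
      have hs0 : 0 ≤ s := Finset.sum_nonneg fun i _ => (hτ0 _).le
      set y := min x s with hy
      have hy0 : 0 ≤ y := le_min hx hs0
      have hys : y ≤ ∑ i ∈ Finset.range d, τ ((j + 1) + i) := by
        rw [← hs']; exact min_le_right _ _
      have h1 := ih (j + 1) y hy0 hys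
      have hxy : 0 ≤ x - y := by
        have := min_le_left x s
        linarith
      have hxy' : x - y ≤ τ j := by
        rcases le_total x s with h | h
        · rw [hy, min_eq_left h, sub_self]; exact (hτ0 j).le
        · rw [hy, min_eq_right h]; linarith
      have h2 := bang_step hg hA hgA hmono j (y := y) (h := x - y) hxy (by
        have a1 := hA j
        have a2 := hA (j + 1)
        have a3 : 0 < Real.exp 1 := Real.exp_pos 1
        calc Real.exp 1 * (x - y) * (A (j + 1) / A j) ≤ Real.exp 1 * τ j * (A (j + 1) / A j) := by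
              gcongr
          _ = 1 := by
              simp only [hτ]
              field_simp) (by
        intro k
        have := h1 k
        push_cast at this
        exact this) k
      rwa [add_sub_cancel] at h2
  have hall : ∀ j : ℕ, |g 0 x| ≤ Real.exp (-(j : ℝ)) * A 0 := by
    intro j
    have hdiv' : ¬ Summable fun i => τ (j + i) := by
      intro hs
      apply hdiv
      have h1 : Summable fun i => τ i := by
        have h2 : (fun i => τ (j + i)) = fun i => τ (i + j) := by ext i; rw [add_comm]
        rw [h2] at hs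
        exact (summable_nat_add_iff j).1 hs
      have h3 := h1.mul_left (Real.exp 1)
      refine h3.congr fun i => ?_
      simp only [hτ]
      field_simp
    have htend := (not_summable_iff_tendsto_nat_atTop_of_nonneg (fun i => (hτ0 (j + i)).le)).1 hdiv'
    obtain ⟨d, hd⟩ := (htend.eventually (eventually_ge_atTop x)).exists
    have := key d j x hx hd 0
    simpa using this
  have hlim : Tendsto (fun j : ℕ => Real.exp (-(j : ℝ)) * A 0) atTop (𝓝 0) := by
    have h1 : Tendsto (fun j : ℕ => Real.exp (-(j : ℝ))) atTop (𝓝 0) :=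
      Real.tendsto_exp_neg_atTop_nhds_zero.comp tendsto_natCast_atTop_atTop
    simpa using h1.mul_const (A 0)
  have h2 : |g 0 x| ≤ 0 := ge_of_tendsto' hlim hall
  exact abs_nonpos_iff.1 h2

end Run7.h374
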