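import Mathlib

/-! Smooth periodic bumps with prescribed bounds for the derivatives (infinite convolutions). -/

set_option autoImplicit false

namespace Run7.h374

open Filter Topology Metric MeasureTheory
open scoped Interval ContDiff BoundedContinuousFunction

/-- the average over `[x - a, x]` -/
noncomputable def avgB (a : ℝ) (f : ℝ →ᵇ ℝ) : ℝ →ᵇ ℝ :=
  BoundedContinuousFunction.ofNormedAddCommGroup (fun x => ∫ s in (0:ℝ)..1, f (x - a * s))
    (by
      have h1 : Continuous (Function.uncurry fun (x s : ℝ) => f (x - a * s)) := by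
        have : (Function.uncurry fun (x s : ℝ) => f (x - a * s)) = fun p : ℝ × ℝ => f (p.1 - a * p.2) := by
          ext p; rfl
        rw [this]
        have := f.continuous
        fun_prop
      exact intervalIntegral.continuous_parametric_intervalIntegral_of_continuous' h1 0 1)
    ‖f‖ (by
      intro x
      have h := intervalIntegral.norm_integral_le_of_norm_le_const (a := (0:ℝ)) (b := 1)
        (f := fun s => f (x - a * s)) (C := ‖f‖) (fun s _ => f.norm_coe_le_norm _)
      simpa using h)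

lemma avgB_apply (a : ℝ) (f : ℝ →ᵇ ℝ) (x : ℝ) : avgB a f x = ∫ s in (0:ℝ)..1, f (x - a * s) := rfl

lemma avg_int (a : ℝ) (f : ℝ →ᵇ ℝ) (x : ℝ) :
    IntervalIntegrable (fun s => f (x - a * s)) volume 0 1 := by
  apply Continuous.intervalIntegrable
  have := f.continuous
  fun_prop

lemma avgB_ge {a c x : ℝ} {f : ℝ →ᵇ ℝ} (h : ∀ s ∈ Set.Icc (0:ℝ) 1, c ≤ f (x - a * s)) :
    c ≤ avgB a f x := by
  rw [avgB_apply]
  have h1 := intervalIntegral.integral_mono_on (a := (0:ℝ)) (b := 1) (f := fun _ => c)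
    (g := fun s => f (x - a * s)) zero_le_one (by simp) (avg_int a f x) h
  simpa using h1

lemma avgB_le {a c x : ℝ} {f : ℝ →ᵇ ℝ} (h : ∀ s ∈ Set.Icc (0:ℝ) 1, f (x - a * s) ≤ c) :
    avgB a f x ≤ c := by
  rw [avgB_apply]
  have h1 := intervalIntegral.integral_mono_on (a := (0:ℝ)) (b := 1) (g := fun _ => c)
    (f := fun s => f (x - a * s)) zero_le_one (avg_int a f x) (by simp) h
  simpa using h1

lemma avgB_dist (a : ℝ) (f g : ℝ →ᵇ ℝ) : dist (avgB a f) (avgB a g) ≤ dist f g := by
  rw [BoundedContinuousFunction.dist_le dist_nonneg]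
  intro x
  rw [Real.dist_eq, avgB_apply, avgB_apply, ← intervalIntegral.integral_sub (avg_int a f x) (avg_int a g x)]
  have h := intervalIntegral.norm_integral_le_of_norm_le_const (a := (0:ℝ)) (b := 1)
    (f := fun s => f (x - a * s) - g (x - a * s)) (C := dist f g) (fun s _ => by
      rw [← dist_eq_norm]
      exact BoundedContinuousFunction.dist_coe_le_dist _)
  simpa using h

lemma avgB_continuous (a : ℝ) : Continuous (avgB a) :=
  LipschitzWith.continuous (K := 1) (LipschitzWith.of_dist_le_mul fun f g => by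
    simpa using avgB_dist a f g)

lemma avgB_hasDeriv {a : ℝ} (ha : 0 < a) (f : ℝ →ᵇ ℝ) (x : ℝ) :
    HasDerivAt (avgB a f) (a⁻¹ * (f x - f (x - a))) x := by
  have hf := f.continuous
  have hint : ∀ u v : ℝ, IntervalIntegrable f volume u v := fun u v => hf.intervalIntegrable u v
  have e : (avgB a f : ℝ → ℝ) = fun x => a⁻¹ * ((∫ t in (0:ℝ)..x, f t) - ∫ t in (0:ℝ)..(x - a), f t) := by
    ext x
    rw [avgB_apply, intervalIntegral.integral_comp_sub_mul (f := f) ha.ne' x,
      intervalIntegral.integral_interval_sub_left (hint _ _) (hint _ _)]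
    simp
  rw [e]
  have h1 : HasDerivAt (fun x => ∫ t in (0:ℝ)..x, f t) (f x) x :=
    (hf.integral_hasStrictDerivAt 0 x).hasDerivAt
  have h2 : HasDerivAt (fun x => ∫ t in (0:ℝ)..x, f t) (f (x - a)) (x - a) :=
    (hf.integral_hasStrictDerivAt 0 (x - a)).hasDerivAt
  have h3 : HasDerivAt (fun x => ∫ t in (0:ℝ)..(x - a), f t) (f (x - a)) x :=
    h2.comp_sub_const x a
  exact (h1.sub h3).const_mul a⁻¹

/-- the initial function -/
noncomputable def f0 : ℝ →ᵇ ℝ :=
  BoundedContinuousFunction.ofNormedAddCommGroup (fun x => max 0 (-Real.cos (2 * Real.pi * x)))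
    (by fun_prop) 1 (by
      intro x
      rw [Real.norm_of_nonneg (le_max_left _ _)]
      exact max_le zero_le_one (by have := Real.neg_one_le_cos (2 * Real.pi * x); linarith))

lemma f0_apply (x : ℝ) : f0 x = max 0 (-Real.cos (2 * Real.pi * x)) := rfl

lemma f0_lip (x y : ℝ) : |f0 x - f0 y| ≤ 2 * Real.pi * |x - y| := by
  rw [f0_apply, f0_apply]
  have h1 := abs_max_sub_max_le_abs (-Real.cos (2 * Real.pi * x)) (-Real.cos (2 * Real.pi * y)) 0
  rw [max_comm, max_comm (-Real.cos (2 * Real.pi * y))] at h1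
  refine h1.trans ?_
  rw [neg_sub_neg, abs_sub_comm]
  refine (Real.abs_cos_sub_cos_le _ _).trans (le_of_eq ?_)
  rw [← mul_sub, abs_mul, abs_of_pos (by positivity)]

/-- iterated averages -/
noncomputable def Ita (a : ℕ → ℝ) : ℕ → ℕ → (ℝ →ᵇ ℝ)
  | _, 0 => f0
  | j, n + 1 => avgB (a j) (Ita a (j + 1) n)

lemma Ita_dist {a : ℕ → ℝ} (ha : ∀ i, 0 < a i) (j n : ℕ) :
    dist (Ita a j n) (Ita a j (n + 1)) ≤ 2 * Real.pi * a (j + n) := by
  induction n generalizing j with
  | zero =>
    show dist f0 (avgB (a j) f0) ≤ _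
    rw [BoundedContinuousFunction.dist_le (by have := ha (j + 0); positivity)]
    intro x
    have haj := ha j
    rw [Real.dist_eq, abs_sub_comm, abs_le, add_zero]
    constructor
    · have : f0 x - 2 * Real.pi * a j ≤ avgB (a j) f0 x := avgB_ge fun s hs => by
        have h1 := f0_lip x (x - a j * s)
        rw [sub_sub_cancel, abs_mul, abs_of_pos haj, abs_of_nonneg hs.1] at h1
        have h2 := (abs_le.1 h1).2
        have h3 : a j * s ≤ a j := by nlinarith [hs.2]
        have h4 : 2 * Real.pi * (a j * s) ≤ 2 * Real.pi * a j := by gcongr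
        linarith
      linarith
    · have : avgB (a j) f0 x ≤ f0 x + 2 * Real.pi * a j := avgB_le fun s hs => by
        have h1 := f0_lip x (x - a j * s)
        rw [sub_sub_cancel, abs_mul, abs_of_pos haj, abs_of_nonneg hs.1] at h1
        have h2 := (abs_le.1 h1).1
        have h3 : a j * s ≤ a j := by nlinarith [hs.2]
        have h4 : 2 * Real.pi * (a j * s) ≤ 2 * Real.pi * a j := by gcongr
        linarith
      linarith
  | succ n ih =>
    show dist (avgB (a j) (Ita a (j + 1) n)) (avgB (a j) (Ita a (j + 1) (n + 1))) ≤ _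
    refine (avgB_dist _ _ _).trans ?_
    have := ih (j + 1)
    rwa [show j + 1 + n = j + (n + 1) by ring] at this

lemma Ita_cauchy {a : ℕ → ℝ} (ha : ∀ i, 0 < a i) (hs : Summable a) (j : ℕ) :
    CauchySeq (Ita a j) := by
  apply cauchySeq_of_dist_le_of_summable (fun n => 2 * Real.pi * a (j + n)) (Ita_dist ha j)
  apply Summable.mul_left
  have := (summable_nat_add_iff j).2 hs
  exact this.congr fun n => by rw [add_comm]

/-- the limits -/
noncomputable def GG0 (a : ℕ → ℝ) (j : ℕ) : ℝ →ᵇ ℝ := limUnder atTop (Ita a j)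

lemma GG0_tendsto {a : ℕ → ℝ} (ha : ∀ i, 0 < a i) (hs : Summable a) (j : ℕ) :
    Tendsto (Ita a j) atTop (𝓝 (GG0 a j)) := (Ita_cauchy ha hs j).tendsto_limUnder

lemma GG0_eq {a : ℕ → ℝ} (ha : ∀ i, 0 < a i) (hs : Summable a) (j : ℕ) :
    GG0 a j = avgB (a j) (GG0 a (j + 1)) := by
  have h1 := (tendsto_add_atTop_iff_nat 1).2 (GG0_tendsto ha hs j)
  have h2 : Tendsto (fun n => avgB (a j) (Ita a (j + 1) n)) atTop (𝓝 (avgB (a j) (GG0 a (j + 1)))) :=
    ((avgB_continuous (a j)).tendsto _).comp (GG0_tendsto ha hs (j + 1))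
  exact tendsto_nhds_unique h1 h2

lemma GG0_tendsto_apply {a : ℕ → ℝ} (ha : ∀ i, 0 < a i) (hs : Summable a) (j : ℕ) (x : ℝ) :
    Tendsto (fun n => Ita a j n x) atTop (𝓝 (GG0 a j x)) :=
  ((continuous_eval_const (F := ℝ →ᵇ ℝ) x).tendsto _).comp (GG0_tendsto ha hs j)

lemma GG0_deriv {a : ℕ → ℝ} (ha : ∀ i, 0 < a i) (hs : Summable a) (j : ℕ) (x : ℝ) :
    HasDerivAt (GG0 a j) ((a j)⁻¹ * (GG0 a (j + 1) x - GG0 a (j + 1) (x - a j))) x := by
  rw [GG0_eq ha hs j]
  exact avgB_hasDeriv (ha j) _ x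

lemma GG0_deriv_eq {a : ℕ → ℝ} (ha : ∀ i, 0 < a i) (hs : Summable a) (j : ℕ) :
    deriv (GG0 a j) = fun x => (a j)⁻¹ * (GG0 a (j + 1) x - GG0 a (j + 1) (x - a j)) := by
  ext x; exact (GG0_deriv ha hs j x).deriv

lemma GG0_contDiff_nat {a : ℕ → ℝ} (ha : ∀ i, 0 < a i) (hs : Summable a) (k j : ℕ) :
    ContDiff ℝ k (GG0 a j : ℝ → ℝ) := by
  induction k generalizing j with
  | zero => exact contDiff_zero.2 (GG0 a j).continuous
  | succ k ih =>
    have e : ((k + 1 : ℕ) : WithTop ℕ∞) = (k : WithTop ℕ∞) + 1 := by push_cast; rfl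
    rw [e, contDiff_succ_iff_deriv]
    refine ⟨fun x => (GG0_deriv ha hs j x).differentiableAt, by simp, ?_⟩
    rw [GG0_deriv_eq ha hs j]
    have h1 := ih (j + 1)
    have h2 : ContDiff ℝ k (fun x => GG0 a (j + 1) (x - a j)) :=
      h1.comp (by fun_prop : ContDiff ℝ k fun x : ℝ => x - a j)
    exact contDiff_const.mul (h1.sub h2)

lemma GG0_contDiff {a : ℕ → ℝ} (ha : ∀ i, 0 < a i) (hs : Summable a) (j : ℕ) :
    ContDiff ℝ ∞ (GG0 a j : ℝ → ℝ) := contDiff_infty.2 fun k => GG0_contDiff_nat ha hs k j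

lemma Ita_bounds {a : ℕ → ℝ} (j n : ℕ) (x : ℝ) : 0 ≤ Ita a j n x ∧ Ita a j n x ≤ 1 := by
  induction n generalizing j x with
  | zero =>
    show 0 ≤ f0 x ∧ f0 x ≤ 1
    rw [f0_apply]
    exact ⟨le_max_left _ _, max_le zero_le_one (by have := Real.neg_one_le_cos (2 * Real.pi * x); linarith)⟩
  | succ n ih =>
    exact ⟨avgB_ge fun s _ => (ih (j + 1) _).1, avgB_le fun s _ => (ih (j + 1) _).2⟩

lemma Ita_per {a : ℕ → ℝ} (j n : ℕ) (x : ℝ) : Ita a j n (x + 1) = Ita a j n x := by
  induction n generalizing j x with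
  | zero =>
    show f0 (x + 1) = f0 x
    rw [f0_apply, f0_apply, mul_add, mul_one, Real.cos_add_two_pi]
  | succ n ih =>
    show avgB (a j) (Ita a (j + 1) n) (x + 1) = avgB (a j) (Ita a (j + 1) n) x
    rw [avgB_apply, avgB_apply]
    apply intervalIntegral.integral_congr
    intro s _
    simp only
    rw [show x + 1 - a j * s = x - a j * s + 1 by ring, ih]

lemma Ita_zero {a : ℕ → ℝ} (ha : ∀ i, 0 < a i) (j n : ℕ) (x : ℝ)
    (h1 : -(1 / 4) + ∑ i ∈ Finset.range n, a (j + i) ≤ x) (h2 : x ≤ 1 / 4) : Ita a j n x = 0 := by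
  induction n generalizing j x with
  | zero =>
    rw [Finset.sum_range_zero, add_zero] at h1
    show f0 x = 0
    rw [f0_apply]
    apply max_eq_left
    have : 0 ≤ Real.cos (2 * Real.pi * x) := by
      apply Real.cos_nonneg_of_neg_pi_div_two_le_of_le
      · nlinarith [Real.pi_pos]
      · nlinarith [Real.pi_pos]
    linarith
  | succ n ih =>
    have hz : ∀ s ∈ Set.Icc (0:ℝ) 1, Ita a (j + 1) n (x - a j * s) = 0 := by
      intro s hs
      have h3 := ha j
      have h4 : 0 ≤ a j * s := mul_nonneg h3.le hs.1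
      have h5 : a j * s ≤ a j := by nlinarith [hs.2]
      apply ih
      · rw [Finset.sum_range_succ', add_zero] at h1
        have e : ∑ i ∈ Finset.range n, a (j + 1 + i) = ∑ i ∈ Finset.range n, a (j + (i + 1)) :=
          Finset.sum_congr rfl fun i _ => by rw [show j + 1 + i = j + (i + 1) by ring]
        rw [e]
        linarith
      · linarith
    apply le_antisymm
    · exact avgB_le fun s hs => (hz s hs).le
    · exact avgB_ge fun s hs => (hz s hs).ge

lemma Ita_pos {a : ℕ → ℝ} (ha : ∀ i, 0 < a i) (j n : ℕ) (x : ℝ)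
    (h1 : 3 / 8 + ∑ i ∈ Finset.range n, a (j + i) ≤ x) (h2 : x ≤ 5 / 8) :
    -Real.cos (3 * Real.pi / 4) ≤ Ita a j n x := by
  induction n generalizing j x with
  | zero =>
    rw [Finset.sum_range_zero, add_zero] at h1
    show _ ≤ f0 x
    rw [f0_apply]
    refine le_trans ?_ (le_max_right _ _)
    apply neg_le_neg
    have hπ := Real.pi_pos
    rcases le_total x (1 / 2) with h | h
    · apply Real.cos_le_cos_of_nonneg_of_le_pi
      · positivity
      · nlinarith
      · nlinarith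
    · have e1 : Real.cos (2 * Real.pi * x) = Real.cos (2 * Real.pi * (1 - x)) := by
        rw [show 2 * Real.pi * (1 - x) = 2 * Real.pi - 2 * Real.pi * x by ring, Real.cos_two_pi_sub]
      rw [e1]
      apply Real.cos_le_cos_of_nonneg_of_le_pi
      · positivity
      · nlinarith
      · nlinarith
  | succ n ih =>
    refine avgB_ge fun s hs => ?_
    have h3 := ha j
    have h4 : 0 ≤ a j * s := mul_nonneg h3.le hs.1
    have h5 : a j * s ≤ a j := by nlinarith [hs.2]
    apply ih
    · rw [Finset.sum_range_succ', add_zero] at h1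
      have e : ∑ i ∈ Finset.range n, a (j + 1 + i) = ∑ i ∈ Finset.range n, a (j + (i + 1)) :=
        Finset.sum_congr rfl fun i _ => by rw [show j + 1 + i = j + (i + 1) by ring]
      rw [e]
      linarith
    · linarith

lemma GG0_iter_bound {a : ℕ → ℝ} (ha : ∀ i, 0 < a i) (hs : Summable a) (k j : ℕ) (x : ℝ) :
    |iteratedDeriv k (GG0 a j) x| ≤ ∏ i ∈ Finset.range k, (2 / a (j + i)) := by
  induction k generalizing j x with
  | zero =>
    rw [iteratedDeriv_zero, Finset.prod_range_zero, abs_le]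
    have h := GG0_tendsto_apply ha hs j x
    constructor
    · exact ge_of_tendsto' h fun n => by have := (Ita_bounds (a := a) j n x).1; linarith
    · exact le_of_tendsto' h fun n => (Ita_bounds (a := a) j n x).2
  | succ k ih =>
    rw [iteratedDeriv_succ', GG0_deriv_eq ha hs j]
    have h1 := GG0_contDiff_nat ha hs k (j + 1)
    have h2 : ContDiff ℝ k (fun x => GG0 a (j + 1) (x - a j)) :=
      h1.comp (by fun_prop : ContDiff ℝ k fun x : ℝ => x - a j)
    rw [iteratedDeriv_const_mul_field, iteratedDeriv_fun_sub h1.contDiffAt h2.contDiffAt,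
      iteratedDeriv_comp_sub_const, abs_mul, Finset.prod_range_succ', add_zero]
    have haj := ha j
    rw [abs_of_pos (inv_pos.2 haj)]
    have h3 := ih (j + 1) x
    have h4 := ih (j + 1) (x - a j)
    have e : ∏ i ∈ Finset.range k, (2 / a (j + (i + 1))) = ∏ i ∈ Finset.range k, (2 / a (j + 1 + i)) :=
      Finset.prod_congr rfl fun i _ => by rw [show j + 1 + i = j + (i + 1) by ring]
    rw [e]
    calc (a j)⁻¹ * |iteratedDeriv k (⇑(GG0 a (j + 1))) x - iteratedDeriv k (⇑(GG0 a (j + 1))) (x - a j)|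
        ≤ (a j)⁻¹ * (∏ i ∈ Finset.range k, (2 / a (j + 1 + i)) +
          ∏ i ∈ Finset.range k, (2 / a (j + 1 + i))) := by
          gcongr
          exact (abs_sub _ _).trans (add_le_add h3 h4)
      _ = _ := by ring

/-- a smooth periodic bump -/
theorem exists_bump {a : ℕ → ℝ} (ha : ∀ i, 0 < a i) (hs : Summable a) (hsum : ∑' i, a i ≤ 1 / 4) :
    ∃ q : ℝ → ℝ, ContDiff ℝ ∞ q ∧ (∀ x, q (x + 1) = q x) ∧ (∀ x ∈ Set.Icc (0:ℝ) (1 / 4), q x = 0) ∧
      (∀ x, 0 ≤ q x) ∧ 0 < q (5 / 8) ∧
      ∀ k x, |iteratedDeriv k q x| ≤ ∏ i ∈ Finset.range k, (2 / a i) := by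
  have hpart : ∀ n, ∑ i ∈ Finset.range n, a (0 + i) ≤ 1 / 4 := by
    intro n
    simp only [zero_add]
    exact (hs.sum_le_tsum _ fun i _ => (ha i).le).trans hsum
  refine ⟨GG0 a 0, GG0_contDiff ha hs 0, ?_, ?_, ?_, ?_, ?_⟩
  · intro x
    refine tendsto_nhds_unique (GG0_tendsto_apply ha hs 0 (x + 1)) ?_
    exact (GG0_tendsto_apply ha hs 0 x).congr fun n => (Ita_per 0 n x).symm
  · intro x hx
    refine tendsto_nhds_unique (GG0_tendsto_apply ha hs 0 x) ?_
    refine tendsto_const_nhds.congr fun n => (Ita_zero ha 0 n x ?_ hx.2).symm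
    have := hpart n
    linarith [hx.1]
  · intro x
    exact ge_of_tendsto' (GG0_tendsto_apply ha hs 0 x) fun n => (Ita_bounds (a := a) 0 n x).1
  · have h1 : -Real.cos (3 * Real.pi / 4) ≤ GG0 a 0 (5 / 8) :=
      ge_of_tendsto' (GG0_tendsto_apply ha hs 0 (5 / 8)) fun n =>
        Ita_pos ha 0 n (5 / 8) (by have := hpart n; linarith) le_rfl
    have h2 : Real.cos (3 * Real.pi / 4) < 0 := by
      apply Real.cos_neg_of_pi_div_two_lt_of_lt
      · have := Real.pi_pos; linarith
      · have := Real.pi_pos; linarith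
    linarith
  · intro k x
    have := GG0_iter_bound ha hs k 0 x
    simpa only [zero_add] using this

end Run7.h374
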