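import Pool.Agent.Run7.h374.EigBasis

/-! The circle of length 2: multiplication operators, Fourier coefficients of derivatives. -/

set_option autoImplicit false
set_option linter.unusedSectionVars false

namespace Run7.h374

open Filter Topology MeasureTheory AddCircle
open scoped ComplexConjugate Classical

instance fact2 : Fact (0 < (2:ℝ)) := ⟨by norm_num⟩

/-- the circle of length `2` -/
abbrev Cir : Type := AddCircle (2:ℝ)

/-- its Hilbert space -/
abbrev HH : Type := Lp ℂ 2 (haarAddCircle (T := (2:ℝ)))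

/-- a continuous 2-periodic function on the line as a function on the circle -/
noncomputable def toC (f : ℝ → ℂ) (hf : Continuous f) (hp : Function.Periodic f 2) : C(Cir, ℂ) where
  toFun := hp.lift
  continuous_toFun := by
    apply Continuous.quotient_lift
    exact hf

@[simp] lemma toC_coe (f : ℝ → ℂ) (hf : Continuous f) (hp : Function.Periodic f 2) (x : ℝ) :
    toC f hf hp (x : Cir) = f x := rfl

lemma memLp_mul (φ : C(Cir, ℂ)) (F : HH) :
    MemLp (fun x => φ x * F x) 2 (haarAddCircle (T := (2:ℝ))) := by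
  apply MemLp.of_le_mul (c := ‖φ‖) (Lp.memLp F)
  · exact φ.continuous.aestronglyMeasurable.mul (Lp.aestronglyMeasurable F)
  · refine Eventually.of_forall fun x => ?_
    rw [norm_mul]
    have := φ.norm_coe_le_norm x
    gcongr

/-- the multiplication operator -/
noncomputable def mulLin (φ : C(Cir, ℂ)) : HH →ₗ[ℂ] HH where
  toFun F := MemLp.toLp (fun x => φ x * F x) (memLp_mul φ F)
  map_add' F G := by
    ext1
    refine (MemLp.coeFn_toLp _).trans ?_
    refine EventuallyEq.trans ?_ (Lp.coeFn_add _ _).symm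
    filter_upwards [Lp.coeFn_add F G, MemLp.coeFn_toLp (f := fun x => φ x * F x) (μ := haarAddCircle) (p := 2) _,
      MemLp.coeFn_toLp (f := fun x => φ x * G x) (μ := haarAddCircle) (p := 2) _] with x h1 h2 h3
    rw [Pi.add_apply, h2, h3, h1, Pi.add_apply, mul_add]
  map_smul' c F := by
    ext1
    refine (MemLp.coeFn_toLp _).trans ?_
    refine EventuallyEq.trans ?_ (Lp.coeFn_smul _ _).symm
    filter_upwards [Lp.coeFn_smul c F, MemLp.coeFn_toLp (f := fun x => φ x * F x) (μ := haarAddCircle) (p := 2) _] with x h1 h2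
    rw [RingHom.id_apply, Pi.smul_apply, h2, h1, Pi.smul_apply, smul_eq_mul, smul_eq_mul]
    ring

lemma mulLin_coeFn (φ : C(Cir, ℂ)) (F : HH) :
    (mulLin φ F : Cir → ℂ) =ᵐ[haarAddCircle] fun x => φ x * F x :=
  MemLp.coeFn_toLp (memLp_mul φ F)

/-- the multiplication operator -/
noncomputable def mulOp (φ : C(Cir, ℂ)) : HH →L[ℂ] HH :=
  (mulLin φ).mkContinuous ‖φ‖ (by
    intro F
    apply Lp.norm_le_mul_norm_of_ae_le_mul
    filter_upwards [mulLin_coeFn φ F] with x hx
    rw [hx, norm_mul]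
    have := φ.norm_coe_le_norm x
    gcongr)

lemma mulOp_coeFn (φ : C(Cir, ℂ)) (F : HH) :
    (mulOp φ F : Cir → ℂ) =ᵐ[haarAddCircle] fun x => φ x * F x := mulLin_coeFn φ F

lemma norm_mulOp_le (φ : C(Cir, ℂ)) : ‖mulOp φ‖ ≤ ‖φ‖ :=
  LinearMap.mkContinuous_norm_le _ (norm_nonneg _) _

lemma mulOp_sub (φ ψ : C(Cir, ℂ)) : mulOp φ - mulOp ψ = mulOp (φ - ψ) := by
  ext1 F
  rw [sub_apply]
  ext1
  filter_upwards [Lp.coeFn_sub (mulOp φ F) (mulOp ψ F), mulOp_coeFn φ F, mulOp_coeFn ψ F,
    mulOp_coeFn (φ - ψ) F] with x h1 h2 h3 h4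
  rw [h1, Pi.sub_apply, h2, h3, h4, ContinuousMap.sub_apply]
  ring

/-- the class of a continuous function -/
noncomputable abbrev cls (g : C(Cir, ℂ)) : HH :=
  ContinuousMap.toLp (E := ℂ) 2 haarAddCircle ℂ g

lemma cls_coeFn (g : C(Cir, ℂ)) : (cls g : Cir → ℂ) =ᵐ[haarAddCircle] g :=
  ContinuousMap.coeFn_toLp haarAddCircle g

lemma mulOp_cls (φ g : C(Cir, ℂ)) : mulOp φ (cls g) = cls (φ * g) := by
  ext1
  filter_upwards [mulOp_coeFn φ (cls g), cls_coeFn g, cls_coeFn (φ * g)] with x h1 h2 h3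
  rw [h1, h2, h3, ContinuousMap.mul_apply]

lemma sym_mulOp {φ : C(Cir, ℂ)} (hφ : ∀ x, conj (φ x) = φ x) : Sym (mulOp φ) := by
  intro F G
  rw [L2.inner_def, L2.inner_def]
  apply integral_congr_ae
  filter_upwards [mulOp_coeFn φ F, mulOp_coeFn φ G] with x h1 h2
  rw [h1, h2]
  simp only [RCLike.inner_apply, map_mul, hφ]
  ring

/-- the Fourier basis -/
noncomputable abbrev bas : HilbertBasis ℤ ℂ HH := fourierBasis

lemma inner_bas (F : HH) (k : ℤ) : inner ℂ (bas k) F = fourierCoeff F k := by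
  rw [← fourierBasis_repr, ← HilbertBasis.repr_apply_apply]

lemma inner_bas_cls (g : C(Cir, ℂ)) (k : ℤ) : inner ℂ (bas k) (cls g) = fourierCoeff g k := by
  rw [inner_bas, fourierCoeff_toLp]

/-- the free eigenvalues -/
noncomputable def dd (k : ℤ) : ℝ := Real.pi ^ 2 * (k : ℝ) ^ 2

lemma fourierCoeff_toC (f : ℝ → ℂ) (hf : Continuous f) (hp : Function.Periodic f 2) (k : ℤ) :
    fourierCoeff (toC f hf hp) k =
      (1 / 2 : ℝ) • ∫ x in (0:ℝ)..2, fourier (T := 2) (-k) (x : Cir) * f x := by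
  rw [fourierCoeff_eq_intervalIntegral _ k 0]
  simp only [zero_add, smul_eq_mul, toC_coe]

lemma fourierCoeff_deriv (f f' : ℝ → ℂ) (hf : ∀ x, HasDerivAt f (f' x) x) (hc' : Continuous f')
    (hc : Continuous f) (hp : Function.Periodic f 2) (hp' : Function.Periodic f' 2) (k : ℤ) :
    fourierCoeff (toC f' hc' hp') k =
      (Real.pi * Complex.I * k) * fourierCoeff (toC f hc hp) k := by
  rw [fourierCoeff_toC, fourierCoeff_toC]
  have h1 := intervalIntegral.integral_mul_deriv_eq_deriv_mul (a := 0) (b := 2)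
    (u := fun x : ℝ => (fourier (T := 2) (-k) (x : Cir) : ℂ)) (v := f)
    (u' := fun x : ℝ => (-2 * Real.pi * Complex.I * k / (2:ℝ) * fourier (T := 2) (-k) (x : Cir) : ℂ))
    (v' := f')
    (fun x _ => hasDerivAt_fourier_neg 2 k x) (fun x _ => hf x)
    (by
      apply Continuous.intervalIntegrable
      have : Continuous fun x : ℝ => (fourier (T := 2) (-k) (x : Cir) : ℂ) :=
        (map_continuous _).comp (AddCircle.continuous_mk' _)
      fun_prop)
    (hc'.intervalIntegrable _ _)
  rw [h1]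
  have h2 : (fourier (T := 2) (-k) ((2:ℝ) : Cir) : ℂ) = fourier (T := 2) (-k) ((0:ℝ) : Cir) := by
    congr 1
    simp
  have h3 : f 2 = f 0 := by
    have := hp 0
    simpa using this
  simp only [h2, h3, sub_self, zero_sub]
  rw [← intervalIntegral.integral_neg]
  rw [show (fun x : ℝ => -((-2 * Real.pi * Complex.I * k / (2:ℝ) * fourier (T := 2) (-k) (x : Cir)) * f x)) =
    fun x : ℝ => (Real.pi * Complex.I * k) * (fourier (T := 2) (-k) (x : Cir) * f x) by
      ext x; push_cast; ring]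
  rw [intervalIntegral.integral_const_mul]
  simp only [Complex.real_smul]
  ring

end Run7.h374
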