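import Pool.Agent.Run7.h374.Rigid

/-! Comparison of the products over perturbed squares and over squares. -/

set_option autoImplicit false

namespace Run7.h374

open Filter Topology
open scoped Classical

lemma tprod_bounds {κ : Type*} {r : κ → ℝ} {c C : ℝ} (hc : 0 < c) (hr : ∀ j, c ≤ r j)
    (hc1 : c ≤ 1) (hs : Summable fun j => |r j - 1|) (hC : ∑' j, |r j - 1| ≤ C) :
    Multipliable r ∧ Real.exp (-(C / c)) ≤ ∏' j, r j ∧ ∏' j, r j ≤ Real.exp C := by
  have hm : Multipliable r := by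
    have h1 : Summable fun j => ‖r j - 1‖ := hs
    have h2 := multipliable_one_add_of_summable h1
    simpa using h2
  refine ⟨hm, ?_, ?_⟩
  · apply le_hasProd_of_le_prod hm.hasProd
    intro F
    have h1 : ∀ j, Real.exp (-(|r j - 1| / c)) ≤ r j := by
      intro j
      have hrj := hr j
      have hpos : 0 < r j := lt_of_lt_of_le hc hrj
      rcases le_or_gt 1 (r j) with h | h
      · refine le_trans ?_ h
        apply Real.exp_le_one_iff.2
        have : 0 ≤ |r j - 1| / c := by positivity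
        linarith
      · rw [← Real.le_log_iff_exp_le hpos]
        have h2 := Real.one_sub_inv_le_log_of_pos hpos
        refine le_trans ?_ h2
        rw [abs_of_neg (by linarith)]
        have h3 : (r j)⁻¹ - 1 ≤ -(r j - 1) / c := by
          have e : (r j)⁻¹ - 1 = (1 - r j) / r j := by field_simp
          rw [e, neg_sub]
          gcongr
        linarith
    calc Real.exp (-(C / c)) ≤ Real.exp (-(∑ j ∈ F, |r j - 1| / c)) := by
          apply Real.exp_le_exp.2
          rw [← Finset.sum_div]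
          have : ∑ j ∈ F, |r j - 1| ≤ C := (hs.sum_le_tsum F (fun _ _ => abs_nonneg _)).trans hC
          have h4 : (∑ j ∈ F, |r j - 1|) / c ≤ C / c := by gcongr
          linarith
      _ = ∏ j ∈ F, Real.exp (-(|r j - 1| / c)) := by
          rw [← Real.exp_sum, Finset.sum_neg_distrib]
      _ ≤ ∏ j ∈ F, r j := Finset.prod_le_prod (fun _ _ => (Real.exp_pos _).le) fun j _ => h1 j
  · apply hasProd_le_of_prod_le hm.hasProd
    intro F
    calc ∏ j ∈ F, r j ≤ ∏ j ∈ F, Real.exp |r j - 1| := by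
          apply Finset.prod_le_prod (fun j _ => (lt_of_lt_of_le hc (hr j)).le)
          intro j _
          have h1 := Real.add_one_le_exp |r j - 1|
          have h2 := le_abs_self (r j - 1)
          linarith
      _ = Real.exp (∑ j ∈ F, |r j - 1|) := by rw [Real.exp_sum]
      _ ≤ Real.exp C := by
          apply Real.exp_le_exp.2
          exact (hs.sum_le_tsum F (fun _ _ => abs_nonneg _)).trans hC

/-- a finite set of positive numbers has a positive lower bound -/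
lemma finite_pos_bound {α : Type*} (s : Finset α) {f : α → ℝ} (hf : ∀ a ∈ s, 0 < f a) :
    ∃ c : ℝ, 0 < c ∧ ∀ a ∈ s, c ≤ f a := by
  induction s using Finset.induction_on with
  | empty => exact ⟨1, one_pos, by simp⟩
  | insert a s ha ih =>
    obtain ⟨c, hc, hcs⟩ := ih fun b hb => hf b (Finset.mem_insert_of_mem hb)
    refine ⟨min c (f a), lt_min hc (hf a (Finset.mem_insert_self _ _)), ?_⟩
    intro b hb
    rcases Finset.mem_insert.1 hb with h | h
    · rw [h]; exact min_le_right _ _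
    · exact (min_le_left _ _).trans (hcs b h)

lemma summable_shift (i : ℕ) {κ : Type*} {ν : κ → ℕ} (hν : Function.Injective ν) :
    (Summable fun j => 1 / (((ν j : ℤ) - i : ℤ) : ℝ) ^ 2) ∧
    ∑' j, 1 / (((ν j : ℤ) - i : ℤ) : ℝ) ^ 2 ≤ ∑' k : ℤ, 1 / (k : ℝ) ^ 2 := by
  have h1 : Summable fun k : ℤ => 1 / (k : ℝ) ^ 2 := Real.summable_one_div_int_pow.2 (by norm_num)
  have hinj : Function.Injective fun j => ((ν j : ℤ) - i) := by
    intro a b hab
    apply hν
    simp only [sub_left_inj, Nat.cast_inj] at hab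
    exact hab
  refine ⟨h1.comp_injective hinj, ?_⟩
  exact tsum_comp_le_tsum_of_inj h1 (fun k => by positivity) hinj

/-- comparison -/
theorem rprod_compare {T : ℕ → ℝ} {O : Set ℕ} (hO : ∀ i ∈ O, 1 ≤ i) (hT : ∀ i ∈ O, 0 < T i)
    (hlt : ∀ i ∈ O, ∀ j ∈ O, i < j → T i < T j) {M : ℝ} (hM : ∀ i ∈ O, |T i - (i:ℝ) ^ 2| ≤ M) :
    ∃ A B : ℝ, 0 < A ∧ 0 < B ∧ ∀ (κ : Type) (ν : κ → ℕ), Function.Injective ν → (∀ k, ν k ∈ O) →
      ∀ i : κ, A * rprod (fun k => (ν k : ℝ) ^ 2) i ^ 2 ≤ rprod (fun k => T (ν k)) i ^ 2 ∧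
        rprod (fun k => T (ν k)) i ^ 2 ≤ B * rprod (fun k => (ν k : ℝ) ^ 2) i ^ 2 := by
  rcases O.eq_empty_or_nonempty with hOe | hOne
  · refine ⟨1, 1, one_pos, one_pos, ?_⟩
    intro κ ν _ hk i
    have := hk i
    rw [hOe] at this
    exact absurd this (Set.notMem_empty _)
  obtain ⟨i0, hi0⟩ := hOne
  have hM0 : 0 ≤ M := (abs_nonneg _).trans (hM i0 hi0)
  obtain ⟨R, hR⟩ := exists_nat_ge (4 * M + 1)
  -- lower bound for T j / j ^ 2
  obtain ⟨c1, hc1, hc1'⟩ : ∃ c : ℝ, 0 < c ∧ ∀ j ∈ O, c ≤ T j / (j : ℝ) ^ 2 := by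
    obtain ⟨c, hc, hcs⟩ := finite_pos_bound ((Finset.range (R + 1)).filter (· ∈ O))
      (f := fun j => T j / (j : ℝ) ^ 2) (by
        intro j hj
        have hj' := (Finset.mem_filter.1 hj).2
        have h1 := hO j hj'
        have h2 := hT j hj'
        have h3 : (1:ℝ) ≤ j := by exact_mod_cast h1
        positivity)
    refine ⟨min c (1 / 2), lt_min hc (by norm_num), ?_⟩
    intro j hj
    rcases le_or_gt j R with h | h
    · exact (min_le_left _ _).trans (hcs j (Finset.mem_filter.2 ⟨Finset.mem_range.2 (by omega), hj⟩))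
    · refine (min_le_right _ _).trans ?_
      have h1 : (R : ℝ) < j := by exact_mod_cast h
      have h2 : (1:ℝ) ≤ j := by exact_mod_cast hO j hj
      rw [le_div_iff₀ (by positivity)]
      have h3 := (abs_le.1 (hM j hj)).1
      nlinarith
  -- lower bound for the difference quotient
  obtain ⟨c2, hc2, hc2'⟩ : ∃ c : ℝ, 0 < c ∧ ∀ i ∈ O, ∀ j ∈ O, i ≠ j →
      c ≤ (T j - T i) / ((j : ℝ) ^ 2 - (i:ℝ) ^ 2) := by
    obtain ⟨c, hc, hcs⟩ := finite_pos_bound
      (((Finset.range (R + 1)) ×ˢ (Finset.range (R + 1))).filter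
        (fun p => p.1 ∈ O ∧ p.2 ∈ O ∧ p.1 ≠ p.2))
      (f := fun p => (T p.2 - T p.1) / ((p.2 : ℝ) ^ 2 - (p.1:ℝ) ^ 2)) (by
        rintro ⟨i, j⟩ hp
        obtain ⟨h1, h2, h3⟩ := (Finset.mem_filter.1 hp).2
        simp only at h1 h2 h3 ⊢
        rcases lt_or_gt_of_ne h3 with h | h
        · have a1 := hlt i h1 j h2 h
          have a2 : (i:ℝ) < j := by exact_mod_cast h
          apply div_pos (by linarith)
          have a3 : (0:ℝ) ≤ i := by positivity
          nlinarith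
        · have a1 := hlt j h2 i h1 h
          have a2 : (j:ℝ) < i := by exact_mod_cast h
          apply div_pos_of_neg_of_neg (by linarith)
          have a3 : (0:ℝ) ≤ j := by positivity
          nlinarith)
    refine ⟨min c (1 / 2), lt_min hc (by norm_num), ?_⟩
    intro i hi j hj hij
    by_cases hsmall : i ≤ R ∧ j ≤ R
    · refine (min_le_left _ _).trans (hcs (i, j) (Finset.mem_filter.2 ⟨?_, hi, hj, hij⟩))
      rw [Finset.mem_product, Finset.mem_range, Finset.mem_range]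
      exact ⟨by omega, by omega⟩
    · refine (min_le_right _ _).trans ?_
      have hi1 : (1:ℝ) ≤ i := by exact_mod_cast hO i hi
      have hj1 : (1:ℝ) ≤ j := by exact_mod_cast hO j hj
      have hbig : (R : ℝ) ≤ i + j := by
        rcases not_and_or.1 hsmall with h | h
        · have : (R:ℝ) < i := by exact_mod_cast not_le.1 h
          linarith
        · have : (R:ℝ) < j := by exact_mod_cast not_le.1 h
          linarith
      have h3 := abs_le.1 (hM j hj)
      have h4 := abs_le.1 (hM i hi)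
      rcases lt_or_gt_of_ne hij with h | h
      · have a2 : (i:ℝ) + 1 ≤ j := by exact_mod_cast h
        have a3 : 4 * M ≤ (j:ℝ) ^ 2 - (i:ℝ) ^ 2 := by
          have : (i:ℝ) + j ≤ ((j:ℝ) - i) * (i + j) := by nlinarith
          nlinarith
        have a4 : 0 < (j:ℝ) ^ 2 - (i:ℝ) ^ 2 := by nlinarith
        rw [le_div_iff₀ a4]
        linarith [h3.1, h4.2]
      · have a2 : (j:ℝ) + 1 ≤ i := by exact_mod_cast h
        have a3 : 4 * M ≤ (i:ℝ) ^ 2 - (j:ℝ) ^ 2 := by
          have : (i:ℝ) + j ≤ ((i:ℝ) - j) * (i + j) := by nlinarith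
          nlinarith
        have a4 : 0 < (i:ℝ) ^ 2 - (j:ℝ) ^ 2 := by nlinarith
        have a5 : (T j - T i) / ((j:ℝ) ^ 2 - (i:ℝ) ^ 2) = (T i - T j) / ((i:ℝ) ^ 2 - (j:ℝ) ^ 2) := by
          rw [← neg_sub (T i), ← neg_sub ((i:ℝ) ^ 2), neg_div_neg_eq]
        rw [a5, le_div_iff₀ a4]
        linarith [h3.2, h4.1]
  set Z : ℝ := ∑' k : ℤ, 1 / (k : ℝ) ^ 2 with hZ
  have hZ0 : 0 ≤ Z := tsum_nonneg fun k => by positivity
  set C : ℝ := 3 * M * Z / c1 with hC
  set c : ℝ := min 1 (c2 / (1 + M)) with hcdef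
  have hcpos : 0 < c := lt_min one_pos (by positivity)
  refine ⟨Real.exp (-(C / c)) ^ 2, Real.exp C ^ 2, by positivity, by positivity, ?_⟩
  intro κ ν hν hkO i
  set r : κ → ℝ := fun j => if j = i then 1 else
    ((T (ν j) - T (ν i)) / ((ν j : ℝ) ^ 2 - (ν i : ℝ) ^ 2)) / (T (ν j) / (ν j : ℝ) ^ 2) with hr
  have hpos : ∀ j, (1:ℝ) ≤ ν j := fun j => by exact_mod_cast hO _ (hkO j)
  have hsq : ∀ j, j ≠ i → (ν j : ℝ) ^ 2 - (ν i : ℝ) ^ 2 ≠ 0 := by
    intro j hj h
    have h1 : (ν j : ℝ) ^ 2 = (ν i : ℝ) ^ 2 := by linarith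
    have h2 : (ν j : ℝ) = ν i := by
      have a1 := hpos j
      have a2 := hpos i
      exact (pow_left_inj₀ (by linarith) (by linarith) two_ne_zero).1 h1
    exact hj (hν (by exact_mod_cast h2))
  have hlow : ∀ j, c ≤ r j := by
    intro j
    simp only [hr]
    split_ifs with hj
    · exact min_le_left _ _
    · refine (min_le_right _ _).trans ?_
      have h1 := hc2' _ (hkO i) _ (hkO j) (fun h => hj (hν h.symm))
      have h2 : T (ν j) / (ν j : ℝ) ^ 2 ≤ 1 + M := by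
        have a1 := hpos j
        rw [div_le_iff₀ (by positivity)]
        have a2 := (abs_le.1 (hM _ (hkO j))).2
        have a3 : (1:ℝ) ≤ (ν j : ℝ) ^ 2 := one_le_pow₀ a1
        nlinarith
      have h3 : 0 < T (ν j) / (ν j : ℝ) ^ 2 := lt_of_lt_of_le hc1 (hc1' _ (hkO j))
      have h4 : 0 ≤ (T (ν j) - T (ν i)) / ((ν j : ℝ) ^ 2 - (ν i : ℝ) ^ 2) := hc2.le.trans h1
      gcongr
  have hup : ∀ j, |r j - 1| ≤ (2 * M / c1) * (1 / (((ν j : ℤ) - ν i : ℤ) : ℝ) ^ 2) +
      (M / c1) * (1 / (((ν j : ℤ) - (0:ℕ) : ℤ) : ℝ) ^ 2) := by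
    intro j
    simp only [hr]
    split_ifs with hj
    · rw [sub_self, abs_zero]; positivity
    · have a1 := hpos j
      have a2 := hpos i
      have h3 : c1 ≤ T (ν j) / (ν j : ℝ) ^ 2 := hc1' _ (hkO j)
      have h3' : 0 < T (ν j) / (ν j : ℝ) ^ 2 := lt_of_lt_of_le hc1 h3
      have hne := hsq j hj
      have e : ((T (ν j) - T (ν i)) / ((ν j : ℝ) ^ 2 - (ν i : ℝ) ^ 2)) / (T (ν j) / (ν j : ℝ) ^ 2) - 1 =
          (((T (ν j) - (ν j : ℝ) ^ 2) - (T (ν i) - (ν i : ℝ) ^ 2)) / ((ν j : ℝ) ^ 2 - (ν i : ℝ) ^ 2) -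
            (T (ν j) - (ν j : ℝ) ^ 2) / (ν j : ℝ) ^ 2) / (T (ν j) / (ν j : ℝ) ^ 2) := by
        have b1 : T (ν j) ≠ 0 := (hT _ (hkO j)).ne'
        have b2 : (ν j : ℝ) ≠ 0 := by linarith
        field_simp
        ring
      rw [e, abs_div, abs_of_pos h3']
      have hd : (((ν j : ℤ) - ν i : ℤ) : ℝ) = (ν j : ℝ) - ν i := by push_cast; ring
      have hd0 : (((ν j : ℤ) - (0:ℕ) : ℤ) : ℝ) = (ν j : ℝ) := by push_cast; ring
      rw [hd, hd0]
      have hM1 := hM _ (hkO j)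
      have hM2 := hM _ (hkO i)
      have hdne : (ν j : ℝ) - ν i ≠ 0 := by
        intro h
        apply hne
        have : (ν j : ℝ) ^ 2 - (ν i : ℝ) ^ 2 = ((ν j : ℝ) - ν i) * (ν j + ν i) := by ring
        rw [this, h, zero_mul]
      have hsqle : ((ν j : ℝ) - ν i) ^ 2 ≤ |(ν j : ℝ) ^ 2 - (ν i : ℝ) ^ 2| := by
        have e1 : (ν j : ℝ) ^ 2 - (ν i : ℝ) ^ 2 = ((ν j : ℝ) - ν i) * (ν j + ν i) := by ring
        rw [e1, abs_mul, ← sq_abs ((ν j : ℝ) - ν i), sq]
        apply mul_le_mul_of_nonneg_left _ (abs_nonneg _)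
        rw [abs_of_nonneg (by linarith : (0:ℝ) ≤ ν j + ν i)]
        rw [abs_le]
        constructor <;> linarith
      have hsqpos : 0 < ((ν j : ℝ) - ν i) ^ 2 := by positivity
      calc |((T (ν j) - (ν j : ℝ) ^ 2) - (T (ν i) - (ν i : ℝ) ^ 2)) / ((ν j : ℝ) ^ 2 - (ν i : ℝ) ^ 2) -
            (T (ν j) - (ν j : ℝ) ^ 2) / (ν j : ℝ) ^ 2| / (T (ν j) / (ν j : ℝ) ^ 2)
          ≤ ((2 * M) / ((ν j : ℝ) - ν i) ^ 2 + M / (ν j : ℝ) ^ 2) / c1 := by
            have hnum : |((T (ν j) - (ν j : ℝ) ^ 2) - (T (ν i) - (ν i : ℝ) ^ 2)) / ((ν j : ℝ) ^ 2 - (ν i : ℝ) ^ 2) -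
              (T (ν j) - (ν j : ℝ) ^ 2) / (ν j : ℝ) ^ 2| ≤
                (2 * M) / ((ν j : ℝ) - ν i) ^ 2 + M / (ν j : ℝ) ^ 2 := by
              refine (abs_sub _ _).trans (add_le_add ?_ ?_)
              · rw [abs_div]
                have : |(T (ν j) - (ν j : ℝ) ^ 2) - (T (ν i) - (ν i : ℝ) ^ 2)| ≤ 2 * M := by
                  refine (abs_sub _ _).trans ?_
                  linarith
                gcongr
              · rw [abs_div, abs_of_nonneg (by positivity : (0:ℝ) ≤ (ν j : ℝ) ^ 2)]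
                gcongr
            gcongr
        _ = _ := by field_simp
  obtain ⟨hs1, hs1'⟩ := summable_shift (ν i) hν
  obtain ⟨hs2, hs2'⟩ := summable_shift 0 hν
  have hsum := (hs1.mul_left (2 * M / c1)).add (hs2.mul_left (M / c1))
  have hsr : Summable fun j => |r j - 1| := Summable.of_nonneg_of_le (fun _ => abs_nonneg _) hup hsum
  have hle : ∑' j, |r j - 1| ≤ C := by
    calc ∑' j, |r j - 1| ≤ ∑' j, ((2 * M / c1) * (1 / (((ν j : ℤ) - ν i : ℤ) : ℝ) ^ 2) +
      (M / c1) * (1 / (((ν j : ℤ) - (0:ℕ) : ℤ) : ℝ) ^ 2)) := hsr.tsum_le_tsum hup hsum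
      _ = (2 * M / c1) * (∑' j, (1 / (((ν j : ℤ) - ν i : ℤ) : ℝ) ^ 2)) +
          (M / c1) * (∑' j, (1 / (((ν j : ℤ) - (0:ℕ) : ℤ) : ℝ) ^ 2)) := by
        rw [(hs1.mul_left (2 * M / c1)).tsum_add (hs2.mul_left (M / c1)), tsum_mul_left, tsum_mul_left]
      _ ≤ (2 * M / c1) * Z + (M / c1) * Z := by gcongr
      _ = C := by rw [hC]; ring
  obtain ⟨hm, hl, hu⟩ := tprod_bounds hcpos hlow (min_le_left _ _) hsr hle
  -- the product identity
  have hsqsum : Summable fun j => ((ν j : ℝ) ^ 2)⁻¹ := by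
    refine hs2.congr fun j => ?_
    push_cast; rw [sub_zero, one_div]
  have hm2 := multipliable_rprod (t := fun k => (ν k : ℝ) ^ 2)
    (fun j => by have := hpos j; positivity) hsqsum i
  have hid : rprod (fun k => T (ν k)) i = (∏' j, r j) * rprod (fun k => (ν k : ℝ) ^ 2) i := by
    unfold rprod
    rw [← hm.tprod_mul hm2]
    congr 1
    ext j
    simp only [hr]
    split_ifs with hj
    · rw [one_mul]
    · have b1 : T (ν j) ≠ 0 := (hT _ (hkO j)).ne'
      have b2 : (ν j : ℝ) ≠ 0 := by have := hpos j; linarith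
      have b3 := hsq j hj
      field_simp
  rw [hid, mul_pow]
  have hprod0 : 0 ≤ ∏' j, r j := (Real.exp_pos _).le.trans hl
  constructor
  · gcongr
  · gcongr

end Run7.h374
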