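import Pool.Agent.Run7.h374.Rigid

/-! Density of the polynomials in a weighted `ℓ²` space over a discrete set `t i` with
`∑ 1 / t i < ∞`. -/

set_option autoImplicit false

namespace Run7.h374

open Complex Filter Topology Metric
open scoped Classical

variable {κ : Type*} {t w : κ → ℝ}

/-- AM-GM in the form we use -/
lemma amgm_aux {a v x : ℝ} (hv : 0 < v) : |a| * x ≤ a ^ 2 / v + v * x ^ 2 := by
  have h1 : 0 ≤ (|a| / Real.sqrt v - Real.sqrt v * x) ^ 2 := sq_nonneg _
  have h2 : Real.sqrt v * Real.sqrt v = v := Real.mul_self_sqrt hv.le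
  have h3 : 0 < Real.sqrt v := Real.sqrt_pos.2 hv
  have h4 : (|a| / Real.sqrt v - Real.sqrt v * x) ^ 2 = a ^ 2 / v + v * x ^ 2 - 2 * (|a| * x) := by
    have : (|a| / Real.sqrt v) ^ 2 = a ^ 2 / v := by
      rw [div_pow, sq_abs, Real.sq_sqrt hv.le]
    have e2 : (Real.sqrt v * x) ^ 2 = v * x ^ 2 := by rw [mul_pow, Real.sq_sqrt hv.le]
    have e3 : |a| / Real.sqrt v * (Real.sqrt v * x) = |a| * x := by field_simp
    rw [sub_sq, this, e2]
    linear_combination (-2) * e3
  have h5 : 0 ≤ a ^ 2 / v := by positivity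
  have h6 : 0 ≤ v * x ^ 2 := by positivity
  nlinarith

lemma summable_l2_pow (ht : ∀ i, 0 < t i) (hw : ∀ i, 0 < w i)
    (hmom : ∀ k : ℕ, Summable fun i => w i * t i ^ k) {a : κ → ℝ}
    (ha : Summable fun i => a i ^ 2 / w i) (k : ℕ) : Summable fun i => |a i| * t i ^ k := by
  apply Summable.of_nonneg_of_le _ _ (ha.add (hmom (2 * k)))
  · intro i
    have := ht i
    positivity
  · intro i
    have := amgm_aux (a := a i) (x := t i ^ k) (hw i)
    rw [← pow_mul, mul_comm k 2] at this
    exact this

lemma summable_inv_sq (ht : ∀ i, 0 < t i) (hs : Summable fun i => (t i)⁻¹) :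
    Summable fun i => ((t i)⁻¹) ^ 2 := by
  apply Summable.of_nonneg_of_le (fun i => sq_nonneg _) _ (hs.mul_left (∑' i, (t i)⁻¹))
  intro i
  have h1 := hs.le_tsum i (fun j _ => (inv_pos.2 (ht j)).le)
  have := ht i
  rw [sq]
  gcongr

/-- the `ℓ²` theorem: a nonzero annihilator gives a set `S` -/
theorem exists_set_l2 (ht : ∀ i, 0 < t i) (hinj : Function.Injective t)
    (hs : Summable fun i => (t i)⁻¹) (hw : ∀ i, 0 < w i)
    (hmom : ∀ k : ℕ, Summable fun i => w i * t i ^ k) {a : κ → ℝ} (ha0 : a ≠ 0)
    (ha : Summable fun i => a i ^ 2 / w i) (hann : ∀ k : ℕ, ∑' i, a i * t i ^ k = 0) :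
    ∃ S : Set κ, S.Infinite ∧
      Summable fun i : S => t i ^ 2 / (w i * rprod (fun j : S => t j) i ^ 2) := by
  set S : Set κ := {i | a i ≠ 0} with hS
  have hSinf : S.Infinite := support_infinite hinj ha0 hann
  have hSinf' : Infinite S := hSinf.to_subtype
  set τ : S → ℝ := fun j => t j with hτ
  have hτt : ∀ i, 0 < τ i := fun i => ht i
  have hτinj : Function.Injective τ := fun i j h => Subtype.ext (hinj h)
  have hτs : Summable fun i => (τ i)⁻¹ := hs.subtype S
  have hak := summable_l2_pow ht hw hmom ha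
  have hakS : ∀ k : ℕ, Summable fun i : S => |a i| * τ i ^ k := fun k => (hak k).subtype S
  have hannS : ∀ k : ℕ, ∑' i : S, a i * τ i ^ k = 0 := by
    intro k
    rw [← hann k]
    apply tsum_restrict (f := fun i => a i * t i ^ k)
    intro i hi
    have : a i = 0 := by simpa [hS] using hi
    simp [this]
  by_cases hcase : ∀ z : ℂ, (∀ i : S, z ≠ (τ i : ℂ)) →
      ∑' i : S, ((a i : ℝ) : ℂ) / (z - (τ i : ℂ)) ≠ 0
  · -- rigid case
    have haabs : Summable fun i : S => |a i| := by
      have := hakS 0
      simpa using this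
    obtain ⟨c, hc, hca⟩ := rigid (b := fun i : S => a i) hτt hτinj hτs (fun i => i.2) haabs hcase
    refine ⟨S, hSinf, ?_⟩
    have hkey : ∀ i : S, τ i ^ 2 / rprod τ i ^ 2 = a i ^ 2 * (‖c‖⁻¹) ^ 2 := by
      intro i
      have h1 := hca i
      rw [← rprod_coe hτt hτs i] at h1
      have h2 := congrArg norm h1
      rw [norm_mul, norm_mul, norm_neg, norm_div, norm_one, Complex.norm_real, Complex.norm_real,
        Complex.norm_real, Real.norm_eq_abs, Real.norm_of_nonneg (hτt i).le, Real.norm_eq_abs] at h2
      have h3 : 0 < |rprod τ i| := abs_pos.2 (rprod_ne_zero hτt hτinj hτs i)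
      have h4 : 0 < ‖c‖ := norm_pos_iff.2 hc
      have h5 := hτt i
      have h6 : 0 < |a i| := abs_pos.2 i.2
      rw [← sq_abs (rprod τ i), ← sq_abs (a i), ← h2]
      field_simp
    have hfinal : (fun i : S => t i ^ 2 / (w i * rprod (fun j : S => t j) i ^ 2)) =
        fun i : S => (a i ^ 2 / w i) * (‖c‖⁻¹) ^ 2 := by
      ext i
      have h1 := hkey i
      rw [hτ] at h1
      simp only at h1
      rw [mul_comm (w i), ← div_div, h1]
      ring
    rw [hfinal]
    exact (ha.subtype S).mul_right _
  · push Not at hcase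
    obtain ⟨z, hz, h0⟩ := hcase
    obtain ⟨h, hne, ⟨C, hC, hCb⟩, hhann⟩ := div_ann (b := fun i : S => a i) hτt hτs hakS hannS hz h0
    set H : κ → ℝ := fun i => if hi : i ∈ S then h ⟨i, hi⟩ else 0 with hH
    have hHS : ∀ i : S, H i = h i := by
      intro i
      rw [hH]
      simp
    have hHann : ∀ k : ℕ, ∑' i, (H i * a i) * t i ^ k = 0 := by
      intro k
      rw [← hhann k]
      symm
      have := tsum_restrict (f := fun i => (H i * a i) * t i ^ k) (S := S) (by
        intro i hi
        have : a i = 0 := by simpa [hS] using hi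
        simp [this])
      rw [← this]
      congr 1
      ext i
      rw [hHS]
    have hHb : ∀ i, |H i| ≤ C * (t i)⁻¹ := by
      intro i
      by_cases hi : i ∈ S
      · have e1 : H i = h ⟨i, hi⟩ := hHS ⟨i, hi⟩
        rw [e1]
        exact hCb _
      · have e1 : H i = 0 := by rw [hH]; simp [hi]
        rw [e1, abs_zero]
        have := ht i
        positivity
    -- apply the l1 theorem with W = w^{-1/2}
    set W : κ → ℝ := fun i => (Real.sqrt (w i))⁻¹ with hWdef
    have hW : ∀ i, 0 < W i := fun i => inv_pos.2 (Real.sqrt_pos.2 (hw i))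
    have hsq : ∀ i, W i ^ 2 = (w i)⁻¹ := by
      intro i
      rw [hWdef]
      simp only
      rw [inv_pow, Real.sq_sqrt (hw i).le]
    have hinv2 := summable_inv_sq ht hs
    have hsumW : ∀ k : ℕ, Summable fun i => t i ^ k * (W i)⁻¹ := by
      intro k
      apply Summable.of_nonneg_of_le _ _ ((hmom (2 * k + 2)).add hinv2)
      · intro i
        have := ht i
        have := hW i
        positivity
      · intro i
        have e1 : (W i)⁻¹ = Real.sqrt (w i) := by rw [hWdef]; simp
        rw [e1]
        have h1 := ht i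
        have h2 : Real.sqrt (w i) ^ 2 = w i := Real.sq_sqrt (hw i).le
        have h3 : 0 ≤ (t i ^ (k + 1) * Real.sqrt (w i) - (t i)⁻¹) ^ 2 := sq_nonneg _
        have h4 : t i ^ (k+1) * Real.sqrt (w i) * (t i)⁻¹ = t i ^ k * Real.sqrt (w i) := by
          rw [pow_succ]; field_simp
        have h5 : (t i ^ (k + 1) * Real.sqrt (w i) - (t i)⁻¹) ^ 2 =
            w i * t i ^ (2 * k + 2) + ((t i)⁻¹)^2 - 2 * (t i ^ k * Real.sqrt (w i)) := by
          rw [sub_sq, ← h4]
          have : (t i ^ (k + 1) * Real.sqrt (w i)) ^ 2 = w i * t i ^ (2 * k + 2) := by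
            rw [mul_pow, h2, ← pow_mul]
            ring
          rw [this]; ring
        have h6 : 0 ≤ t i ^ k * Real.sqrt (w i) := by positivity
        nlinarith
    have hb0 : (fun i => H i * a i) ≠ 0 := by
      obtain ⟨i0⟩ : Nonempty S := inferInstance
      intro hcon
      have h1 := congrFun hcon i0
      simp only [Pi.zero_apply] at h1
      rw [hHS] at h1
      rcases mul_eq_zero.1 h1 with h2 | h2
      · exact hne _ h2
      · exact i0.2 h2
    have hbW : Summable fun i => |H i * a i| * W i := by
      apply Summable.of_nonneg_of_le _ _ ((ha.add hinv2).mul_left C)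
      · intro i
        have := hW i
        positivity
      · intro i
        have h1 := ht i
        have h2 := hW i
        have h3 : 0 ≤ (|a i| * W i - (t i)⁻¹) ^ 2 := sq_nonneg _
        have h4 : (|a i| * W i) ^ 2 = a i ^ 2 / w i := by
          rw [mul_pow, sq_abs, hsq, div_eq_mul_inv]
        have h5 : 0 ≤ |a i| * W i * (t i)⁻¹ := by positivity
        have h6 : |a i| * W i * (t i)⁻¹ ≤ a i ^ 2 / w i + ((t i)⁻¹) ^ 2 := by
          rw [← h4]; nlinarith
        calc |H i * a i| * W i = |H i| * (|a i| * W i) := by rw [abs_mul]; ring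
          _ ≤ (C * (t i)⁻¹) * (|a i| * W i) := by
              have := hHb i
              gcongr
          _ = C * (|a i| * W i * (t i)⁻¹) := by ring
          _ ≤ _ := by gcongr
    obtain ⟨S', hS', hsum'⟩ := exists_set_l1 ht hinj hs hW hsumW hb0 hbW hHann
    refine ⟨S', hS', ?_⟩
    have hτt' : ∀ i : S', 0 < (fun j : S' => t j) i := fun i => ht i
    have hnn : ∀ i : S', 0 ≤ W i * (t i / |rprod (fun j : S' => t j) i|) := by
      intro i
      have := hW i
      have := ht i
      positivity
    apply Summable.of_nonneg_of_le _ _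
      (hsum'.mul_left (∑' i : S', W i * (t i / |rprod (fun j : S' => t j) i|)))
    · intro i
      have := hw i
      positivity
    · intro i
      have h1 := hsum'.le_tsum i (fun j _ => hnn j)
      have h2 : t i ^ 2 / (w i * rprod (fun j : S' => t j) i ^ 2) =
          (W i * (t i / |rprod (fun j : S' => t j) i|)) * (W i * (t i / |rprod (fun j : S' => t j) i|)) := by
        rw [← sq, mul_pow, hsq, div_pow, sq_abs]
        rw [mul_comm (w i), ← div_div, div_eq_mul_inv _ (w i)]
        ring
      rw [h2]
      have := hnn i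
      gcongr

/-! ### the converse: a convergent sum gives an annihilator -/

/-- the finite identity -/
lemma finite_identity {F : Finset κ} (ht : ∀ i, 0 < t i) (hinj : Function.Injective t) {k : ℕ}
    (hk : k + 1 < F.card) :
    ∑ i ∈ F, t i ^ (k+1) / ∏ j ∈ F.erase i, (1 - t i / t j) = 0 := by
  have h1 := Lagrange.coeff_eq_sum (s := F) (v := t) (hinj.injOn) (P := Polynomial.X ^ k)
    (by
      rw [Polynomial.degree_X_pow]
      exact_mod_cast (Nat.lt_of_succ_lt hk))
  rw [Polynomial.coeff_X_pow, if_neg (by omega)] at h1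
  have h2 : ∀ i ∈ F, t i ^ (k+1) / ∏ j ∈ F.erase i, (1 - t i / t j) =
      ((-1) ^ (F.card - 1) * ∏ j ∈ F, t j) *
        (Polynomial.eval (t i) (Polynomial.X ^ k) / ∏ j ∈ F.erase i, (t i - t j)) := by
    intro i hi
    have h3 : ∏ j ∈ F.erase i, (1 - t i / t j) =
        (-1) ^ (F.card - 1) * (∏ j ∈ F.erase i, (t i - t j)) / ∏ j ∈ F.erase i, t j := by
      rw [← Finset.card_erase_of_mem hi, ← Finset.prod_const, ← Finset.prod_mul_distrib,
        ← Finset.prod_div_distrib]
      apply Finset.prod_congr rfl
      intro j _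
      have := (ht j).ne'
      field_simp
      ring
    have h4 : ∏ j ∈ F, t j = t i * ∏ j ∈ F.erase i, t j := (Finset.mul_prod_erase F t hi).symm
    have h5 : ∏ j ∈ F.erase i, t j ≠ 0 := by
      rw [Finset.prod_ne_zero_iff]
      intro j _; exact (ht j).ne'
    have h6 : ∏ j ∈ F.erase i, (t i - t j) ≠ 0 := by
      rw [Finset.prod_ne_zero_iff]
      intro j hj h7
      exact (Finset.ne_of_mem_erase hj) (hinj (sub_eq_zero.1 h7)).symm
    rw [h3, h4]
    simp only [Polynomial.eval_pow, Polynomial.eval_X]
    have h8 : ((-1:ℝ) ^ (F.card - 1)) ≠ 0 := by positivity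
    have h9 : ((-1:ℝ) ^ (F.card - 1)) * ((-1:ℝ) ^ (F.card - 1)) = 1 := by
      rw [← mul_pow]; simp
    field_simp
    linear_combination (-(t i ^ k * t i)) * h9
  rw [Finset.sum_congr rfl h2, ← Finset.mul_sum, ← h1, mul_zero]

lemma ann_of_summable (ht : ∀ i, 0 < t i) (hinj : Function.Injective t)
    (hs : Summable fun i => (t i)⁻¹) [Infinite κ] (k : ℕ)
    (hsum : Summable fun i => t i ^ (k+1) / |rprod t i|) :
    ∑' i, t i ^ (k+1) / rprod t i = 0 := by
  -- the finite sets
  set FN : ℕ → Finset κ := fun N => (finite_le ht hs N).toFinset with hFN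
  have hmem : ∀ N i, i ∈ FN N ↔ t i ≤ N := by intro N i; simp [hFN]
  have hmono : Monotone FN := by
    intro N M h i hi
    rw [hmem] at hi ⊢
    exact hi.trans (by exact_mod_cast h)
  have htop : Tendsto FN atTop atTop := by
    apply tendsto_atTop_finset_of_monotone hmono
    intro i
    obtain ⟨N, hN⟩ := exists_nat_ge (t i)
    exact ⟨N, (hmem N i).2 hN⟩
  set f : ℕ → κ → ℝ := fun N i => if i ∈ FN N then t i ^ (k+1) / ∏ j ∈ (FN N).erase i, (1 - t i / t j)
    else 0 with hf
  have hprod : ∀ i, Tendsto (fun N => ∏ j ∈ (FN N).erase i, (1 - t i / t j)) atTop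
      (𝓝 (rprod t i)) := by
    intro i
    have h1 := (multipliable_rprod ht hs i).hasProd
    have h2 := h1.comp htop
    refine h2.congr fun N => ?_
    simp only [Function.comp]
    rw [Finset.prod_ite, Finset.prod_const_one, one_mul]
    apply Finset.prod_congr
    · ext j; simp [Finset.mem_erase, and_comm]
    · intros; rfl
  have hle : ∀ i N, i ∈ FN N → |rprod t i| ≤ |∏ j ∈ (FN N).erase i, (1 - t i / t j)| := by
    intro i N hi
    apply le_of_tendsto (hprod i).abs
    filter_upwards [eventually_ge_atTop N] with M hM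
    rw [Finset.abs_prod, Finset.abs_prod]
    apply Finset.prod_le_prod_of_subset_of_le_one
    · exact Finset.erase_subset_erase _ (hmono hM)
    · intro j _; exact abs_nonneg _
    · intro j hj hj'
      have h1 : j ≠ i := Finset.ne_of_mem_erase hj
      have h2 : j ∉ FN N := fun h => hj' (Finset.mem_erase.2 ⟨h1, h⟩)
      rw [hmem] at h2 hi
      push Not at h2
      have h3 : t i ≤ t j := by linarith
      have h4 := ht i
      have h5 := ht j
      have h6 : t i / t j ≤ 1 := (div_le_one h5).2 h3
      have h7 : 0 < t i / t j := by positivity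
      rw [abs_le]
      constructor <;> linarith
  have hlim : Tendsto (fun N => ∑' i, f N i) atTop (𝓝 (∑' i, t i ^ (k+1) / rprod t i)) := by
    apply tendsto_tsum_of_dominated_convergence hsum
    · intro i
      have h1 : Tendsto (fun N => t i ^ (k+1) / ∏ j ∈ (FN N).erase i, (1 - t i / t j)) atTop
          (𝓝 (t i ^ (k+1) / rprod t i)) :=
        tendsto_const_nhds.div (hprod i) (rprod_ne_zero ht hinj hs i)
      refine h1.congr' ?_
      obtain ⟨N, hN⟩ := exists_nat_ge (t i)
      filter_upwards [eventually_ge_atTop N] with M hM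
      rw [hf]
      simp only
      rw [if_pos ((hmem M i).2 (hN.trans (by exact_mod_cast hM)))]
    · filter_upwards with N i
      rw [hf]
      simp only
      split_ifs with hi
      · rw [norm_div, Real.norm_eq_abs, Real.norm_eq_abs, abs_of_pos (pow_pos (ht i) _)]
        have h1 := hle i N hi
        have h2 : 0 < |rprod t i| := abs_pos.2 (rprod_ne_zero ht hinj hs i)
        have h3 := ht i
        gcongr
      · rw [norm_zero]
        have := ht i
        positivity
  have hzero : ∀ᶠ N in atTop, ∑' i, f N i = 0 := by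
    obtain ⟨G, hG⟩ := Infinite.exists_subset_card_eq κ (k + 2)
    have h1 : ∀ᶠ N in atTop, G ⊆ FN N := htop.eventually (eventually_ge_atTop G)
    filter_upwards [h1] with N hN
    have h2 : k + 1 < (FN N).card := by
      have := Finset.card_le_card hN
      omega
    rw [tsum_eq_sum (s := FN N)]
    · rw [← finite_identity (F := FN N) ht hinj h2]
      apply Finset.sum_congr rfl
      intro i hi
      rw [hf]
      simp only
      rw [if_pos hi]
    · intro i hi
      rw [hf]
      simp only
      rw [if_neg hi]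
  exact tendsto_nhds_unique hlim (tendsto_const_nhds.congr' (hzero.mono fun N hN => hN.symm))

/-- a set `S` with convergent sum gives a nonzero annihilator -/
theorem exists_ann (ht : ∀ i, 0 < t i) (hinj : Function.Injective t)
    (hs : Summable fun i => (t i)⁻¹) (hw : ∀ i, 0 < w i)
    (hmom : ∀ k : ℕ, Summable fun i => w i * t i ^ k) {S : Set κ} (hS : S.Infinite)
    (hsum : Summable fun i : S => t i ^ 2 / (w i * rprod (fun j : S => t j) i ^ 2)) :
    ∃ a : κ → ℝ, a ≠ 0 ∧ (Summable fun i => a i ^ 2 / w i) ∧ ∀ k : ℕ, ∑' i, a i * t i ^ k = 0 := by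
  have hSinf' : Infinite S := hS.to_subtype
  set τ : S → ℝ := fun j => t j with hτ
  have hτt : ∀ i, 0 < τ i := fun i => ht i
  have hτinj : Function.Injective τ := fun i j h => Subtype.ext (hinj h)
  have hτs : Summable fun i => (τ i)⁻¹ := hs.subtype S
  set a : κ → ℝ := fun i => if hi : i ∈ S then t i / rprod τ ⟨i, hi⟩ else 0 with ha
  have haS : ∀ i : S, a i = t i / rprod τ i := by
    intro i
    rw [ha]
    simp
  have haN : ∀ i, i ∉ S → a i = 0 := by
    intro i hi
    rw [ha]
    simp [hi]
  have hsq : ∀ i : S, a i ^ 2 / w i = t i ^ 2 / (w i * rprod τ i ^ 2) := by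
    intro i
    rw [haS, div_pow, div_div, mul_comm (w i)]
  have hsuma : Summable fun i => a i ^ 2 / w i := by
    have h1 : Summable fun i : S => a i ^ 2 / w i := by
      simp only [hsq]
      exact hsum
    have h2 : Function.support (fun i => a i ^ 2 / w i) ⊆ S := by
      intro i hi
      by_contra hc
      exact hi (by simp [haN i hc])
    have h3 : Set.indicator S (fun i => a i ^ 2 / w i) = fun i => a i ^ 2 / w i :=
      Set.indicator_eq_self.2 h2
    have h4 : Summable (Set.indicator S (fun i => a i ^ 2 / w i)) := by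
      rw [← summable_subtype_iff_indicator]
      exact h1
    rwa [h3] at h4
  refine ⟨a, ?_, hsuma, ?_⟩
  · obtain ⟨i0⟩ : Nonempty S := inferInstance
    intro h
    have h1 := congrFun h i0
    have h2 : rprod τ i0 ≠ 0 := rprod_ne_zero hτt hτinj hτs i0
    have h3 : t i0 ≠ 0 := (ht i0).ne'
    have h4 : a i0 = t i0 / rprod τ i0 := haS i0
    have h5 : a i0 = 0 := h1
    rw [h4] at h5
    exact (div_ne_zero h3 h2) h5
  · intro k
    have h1 : ∑' i, a i * t i ^ k = ∑' i : S, τ i ^ (k+1) / rprod τ i := by
      rw [← tsum_restrict (f := fun i => a i * t i ^ k) (S := S) (fun i hi => by simp [haN i hi])]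
      congr 1
      ext i
      rw [haS, hτ]
      simp only
      ring
    rw [h1]
    apply ann_of_summable hτt hτinj hτs
    have h2 := (summable_l2_pow ht hw hmom hsuma k).subtype S
    refine h2.congr fun i => ?_
    simp only [Function.comp]
    rw [haS, abs_div, abs_of_pos (ht i), hτ]
    simp only
    ring

end Run7.h374
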