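import Pool.Agent.Run7.h374.Quasi

/-! Rapid decay of the lengths of the lacunae, uniformly in the potential. -/

set_option autoImplicit false

namespace Run7.h374

open Filter Topology MeasureTheory AddCircle
open scoped ComplexConjugate ContDiff

lemma gap_nonneg {q : ℝ → ℝ} {lam : ℕ → ℝ} (hlam : IsHillSpectrum q lam) (n : ℕ) :
    0 ≤ gap lam n := by
  unfold gap
  have := hlam.mono (show 2 * n - 1 ≤ 2 * n by omega)
  linarith

/-- bounded potentials have bounded lacunae -/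
lemma gap_le_two {q : ℝ → ℝ} (hq : Continuous q) (hper : ∀ x, q (x + 1) = q x) {lam : ℕ → ℝ}
    (hlam : IsHillSpectrum q lam) {n : ℕ} (hn : 1 ≤ n) : gap lam n ≤ 2 * ‖qC q hq hper‖ := by
  have h1 := abs_lam_sub hq hper hlam (2 * n)
  have h2 := abs_lam_sub hq hper hlam (2 * n - 1)
  rw [lam0_even] at h1
  rw [lam0_odd n hn] at h2
  unfold gap
  rw [abs_le] at h1 h2
  linarith [h1.2, h2.1]

lemma norm_qC_le {q : ℝ → ℝ} (hq : Continuous q) (hper : ∀ x, q (x + 1) = q x) {C : ℝ}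
    (hC : ∀ x, ‖(q x : ℂ)‖ ≤ C) : ‖qC q hq hper‖ ≤ C := by
  rw [ContinuousMap.norm_le _ ((norm_nonneg _).trans (hC 0))]
  intro x
  induction x using QuotientAddGroup.induction_on with
  | H x => exact hC x

lemma dlt_le {K : ℕ → ℝ} {B : ℕ → ℕ → ℝ} (hK : 0 ≤ K 0) (hB : ∀ j s, 0 ≤ B j s) (N : ℕ) {ρ : ℝ}
    (h0 : 0 ≤ ρ) (h1 : ρ ≤ 1) : dlt K B N ρ ≤ ρ ^ N * dlt K B N 1 := by
  have e : ρ ^ N * dlt K B N 1 = ρ ^ N * (B N 2 + K 0 * B N 0) +
      ∑ p ∈ remIdx N, ρ ^ N * ((1:ℝ) ^ (p.1 + p.2) * (K 0 * B p.1 0 * B p.2 0)) := by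
    unfold dlt
    rw [one_pow, one_mul, mul_add (ρ ^ N) (B N 2 + K 0 * B N 0), Finset.mul_sum]
  rw [e]
  unfold dlt
  apply add_le_add le_rfl
  apply Finset.sum_le_sum
  intro p hp
  rw [one_pow, one_mul]
  have hp' : N ≤ p.1 + p.2 := by
    unfold remIdx at hp
    exact (Finset.mem_filter.1 hp).2
  have h2 : ρ ^ (p.1 + p.2) ≤ ρ ^ N := pow_le_pow_of_le_one h0 h1 hp'
  have h3 := hB p.1 0
  have h4 := hB p.2 0
  gcongr

/-- uniform rapid decay -/
theorem decay_unif (K : ℕ → ℝ) (hK0 : ∀ i, 0 ≤ K i) (N : ℕ) : ∃ C : ℝ, 0 ≤ C ∧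
    ∀ q : ℝ → ℝ, ContDiff ℝ ∞ q → (∀ x, q (x + 1) = q x) →
      (∀ i ≤ N + 1, ∀ x, ‖iteratedDeriv i (fun x => (q x : ℂ)) x‖ ≤ K i) →
      ∀ lam, IsHillSpectrum q lam → ∀ n : ℕ, 1 ≤ n → gap lam n * (n : ℝ) ^ N ≤ C := by
  have hB := isMajorant_maj hK0
  set B := maj K with hBdef
  set A : ℝ := ∑ j ∈ Finset.range N, B (j + 1) 0 with hA
  have hA0 : 0 ≤ A := Finset.sum_nonneg fun j _ => hB.nonneg _ _
  set D : ℝ := dlt K B N 1 with hD
  have hD0 : 0 ≤ D := by
    rw [hD]; unfold dlt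
    have h1 := hB.nonneg N 2
    have h2 := hB.nonneg N 0
    have h3 := hK0 0
    have h4 : 0 ≤ ∑ p ∈ remIdx N, (1:ℝ) ^ (p.1 + p.2) * (K 0 * B p.1 0 * B p.2 0) := by
      apply Finset.sum_nonneg
      intro p _
      have h5 := hB.nonneg p.1 0
      have h6 := hB.nonneg p.2 0
      positivity
    positivity
  obtain ⟨n0, hn0⟩ := exists_nat_ge (4 * A + D + 3 * K 0 + 9)
  have hK00 := hK0 0
  rcases Nat.eq_zero_or_pos N with hN | hN
  · subst hN
    refine ⟨2 * K 0, by positivity, ?_⟩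
    intro q hqs hper hb lam hlam n hn
    have h1 := gap_le_two hqs.continuous hper hlam hn
    have h2 : ‖qC q hqs.continuous hper‖ ≤ K 0 := norm_qC_le hqs.continuous hper fun x => by
      have := hb 0 (Nat.zero_le _) x
      rwa [iteratedDeriv_zero] at this
    rw [pow_zero, mul_one]
    linarith
  refine ⟨16 * D + 2 * K 0 * (n0 : ℝ) ^ N, by positivity, ?_⟩
  intro q hqs hper hb lam hlam n hn
  have hq : Continuous q := hqs.continuous
  have hqs' : ContDiff ℝ ∞ (fun x => (q x : ℂ)) := Complex.ofRealCLM.contDiff.comp hqs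
  have hn1 : (1:ℝ) ≤ n := by exact_mod_cast hn
  rcases lt_or_ge n n0 with hlt | hge
  · have h1 := gap_le_two hq hper hlam hn
    have h2 : ‖qC q hq hper‖ ≤ K 0 := norm_qC_le hq hper fun x => by
      have := hb 0 (Nat.zero_le _) x
      rwa [iteratedDeriv_zero] at this
    have h3 : gap lam n ≤ 2 * K 0 := by linarith
    have h4 : (n : ℝ) ≤ n0 := by exact_mod_cast hlt.le
    have h5 : gap lam n * (n : ℝ) ^ N ≤ 2 * K 0 * (n0 : ℝ) ^ N := by gcongr
    linarith
  · have h := exists_WKB hqs hper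
    have hbigN : (n0 : ℝ) ≤ n := by exact_mod_cast hge
    have hρ0 : 0 ≤ 1 / (2 * Real.pi * n) := by positivity
    have hπ : 3 < Real.pi := Real.pi_gt_three
    have hρn : 1 / (2 * Real.pi * n) ≤ 1 / n := by
      apply one_div_le_one_div_of_le (by positivity)
      nlinarith
    have hρ1 : 1 / (2 * Real.pi * n) ≤ 1 := by
      refine hρn.trans ?_
      rw [div_le_one (by positivity)]
      exact hn1
    have hAA : ∑ j ∈ Finset.range N, (1 / (2 * Real.pi * n)) ^ (j + 1) * B (j + 1) 0 ≤ 1 / 4 := by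
      calc ∑ j ∈ Finset.range N, (1 / (2 * Real.pi * n)) ^ (j + 1) * B (j + 1) 0
          ≤ ∑ j ∈ Finset.range N, 1 / n * B (j + 1) 0 := by
            apply Finset.sum_le_sum
            intro j _
            have h1 : (1 / (2 * Real.pi * n)) ^ (j + 1) ≤ 1 / n := by
              calc (1 / (2 * Real.pi * n)) ^ (j + 1) ≤ (1 / (2 * Real.pi * n)) ^ 1 :=
                    pow_le_pow_of_le_one hρ0 hρ1 (by omega)
                _ ≤ 1 / n := by rw [pow_one]; exact hρn
            have h2 := hB.nonneg (j + 1) 0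
            gcongr
        _ = 1 / n * A := by rw [hA, Finset.mul_sum]
        _ ≤ 1 / 4 := by
            rw [div_mul_eq_mul_div, one_mul, div_le_div_iff₀ (by positivity) (by norm_num)]
            linarith
    have hdl := dlt_le (hK0 0) hB.nonneg N hρ0 hρ1
    rw [← hD] at hdl
    have hδ : dlt K B N (1 / (2 * Real.pi * n)) ≤ 1 := by
      refine hdl.trans ?_
      have h1 : (1 / (2 * Real.pi * n)) ^ N ≤ 1 / n := by
        calc (1 / (2 * Real.pi * n)) ^ N ≤ (1 / (2 * Real.pi * n)) ^ 1 :=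
              pow_le_pow_of_le_one hρ0 hρ1 (by omega)
          _ ≤ 1 / n := by rw [pow_one]; exact hρn
      calc (1 / (2 * Real.pi * n)) ^ N * D ≤ 1 / n * D := by gcongr
        _ ≤ 1 := by
          rw [div_mul_eq_mul_div, one_mul, div_le_one (by positivity)]
          linarith
    have hbig : 3 * K 0 + 8 < Real.pi ^ 2 * (2 * n - 1) := by
      have h1 : (9:ℝ) ≤ Real.pi ^ 2 := by nlinarith
      have h2 : 9 * (2 * (n:ℝ) - 1) ≤ Real.pi ^ 2 * (2 * n - 1) := by
        apply mul_le_mul_of_nonneg_right h1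
        linarith
      linarith
    have hmain := gap_le hq hper hqs' h hlam hB hn hb hAA hδ hbig
    have h3 : (1 / (2 * Real.pi * n)) ^ N ≤ (1 / n : ℝ) ^ N := by gcongr
    have h4 : gap lam n ≤ 16 * ((1 / n : ℝ) ^ N * D) := by
      refine hmain.trans ?_
      gcongr
      refine hdl.trans ?_
      gcongr
    have h5 : gap lam n * (n : ℝ) ^ N ≤ 16 * D := by
      calc gap lam n * (n : ℝ) ^ N ≤ 16 * ((1 / n : ℝ) ^ N * D) * (n : ℝ) ^ N := by gcongr
        _ = 16 * D := by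
          rw [one_div, inv_pow]
          field_simp
    have h6 : 0 ≤ 2 * K 0 * (n0 : ℝ) ^ N := by positivity
    linarith

end Run7.h374
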