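import Mathlib

/-! Definitions: Hill's equation, its periodic and antiperiodic spectrum, the space `F`. -/

set_option autoImplicit false

namespace Run7.h374

/-- `C_1^∞`: real, infinitely differentiable functions of period `1`. -/
def IsPot (q : ℝ → ℝ) : Prop := ContDiff ℝ (⊤ : ℕ∞) q ∧ ∀ x, q (x + 1) = q x

/-- The solutions of `-f'' + q f = μ f` on the line with `f (x + 1) = σ f x`
(`σ = 1`: periodic boundary condition, `σ = -1`: antiperiodic boundary condition). -/
def eigSpace (q : ℝ → ℝ) (σ : ℂ) (μ : ℝ) : Submodule ℂ (ℝ → ℂ) where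
  carrier := {f | ContDiff ℝ 2 f ∧ (∀ x, -(deriv (deriv f) x) + (q x : ℂ) * f x = (μ : ℂ) * f x) ∧
    ∀ x, f (x + 1) = σ * f x}
  zero_mem' := by
    refine ⟨contDiff_const, ?_, ?_⟩
    · intro x
      have : deriv (deriv (0 : ℝ → ℂ)) x = 0 := by
        have h : deriv (0 : ℝ → ℂ) = 0 := by
          ext y
          exact deriv_const y (0 : ℂ)
        rw [h]
        exact deriv_const x (0 : ℂ)
      rw [this]; simp
    · intro x; simp
  add_mem' := by
    rintro f g ⟨hf, hf1, hf2⟩ ⟨hg, hg1, hg2⟩
    refine ⟨hf.add hg, ?_, ?_⟩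
    · intro x
      have h1 : deriv (f + g) = deriv f + deriv g := by
        ext y
        exact deriv_add (hf.differentiable (by norm_num) y) (hg.differentiable (by norm_num) y)
      have h2 : deriv (deriv f + deriv g) x = deriv (deriv f) x + deriv (deriv g) x := by
        apply deriv_add
        · exact ((hf.iterate_deriv' 1 1).differentiable (by norm_num)) x
        · exact ((hg.iterate_deriv' 1 1).differentiable (by norm_num)) x
      rw [h1, h2]
      have e1 := hf1 x
      have e2 := hg1 x
      simp only [Pi.add_apply]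
      linear_combination e1 + e2
    · intro x
      simp only [Pi.add_apply, hf2 x, hg2 x]; ring
  smul_mem' := by
    rintro c f ⟨hf, hf1, hf2⟩
    refine ⟨contDiff_const.smul hf, ?_, ?_⟩
    · intro x
      have h1 : deriv (c • f) = c • deriv f := by
        ext y
        exact deriv_const_smul c (hf.differentiable (by norm_num) y)
      have h2 : deriv (c • deriv f) x = c • deriv (deriv f) x := by
        apply deriv_const_smul
        exact ((hf.iterate_deriv' 1 1).differentiable (by norm_num)) x
      rw [h1, h2]
      have e1 := hf1 x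
      simp only [Pi.smul_apply, smul_eq_mul]
      linear_combination c * e1
    · intro x
      simp only [Pi.smul_apply, hf2 x, smul_eq_mul]; ring

/-- `lam 0 ≤ lam 1 ≤ lam 2 ≤ …` is the list of all periodic and antiperiodic eigenvalues of
`-d²/dx² + q`, every eigenvalue listed as often as its multiplicity. -/
structure IsHillSpectrum (q : ℝ → ℝ) (lam : ℕ → ℝ) : Prop where
  mono : Monotone lam
  mult : ∀ μ : ℝ, {n | lam n = μ}.encard =
    ((Module.finrank ℂ (eigSpace q 1 μ) + Module.finrank ℂ (eigSpace q (-1) μ) : ℕ) : ℕ∞)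

/-- the length `ℓ_n` of the `n`-th lacuna, `n ≥ 1` -/
def gap (lam : ℕ → ℝ) (n : ℕ) : ℝ := lam (2 * n) - lam (2 * n - 1)

end Run7.h374
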