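import Pool.Agent.Run7.h374.Defs

/-! Definitions: spanning of the polynomials in `F`; the product over a set of lacunae. -/

set_option autoImplicit false

namespace Run7.h374

/-- `P` spans `F`, scalars `𝕜` (used for `𝕜 = ℝ` and `𝕜 = ℂ`): every sequence
`(f n)_{n ≥ 1}` with `∑ ℓ_n |f n|² < ∞` is a limit, in the norm of `F`, of the sequences
`(p (λ_{2n}))_{n ≥ 1}`, `p` a polynomial. -/
def PSpans (𝕜 : Type) [RCLike 𝕜] (lam : ℕ → ℝ) : Prop :=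
  ∀ f : ℕ+ → 𝕜, (Summable fun n : ℕ+ => gap lam n * ‖f n‖ ^ 2) → ∀ ε : ℝ, 0 < ε →
    ∃ p : Polynomial 𝕜,
      (Summable fun n : ℕ+ => gap lam n * ‖f n - p.eval ((lam (2 * n) : ℝ) : 𝕜)‖ ^ 2) ∧
      ∑' n : ℕ+, gap lam n * ‖f n - p.eval ((lam (2 * n) : ℝ) : 𝕜)‖ ^ 2 < ε

/-- `∏_{m ∈ S, m ≠ n} (1 - n² / m²)` -/
noncomputable def lacProd (S : Set ℕ+) (n : ℕ+) : ℝ :=
  ∏' m : S, if (m : ℕ+) = n then 1 else (1 - (n : ℝ) ^ 2 / ((m : ℕ+) : ℝ) ^ 2)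

/-- the criterion: for every infinite set `S` of open lacunae the series
`∑_{n ∈ S} n⁴ / (ℓ_n ∏_{m ∈ S, m ≠ n} (1 - n² / m²)²)` diverges -/
def LacCriterion (lam : ℕ → ℝ) : Prop :=
  ∀ S : Set ℕ+, S.Infinite → (∀ n ∈ S, 0 < gap lam n) →
    ¬ Summable fun n : S => ((n : ℕ+) : ℝ) ^ 4 / (gap lam (n : ℕ+) * lacProd S n ^ 2)

end Run7.h374
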