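import Pool.Agent.Run7.h374.DB

/-! Density of the polynomials in a weighted `ℓ²` space. -/

set_option autoImplicit false

namespace Run7.h374

open Complex Filter Topology Metric
open scoped Classical

variable {κ : Type*} {t w : κ → ℝ}

/-- the polynomials are dense in `ℓ²(w)` over the points `t i` -/
def DenseP (t w : κ → ℝ) : Prop :=
  ∀ f : κ → ℂ, (Summable fun i => w i * ‖f i‖ ^ 2) → ∀ ε : ℝ, 0 < ε →
    ∃ p : Polynomial ℂ, ∑' i, w i * ‖f i - p.eval (t i : ℂ)‖ ^ 2 < ε

lemma summable_poly (ht : ∀ i, 0 < t i) (hw : ∀ i, 0 < w i)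
    (hmom : ∀ k : ℕ, Summable fun i => w i * t i ^ k) (p : Polynomial ℂ) :
    Summable fun i => w i * ‖p.eval (t i : ℂ)‖ ^ 2 := by
  induction p using Polynomial.induction_on' with
  | add p q hp hq =>
    apply Summable.of_nonneg_of_le _ _ ((hp.mul_left 2).add (hq.mul_left 2))
    · intro i
      have := hw i
      positivity
    · intro i
      have h1 := hw i
      rw [Polynomial.eval_add]
      have h2 : ‖p.eval (t i : ℂ) + q.eval (t i : ℂ)‖ ≤ ‖p.eval (t i : ℂ)‖ + ‖q.eval (t i : ℂ)‖ :=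
        norm_add_le _ _
      have h3 : ‖p.eval (t i : ℂ) + q.eval (t i : ℂ)‖ ^ 2 ≤
          2 * ‖p.eval (t i : ℂ)‖ ^ 2 + 2 * ‖q.eval (t i : ℂ)‖ ^ 2 := by
        have h4 := norm_nonneg (p.eval (t i : ℂ) + q.eval (t i : ℂ))
        nlinarith [sq_nonneg (‖p.eval (t i : ℂ)‖ - ‖q.eval (t i : ℂ)‖)]
      nlinarith
  | monomial n a =>
    have h1 : (fun i => w i * ‖(Polynomial.monomial n a).eval (t i : ℂ)‖ ^ 2) =
        fun i => ‖a‖ ^ 2 * (w i * t i ^ (2 * n)) := by
      ext i
      rw [Polynomial.eval_monomial, norm_mul, norm_pow, Complex.norm_real,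
        Real.norm_of_nonneg (ht i).le, mul_pow, ← pow_mul, mul_comm n 2]
      ring
    rw [h1]
    exact (hmom _).mul_left _

lemma hasSum_poly {a : κ → ℝ} (hs : ∀ k : ℕ, Summable fun i => a i * t i ^ k)
    (hann : ∀ k : ℕ, ∑' i, a i * t i ^ k = 0) (p : Polynomial ℂ) :
    HasSum (fun i => (a i : ℂ) * p.eval (t i : ℂ)) 0 := by
  induction p using Polynomial.induction_on' with
  | add p q hp hq =>
    have := hp.add hq
    rw [add_zero] at this
    have h1 : (fun i => (a i : ℂ) * (p + q).eval (t i : ℂ)) =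
        fun i => (a i : ℂ) * p.eval (t i : ℂ) + (a i : ℂ) * q.eval (t i : ℂ) := by
      ext i; rw [Polynomial.eval_add]; ring
    rw [h1]; exact this
  | monomial n c =>
    have h1 : HasSum (fun i => a i * t i ^ n) 0 := by
      have := (hs n).hasSum
      rwa [hann n] at this
    have h2 : HasSum (fun i => ((a i * t i ^ n : ℝ) : ℂ)) ((0 : ℝ) : ℂ) := by
      exact Complex.hasSum_ofReal.2 h1
    have h3 := h2.mul_left c
    rw [Complex.ofReal_zero, mul_zero] at h3
    have h4 : (fun i => (a i : ℂ) * (Polynomial.monomial n c).eval (t i : ℂ)) =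
        fun i => c * ((a i * t i ^ n : ℝ) : ℂ) := by
      ext i; rw [Polynomial.eval_monomial]; push_cast; ring
    rw [h4]; exact h3

/-- density implies that there is no nonzero annihilator -/
lemma no_ann_of_dense (ht : ∀ i, 0 < t i) (hw : ∀ i, 0 < w i)
    (hmom : ∀ k : ℕ, Summable fun i => w i * t i ^ k) (hD : DenseP t w) {a : κ → ℝ}
    (ha : Summable fun i => a i ^ 2 / w i) (hann : ∀ k : ℕ, ∑' i, a i * t i ^ k = 0) : a = 0 := by
  by_contra ha0
  obtain ⟨i0, hi0⟩ := Function.ne_iff.1 ha0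
  have hak := summable_l2_pow ht hw hmom ha
  have hsak : ∀ k : ℕ, Summable fun i => a i * t i ^ k := by
    intro k
    apply Summable.of_norm_bounded (hak k)
    intro i
    rw [norm_mul, Real.norm_eq_abs, norm_pow, Real.norm_of_nonneg (ht i).le]
  set f : κ → ℂ := fun i => ((a i / w i : ℝ) : ℂ) with hf
  have hfsq : ∀ i, w i * ‖f i‖ ^ 2 = a i ^ 2 / w i := by
    intro i
    rw [hf]
    simp only
    rw [Complex.norm_real, Real.norm_eq_abs, sq_abs, div_pow]
    have := (hw i).ne'
    field_simp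
  have hfs : Summable fun i => w i * ‖f i‖ ^ 2 := by
    simp only [hfsq]; exact ha
  have hpos : 0 < ∑' i, w i * ‖f i‖ ^ 2 := by
    apply hfs.tsum_pos (fun i => mul_nonneg (hw i).le (sq_nonneg _)) i0
    rw [hfsq]
    have h1 := hw i0
    have h2 : a i0 ≠ 0 := hi0
    positivity
  obtain ⟨p, hp⟩ := hD f hfs _ hpos
  have hps := summable_poly ht hw hmom p
  have hsum0 := hasSum_poly hsak hann p
  have hre : HasSum (fun i => ((a i : ℂ) * p.eval (t i : ℂ)).re) 0 := by
    have := Complex.hasSum_re hsum0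
    simpa using this
  have hid : ∀ i, w i * ‖f i - p.eval (t i : ℂ)‖ ^ 2 =
      w i * ‖f i‖ ^ 2 + w i * ‖p.eval (t i : ℂ)‖ ^ 2 - 2 * ((a i : ℂ) * p.eval (t i : ℂ)).re := by
    intro i
    set P := p.eval (t i : ℂ)
    rw [← Complex.normSq_eq_norm_sq, ← Complex.normSq_eq_norm_sq, ← Complex.normSq_eq_norm_sq]
    rw [Complex.normSq_apply, Complex.normSq_apply, Complex.normSq_apply, hf]
    simp only [Complex.sub_re, Complex.sub_im, Complex.ofReal_re, Complex.ofReal_im,
      Complex.re_ofReal_mul]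
    have := (hw i).ne'
    field_simp
    ring
  have h3 : HasSum (fun i => w i * ‖f i - p.eval (t i : ℂ)‖ ^ 2)
      (∑' i, w i * ‖f i‖ ^ 2 + ∑' i, w i * ‖p.eval (t i : ℂ)‖ ^ 2 - 2 * 0) := by
    simp only [hid]
    exact (hfs.hasSum.add hps.hasSum).sub (hre.mul_left 2)
  rw [h3.tsum_eq] at hp
  have h4 : 0 ≤ ∑' i, w i * ‖p.eval (t i : ℂ)‖ ^ 2 :=
    tsum_nonneg fun i => mul_nonneg (hw i).le (sq_nonneg _)
  linarith

/-- if there is no nonzero annihilator, the polynomials are dense -/
lemma dense_of_no_ann (ht : ∀ i, 0 < t i) (hw : ∀ i, 0 < w i)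
    (hmom : ∀ k : ℕ, Summable fun i => w i * t i ^ k)
    (hno : ∀ a : κ → ℝ, (Summable fun i => a i ^ 2 / w i) →
      (∀ k : ℕ, ∑' i, a i * t i ^ k = 0) → a = 0) : DenseP t w := by
  have hmem : ∀ u : κ → ℂ, (Summable fun i => ‖u i‖ ^ 2) → Memℓp u 2 := by
    intro u hu
    apply memℓp_gen
    simpa using hu
  have hpm : ∀ p : Polynomial ℂ, Memℓp (fun i => ((Real.sqrt (w i) : ℝ) : ℂ) * p.eval (t i : ℂ)) 2 := by
    intro p
    apply hmem
    refine (summable_poly ht hw hmom p).congr fun i => ?_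
    rw [norm_mul, mul_pow, Complex.norm_real, Real.norm_of_nonneg (Real.sqrt_nonneg _),
      Real.sq_sqrt (hw i).le]
  let L : Polynomial ℂ →ₗ[ℂ] lp (fun _ : κ => ℂ) 2 :=
    { toFun := fun p => ⟨fun i => ((Real.sqrt (w i) : ℝ) : ℂ) * p.eval (t i : ℂ), hpm p⟩
      map_add' := by
        intro p q
        ext i
        simp only [lp.coeFn_add, Pi.add_apply, Polynomial.eval_add, mul_add]
      map_smul' := by
        intro c p
        ext i
        simp only [lp.coeFn_smul, Pi.smul_apply, Polynomial.eval_smul, smul_eq_mul,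
          RingHom.id_apply]
        ring }
  have hL : ∀ p i, (L p : κ → ℂ) i = ((Real.sqrt (w i) : ℝ) : ℂ) * p.eval (t i : ℂ) := fun p i => rfl
  have hbot : (LinearMap.range L)ᗮ = ⊥ := by
    rw [Submodule.eq_bot_iff]
    intro y hy
    rw [Submodule.mem_orthogonal] at hy
    have hy2 : Summable fun i => ‖(y : κ → ℂ) i‖ ^ 2 := by
      have := (lp.memℓp y).summable (by norm_num)
      simpa using this
    have hinner : ∀ k : ℕ, HasSum (fun i => ((Real.sqrt (w i) * t i ^ k : ℝ) : ℂ) * (y : κ → ℂ) i) 0 := by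
      intro k
      have h1 := hy (L (Polynomial.X ^ k)) ⟨_, rfl⟩
      have h2 := lp.hasSum_inner (𝕜 := ℂ) (L (Polynomial.X ^ k)) y
      rw [h1] at h2
      have h3 : (fun i => ((Real.sqrt (w i) * t i ^ k : ℝ) : ℂ) * (y : κ → ℂ) i) =
          fun i => inner ℂ ((L (Polynomial.X ^ k) : κ → ℂ) i) ((y : κ → ℂ) i) := by
        ext i
        rw [hL]
        simp only [Polynomial.eval_pow, Polynomial.eval_X, RCLike.inner_apply, map_mul, map_pow,
          Complex.conj_ofReal]
        push_cast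
        ring
      rw [h3]
      exact h2
    have hre : (fun i => Real.sqrt (w i) * ((y : κ → ℂ) i).re) = 0 := by
      apply hno
      · apply Summable.of_nonneg_of_le _ _ hy2
        · intro i
          have := hw i
          positivity
        · intro i
          rw [mul_pow, Real.sq_sqrt (hw i).le, mul_comm, mul_div_assoc, div_self (hw i).ne', mul_one]
          rw [← sq_abs]
          have := Complex.abs_re_le_norm ((y : κ → ℂ) i)
          gcongr
      · intro k
        have h1 := Complex.hasSum_re (hinner k)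
        rw [Complex.zero_re] at h1
        rw [← h1.tsum_eq]
        congr 1
        ext i
        rw [Complex.re_ofReal_mul]
        ring
    have him : (fun i => Real.sqrt (w i) * ((y : κ → ℂ) i).im) = 0 := by
      apply hno
      · apply Summable.of_nonneg_of_le _ _ hy2
        · intro i
          have := hw i
          positivity
        · intro i
          rw [mul_pow, Real.sq_sqrt (hw i).le, mul_comm, mul_div_assoc, div_self (hw i).ne', mul_one]
          rw [← sq_abs]
          have := Complex.abs_im_le_norm ((y : κ → ℂ) i)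
          gcongr
      · intro k
        have h1 := Complex.hasSum_im (hinner k)
        rw [Complex.zero_im] at h1
        rw [← h1.tsum_eq]
        congr 1
        ext i
        rw [Complex.im_ofReal_mul]
        ring
    ext i
    have h1 := congrFun hre i
    have h2 := congrFun him i
    simp only [Pi.zero_apply] at h1 h2
    have h3 : Real.sqrt (w i) ≠ 0 := (Real.sqrt_pos.2 (hw i)).ne'
    have h4 : ((y : κ → ℂ) i).re = 0 := by
      rcases mul_eq_zero.1 h1 with h | h
      · exact absurd h h3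
      · exact h
    have h5 : ((y : κ → ℂ) i).im = 0 := by
      rcases mul_eq_zero.1 h2 with h | h
      · exact absurd h h3
      · exact h
    exact Complex.ext h4 h5
  have htop : (LinearMap.range L).topologicalClosure = ⊤ :=
    (Submodule.topologicalClosure_eq_top_iff).2 hbot
  intro f hf ε hε
  have hfm : Memℓp (fun i => ((Real.sqrt (w i) : ℝ) : ℂ) * f i) 2 := by
    apply hmem
    refine hf.congr fun i => ?_
    rw [norm_mul, mul_pow, Complex.norm_real, Real.norm_of_nonneg (Real.sqrt_nonneg _),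
      Real.sq_sqrt (hw i).le]
  set u : lp (fun _ : κ => ℂ) 2 := ⟨_, hfm⟩ with hu
  have hucl : u ∈ closure ((LinearMap.range L : Submodule ℂ (lp (fun _ : κ => ℂ) 2)) : Set (lp (fun _ : κ => ℂ) 2)) := by
    have : u ∈ (LinearMap.range L).topologicalClosure := by rw [htop]; trivial
    exact this
  rw [Metric.mem_closure_iff] at hucl
  obtain ⟨v, ⟨p, hp⟩, hv⟩ := hucl (Real.sqrt ε) (Real.sqrt_pos.2 hε)
  refine ⟨p, ?_⟩
  rw [← hp, dist_eq_norm] at hv
  have h1 : ‖u - L p‖ ^ 2 = ∑' i, w i * ‖f i - p.eval (t i : ℂ)‖ ^ 2 := by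
    have h2 := lp.norm_rpow_eq_tsum (p := 2) (by norm_num) (u - L p)
    have h3 : ‖u - L p‖ ^ 2 = ∑' i, ‖((u - L p : lp (fun _ : κ => ℂ) 2) : κ → ℂ) i‖ ^ 2 := by
      simpa using h2
    rw [h3]
    congr 1
    ext i
    have h4 : ((u - L p : lp (fun _ : κ => ℂ) 2) : κ → ℂ) i =
        ((Real.sqrt (w i) : ℝ) : ℂ) * (f i - p.eval (t i : ℂ)) := by
      rw [lp.coeFn_sub, Pi.sub_apply, hL, hu]
      simp only
      ring
    rw [h4, norm_mul, mul_pow, Complex.norm_real, Real.norm_of_nonneg (Real.sqrt_nonneg _),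
      Real.sq_sqrt (hw i).le]
  rw [← h1]
  calc ‖u - L p‖ ^ 2 < (Real.sqrt ε) ^ 2 := by
        apply pow_lt_pow_left₀ hv (norm_nonneg _) (by norm_num)
    _ = ε := Real.sq_sqrt hε.le

/-- the criterion -/
theorem denseP_iff (ht : ∀ i, 0 < t i) (hinj : Function.Injective t)
    (hs : Summable fun i => (t i)⁻¹) (hw : ∀ i, 0 < w i)
    (hmom : ∀ k : ℕ, Summable fun i => w i * t i ^ k) :
    DenseP t w ↔ ∀ S : Set κ, S.Infinite →
      ¬ Summable fun i : S => t i ^ 2 / (w i * rprod (fun j : S => t j) i ^ 2) := by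
  constructor
  · intro hD S hS hsum
    obtain ⟨a, ha0, ha, hann⟩ := exists_ann ht hinj hs hw hmom hS hsum
    exact ha0 (no_ann_of_dense ht hw hmom hD ha hann)
  · intro h
    apply dense_of_no_ann ht hw hmom
    intro a ha hann
    by_contra ha0
    obtain ⟨S, hS, hsum⟩ := exists_set_l2 ht hinj hs hw hmom ha0 ha hann
    exact h S hS hsum

end Run7.h374
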