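import Pool.Agent.Run7.h374.Obst2

/-! If `P` spans `F` and `q` is flat at a minimum, then `q` is constant. -/

set_option autoImplicit false

namespace Run7.h374

open Filter Topology Metric MeasureTheory
open scoped Interval ComplexConjugate ContDiff Classical

lemma hasDerivAt_re {f : ℝ → ℂ} {f' : ℂ} {x : ℝ} (h : HasDerivAt f f' x) :
    HasDerivAt (fun x => (f x).re) f'.re x :=
  (Complex.reCLM.hasFDerivAt.comp_hasDerivAt x h)

lemma rigid_real {p : ℝ → ℝ} (hmin : ∀ x, p 0 ≤ p x) {y κ : ℝ}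
    (hκy : κ ^ 2 = y ^ 2 + p 0) {k : ℂ} (hk : k ^ 2 = -((y ^ 2 : ℝ) : ℂ))
    {f g : ℝ → ℂ} (hs : IsSol p k f g) (hf0 : f 0 = 1) (hg0 : g 0 = -κ)
    (h1 : g 1 + κ * f 1 = 0) : ∀ x ∈ Set.Ioo (0:ℝ) 1, p x = p 0 := by
  set F : ℝ → ℝ := fun x => (f x).re with hF
  set G : ℝ → ℝ := fun x => (g x).re with hG
  have hdF : ∀ x, HasDerivAt F (G x) x := fun x => hasDerivAt_re (hs.d1 x)
  have hdG : ∀ x, HasDerivAt G ((p x + y ^ 2) * F x) x := by
    intro x
    refine (hasDerivAt_re (hs.d2 x)).congr_deriv ?_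
    rw [hk, sub_neg_eq_add, ← Complex.ofReal_add, Complex.re_ofReal_mul]
  set w : ℝ → ℝ := fun x => G x + κ * F x with hw
  have hdw : ∀ x, HasDerivAt w (κ * w x + (p x - p 0) * F x) x := by
    intro x
    refine ((hdG x).add ((hdF x).const_mul κ)).congr_deriv ?_
    simp only [hw]
    linear_combination (-F x) * hκy
  set h : ℝ → ℝ := fun x => F x * w x with hh
  have hdh : ∀ x, HasDerivAt h (w x ^ 2 + (p x - p 0) * F x ^ 2) x := by
    intro x
    refine ((hdF x).mul (hdw x)).congr_deriv ?_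
    simp only [hw]; ring
  have hnn : ∀ x, 0 ≤ w x ^ 2 + (p x - p 0) * F x ^ 2 := by
    intro x
    have := hmin x
    have : 0 ≤ p x - p 0 := by linarith
    positivity
  have hmono : Monotone h := monotone_of_hasDerivAt_nonneg hdh hnn
  have hw0 : w 0 = 0 := by
    simp only [hw, hG, hF, hf0, hg0]
    simp
  have hw1 : w 1 = 0 := by
    have := congrArg Complex.re h1
    rw [Complex.add_re, Complex.re_ofReal_mul, Complex.zero_re] at this
    exact this
  have hzero : ∀ x ∈ Set.Icc (0:ℝ) 1, h x = 0 := by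
    intro x hx
    apply le_antisymm
    · have := hmono hx.2
      have e : h 1 = 0 := by simp only [hh, hw1, mul_zero]
      rwa [e] at this
    · have := hmono hx.1
      have e : h 0 = 0 := by simp only [hh, hw0, mul_zero]
      rwa [e] at this
  have hder : ∀ x ∈ Set.Ioo (0:ℝ) 1, w x ^ 2 + (p x - p 0) * F x ^ 2 = 0 := by
    intro x hx
    have e : h =ᶠ[𝓝 x] fun _ => 0 := by
      filter_upwards [Ioo_mem_nhds hx.1 hx.2] with z hz
      exact hzero z ⟨hz.1.le, hz.2.le⟩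
    have h2 : HasDerivAt h 0 x := (hasDerivAt_const x (0:ℝ)).congr_of_eventuallyEq e
    exact (hdh x).unique h2
  have hwz : ∀ x ∈ Set.Ioo (0:ℝ) 1, w x = 0 := by
    intro x hx
    have h2 := hder x hx
    have h3 : 0 ≤ (p x - p 0) * F x ^ 2 := by
      have := hmin x
      have : 0 ≤ p x - p 0 := by linarith
      positivity
    have h4 : w x ^ 2 = 0 := by nlinarith [sq_nonneg (w x)]
    exact pow_eq_zero_iff (two_ne_zero) |>.1 h4
  intro x hx
  -- `F x ≠ 0`
  have hE : ∀ z, HasDerivAt (fun z => Real.exp (κ * z) * F z) (Real.exp (κ * z) * w z) z := by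
    intro z
    have h2 : HasDerivAt (fun x : ℝ => Real.exp (κ * x)) (Real.exp (κ * z) * (κ * 1)) z :=
      ((hasDerivAt_id' z).const_mul κ).exp
    refine (h2.mul (hdF z)).congr_deriv ?_
    simp only [hw]; ring
  obtain ⟨c, hc, hc'⟩ := exists_hasDerivAt_eq_slope (fun z => Real.exp (κ * z) * F z)
    (fun z => Real.exp (κ * z) * w z) hx.1 (fun z _ => (hE z).continuousAt.continuousWithinAt)
    (fun z _ => hE z)
  have hF0 : F 0 = 1 := by simp only [hF, hf0]; simp
  rw [hwz c ⟨hc.1, hc.2.trans hx.2⟩, mul_zero, mul_zero, Real.exp_zero, hF0, sub_zero, mul_one] at hc'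
  have h5 : Real.exp (κ * x) * F x = 1 := by
    have := hx.1
    rw [eq_comm, div_eq_zero_iff] at hc'
    rcases hc' with h | h
    · linarith
    · linarith
  have h6 : F x ≠ 0 := by
    intro h; rw [h, mul_zero] at h5; norm_num at h5
  have h7 := hder x hx
  rw [hwz x hx] at h7
  have h8 : (p x - p 0) * F x ^ 2 = 0 := by linarith
  rcases mul_eq_zero.1 h8 with h | h
  · linarith
  · exact absurd (pow_eq_zero_iff (two_ne_zero) |>.1 h) h6

theorem min_flat {q : ℝ → ℝ} {lam : ℕ → ℝ} (hq : IsPot q) (hlam : IsHillSpectrum q lam)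
    (hspan : PSpans ℂ lam) {x₀ : ℝ} (hd : ∀ j : ℕ, 1 ≤ j → iteratedDeriv j q x₀ = 0)
    (hmin : ∀ x, q x₀ ≤ q x) : ∀ x, q x = q x₀ := by
  have hDG := DG_vanish hq hlam hspan hd
  set p := qh q lam x₀ with hp
  have hpot : IsPot p := isPot_qh hq x₀
  have hc := hpot.1.continuous
  obtain ⟨K, hK⟩ := exists_pot_bound hpot
  have hK0 : 0 ≤ K := (abs_nonneg _).trans (hK 0)
  have hp0 := (abs_le.1 (hK 0)).1
  set y : ℝ := K + 1 with hy
  have hpos : 0 ≤ y ^ 2 + p 0 := by nlinarith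
  set κ : ℝ := Real.sqrt (y ^ 2 + p 0) with hκ
  have hκ2 : κ ^ 2 = y ^ 2 + p 0 := Real.sq_sqrt hpos
  set k : ℂ := (y : ℂ) * Complex.I with hk
  have hk2 : k ^ 2 = -((y ^ 2 : ℝ) : ℂ) := by
    rw [hk, mul_pow, Complex.I_sq]; push_cast; ring
  have hs2 := isSol_comb (sol1 hc hK k) (sol2' hc hK k) 1 (-κ : ℂ)
  have hκc : (κ : ℂ) ^ 2 = (p 0 : ℂ) - k ^ 2 := by
    rw [hk2, ← Complex.ofReal_pow, hκ2]; push_cast; ring
  obtain ⟨hD, hG⟩ := hDG k
  unfold DD at hD
  unfold GG at hG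
  have hmin' : ∀ x, p 0 ≤ p x := by
    intro x
    simp only [hp, qh, zero_add]
    have := hmin (x + x₀)
    linarith
  have h := rigid_real hmin' hκ2 hk2 hs2 (by simp only [fy1_zero hc hK, fy2_zero hc hK]; ring) (by
        simp only [fz1_zero, fz2_zero]; ring) (by
        rw [← hκc] at hG
        linear_combination (-κ : ℂ) * hD - hG)
  have h2 : ∀ x ∈ Set.Icc (0:ℝ) 1, p x = p 0 := by
    intro x hx
    rcases hx.1.lt_or_eq with h0 | h0
    · rcases hx.2.lt_or_eq with h1 | h1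
      · exact h x ⟨h0, h1⟩
      · rw [h1]
        have := hpot.2 0
        rwa [zero_add] at this
    · rw [← h0]
  have hper : Function.Periodic p 1 := hpot.2
  intro x
  obtain ⟨z, hz, hxz⟩ := hper.exists_mem_Ico₀ one_pos (x - x₀)
  have h3 : p (x - x₀) = p 0 := by rw [hxz]; exact h2 z ⟨hz.1, hz.2.le⟩
  simp only [hp, qh, sub_add_cancel, zero_add] at h3
  linarith

end Run7.h374
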