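import Pool.Agent.Run7.h374.QA
import Pool.Agent.Run7.h374.MinFlat
import Pool.Agent.Run7.h374.Bump

/-! Spanning in Denjoy-Carleman classes. -/

set_option autoImplicit false

namespace Run7.h374

open Filter Topology
open scoped ContDiff Classical

/-- the class of Roumieu type with weights `n! m n`: there are `A`, `ρ` with
`|q^(n)| ≤ A ρ^n n! m n` for all `n` -/
def InClass (m : ℕ → ℝ) (q : ℝ → ℝ) : Prop :=
  ∃ A ρ : ℝ, ∀ (n : ℕ) (x : ℝ), |iteratedDeriv n q x| ≤ A * ρ ^ n * (n.factorial * m n)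

lemma iteratedDeriv_ofReal {q : ℝ → ℝ} (hq : ContDiff ℝ ∞ q) (n : ℕ) (x : ℝ) :
    iteratedDeriv n (fun x => (q x : ℂ)) x = ((iteratedDeriv n q x : ℝ) : ℂ) := by
  induction n generalizing x with
  | zero => simp
  | succ n ih =>
    rw [iteratedDeriv_succ, iteratedDeriv_succ]
    have e : iteratedDeriv n (fun x => (q x : ℂ)) = fun x => ((iteratedDeriv n q x : ℝ) : ℂ) := by
      ext x; exact ih x
    rw [e]
    have h1 : DifferentiableAt ℝ (iteratedDeriv n q) x :=
      (hq.differentiable_iteratedDeriv n (by exact_mod_cast WithTop.coe_lt_top n)) x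
    exact h1.hasDerivAt.ofReal_comp.deriv

/-- there is a potential in a non-quasi-analytic class for which `P` does not span `F` -/
theorem not_spans_of_summable {m : ℕ → ℝ} (h : IsReg m)
    (hs : Summable fun k => fm m k / fm m (k + 1)) :
    ∃ q : ℝ → ℝ, IsPot q ∧ InClass m q ∧ ∀ lam, IsHillSpectrum q lam → ¬ PSpans ℂ lam := by
  have hpos : ∀ k, 0 < fm m k := fun k => h.fm_pos k
  set T := ∑' k, fm m k / fm m (k + 1) with hT
  have hT0 : 0 ≤ T := tsum_nonneg fun k => by have := hpos k; have := hpos (k + 1); positivity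
  set ρ' : ℝ := 1 / (4 * (1 + T)) with hρ'
  have hρ0 : 0 < ρ' := by positivity
  obtain ⟨q, h1, h2, h3, h4, h5, h6⟩ := exists_bump (a := fun k => ρ' * (fm m k / fm m (k + 1)))
    (fun k => by have := hpos k; have := hpos (k + 1); positivity) (hs.mul_left ρ') (by
      rw [tsum_mul_left, ← hT, hρ', div_mul_eq_mul_div, one_mul, div_le_div_iff₀ (by positivity) (by norm_num)]
      linarith)
  have hpot : IsPot q := ⟨h1, h2⟩
  refine ⟨q, hpot, ⟨1, 2 / ρ', fun n x => ?_⟩, fun lam hlam hspan => ?_⟩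
  · refine (h6 n x).trans (le_of_eq ?_)
    have e1 : ∀ k : ℕ, 2 / (ρ' * (fm m k / fm m (k + 1))) = (2 / ρ') * (fm m (k + 1) / fm m k) := by
      intro k
      have := (hpos k).ne'
      have := (hpos (k + 1)).ne'
      field_simp
    have e2 : fm m 0 = 1 := by unfold fm; rw [h.zero]; simp
    have e3 : ∀ n : ℕ, ∏ i ∈ Finset.range n, (fm m (i + 1) / fm m i) = fm m n := by
      intro n
      induction n with
      | zero => rw [Finset.prod_range_zero, e2]
      | succ n ih =>
        rw [Finset.prod_range_succ, ih]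
        have := (hpos n).ne'
        field_simp
    simp only [e1]
    rw [Finset.prod_mul_distrib, Finset.prod_const, Finset.card_range, e3, one_mul]
    rfl
  · have hd : ∀ j : ℕ, 1 ≤ j → iteratedDeriv j q (1 / 8) = 0 := by
      intro j hj
      have e : q =ᶠ[𝓝 (1 / 8 : ℝ)] fun _ => 0 := by
        filter_upwards [Ioo_mem_nhds (by norm_num : (0:ℝ) < 1 / 8) (by norm_num : (1 / 8 : ℝ) < 1 / 4)]
          with z hz
        exact h3 z ⟨hz.1.le, hz.2.le⟩
      rw [e.iteratedDeriv_eq j]
      simp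
    have h7 := min_flat hpot hlam hspan hd (by
      intro x
      rw [h3 (1 / 8) ⟨by norm_num, by norm_num⟩]
      exact h4 x) (5 / 8)
    rw [h3 (1 / 8) ⟨by norm_num, by norm_num⟩] at h7
    linarith

theorem dichotomy {m : ℕ → ℝ} (h : IsReg m) :
    (∀ q : ℝ → ℝ, IsPot q → InClass m q → ∀ lam, IsHillSpectrum q lam → PSpans ℂ lam) ↔
      ¬ Summable fun k => fm m k / fm m (k + 1) := by
  constructor
  · intro hall hs
    obtain ⟨q, hq, hcl, hn⟩ := not_spans_of_summable h hs
    obtain ⟨lam, hlam⟩ := exists_hillSpectrum hq.1.continuous hq.2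
    exact hn lam hlam (hall q hq hcl lam hlam)
  · intro hdiv q hq hcl lam hlam
    obtain ⟨A, ρ, hA⟩ := hcl
    refine spans_of_dc h hdiv (Q := |A|) (ρ := |ρ|) (abs_nonneg _) (abs_nonneg _) hq ?_ hlam
    intro i x
    rw [iteratedDeriv_ofReal hq.1, Complex.norm_real, Real.norm_eq_abs]
    refine (hA i x).trans ?_
    have h1 := h.fm_pos i
    have h2 : A * ρ ^ i ≤ |A| * |ρ| ^ i := by
      rw [← abs_pow, ← abs_mul]; exact le_abs_self _
    have h3 : (i.factorial : ℝ) * m i = fm m i := rfl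
    rw [h3]
    gcongr

end Run7.h374
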