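import Pool.Agent.Run7.h374.Obst2

/-! Isospectral potentials have the same discriminant. -/

set_option autoImplicit false

namespace Run7.h374

open Filter Topology Metric MeasureTheory
open scoped Interval ComplexConjugate ContDiff Classical

/-- same periodic and same antiperiodic spectrum (with multiplicities) -/
def Isospectral (p q : ℝ → ℝ) : Prop := ∀ μ : ℝ,
  Module.finrank ℂ (eigSpace p 1 μ) = Module.finrank ℂ (eigSpace q 1 μ) ∧
  Module.finrank ℂ (eigSpace p (-1) μ) = Module.finrank ℂ (eigSpace q (-1) μ)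

variable {p q : ℝ → ℝ} {lam : ℕ → ℝ}

lemma Isospectral.hill (h : Isospectral p q) (hlam : IsHillSpectrum q lam) :
    IsHillSpectrum p lam where
  mono := hlam.mono
  mult := fun μ => by rw [hlam.mult, (h μ).1, (h μ).2]

lemma Isospectral.shift (h : Isospectral p q) (x₀ : ℝ) :
    Isospectral (qh p lam x₀) (qh q lam x₀) := by
  intro μ
  have e : μ = (μ - (1 - lam 0)) + (1 - lam 0) := by ring
  obtain ⟨h1, h2⟩ := h (μ - (1 - lam 0))
  constructor
  · have a := (trlEquiv p 1 (μ - (1 - lam 0)) x₀ (1 - lam 0)).finrank_eq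
    have b := (trlEquiv q 1 (μ - (1 - lam 0)) x₀ (1 - lam 0)).finrank_eq
    rw [← e] at a b
    show Module.finrank ℂ (eigSpace (fun x => p (x + x₀) + (1 - lam 0)) 1 μ) =
      Module.finrank ℂ (eigSpace (fun x => q (x + x₀) + (1 - lam 0)) 1 μ)
    rw [← a, ← b, h1]
  · have a := (trlEquiv p (-1) (μ - (1 - lam 0)) x₀ (1 - lam 0)).finrank_eq
    have b := (trlEquiv q (-1) (μ - (1 - lam 0)) x₀ (1 - lam 0)).finrank_eq
    rw [← e] at a b
    show Module.finrank ℂ (eigSpace (fun x => p (x + x₀) + (1 - lam 0)) (-1) μ) =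
      Module.finrank ℂ (eigSpace (fun x => q (x + x₀) + (1 - lam 0)) (-1) μ)
    rw [← a, ← b, h2]

/-- the discriminants agree at the eigenvalues -/
lemma disc_agree {P Q : ℝ → ℝ} {mu : ℕ → ℝ} {K : ℝ} (hP : Continuous P) (hKP : ∀ x, |P x| ≤ K)
    (hQ : Continuous Q) (hKQ : ∀ x, |Q x| ≤ K) (hmu : IsHillSpectrum Q mu) (hiso : Isospectral P Q)
    (n : ℕ) {k : ℂ} (hk : k ^ 2 = (mu n : ℂ)) :
    fy1 P 1 k + fz2 P 1 k = fy1 Q 1 k + fz2 Q 1 k := by
  have h1 : (1 : ℕ∞) ≤ {j | mu j = mu n}.encard := by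
    rw [Set.one_le_encard_iff_nonempty]
    exact ⟨n, rfl⟩
  rw [hmu.mult] at h1
  have h2 : 1 ≤ Module.finrank ℂ (eigSpace Q 1 (mu n)) +
        Module.finrank ℂ (eigSpace Q (-1) (mu n)) := by exact_mod_cast h1
  by_cases h3 : 1 ≤ Module.finrank ℂ (eigSpace Q 1 (mu n))
  · rw [disc_of_finrank (σ := 1) hQ hKQ hk (by norm_num) h3,
      disc_of_finrank (σ := 1) hP hKP hk (by norm_num) (by rw [(hiso _).1]; exact h3)]
  · rw [disc_of_finrank (σ := -1) hQ hKQ hk (by norm_num) (by omega),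
      disc_of_finrank (σ := -1) hP hKP hk (by norm_num) (by rw [(hiso _).2]; omega)]

/-- isospectral potentials have the same discriminant (after normalisation) -/
theorem disc_eq (hp : IsPot p) (hq : IsPot q) (hlam : IsHillSpectrum q lam)
    (hiso : Isospectral p q) (x₀ : ℝ) (k : ℂ) :
    fy1 (qh p lam x₀) 1 k + fz2 (qh p lam x₀) 1 k =
      fy1 (qh q lam x₀) 1 k + fz2 (qh q lam x₀) 1 k := by
  set P := qh p lam x₀ with hPd
  set Q := qh q lam x₀ with hQd
  have hpotP : IsPot P := isPot_qh hp x₀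
  have hpotQ : IsPot Q := isPot_qh hq x₀
  have hcP := hpotP.1.continuous
  have hcQ := hpotQ.1.continuous
  obtain ⟨K1, hK1⟩ := exists_pot_bound hpotP
  obtain ⟨K2, hK2⟩ := exists_pot_bound hpotQ
  set K := max K1 K2 with hK
  have hKP : ∀ x, |P x| ≤ K := fun x => (hK1 x).trans (le_max_left _ _)
  have hKQ : ∀ x, |Q x| ≤ K := fun x => (hK2 x).trans (le_max_right _ _)
  have hK0 : 0 ≤ K := (abs_nonneg _).trans (hKP 0)
  set mu : ℕ → ℝ := fun n => lam n + (1 - lam 0) with hmu
  have hmus : IsHillSpectrum Q mu := hill_qh hlam x₀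
  have hisoh : Isospectral P Q := hiso.shift x₀
  have hmu0 : mu 0 = 1 := by simp only [hmu]; ring
  set R : ℂ → ℂ := fun k => (fy1 P 1 k + fz2 P 1 k) - (fy1 Q 1 k + fz2 Q 1 k) with hR
  have hRd : Differentiable ℂ R :=
    ((fy1_diff hcP hKP 1).add (fz2_diff hcP hKP 1)).sub ((fy1_diff hcQ hKQ 1).add (fz2_diff hcQ hKQ 1))
  have hReven : ∀ k, R (-k) = R k := by
    intro k
    obtain ⟨a1, a2, a3, a4⟩ := fund_congr hcP hKP (k := -k) (k' := k) (by ring) 1
    obtain ⟨b1, b2, b3, b4⟩ := fund_congr hcQ hKQ (k := -k) (k' := k) (by ring) 1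
    simp only [hR]
    rw [a1, a4, b1, b4]
  have hRz : ∀ n : ℕ, R (Real.sqrt (mu n)) = 0 := by
    intro n
    simp only [hR]
    rw [disc_agree hcP hKP hcQ hKQ hmus hisoh n (k := ((Real.sqrt (mu n) : ℝ) : ℂ)) (by
      have : 1 ≤ mu n := by
        have := hmus.mono (Nat.zero_le n)
        linarith
      rw [← Complex.ofReal_pow, Real.sq_sqrt (by linarith)])]
    ring
  set A := 2 * (Real.exp (1 + K) + (1 + K * Real.exp (1 + K))) with hA
  have hA0 : 0 ≤ A := by positivity
  have hRb : ∀ k, ‖R k‖ ≤ A * Real.exp |k.im| := by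
    intro k
    have a1 := fy1_one_bound hKP k
    have a2 := fz2_growth hcP hKP k
    have b1 := fy1_one_bound hKQ k
    have b2 := fz2_growth hcQ hKQ k
    have n1 := norm_sub_le (fy1 P 1 k + fz2 P 1 k) (fy1 Q 1 k + fz2 Q 1 k)
    have n2 := norm_add_le (fy1 P 1 k) (fz2 P 1 k)
    have n3 := norm_add_le (fy1 Q 1 k) (fz2 Q 1 k)
    simp only [hR]
    have e : A * Real.exp |k.im| = 2 * (Real.exp (1 + K) * Real.exp |k.im| +
      (1 + K * Real.exp (1 + K)) * Real.exp |k.im|) := by rw [hA]; ring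
    rw [e]
    linarith
  -- divide by `k² - 1`
  have hgd : Differentiable ℂ (fun k : ℂ => k ^ 2 - 1) := by fun_prop
  have hder : ∀ z : ℂ, deriv (fun k : ℂ => k ^ 2 - 1) z = 2 * z := by
    intro z
    have : HasDerivAt (fun k : ℂ => k ^ 2 - 1) (((2:ℕ):ℂ) * z ^ (2 - 1)) z :=
      (hasDerivAt_pow 2 z).sub_const 1
    rw [this.deriv]; norm_num
  obtain ⟨G0, hG0d, hG0⟩ := exists_quot hRd hgd (by
    intro z hz
    have hz2 : z ^ 2 = 1 := by linear_combination hz
    have h0 := hRz 0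
    rw [hmu0, Real.sqrt_one, Complex.ofReal_one] at h0
    have hz3 : (z - 1) * (z + 1) = 0 := by linear_combination hz
    rcases mul_eq_zero.1 hz3 with h | h
    · have : z = 1 := by linear_combination h
      rw [this]
      exact ⟨h0, by rw [hder]; norm_num⟩
    · have : z = -1 := by linear_combination h
      rw [this]
      refine ⟨by rw [hReven]; exact h0, by rw [hder]; norm_num⟩)
  set G : ℂ → ℂ := fun k => (G0 k + G0 (-k)) / 2 with hG
  have hGd : Differentiable ℂ G := (hG0d.add (hG0d.comp differentiable_neg)).div_const 2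
  have hGeven : ∀ k, G (-k) = G k := by
    intro k; simp only [hG, neg_neg]; ring
  have hGR : ∀ k, R k = G k * (k ^ 2 - 1) := by
    intro k
    have h1 := hG0 k
    have h2 := hG0 (-k)
    rw [hReven] at h2
    simp only [hG]
    linear_combination (1 / 2 : ℂ) * h1 + (1 / 2 : ℂ) * h2
  obtain ⟨C', hC'⟩ := (isCompact_closedBall (0:ℂ) 2).exists_bound_of_continuousOn
    hGd.continuous.continuousOn
  have hC'0 : 0 ≤ C' := (norm_nonneg _).trans (hC' 0 (by simp))
  have hGgrow : ∀ k, ‖G k‖ ≤ (A + C') * (1 + ‖k‖) ^ 0 * Real.exp |k.im| := by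
    intro k
    rw [pow_zero, mul_one]
    have hX : 1 ≤ Real.exp |k.im| := Real.one_le_exp (abs_nonneg _)
    rcases le_total ‖k‖ 2 with h | h
    · have := hC' k (by rw [mem_closedBall_zero_iff]; exact h)
      nlinarith
    · have h1 : 1 ≤ ‖k ^ 2 - 1‖ := by
        have := norm_sub_norm_le (k ^ 2) 1
        rw [norm_one, norm_pow] at this
        nlinarith
      have h2 := hRb k
      rw [hGR, norm_mul] at h2
      have h3 : ‖G k‖ ≤ ‖G k‖ * ‖k ^ 2 - 1‖ := by
        have := norm_nonneg (G k)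
        nlinarith
      have h4 : 0 ≤ C' * Real.exp |k.im| := by positivity
      nlinarith
  have hGdec : ∀ y : ℝ, 1 ≤ y → ‖G (y * Complex.I)‖ * y ^ 2 ≤ A * Real.exp y := by
    intro y hy
    have h2 := hRb (y * Complex.I)
    have him : |((y : ℂ) * Complex.I).im| = y := by
      simp [abs_of_nonneg (by linarith : (0:ℝ) ≤ y)]
    rw [hGR, norm_mul, him] at h2
    refine le_trans ?_ h2
    apply mul_le_mul_of_nonneg_left _ (norm_nonneg _)
    have e : ((y : ℂ) * Complex.I) ^ 2 - 1 = ((-(y ^ 2 + 1) : ℝ) : ℂ) := by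
      rw [mul_pow, Complex.I_sq]; push_cast; ring
    rw [e, Complex.norm_real, norm_neg, Real.norm_of_nonneg (by positivity)]
    linarith
  have ht : ∀ n, 0 < tn lam n := fun n => lt_of_lt_of_le one_pos (tn_ge hlam n)
  have hmono := tn_strictMono hq hlam
  have hs := tn_summable hq hlam
  obtain ⟨M, hM1, hM⟩ := tn_dist hq hlam
  have htn : ∀ n, tn lam n = mu (2 * (n + 1)) := fun n => rfl
  have hGz : ∀ n, G (Real.sqrt (tn lam n) : ℂ) = 0 := by
    intro n
    have h1 := hRz (2 * (n + 1))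
    rw [← htn, hGR] at h1
    rcases mul_eq_zero.1 h1 with h | h
    · exact h
    · exfalso
      rw [← Complex.ofReal_pow, Real.sq_sqrt (ht n).le] at h
      have h2 : tn lam n = 1 := by
        have : ((tn lam n : ℝ) : ℂ) = ((1 : ℝ) : ℂ) := by push_cast; linear_combination h
        exact_mod_cast this
      have h3 := no_triple hcQ hKQ hmus 0
      have h4 := hmus.mono (show 0 + 2 ≤ 2 * (n + 1) by omega)
      rw [← htn, h2] at h4
      rw [hmu0] at h3
      linarith
  have hRL := interpolation ht hmono.injective hs hM1 hM hGd hGeven (by positivity) hGgrow hGdec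
    (a := fun _ => 0) (fun n => by rw [hGz n]; ring) (by simp)
  have hG0' : G k = 0 := by
    rw [hRL k]
    unfold LL
    simp
  have : R k = 0 := by rw [hGR, hG0', zero_mul]
  simp only [hR] at this
  linear_combination this

end Run7.h374
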