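import Pool.Agent.Run7.h374.Op

/-! Existence of a Hilbert basis of eigenvectors of `D + Q`. -/

set_option autoImplicit false
set_option linter.unusedSectionVars false

namespace Run7.h374

open Filter Topology
open scoped ComplexConjugate Classical

variable {H : Type*} [NormedAddCommGroup H] [InnerProductSpace ℂ H] [CompleteSpace H]
variable {ι : Type*}

/-- the rank one projection -/
noncomputable def rk (v : H) : H →L[ℂ] H := (innerSL ℂ v).smulRight v

lemma rk_apply (v g : H) : rk v g = (inner ℂ v g : ℂ) • v := rfl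

lemma norm_rk_le {v : H} (hv : ‖v‖ = 1) : ‖rk v‖ ≤ 1 := by
  apply ContinuousLinearMap.opNorm_le_bound _ zero_le_one
  intro g
  rw [rk_apply, norm_smul, hv, mul_one, one_mul]
  have := norm_inner_le_norm (𝕜 := ℂ) v g
  rwa [hv, one_mul] at this

lemma compact_rk (v : H) : IsCompactOperator (rk v : H →L[ℂ] H) := by
  have h1 : IsCompactOperator (innerSL ℂ v : H →L[ℂ] ℂ) :=
    isCompactOperator_of_locallyCompactSpace_dom _
  exact h1.clm_comp (ContinuousLinearMap.toSpanSingleton ℂ v)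

section resolvent

variable (b : HilbertBasis ι ℂ H) (d : ι → ℝ) (c : ℝ)

/-- the inverse of `D + c` -/
noncomputable def TT : H →L[ℂ] H := ∑' k, (((d k + c)⁻¹ : ℝ) : ℂ) • rk (b k)

variable {b d c}

lemma summable_TT (hpos : ∀ k, 0 < d k + c) (hsum : Summable fun k => (d k + c)⁻¹) :
    Summable fun k => (((d k + c)⁻¹ : ℝ) : ℂ) • rk (b k) := by
  apply Summable.of_norm_bounded hsum
  intro k
  rw [norm_smul, Complex.norm_real, Real.norm_of_nonneg (inv_pos.2 (hpos k)).le]
  have h1 := norm_rk_le (b.orthonormal.1 k)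
  have h2 := inv_pos.2 (hpos k)
  nlinarith

lemma norm_TT_le (hpos : ∀ k, 0 < d k + c) (hsum : Summable fun k => (d k + c)⁻¹) :
    ‖TT b d c‖ ≤ ∑' k, (d k + c)⁻¹ := by
  apply tsum_of_norm_bounded hsum.hasSum
  intro k
  rw [norm_smul, Complex.norm_real, Real.norm_of_nonneg (inv_pos.2 (hpos k)).le]
  have h1 := norm_rk_le (b.orthonormal.1 k)
  have h2 := inv_pos.2 (hpos k)
  nlinarith

lemma compact_TT (hpos : ∀ k, 0 < d k + c) (hsum : Summable fun k => (d k + c)⁻¹) :
    IsCompactOperator (TT b d c) := by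
  have h1 : HasSum (fun k => (((d k + c)⁻¹ : ℝ) : ℂ) • rk (b k)) (TT b d c) :=
    (summable_TT hpos hsum).hasSum
  refine isCompactOperator_of_tendsto (l := atTop)
    (F := fun s : Finset ι => ∑ k ∈ s, (((d k + c)⁻¹ : ℝ) : ℂ) • rk (b k)) h1 ?_
  refine Eventually.of_forall fun s => ?_
  have : ∑ k ∈ s, (((d k + c)⁻¹ : ℝ) : ℂ) • rk (b k) ∈ compactOperator (RingHom.id ℂ) H H := by
    apply Submodule.sum_mem
    intro k _
    apply Submodule.smul_mem
    exact compact_rk (b k)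
  exact this

lemma inner_TT (hpos : ∀ k, 0 < d k + c) (hsum : Summable fun k => (d k + c)⁻¹) (g : H) (j : ι) :
    (inner ℂ (b j) (TT b d c g) : ℂ) = (((d j + c)⁻¹ : ℝ) : ℂ) * inner ℂ (b j) g := by
  have h1 : HasSum (fun k => (((d k + c)⁻¹ : ℝ) : ℂ) • rk (b k)) (TT b d c) :=
    (summable_TT hpos hsum).hasSum
  have h2 := h1.mapL ((innerSL ℂ (b j)).comp (ContinuousLinearMap.apply ℂ H g))
  have h3 : (fun k => ((innerSL ℂ (b j)).comp (ContinuousLinearMap.apply ℂ H g))
      ((((d k + c)⁻¹ : ℝ) : ℂ) • rk (b k))) =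
      fun k => if k = j then (((d j + c)⁻¹ : ℝ) : ℂ) * inner ℂ (b j) g else 0 := by
    ext k
    have e1 : ((innerSL ℂ (b j)).comp (ContinuousLinearMap.apply ℂ H g))
      ((((d k + c)⁻¹ : ℝ) : ℂ) • rk (b k)) =
        inner ℂ (b j) ((((d k + c)⁻¹ : ℝ) : ℂ) • ((inner ℂ (b k) g : ℂ) • b k)) := rfl
    rw [e1, inner_smul_right, inner_smul_right, orthonormal_iff_ite.1 b.orthonormal]
    by_cases h : j = k
    · subst h; simp
    · rw [if_neg h, if_neg (Ne.symm h)]; ring
  rw [h3] at h2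
  have h4 := (hasSum_ite_eq j ((((d j + c)⁻¹ : ℝ) : ℂ) * inner ℂ (b j) g)).unique h2
  rw [h4]
  rfl

lemma isD_TT (hpos : ∀ k, 0 < d k + c) (hsum : Summable fun k => (d k + c)⁻¹) (g : H) :
    IsD b d (TT b d c g) (g - (c : ℂ) • TT b d c g) := by
  intro k
  rw [inner_sub_right, inner_smul_right, inner_TT hpos hsum]
  have h1 : ((d k + c : ℝ) : ℂ) ≠ 0 := by exact_mod_cast (hpos k).ne'
  push_cast at h1 ⊢
  field_simp
  ring

end resolvent

/-- Existence of a Hilbert basis of eigenvectors. -/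
theorem exists_eigenbasis (b : HilbertBasis ι ℂ H) (d : ι → ℝ) (Q : H →L[ℂ] H) (hQ : Sym Q)
    {c : ℝ} (hpos : ∀ k, 0 < d k + c) (hsum : Summable fun k => (d k + c)⁻¹)
    (hsmall : (∑' k, (d k + c)⁻¹) * ‖Q‖ < 1) :
    ∃ (J : Type) (φ : HilbertBasis J ℂ H) (ν : J → ℝ), Rel b d Q φ ν := by
  set T := TT b d c with hT
  have hTQ : ‖-(T * Q)‖ < 1 := by
    rw [norm_neg]
    refine (norm_mul_le _ _).trans_lt (lt_of_le_of_lt ?_ hsmall)
    have := norm_TT_le (b := b) hpos hsum
    gcongr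
  set U := Units.oneSub (-(T * Q)) hTQ with hU
  have hUval : (U : H →L[ℂ] H) = 1 + T * Q := by rw [hU, Units.val_oneSub, sub_neg_eq_add]
  set R : H →L[ℂ] H := (↑U⁻¹ : H →L[ℂ] H) * T with hR
  have hUR : ∀ g, R g + T (Q (R g)) = T g := by
    intro g
    have h1 : (U : H →L[ℂ] H) * R = T := by
      rw [hR, ← mul_assoc, Units.mul_inv, one_mul]
    have h2 : ((U : H →L[ℂ] H) * R) g = T g := by rw [h1]
    rw [hUval] at h2
    have h3 : ((1 + T * Q) * R) g = R g + T (Q (R g)) := by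
      simp [add_mul]
    rw [h3] at h2
    exact h2
  -- f = R g solves (D + Q + c) f = g
  have hRD : ∀ g, IsD b d (R g) (g - Q (R g) - (c : ℂ) • R g) := by
    intro g
    have h1 : R g = T (g - Q (R g)) := by
      rw [map_sub, ← hUR g]; abel
    have h2 := isD_TT (b := b) hpos hsum (g - Q (R g))
    rw [← hT, ← h1] at h2
    exact h2
  have hRsymm : (R : H →L[ℂ] H).IsSymmetric := by
    intro g g'
    have h1 := (hRD g).symm_inner (hRD g')
    have h2 := hQ (R g) (R g')
    simp only [inner_sub_left, inner_sub_right, inner_smul_left, inner_smul_right,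
      Complex.conj_ofReal] at h1
    rw [h2] at h1
    have h3 : inner ℂ g (R g') = inner ℂ (R g) g' := by linear_combination h1
    exact h3.symm
  have hRinj : ∀ g, R g = 0 → g = 0 := by
    intro g hg
    have h1 := hRD g
    rw [hg, map_zero, smul_zero, sub_zero, sub_zero] at h1
    apply ext_inner_basis (b := b)
    intro k
    rw [h1 k]; simp
  have hRcomp : IsCompactOperator R := by
    have h1 : IsCompactOperator (TT b d c) := compact_TT hpos hsum
    exact h1.clm_comp (↑U⁻¹ : H →L[ℂ] H)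
  -- eigenspaces
  have hfin : ∀ ρ : ℂ, ρ ≠ 0 → FiniteDimensional ℂ (Module.End.eigenspace R.toLinearMap ρ) :=
    fun ρ hρ => ContinuousLinearMap.finite_dimensional_eigenspace hRcomp ρ hρ
  have hzero : Module.End.eigenspace R.toLinearMap (0 : ℂ) = ⊥ := by
    rw [Submodule.eq_bot_iff]
    intro x hx
    rw [Module.End.mem_eigenspace_iff] at hx
    apply hRinj
    simpa using hx
  have hfin' : ∀ ρ : ℂ, FiniteDimensional ℂ (Module.End.eigenspace R.toLinearMap ρ) := by
    intro ρ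
    by_cases hρ : ρ = 0
    · rw [hρ, hzero]; infer_instance
    · exact hfin ρ hρ
  have hOF := hRsymm.orthogonalFamily_eigenspaces
  let α : ℂ → Type := fun ρ => Fin (Module.finrank ℂ (Module.End.eigenspace R.toLinearMap ρ))
  let vf : ∀ ρ : ℂ, OrthonormalBasis (α ρ) ℂ (Module.End.eigenspace R.toLinearMap ρ) :=
    fun ρ => stdOrthonormalBasis ℂ _
  have hon : Orthonormal ℂ fun a : Σ ρ, α ρ =>
      ((vf a.1 a.2 : Module.End.eigenspace R.toLinearMap a.1) : H) :=
    hOF.orthonormal_sigma_orthonormal (v_family := fun ρ i => vf ρ i) fun ρ => (vf ρ).orthonormal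
  have hspan : (Submodule.span ℂ (Set.range fun a : Σ ρ, α ρ =>
      ((vf a.1 a.2 : Module.End.eigenspace R.toLinearMap a.1) : H)))ᗮ = ⊥ := by
    rw [eq_bot_iff, ← ContinuousLinearMap.orthogonalComplement_iSup_eigenspaces_eq_bot hRcomp hRsymm]
    apply Submodule.orthogonal_le
    apply iSup_le
    intro ρ x hx
    have h1 := (vf ρ).sum_repr ⟨x, hx⟩
    have h2 : x = ((∑ i, ((vf ρ).repr ⟨x, hx⟩).ofLp i • (vf ρ) i :
        Module.End.eigenspace R.toLinearMap ρ) : H) := by rw [h1]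
    rw [h2, Submodule.coe_sum]
    apply Submodule.sum_mem
    intro i _
    apply Submodule.smul_mem
    exact Submodule.subset_span ⟨⟨ρ, i⟩, rfl⟩
  refine ⟨Σ ρ, α ρ, HilbertBasis.mkOfOrthogonalEqBot hon hspan, fun a => (a.1⁻¹).re - c, ?_⟩
  rintro ⟨ρ, i⟩
  rw [HilbertBasis.coe_mkOfOrthogonalEqBot]
  simp only
  set x : H := ((vf ρ i : Module.End.eigenspace R.toLinearMap ρ) : H) with hx
  have hxeig : R x = ρ • x := by
    have := (vf ρ i).2
    rwa [Module.End.mem_eigenspace_iff] at this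
  have hx0 : x ≠ 0 := by
    have := hon.ne_zero ⟨ρ, i⟩
    exact this
  have hρ0 : ρ ≠ 0 := by
    intro h
    rw [h, zero_smul] at hxeig
    exact hx0 (hRinj x hxeig)
  have hρr : conj ρ = ρ := by
    apply hRsymm.conj_eigenvalue_eq_self
    apply Module.End.hasEigenvalue_of_hasEigenvector (x := x)
    exact ⟨by rw [Module.End.mem_eigenspace_iff]; exact hxeig, hx0⟩
  have hρre : (((ρ⁻¹).re : ℝ) : ℂ) = ρ⁻¹ := by
    apply Complex.ext
    · simp
    · have h1 : conj (ρ⁻¹) = ρ⁻¹ := by rw [map_inv₀, hρr]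
      have h2 := congrArg Complex.im h1
      simp only [Complex.conj_im] at h2
      simp only [Complex.ofReal_im]
      linarith
  have h1 := (hRD x).smul ρ⁻¹
  rw [hxeig, smul_smul, inv_mul_cancel₀ hρ0, one_smul] at h1
  have h2 : ρ⁻¹ • (x - Q (ρ • x) - (c : ℂ) • ρ • x) =
      ((((ρ⁻¹).re - c : ℝ) : ℂ)) • x - Q x := by
    rw [Complex.ofReal_sub, hρre, map_smul, smul_sub, smul_sub, smul_smul ρ⁻¹ ρ, inv_mul_cancel₀ hρ0,
      one_smul, smul_smul (c : ℂ) ρ, smul_smul ρ⁻¹, mul_comm (c : ℂ) ρ, ← mul_assoc,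
      inv_mul_cancel₀ hρ0, one_mul, sub_smul]
    abel
  rw [h2] at h1
  exact h1

end Run7.h374
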