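import Mathlib

/-! Extreme annihilators of the polynomials in a weighted `ℓ¹` space. -/

set_option autoImplicit false

namespace Run7.h374

open Filter Topology Metric
open scoped Classical

variable {κ : Type*} {t W : κ → ℝ}

/-- the unit ball of the annihilators of the polynomials in the weighted `ℓ¹` space -/
def ballK (t W : κ → ℝ) : Set (κ → ℝ) :=
  {a | (∀ F : Finset κ, ∑ i ∈ F, |a i| * W i ≤ 1) ∧ ∀ k : ℕ, ∑' i, a i * t i ^ k = 0}

/-- the unit ball -/
def ballK1 (W : κ → ℝ) : Set (κ → ℝ) :=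
  {a | ∀ F : Finset κ, ∑ i ∈ F, |a i| * W i ≤ 1}

lemma ballK1_abs (hW : ∀ i, 0 < W i) {a : κ → ℝ} (ha : a ∈ ballK1 W) (i : κ) :
    |a i| ≤ (W i)⁻¹ := by
  have h := ha {i}
  rw [Finset.sum_singleton] at h
  rw [← one_div, le_div_iff₀ (hW i)]
  exact h

lemma ballK1_summable (hW : ∀ i, 0 < W i) {a : κ → ℝ} (ha : a ∈ ballK1 W) :
    Summable fun i => |a i| * W i :=
  summable_of_sum_le (fun i => mul_nonneg (abs_nonneg _) (hW i).le) ha

lemma ballK1_summable_pow (ht : ∀ i, 0 < t i) (hW : ∀ i, 0 < W i)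
    (hsum : ∀ k : ℕ, Summable fun i => t i ^ k * (W i)⁻¹) {a : κ → ℝ} (ha : a ∈ ballK1 W) (k : ℕ) :
    Summable fun i => a i * t i ^ k := by
  apply Summable.of_norm_bounded (hsum k)
  intro i
  rw [norm_mul, Real.norm_eq_abs, norm_pow, Real.norm_eq_abs, abs_of_pos (ht i), mul_comm]
  have := ballK1_abs hW ha i
  have := ht i
  gcongr

lemma isClosed_ballK1 : IsClosed (ballK1 W) := by
  have : ballK1 W = ⋂ F : Finset κ, {a : κ → ℝ | ∑ i ∈ F, |a i| * W i ≤ 1} := by
    ext a; simp [ballK1]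
  rw [this]
  apply isClosed_iInter
  intro F
  apply isClosed_le
  · fun_prop
  · fun_prop

lemma isClosed_ballK (ht : ∀ i, 0 < t i) (hW : ∀ i, 0 < W i)
    (hsum : ∀ k : ℕ, Summable fun i => t i ^ k * (W i)⁻¹) : IsClosed (ballK t W) := by
  have : ballK t W = ⋂ k : ℕ, (ballK1 W ∩ (fun a => ∑' i, a i * t i ^ k) ⁻¹' {0}) := by
    ext a
    simp only [ballK, ballK1, Set.mem_iInter, Set.mem_inter_iff, Set.mem_preimage,
      Set.mem_singleton_iff]
    constructor
    · rintro ⟨h1, h2⟩ k; exact ⟨h1, h2 k⟩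
    · intro h; exact ⟨(h 0).1, fun k => (h k).2⟩
  rw [this]
  apply isClosed_iInter
  intro k
  apply ContinuousOn.preimage_isClosed_of_isClosed _ isClosed_ballK1 isClosed_singleton
  apply continuousOn_tsum (u := fun i => t i ^ k * (W i)⁻¹)
  · intro i; fun_prop
  · exact hsum k
  · intro i a ha
    rw [norm_mul, Real.norm_eq_abs, norm_pow, Real.norm_eq_abs, abs_of_pos (ht i), mul_comm]
    have := ballK1_abs hW ha i
    have := ht i
    gcongr

lemma isCompact_ballK (ht : ∀ i, 0 < t i) (hW : ∀ i, 0 < W i)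
    (hsum : ∀ k : ℕ, Summable fun i => t i ^ k * (W i)⁻¹) : IsCompact (ballK t W) := by
  have h1 : IsCompact (Set.pi Set.univ fun i : κ => Set.Icc (-(W i)⁻¹) ((W i)⁻¹)) :=
    isCompact_univ_pi fun i => isCompact_Icc
  apply h1.of_isClosed_subset (isClosed_ballK ht hW hsum)
  intro a ha i _
  have h2 : a ∈ ballK1 W := ha.1
  exact abs_le.1 (ballK1_abs hW h2 i)

lemma convex_ballK (ht : ∀ i, 0 < t i) (hW : ∀ i, 0 < W i)
    (hsum : ∀ k : ℕ, Summable fun i => t i ^ k * (W i)⁻¹) : Convex ℝ (ballK t W) := by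
  intro a ha b hb x y hx hy hxy
  refine ⟨fun F => ?_, fun k => ?_⟩
  · calc ∑ i ∈ F, |(x • a + y • b) i| * W i ≤ ∑ i ∈ F, (x * (|a i| * W i) + y * (|b i| * W i)) := by
          apply Finset.sum_le_sum
          intro i _
          have h1 : |(x • a + y • b) i| ≤ x * |a i| + y * |b i| := by
            simp only [Pi.add_apply, Pi.smul_apply, smul_eq_mul]
            refine (abs_add_le _ _).trans ?_
            rw [abs_mul, abs_mul, abs_of_nonneg hx, abs_of_nonneg hy]
          have := hW i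
          nlinarith
      _ = x * ∑ i ∈ F, |a i| * W i + y * ∑ i ∈ F, |b i| * W i := by
          rw [Finset.sum_add_distrib, Finset.mul_sum, Finset.mul_sum]
      _ ≤ x * 1 + y * 1 := by
          have := ha.1 F
          have := hb.1 F
          gcongr
      _ = 1 := by linarith
  · have h1 := ballK1_summable_pow ht hW hsum ha.1 k
    have h2 := ballK1_summable_pow ht hW hsum hb.1 k
    calc ∑' i, (x • a + y • b) i * t i ^ k = ∑' i, (x * (a i * t i ^ k) + y * (b i * t i ^ k)) := by
          congr 1; ext i; simp; ring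
      _ = x * ∑' i, a i * t i ^ k + y * ∑' i, b i * t i ^ k := by
          rw [(h1.mul_left x).tsum_add (h2.mul_left y), tsum_mul_left, tsum_mul_left]
      _ = 0 := by rw [ha.2 k, hb.2 k]; ring

/-- existence of an extreme annihilator -/
theorem exists_extreme (ht : ∀ i, 0 < t i) (hW : ∀ i, 0 < W i)
    (hsum : ∀ k : ℕ, Summable fun i => t i ^ k * (W i)⁻¹) {a : κ → ℝ} (ha0 : a ≠ 0)
    (haW : Summable fun i => |a i| * W i) (hann : ∀ k : ℕ, ∑' i, a i * t i ^ k = 0) :
    ∃ b : κ → ℝ, b ≠ 0 ∧ (Summable fun i => |b i| * W i) ∧ (∀ k : ℕ, ∑' i, b i * t i ^ k = 0) ∧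
      ∀ h : κ → ℝ, (∃ B, ∀ i, |h i| ≤ B) → (∀ k : ℕ, ∑' i, (h i * b i) * t i ^ k = 0) →
        ∃ c, ∀ i, b i ≠ 0 → h i = c := by
  have hKM := closure_convexHull_extremePoints (isCompact_ballK ht hW hsum)
    (convex_ballK ht hW hsum)
  -- a nonzero element of K
  have hne : ∃ x ∈ ballK t W, x ≠ 0 := by
    obtain ⟨i0, hi0⟩ := Function.ne_iff.1 ha0
    have hs : 0 < ∑' i, |a i| * W i := by
      apply haW.tsum_pos (fun i => mul_nonneg (abs_nonneg _) (hW i).le) i0
      have : 0 < |a i0| := abs_pos.2 hi0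
      have := hW i0
      positivity
    set s := ∑' i, |a i| * W i with hsdef
    refine ⟨s⁻¹ • a, ⟨fun F => ?_, fun k => ?_⟩, ?_⟩
    · calc ∑ i ∈ F, |(s⁻¹ • a) i| * W i = s⁻¹ * ∑ i ∈ F, |a i| * W i := by
            rw [Finset.mul_sum]
            apply Finset.sum_congr rfl
            intro i _
            rw [Pi.smul_apply, smul_eq_mul, abs_mul, abs_of_pos (inv_pos.2 hs), mul_assoc]
        _ ≤ s⁻¹ * s := by
            have := haW.sum_le_tsum F (fun i _ => mul_nonneg (abs_nonneg _) (hW i).le)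
            gcongr
        _ = 1 := inv_mul_cancel₀ hs.ne'
    · calc ∑' i, (s⁻¹ • a) i * t i ^ k = ∑' i, s⁻¹ * (a i * t i ^ k) := by
            congr 1; ext i; simp; ring
        _ = 0 := by rw [tsum_mul_left, hann k, mul_zero]
    · exact smul_ne_zero (inv_pos.2 hs).ne' ha0
  -- a nonzero extreme point
  have hext : ∃ b ∈ (ballK t W).extremePoints ℝ, b ≠ 0 := by
    by_contra hcon
    push Not at hcon
    obtain ⟨x, hx, hx0⟩ := hne
    have h1 : (ballK t W).extremePoints ℝ ⊆ {0} := fun b hb => by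
      simpa using hcon b hb
    have h2 : closure (convexHull ℝ ((ballK t W).extremePoints ℝ)) ⊆ {0} := by
      apply closure_minimal _ isClosed_singleton
      exact convexHull_min h1 (convex_singleton 0)
    rw [hKM] at h2
    exact hx0 (by simpa using h2 hx)
  obtain ⟨b, hb, hb0⟩ := hext
  rw [mem_extremePoints] at hb
  obtain ⟨hbK, hbext⟩ := hb
  have hbs := ballK1_summable hW hbK.1
  obtain ⟨i0, hi0⟩ := Function.ne_iff.1 hb0
  have hspos : 0 < ∑' i, |b i| * W i := by
    apply hbs.tsum_pos (fun i => mul_nonneg (abs_nonneg _) (hW i).le) i0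
    have : 0 < |b i0| := abs_pos.2 hi0
    have := hW i0
    positivity
  have hsle : ∑' i, |b i| * W i ≤ 1 := hbs.tsum_le_of_sum_le hbK.1
  have hs1 : ∑' i, |b i| * W i = 1 := by
    by_contra hlt
    have hlt' : ∑' i, |b i| * W i < 1 := lt_of_le_of_ne hsle hlt
    set s := ∑' i, |b i| * W i with hsdef
    have hxK : s⁻¹ • b ∈ ballK t W := by
      refine ⟨fun F => ?_, fun k => ?_⟩
      · calc ∑ i ∈ F, |(s⁻¹ • b) i| * W i = s⁻¹ * ∑ i ∈ F, |b i| * W i := by
              rw [Finset.mul_sum]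
              apply Finset.sum_congr rfl
              intro i _
              rw [Pi.smul_apply, smul_eq_mul, abs_mul, abs_of_pos (inv_pos.2 hspos), mul_assoc]
          _ ≤ s⁻¹ * s := by
              have := hbs.sum_le_tsum F (fun i _ => mul_nonneg (abs_nonneg _) (hW i).le)
              gcongr
          _ = 1 := inv_mul_cancel₀ hspos.ne'
      · calc ∑' i, (s⁻¹ • b) i * t i ^ k = ∑' i, s⁻¹ * (b i * t i ^ k) := by
              congr 1; ext i; simp; ring
          _ = 0 := by rw [tsum_mul_left, hbK.2 k, mul_zero]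
    have h0K : (0 : κ → ℝ) ∈ ballK t W := by
      refine ⟨fun F => ?_, fun k => ?_⟩
      · simp
      · simp
    have h3 := hbext _ hxK _ h0K ⟨s, 1 - s, hspos, by linarith, by ring, by
      rw [smul_smul, mul_inv_cancel₀ hspos.ne', one_smul, smul_zero, add_zero]⟩
    exact hb0 h3.2.symm
  refine ⟨b, hb0, hbs, hbK.2, ?_⟩
  intro h ⟨B, hB⟩ hhann
  -- rescale h
  have hBnn : 0 ≤ B := (abs_nonneg _).trans (hB i0)
  set δ := (2 * (B + 1))⁻¹ with hδ
  have hδpos : 0 < δ := by positivity
  set g : κ → ℝ := fun i => δ * h i with hg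
  have hg2 : ∀ i, |g i| ≤ 1 / 2 := by
    intro i
    rw [hg]
    simp only
    rw [abs_mul, abs_of_pos hδpos, hδ, inv_mul_le_iff₀ (by positivity)]
    have := hB i
    linarith
  have hgann : ∀ k : ℕ, ∑' i, (g i * b i) * t i ^ k = 0 := by
    intro k
    have : (fun i => (g i * b i) * t i ^ k) = fun i => δ * ((h i * b i) * t i ^ k) := by
      ext i; rw [hg]; ring
    rw [this, tsum_mul_left, hhann k, mul_zero]
  have hgs : Summable fun i => |b i| * W i * g i := by
    apply Summable.of_norm_bounded hbs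
    intro i
    rw [norm_mul, Real.norm_eq_abs, Real.norm_eq_abs,
      abs_of_nonneg (mul_nonneg (abs_nonneg _) (hW i).le)]
    have := hg2 i
    have h4 : 0 ≤ |b i| * W i := mul_nonneg (abs_nonneg _) (hW i).le
    nlinarith
  set c := ∑' i, |b i| * W i * g i with hc
  have hcabs : |c| ≤ 1 / 2 := by
    have h5 : ∀ i, |b i| * W i * g i ≤ (1/2) * (|b i| * W i) := by
      intro i
      have := (abs_le.1 (hg2 i)).2
      have h4 : 0 ≤ |b i| * W i := mul_nonneg (abs_nonneg _) (hW i).le
      nlinarith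
    have h6 : ∀ i, -((1/2) * (|b i| * W i)) ≤ |b i| * W i * g i := by
      intro i
      have := (abs_le.1 (hg2 i)).1
      have h4 : 0 ≤ |b i| * W i := mul_nonneg (abs_nonneg _) (hW i).le
      nlinarith
    rw [abs_le]
    constructor
    · have := (hbs.mul_left (1/2)).neg.tsum_le_tsum h6 hgs
      rw [tsum_neg, tsum_mul_left, hs1] at this
      rw [hc]; linarith
    · have := hgs.tsum_le_tsum h5 (hbs.mul_left (1/2))
      rw [tsum_mul_left, hs1] at this
      rw [hc]; linarith
  have hc1 := abs_le.1 hcabs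
  have key : ∀ σ : ℝ, |σ| = 1 → (1 + σ * c)⁻¹ • (fun i => (1 + σ * g i) * b i) ∈ ballK t W := by
    intro σ hσ
    have hσ1 : σ * c ≥ - (1/2) := by
      have : |σ * c| ≤ 1/2 := by rw [abs_mul, hσ, one_mul]; exact hcabs
      linarith [(abs_le.1 this).1]
    have hpos : 0 < 1 + σ * c := by linarith
    have hgpos : ∀ i, 0 < 1 + σ * g i := by
      intro i
      have : |σ * g i| ≤ 1/2 := by rw [abs_mul, hσ, one_mul]; exact hg2 i
      linarith [(abs_le.1 this).1]
    have hs2 : HasSum (fun i => |b i| * W i + σ * (|b i| * W i * g i)) (1 + σ * c) := by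
      have h1 := hbs.hasSum
      rw [hs1] at h1
      exact h1.add (hgs.hasSum.mul_left σ)
    refine ⟨fun F => ?_, fun k => ?_⟩
    · calc ∑ i ∈ F, |((1 + σ * c)⁻¹ • (fun i => (1 + σ * g i) * b i)) i| * W i
          = (1 + σ * c)⁻¹ * ∑ i ∈ F, (|b i| * W i + σ * (|b i| * W i * g i)) := by
            rw [Finset.mul_sum]
            apply Finset.sum_congr rfl
            intro i _
            rw [Pi.smul_apply, smul_eq_mul, abs_mul, abs_mul, abs_of_pos (inv_pos.2 hpos),
              abs_of_pos (hgpos i)]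
            ring
        _ ≤ (1 + σ * c)⁻¹ * (1 + σ * c) := by
            have h7 := hs2.summable.sum_le_tsum F (fun i _ => by
              have h4 : 0 ≤ |b i| * W i := mul_nonneg (abs_nonneg _) (hW i).le
              have := hgpos i
              nlinarith)
            rw [hs2.tsum_eq] at h7
            gcongr
        _ = 1 := inv_mul_cancel₀ hpos.ne'
    · have e1 := ballK1_summable_pow ht hW hsum hbK.1 k
      have e2 : Summable fun i => (g i * b i) * t i ^ k := by
        apply Summable.of_norm_bounded e1.norm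
        intro i
        rw [mul_assoc, norm_mul, Real.norm_eq_abs]
        have := hg2 i
        have h4 : 0 ≤ ‖b i * t i ^ k‖ := norm_nonneg _
        nlinarith
      calc ∑' i, ((1 + σ * c)⁻¹ • (fun i => (1 + σ * g i) * b i)) i * t i ^ k
          = ∑' i, (1 + σ * c)⁻¹ * (b i * t i ^ k + σ * ((g i * b i) * t i ^ k)) := by
            congr 1; ext i; simp; ring
        _ = 0 := by
            rw [tsum_mul_left, e1.tsum_add (e2.mul_left σ), tsum_mul_left, hbK.2 k, hgann k]
            ring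
  have hp := key 1 (by simp)
  have hm := key (-1) (by simp)
  have hpos1 : 0 < 1 + c := by linarith
  have hpos2 : 0 < 1 - c := by linarith
  have h8 := hbext _ hp _ hm ⟨(1 + c) / 2, (1 - c) / 2, by linarith, by linarith, by ring, by
    ext i
    simp only [Pi.add_apply, Pi.smul_apply, smul_eq_mul, one_mul]
    have e1 : (1 + c) ≠ 0 := hpos1.ne'
    have e2 : (1 - c) ≠ 0 := hpos2.ne'
    have e3 : (1 + -1 * c) = 1 - c := by ring
    rw [e3]
    field_simp
    ring⟩
  refine ⟨c / δ, fun i hi => ?_⟩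
  have h9 := congrFun h8.1 i
  simp only [Pi.smul_apply, smul_eq_mul, one_mul] at h9
  have e1 : (1 + c) ≠ 0 := hpos1.ne'
  rw [inv_mul_eq_iff_eq_mul₀ e1] at h9
  have h10 : g i = c := by
    have := mul_right_cancel₀ hi h9
    linarith
  rw [hg] at h10
  simp only at h10
  field_simp
  linarith

end Run7.h374
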