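import Pool.Agent.Run7.h374.Decay
import Pool.Agent.Run7.h374.Compare
import Pool.Agent.Run7.h374.Dens
import Pool.Agent.Run7.h374.Defs2

/-! The criterion for spanning in terms of the lengths of the lacunae. -/

set_option autoImplicit false

namespace Run7.h374

open Filter Topology
open scoped Classical ContDiff

/-- open lacunae -/
abbrev Op (lam : ℕ → ℝ) : Type := {n : ℕ+ // 0 < gap lam n}

variable {q : ℝ → ℝ} {lam : ℕ → ℝ}

/-- rapid decay -/
theorem rapid (hq : IsPot q) (hlam : IsHillSpectrum q lam) (N : ℕ) :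
    ∃ C : ℝ, 0 ≤ C ∧ ∀ n : ℕ, 1 ≤ n → gap lam n * (n : ℝ) ^ N ≤ C := by
  have hqs : ContDiff ℝ ∞ (fun x => (q x : ℂ)) := Complex.ofRealCLM.contDiff.comp hq.1
  have hb : ∀ i : ℕ, ∃ C : ℝ, 0 ≤ C ∧ ∀ x, ‖iteratedDeriv i (fun x => (q x : ℂ)) x‖ ≤ C := by
    intro i
    have hc : Continuous (iteratedDeriv i (fun x => (q x : ℂ))) :=
      hqs.continuous_iteratedDeriv i (WithTop.coe_le_coe.2 le_top)
    have hp : Function.Periodic (iteratedDeriv i (fun x => (q x : ℂ))) 1 := by
      intro x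
      have h1 : (fun z => (fun x => (q x : ℂ)) (z + 1)) = fun x => (q x : ℂ) := by
        ext z; simp only [hq.2]
      have h2 := congrFun (iteratedDeriv_comp_add_const i (fun x => (q x : ℂ)) 1) x
      rw [h1] at h2
      exact h2.symm
    obtain ⟨C, hC⟩ := (isCompact_Icc (a := (0:ℝ)) (b := 1)).exists_bound_of_continuousOn hc.continuousOn
    refine ⟨C, (norm_nonneg _).trans (hC 0 ⟨le_rfl, zero_le_one⟩), fun x => ?_⟩
    obtain ⟨y, hy, hxy⟩ := hp.exists_mem_Ico₀ one_pos x
    rw [hxy]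
    exact hC y ⟨hy.1, hy.2.le⟩
  choose K hK0 hK using hb
  obtain ⟨C, hC, h⟩ := decay_unif K hK0 N
  exact ⟨C, hC, h q hq.1 hq.2 (fun i _ => hK i) lam hlam⟩

/-- the eigenvalues are at bounded distance from `π² n²` -/
theorem bounded_dist (hq : IsPot q) (hlam : IsHillSpectrum q lam) :
    ∃ M : ℝ, 0 ≤ M ∧ ∀ n : ℕ, |lam (2 * n) - Real.pi ^ 2 * (n : ℝ) ^ 2| ≤ M := by
  refine ⟨‖qC q hq.1.continuous hq.2‖, norm_nonneg _, fun n => ?_⟩
  have := abs_lam_sub hq.1.continuous hq.2 hlam (2 * n)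
  rwa [lam0_even] at this

lemma lam_strict (hlam : IsHillSpectrum q lam) {i j : ℕ} (hij : i < j) (hj : 0 < gap lam j) :
    lam (2 * i) < lam (2 * j) := by
  have h1 := hlam.mono (show 2 * i ≤ 2 * j - 1 by omega)
  unfold gap at hj
  linarith

/-- shifted points -/
noncomputable def tt (lam : ℕ → ℝ) (n : Op lam) : ℝ := lam (2 * (n : ℕ+)) + (1 - lam 0)

lemma tt_ge (hlam : IsHillSpectrum q lam) (n : Op lam) : 1 ≤ tt lam n := by
  unfold tt
  have := hlam.mono (Nat.zero_le (2 * ((n : ℕ+) : ℕ)))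
  linarith

lemma tt_inj (hlam : IsHillSpectrum q lam) : Function.Injective (tt lam) := by
  intro i j hij
  unfold tt at hij
  have h : lam (2 * ((i : ℕ+) : ℕ)) = lam (2 * ((j : ℕ+) : ℕ)) := by linarith
  rcases lt_trichotomy (((i : ℕ+) : ℕ)) (((j : ℕ+) : ℕ)) with hlt | heq | hlt
  · exact absurd h (lam_strict hlam hlt j.2).ne
  · exact Subtype.ext (PNat.coe_injective heq)
  · exact absurd h (lam_strict hlam hlt i.2).ne'

lemma summable_pnat_sq : Summable fun n : ℕ+ => 1 / (n : ℝ) ^ 2 :=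
  (Real.summable_one_div_nat_pow.2 (by norm_num : 1 < 2)).comp_injective PNat.coe_injective

lemma summable_tt (hq : IsPot q) (hlam : IsHillSpectrum q lam) :
    Summable fun n : Op lam => (tt lam n)⁻¹ := by
  obtain ⟨M, hM0, hM⟩ := bounded_dist hq hlam
  have h1 : Summable fun n : Op lam => (1 + (M + |1 - lam 0|)) * (1 / ((n : ℕ+) : ℝ) ^ 2) :=
    (summable_pnat_sq.comp_injective Subtype.val_injective).mul_left _
  refine Summable.of_nonneg_of_le (fun n => ?_) (fun n => ?_) h1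
  · have := tt_ge hlam n; positivity
  · have h2 := tt_ge hlam n
    have h3 := (abs_le.1 (hM ((n : ℕ+) : ℕ))).1
    have h4 : (1:ℝ) ≤ ((n : ℕ+) : ℝ) := by exact_mod_cast (n : ℕ+).one_le
    have h5 : ((n : ℕ+) : ℝ) ^ 2 ≤ Real.pi ^ 2 * ((n : ℕ+) : ℝ) ^ 2 := by
      have : (1:ℝ) ≤ Real.pi ^ 2 := by nlinarith [Real.pi_gt_three]
      nlinarith [sq_nonneg ((n : ℕ+) : ℝ)]
    have h6 : Real.pi ^ 2 * ((n : ℕ+) : ℝ) ^ 2 - (M + |1 - lam 0|) ≤ tt lam n := by
      unfold tt
      have := neg_abs_le (1 - lam 0)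
      linarith
    rw [mul_one_div, inv_eq_one_div, div_le_div_iff₀ (by linarith) (by positivity)]
    have h7 : 0 ≤ M + |1 - lam 0| := by positivity
    nlinarith

lemma summable_mom (hq : IsPot q) (hlam : IsHillSpectrum q lam) (k : ℕ) :
    Summable fun n : Op lam => gap lam (n : ℕ+) * tt lam n ^ k := by
  obtain ⟨M, hM0, hM⟩ := bounded_dist hq hlam
  obtain ⟨C, hC0, hC⟩ := rapid hq hlam (2 * k + 2)
  set L : ℝ := Real.pi ^ 2 + (M + |1 - lam 0|) with hL
  have hL0 : 0 ≤ L := by positivity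
  have h1 : Summable fun n : Op lam => (C * L ^ k) * (1 / ((n : ℕ+) : ℝ) ^ 2) :=
    (summable_pnat_sq.comp_injective Subtype.val_injective).mul_left _
  refine Summable.of_nonneg_of_le (fun n => ?_) (fun n => ?_) h1
  · have := tt_ge hlam n
    have := n.2
    positivity
  · have h2 := tt_ge hlam n
    have h4 : (1:ℝ) ≤ ((n : ℕ+) : ℝ) := by exact_mod_cast (n : ℕ+).one_le
    have h3 := (abs_le.1 (hM ((n : ℕ+) : ℕ))).2
    have h5 : tt lam n ≤ L * ((n : ℕ+) : ℝ) ^ 2 := by
      unfold tt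
      have h6 := le_abs_self (1 - lam 0)
      have h7 : (1:ℝ) ≤ ((n : ℕ+) : ℝ) ^ 2 := one_le_pow₀ h4
      have h8 : M + |1 - lam 0| ≤ (M + |1 - lam 0|) * ((n : ℕ+) : ℝ) ^ 2 := by
        have : 0 ≤ M + |1 - lam 0| := by positivity
        nlinarith
      rw [hL, add_mul]
      linarith
    have h9 := hC ((n : ℕ+) : ℕ) (n : ℕ+).one_le
    have h10 := n.2
    calc gap lam (n : ℕ+) * tt lam n ^ k
        ≤ gap lam (n : ℕ+) * (L * ((n : ℕ+) : ℝ) ^ 2) ^ k := by
          have : 0 ≤ tt lam n := by linarith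
          gcongr
      _ = (gap lam (n : ℕ+) * ((n : ℕ+) : ℝ) ^ (2 * k + 2)) * L ^ k * (1 / ((n : ℕ+) : ℝ) ^ 2) := by
          rw [mul_pow, ← pow_mul, pow_add]
          field_simp
      _ ≤ C * L ^ k * (1 / ((n : ℕ+) : ℝ) ^ 2) := by gcongr

/-- sums over all `n` are sums over the open lacunae -/
lemma summable_op_iff (hlam : IsHillSpectrum q lam) (F : ℕ+ → ℝ) :
    (Summable fun n : ℕ+ => gap lam n * F n) ↔ Summable fun n : Op lam => gap lam (n : ℕ+) * F n := by
  have h : ∀ n ∉ Set.range (Subtype.val : Op lam → ℕ+), gap lam n * F n = 0 := by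
    intro n hn
    have h1 : ¬ 0 < gap lam n := fun h => hn ⟨⟨n, h⟩, rfl⟩
    have h2 := gap_nonneg hlam n
    have h3 : gap lam n = 0 := by linarith
    rw [h3, zero_mul]
  exact (Subtype.val_injective.summable_iff h).symm

lemma tsum_op (hlam : IsHillSpectrum q lam) (F : ℕ+ → ℝ) :
    ∑' n : ℕ+, gap lam n * F n = ∑' n : Op lam, gap lam (n : ℕ+) * F n := by
  refine (tsum_subtype_eq_of_support_subset (f := fun n : ℕ+ => gap lam n * F n)
    (s := {n : ℕ+ | 0 < gap lam n}) ?_).symm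
  intro n hn
  by_contra h1
  have h2 := gap_nonneg hlam n
  have h3 : gap lam n = 0 := by
    have : ¬ 0 < gap lam n := h1
    linarith
  exact hn (by simp only [h3, zero_mul])

lemma spans_iff_dense (hq : IsPot q) (hlam : IsHillSpectrum q lam) :
    PSpans ℂ lam ↔ DenseP (tt lam) (fun n : Op lam => gap lam (n : ℕ+)) := by
  have hpos : ∀ n, 0 < tt lam n := fun n => lt_of_lt_of_le one_pos (tt_ge hlam n)
  constructor
  · intro h f hf ε hε
    set F : ℕ+ → ℂ := fun n => if hn : 0 < gap lam n then f ⟨n, hn⟩ else 0 with hF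
    have hFf : ∀ n : Op lam, F n = f n := by
      intro n
      simp only [hF]
      rw [dif_pos n.2]
    obtain ⟨p, hp1, hp2⟩ := h F (by
      rw [summable_op_iff hlam (fun n => ‖F n‖ ^ 2)]
      refine hf.congr fun n => ?_
      rw [hFf]) ε hε
    refine ⟨p.comp (Polynomial.X - Polynomial.C ((1 - lam 0 : ℝ) : ℂ)), ?_⟩
    have hp3 : ∑' n : ℕ+, gap lam n * ‖F n - p.eval ((lam (2 * n) : ℝ) : ℂ)‖ ^ 2 < ε := hp2
    rw [tsum_op hlam (fun n => ‖F n - p.eval ((lam (2 * n) : ℝ) : ℂ)‖ ^ 2)] at hp3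
    refine lt_of_eq_of_lt ?_ hp3
    congr 1
    ext n
    rw [hFf, Polynomial.eval_comp, Polynomial.eval_sub, Polynomial.eval_X, Polynomial.eval_C]
    congr 5
    unfold tt
    push_cast
    ring
  · intro h F hF ε hε
    rw [summable_op_iff hlam (fun n => ‖F n‖ ^ 2)] at hF
    obtain ⟨p, hp⟩ := h (fun n => F n) hF ε hε
    have hev : ∀ n : Op lam, (p.comp (Polynomial.X + Polynomial.C ((1 - lam 0 : ℝ) : ℂ))).eval
        ((lam (2 * (n : ℕ+)) : ℝ) : ℂ) = p.eval ((tt lam n : ℝ) : ℂ) := by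
      intro n
      rw [Polynomial.eval_comp, Polynomial.eval_add, Polynomial.eval_X, Polynomial.eval_C]
      unfold tt
      push_cast
      rfl
    refine ⟨p.comp (Polynomial.X + Polynomial.C ((1 - lam 0 : ℝ) : ℂ)), ?_, ?_⟩
    · show Summable fun n : ℕ+ => gap lam n * (fun n : ℕ+ => ‖F n - (p.comp (Polynomial.X +
        Polynomial.C ((1 - lam 0 : ℝ) : ℂ))).eval ((lam (2 * n) : ℝ) : ℂ)‖ ^ 2) n
      rw [summable_op_iff hlam]
      have hsp := summable_poly hpos (fun n : Op lam => n.2) (summable_mom hq hlam) p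
      refine Summable.of_nonneg_of_le (fun n => ?_) (fun n => ?_) ((hF.mul_left 2).add (hsp.mul_left 2))
      · have := n.2; positivity
      · have h1 := n.2
        simp only [hev]
        have h2 : ‖F n - p.eval ((tt lam n : ℝ) : ℂ)‖ ≤ ‖F n‖ + ‖p.eval ((tt lam n : ℝ) : ℂ)‖ :=
          norm_sub_le _ _
        have h3 : ‖F n - p.eval ((tt lam n : ℝ) : ℂ)‖ ^ 2 ≤
            2 * ‖F n‖ ^ 2 + 2 * ‖p.eval ((tt lam n : ℝ) : ℂ)‖ ^ 2 := by
          have h4 := norm_nonneg (F n - p.eval ((tt lam n : ℝ) : ℂ))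
          nlinarith [sq_nonneg (‖F n‖ - ‖p.eval ((tt lam n : ℝ) : ℂ)‖)]
        nlinarith
    · show ∑' n : ℕ+, gap lam n * (fun n : ℕ+ => ‖F n - (p.comp (Polynomial.X +
        Polynomial.C ((1 - lam 0 : ℝ) : ℂ))).eval ((lam (2 * n) : ℝ) : ℂ)‖ ^ 2) n < ε
      rw [tsum_op hlam]
      refine lt_of_eq_of_lt ?_ hp
      congr 1
      ext n
      simp only [hev]

/-- the real part of a polynomial -/
noncomputable def rePoly (p : Polynomial ℂ) : Polynomial ℝ :=
  ∑ k ∈ Finset.range (p.natDegree + 1), Polynomial.monomial k (p.coeff k).re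

lemma eval_rePoly (p : Polynomial ℂ) (x : ℝ) : (rePoly p).eval x = (p.eval (x : ℂ)).re := by
  unfold rePoly
  rw [Polynomial.eval_finsetSum, Polynomial.eval_eq_sum_range, Complex.re_sum]
  apply Finset.sum_congr rfl
  intro k _
  rw [Polynomial.eval_monomial, ← Complex.ofReal_pow, Complex.re_mul_ofReal]

/-- real and complex scalars give the same notion -/
theorem spans_real_iff (hlam : IsHillSpectrum q lam) : PSpans ℝ lam ↔ PSpans ℂ lam := by
  have hg : ∀ n : ℕ+, 0 ≤ gap lam n := fun n => gap_nonneg hlam n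
  constructor
  · intro h F hF ε hε
    have hre : Summable fun n : ℕ+ => gap lam n * ‖(F n).re‖ ^ 2 := by
      refine Summable.of_nonneg_of_le (fun n => ?_) (fun n => ?_) hF
      · have := hg n; positivity
      · have := hg n
        have h1 : ‖(F n).re‖ ≤ ‖F n‖ := Complex.abs_re_le_norm _
        gcongr
    have him : Summable fun n : ℕ+ => gap lam n * ‖(F n).im‖ ^ 2 := by
      refine Summable.of_nonneg_of_le (fun n => ?_) (fun n => ?_) hF
      · have := hg n; positivity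
      · have := hg n
        have h1 : ‖(F n).im‖ ≤ ‖F n‖ := Complex.abs_im_le_norm _
        gcongr
    obtain ⟨p, hp1, hp2⟩ := h (fun n => (F n).re) hre (ε / 2) (by linarith)
    obtain ⟨r, hr1, hr2⟩ := h (fun n => (F n).im) him (ε / 2) (by linarith)
    have key : ∀ n : ℕ+, gap lam n * ‖F n - (p.map (algebraMap ℝ ℂ) +
        Polynomial.C Complex.I * r.map (algebraMap ℝ ℂ)).eval ((lam (2 * n) : ℝ) : ℂ)‖ ^ 2 =
        gap lam n * ‖(F n).re - p.eval (((lam (2 * n) : ℝ) : ℝ))‖ ^ 2 +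
        gap lam n * ‖(F n).im - r.eval (((lam (2 * n) : ℝ) : ℝ))‖ ^ 2 := by
      intro n
      rw [← mul_add]
      congr 1
      have e1 : (p.map (algebraMap ℝ ℂ)).eval ((lam (2 * n) : ℝ) : ℂ) =
          ((p.eval (lam (2 * n)) : ℝ) : ℂ) := Polynomial.eval_map_apply (algebraMap ℝ ℂ) _
      have e2 : (r.map (algebraMap ℝ ℂ)).eval ((lam (2 * n) : ℝ) : ℂ) =
          ((r.eval (lam (2 * n)) : ℝ) : ℂ) := Polynomial.eval_map_apply (algebraMap ℝ ℂ) _
      rw [Polynomial.eval_add, Polynomial.eval_mul, Polynomial.eval_C, e1, e2,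
        ← Complex.normSq_eq_norm_sq, Complex.normSq_apply, Real.norm_eq_abs, Real.norm_eq_abs,
        sq_abs, sq_abs]
      simp
      ring
    refine ⟨p.map (algebraMap ℝ ℂ) + Polynomial.C Complex.I * r.map (algebraMap ℝ ℂ), ?_, ?_⟩
    · exact (hp1.add hr1).congr fun n => (key n).symm
    · refine lt_of_eq_of_lt (tsum_congr key) ?_
      have hp1' : Summable fun n : ℕ+ => gap lam n * ‖(F n).re - p.eval (lam (2 * n))‖ ^ 2 := hp1
      have hr1' : Summable fun n : ℕ+ => gap lam n * ‖(F n).im - r.eval (lam (2 * n))‖ ^ 2 := hr1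
      have hp2' : ∑' n : ℕ+, gap lam n * ‖(F n).re - p.eval (lam (2 * n))‖ ^ 2 < ε / 2 := hp2
      have hr2' : ∑' n : ℕ+, gap lam n * ‖(F n).im - r.eval (lam (2 * n))‖ ^ 2 < ε / 2 := hr2
      have e := hp1'.tsum_add hr1'
      have e2 : ∑' n : ℕ+, (gap lam n * ‖(F n).re - p.eval (lam (2 * n))‖ ^ 2 +
        gap lam n * ‖(F n).im - r.eval (lam (2 * n))‖ ^ 2) < ε := by
        rw [e]; linarith
      exact e2
  · intro h F hF ε hε
    obtain ⟨p, hp1, hp2⟩ := h (fun n => (F n : ℂ)) (by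
      refine hF.congr fun n => ?_
      rw [Complex.norm_real]) ε hε
    have key : ∀ n : ℕ+, gap lam n * ‖F n - (rePoly p).eval (((lam (2 * n) : ℝ) : ℝ))‖ ^ 2 ≤
        gap lam n * ‖(F n : ℂ) - p.eval ((lam (2 * n) : ℝ) : ℂ)‖ ^ 2 := by
      intro n
      have h1 := hg n
      have h2 : ‖F n - (rePoly p).eval (((lam (2 * n) : ℝ) : ℝ))‖ ≤
          ‖(F n : ℂ) - p.eval ((lam (2 * n) : ℝ) : ℂ)‖ := by
        have h3 := Complex.abs_re_le_norm ((F n : ℂ) - p.eval ((lam (2 * n) : ℝ) : ℂ))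
        rw [Complex.sub_re, Complex.ofReal_re, ← eval_rePoly] at h3
        exact h3
      gcongr
    have hs := Summable.of_nonneg_of_le (fun n => by have := hg n; positivity) key hp1
    exact ⟨rePoly p, hs, lt_of_le_of_lt (hs.tsum_le_tsum key hp1) hp2⟩

/-- the criterion, complex scalars -/
theorem criterion (hq : IsPot q) (hlam : IsHillSpectrum q lam) :
    PSpans ℂ lam ↔ LacCriterion lam := by
  have hpos : ∀ n, 0 < tt lam n := fun n => lt_of_lt_of_le one_pos (tt_ge hlam n)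
  rw [spans_iff_dense hq hlam, denseP_iff hpos (tt_inj hlam) (summable_tt hq hlam)
    (fun n : Op lam => n.2) (summable_mom hq hlam)]
  obtain ⟨M, hM0, hM⟩ := bounded_dist hq hlam
  -- comparison constants
  set T : ℕ → ℝ := fun n => (lam (2 * n) + (1 - lam 0)) / Real.pi ^ 2 with hT
  set O : Set ℕ := {n | 1 ≤ n ∧ 0 < gap lam n} with hO
  have hπ : 0 < Real.pi ^ 2 := by positivity
  have hTt : ∀ n : Op lam, T ((n : ℕ+) : ℕ) = tt lam n / Real.pi ^ 2 := fun n => rfl
  have hMT : ∀ i : ℕ, |T i - (i:ℝ) ^ 2| ≤ (M + |1 - lam 0|) / Real.pi ^ 2 := by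
    intro i
    have e : T i - (i:ℝ) ^ 2 = ((lam (2 * i) - Real.pi ^ 2 * (i:ℝ) ^ 2) + (1 - lam 0)) / Real.pi ^ 2 := by
      simp only [hT]; field_simp; ring
    rw [e, abs_div, abs_of_pos hπ]
    gcongr
    refine (abs_add_le _ _).trans ?_
    gcongr
    exact hM i
  obtain ⟨A, B, hA, hB, hAB⟩ := rprod_compare (T := T) (O := O) (fun i hi => hi.1)
    (by
      intro i hi
      have h1 := tt_ge hlam ⟨⟨i, hi.1⟩, hi.2⟩
      have h2 : T i = tt lam ⟨⟨i, hi.1⟩, hi.2⟩ / Real.pi ^ 2 := rfl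
      rw [h2]
      positivity)
    (by
      intro i _ j hj hij
      have h1 := lam_strict hlam hij hj.2
      simp only [hT]
      gcongr)
    (fun i _ => hMT i)
  -- constants for the numerators
  obtain ⟨a, b, ha, hb, hab⟩ : ∃ a b : ℝ, 0 < a ∧ 0 < b ∧ ∀ n : Op lam,
      a * ((n : ℕ+) : ℝ) ^ 4 ≤ tt lam n ^ 2 ∧ tt lam n ^ 2 ≤ b * ((n : ℕ+) : ℝ) ^ 4 := by
    set L : ℝ := M + |1 - lam 0| with hL
    have hL0 : 0 ≤ L := by positivity
    refine ⟨(1 / (1 + L)) ^ 2, (Real.pi ^ 2 + L) ^ 2, by positivity, by positivity, ?_⟩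
    intro n
    have h2 := tt_ge hlam n
    have h4 : (1:ℝ) ≤ ((n : ℕ+) : ℝ) := by exact_mod_cast (n : ℕ+).one_le
    have h7 : (1:ℝ) ≤ ((n : ℕ+) : ℝ) ^ 2 := one_le_pow₀ h4
    have h3 := abs_le.1 (hM ((n : ℕ+) : ℕ))
    have h6 := abs_le.1 (le_refl |1 - lam 0|)
    have hlow : 1 / (1 + L) * ((n : ℕ+) : ℝ) ^ 2 ≤ tt lam n := by
      rw [div_mul_eq_mul_div, one_mul, div_le_iff₀ (by positivity)]
      have h8 : ((n : ℕ+) : ℝ) ^ 2 ≤ Real.pi ^ 2 * ((n : ℕ+) : ℝ) ^ 2 := by
        have : (1:ℝ) ≤ Real.pi ^ 2 := by nlinarith [Real.pi_gt_three]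
        nlinarith
      have h9 : Real.pi ^ 2 * ((n : ℕ+) : ℝ) ^ 2 - L ≤ tt lam n := by
        unfold tt; rw [hL]; linarith [h3.1, h6.1]
      nlinarith
    have hup : tt lam n ≤ (Real.pi ^ 2 + L) * ((n : ℕ+) : ℝ) ^ 2 := by
      have h8 : L ≤ L * ((n : ℕ+) : ℝ) ^ 2 := by nlinarith
      have h9 : tt lam n ≤ Real.pi ^ 2 * ((n : ℕ+) : ℝ) ^ 2 + L := by
        unfold tt; rw [hL]; linarith [h3.2, h6.2]
      rw [add_mul]; linarith
    have e4 : ((n : ℕ+) : ℝ) ^ 4 = (((n : ℕ+) : ℝ) ^ 2) ^ 2 := by ring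
    rw [e4, ← mul_pow, ← mul_pow]
    constructor
    · gcongr
    · have : 0 ≤ tt lam n := by linarith
      gcongr
  -- equivalence of the two series
  have key : ∀ S : Set (Op lam),
      (Summable fun i : S => tt lam i ^ 2 / (gap lam ((i : Op lam) : ℕ+) *
        rprod (fun j : S => tt lam j) i ^ 2)) ↔
      Summable fun n : (Subtype.val '' S : Set ℕ+) => ((n : ℕ+) : ℝ) ^ 4 /
        (gap lam (n : ℕ+) * lacProd (Subtype.val '' S) n ^ 2) := by
    intro S
    set e : S ≃ (Subtype.val '' S : Set ℕ+) := Equiv.Set.image _ S Subtype.val_injective with he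
    have hev : ∀ i : S, ((e i : (Subtype.val '' S : Set ℕ+)) : ℕ+) = ((i : Op lam) : ℕ+) :=
      fun i => rfl
    rw [← e.summable_iff]
    have hprod : ∀ i : S, lacProd (Subtype.val '' S) ((i : Op lam) : ℕ+) =
        rprod (fun j : S => ((((j : Op lam) : ℕ+) : ℕ) : ℝ) ^ 2) i := by
      intro i
      unfold lacProd rprod
      rw [← e.tprod_eq]
      congr 1
      ext j
      rw [hev]
      have hiff : (((j : Op lam) : ℕ+) = ((i : Op lam) : ℕ+)) ↔ j = i := by
        constructor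
        · intro h; exact Subtype.ext (Subtype.ext h)
        · intro h; rw [h]
      by_cases hji : j = i
      · rw [if_pos hji, if_pos (hiff.2 hji)]
      · rw [if_neg hji, if_neg (fun h => hji (hiff.1 h))]
    have hscale : ∀ i : S, rprod (fun j : S => tt lam j) i =
        rprod (fun j : S => T ((((j : Op lam) : ℕ+) : ℕ))) i := by
      intro i
      unfold rprod
      congr 1
      ext j
      split_ifs
      · rfl
      · show 1 - tt lam (i : Op lam) / tt lam (j : Op lam) =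
          1 - T (((i : Op lam) : ℕ+) : ℕ) / T (((j : Op lam) : ℕ+) : ℕ)
        rw [hTt, hTt]
        have := hpos j
        field_simp
    have hcmp := hAB S (fun j => (((j : Op lam) : ℕ+) : ℕ)) (by
      intro i j hij
      exact Subtype.ext (Subtype.ext (PNat.coe_injective hij))) (fun j => ⟨((j : Op lam) : ℕ+).one_le, (j : Op lam).2⟩)
    have hne : ∀ i : S, rprod (fun j : S => ((((j : Op lam) : ℕ+) : ℕ) : ℝ) ^ 2) i ≠ 0 := by
      intro i
      apply rprod_ne_zero
      · intro j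
        have : (1:ℝ) ≤ ((((j : Op lam) : ℕ+) : ℕ) : ℝ) := by exact_mod_cast ((j : Op lam) : ℕ+).one_le
        positivity
      · intro j k hjk
        have h1 : ((((j : Op lam) : ℕ+) : ℕ) : ℝ) = ((((k : Op lam) : ℕ+) : ℕ) : ℝ) :=
          (pow_left_inj₀ (by positivity) (by positivity) two_ne_zero).1 hjk
        exact Subtype.ext (Subtype.ext (PNat.coe_injective (by exact_mod_cast h1)))
      · have := (summable_pnat_sq.comp_injective (i := fun j : S => ((j : Op lam) : ℕ+))
          (fun i j hij => Subtype.ext (Subtype.ext hij)))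
        refine this.congr fun j => ?_
        simp only [Function.comp_apply, one_div]
    constructor
    · intro hs
      refine Summable.of_nonneg_of_le (fun i => ?_) (fun i => ?_) (hs.mul_left (B / a))
      · simp only [Function.comp_apply, hev]
        have := (i : Op lam).2
        positivity
      · simp only [Function.comp_apply, hev, hprod, hscale]
        have h1 := (hcmp i).2
        have h2 := (hab i).1
        have h3 := (i : Op lam).2
        have h4 : 0 < rprod (fun j : S => ((((j : Op lam) : ℕ+) : ℕ) : ℝ) ^ 2) i ^ 2 := by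
          have := hne i; positivity
        have h5 : 0 < rprod (fun j : S => T ((((j : Op lam) : ℕ+) : ℕ))) i ^ 2 :=
          lt_of_lt_of_le (by positivity) (hcmp i).1
        rw [div_mul_div_comm, div_le_div_iff₀ (by positivity) (by positivity)]
        calc ((((i : Op lam) : ℕ+) : ℕ) : ℝ) ^ 4 * (a * (gap lam ((i : Op lam) : ℕ+) *
              rprod (fun j : S => T ((((j : Op lam) : ℕ+) : ℕ))) i ^ 2))
            = (a * ((((i : Op lam) : ℕ+) : ℕ) : ℝ) ^ 4) * (gap lam ((i : Op lam) : ℕ+) *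
              rprod (fun j : S => T ((((j : Op lam) : ℕ+) : ℕ))) i ^ 2) := by ring
          _ ≤ (tt lam i ^ 2) * (gap lam ((i : Op lam) : ℕ+) *
              (B * rprod (fun j : S => ((((j : Op lam) : ℕ+) : ℕ) : ℝ) ^ 2) i ^ 2)) := by
              gcongr
          _ = _ := by ring
    · intro hs
      refine Summable.of_nonneg_of_le (fun i => ?_) (fun i => ?_) (hs.mul_left (b / A))
      · have := (i : Op lam).2
        positivity
      · simp only [Function.comp_apply, hev, hprod, hscale]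
        have h1 := (hcmp i).1
        have h2 := (hab i).2
        have h3 := (i : Op lam).2
        have h4 : 0 < rprod (fun j : S => ((((j : Op lam) : ℕ+) : ℕ) : ℝ) ^ 2) i ^ 2 := by
          have := hne i; positivity
        have h5 : 0 < rprod (fun j : S => T ((((j : Op lam) : ℕ+) : ℕ))) i ^ 2 :=
          lt_of_lt_of_le (by positivity) (hcmp i).1
        rw [div_mul_div_comm, div_le_div_iff₀ (by positivity) (by positivity)]
        calc tt lam i ^ 2 * (A * (gap lam ((i : Op lam) : ℕ+) *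
              rprod (fun j : S => ((((j : Op lam) : ℕ+) : ℕ) : ℝ) ^ 2) i ^ 2))
            = tt lam i ^ 2 * (gap lam ((i : Op lam) : ℕ+) *
              (A * rprod (fun j : S => ((((j : Op lam) : ℕ+) : ℕ) : ℝ) ^ 2) i ^ 2)) := by ring
          _ ≤ (b * ((((i : Op lam) : ℕ+) : ℕ) : ℝ) ^ 4) * (gap lam ((i : Op lam) : ℕ+) *
              rprod (fun j : S => T ((((j : Op lam) : ℕ+) : ℕ))) i ^ 2) := by
              gcongr
          _ = _ := by ring
  constructor
  · intro h S hS hSO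
    have h1 : (Subtype.val '' (Subtype.val ⁻¹' S : Set (Op lam)) : Set ℕ+) = S := by
      ext n
      constructor
      · rintro ⟨m, hm, rfl⟩; exact hm
      · intro hn; exact ⟨⟨n, hSO n hn⟩, hn, rfl⟩
    have h2 : (Subtype.val ⁻¹' S : Set (Op lam)).Infinite := by
      intro hfin
      apply hS
      rw [← h1]
      exact hfin.image _
    have h3 := h _ h2
    rw [key, h1] at h3
    exact h3
  · intro h S hS
    rw [key]
    apply h _ (hS.image Subtype.val_injective.injOn)
    rintro n ⟨m, _, rfl⟩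
    exact m.2

end Run7.h374
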