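import Pool.Agent.Run7.h374.Mono

/-! Decay along the imaginary axis when the potential is flat at `0`. -/

set_option autoImplicit false

namespace Run7.h374

open Filter Topology Metric MeasureTheory
open scoped Interval ComplexConjugate ContDiff

/-- `q - q 0` vanishes to infinite order at both ends of `[0, 1]` -/
def FlatEnds (q : ℝ → ℝ) : Prop := ∀ N : ℕ, ∃ C : ℝ, 0 ≤ C ∧ ∀ x ∈ Set.Icc (0:ℝ) 1,
  |q x - q 0| ≤ C * x ^ N ∧ |q x - q 0| ≤ C * (1 - x) ^ N

lemma flat_right {q : ℝ → ℝ} (hq : ContDiff ℝ ∞ q) (hd : ∀ j : ℕ, 1 ≤ j → iteratedDeriv j q 0 = 0)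
    (N : ℕ) : ∃ C : ℝ, 0 ≤ C ∧ ∀ x ∈ Set.Icc (0:ℝ) 1, |q x - q 0| ≤ C * x ^ N := by
  have hc : ContDiffOn ℝ (N + 1) q (Set.Icc (0:ℝ) 1) :=
    (hq.of_le (by exact_mod_cast le_top)).contDiffOn
  obtain ⟨C, hC⟩ := exists_taylor_mean_remainder_bound zero_le_one hc
  have ht : ∀ x, taylorWithinEval q N (Set.Icc (0:ℝ) 1) 0 x = q 0 := by
    intro x
    rw [taylor_within_apply, Finset.sum_range_succ', Finset.sum_eq_zero]
    · simp
    · intro k _
      have h1 : iteratedDerivWithin (k + 1) q (Set.Icc (0:ℝ) 1) 0 = iteratedDeriv (k + 1) q 0 :=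
        iteratedDerivWithin_eq_iteratedDeriv (uniqueDiffOn_Icc zero_lt_one)
          ((hq.of_le (by exact_mod_cast le_top)).contDiffAt) ⟨le_rfl, zero_le_one⟩
      rw [h1, hd (k + 1) (by omega), smul_zero]
  have hC0 : 0 ≤ C := by
    have := hC 1 ⟨zero_le_one, le_rfl⟩
    rw [sub_zero, one_pow, mul_one] at this
    exact (norm_nonneg _).trans this
  refine ⟨C, hC0, fun x hx => ?_⟩
  have h1 := hC x hx
  rw [ht, sub_zero, Real.norm_eq_abs] at h1
  refine h1.trans ?_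
  have h2 : x ^ (N + 1) ≤ x ^ N := pow_le_pow_of_le_one hx.1 hx.2 (Nat.le_succ N)
  gcongr

lemma flatEnds_of_deriv {q : ℝ → ℝ} (hq : ContDiff ℝ ∞ q) (hper : ∀ x, q (x + 1) = q x)
    (hd : ∀ j : ℕ, 1 ≤ j → iteratedDeriv j q 0 = 0) : FlatEnds q := by
  intro N
  obtain ⟨C, hC0, hC⟩ := flat_right hq hd N
  obtain ⟨C', hC0', hC'⟩ := flat_right (q := fun x => q (-x)) (hq.comp contDiff_neg) (by
    intro j hj
    rw [iteratedDeriv_comp_neg, neg_zero, hd j hj, smul_zero]) N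
  refine ⟨C + C', by positivity, fun x hx => ⟨?_, ?_⟩⟩
  · have h1 := hC x hx
    have h2 : 0 ≤ C' * x ^ N := mul_nonneg hC0' (pow_nonneg hx.1 N)
    nlinarith
  · have h1 := hC' (1 - x) ⟨by linarith [hx.2], by linarith [hx.1]⟩
    have e : q (-(1 - x)) = q x := by
      have := hper (-(1 - x))
      rw [← this]; congr 1; ring
    simp only [neg_zero] at h1
    rw [e] at h1
    have h2 : 0 ≤ C * (1 - x) ^ N := mul_nonneg hC0 (pow_nonneg (by linarith [hx.2]) N)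
    nlinarith

lemma pow_mul_exp_neg_le {x κ : ℝ} (hx : 0 ≤ x) (hκ : 0 < κ) (N : ℕ) :
    x ^ N * Real.exp (-(κ * x)) ≤ N.factorial / κ ^ N := by
  have h1 := Real.pow_div_factorial_le_exp (x := κ * x) (by positivity) N
  rw [div_le_iff₀ (by positivity), mul_pow] at h1
  rw [Real.exp_neg, le_div_iff₀ (by positivity), mul_comm (x ^ N), mul_assoc, inv_mul_le_iff₀ (Real.exp_pos _)]
  linarith

variable {q : ℝ → ℝ} {K : ℝ}

lemma hasDerivAt_expc (c x : ℝ) :
    HasDerivAt (fun x : ℝ => ((Real.exp (c * x) : ℝ) : ℂ)) ((c * Real.exp (c * x) : ℝ) : ℂ) x := by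
  have h1 : HasDerivAt (fun x : ℝ => Real.exp (c * x)) (Real.exp (c * x) * (c * 1)) x :=
    ((hasDerivAt_id' x).const_mul c).exp
  have h2 := h1.ofReal_comp
  refine h2.congr_deriv ?_
  rw [mul_one, mul_comm]

/-- the entry `Q = -Γ - κ D` -/
lemma decay_Q (hK : ∀ x, |q x| ≤ K) {C : ℝ} (hC0 : 0 ≤ C) {N : ℕ}
    (hC : ∀ x ∈ Set.Icc (0:ℝ) 1, |q x - q 0| ≤ C * x ^ N) {y κ : ℝ} (hκ : 0 < κ)
    (hκy : κ ^ 2 = y ^ 2 + q 0) (hκK : 2 * K ≤ κ) {k : ℂ} (hk : k ^ 2 = -((y ^ 2 : ℝ) : ℂ))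
    {f g : ℝ → ℂ} (hs : IsSol q k f g) (hf0 : f 0 = 1) (hg0 : g 0 = -κ) :
    ‖g 1 + κ * f 1‖ ≤ 2 * (C * (N.factorial / (2 * κ) ^ N)) * Real.exp κ := by
  have hK0 : 0 ≤ K := (abs_nonneg _).trans (hK 0)
  set J : ℝ := C * (N.factorial / (2 * κ) ^ N) with hJ
  have hJ0 : 0 ≤ J := by positivity
  set a : ℝ → ℂ := fun x => ((Real.exp (-κ * x) : ℝ) : ℂ) * (g x + κ * f x) with ha
  set b : ℝ → ℂ := fun x => ((Real.exp (κ * x) : ℝ) : ℂ) * f x with hb
  have hκc : (κ : ℂ) ^ 2 = ((y ^ 2 : ℝ) : ℂ) + q 0 := by exact_mod_cast hκy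
  have hda : ∀ x, HasDerivAt a (((Real.exp (-κ * x) : ℝ) : ℂ) * (((q x - q 0 : ℝ) : ℂ) * f x)) x := by
    intro x
    have h := (hasDerivAt_expc (-κ) x).mul ((hs.d2 x).add ((hs.d1 x).const_mul (κ : ℂ)))
    refine h.congr_deriv ?_
    rw [hk]
    simp only [Pi.add_apply]
    push_cast at hκc ⊢
    linear_combination (-Complex.exp (-κ * x) * f x) * hκc
  have hdb : ∀ x, HasDerivAt b (((Real.exp (2 * κ * x) : ℝ) : ℂ) * a x) x := by
    intro x
    have h := (hasDerivAt_expc κ x).mul (hs.d1 x)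
    refine h.congr_deriv ?_
    have e : Real.exp (2 * κ * x) * Real.exp (-κ * x) = Real.exp (κ * x) := by
      rw [← Real.exp_add]; congr 1; ring
    have e' : ((Real.exp (2 * κ * x) : ℝ) : ℂ) * ((Real.exp (-κ * x) : ℝ) : ℂ) =
      ((Real.exp (κ * x) : ℝ) : ℂ) := by rw [← Complex.ofReal_mul, e]
    simp only [ha]
    rw [← mul_assoc, e']
    push_cast; ring
  have hac : Continuous a := continuous_iff_continuousAt.2 fun x => (hda x).continuousAt
  obtain ⟨x0, hx0, hmax⟩ := (isCompact_Icc (a := (0:ℝ)) (b := 1)).exists_isMaxOn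
    ⟨0, ⟨le_rfl, zero_le_one⟩⟩ (hac.norm.continuousOn)
  set A := ‖a x0‖ with hA
  have hA0 : 0 ≤ A := norm_nonneg _
  have hmax' : ∀ x ∈ Set.Icc (0:ℝ) 1, ‖a x‖ ≤ A := fun x hx => hmax hx
  have ha0 : a 0 = 0 := by simp only [ha, hf0, hg0]; simp
  have hb0 : b 0 = 1 := by simp only [hb, hf0]; simp
  have hbb : ∀ x ∈ Set.Icc (0:ℝ) 1, ‖b x‖ ≤ 1 + A * Real.exp (2 * κ * x) / (2 * κ) := by
    have hB : ∀ x, HasDerivAt (fun x => 1 + A * Real.exp (2 * κ * x) / (2 * κ))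
        (A * Real.exp (2 * κ * x)) x := by
      intro x
      have h1 : HasDerivAt (fun x : ℝ => Real.exp (2 * κ * x)) (Real.exp (2 * κ * x) * (2 * κ * 1)) x :=
        ((hasDerivAt_id' x).const_mul (2 * κ)).exp
      have h2 := ((h1.const_mul A).div_const (2 * κ)).const_add 1
      refine h2.congr_deriv ?_
      field_simp
    have h := image_norm_le_of_norm_deriv_right_le_deriv_boundary (f := b)
      (f' := fun x => ((Real.exp (2 * κ * x) : ℝ) : ℂ) * a x) (a := 0) (b := 1)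
      (fun x _ => (hdb x).continuousAt.continuousWithinAt) (fun x _ => (hdb x).hasDerivWithinAt)
      (B := fun x => 1 + A * Real.exp (2 * κ * x) / (2 * κ)) (B' := fun x => A * Real.exp (2 * κ * x))
      (by rw [hb0, norm_one]; have : 0 ≤ A * Real.exp (2 * κ * 0) / (2 * κ) := by positivity
          linarith) hB (by
        intro x hx
        rw [norm_mul, Complex.norm_real, Real.norm_of_nonneg (Real.exp_pos _).le, mul_comm]
        have := hmax' x ⟨hx.1, hx.2.le⟩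
        gcongr)
    intro x hx
    exact h hx
  have hbd : ∀ x ∈ Set.Icc (0:ℝ) 1,
      ‖((Real.exp (-κ * x) : ℝ) : ℂ) * (((q x - q 0 : ℝ) : ℂ) * f x)‖ ≤ J + A / 2 := by
    intro x hx
    have hfx : ‖f x‖ = Real.exp (-κ * x) * ‖b x‖ := by
      simp only [hb]
      rw [norm_mul, Complex.norm_real, Real.norm_of_nonneg (Real.exp_pos _).le, ← mul_assoc,
        ← Real.exp_add]
      simp
    rw [norm_mul, norm_mul, Complex.norm_real, Complex.norm_real,
      Real.norm_of_nonneg (Real.exp_pos _).le, Real.norm_eq_abs, hfx]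
    have h1 := hbb x hx
    have h2 := hC x hx
    have h3 : |q x - q 0| ≤ 2 * K := by
      have := abs_sub (q x) (q 0)
      have := hK x
      have := hK 0
      linarith
    have h4 : Real.exp (-κ * x) * Real.exp (-κ * x) * Real.exp (2 * κ * x) = 1 := by
      rw [← Real.exp_add, ← Real.exp_add]
      ring_nf
      exact Real.exp_zero
    have h5 : Real.exp (-κ * x) * Real.exp (-κ * x) = Real.exp (-(2 * κ * x)) := by
      rw [← Real.exp_add]; congr 1; ring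
    have h6 := pow_mul_exp_neg_le hx.1 (by linarith : 0 < 2 * κ) N
    have hE := Real.exp_pos (-κ * x)
    have h7 : |q x - q 0| * A ≤ 2 * K * A := by gcongr
    have h8 : |q x - q 0| * Real.exp (-(2 * κ * x)) ≤ J := by
      calc |q x - q 0| * Real.exp (-(2 * κ * x)) ≤ C * x ^ N * Real.exp (-(2 * κ * x)) := by gcongr
        _ = C * (x ^ N * Real.exp (-(2 * κ * x))) := by ring
        _ ≤ J := by rw [hJ]; gcongr
    calc Real.exp (-κ * x) * (|q x - q 0| * (Real.exp (-κ * x) * ‖b x‖))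
        ≤ Real.exp (-κ * x) * (|q x - q 0| * (Real.exp (-κ * x) *
          (1 + A * Real.exp (2 * κ * x) / (2 * κ)))) := by gcongr
      _ = |q x - q 0| * (Real.exp (-κ * x) * Real.exp (-κ * x)) + |q x - q 0| * A / (2 * κ) *
          (Real.exp (-κ * x) * Real.exp (-κ * x) * Real.exp (2 * κ * x)) := by ring
      _ = |q x - q 0| * Real.exp (-(2 * κ * x)) + |q x - q 0| * A / (2 * κ) := by
          rw [h4, h5, mul_one]
      _ ≤ J + A / 2 := by
          have h9 : |q x - q 0| * A / (2 * κ) ≤ A / 2 := by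
            rw [div_le_div_iff₀ (by positivity) (by norm_num)]
            nlinarith
          linarith
  have hA2 : A ≤ J + A / 2 := by
    have h := (convex_Icc (0:ℝ) 1).norm_image_sub_le_of_norm_hasDerivWithin_le (f := a)
      (f' := fun x => ((Real.exp (-κ * x) : ℝ) : ℂ) * (((q x - q 0 : ℝ) : ℂ) * f x))
      (C := J + A / 2) (fun x _ => (hda x).hasDerivWithinAt) hbd
      (show (0:ℝ) ∈ Set.Icc (0:ℝ) 1 from ⟨le_rfl, zero_le_one⟩) hx0
    rw [ha0, sub_zero, sub_zero, Real.norm_of_nonneg hx0.1] at h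
    have h2 : (J + A / 2) * x0 ≤ J + A / 2 := by
      have : 0 ≤ J + A / 2 := by positivity
      nlinarith [hx0.2]
    exact h.trans h2
  have h1 := hmax' 1 ⟨zero_le_one, le_rfl⟩
  have h2 : ‖g 1 + κ * f 1‖ = Real.exp κ * ‖a 1‖ := by
    simp only [ha]
    rw [norm_mul, Complex.norm_real, Real.norm_of_nonneg (Real.exp_pos _).le, ← mul_assoc,
      ← Real.exp_add]
    simp
  rw [h2, mul_comm]
  have : ‖a 1‖ ≤ 2 * J := by linarith
  gcongr

/-- the entry `P = κ D - Γ` -/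
lemma decay_P {C : ℝ} (hC0 : 0 ≤ C) {N : ℕ}
    (hC : ∀ x ∈ Set.Icc (0:ℝ) 1, |q x - q 0| ≤ C * (1 - x) ^ N) {y κ F : ℝ} (hκ : 0 < κ)
    (hy : 0 < y) (hF0 : 0 ≤ F)
    (hκy : κ ^ 2 = y ^ 2 + q 0) {k : ℂ} (hk : k ^ 2 = -((y ^ 2 : ℝ) : ℂ))
    {f g : ℝ → ℂ} (hs : IsSol q k f g) (hg0 : g 0 = κ * f 0)
    (hF : ∀ x ∈ Set.Icc (0:ℝ) 1, ‖f x‖ ≤ F * Real.exp (y * x)) :
    ‖g 1 - κ * f 1‖ ≤ C * F * (N.factorial / y ^ N) * Real.exp y := by
  set a : ℝ → ℂ := fun x => ((Real.exp (κ * x) : ℝ) : ℂ) * (g x - κ * f x) with ha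
  have hκc : (κ : ℂ) ^ 2 = ((y ^ 2 : ℝ) : ℂ) + q 0 := by exact_mod_cast hκy
  have hda : ∀ x, HasDerivAt a (((Real.exp (κ * x) : ℝ) : ℂ) * (((q x - q 0 : ℝ) : ℂ) * f x)) x := by
    intro x
    have h := (hasDerivAt_expc κ x).mul ((hs.d2 x).sub ((hs.d1 x).const_mul (κ : ℂ)))
    refine h.congr_deriv ?_
    rw [hk]
    simp only [Pi.sub_apply]
    push_cast at hκc ⊢
    linear_combination (-Complex.exp (κ * x) * f x) * hκc
  have ha0 : a 0 = 0 := by simp only [ha, hg0]; simp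
  have hbd : ∀ x ∈ Set.Icc (0:ℝ) 1,
      ‖((Real.exp (κ * x) : ℝ) : ℂ) * (((q x - q 0 : ℝ) : ℂ) * f x)‖ ≤
        C * F * (N.factorial / y ^ N) * Real.exp (κ + y) := by
    intro x hx
    rw [norm_mul, norm_mul, Complex.norm_real, Complex.norm_real,
      Real.norm_of_nonneg (Real.exp_pos _).le, Real.norm_eq_abs]
    have h1 := hF x hx
    have h2 := hC x hx
    have h6 := pow_mul_exp_neg_le (x := 1 - x) (κ := κ + y) (by linarith [hx.2]) (by linarith) N
    have h7 : (N.factorial : ℝ) / (κ + y) ^ N ≤ N.factorial / y ^ N := by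
      gcongr
      linarith
    have h8 : Real.exp (κ * x) * Real.exp (y * x) =
        Real.exp (-((κ + y) * (1 - x))) * Real.exp (κ + y) := by
      rw [← Real.exp_add, ← Real.exp_add]; congr 1; ring
    have hx1 : 0 ≤ 1 - x := by linarith [hx.2]
    calc Real.exp (κ * x) * (|q x - q 0| * ‖f x‖)
        ≤ Real.exp (κ * x) * (C * (1 - x) ^ N * (F * Real.exp (y * x))) := by gcongr
      _ = C * F * ((1 - x) ^ N * (Real.exp (κ * x) * Real.exp (y * x))) := by ring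
      _ = C * F * ((1 - x) ^ N * Real.exp (-((κ + y) * (1 - x)))) * Real.exp (κ + y) := by
          rw [h8]; ring
      _ ≤ C * F * (N.factorial / y ^ N) * Real.exp (κ + y) := by
          have := h6.trans h7
          gcongr
  have h := (convex_Icc (0:ℝ) 1).norm_image_sub_le_of_norm_hasDerivWithin_le (f := a)
      (f' := fun x => ((Real.exp (κ * x) : ℝ) : ℂ) * (((q x - q 0 : ℝ) : ℂ) * f x))
      (C := C * F * (N.factorial / y ^ N) * Real.exp (κ + y))
      (fun x _ => (hda x).hasDerivWithinAt) hbd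
      (show (0:ℝ) ∈ Set.Icc (0:ℝ) 1 from ⟨le_rfl, zero_le_one⟩)
      (show (1:ℝ) ∈ Set.Icc (0:ℝ) 1 from ⟨zero_le_one, le_rfl⟩)
  rw [ha0, sub_zero, sub_zero, norm_one, mul_one] at h
  have h2 : ‖g 1 - κ * f 1‖ = Real.exp (-κ) * ‖a 1‖ := by
    simp only [ha]
    rw [norm_mul, Complex.norm_real, Real.norm_of_nonneg (Real.exp_pos _).le, ← mul_assoc,
      ← Real.exp_add]
    simp
  rw [h2]
  calc Real.exp (-κ) * ‖a 1‖ ≤ Real.exp (-κ) * (C * F * (N.factorial / y ^ N) * Real.exp (κ + y)) := by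
        gcongr
    _ = C * F * (N.factorial / y ^ N) * (Real.exp (-κ) * Real.exp (κ + y)) := by ring
    _ = _ := by
        rw [← Real.exp_add]
        congr 2
        ring

end Run7.h374
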