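import Pool.Agent.Run7.h374.Flat

/-! Decay along the imaginary axis and growth of `D = y₂'(1) - y₁(1)` and
`Γ = (q(0) - k²) y₂(1) - y₁'(1)`. -/

set_option autoImplicit false

namespace Run7.h374

open Filter Topology Metric MeasureTheory
open scoped Interval ComplexConjugate ContDiff

/-- `D` -/
noncomputable def DD (q : ℝ → ℝ) (k : ℂ) : ℂ := fz2 q 1 k - fy1 q 1 k

/-- `Γ` -/
noncomputable def GG (q : ℝ → ℝ) (k : ℂ) : ℂ := ((q 0 : ℂ) - k ^ 2) * fy2 q 1 k - fz1 q 1 k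

variable {q : ℝ → ℝ} {K : ℝ}

lemma norm_sin_le' (k : ℂ) : ‖Complex.sin k‖ ≤ Real.exp |k.im| := by
  have h5 := norm_cos_le (k - Real.pi / 2)
  rw [Complex.cos_sub_pi_div_two] at h5
  have e6 : (k - (Real.pi : ℂ) / 2).im = k.im := by
    rw [Complex.sub_im]
    have : ((Real.pi : ℂ) / 2).im = 0 := by
      rw [show ((Real.pi : ℂ) / 2) = ((Real.pi / 2 : ℝ) : ℂ) by push_cast; rfl]
      exact Complex.ofReal_im _
    rw [this, sub_zero]
  rwa [e6] at h5

lemma fz1_growth (hq : Continuous q) (hK : ∀ x, |q x| ≤ K) (k : ℂ) :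
    ‖fz1 q 1 k‖ ≤ (1 + K * Real.exp (1 + K)) * (1 + ‖k‖) * Real.exp |k.im| := by
  have hK0 : 0 ≤ K := (abs_nonneg _).trans (hK 0)
  have h2 := fz1_one_bound hq hK k
  have h3 : ‖k ^ 2 * Sx 1 k‖ ≤ ‖k‖ * Real.exp |k.im| := by
    have e : k ^ 2 * Sx 1 k = k * Complex.sin k := by
      have := Sx_mul k 1
      rw [Complex.ofReal_one, mul_one] at this
      rw [← this]; ring
    rw [e, norm_mul]
    have h4 := norm_sin_le' k
    gcongr
  have h4 : ‖fz1 q 1 k‖ ≤ ‖fz1 q 1 k + k ^ 2 * Sx 1 k‖ + ‖k ^ 2 * Sx 1 k‖ := by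
    have := norm_sub_le (fz1 q 1 k + k ^ 2 * Sx 1 k) (k ^ 2 * Sx 1 k)
    rwa [add_sub_cancel_right] at this
  have h5 := Real.exp_pos |k.im|
  have h6 := norm_nonneg k
  have h8 : 0 ≤ K * Real.exp (1 + K) := by positivity
  have h7 : (‖k‖ + K * Real.exp (1 + K)) ≤ (1 + K * Real.exp (1 + K)) * (1 + ‖k‖) := by nlinarith
  calc ‖fz1 q 1 k‖ ≤ (‖k‖ + K * Real.exp (1 + K)) * Real.exp |k.im| := by linarith
    _ ≤ _ := by gcongr

lemma fz2_growth (hq : Continuous q) (hK : ∀ x, |q x| ≤ K) (k : ℂ) :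
    ‖fz2 q 1 k‖ ≤ (1 + K * Real.exp (1 + K)) * Real.exp |k.im| := by
  have h2 := fz2_one_bound hq hK k
  have h3 := norm_Cx_le 1 k
  rw [abs_one, mul_one] at h3
  have h4 : ‖fz2 q 1 k‖ ≤ ‖fz2 q 1 k - Cx 1 k‖ + ‖Cx 1 k‖ := by
    have := norm_add_le (fz2 q 1 k - Cx 1 k) (Cx 1 k)
    rwa [sub_add_cancel] at this
  linarith

/-- growth of `D` and `Γ` -/
lemma growth_DG (hq : Continuous q) (hK : ∀ x, |q x| ≤ K) : ∃ C : ℝ, 0 ≤ C ∧ ∀ k : ℂ,
    ‖DD q k‖ ≤ C * (1 + ‖k‖) ^ 2 * Real.exp |k.im| ∧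
    ‖GG q k‖ ≤ C * (1 + ‖k‖) ^ 2 * Real.exp |k.im| := by
  have hK0 : 0 ≤ K := (abs_nonneg _).trans (hK 0)
  set E := Real.exp (1 + K) with hE
  have hE0 : 0 < E := Real.exp_pos _
  have hKE : 0 ≤ K * E := by positivity
  refine ⟨(K + 1) * E + (1 + K * E), by positivity, fun k => ?_⟩
  have h1 := fy1_one_bound hK k
  have h2 := fy2_one_bound hK k
  have h3 := fz1_growth hq hK k
  have h4 := fz2_growth hq hK k
  have hX := Real.exp_pos |k.im|
  set X := Real.exp |k.im| with hXd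
  have hn := norm_nonneg k
  rw [← hE] at h1 h2 h3 h4
  constructor
  · calc ‖DD q k‖ ≤ ‖fz2 q 1 k‖ + ‖fy1 q 1 k‖ := norm_sub_le _ _
      _ ≤ (1 + K * E) * X + E * X := add_le_add h4 h1
      _ = ((1 + K * E) + E) * 1 * X := by ring
      _ ≤ ((K + 1) * E + (1 + K * E)) * (1 + ‖k‖) ^ 2 * X := by
          have h6 : (1 + K * E) + E ≤ (K + 1) * E + (1 + K * E) := by nlinarith
          have h7 : (1:ℝ) ≤ (1 + ‖k‖) ^ 2 := one_le_pow₀ (by linarith)
          gcongr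
  · have h5 : ‖(q 0 : ℂ) - k ^ 2‖ ≤ K + ‖k‖ ^ 2 := by
      refine (norm_sub_le _ _).trans ?_
      rw [Complex.norm_real, Real.norm_eq_abs, norm_pow]
      have := hK 0
      linarith
    calc ‖GG q k‖ ≤ ‖((q 0 : ℂ) - k ^ 2) * fy2 q 1 k‖ + ‖fz1 q 1 k‖ := norm_sub_le _ _
      _ ≤ (K + ‖k‖ ^ 2) * (E * X) + (1 + K * E) * (1 + ‖k‖) * X := by
          rw [norm_mul]
          exact add_le_add (mul_le_mul h5 h2 (norm_nonneg _) (by positivity)) h3
      _ = ((K + ‖k‖ ^ 2) * E + (1 + K * E) * (1 + ‖k‖)) * X := by ring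
      _ ≤ ((K + 1) * E + (1 + K * E)) * (1 + ‖k‖) ^ 2 * X := by
          have h6 : K + ‖k‖ ^ 2 ≤ (K + 1) * (1 + ‖k‖) ^ 2 := by nlinarith
          have h7 : (1 + ‖k‖) ≤ (1 + ‖k‖) ^ 2 := by nlinarith
          have h8 : (K + ‖k‖ ^ 2) * E + (1 + K * E) * (1 + ‖k‖) ≤
              ((K + 1) * (1 + ‖k‖) ^ 2) * E + (1 + K * E) * (1 + ‖k‖) ^ 2 := by gcongr
          calc _ ≤ (((K + 1) * (1 + ‖k‖) ^ 2) * E + (1 + K * E) * (1 + ‖k‖) ^ 2) * X := by gcongr
            _ = _ := by ring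

/-- rapid decay of `D` and `Γ` along the imaginary axis -/
theorem decay_flat (hq : Continuous q) (hK : ∀ x, |q x| ≤ K) (hflat : FlatEnds q) (N : ℕ) :
    ∃ C2 : ℝ, ∀ y : ℝ, 1 ≤ y → ‖DD q (y * Complex.I)‖ * y ^ N ≤ C2 * Real.exp y ∧
      ‖GG q (y * Complex.I)‖ * y ^ N ≤ C2 * Real.exp y := by
  have hK0 : 0 ≤ K := (abs_nonneg _).trans (hK 0)
  obtain ⟨C0, hC00, hC0⟩ := growth_DG hq hK
  obtain ⟨C1, hC10, hC1⟩ := hflat (N + 1)
  obtain ⟨C3, hC30, hC3⟩ := hflat N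
  set Y0 : ℝ := 2 + 4 * K with hY0
  set E := Real.exp (1 + K) with hE
  have hE0 : 0 < E := Real.exp_pos _
  set B1 : ℝ := C0 * (1 + Y0) ^ 2 * Y0 ^ N with hB1
  set B2 : ℝ := C1 * ((2 + K) * E) * (N + 1).factorial with hB2
  set B3 : ℝ := 2 * C3 * N.factorial * Real.exp K with hB3
  have hB10 : 0 ≤ B1 := by positivity
  have hB20 : 0 ≤ B2 := by positivity
  have hB30 : 0 ≤ B3 := by positivity
  refine ⟨B1 + B2 + B3, fun y hy => ?_⟩
  have him : ((y : ℂ) * Complex.I).im = y := by simp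
  have hnorm : ‖(y : ℂ) * Complex.I‖ = y := by
    rw [norm_mul, Complex.norm_I, mul_one, Complex.norm_real, Real.norm_of_nonneg (by linarith)]
  have hX := Real.exp_pos y
  rcases le_total y Y0 with hyY | hyY
  · have key : ∀ F : ℂ, ‖F‖ ≤ C0 * (1 + ‖(y : ℂ) * Complex.I‖) ^ 2 *
        Real.exp |((y : ℂ) * Complex.I).im| → ‖F‖ * y ^ N ≤ (B1 + B2 + B3) * Real.exp y := by
      intro F hF
      rw [hnorm, him, abs_of_nonneg (by linarith : (0:ℝ) ≤ y)] at hF
      calc ‖F‖ * y ^ N ≤ C0 * (1 + y) ^ 2 * Real.exp y * y ^ N := by gcongr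
        _ ≤ C0 * (1 + Y0) ^ 2 * Real.exp y * Y0 ^ N := by gcongr
        _ = B1 * Real.exp y := by rw [hB1]; ring
        _ ≤ _ := by gcongr; linarith
    exact ⟨key _ (hC0 _).1, key _ (hC0 _).2⟩
  · set k : ℂ := (y : ℂ) * Complex.I with hk
    have hk2 : k ^ 2 = -((y ^ 2 : ℝ) : ℂ) := by
      rw [hk, mul_pow, Complex.I_sq]; push_cast; ring
    have hq0 := abs_le.1 (hK 0)
    have hy0 : 0 < y := by linarith
    have hpos : 0 ≤ y ^ 2 + q 0 := by nlinarith
    set κ : ℝ := Real.sqrt (y ^ 2 + q 0) with hκ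
    have hκ2 : κ ^ 2 = y ^ 2 + q 0 := Real.sq_sqrt hpos
    have hκ1 : y / 2 ≤ κ := by
      apply Real.le_sqrt_of_sq_le
      nlinarith
    have hκy : κ ≤ y + K := by
      rw [hκ]
      apply Real.sqrt_le_iff.2
      constructor
      · linarith
      · nlinarith
    have hκ0 : 0 < κ := by linarith
    have hκ11 : 1 ≤ κ := by nlinarith
    have hs1 := isSol_comb (sol1 hq hK k) (sol2' hq hK k) 1 (κ : ℂ)
    have hs2 := isSol_comb (sol1 hq hK k) (sol2' hq hK k) 1 (-κ : ℂ)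
    have hP := decay_P (y := y) (κ := κ) (F := (2 + K) * y * E) hC10 (fun x hx => (hC1 x hx).2) hκ0 hy0
      (by positivity) hκ2 hk2 hs1 (by
        simp only [fy1_zero hq hK, fy2_zero hq hK, fz1_zero, fz2_zero]; ring) (by
        intro x hx
        have h1 := fy1_bound hK x k
        have h2 := fy2_bound hK x k
        rw [him, abs_of_pos hy0, abs_of_nonneg hx.1] at h1 h2
        have h3 : Real.exp ((y + 1 + K) * x) ≤ E * Real.exp (y * x) := by
          rw [hE, ← Real.exp_add]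
          apply Real.exp_le_exp.2
          nlinarith [hx.1, hx.2]
        calc ‖1 * fy1 q x k + (κ : ℂ) * fy2 q x k‖ ≤ ‖fy1 q x k‖ + κ * ‖fy2 q x k‖ := by
              refine (norm_add_le _ _).trans ?_
              rw [one_mul, norm_mul, Complex.norm_real, Real.norm_of_nonneg hκ0.le]
          _ ≤ Real.exp ((y + 1 + K) * x) + κ * Real.exp ((y + 1 + K) * x) := by gcongr
          _ = (1 + κ) * Real.exp ((y + 1 + K) * x) := by ring
          _ ≤ ((2 + K) * y) * (E * Real.exp (y * x)) := by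
              have : 1 + κ ≤ (2 + K) * y := by nlinarith
              gcongr
          _ = _ := by ring)
    have hQ := decay_Q hK hC30 (fun x hx => (hC3 x hx).1) hκ0 hκ2 (by linarith) hk2 hs2 (by
        simp only [fy1_zero hq hK, fy2_zero hq hK]; ring) (by
        simp only [fz1_zero, fz2_zero]; ring)
    set P : ℂ := (1 * fz1 q 1 k + (κ : ℂ) * fz2 q 1 k) - κ * (1 * fy1 q 1 k + (κ : ℂ) * fy2 q 1 k) with hPd
    set Q : ℂ := (1 * fz1 q 1 k + (-κ : ℂ) * fz2 q 1 k) + κ * (1 * fy1 q 1 k + (-κ : ℂ) * fy2 q 1 k) with hQd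
    have hκc : (κ : ℂ) ^ 2 = (q 0 : ℂ) - k ^ 2 := by
      rw [hk2, ← Complex.ofReal_pow, hκ2]; push_cast; ring
    have hG : GG q k = -(P + Q) / 2 := by
      unfold GG
      rw [← hκc, hPd, hQd]; ring
    have hD : DD q k = (P - Q) / (2 * κ) := by
      have : (κ : ℂ) ≠ 0 := by exact_mod_cast hκ0.ne'
      unfold DD
      rw [eq_div_iff (by simpa using this), hPd, hQd]; ring
    have hP2 : ‖P‖ * y ^ N ≤ B2 * Real.exp y := by
      calc ‖P‖ * y ^ N ≤ C1 * ((2 + K) * y * E) * ((N + 1).factorial / y ^ (N + 1)) * Real.exp y * y ^ N := by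
            gcongr
        _ = B2 * Real.exp y := by
            rw [hB2, pow_succ]
            field_simp
    have hQ2 : ‖Q‖ * y ^ N ≤ B3 * Real.exp y := by
      have h1 : Real.exp κ ≤ Real.exp K * Real.exp y := by
        rw [← Real.exp_add]; apply Real.exp_le_exp.2; linarith
      have h2 : (N.factorial : ℝ) / (2 * κ) ^ N ≤ N.factorial / y ^ N := by
        gcongr
        linarith
      calc ‖Q‖ * y ^ N ≤ 2 * (C3 * (N.factorial / (2 * κ) ^ N)) * Real.exp κ * y ^ N := by gcongr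
        _ ≤ 2 * (C3 * (N.factorial / y ^ N)) * (Real.exp K * Real.exp y) * y ^ N := by gcongr
        _ = B3 * Real.exp y := by
            rw [hB3]; field_simp
    have hfin : ∀ F : ℂ, ‖F‖ ≤ ‖P‖ + ‖Q‖ → ‖F‖ * y ^ N ≤ (B1 + B2 + B3) * Real.exp y := by
      intro F hF
      have h1 : ‖F‖ * y ^ N ≤ (‖P‖ + ‖Q‖) * y ^ N := by gcongr
      have h2 : 0 ≤ B1 * Real.exp y := by positivity
      nlinarith
    constructor
    · apply hfin
      rw [hD, norm_div, norm_mul, Complex.norm_real, Real.norm_of_nonneg hκ0.le, Complex.norm_ofNat]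
      rw [div_le_iff₀ (by positivity)]
      have h1 := norm_sub_le P Q
      have h2 := norm_nonneg P
      have h3 := norm_nonneg Q
      nlinarith
    · apply hfin
      rw [hG, norm_div, norm_neg, Complex.norm_ofNat]
      have h1 := norm_add_le P Q
      have h2 := norm_nonneg P
      have h3 := norm_nonneg Q
      linarith

end Run7.h374
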