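import Pool.Agent.Run7.h374.Prod

/-! Lower bounds for `∏ (1 - k² / t n)` with `t n = π² (n + 1)² + O(1)`. -/

set_option autoImplicit false

namespace Run7.h374

open Filter Topology Metric

/-- `π² (n + 1)²` -/
noncomputable def sq (n : ℕ) : ℝ := Real.pi ^ 2 * ((n : ℝ) + 1) ^ 2

lemma sq_pos (n : ℕ) : 0 < sq n := by unfold sq; positivity

lemma exp_neg_two_le {x : ℝ} (h0 : 0 ≤ x) (h1 : x ≤ 1 / 2) : Real.exp (-(2 * x)) ≤ 1 - x := by
  have h2 := Real.add_one_le_exp (2 * x)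
  rw [Real.exp_neg]
  have h3 : (Real.exp (2 * x))⁻¹ ≤ (1 + 2 * x)⁻¹ := by
    apply inv_anti₀ (by linarith)
    linarith
  refine h3.trans ?_
  rw [inv_le_iff_one_le_mul₀ (by linarith)]
  nlinarith

lemma summable_sq_inv : Summable fun n => 1 / sq n := by
  have h1 : Summable fun n : ℕ => (1 / Real.pi ^ 2) * (1 / ((n + 1 : ℕ) : ℝ) ^ 2) :=
    (((summable_nat_add_iff 1).2 (Real.summable_one_div_nat_pow.2 (by norm_num : 1 < 2)))).mul_left _
  refine h1.congr fun n => ?_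
  unfold sq
  push_cast
  field_simp

/-- comparison with the sine -/
theorem psi_lower {t : ℕ → ℝ} (ht : ∀ n, 0 < t n) (hs : Summable fun n => (t n)⁻¹) {M : ℝ}
    (hM0 : 0 < M) (hM : ∀ n, |t n - sq n| ≤ M) {k : ℂ} {C : ℝ}
    (h2M : ∀ n, 2 * M ≤ ‖(sq n : ℂ) - k ^ 2‖) (hsum : Summable fun n => 1 / ‖(sq n : ℂ) - k ^ 2‖)
    (hC : ∑' n, 1 / ‖(sq n : ℂ) - k ^ 2‖ ≤ C) :
    Real.exp (-(2 * M * C + M * ∑' n, 1 / sq n)) * ‖Complex.sin k‖ ≤
      ‖k‖ * ‖prodAll t (k ^ 2)‖ := by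
  set c := Real.exp (-(2 * M * C + M * ∑' n, 1 / sq n)) with hc
  have hπ : (Real.pi : ℂ) ≠ 0 := by exact_mod_cast Real.pi_ne_zero
  have hpos : ∀ n, 0 < ‖(sq n : ℂ) - k ^ 2‖ := fun n => lt_of_lt_of_le (by linarith) (h2M n)
  have hterm : ∀ j : ℕ, ‖(1:ℂ) - (k / Real.pi) ^ 2 / ((j : ℂ) + 1) ^ 2‖ *
      Real.exp (-(2 * M * (1 / ‖(sq j : ℂ) - k ^ 2‖) + M * (1 / sq j))) ≤
      ‖1 + -(k ^ 2 / (t j : ℂ))‖ := by
    intro j
    have hsj := sq_pos j
    have htj := ht j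
    have hsjC : (sq j : ℂ) ≠ 0 := by exact_mod_cast hsj.ne'
    have htjC : (t j : ℂ) ≠ 0 := by exact_mod_cast htj.ne'
    have hdC : (sq j : ℂ) - k ^ 2 ≠ 0 := norm_pos_iff.1 (hpos j)
    have e1 : (1:ℂ) - (k / Real.pi) ^ 2 / ((j : ℂ) + 1) ^ 2 = 1 - k ^ 2 / (sq j : ℂ) := by
      unfold sq
      have hj1 : ((j : ℂ) + 1) ≠ 0 := by exact_mod_cast (Nat.succ_ne_zero j)
      push_cast
      field_simp
    have e2 : 1 + -(k ^ 2 / (t j : ℂ)) = (1 - k ^ 2 / (sq j : ℂ)) *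
        (1 + ((t j : ℂ) - sq j) / ((sq j : ℂ) - k ^ 2)) * ((sq j : ℂ) / (t j : ℂ)) := by
      field_simp
      ring
    rw [e1, e2, norm_mul, norm_mul, mul_assoc ‖1 - k ^ 2 / (sq j : ℂ)‖]
    apply mul_le_mul_of_nonneg_left _ (norm_nonneg _)
    rw [neg_add, Real.exp_add]
    apply mul_le_mul _ _ (Real.exp_pos _).le (norm_nonneg _)
    · set x := M * (1 / ‖(sq j : ℂ) - k ^ 2‖) with hx
      have hx0 : 0 ≤ x := by have := hpos j; positivity
      have hx1 : x ≤ 1 / 2 := by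
        rw [hx, mul_one_div, div_le_iff₀ (hpos j)]
        have := h2M j
        linarith
      have h1 := exp_neg_two_le hx0 hx1
      have h2 : ‖((t j : ℂ) - sq j) / ((sq j : ℂ) - k ^ 2)‖ ≤ x := by
        rw [norm_div, ← Complex.ofReal_sub, Complex.norm_real, Real.norm_eq_abs, hx, mul_one_div]
        have := hM j
        have := hpos j
        gcongr
      have h3 : 1 - x ≤ ‖1 + ((t j : ℂ) - sq j) / ((sq j : ℂ) - k ^ 2)‖ := by
        have h4 := norm_sub_norm_le (1:ℂ) (-(((t j : ℂ) - sq j) / ((sq j : ℂ) - k ^ 2)))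
        rw [sub_neg_eq_add, norm_neg, norm_one] at h4
        linarith
      refine le_trans (le_of_eq ?_) (h1.trans h3)
      congr 1
      ring
    · rw [norm_div, Complex.norm_real, Complex.norm_real, Real.norm_of_nonneg hsj.le,
        Real.norm_of_nonneg htj.le]
      have h1 : t j ≤ sq j + M := by
        have := (abs_le.1 (hM j)).2
        linarith
      have h2 : sq j / (sq j + M) ≤ sq j / t j := by gcongr
      refine le_trans ?_ h2
      have h3 := Real.add_one_le_exp (M * (1 / sq j))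
      rw [Real.exp_neg]
      have h4 : sq j / (sq j + M) = (M * (1 / sq j) + 1)⁻¹ := by
        field_simp
        ring
      rw [h4]
      apply inv_anti₀ _ h3
      have : 0 ≤ M * (1 / sq j) := by positivity
      linarith
  have hfin : ∀ N : ℕ, c * ‖∏ j ∈ Finset.range N, ((1:ℂ) - (k / Real.pi) ^ 2 / ((j : ℂ) + 1) ^ 2)‖ ≤
      ‖∏ j ∈ Finset.range N, (1 + -(k ^ 2 / (t j : ℂ)))‖ := by
    intro N
    rw [norm_prod, norm_prod]
    have h1 : c ≤ ∏ j ∈ Finset.range N,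
        Real.exp (-(2 * M * (1 / ‖(sq j : ℂ) - k ^ 2‖) + M * (1 / sq j))) := by
      rw [← Real.exp_sum, hc]
      apply Real.exp_le_exp.2
      rw [Finset.sum_neg_distrib, Finset.sum_add_distrib, ← Finset.mul_sum, ← Finset.mul_sum]
      have a1 : ∑ j ∈ Finset.range N, 1 / ‖(sq j : ℂ) - k ^ 2‖ ≤ C :=
        (hsum.sum_le_tsum _ (fun _ _ => by positivity)).trans hC
      have a2 : ∑ j ∈ Finset.range N, 1 / sq j ≤ ∑' n, 1 / sq n :=
        summable_sq_inv.sum_le_tsum _ (fun n _ => by have := sq_pos n; positivity)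
      have a3 : 2 * M * ∑ j ∈ Finset.range N, 1 / ‖(sq j : ℂ) - k ^ 2‖ ≤ 2 * M * C := by gcongr
      have a4 : M * ∑ j ∈ Finset.range N, 1 / sq j ≤ M * ∑' n, 1 / sq n := by gcongr
      linarith
    calc c * ∏ j ∈ Finset.range N, ‖(1:ℂ) - (k / Real.pi) ^ 2 / ((j : ℂ) + 1) ^ 2‖
        ≤ (∏ j ∈ Finset.range N, Real.exp (-(2 * M * (1 / ‖(sq j : ℂ) - k ^ 2‖) + M * (1 / sq j)))) *
          ∏ j ∈ Finset.range N, ‖(1:ℂ) - (k / Real.pi) ^ 2 / ((j : ℂ) + 1) ^ 2‖ := by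
          gcongr
      _ = ∏ j ∈ Finset.range N, (‖(1:ℂ) - (k / Real.pi) ^ 2 / ((j : ℂ) + 1) ^ 2‖ *
          Real.exp (-(2 * M * (1 / ‖(sq j : ℂ) - k ^ 2‖) + M * (1 / sq j)))) := by
          rw [← Finset.prod_mul_distrib]
          apply Finset.prod_congr rfl
          intro j _; ring
      _ ≤ _ := Finset.prod_le_prod (fun j _ => by positivity) fun j _ => hterm j
  have hl := Complex.tendsto_euler_sin_prod (k / Real.pi)
  rw [mul_div_cancel₀ _ hπ] at hl
  have hl2 : Tendsto (fun N : ℕ => c * (‖k‖ * ‖∏ j ∈ Finset.range N,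
      ((1:ℂ) - (k / Real.pi) ^ 2 / ((j : ℂ) + 1) ^ 2)‖)) atTop (𝓝 (c * ‖Complex.sin k‖)) := by
    have := (hl.norm).const_mul c
    refine this.congr fun N => ?_
    rw [norm_mul]
  have hr : Tendsto (fun N : ℕ => ‖k‖ * ‖∏ j ∈ Finset.range N, (1 + -(k ^ 2 / (t j : ℂ)))‖) atTop
      (𝓝 (‖k‖ * ‖prodAll t (k ^ 2)‖)) := by
    have hm : Multipliable fun j => (1 + -(k ^ 2 / (t j : ℂ))) :=
      multipliable_one_add_of_summable (summable_norm_div ht hs (k ^ 2))
    exact (hm.hasProd.tendsto_prod_nat.norm).const_mul _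
  refine le_of_tendsto_of_tendsto' hl2 hr fun N => ?_
  have := hfin N
  have hk := norm_nonneg k
  calc c * (‖k‖ * ‖∏ j ∈ Finset.range N, ((1:ℂ) - (k / Real.pi) ^ 2 / ((j : ℂ) + 1) ^ 2)‖)
      = ‖k‖ * (c * ‖∏ j ∈ Finset.range N, ((1:ℂ) - (k / Real.pi) ^ 2 / ((j : ℂ) + 1) ^ 2)‖) := by ring
    _ ≤ _ := by gcongr

/-- sine away from the real axis -/
lemma norm_sin_ge {k : ℂ} (h : 1 ≤ |k.im|) : Real.exp |k.im| / 4 ≤ ‖Complex.sin k‖ := by
  have h1 : ‖Complex.sin k‖ = ‖Complex.exp (-k * Complex.I) - Complex.exp (k * Complex.I)‖ / 2 := by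
    rw [Complex.sin, norm_div, norm_mul, Complex.norm_I, mul_one]
    simp
  have e1 : ‖Complex.exp (-k * Complex.I)‖ = Real.exp k.im := by
    rw [Complex.norm_exp]; simp
  have e2 : ‖Complex.exp (k * Complex.I)‖ = Real.exp (-k.im) := by
    rw [Complex.norm_exp]; simp
  have h2 : Real.exp |k.im| - Real.exp (-|k.im|) ≤
      ‖Complex.exp (-k * Complex.I) - Complex.exp (k * Complex.I)‖ := by
    rcases le_total 0 k.im with h0 | h0
    · rw [abs_of_nonneg h0, ← e1, ← e2]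
      exact norm_sub_norm_le _ _
    · rw [abs_of_nonpos h0, neg_neg, ← e1, ← e2, norm_sub_rev]
      exact norm_sub_norm_le _ _
  have h3 : 2 * Real.exp (-|k.im|) ≤ Real.exp |k.im| := by
    have h4 : (2:ℝ) ≤ Real.exp (2 * |k.im|) := by
      have := Real.add_one_le_exp (2 * |k.im|)
      linarith
    have h5 : Real.exp |k.im| = Real.exp (2 * |k.im|) * Real.exp (-|k.im|) := by
      rw [← Real.exp_add]; congr 1; ring
    rw [h5]
    gcongr
  rw [h1]
  linarith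

lemma norm_sin_vertical {N : ℤ} {k : ℂ} (h : k.re = (N + 1 / 2) * Real.pi) :
    Real.exp |k.im| / 2 ≤ ‖Complex.sin k‖ := by
  have e1 : k = (k.re : ℂ) + (k.im : ℂ) * Complex.I := (Complex.re_add_im k).symm
  have hcos : Real.cos k.re = 0 := by
    rw [Real.cos_eq_zero_iff]
    exact ⟨N, by rw [h]; ring⟩
  have hsin : |Real.sin k.re| = 1 := by
    have := Real.sin_sq_add_cos_sq k.re
    rw [hcos] at this
    have h2 : Real.sin k.re ^ 2 = 1 := by linarith
    rw [← sq_abs] at h2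
    have h3 := abs_nonneg (Real.sin k.re)
    nlinarith
  have e2 : Complex.sin k = (Real.sin k.re : ℂ) * (Real.cosh k.im : ℂ) := by
    rw [e1, Complex.sin_add, Complex.cos_mul_I, Complex.sin_mul_I]
    simp only [Complex.add_re, Complex.ofReal_re, Complex.mul_re, Complex.I_re, mul_zero,
      Complex.ofReal_im, Complex.I_im, mul_one, sub_self, add_zero, Complex.add_im, Complex.mul_im,
      zero_add]
    rw [← Complex.ofReal_sin, ← Complex.ofReal_cos, hcos, ← Complex.ofReal_cosh]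
    simp
  rw [e2, norm_mul, Complex.norm_real, Complex.norm_real, Real.norm_eq_abs, hsin, one_mul,
    Real.norm_of_nonneg (Real.cosh_pos _).le, ← Real.cosh_abs, Real.cosh_eq]
  have := Real.exp_pos (-|k.im|)
  linarith

end Run7.h374
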