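import Pool.Agent.Run7.h374.Uniq
import Pool.Agent.Run7.h374.SinLow

/-! Floquet solutions on the imaginary axis and comparison of two potentials with the same jet. -/

set_option autoImplicit false

namespace Run7.h374

open Filter Topology Metric MeasureTheory
open scoped Interval ComplexConjugate

/-- the larger root of `Λ² - Δ Λ + 1` -/
noncomputable def LamOf (Δ : ℝ) : ℝ := (Δ + Real.sqrt (Δ ^ 2 - 4)) / 2

lemma LamOf_eq {Δ : ℝ} (h : 2 ≤ Δ) : LamOf Δ ^ 2 - Δ * LamOf Δ + 1 = 0 := by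
  unfold LamOf
  have h1 : Real.sqrt (Δ ^ 2 - 4) ^ 2 = Δ ^ 2 - 4 := Real.sq_sqrt (by nlinarith)
  linear_combination (1 / 4 : ℝ) * h1

lemma LamOf_bounds {Δ : ℝ} (h : 2 ≤ Δ) : Δ / 2 ≤ LamOf Δ ∧ LamOf Δ ≤ Δ := by
  unfold LamOf
  have h1 := Real.sqrt_nonneg (Δ ^ 2 - 4)
  have h2 : Real.sqrt (Δ ^ 2 - 4) ≤ Δ := by
    apply Real.sqrt_le_iff.2
    constructor
    · linarith
    · linarith
  constructor <;> linarith

/-- the multiplier -/
noncomputable def bigL (r : ℝ → ℝ) (y : ℝ) : ℂ :=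
  ((LamOf (fy1 r 1 (y * Complex.I) + fz2 r 1 (y * Complex.I)).re : ℝ) : ℂ)

/-- slope of the growing Floquet solution -/
noncomputable def mpl (r : ℝ → ℝ) (y : ℝ) : ℂ :=
  (bigL r y - fy1 r 1 (y * Complex.I)) / fy2 r 1 (y * Complex.I)

/-- slope of the decaying Floquet solution -/
noncomputable def mmi (r : ℝ → ℝ) (y : ℝ) : ℂ :=
  ((bigL r y)⁻¹ - fy1 r 1 (y * Complex.I)) / fy2 r 1 (y * Complex.I)

variable {p q r : ℝ → ℝ} {K C : ℝ}

lemma Sx_yI (y : ℝ) (hy : 1 ≤ y) : Real.exp y / (4 * y) ≤ ‖Sx 1 (y * Complex.I)‖ := by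
  have h1 := Sx_mul ((y : ℂ) * Complex.I) 1
  rw [Complex.ofReal_one, mul_one] at h1
  have h2 : ‖(y : ℂ) * Complex.I‖ * ‖Sx 1 (y * Complex.I)‖ = ‖Complex.sin (y * Complex.I)‖ := by
    rw [← norm_mul, h1]
  rw [norm_yI (by linarith)] at h2
  have h3 := norm_sin_ge (k := (y : ℂ) * Complex.I) (by rw [im_yI, abs_of_nonneg (by linarith)]; exact hy)
  rw [im_yI, abs_of_nonneg (by linarith), ← h2] at h3
  rw [div_le_iff₀ (by linarith)]
  linarith

lemma trace_lower (h : AsyC r C) {y : ℝ} (hy : 8 * C ≤ y) :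
    Real.exp y / 2 ≤ (fy1 r 1 (y * Complex.I) + fz2 r 1 (y * Complex.I)).re := by
  have hC := h.one_le
  have hy1 : 1 ≤ y := by linarith
  have hn := norm_yI (y := y) (by linarith)
  have hab : |((y : ℂ) * Complex.I).im| = y := by rw [im_yI y, abs_of_nonneg (by linarith)]
  have h01 : (1:ℝ) ∈ Set.Icc (0:ℝ) 1 := ⟨zero_le_one, le_rfl⟩
  obtain ⟨a, b, c, d, -⟩ := h.all 1 h01 _ (yI_ne hy1)
  rw [hab, hn, mul_one] at a d
  have hcx : Cx 1 (y * Complex.I) = ((Real.cosh y : ℝ) : ℂ) := by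
    unfold Cx
    rw [Complex.ofReal_one, mul_one, Complex.cos_mul_I, Complex.ofReal_cosh]
  rw [hcx] at a d
  have a1 := (Complex.abs_re_le_norm _).trans a
  have d1 := (Complex.abs_re_le_norm _).trans d
  rw [Complex.sub_re, Complex.ofReal_re] at a1 d1
  have a2 := (abs_le.1 a1).1
  have d2 := (abs_le.1 d1).1
  have h2 : C * Real.exp y / y ≤ Real.exp y / 4 := by
    have hX := Real.exp_pos y
    rw [div_le_div_iff₀ (by linarith) (by norm_num)]
    nlinarith
  have h3 : Real.exp y / 2 ≤ Real.cosh y := by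
    rw [Real.cosh_eq]
    have := Real.exp_pos (-y)
    linarith
  rw [Complex.add_re]
  linarith

lemma b_lower (h : AsyC r C) {y : ℝ} (hy : 8 * C ≤ y) :
    Real.exp y / (8 * y) ≤ ‖fy2 r 1 (y * Complex.I)‖ := by
  have hC := h.one_le
  have hy1 : 1 ≤ y := by linarith
  have hn := norm_yI (y := y) (by linarith)
  have hab : |((y : ℂ) * Complex.I).im| = y := by rw [im_yI y, abs_of_nonneg (by linarith)]
  have h01 : (1:ℝ) ∈ Set.Icc (0:ℝ) 1 := ⟨zero_le_one, le_rfl⟩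
  obtain ⟨a, b, c, d, -⟩ := h.all 1 h01 _ (yI_ne hy1)
  rw [hab, hn, mul_one] at b
  have h1 := Sx_yI y hy1
  have h2 : ‖Sx 1 (y * Complex.I)‖ ≤ ‖fy2 r 1 (y * Complex.I)‖ +
      ‖fy2 r 1 (y * Complex.I) - Sx 1 (y * Complex.I)‖ := by
    have := norm_sub_le (fy2 r 1 (y * Complex.I)) (fy2 r 1 (y * Complex.I) - Sx 1 (y * Complex.I))
    rwa [sub_sub_cancel] at this
  have hX := Real.exp_pos y
  have h3 : C * Real.exp y / y ^ 2 ≤ Real.exp y / (8 * y) := by
    rw [div_le_div_iff₀ (by positivity) (by positivity)]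
    have : 8 * C * y ≤ y * y := by nlinarith
    nlinarith
  have h4 : Real.exp y / (4 * y) = Real.exp y / (8 * y) + Real.exp y / (8 * y) := by
    field_simp; norm_num
  linarith

/-- the algebra of the multipliers -/
structure FlData (a b c d L m n : ℂ) : Prop where
  e1 : a + b * m = L
  e2 : c + d * m = L * m
  e3 : a + b * n = L⁻¹
  e4 : c + d * n = L⁻¹ * n

lemma FlData.facts {a b c d L m n : ℂ} (h : FlData a b c d L m n) (hw : a * d - c * b = 1) :
    b * (m - n) = L - L⁻¹ ∧ d - a = b * (m + n) ∧ c = -(b * (m * n)) := by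
  obtain ⟨e1, e2, e3, e4⟩ := h
  have h1 : b * (m - n) = L - L⁻¹ := by linear_combination e1 - e3
  have hd : d = L⁻¹ + b * m := by
    have h2 : L * (d - b * m) = 1 := by
      linear_combination hw - d * e1 + b * e2
    have h3 : d - b * m = L⁻¹ := eq_inv_of_mul_eq_one_right h2
    linear_combination h3
  refine ⟨h1, ?_, ?_⟩
  · linear_combination hd - e3
  · linear_combination e2 - m * hd - m * h1

lemma flData_of (hr : Continuous r) (hK : ∀ x, |r x| ≤ K) {y : ℝ}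
    (hΔ : 2 ≤ (fy1 r 1 (y * Complex.I) + fz2 r 1 (y * Complex.I)).re)
    (hb : fy2 r 1 (y * Complex.I) ≠ 0) :
    FlData (fy1 r 1 (y * Complex.I)) (fy2 r 1 (y * Complex.I)) (fz1 r 1 (y * Complex.I))
      (fz2 r 1 (y * Complex.I)) (bigL r y) (mpl r y) (mmi r y) := by
  set k : ℂ := (y : ℂ) * Complex.I with hk
  have hw := wronsk_one hr hK k 1
  have hk2 : conj (k ^ 2) = k ^ 2 := by
    have : k ^ 2 = ((-(y ^ 2) : ℝ) : ℂ) := by
      rw [hk, mul_pow, Complex.I_sq]; push_cast; ring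
    rw [this, Complex.conj_ofReal]
  obtain ⟨c1, c2, c3, c4⟩ := fund_conj hr hK hk2 1
  set Δ : ℝ := (fy1 r 1 k + fz2 r 1 k).re with hΔd
  have hΔc : (Δ : ℂ) = fy1 r 1 k + fz2 r 1 k := by
    apply real_of_conj
    rw [map_add, c1, c4]
  have hL2 : bigL r y ^ 2 - (fy1 r 1 k + fz2 r 1 k) * bigL r y + 1 = 0 := by
    have h1 := LamOf_eq hΔ
    have h2 : ((LamOf Δ : ℝ) : ℂ) ^ 2 - (Δ : ℂ) * ((LamOf Δ : ℝ) : ℂ) + 1 = 0 := by
      exact_mod_cast h1
    rw [← hΔc]
    exact h2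
  have hL0 : bigL r y ≠ 0 := by
    intro h
    rw [h] at hL2
    norm_num at hL2
  have hLi : (bigL r y)⁻¹ ^ 2 - (fy1 r 1 k + fz2 r 1 k) * (bigL r y)⁻¹ + 1 = 0 := by
    field_simp
    linear_combination hL2
  constructor
  · unfold mpl
    rw [← hk]
    field_simp
    ring
  · unfold mpl
    rw [← hk]
    field_simp
    linear_combination -hL2 - hw
  · unfold mmi
    rw [← hk, mul_div_cancel₀ _ hb]
    ring
  · unfold mmi
    rw [← hk]
    have h1 : ((bigL r y)⁻¹ - fy1 r 1 k) / fy2 r 1 k * fy2 r 1 k = (bigL r y)⁻¹ - fy1 r 1 k :=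
      div_mul_cancel₀ _ hb
    apply mul_left_cancel₀ hb
    set n := ((bigL r y)⁻¹ - fy1 r 1 k) / fy2 r 1 k with hn
    linear_combination (fz2 r 1 k - (bigL r y)⁻¹) * h1 - hLi - hw

lemma sol_unique_one (hr : Continuous r) (hK : ∀ x, |r x| ≤ K) {k : ℂ} {f g f' g' : ℝ → ℂ}
    (h : IsSol r k f g) (h' : IsSol r k f' g') (h1 : f 1 = f' 1) (h1' : g 1 = g' 1) (x : ℝ) :
    f x = f' x := by
  have a := sol_rep hr hK h 1
  have b := sol_rep hr hK h' 1
  rw [h1, h1'] at a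
  obtain ⟨a1, a2⟩ := a
  obtain ⟨b1, b2⟩ := b
  have hw := wronsk_one hr hK k 1
  have e1 : f 0 = f' 0 := by
    linear_combination (-f 0 + f' 0) * hw - fz2 r 1 k * (a1 - b1) + fy2 r 1 k * (a2 - b2)
  have e2 : g 0 = g' 0 := by
    linear_combination (-g 0 + g' 0) * hw + fz1 r 1 k * (a1 - b1) - fy1 r 1 k * (a2 - b2)
  exact (sol_unique hr hK h h' e1 e2 x).1

/-- the bounds at height `y` -/
structure FlB (r : ℝ → ℝ) (C y : ℝ) : Prop where
  fl : FlData (fy1 r 1 (y * Complex.I)) (fy2 r 1 (y * Complex.I)) (fz1 r 1 (y * Complex.I))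
      (fz2 r 1 (y * Complex.I)) (bigL r y) (mpl r y) (mmi r y)
  L_ne : bigL r y ≠ 0
  L_lo : Real.exp y / 4 ≤ ‖bigL r y‖
  L_hi : ‖bigL r y‖ ≤ 3 * C * Real.exp y
  L_inv : ‖(bigL r y)⁻¹‖ ≤ 4 * Real.exp (-y)
  b_ne : fy2 r 1 (y * Complex.I) ≠ 0
  b_hi : ‖fy2 r 1 (y * Complex.I)‖ ≤ C * Real.exp y / y
  mp : ‖mpl r y‖ ≤ 40 * C * y
  mm : ‖mmi r y‖ ≤ 40 * C * y
  md : y / (8 * C) ≤ ‖mpl r y - mmi r y‖
  grow : ∀ x ∈ Set.Icc (0:ℝ) 1,
    ‖1 * fy1 r x (y * Complex.I) + mpl r y * fy2 r x (y * Complex.I)‖ ≤ 164 * C ^ 2 * Real.exp (y * x)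
  dec : ∀ x ∈ Set.Icc (0:ℝ) 1,
    ‖1 * fy1 r x (y * Complex.I) + mmi r y * fy2 r x (y * Complex.I)‖ ≤
      164 * C ^ 2 * Real.exp (-(y * x))

lemma exp_eight : (256:ℝ) ≤ Real.exp 8 := by
  have h1 : (2:ℝ) ≤ Real.exp 1 := by
    have := Real.add_one_le_exp (1:ℝ)
    linarith
  have h2 : Real.exp 8 = Real.exp 1 ^ 8 := by rw [← Real.exp_nat_mul]; norm_num
  rw [h2]
  calc (256:ℝ) = 2 ^ 8 := by norm_num
    _ ≤ _ := by gcongr

lemma flB_of (hr : Continuous r) (hK : ∀ x, |r x| ≤ K) (hC : AsyC r C)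
    (hC' : AsyC (fun x => r (1 - x)) C) {y : ℝ} (hy : 8 * C ≤ y) : FlB r C y := by
  have hC1 := hC.one_le
  have hy8 : 8 ≤ y := by linarith
  have hy1 : 1 ≤ y := by linarith
  have hy0 : 0 < y := by linarith
  have hX := Real.exp_pos y
  have hX8 : 256 ≤ Real.exp y := exp_eight.trans (Real.exp_le_exp.2 hy8)
  have hXn : Real.exp (-y) ≤ 1 := by rw [Real.exp_le_one_iff]; linarith
  have hXn0 := Real.exp_pos (-y)
  set k : ℂ := (y : ℂ) * Complex.I with hk
  have hn : ‖k‖ = y := norm_yI (y := y) (by linarith)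
  have hk0 : k ≠ 0 := yI_ne hy1
  have hab : |k.im| = y := by rw [hk, im_yI y, abs_of_nonneg (by linarith)]
  have h01 : (1:ℝ) ∈ Set.Icc (0:ℝ) 1 := ⟨zero_le_one, le_rfl⟩
  obtain ⟨-, -, -, -, a5, a6, -⟩ := hC.all 1 h01 k hk0
  have a7 := hC.z2 h01 (k := k) (by rw [hn]; exact hy1)
  rw [hab, mul_one] at a5 a6 a7
  rw [hn] at a6
  have hΔ := trace_lower hC hy
  rw [← hk] at hΔ
  have hb := b_lower hC hy
  rw [← hk] at hb
  have hb0 : 0 < Real.exp y / (8 * y) := by positivity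
  have hbne : fy2 r 1 k ≠ 0 := by
    intro h; rw [h, norm_zero] at hb; linarith
  have hΔ2 : 2 ≤ (fy1 r 1 k + fz2 r 1 k).re := by linarith
  obtain ⟨l1, l2⟩ := LamOf_bounds hΔ2
  have hLn : ‖bigL r y‖ = LamOf (fy1 r 1 k + fz2 r 1 k).re := by
    unfold bigL
    rw [← hk, Complex.norm_real, Real.norm_of_nonneg (by linarith)]
  have hΔhi : (fy1 r 1 k + fz2 r 1 k).re ≤ 3 * C * Real.exp y := by
    have h1 := (Complex.re_le_norm (fy1 r 1 k + fz2 r 1 k)).trans (norm_add_le _ _)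
    linarith
  have hLlo : Real.exp y / 4 ≤ ‖bigL r y‖ := by rw [hLn]; linarith
  have hLhi : ‖bigL r y‖ ≤ 3 * C * Real.exp y := by rw [hLn]; linarith
  have hLne : bigL r y ≠ 0 := by
    intro h; rw [h, norm_zero] at hLlo; linarith
  have hLinv : ‖(bigL r y)⁻¹‖ ≤ 4 * Real.exp (-y) := by
    rw [norm_inv, Real.exp_neg, inv_le_iff_one_le_mul₀ (by linarith)]
    have : (1:ℝ) = 4 * (Real.exp y)⁻¹ * (Real.exp y / 4) := by field_simp
    rw [this]
    gcongr
  have hfl := flData_of hr hK (y := y) hΔ2 hbne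
  have hw := wronsk_one hr hK k 1
  obtain ⟨f1, f2, f3⟩ := hfl.facts hw
  have hmp : ‖mpl r y‖ ≤ 40 * C * y := by
    unfold mpl
    rw [← hk, norm_div, div_le_iff₀ (by linarith)]
    have h1 := norm_sub_le (bigL r y) (fy1 r 1 k)
    have h2 : 40 * C * y * (Real.exp y / (8 * y)) = 5 * C * Real.exp y := by field_simp; norm_num
    have h3 : 40 * C * y * (Real.exp y / (8 * y)) ≤ 40 * C * y * ‖fy2 r 1 k‖ := by gcongr
    nlinarith
  have hmm : ‖mmi r y‖ ≤ 40 * C * y := by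
    unfold mmi
    rw [← hk, norm_div, div_le_iff₀ (by linarith)]
    have h1 := norm_sub_le ((bigL r y)⁻¹) (fy1 r 1 k)
    have h2 : 40 * C * y * (Real.exp y / (8 * y)) = 5 * C * Real.exp y := by field_simp; norm_num
    have h3 : 40 * C * y * (Real.exp y / (8 * y)) ≤ 40 * C * y * ‖fy2 r 1 k‖ := by gcongr
    have h4 : 4 * Real.exp (-y) ≤ C * Real.exp y := by nlinarith
    nlinarith
  have hmd : y / (8 * C) ≤ ‖mpl r y - mmi r y‖ := by
    have h1 : ‖fy2 r 1 k‖ * ‖mpl r y - mmi r y‖ = ‖bigL r y - (bigL r y)⁻¹‖ := by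
      rw [← norm_mul, f1]
    have h2 := norm_sub_norm_le (bigL r y) ((bigL r y)⁻¹)
    have h3 : Real.exp y / 8 ≤ ‖fy2 r 1 k‖ * ‖mpl r y - mmi r y‖ := by
      rw [h1]
      have : 4 * Real.exp (-y) ≤ Real.exp y / 8 := by linarith
      linarith
    have h4 : ‖fy2 r 1 k‖ * ‖mpl r y - mmi r y‖ ≤ (C * Real.exp y / y) * ‖mpl r y - mmi r y‖ := by
      gcongr
    have h5 := h3.trans h4
    rw [div_le_iff₀ (by positivity)]
    have h6 : (C * Real.exp y / y) * ‖mpl r y - mmi r y‖ =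
      (‖mpl r y - mmi r y‖ * (8 * C)) * (Real.exp y / (8 * y)) := by field_simp
    rw [h6] at h5
    have h7 : Real.exp y / 8 = y * (Real.exp y / (8 * y)) := by field_simp
    rw [h7] at h5
    exact le_of_mul_le_mul_right h5 hb0
  refine ⟨hfl, hLne, hLlo, hLhi, hLinv, hbne, a6, hmp, hmm, hmd, ?_, ?_⟩
  · intro x hx
    obtain ⟨-, -, -, -, b5, b6, -⟩ := hC.all x hx k hk0
    rw [hab] at b5 b6
    rw [hn] at b6
    refine (norm_add_le _ _).trans ?_
    rw [one_mul, norm_mul]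
    have hXx := Real.exp_pos (y * x)
    have h1 : ‖mpl r y‖ * ‖fy2 r x k‖ ≤ 40 * C ^ 2 * Real.exp (y * x) := by
      calc _ ≤ (40 * C * y) * (C * Real.exp (y * x) / y) := by gcongr
        _ = _ := by field_simp
    have h2 : C * Real.exp (y * x) ≤ C ^ 2 * Real.exp (y * x) := by
      gcongr
      nlinarith
    nlinarith
  · intro x hx
    have hx' : 1 - x ∈ Set.Icc (0:ℝ) 1 := ⟨by linarith [hx.2], by linarith [hx.1]⟩
    have hcr : Continuous fun x => r (1 - x) := by fun_prop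
    have hKr' : ∀ x, |(fun x => r (1 - x)) x| ≤ K := fun x => hK _
    have s1 := isSol_comb (sol1 hr hK k) (sol2' hr hK k) 1 (mmi r y)
    have s2 := isSol_comb (sol1 hcr hKr' k) (sol2' hcr hKr' k) (bigL r y)⁻¹ (-((bigL r y)⁻¹ * mmi r y))
    have s3 := isSol_refl (q := r) s2
    have h1 := sol_unique_one hr hK s1 s3 (by
        simp only [sub_self]
        rw [fy1_zero hcr hKr', fy2_zero hcr hKr']
        linear_combination hfl.e3) (by
        simp only [sub_self]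
        rw [fz1_zero, fz2_zero]
        linear_combination hfl.e4) x
    rw [h1]
    obtain ⟨-, -, -, -, b5, b6, -⟩ := hC'.all (1 - x) hx' k hk0
    rw [hab] at b5 b6
    rw [hn] at b6
    have e : (bigL r y)⁻¹ * fy1 (fun x => r (1 - x)) (1 - x) k +
        -((bigL r y)⁻¹ * mmi r y) * fy2 (fun x => r (1 - x)) (1 - x) k =
        (bigL r y)⁻¹ * (fy1 (fun x => r (1 - x)) (1 - x) k -
          mmi r y * fy2 (fun x => r (1 - x)) (1 - x) k) := by ring
    rw [e, norm_mul]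
    have hXx := Real.exp_pos (y * (1 - x))
    have h2 : ‖fy1 (fun x => r (1 - x)) (1 - x) k - mmi r y * fy2 (fun x => r (1 - x)) (1 - x) k‖ ≤
        41 * C ^ 2 * Real.exp (y * (1 - x)) := by
      refine (norm_sub_le _ _).trans ?_
      rw [norm_mul]
      have h3 : ‖mmi r y‖ * ‖fy2 (fun x => r (1 - x)) (1 - x) k‖ ≤
          40 * C ^ 2 * Real.exp (y * (1 - x)) := by
        calc _ ≤ (40 * C * y) * (C * Real.exp (y * (1 - x)) / y) := by gcongr
          _ = _ := by field_simp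
      have h4 : C * Real.exp (y * (1 - x)) ≤ C ^ 2 * Real.exp (y * (1 - x)) := by
        gcongr
        nlinarith
      linarith
    calc _ ≤ (4 * Real.exp (-y)) * (41 * C ^ 2 * Real.exp (y * (1 - x))) := by gcongr
      _ = 164 * C ^ 2 * (Real.exp (-y) * Real.exp (y * (1 - x))) := by ring
      _ = _ := by rw [← Real.exp_add]; congr 2; ring

/-- `p - q` vanishes to infinite order at both ends of `[0,1]` -/
def FlatDiff (p q : ℝ → ℝ) : Prop := ∀ N : ℕ, ∃ C : ℝ, 0 ≤ C ∧ ∀ x ∈ Set.Icc (0:ℝ) 1,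
  |q x - p x| ≤ C * x ^ N ∧ |q x - p x| ≤ C * (1 - x) ^ N

lemma m_close (hp : Continuous p) (hKp : ∀ x, |p x| ≤ K) (hq : Continuous q)
    (hKq : ∀ x, |q x| ≤ K) {C y : ℝ} (hC1 : 1 ≤ C) (hy : 8 * C ≤ y) (Bp : FlB p C y) (Bq : FlB q C y)
    {N : ℕ} {c : ℝ} (hc : 0 ≤ c)
    (hflat : ∀ x ∈ Set.Icc (0:ℝ) 1, |q x - p x| ≤ c * x ^ N ∧ |q x - p x| ≤ c * (1 - x) ^ N) :
    ‖mpl q y - mpl p y‖ ≤ 32 * (c * (164 * C ^ 2) ^ 2 * (N.factorial / y ^ N)) ∧
    ‖mmi q y - mmi p y‖ ≤ 32 * (c * (164 * C ^ 2) ^ 2 * (N.factorial / y ^ N)) := by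
  have hy8 : 8 ≤ y := by linarith
  have hy0 : 0 < y := by linarith
  have hX := Real.exp_pos y
  have hX8 : 256 ≤ Real.exp y := exp_eight.trans (Real.exp_le_exp.2 hy8)
  set k : ℂ := (y : ℂ) * Complex.I with hk
  set J : ℝ := c * (164 * C ^ 2) ^ 2 * (N.factorial / y ^ N) with hJ
  have hJ0 : 0 ≤ J := by positivity
  have hfac : (N.factorial : ℝ) / (2 * y) ^ N ≤ N.factorial / y ^ N := by
    gcongr
    linarith
  -- Wronskian of two solutions of the two equations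
  have hWd : ∀ (m m' : ℂ) (x : ℝ), HasDerivAt (fun x =>
      (1 * fy1 p x k + m * fy2 p x k) * (1 * fz1 q x k + m' * fz2 q x k) -
      (1 * fz1 p x k + m * fz2 p x k) * (1 * fy1 q x k + m' * fy2 q x k))
      (((q x - p x : ℝ) : ℂ) * (1 * fy1 p x k + m * fy2 p x k) * (1 * fy1 q x k + m' * fy2 q x k)) x := by
    intro m m' x
    have s1 := isSol_comb (sol1 hp hKp k) (sol2' hp hKp k) 1 m
    have s2 := isSol_comb (sol1 hq hKq k) (sol2' hq hKq k) 1 m'
    refine (((s1.d1 x).mul (s2.d2 x)).sub ((s1.d2 x).mul (s2.d1 x))).congr_deriv ?_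
    push_cast; ring
  have hmv : ∀ (m m' : ℂ) {B : ℝ}, (∀ x ∈ Set.Icc (0:ℝ) 1,
      ‖((q x - p x : ℝ) : ℂ) * (1 * fy1 p x k + m * fy2 p x k) * (1 * fy1 q x k + m' * fy2 q x k)‖ ≤ B) →
      ‖((1 * fy1 p 1 k + m * fy2 p 1 k) * (1 * fz1 q 1 k + m' * fz2 q 1 k) -
      (1 * fz1 p 1 k + m * fz2 p 1 k) * (1 * fy1 q 1 k + m' * fy2 q 1 k)) - (m' - m)‖ ≤ B := by
    intro m m' B hB
    have h := (convex_Icc (0:ℝ) 1).norm_image_sub_le_of_norm_hasDerivWithin_le
      (fun x _ => (hWd m m' x).hasDerivWithinAt) hB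
      (show (0:ℝ) ∈ Set.Icc (0:ℝ) 1 from ⟨le_rfl, zero_le_one⟩)
      (show (1:ℝ) ∈ Set.Icc (0:ℝ) 1 from ⟨zero_le_one, le_rfl⟩)
    rw [sub_zero, norm_one, mul_one] at h
    rw [fy1_zero hp hKp, fy2_zero hp hKp, fz1_zero, fz2_zero, fy1_zero hq hKq, fy2_zero hq hKq,
      fz1_zero, fz2_zero] at h
    refine le_trans (le_of_eq ?_) h
    congr 1; ring
  constructor
  · -- growing
    have h1 := hmv (mpl p y) (mpl q y) (B := J * Real.exp (2 * y)) (by
      intro x hx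
      rw [norm_mul, norm_mul, Complex.norm_real, Real.norm_eq_abs]
      have g1 := Bp.grow x hx
      have g2 := Bq.grow x hx
      have g3 := (hflat x hx).2
      rw [← hk] at g1 g2
      have hx1 : 0 ≤ 1 - x := by linarith [hx.2]
      have g4 := pow_mul_exp_neg_le (x := 1 - x) (κ := 2 * y) hx1 (by linarith) N
      have e1 : Real.exp (y * x) * Real.exp (y * x) = Real.exp (-(2 * y * (1 - x))) * Real.exp (2 * y) := by
        rw [← Real.exp_add, ← Real.exp_add]; congr 1; ring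
      calc _ ≤ (c * (1 - x) ^ N) * (164 * C ^ 2 * Real.exp (y * x)) * (164 * C ^ 2 * Real.exp (y * x)) := by
            gcongr
        _ = c * (164 * C ^ 2) ^ 2 * ((1 - x) ^ N * (Real.exp (y * x) * Real.exp (y * x))) := by ring
        _ = c * (164 * C ^ 2) ^ 2 * ((1 - x) ^ N * Real.exp (-(2 * y * (1 - x)))) * Real.exp (2 * y) := by
            rw [e1]; ring
        _ ≤ J * Real.exp (2 * y) := by
            rw [hJ]
            have := g4.trans hfac
            gcongr)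
    have e1 : 1 * fy1 p 1 k + mpl p y * fy2 p 1 k = bigL p y := by
      have := Bp.fl.e1; rw [← hk] at this; linear_combination this
    have e2 : 1 * fz1 p 1 k + mpl p y * fz2 p 1 k = bigL p y * mpl p y := by
      have := Bp.fl.e2; rw [← hk] at this; linear_combination this
    have e3 : 1 * fy1 q 1 k + mpl q y * fy2 q 1 k = bigL q y := by
      have := Bq.fl.e1; rw [← hk] at this; linear_combination this
    have e4 : 1 * fz1 q 1 k + mpl q y * fz2 q 1 k = bigL q y * mpl q y := by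
      have := Bq.fl.e2; rw [← hk] at this; linear_combination this
    rw [e1, e2, e3, e4] at h1
    have e5 : bigL p y * (bigL q y * mpl q y) - bigL p y * mpl p y * bigL q y - (mpl q y - mpl p y) =
        (bigL p y * bigL q y - 1) * (mpl q y - mpl p y) := by ring
    rw [e5, norm_mul] at h1
    have hL : Real.exp (2 * y) / 32 ≤ ‖bigL p y * bigL q y - 1‖ := by
      have h2 := norm_sub_norm_le (bigL p y * bigL q y) 1
      rw [norm_one, norm_mul] at h2
      have h3 : Real.exp y / 4 * (Real.exp y / 4) ≤ ‖bigL p y‖ * ‖bigL q y‖ := by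
        have := Bp.L_lo
        have := Bq.L_lo
        gcongr
      have h4 : Real.exp (2 * y) = Real.exp y * Real.exp y := by rw [← Real.exp_add]; congr 1; ring
      rw [h4]
      nlinarith
    have h6 : Real.exp (2 * y) / 32 * ‖mpl q y - mpl p y‖ ≤ J * Real.exp (2 * y) := by
      refine le_trans ?_ h1
      gcongr
    have h7 : 0 < Real.exp (2 * y) := Real.exp_pos _
    have h8 : ‖mpl q y - mpl p y‖ * Real.exp (2 * y) ≤ (32 * J) * Real.exp (2 * y) := by linarith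
    exact le_of_mul_le_mul_right h8 h7
  · have h1 := hmv (mmi p y) (mmi q y) (B := J) (by
      intro x hx
      rw [norm_mul, norm_mul, Complex.norm_real, Real.norm_eq_abs]
      have g1 := Bp.dec x hx
      have g2 := Bq.dec x hx
      have g3 := (hflat x hx).1
      rw [← hk] at g1 g2
      have g4 := pow_mul_exp_neg_le (x := x) (κ := 2 * y) hx.1 (by linarith) N
      have e1 : Real.exp (-(y * x)) * Real.exp (-(y * x)) = Real.exp (-(2 * y * x)) := by
        rw [← Real.exp_add]; congr 1; ring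
      have hx0 := hx.1
      calc _ ≤ (c * x ^ N) * (164 * C ^ 2 * Real.exp (-(y * x))) * (164 * C ^ 2 * Real.exp (-(y * x))) := by
            gcongr
        _ = c * (164 * C ^ 2) ^ 2 * (x ^ N * (Real.exp (-(y * x)) * Real.exp (-(y * x)))) := by ring
        _ = c * (164 * C ^ 2) ^ 2 * (x ^ N * Real.exp (-(2 * y * x))) := by
            rw [e1]
        _ ≤ J := by
            rw [hJ]
            have := g4.trans hfac
            gcongr)
    have e1 : 1 * fy1 p 1 k + mmi p y * fy2 p 1 k = (bigL p y)⁻¹ := by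
      have := Bp.fl.e3; rw [← hk] at this; linear_combination this
    have e2 : 1 * fz1 p 1 k + mmi p y * fz2 p 1 k = (bigL p y)⁻¹ * mmi p y := by
      have := Bp.fl.e4; rw [← hk] at this; linear_combination this
    have e3 : 1 * fy1 q 1 k + mmi q y * fy2 q 1 k = (bigL q y)⁻¹ := by
      have := Bq.fl.e3; rw [← hk] at this; linear_combination this
    have e4 : 1 * fz1 q 1 k + mmi q y * fz2 q 1 k = (bigL q y)⁻¹ * mmi q y := by
      have := Bq.fl.e4; rw [← hk] at this; linear_combination this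
    rw [e1, e2, e3, e4] at h1
    have e5 : (bigL p y)⁻¹ * ((bigL q y)⁻¹ * mmi q y) - (bigL p y)⁻¹ * mmi p y * (bigL q y)⁻¹ -
        (mmi q y - mmi p y) = (1 - (bigL p y)⁻¹ * (bigL q y)⁻¹) * (-(mmi q y - mmi p y)) := by ring
    rw [e5, norm_mul, norm_neg] at h1
    have hL : 1 / 2 ≤ ‖1 - (bigL p y)⁻¹ * (bigL q y)⁻¹‖ := by
      have h2 := norm_sub_norm_le 1 ((bigL p y)⁻¹ * (bigL q y)⁻¹)
      rw [norm_one, norm_mul] at h2
      have h3 : ‖(bigL p y)⁻¹‖ * ‖(bigL q y)⁻¹‖ ≤ (4 * Real.exp (-y)) * (4 * Real.exp (-y)) := by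
        have := Bp.L_inv
        have := Bq.L_inv
        gcongr
      have h4 : Real.exp (-y) ≤ 1 / 256 := by
        rw [Real.exp_neg, inv_eq_one_div]
        gcongr
      have h5 := Real.exp_pos (-y)
      nlinarith
    have h6 := norm_nonneg (mmi q y - mmi p y)
    nlinarith

end Run7.h374
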