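import Pool.Agent.Run7.h374.Floq

/-! Decay of the differences of the entries of two monodromy matrices. -/

set_option autoImplicit false

namespace Run7.h374

open Filter Topology Metric MeasureTheory
open scoped Interval ComplexConjugate

variable {p q r : ℝ → ℝ} {K C : ℝ}

lemma entries_close {C y ε : ℝ} (hC1 : 1 ≤ C) (hy : 8 * C ≤ y) (Bp : FlB p C y) (Bq : FlB q C y)
    (hp : Continuous p) (hKp : ∀ x, |p x| ≤ K) (hq : Continuous q) (hKq : ∀ x, |q x| ≤ K)
    (hL : bigL p y = bigL q y) (hε : 0 ≤ ε) (h1 : ‖mpl q y - mpl p y‖ ≤ ε)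
    (h2 : ‖mmi q y - mmi p y‖ ≤ ε) :
    ‖fy2 q 1 (y * Complex.I) - fy2 p 1 (y * Complex.I)‖ ≤ 30000 * C ^ 4 * Real.exp y * ε ∧
    ‖DD q (y * Complex.I) - DD p (y * Complex.I)‖ ≤ 30000 * C ^ 4 * Real.exp y * ε ∧
    ‖fz1 q 1 (y * Complex.I) - fz1 p 1 (y * Complex.I)‖ ≤ 30000 * C ^ 4 * Real.exp y * ε := by
  have hy1 : 1 ≤ y := by linarith
  have hy0 : 0 < y := by linarith
  have hX := Real.exp_pos y
  set k : ℂ := (y : ℂ) * Complex.I with hk
  obtain ⟨p1, p2, p3⟩ := Bp.fl.facts (wronsk_one hp hKp _ 1)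
  obtain ⟨q1, q2, q3⟩ := Bq.fl.facts (wronsk_one hq hKq _ 1)
  rw [← hk] at p1 p2 p3 q1 q2 q3
  have hbq := Bq.b_hi
  rw [← hk] at hbq
  set bp := fy2 p 1 k
  set bq := fy2 q 1 k
  set m := mpl p y
  set n := mmi p y
  set m' := mpl q y
  set n' := mmi q y
  have hb' : (bq - bp) * (m - n) = bq * ((m - m') - (n - n')) := by
    rw [← hL] at q1
    linear_combination q1 - p1
  have hmd := Bp.md
  have hm1 : ‖m - m'‖ ≤ ε := by rw [norm_sub_rev]; exact h1
  have hn1 : ‖n - n'‖ ≤ ε := by rw [norm_sub_rev]; exact h2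
  have hbb : ‖bq - bp‖ ≤ 16 * C ^ 2 * Real.exp y * ε / y ^ 2 := by
    have h3 : ‖bq - bp‖ * (y / (8 * C)) ≤ (C * Real.exp y / y) * (2 * ε) := by
      calc ‖bq - bp‖ * (y / (8 * C)) ≤ ‖bq - bp‖ * ‖m - n‖ := by gcongr
        _ = ‖bq‖ * ‖(m - m') - (n - n')‖ := by rw [← norm_mul, hb', norm_mul]
        _ ≤ (C * Real.exp y / y) * (2 * ε) := by
            gcongr
            refine (norm_sub_le _ _).trans ?_
            linarith
    rw [← le_div_iff₀ (by positivity)] at h3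
    refine h3.trans (le_of_eq ?_)
    field_simp
    ring
  have hC2 : 1 ≤ C ^ 2 := one_le_pow₀ hC1
  have hC4 : C ^ 2 ≤ C ^ 4 := pow_le_pow_right₀ hC1 (by norm_num)
  have hC3 : C ^ 3 ≤ C ^ 4 := pow_le_pow_right₀ hC1 (by norm_num)
  have hCC : C ≤ C ^ 4 := by
    calc C = C ^ 1 := (pow_one C).symm
      _ ≤ C ^ 4 := pow_le_pow_right₀ hC1 (by norm_num)
  have hXe : 0 ≤ Real.exp y * ε := by positivity
  have hZ2 : C ^ 2 * (Real.exp y * ε) ≤ C ^ 4 * (Real.exp y * ε) := by gcongr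
  have hZ3 : C ^ 3 * (Real.exp y * ε) ≤ C ^ 4 * (Real.exp y * ε) := by gcongr
  have hZ1 : C * (Real.exp y * ε) ≤ C ^ 4 * (Real.exp y * ε) := by gcongr
  have hZ0 : 0 ≤ C ^ 4 * (Real.exp y * ε) := by positivity
  have hgoal : 30000 * C ^ 4 * Real.exp y * ε = 30000 * (C ^ 4 * (Real.exp y * ε)) := by ring
  rw [hgoal]
  have hy2 : 1 ≤ y ^ 2 := one_le_pow₀ hy1
  refine ⟨?_, ?_, ?_⟩
  · refine hbb.trans ?_
    have h3 : 16 * C ^ 2 * Real.exp y * ε / y ^ 2 ≤ 16 * C ^ 2 * Real.exp y * ε :=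
      div_le_self (by positivity) hy2
    have h4 : 16 * C ^ 2 * Real.exp y * ε = 16 * (C ^ 2 * (Real.exp y * ε)) := by ring
    linarith
  · have e : DD q k - DD p k = bq * ((m' - m) + (n' - n)) + (bq - bp) * (m + n) := by
      unfold DD
      rw [q2, p2]; ring
    rw [e]
    refine (norm_add_le _ _).trans ?_
    rw [norm_mul, norm_mul]
    have t1 : ‖bq‖ * ‖(m' - m) + (n' - n)‖ ≤ 2 * C * (Real.exp y * ε) := by
      calc _ ≤ (C * Real.exp y / y) * (2 * ε) := by
            gcongr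
            refine (norm_add_le _ _).trans ?_
            linarith
        _ = (2 * C * (Real.exp y * ε)) / y := by ring
        _ ≤ _ := div_le_self (by positivity) hy1
    have t2 : ‖bq - bp‖ * ‖m + n‖ ≤ 1280 * C ^ 3 * (Real.exp y * ε) := by
      calc _ ≤ (16 * C ^ 2 * Real.exp y * ε / y ^ 2) * (80 * C * y) := by
            gcongr
            refine (norm_add_le _ _).trans ?_
            have := Bp.mp
            have := Bp.mm
            linarith
        _ = (1280 * C ^ 3 * (Real.exp y * ε)) / y := by field_simp; ring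
        _ ≤ _ := div_le_self (by positivity) hy1
    linarith
  · have e : fz1 q 1 k - fz1 p 1 k = -(bq * ((m' - m) * n' + m * (n' - n)) + (bq - bp) * (m * n)) := by
      rw [q3, p3]; ring
    rw [e, norm_neg]
    refine (norm_add_le _ _).trans ?_
    rw [norm_mul, norm_mul, norm_mul]
    have t1 : ‖bq‖ * ‖(m' - m) * n' + m * (n' - n)‖ ≤ 80 * C ^ 2 * (Real.exp y * ε) := by
      calc _ ≤ (C * Real.exp y / y) * (ε * (40 * C * y) + (40 * C * y) * ε) := by
            gcongr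
            refine (norm_add_le _ _).trans ?_
            rw [norm_mul, norm_mul]
            have := Bq.mm
            have := Bp.mp
            gcongr
        _ = _ := by field_simp; ring
    have t2 : ‖bq - bp‖ * (‖m‖ * ‖n‖) ≤ 25600 * C ^ 4 * (Real.exp y * ε) := by
      calc _ ≤ (16 * C ^ 2 * Real.exp y * ε / y ^ 2) * ((40 * C * y) * (40 * C * y)) := by
            have := Bp.mp
            have := Bp.mm
            gcongr
        _ = _ := by field_simp; ring
    linarith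

lemma le_max4 {a b c d : ℝ} : a ≤ |a| + |b| + |c| + |d| := by
  have := le_abs_self a
  have := abs_nonneg b
  have := abs_nonneg c
  have := abs_nonneg d
  linarith

/-- decay of the differences of the entries of the two monodromy matrices -/
theorem decay_diff (hp : Continuous p) (hKp : ∀ x, |p x| ≤ K) (hq : Continuous q)
    (hKq : ∀ x, |q x| ≤ K) (hflat : FlatDiff p q)
    (hΔ : ∀ k, fy1 p 1 k + fz2 p 1 k = fy1 q 1 k + fz2 q 1 k) (N : ℕ) :
    ∃ C2 : ℝ, ∀ y : ℝ, 1 ≤ y →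
      ‖fy2 q 1 (y * Complex.I) - fy2 p 1 (y * Complex.I)‖ * y ^ N ≤ C2 * Real.exp y ∧
      ‖DD q (y * Complex.I) - DD p (y * Complex.I)‖ * y ^ N ≤ C2 * Real.exp y ∧
      ‖fz1 q 1 (y * Complex.I) - fz1 p 1 (y * Complex.I)‖ * y ^ N ≤ C2 * Real.exp y := by
  have hK0 : 0 ≤ K := (abs_nonneg _).trans (hKp 0)
  obtain ⟨c1, h1⟩ := exists_asyC hp hKp
  obtain ⟨c2, h2⟩ := exists_asyC hq hKq
  obtain ⟨c3, h3⟩ := exists_asyC (q := fun x => p (1 - x)) (K := K) (by fun_prop) (fun x => hKp _)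
  obtain ⟨c4, h4⟩ := exists_asyC (q := fun x => q (1 - x)) (K := K) (by fun_prop) (fun x => hKq _)
  set C := c1 + c2 + c3 + c4 with hC
  have p1 := h1.one_le
  have p2 := h2.one_le
  have p3 := h3.one_le
  have p4 := h4.one_le
  have H1 : AsyC p C := h1.mono (by linarith)
  have H2 : AsyC q C := h2.mono (by linarith)
  have H3 : AsyC (fun x => p (1 - x)) C := h3.mono (by linarith)
  have H4 : AsyC (fun x => q (1 - x)) C := h4.mono (by linarith)
  have hC1 : 1 ≤ C := H1.one_le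
  obtain ⟨c, hc, hfl⟩ := hflat N
  -- crude bound for small `y`
  have h01 : (1:ℝ) ∈ Set.Icc (0:ℝ) 1 := ⟨zero_le_one, le_rfl⟩
  set Y0 := 8 * C with hY0
  set B1 : ℝ := 8 * C * Y0 * Y0 ^ N with hB1
  set B2 : ℝ := 30000 * C ^ 4 * (32 * (c * (164 * C ^ 2) ^ 2 * N.factorial)) with hB2
  have hB10 : 0 ≤ B1 := by positivity
  have hB20 : 0 ≤ B2 := by positivity
  refine ⟨B1 + B2, fun y hy => ?_⟩
  have hX := Real.exp_pos y
  have hy0 : 0 < y := by linarith
  rcases le_total y Y0 with hyY | hyY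
  · have hn : ‖(y : ℂ) * Complex.I‖ = y := norm_yI (y := y) (by linarith)
    have hab : |((y : ℂ) * Complex.I).im| = y := by rw [im_yI y, abs_of_nonneg (by linarith)]
    have key : ∀ {r : ℝ → ℝ}, AsyC r C → ‖fy1 r 1 (y * Complex.I)‖ ≤ 2 * C * y * Real.exp y ∧
        ‖fy2 r 1 (y * Complex.I)‖ ≤ 2 * C * y * Real.exp y ∧
        ‖fz1 r 1 (y * Complex.I)‖ ≤ 2 * C * y * Real.exp y ∧
        ‖fz2 r 1 (y * Complex.I)‖ ≤ 2 * C * y * Real.exp y := by
      intro r hr
      obtain ⟨-, -, -, -, a5, -, a7⟩ := hr.all 1 h01 _ (yI_ne hy)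
      have a8 := hr.z1 h01 (k := (y : ℂ) * Complex.I) (by rw [hn]; exact hy)
      have a9 := hr.z2 h01 (k := (y : ℂ) * Complex.I) (by rw [hn]; exact hy)
      rw [hab, mul_one] at a5 a7 a8 a9
      rw [hn] at a8
      have hCX : 0 ≤ C * Real.exp y := by positivity
      refine ⟨?_, ?_, ?_, ?_⟩ <;> nlinarith
    obtain ⟨a1, a2, a3, a4⟩ := key H1
    obtain ⟨b1, b2, b3, b4⟩ := key H2
    have fin : ∀ F : ℂ, ‖F‖ ≤ 8 * C * y * Real.exp y → ‖F‖ * y ^ N ≤ (B1 + B2) * Real.exp y := by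
      intro F hF
      calc ‖F‖ * y ^ N ≤ (8 * C * y * Real.exp y) * y ^ N := by gcongr
        _ ≤ (8 * C * Y0 * Real.exp y) * Y0 ^ N := by gcongr
        _ = B1 * Real.exp y := by rw [hB1]; ring
        _ ≤ _ := by gcongr; linarith
    have hpos : 0 ≤ C * y * Real.exp y := by positivity
    refine ⟨fin _ ?_, fin _ ?_, fin _ ?_⟩
    · refine (norm_sub_le _ _).trans ?_; linarith
    · unfold DD
      refine (norm_sub_le _ _).trans ?_
      have := norm_sub_le (fz2 q 1 (y * Complex.I)) (fy1 q 1 (y * Complex.I))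
      have := norm_sub_le (fz2 p 1 (y * Complex.I)) (fy1 p 1 (y * Complex.I))
      linarith
    · refine (norm_sub_le _ _).trans ?_; linarith
  · have Bp := flB_of hp hKp H1 H3 hyY
    have Bq := flB_of hq hKq H2 H4 hyY
    obtain ⟨m1, m2⟩ := m_close hp hKp hq hKq hC1 hyY Bp Bq hc hfl
    have hL : bigL p y = bigL q y := by unfold bigL; rw [hΔ]
    obtain ⟨e1, e2, e3⟩ := entries_close hC1 hyY Bp Bq hp hKp hq hKq hL (by positivity) m1 m2
    have fin : ∀ F : ℂ, ‖F‖ ≤ 30000 * C ^ 4 * Real.exp y *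
        (32 * (c * (164 * C ^ 2) ^ 2 * (N.factorial / y ^ N))) →
        ‖F‖ * y ^ N ≤ (B1 + B2) * Real.exp y := by
      intro F hF
      calc ‖F‖ * y ^ N ≤ (30000 * C ^ 4 * Real.exp y *
        (32 * (c * (164 * C ^ 2) ^ 2 * (N.factorial / y ^ N)))) * y ^ N := by gcongr
        _ = B2 * Real.exp y := by rw [hB2]; field_simp
        _ ≤ _ := by gcongr; linarith
    exact ⟨fin _ e1, fin _ e2, fin _ e3⟩

end Run7.h374
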