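import Pool.Agent.Run7.h374.Volt2
import Pool.Agent.Run7.h374.Defs

/-! The fundamental solutions of `-y'' + q y = k² y`. -/

set_option autoImplicit false

namespace Run7.h374

open Filter Topology Metric MeasureTheory
open scoped Interval ComplexConjugate

/-- solution with `y(0)=1, y'(0)=0` -/
noncomputable def fy1 (q : ℝ → ℝ) (x : ℝ) (k : ℂ) : ℂ := Vsol q Cx x k
/-- its derivative -/
noncomputable def fz1 (q : ℝ → ℝ) (x : ℝ) (k : ℂ) : ℂ :=
  Vsold q Cx (fun x k => -(k ^ 2 * Sx x k)) x k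
/-- solution with `y(0)=0, y'(0)=1` -/
noncomputable def fy2 (q : ℝ → ℝ) (x : ℝ) (k : ℂ) : ℂ := Vsol q Sx x k
/-- its derivative -/
noncomputable def fz2 (q : ℝ → ℝ) (x : ℝ) (k : ℂ) : ℂ := Vsold q Sx Cx x k

/-- `(f, g)` solves `f' = g`, `g' = (q - k²) f` -/
structure IsSol (q : ℝ → ℝ) (k : ℂ) (f g : ℝ → ℂ) : Prop where
  d1 : ∀ x, HasDerivAt f (g x) x
  d2 : ∀ x, HasDerivAt g (((q x : ℂ) - k ^ 2) * f x) x

variable {q : ℝ → ℝ} {K : ℝ}

lemma sol1 (hq : Continuous q) (hK : ∀ x, |q x| ≤ K) (k : ℂ) :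
    IsSol q k (fun x => fy1 q x k) (fun x => fz1 q x k) where
  d1 := fun x => Vsol_hasDeriv hq Cx_cont hK norm_Cx_le' (fun x => Cx_deriv k x) x
  d2 := fun x => Vsold_hasDeriv hq Cx_cont hK norm_Cx_le'
    (fun x => ((Sx_deriv k x).const_mul (k ^ 2)).neg) x

lemma sol2' (hq : Continuous q) (hK : ∀ x, |q x| ≤ K) (k : ℂ) :
    IsSol q k (fun x => fy2 q x k) (fun x => fz2 q x k) where
  d1 := fun x => Vsol_hasDeriv hq Sx_cont hK norm_Sx_le' (fun x => Sx_deriv k x) x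
  d2 := fun x => Vsold_hasDeriv hq Sx_cont hK norm_Sx_le' (fun x => Cx_deriv k x) x

lemma Sx_at_zero (k : ℂ) : Sx 0 k = 0 := by unfold Sx; simp
lemma Cx_at_zero (k : ℂ) : Cx 0 k = 1 := by unfold Cx; simp

lemma fy1_zero (hq : Continuous q) (hK : ∀ x, |q x| ≤ K) (k : ℂ) : fy1 q 0 k = 1 := by
  unfold fy1
  rw [Vsol_int hq Cx_cont hK norm_Cx_le']
  simp [Cx_at_zero]

lemma fz1_zero (k : ℂ) : fz1 q 0 k = 0 := by
  unfold fz1 Vsold VA VB
  simp [Sx_at_zero]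

lemma fy2_zero (hq : Continuous q) (hK : ∀ x, |q x| ≤ K) (k : ℂ) : fy2 q 0 k = 0 := by
  unfold fy2
  rw [Vsol_int hq Sx_cont hK norm_Sx_le']
  simp [Sx_at_zero]

lemma fz2_zero (k : ℂ) : fz2 q 0 k = 1 := by
  unfold fz2 Vsold VA VB
  simp [Cx_at_zero]

/-- the Wronskian of two solutions is constant -/
lemma wronsk {k : ℂ} {f g f' g' : ℝ → ℂ} (h : IsSol q k f g) (h' : IsSol q k f' g') (x : ℝ) :
    f x * g' x - g x * f' x = f 0 * g' 0 - g 0 * f' 0 := by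
  have hd : ∀ x, HasDerivAt (fun x => f x * g' x - g x * f' x) 0 x := by
    intro x
    refine (((h.d1 x).mul (h'.d2 x)).sub ((h.d2 x).mul (h'.d1 x))).congr_deriv ?_
    ring
  exact is_const_of_deriv_eq_zero (fun x => (hd x).differentiableAt) (fun x => (hd x).deriv) x 0

lemma wronsk_one (hq : Continuous q) (hK : ∀ x, |q x| ≤ K) (k : ℂ) (x : ℝ) :
    fy1 q x k * fz2 q x k - fz1 q x k * fy2 q x k = 1 := by
  have h := wronsk (sol1 hq hK k) (sol2' hq hK k) x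
  simp only [fy1_zero hq hK, fz1_zero, fz2_zero] at h
  rw [h]; ring

/-- every solution is a combination of the fundamental solutions -/
lemma sol_rep (hq : Continuous q) (hK : ∀ x, |q x| ≤ K) {k : ℂ} {f g : ℝ → ℂ}
    (h : IsSol q k f g) (x : ℝ) :
    f x = f 0 * fy1 q x k + g 0 * fy2 q x k ∧ g x = f 0 * fz1 q x k + g 0 * fz2 q x k := by
  have h1 := wronsk h (sol2' hq hK k) x
  have h2 := wronsk (sol1 hq hK k) h x
  have h3 := wronsk_one hq hK k x
  simp only [fy1_zero hq hK, fz1_zero, fz2_zero, fy2_zero hq hK] at h1 h2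
  constructor
  · linear_combination (-f x) * h3 + fy1 q x k * h1 + fy2 q x k * h2
  · linear_combination (-g x) * h3 + fz1 q x k * h1 + fz2 q x k * h2

/-- the solution is unique -/
lemma sol_unique (hq : Continuous q) (hK : ∀ x, |q x| ≤ K) {k : ℂ} {f g f' g' : ℝ → ℂ}
    (h : IsSol q k f g) (h' : IsSol q k f' g') (h0 : f 0 = f' 0) (h0' : g 0 = g' 0) (x : ℝ) :
    f x = f' x ∧ g x = g' x := by
  have h1 := sol_rep hq hK h x
  have h2 := sol_rep hq hK h' x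
  rw [h1.1, h1.2, h2.1, h2.2, h0, h0']
  exact ⟨rfl, rfl⟩

/-- dependence on `k²` only -/
lemma fund_congr (hq : Continuous q) (hK : ∀ x, |q x| ≤ K) {k k' : ℂ} (hk : k ^ 2 = k' ^ 2)
    (x : ℝ) : fy1 q x k = fy1 q x k' ∧ fz1 q x k = fz1 q x k' ∧ fy2 q x k = fy2 q x k' ∧
      fz2 q x k = fz2 q x k' := by
  have e1 : IsSol q k (fun x => fy1 q x k') (fun x => fz1 q x k') := by
    refine ⟨(sol1 hq hK k').d1, fun x => ?_⟩
    rw [hk]; exact (sol1 hq hK k').d2 x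
  have e2 : IsSol q k (fun x => fy2 q x k') (fun x => fz2 q x k') := by
    refine ⟨(sol2' hq hK k').d1, fun x => ?_⟩
    rw [hk]; exact (sol2' hq hK k').d2 x
  have h1 := sol_unique hq hK (sol1 hq hK k) e1 (by simp only [fy1_zero hq hK]) (by simp only [fz1_zero]) x
  have h2 := sol_unique hq hK (sol2' hq hK k) e2 (by simp only [fy2_zero hq hK]) (by simp only [fz2_zero]) x
  exact ⟨h1.1, h1.2, h2.1, h2.2⟩

lemma hasDerivAt_conj {f : ℝ → ℂ} {f' : ℂ} {x : ℝ} (h : HasDerivAt f f' x) :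
    HasDerivAt (fun x => conj (f x)) (conj f') x :=
  (Complex.conjCLE.toContinuousLinearMap.hasFDerivAt.comp_hasDerivAt x h)

/-- realness -/
lemma fund_conj (hq : Continuous q) (hK : ∀ x, |q x| ≤ K) {k : ℂ} (hk : conj (k ^ 2) = k ^ 2)
    (x : ℝ) : conj (fy1 q x k) = fy1 q x k ∧ conj (fz1 q x k) = fz1 q x k ∧
      conj (fy2 q x k) = fy2 q x k ∧ conj (fz2 q x k) = fz2 q x k := by
  have hc : ∀ {f g : ℝ → ℂ}, IsSol q k f g →
      IsSol q k (fun x => conj (f x)) (fun x => conj (g x)) := by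
    intro f g h
    refine ⟨fun x => hasDerivAt_conj (h.d1 x), fun x => ?_⟩
    refine (hasDerivAt_conj (h.d2 x)).congr_deriv ?_
    rw [map_mul, map_sub, hk, Complex.conj_ofReal]
  have h1 := sol_unique hq hK (hc (sol1 hq hK k)) (sol1 hq hK k)
    (by simp only [fy1_zero hq hK, map_one]) (by simp only [fz1_zero, map_zero]) x
  have h2 := sol_unique hq hK (hc (sol2' hq hK k)) (sol2' hq hK k)
    (by simp only [fy2_zero hq hK, map_zero]) (by simp only [fz2_zero, map_one]) x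
  exact ⟨h1.1, h1.2, h2.1, h2.2⟩

/-! ### analyticity and growth in `k` -/

lemma fy1_diff (hq : Continuous q) (hK : ∀ x, |q x| ≤ K) (x : ℝ) :
    Differentiable ℂ (fun k => fy1 q x k) := Vsol_diff hq Cx_cont Cx_diff hK norm_Cx_le' x

lemma fy2_diff (hq : Continuous q) (hK : ∀ x, |q x| ≤ K) (x : ℝ) :
    Differentiable ℂ (fun k => fy2 q x k) := Vsol_diff hq Sx_cont Sx_diff hK norm_Sx_le' x

lemma Vsold_diff (hq : Continuous q) {u0 u0d : ℝ → ℂ → ℂ} (hu : Continuous (Function.uncurry u0))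
    (hud : ∀ x, Differentiable ℂ (u0 x)) (hudd : ∀ x, Differentiable ℂ (u0d x))
    (hK : ∀ x, |q x| ≤ K)
    (hub : ∀ x k, ‖u0 x k‖ ≤ Real.exp ((|k.im| + 1) * |x|)) (x : ℝ) :
    Differentiable ℂ (fun k => Vsold q u0 u0d x k) := by
  have e : (fun k => Vsold q u0 u0d x k) = fun k =>
      u0d x k + ∫ t in (0:ℝ)..x, Cx (x - t) k * ((q t : ℂ) * Vsol q u0 t k) := by
    ext k
    exact Vsold_int hq hu hK hub u0d x k
  rw [e]
  apply (hudd x).add
  apply differentiable_integral (F := fun t k => Cx (x - t) k * ((q t : ℂ) * Vsol q u0 t k))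
  · have e : (Function.uncurry fun (t : ℝ) (k : ℂ) =>
          Cx (x - t) k * ((q t : ℂ) * Vsol q u0 t k)) =
        fun r : ℝ × ℂ => Function.uncurry Cx (x - r.1, r.2) *
          ((q r.1 : ℂ) * Function.uncurry (Vsol q u0) (r.1, r.2)) := by ext r; rfl
    rw [e]
    have h2 := Cx_cont
    have h3 := Vsol_cont hq hu hK hub
    fun_prop
  · intro t
    exact (Cx_diff (x - t)).mul ((differentiable_const _).mul (Vsol_diff hq hu hud hK hub t))

lemma fz1_diff (hq : Continuous q) (hK : ∀ x, |q x| ≤ K) (x : ℝ) :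
    Differentiable ℂ (fun k => fz1 q x k) :=
  Vsold_diff hq Cx_cont Cx_diff (fun x => by
    have := Sx_diff x
    fun_prop) hK norm_Cx_le' x

lemma fz2_diff (hq : Continuous q) (hK : ∀ x, |q x| ≤ K) (x : ℝ) :
    Differentiable ℂ (fun k => fz2 q x k) :=
  Vsold_diff hq Sx_cont Sx_diff Cx_diff hK norm_Sx_le' x

lemma fy1_bound (hK : ∀ x, |q x| ≤ K) (x : ℝ) (k : ℂ) :
    ‖fy1 q x k‖ ≤ Real.exp ((|k.im| + 1 + K) * |x|) := Vsol_bound hK norm_Cx_le' x k

lemma fy2_bound (hK : ∀ x, |q x| ≤ K) (x : ℝ) (k : ℂ) :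
    ‖fy2 q x k‖ ≤ Real.exp ((|k.im| + 1 + K) * |x|) := Vsol_bound hK norm_Sx_le' x k

lemma fy1_one_bound (hK : ∀ x, |q x| ≤ K) (k : ℂ) :
    ‖fy1 q 1 k‖ ≤ Real.exp (1 + K) * Real.exp |k.im| := by
  rw [← Real.exp_add]
  have := fy1_bound hK 1 k
  rw [abs_one, mul_one] at this
  refine this.trans (le_of_eq ?_)
  congr 1; ring

lemma fy2_one_bound (hK : ∀ x, |q x| ≤ K) (k : ℂ) :
    ‖fy2 q 1 k‖ ≤ Real.exp (1 + K) * Real.exp |k.im| := by
  rw [← Real.exp_add]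
  have := fy2_bound hK 1 k
  rw [abs_one, mul_one] at this
  refine this.trans (le_of_eq ?_)
  congr 1; ring

lemma int_bound (hK : ∀ x, |q x| ≤ K) {u0 : ℝ → ℂ → ℂ}
    (hub : ∀ x k, ‖u0 x k‖ ≤ Real.exp ((|k.im| + 1) * |x|)) (k : ℂ) {W : ℝ → ℂ}
    (hW : ∀ t ∈ Set.Icc (0:ℝ) 1, ‖W t‖ ≤ Real.exp ((|k.im| + 1) * |1 - t|)) :
    ‖∫ t in (0:ℝ)..1, W t * ((q t : ℂ) * Vsol q u0 t k)‖ ≤
      K * Real.exp (1 + K) * Real.exp |k.im| := by
  have hK0 : 0 ≤ K := (abs_nonneg _).trans (hK 0)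
  have h1 : ∀ t ∈ Ι (0:ℝ) 1, ‖W t * ((q t : ℂ) * Vsol q u0 t k)‖ ≤
      K * Real.exp (1 + K) * Real.exp |k.im| := by
    intro t ht
    rw [Set.uIoc_of_le zero_le_one] at ht
    rw [norm_mul, norm_mul, Complex.norm_real, Real.norm_eq_abs]
    have h2 := hW t ⟨ht.1.le, ht.2⟩
    have h3 := hK t
    have h4 := Vsol_bound hK hub t k
    calc ‖W t‖ * (|q t| * ‖Vsol q u0 t k‖)
        ≤ Real.exp ((|k.im| + 1) * |1 - t|) * (K * Real.exp ((|k.im| + 1 + K) * |t|)) := by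
          gcongr
      _ = K * Real.exp ((|k.im| + 1) * |1 - t| + (|k.im| + 1 + K) * |t|) := by
          rw [Real.exp_add]; ring
      _ ≤ K * Real.exp ((1 + K) + |k.im|) := by
          apply mul_le_mul_of_nonneg_left _ hK0
          apply Real.exp_le_exp.2
          have hk0 := abs_nonneg k.im
          rw [abs_of_nonneg (by linarith [ht.2] : (0:ℝ) ≤ 1 - t), abs_of_pos ht.1]
          nlinarith [ht.1, ht.2, hK0]
      _ = _ := by rw [Real.exp_add]; ring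
  have h2 := intervalIntegral.norm_integral_le_of_norm_le_const h1
  simpa using h2

lemma fz1_one_bound (hq : Continuous q) (hK : ∀ x, |q x| ≤ K) (k : ℂ) :
    ‖fz1 q 1 k + k ^ 2 * Sx 1 k‖ ≤ K * Real.exp (1 + K) * Real.exp |k.im| := by
  unfold fz1
  rw [Vsold_int hq Cx_cont hK norm_Cx_le', neg_add_eq_sub, sub_add_cancel]
  exact int_bound hK norm_Cx_le' k (fun t _ => norm_Cx_le' (1 - t) k)

lemma fz2_one_bound (hq : Continuous q) (hK : ∀ x, |q x| ≤ K) (k : ℂ) :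
    ‖fz2 q 1 k - Cx 1 k‖ ≤ K * Real.exp (1 + K) * Real.exp |k.im| := by
  unfold fz2
  rw [Vsold_int hq Sx_cont hK norm_Sx_le', add_sub_cancel_left]
  exact int_bound hK norm_Sx_le' k (fun t _ => norm_Cx_le' (1 - t) k)

end Run7.h374
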