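import Pool.Agent.Run7.h374.MajDC
import Pool.Agent.Run7.h374.Decay
import Pool.Agent.Run7.h374.Defs

/-! Lengths of the lacunae for potentials in Denjoy-Carleman classes. -/

set_option autoImplicit false

namespace Run7.h374

open Filter Topology MeasureTheory AddCircle
open scoped ComplexConjugate ContDiff

section

variable {m : ℕ → ℝ} (h : IsReg m) {Q ρ α β : ℝ}

include h

lemma bdc_col_le (hβ1 : 1 ≤ β) (hα0 : 0 < α) (p : ℕ) :
    bdc α β m p 0 ≤ α ^ p * β * fm m (p + 1) := by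
  rcases p with _ | p
  · rw [bdc_zero]
    simp only [pow_zero, one_mul, zero_add]
    have h1 := h.one_le_fm 1
    rw [h.fm_zero]
    nlinarith
  · rw [bdc_succ_zero]

lemma pow_fm_le {e : ℝ} (he : 0 ≤ e) {N t : ℕ} (htN : t + 1 ≤ N)
    (hN : e * (fm m (N + 1) / fm m N) ≤ 1) : e ^ t * fm m (t + 1) ≤ fm m 1 := by
  have h1 := h.fm_pow 1 t
  have h2 := h.fm_ratio_mono (show t + 1 ≤ N by omega)
  have a1 := h.fm_pos (1 + t)
  have a2 := h.fm_pos (1 + t + 1)
  have a3 := h.fm_pos 1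
  have e1 : 1 + t = t + 1 := by ring
  rw [e1] at h1 a1 a2
  calc e ^ t * fm m (t + 1) ≤ e ^ t * (fm m 1 * (fm m (t + 1 + 1) / fm m (t + 1)) ^ t) := by gcongr
    _ = fm m 1 * (e * (fm m (t + 1 + 1) / fm m (t + 1))) ^ t := by rw [mul_pow]; ring
    _ ≤ fm m 1 * 1 ^ t := by
        gcongr
        refine le_trans ?_ hN
        gcongr
    _ = fm m 1 := by rw [one_pow, mul_one]

/-- size of the remainder -/
lemma dlt_bdc_le (hQ : 0 ≤ Q) (hβ1 : 1 ≤ β) (hα0 : 0 < α) {ε : ℝ}
    (hε : 0 ≤ ε) {N : ℕ} (hN : (ε * α) * (fm m (N + 2) / fm m (N + 1)) ≤ 1) :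
    dlt (fun i => Q * ρ ^ i * fm m i) (bdc α β m) N ε ≤
      (β ^ 2 * (1 + Q) + Q * β ^ 2 * fm m 1) * ((ε * α) ^ N * fm m (N + 3)) := by
  have hβ0 : 0 < β := by linarith
  unfold dlt
  have hK0 : Q * ρ ^ 0 * fm m 0 = Q := by rw [h.fm_zero]; simp
  simp only [hK0]
  have c1 := h.fm_mono (show N + 2 ≤ N + 3 by omega)
  have c2 := h.fm_mono (show N + 1 ≤ N + 3 by omega)
  have c3 := h.fm_pos (N + 3)
  have c4 := h.fm_pos 1
  have c5 := h.fm_pos (N + 1)
  have c6 := h.fm_pos (N + 2)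
  have part1 : ε ^ N * (bdc α β m N 2 + Q * bdc α β m N 0) ≤
      β ^ 2 * (1 + Q) * ((ε * α) ^ N * fm m (N + 3)) := by
    have b1 : bdc α β m N 2 = α ^ N * β ^ 2 * fm m (N + 2) := by
      rw [show (2:ℕ) = 1 + 1 by rfl, bdc_succ]
    have b2 := bdc_col_le h hβ1 hα0 N
    have b3 : α ^ N * β * fm m (N + 1) ≤ α ^ N * β ^ 2 * fm m (N + 3) := by
      have : β ≤ β ^ 2 := by nlinarith
      gcongr
    calc ε ^ N * (bdc α β m N 2 + Q * bdc α β m N 0) ≤
          ε ^ N * (α ^ N * β ^ 2 * fm m (N + 3) + Q * (α ^ N * β ^ 2 * fm m (N + 3))) := by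
          rw [b1]
          have := b2.trans b3
          gcongr
      _ = β ^ 2 * (1 + Q) * ((ε * α) ^ N * fm m (N + 3)) := by rw [mul_pow]; ring
  have part2 : ∑ p ∈ remIdx N, ε ^ (p.1 + p.2) * (Q * bdc α β m p.1 0 * bdc α β m p.2 0) ≤
      Q * β ^ 2 * fm m 1 * ((ε * α) ^ N * fm m (N + 3)) := by
    have hterm : ∀ p ∈ remIdx N, ε ^ (p.1 + p.2) * (Q * bdc α β m p.1 0 * bdc α β m p.2 0) ≤
        Q * β ^ 2 * fm m 1 * ((ε * α) ^ N * fm m (N + 1)) := by
      rintro ⟨p, r⟩ hp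
      unfold remIdx at hp
      simp only [Finset.mem_filter, Finset.mem_product, Finset.mem_range] at hp
      obtain ⟨⟨hp1, hr1⟩, hpr⟩ := hp
      obtain ⟨t, ht⟩ : ∃ t, p + r = N + t := ⟨p + r - N, by omega⟩
      obtain ⟨d, hd⟩ : ∃ d, N = r + d := ⟨N - r, by omega⟩
      have hptd : p + 1 = t + 1 + d := by omega
      have s1 := h.fm_shift (show t + 1 ≤ r + 1 by omega) d
      rw [← hptd, show r + 1 + d = N + 1 by omega] at s1
      have s2 := pow_fm_le h (e := ε * α) (by positivity) (N := N + 1) (t := t) (by omega) hN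
      have s3 := bdc_col_le h hβ1 hα0 p
      have s4 := bdc_col_le h hβ1 hα0 r
      have s5 := h.fm_pos (p + 1)
      have s6 := h.fm_pos (r + 1)
      have s8 := h.fm_pos (t + 1)
      have s7 : 0 ≤ bdc α β m r 0 := by
        unfold bdc
        split_ifs
        · have := h.fm_pos 0; positivity
        · have := h.fm_pos (r + max 0 1); positivity
      calc ε ^ (p + r) * (Q * bdc α β m p 0 * bdc α β m r 0)
          ≤ ε ^ (p + r) * (Q * (α ^ p * β * fm m (p + 1)) * (α ^ r * β * fm m (r + 1))) := by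
            gcongr
        _ = Q * β ^ 2 * (ε * α) ^ (p + r) * (fm m (p + 1) * fm m (r + 1)) := by
            rw [mul_pow, pow_add α]; ring
        _ ≤ Q * β ^ 2 * (ε * α) ^ (p + r) * (fm m (t + 1) * fm m (N + 1)) := by gcongr
        _ = Q * β ^ 2 * ((ε * α) ^ t * fm m (t + 1)) * ((ε * α) ^ N * fm m (N + 1)) := by
            rw [ht, pow_add (ε * α)]; ring
        _ ≤ Q * β ^ 2 * fm m 1 * ((ε * α) ^ N * fm m (N + 1)) := by gcongr
    refine (Finset.sum_le_sum hterm).trans ?_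
    rw [Finset.sum_const, nsmul_eq_mul]
    have hcard : ((remIdx N).card : ℝ) ≤ (N + 2) * (N + 3) := by
      have : (remIdx N).card ≤ (N + 2) * (N + 3) := by
        unfold remIdx
        refine (Finset.card_filter_le _ _).trans ?_
        rw [Finset.card_product, Finset.card_range, Finset.card_range]
        exact Nat.mul_le_mul (by omega) (by omega)
      exact_mod_cast this
    have g1 := h.succ_mul_fm (N + 1)
    have g2 := h.succ_mul_fm (N + 2)
    push_cast at g1 g2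
    have g1' : ((N : ℝ) + 2) * fm m (N + 1) ≤ fm m (N + 2) := by
      have : fm m (N + 1 + 1) = fm m (N + 2) := rfl
      rw [this] at g1; linarith
    have g2' : ((N : ℝ) + 3) * fm m (N + 2) ≤ fm m (N + 3) := by
      have : fm m (N + 2 + 1) = fm m (N + 3) := rfl
      rw [this] at g2; linarith
    have g3 : ((N : ℝ) + 2) * (N + 3) * fm m (N + 1) ≤ fm m (N + 3) := by
      calc ((N : ℝ) + 2) * (N + 3) * fm m (N + 1) = (N + 3) * (((N : ℝ) + 2) * fm m (N + 1)) := by ring
        _ ≤ (N + 3) * fm m (N + 2) := by gcongr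
        _ ≤ fm m (N + 3) := g2'
    calc ((remIdx N).card : ℝ) * (Q * β ^ 2 * fm m 1 * ((ε * α) ^ N * fm m (N + 1)))
        ≤ ((N + 2) * (N + 3)) * (Q * β ^ 2 * fm m 1 * ((ε * α) ^ N * fm m (N + 1))) := by gcongr
      _ = Q * β ^ 2 * fm m 1 * ((ε * α) ^ N * (((N : ℝ) + 2) * (N + 3) * fm m (N + 1))) := by ring
      _ ≤ Q * β ^ 2 * fm m 1 * ((ε * α) ^ N * fm m (N + 3)) := by gcongr
  calc ε ^ N * (bdc α β m N 2 + Q * bdc α β m N 0) +
        ∑ p ∈ remIdx N, ε ^ (p.1 + p.2) * (Q * bdc α β m p.1 0 * bdc α β m p.2 0)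
      ≤ β ^ 2 * (1 + Q) * ((ε * α) ^ N * fm m (N + 3)) +
        Q * β ^ 2 * fm m 1 * ((ε * α) ^ N * fm m (N + 3)) := add_le_add part1 part2
    _ = _ := by ring

lemma sumA_le (hβ1 : 1 ≤ β) {ε η : ℝ} (hε : 0 ≤ ε) (hα0 : 0 < α) {N : ℕ}
    (hη : η * (8 * β * fm m 1) ≤ 1) (hN : (ε * α) * (fm m (N + 2) / fm m (N + 1)) ≤ η) :
    ∑ j ∈ Finset.range N, ε ^ (j + 1) * bdc α β m (j + 1) 0 ≤ 1 / 4 := by
  have hβ0 : 0 < β := by linarith
  have c4 := h.one_le_fm 1
  have hσ0 : 0 ≤ fm m (N + 2) / fm m (N + 1) := by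
    have := h.fm_pos (N + 2)
    have := h.fm_pos (N + 1)
    positivity
  have hη0 : 0 ≤ η := le_trans (by positivity) hN
  have hβf : 1 ≤ β * fm m 1 := by nlinarith
  have hη8 : η ≤ 1 / 2 := by nlinarith
  have hterm : ∀ j ∈ Finset.range N, ε ^ (j + 1) * bdc α β m (j + 1) 0 ≤
      β * fm m 1 * η * (1 / 2) ^ j := by
    intro j hj
    have hj' := Finset.mem_range.1 hj
    rw [bdc_succ_zero]
    have h1 := h.fm_pow 1 (j + 1)
    have h2 := h.fm_ratio_mono (show j + 2 ≤ N + 1 by omega)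
    have a1 := h.fm_pos (j + 2)
    have a2 := h.fm_pos (j + 3)
    have a3 := h.fm_pos 1
    have e1 : 1 + (j + 1) = j + 2 := by ring
    rw [e1] at h1
    calc ε ^ (j + 1) * (α ^ (j + 1) * β * fm m (j + 2))
        ≤ ε ^ (j + 1) * (α ^ (j + 1) * β * (fm m 1 * (fm m (j + 2 + 1) / fm m (j + 2)) ^ (j + 1))) := by
          gcongr
      _ = β * fm m 1 * ((ε * α) * (fm m (j + 2 + 1) / fm m (j + 2))) ^ (j + 1) := by
          rw [mul_pow, mul_pow]; ring
      _ ≤ β * fm m 1 * η ^ (j + 1) := by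
          have : (ε * α) * (fm m (j + 2 + 1) / fm m (j + 2)) ≤ η := by
            refine le_trans ?_ hN
            gcongr
          have a4 : 0 ≤ (ε * α) * (fm m (j + 2 + 1) / fm m (j + 2)) := by
            have := h.fm_pos (j + 2 + 1)
            positivity
          gcongr
      _ = β * fm m 1 * η * η ^ j := by ring
      _ ≤ β * fm m 1 * η * (1 / 2) ^ j := by gcongr
  refine (Finset.sum_le_sum hterm).trans ?_
  rw [← Finset.mul_sum]
  have hgeo : ∑ i ∈ Finset.range N, ((1:ℝ) / 2) ^ i ≤ 2 := by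
    have := (summable_geometric_two).sum_le_tsum (Finset.range N) (fun _ _ => by positivity)
    rwa [tsum_geometric_two] at this
  calc β * fm m 1 * η * ∑ i ∈ Finset.range N, ((1:ℝ) / 2) ^ i ≤ β * fm m 1 * η * 2 := by gcongr
    _ ≤ 1 / 4 := by nlinarith

end

/-- the lengths of the lacunae for a potential in a Denjoy-Carleman class -/
theorem gap_dc {m : ℕ → ℝ} (h : IsReg m) {Q ρ : ℝ} (hQ : 0 ≤ Q) (hρ : 0 ≤ ρ) {q : ℝ → ℝ}
    (hq : IsPot q)
    (hK : ∀ i x, ‖iteratedDeriv i (fun x => (q x : ℂ)) x‖ ≤ Q * ρ ^ i * fm m i)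
    {lam : ℕ → ℝ} (hlam : IsHillSpectrum q lam) :
    ∃ C A : ℝ, 0 < C ∧ 1 ≤ A ∧ ∀ n k : ℕ, 1 ≤ n → 5 ≤ k →
      gap lam n ≤ C * (n : ℝ) ^ 4 * ((A / n) ^ k * fm m k) := by
  set β : ℝ := max 1 (2 * ρ) with hβ
  have hβ1 : 1 ≤ β := le_max_left _ _
  have hβρ : 2 * ρ ≤ β := le_max_right _ _
  have hβ0 : 0 < β := by linarith
  set α : ℝ := β + Q + Q * β with hα
  have hα1 : 1 ≤ α := by nlinarith
  have hα0 : 0 < α := by linarith
  have hB := isMajorant_bdc h hQ hρ hβ1 hβρ (le_refl α)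
  set K : ℕ → ℝ := fun i => Q * ρ ^ i * fm m i with hKdef
  set B := bdc α β m with hBdef
  have hK0 : K 0 = Q := by simp only [hKdef]; rw [h.fm_zero]; simp
  have hqs' : ContDiff ℝ ∞ (fun x => (q x : ℂ)) := Complex.ofRealCLM.contDiff.comp hq.1
  have hW := exists_WKB hq.1 hq.2
  have hf1 := h.one_le_fm 1
  set η : ℝ := 1 / (8 * β * fm m 1) with hη
  have hη0 : 0 < η := by positivity
  have hη8 : η * (8 * β * fm m 1) ≤ 1 := by
    rw [hη, one_div, inv_mul_cancel₀ (by positivity)]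
  have hηhalf : η ≤ 1 := by
    rw [hη, div_le_one (by positivity)]
    nlinarith
  set C1 : ℝ := β ^ 2 * (1 + Q) + Q * β ^ 2 * fm m 1 with hC1
  have hC10 : 0 < C1 := by positivity
  obtain ⟨n0, hn0⟩ := exists_nat_ge (C1 * (α ^ 2 * fm m 5) + (α * (fm m 6 / fm m 5)) / η +
    3 * Q + 9)
  have f5 := h.fm_pos 5
  have f6 := h.fm_pos 6
  have hn0pos : (9:ℝ) ≤ n0 := by
    have : 0 ≤ C1 * (α ^ 2 * fm m 5) + (α * (fm m 6 / fm m 5)) / η + 3 * Q := by positivity
    linarith
  set C : ℝ := 16 * C1 + 2 * Q + 1 with hC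
  set A : ℝ := α + α / η + n0 with hA
  have hA1 : 1 ≤ A := by
    have : 0 ≤ α / η := by positivity
    have : (0:ℝ) ≤ n0 := by positivity
    linarith
  have hAα : α ≤ A := by
    have : 0 ≤ α / η := by positivity
    have : (0:ℝ) ≤ n0 := by positivity
    linarith
  -- the direct estimate
  have direct : ∀ n k : ℕ, n0 ≤ n → 5 ≤ k → α * (fm m (k + 1) / fm m k) ≤ η * n →
      gap lam n ≤ 16 * C1 * (n : ℝ) ^ 3 * ((α / n) ^ k * fm m k) := by
    intro n k hn hk hadm
    obtain ⟨N, rfl⟩ : ∃ N, k = N + 3 := ⟨k - 3, by omega⟩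
    have hnn : (n0 : ℝ) ≤ n := by exact_mod_cast hn
    have hn9 : (9:ℝ) ≤ n := hn0pos.trans hnn
    have hn1 : 1 ≤ n := by
      have : (1:ℝ) ≤ n := by linarith
      exact_mod_cast this
    have hnpos : (0:ℝ) < n := by linarith
    set ε : ℝ := 1 / (2 * Real.pi * n) with hε
    have hε0 : 0 < ε := by positivity
    have hεn : ε ≤ 1 / n := by
      rw [hε]
      apply one_div_le_one_div_of_le hnpos
      nlinarith [Real.pi_gt_three]
    have hεα : ε * α * (fm m (N + 4) / fm m (N + 3)) ≤ η := by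
      have h1 : fm m (N + 3 + 1) = fm m (N + 4) := rfl
      rw [h1] at hadm
      have h2 := h.fm_pos (N + 4)
      have h3 := h.fm_pos (N + 3)
      calc ε * α * (fm m (N + 4) / fm m (N + 3)) ≤ 1 / n * α * (fm m (N + 4) / fm m (N + 3)) := by
            gcongr
        _ = (α * (fm m (N + 4) / fm m (N + 3))) / n := by ring
        _ ≤ η := by rw [div_le_iff₀ hnpos]; exact hadm
    have hratio : ∀ j, j ≤ N + 3 → ε * α * (fm m (j + 1) / fm m j) ≤ η := by
      intro j hj
      refine le_trans ?_ hεα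
      have h1 := h.fm_ratio_mono hj
      have h2 : fm m (N + 3 + 1) = fm m (N + 4) := rfl
      rw [h2] at h1
      gcongr
    have hA' := sumA_le h hβ1 hε0.le hα0 (N := N) hη8 (hratio (N + 1) (by omega))
    have hd := dlt_bdc_le h (Q := Q) (ρ := ρ) hQ hβ1 hα0 hε0.le (N := N)
      ((hratio (N + 1) (by omega)).trans hηhalf)
    rw [← hC1] at hd
    have hδ : dlt K B N ε ≤ 1 := by
      refine hd.trans ?_
      obtain ⟨M, rfl⟩ : ∃ M, N = M + 2 := ⟨N - 2, by omega⟩
      have h1 := h.fm_pow 5 M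
      have e1 : 5 + M = M + 2 + 3 := by ring
      rw [e1] at h1
      have a1 := h.fm_pos (M + 2 + 3)
      have a2 := h.fm_pos (M + 2 + 3 + 1)
      have h2 := hratio (M + 2 + 3) (le_refl _)
      have h3 : (ε * α) ^ (M + 2) * fm m (M + 2 + 3) ≤ (ε * α) ^ 2 * fm m 5 := by
        calc (ε * α) ^ (M + 2) * fm m (M + 2 + 3)
            ≤ (ε * α) ^ (M + 2) * (fm m 5 * (fm m (M + 2 + 3 + 1) / fm m (M + 2 + 3)) ^ M) := by
              gcongr
          _ = (ε * α) ^ 2 * fm m 5 * ((ε * α) * (fm m (M + 2 + 3 + 1) / fm m (M + 2 + 3))) ^ M := by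
              rw [mul_pow ((ε * α)), pow_add (ε * α)]; ring
          _ ≤ (ε * α) ^ 2 * fm m 5 * 1 ^ M := by
              gcongr
              exact h2.trans hηhalf
          _ = (ε * α) ^ 2 * fm m 5 := by rw [one_pow, mul_one]
      calc C1 * ((ε * α) ^ (M + 2) * fm m (M + 2 + 3)) ≤ C1 * ((ε * α) ^ 2 * fm m 5) := by gcongr
        _ ≤ C1 * ((1 / n * α) ^ 2 * fm m 5) := by gcongr
        _ = (C1 * (α ^ 2 * fm m 5)) / (n : ℝ) ^ 2 := by field_simp
        _ ≤ 1 := by
            rw [div_le_one (by positivity)]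
            have h4 : C1 * (α ^ 2 * fm m 5) ≤ n := by
              have : 0 ≤ (α * (fm m 6 / fm m 5)) / η := by positivity
              linarith
            nlinarith
    have hbig : 3 * K 0 + 8 < Real.pi ^ 2 * (2 * n - 1) := by
      rw [hK0]
      have h1 : (9:ℝ) ≤ Real.pi ^ 2 := by nlinarith [Real.pi_gt_three]
      have h2 : 9 * (2 * (n:ℝ) - 1) ≤ Real.pi ^ 2 * (2 * n - 1) := by
        apply mul_le_mul_of_nonneg_right h1
        linarith
      have h3 : 3 * Q + 9 ≤ n := by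
        have : 0 ≤ C1 * (α ^ 2 * fm m 5) + (α * (fm m 6 / fm m 5)) / η := by positivity
        linarith
      linarith
    have hmain := gap_le hq.1.continuous hq.2 hqs' hW hlam hB hn1 (fun i _ => hK i) hA' hδ hbig
    refine hmain.trans ?_
    have h5 := h.fm_pos (N + 3)
    calc 16 * dlt K B N ε ≤ 16 * (C1 * ((ε * α) ^ N * fm m (N + 3))) := by gcongr
      _ ≤ 16 * (C1 * ((1 / n * α) ^ N * fm m (N + 3))) := by gcongr
      _ = 16 * C1 * ((α / n) ^ N * fm m (N + 3)) := by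
          rw [show (1:ℝ) / n * α = α / n by ring]; ring
      _ ≤ 16 * C1 * ((n:ℝ) ^ 3 * (α / n) ^ (N + 3) * fm m (N + 3)) := by
          have h6 : (α / (n:ℝ)) ^ N ≤ (n:ℝ) ^ 3 * (α / n) ^ (N + 3) := by
            rw [pow_add (α / (n:ℝ)) N 3]
            have h7 : (n:ℝ) ^ 3 * ((α / n) ^ N * (α / n) ^ 3) = (α / n) ^ N * α ^ 3 := by
              field_simp
            rw [h7]
            have h8 : (1:ℝ) ≤ α ^ 3 := one_le_pow₀ hα1
            have h9 : 0 ≤ (α / (n:ℝ)) ^ N := by positivity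
            nlinarith
          gcongr
      _ = _ := by ring
  have hC0 : 0 < C := by positivity
  refine ⟨C, A, hC0, hA1, ?_⟩
  intro n k hn hk
  have hn1 : (1:ℝ) ≤ n := by exact_mod_cast hn
  have hnpos : (0:ℝ) < n := by linarith
  rcases lt_or_ge n n0 with hlt | hge
  · have h1 := gap_le_two hq.1.continuous hq.2 hlam hn
    have h2 : ‖qC q hq.1.continuous hq.2‖ ≤ Q := norm_qC_le _ _ fun x => by
      have := hK 0 x
      rw [iteratedDeriv_zero, h.fm_zero] at this
      simpa using this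
    have h3 : (1:ℝ) ≤ (A / n) ^ k * fm m k := by
      have h4 : (1:ℝ) ≤ A / n := by
        rw [one_le_div hnpos]
        have h5 : (n : ℝ) ≤ n0 := by exact_mod_cast hlt.le
        have : 0 ≤ α / η := by positivity
        linarith
      have h5 : (1:ℝ) ≤ (A / n) ^ k := one_le_pow₀ h4
      have h6 := h.one_le_fm k
      nlinarith
    have h4 : (1:ℝ) ≤ (n:ℝ) ^ 4 := one_le_pow₀ hn1
    calc gap lam n ≤ 2 * Q := by linarith
      _ ≤ C := by rw [hC]; linarith
      _ = C * 1 * 1 := by ring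
      _ ≤ C * (n : ℝ) ^ 4 * ((A / n) ^ k * fm m k) := by gcongr
  · -- induction on k
    have hadm5 : α * (fm m 6 / fm m 5) ≤ η * n := by
      have h1 : (α * (fm m 6 / fm m 5)) / η ≤ n := by
        have h2 : (n0 : ℝ) ≤ n := by exact_mod_cast hge
        have : 0 ≤ C1 * (α ^ 2 * fm m 5) := by positivity
        linarith
      rw [div_le_iff₀ hη0] at h1
      linarith
    have step1 : ∀ k, 5 ≤ k → α * (fm m (k + 1) / fm m k) ≤ η * n →
        gap lam n ≤ C * (n : ℝ) ^ 3 * ((A / n) ^ k * fm m k) := by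
      intro k hk hadm
      have hkpos := h.fm_pos k
      refine (direct n k hge hk hadm).trans ?_
      have h1 : 16 * C1 ≤ C := by rw [hC]; linarith
      gcongr
    induction k, hk using Nat.le_induction with
    | base =>
      refine (step1 5 le_rfl hadm5).trans ?_
      have h1 : (n:ℝ) ^ 3 ≤ (n:ℝ) ^ 4 := pow_le_pow_right₀ hn1 (by omega)
      gcongr
    | succ k hk ih =>
      by_cases hadm1 : α * (fm m (k + 1 + 1) / fm m (k + 1)) ≤ η * n
      · refine (step1 (k + 1) (by omega) hadm1).trans ?_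
        have h1 : (n:ℝ) ^ 3 ≤ (n:ℝ) ^ 4 := pow_le_pow_right₀ hn1 (by omega)
        have hkpos := h.fm_pos (k + 1)
        gcongr
      · by_cases hadm0 : α * (fm m (k + 1) / fm m k) ≤ η * n
        · refine (step1 k hk hadm0).trans ?_
          have h1 := h.fm_mono (show k ≤ k + 1 by omega)
          have hkpos := h.fm_pos k
          have hkpos' := h.fm_pos (k + 1)
          calc C * (n : ℝ) ^ 3 * ((A / n) ^ k * fm m k)
              ≤ C * (n : ℝ) ^ 3 * ((A / n) ^ k * fm m (k + 1)) := by gcongr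
            _ ≤ C * (n : ℝ) ^ 3 * ((A / n) ^ k * fm m (k + 1)) * A := by
                have : 0 ≤ C * (n : ℝ) ^ 3 * ((A / n) ^ k * fm m (k + 1)) := by positivity
                nlinarith
            _ = C * (n : ℝ) ^ 4 * ((A / n) ^ (k + 1) * fm m (k + 1)) := by
                rw [pow_succ (A / (n:ℝ)) k]
                field_simp
        · refine ih.trans ?_
          push Not at hadm0
          have hkpos := h.fm_pos k
          have hkpos' := h.fm_pos (k + 1)
          have h1 : fm m k ≤ (A / n) * fm m (k + 1) := by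
            have h2 : η * n * fm m k < α * fm m (k + 1) := by
              have h3 : α * (fm m (k + 1) / fm m k) = (α * fm m (k + 1)) / fm m k := by ring
              rw [h3, lt_div_iff₀ hkpos] at hadm0
              exact hadm0
            have h3 : n * fm m k ≤ (α / η) * fm m (k + 1) := by
              rw [div_mul_eq_mul_div, le_div_iff₀ hη0]
              nlinarith
            have h4 : α / η ≤ A := by
              have : (0:ℝ) ≤ n0 := by positivity
              linarith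
            rw [div_mul_eq_mul_div, le_div_iff₀ hnpos]
            calc fm m k * n = n * fm m k := by ring
              _ ≤ (α / η) * fm m (k + 1) := h3
              _ ≤ A * fm m (k + 1) := by gcongr
          calc C * (n : ℝ) ^ 4 * ((A / n) ^ k * fm m k)
              ≤ C * (n : ℝ) ^ 4 * ((A / n) ^ k * ((A / n) * fm m (k + 1))) := by gcongr
            _ = C * (n : ℝ) ^ 4 * ((A / n) ^ (k + 1) * fm m (k + 1)) := by rw [pow_succ]; ring

end Run7.h374
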