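import Pool.Agent.Run7.h374.Circ
import Pool.Agent.Run7.h374.Defs

/-! Classical solutions and eigenvectors in `L²` of the circle of length 2. -/

set_option autoImplicit false
set_option linter.unusedSectionVars false

namespace Run7.h374

open Filter Topology MeasureTheory AddCircle
open scoped ComplexConjugate

/-- 2-periodic solutions of `-f'' + q f = μ f` -/
noncomputable def sol2 (q : ℝ → ℝ) (μ : ℝ) : Submodule ℂ (ℝ → ℂ) where
  carrier := {f | ContDiff ℝ 2 f ∧ (∀ x, -(deriv (deriv f) x) + (q x : ℂ) * f x = (μ : ℂ) * f x) ∧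
    ∀ x, f (x + 2) = f x}
  zero_mem' := by
    refine ⟨contDiff_const, ?_, ?_⟩
    · intro x
      have : deriv (deriv (0 : ℝ → ℂ)) x = 0 := by
        have h : deriv (0 : ℝ → ℂ) = 0 := by
          ext y
          exact deriv_const y (0 : ℂ)
        rw [h]
        exact deriv_const x (0 : ℂ)
      rw [this]; simp
    · intro x; simp
  add_mem' := by
    rintro f g ⟨hf, hf1, hf2⟩ ⟨hg, hg1, hg2⟩
    refine ⟨hf.add hg, ?_, ?_⟩
    · intro x
      have h1 : deriv (f + g) = deriv f + deriv g := by
        ext y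
        exact deriv_add (hf.differentiable (by norm_num) y) (hg.differentiable (by norm_num) y)
      have h2 : deriv (deriv f + deriv g) x = deriv (deriv f) x + deriv (deriv g) x := by
        apply deriv_add
        · exact ((hf.iterate_deriv' 1 1).differentiable (by norm_num)) x
        · exact ((hg.iterate_deriv' 1 1).differentiable (by norm_num)) x
      rw [h1, h2]
      have e1 := hf1 x
      have e2 := hg1 x
      simp only [Pi.add_apply]
      linear_combination e1 + e2
    · intro x
      simp only [Pi.add_apply, hf2 x, hg2 x]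
  smul_mem' := by
    rintro c f ⟨hf, hf1, hf2⟩
    refine ⟨contDiff_const.smul hf, ?_, ?_⟩
    · intro x
      have h1 : deriv (c • f) = c • deriv f := by
        ext y
        exact deriv_const_smul c (hf.differentiable (by norm_num) y)
      have h2 : deriv (c • deriv f) x = c • deriv (deriv f) x := by
        apply deriv_const_smul
        exact ((hf.iterate_deriv' 1 1).differentiable (by norm_num)) x
      rw [h1, h2]
      have e1 := hf1 x
      simp only [Pi.smul_apply, smul_eq_mul]
      linear_combination c * e1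
    · intro x
      simp only [Pi.smul_apply, hf2 x]

lemma deriv_shift {f : ℝ → ℂ} (c x : ℝ) : deriv (fun y => f (y + c)) x = deriv f (x + c) :=
  deriv_comp_add_const f c x

lemma deriv2_shift {f : ℝ → ℂ} (c x : ℝ) :
    deriv (deriv (fun y => f (y + c))) x = deriv (deriv f) (x + c) := by
  have h1 : deriv (fun y => f (y + c)) = fun y => deriv f (y + c) := by
    ext y; exact deriv_shift c y
  rw [h1]
  exact deriv_shift c x

/-- translation by 1 preserves the 2-periodic solutions -/
lemma shift_mem {q : ℝ → ℝ} (hper : ∀ x, q (x + 1) = q x) {μ : ℝ} {f : ℝ → ℂ}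
    (hf : f ∈ sol2 q μ) : (fun x => f (x + 1)) ∈ sol2 q μ := by
  obtain ⟨h1, h2, h3⟩ := hf
  refine ⟨?_, ?_, ?_⟩
  · exact h1.comp (contDiff_id.add contDiff_const)
  · intro x
    rw [deriv2_shift, ← hper x]
    exact h2 (x + 1)
  · intro x
    show f (x + 2 + 1) = f (x + 1)
    rw [← h3 (x + 1)]; congr 1; ring

lemma eigSpace_le {q : ℝ → ℝ} {μ : ℝ} {σ : ℂ} (hσ : σ * σ = 1) : eigSpace q σ μ ≤ sol2 q μ := by
  rintro f ⟨h1, h2, h3⟩
  refine ⟨h1, h2, fun x => ?_⟩
  have : x + 2 = (x + 1) + 1 := by ring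
  rw [this, h3, h3, ← mul_assoc, hσ, one_mul]

/-- `sol2 = periodic ⊕ antiperiodic` -/
noncomputable def splitEquiv (q : ℝ → ℝ) (hper : ∀ x, q (x + 1) = q x) (μ : ℝ) :
    sol2 q μ ≃ₗ[ℂ] (eigSpace q 1 μ × eigSpace q (-1) μ) where
  toFun f := (⟨(1/2 : ℂ) • ((f : ℝ → ℂ) + fun x => (f : ℝ → ℂ) (x + 1)), by
      have h := (sol2 q μ).smul_mem (1/2 : ℂ) ((sol2 q μ).add_mem f.2 (shift_mem hper f.2))
      refine ⟨h.1, h.2.1, fun x => ?_⟩
      simp only [Pi.smul_apply, Pi.add_apply, smul_eq_mul]
      have e0 : x + 1 + 1 = x + 2 := by ring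
      have e1 : (f : ℝ → ℂ) (x + 1 + 1) = (f : ℝ → ℂ) x := by
        rw [e0]; exact f.2.2.2 x
      rw [e1]; ring⟩,
    ⟨(1/2 : ℂ) • ((f : ℝ → ℂ) + (-1 : ℂ) • fun x => (f : ℝ → ℂ) (x + 1)), by
      have h := (sol2 q μ).smul_mem (1/2 : ℂ) ((sol2 q μ).add_mem f.2
        ((sol2 q μ).smul_mem (-1 : ℂ) (shift_mem hper f.2)))
      refine ⟨h.1, h.2.1, fun x => ?_⟩
      simp only [Pi.smul_apply, Pi.add_apply, smul_eq_mul]
      have e0 : x + 1 + 1 = x + 2 := by ring
      have e1 : (f : ℝ → ℂ) (x + 1 + 1) = (f : ℝ → ℂ) x := by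
        rw [e0]; exact f.2.2.2 x
      rw [e1]; ring⟩)
  map_add' f g := by
    ext x
    · simp only [Submodule.coe_add, Pi.add_apply, Pi.smul_apply, smul_eq_mul, Prod.fst_add]; ring
    · simp only [Submodule.coe_add, Pi.add_apply, Pi.smul_apply, smul_eq_mul, Prod.snd_add]; ring
  map_smul' c f := by
    ext x
    · simp only [Submodule.coe_smul, Pi.add_apply, Pi.smul_apply, smul_eq_mul, Prod.smul_fst,
        RingHom.id_apply]; ring
    · simp only [Submodule.coe_smul, Pi.add_apply, Pi.smul_apply, smul_eq_mul, Prod.smul_snd,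
        RingHom.id_apply]; ring
  invFun p := ⟨(p.1 : ℝ → ℂ) + (p.2 : ℝ → ℂ), (sol2 q μ).add_mem
    (eigSpace_le (by norm_num) p.1.2) (eigSpace_le (by norm_num) p.2.2)⟩
  left_inv f := by
    ext x
    simp only [Pi.add_apply, Pi.smul_apply, smul_eq_mul]
    ring
  right_inv p := by
    have e1 : ∀ x, (p.1 : ℝ → ℂ) (x + 1) = 1 * (p.1 : ℝ → ℂ) x := p.1.2.2.2
    have e2 : ∀ x, (p.2 : ℝ → ℂ) (x + 1) = (-1) * (p.2 : ℝ → ℂ) x := p.2.2.2.2
    ext x
    · simp only [Pi.add_apply, Pi.smul_apply, smul_eq_mul, e1, e2]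
      ring
    · simp only [Pi.add_apply, Pi.smul_apply, smul_eq_mul, e1, e2]
      ring

/-- the potential on the circle of length 2 -/
noncomputable def qC (q : ℝ → ℝ) (hq : Continuous q) (hper : ∀ x, q (x + 1) = q x) : C(Cir, ℂ) :=
  toC (fun x => (q x : ℂ)) (by fun_prop) (by
    intro x
    show ((q (x + 2) : ℝ) : ℂ) = q x
    have : x + 2 = x + 1 + 1 := by ring
    rw [this, hper, hper])

lemma conj_qC (q : ℝ → ℝ) (hq : Continuous q) (hper : ∀ x, q (x + 1) = q x) (x : Cir) :
    conj (qC q hq hper x) = qC q hq hper x := by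
  induction x using QuotientAddGroup.induction_on with
  | H x => exact Complex.conj_ofReal _

lemma periodic_deriv {f : ℝ → ℂ} (hp : Function.Periodic f 2) : Function.Periodic (deriv f) 2 := by
  intro x
  rw [← deriv_shift]
  congr 1
  ext y
  exact hp y

lemma isD_of_C2 {f : ℝ → ℂ} (hf : ContDiff ℝ 2 f) (hp : Function.Periodic f 2) :
    IsD bas dd (cls (toC f hf.continuous hp))
      (cls (toC (fun x => -(deriv (deriv f) x))
        ((hf.iterate_deriv' 0 2).continuous.neg)
        (by intro x; simp only; rw [periodic_deriv (periodic_deriv hp) x]))) := by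
  intro k
  rw [inner_bas_cls, inner_bas_cls]
  have hc1 : ContDiff ℝ 1 (deriv f) := hf.iterate_deriv' 1 1
  have hc2 : Continuous (deriv (deriv f)) := (hf.iterate_deriv' 0 2).continuous
  have hp1 := periodic_deriv hp
  have hp2 := periodic_deriv hp1
  have h1 := fourierCoeff_deriv f (deriv f)
    (fun x => (hf.differentiable (by norm_num) x).hasDerivAt) hc1.continuous hf.continuous hp hp1 k
  have h2 := fourierCoeff_deriv (deriv f) (deriv (deriv f))
    (fun x => (hc1.differentiable (by norm_num) x).hasDerivAt) hc2 hc1.continuous hp1 hp2 k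
  have h3 : (toC (fun x => -(deriv (deriv f) x)) ((hf.iterate_deriv' 0 2).continuous.neg)
        (by intro x; simp only; rw [periodic_deriv (periodic_deriv hp) x]) : C(Cir, ℂ)) =
      (-1 : ℂ) • toC (deriv (deriv f)) hc2 hp2 := by
    ext x
    induction x using QuotientAddGroup.induction_on with
    | H x =>
      show -(deriv (deriv f) x) = (-1 : ℂ) * deriv (deriv f) x
      ring
  rw [h3]
  have h4 : fourierCoeff (⇑((-1 : ℂ) • toC (deriv (deriv f)) hc2 hp2)) k =
      (-1 : ℂ) * fourierCoeff (toC (deriv (deriv f)) hc2 hp2) k := by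
    rw [ContinuousMap.coe_smul, fourierCoeff.const_smul, smul_eq_mul]
  rw [h4, h2, h1]
  unfold dd
  push_cast
  have : Complex.I * Complex.I = -1 := Complex.I_mul_I
  linear_combination (-(Real.pi : ℂ) ^ 2 * (k : ℂ) ^ 2 * fourierCoeff (toC f hf.continuous hp) k) * this

/-- the eigenvectors in `L²` -/
def Eig (Q : HH →L[ℂ] HH) (μ : ℝ) : Submodule ℂ HH where
  carrier := {F | IsD bas dd F ((μ : ℂ) • F - Q F)}
  zero_mem' := by
    have h : IsD bas dd (0 : HH) 0 := IsD.zero
    have e : (μ : ℂ) • (0 : HH) - Q 0 = 0 := by rw [smul_zero, map_zero, sub_zero]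
    show IsD bas dd (0 : HH) ((μ : ℂ) • (0 : HH) - Q 0)
    rw [e]; exact h
  add_mem' := by
    intro F G hF hG
    have h := IsD.add hF hG
    have e : (μ : ℂ) • (F + G) - Q (F + G) = (μ : ℂ) • F - Q F + ((μ : ℂ) • G - Q G) := by
      rw [smul_add, map_add]; abel
    show IsD bas dd (F + G) ((μ : ℂ) • (F + G) - Q (F + G))
    rw [e]; exact h
  smul_mem' := by
    intro c F hF
    have h := IsD.smul c hF
    have e : (μ : ℂ) • (c • F) - Q (c • F) = c • ((μ : ℂ) • F - Q F) := by
      rw [map_smul, smul_sub, smul_comm]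
    show IsD bas dd (c • F) ((μ : ℂ) • (c • F) - Q (c • F))
    rw [e]; exact h

lemma cls_sub (f g : C(Cir, ℂ)) : cls (f - g) = cls f - cls g :=
  map_sub (ContinuousMap.toLp (E := ℂ) 2 (haarAddCircle (T := (2:ℝ))) ℂ) f g

lemma cls_add (f g : C(Cir, ℂ)) : cls (f + g) = cls f + cls g :=
  map_add (ContinuousMap.toLp (E := ℂ) 2 (haarAddCircle (T := (2:ℝ))) ℂ) f g

lemma cls_smul (c : ℂ) (f : C(Cir, ℂ)) : cls (c • f) = c • cls f :=
  map_smul (ContinuousMap.toLp (E := ℂ) 2 (haarAddCircle (T := (2:ℝ))) ℂ) c f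

lemma cls_injective : Function.Injective (cls : C(Cir, ℂ) → HH) :=
  ContinuousMap.toLp_injective haarAddCircle

lemma toC_congr {f g : ℝ → ℂ} (hf : Continuous f) (hp : Function.Periodic f 2) (hg : Continuous g)
    (hp' : Function.Periodic g 2) (h : ∀ x, f x = g x) : toC f hf hp = toC g hg hp' := by
  ext x
  induction x using QuotientAddGroup.induction_on with
  | H x => exact h x

lemma toC_inj {f g : ℝ → ℂ} (hf : Continuous f) (hp : Function.Periodic f 2) (hg : Continuous g)
    (hp' : Function.Periodic g 2) (h : toC f hf hp = toC g hg hp') (x : ℝ) : f x = g x := by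
  have := congrArg (fun u : C(Cir, ℂ) => u (x : Cir)) h
  exact this

/-- a 2-periodic solution gives an eigenvector -/
lemma Eig_of_sol {q : ℝ → ℝ} (hq : Continuous q) (hper : ∀ x, q (x + 1) = q x) {μ : ℝ}
    {f : ℝ → ℂ} (hf : f ∈ sol2 q μ) :
    cls (toC f hf.1.continuous hf.2.2) ∈ Eig (mulOp (qC q hq hper)) μ := by
  have h1 := isD_of_C2 hf.1 hf.2.2
  show IsD bas dd (cls (toC f hf.1.continuous hf.2.2)) ((μ : ℂ) • cls (toC f hf.1.continuous hf.2.2) -
    mulOp (qC q hq hper) (cls (toC f hf.1.continuous hf.2.2)))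
  rw [mulOp_cls]
  have h2 : (μ : ℂ) • cls (toC f hf.1.continuous hf.2.2) -
      cls (qC q hq hper * toC f hf.1.continuous hf.2.2) =
      cls ((μ : ℂ) • toC f hf.1.continuous hf.2.2 - qC q hq hper * toC f hf.1.continuous hf.2.2) := by
    rw [cls_sub, cls_smul]
  rw [h2]
  convert h1 using 2
  ext x
  induction x using QuotientAddGroup.induction_on with
  | H x =>
    show (μ : ℂ) * f x - (q x : ℂ) * f x = -(deriv (deriv f) x)
    have := hf.2.1 x
    linear_combination -this

/-- an `L²` function with summable Fourier coefficients is continuous -/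
lemma exists_cont {F : HH} (h : Summable fun k => ‖fourierCoeff F k‖) :
    ∃ g : C(Cir, ℂ), cls g = F := by
  have h1 : Summable fun k : ℤ => fourierCoeff F k • (fourier k : C(Cir, ℂ)) := by
    apply Summable.of_norm_bounded h
    intro k
    rw [norm_smul, fourier_norm, mul_one]
  refine ⟨∑' k : ℤ, fourierCoeff F k • (fourier k : C(Cir, ℂ)), ?_⟩
  have h2 := h1.hasSum.mapL (ContinuousMap.toLp (E := ℂ) 2 (haarAddCircle (T := (2:ℝ))) ℂ)
  have h3 := hasSum_fourier_series_L2 F
  refine h2.unique ?_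
  convert h3 using 2
  rw [map_smul]

lemma abs_inner_le (F : HH) (k : ℤ) : ‖(inner ℂ (bas k) F : ℂ)‖ ≤ ‖F‖ := by
  have := norm_inner_le_norm (𝕜 := ℂ) (bas k) F
  rwa [bas.orthonormal.1 k, one_mul] at this

lemma summable_of_isD {F G : HH} (h : IsD bas dd F G) : Summable fun k => ‖fourierCoeff F k‖ := by
  have h1 : Summable fun k : ℤ => (‖G‖ / Real.pi ^ 2) * (1 / (k:ℝ) ^ 2) :=
    (Real.summable_one_div_int_pow.2 (by norm_num)).mul_left _
  apply Summable.of_norm_bounded_eventually h1
  rw [Filter.eventually_cofinite]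
  apply (Set.finite_singleton (0 : ℤ)).subset
  intro k hk
  simp only [Set.mem_singleton_iff]
  by_contra hk0
  apply hk
  rw [norm_norm, ← inner_bas]
  have h2 := abs_inner_le G k
  rw [h k, norm_mul, Complex.norm_real, Real.norm_eq_abs] at h2
  have hkr : (k:ℝ) ≠ 0 := by exact_mod_cast hk0
  have h3 : 0 < dd k := by unfold dd; positivity
  rw [abs_of_pos h3] at h2
  have h4 : ‖(inner ℂ (bas k) F : ℂ)‖ ≤ ‖G‖ / dd k := by
    rw [le_div_iff₀ h3]; linarith
  refine h4.trans (le_of_eq ?_)
  unfold dd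
  field_simp

/-- antiderivative of a mean-zero periodic function -/
lemma exists_antideriv {h : ℝ → ℂ} (hc : Continuous h) (hp : Function.Periodic h 2)
    (h0 : ∫ x in (0:ℝ)..2, h x = 0) : ∃ g : ℝ → ℂ, (∀ x, HasDerivAt g (h x) x) ∧
      Function.Periodic g 2 ∧ ∫ x in (0:ℝ)..2, g x = 0 := by
  set G : ℝ → ℂ := fun x => ∫ y in (0:ℝ)..x, h y with hG
  have hd : ∀ x, HasDerivAt G (h x) x := fun x => hc.integral_hasStrictDerivAt 0 x |>.hasDerivAt
  have hGp : Function.Periodic G 2 := by
    intro x
    have h1 : G (x + 2) = G x + ∫ y in x..(x+2), h y := by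
      rw [hG]
      exact (intervalIntegral.integral_add_adjacent_intervals (hc.intervalIntegrable _ _)
        (hc.intervalIntegrable _ _)).symm
    rw [h1, hp.intervalIntegral_add_eq x 0, zero_add, h0, add_zero]
  have hGc : Continuous G := continuous_iff_continuousAt.2 fun x => (hd x).continuousAt
  refine ⟨fun x => G x - (1/2 : ℂ) * ∫ y in (0:ℝ)..2, G y, fun x => (hd x).sub_const _, ?_, ?_⟩
  · intro x
    simp only [hGp x]
  · rw [intervalIntegral.integral_sub (hGc.intervalIntegrable _ _) (by simp)]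
    rw [intervalIntegral.integral_const]
    simp only [sub_zero, Complex.real_smul]
    push_cast
    ring

/-- an eigenvector is given by a classical 2-periodic solution -/
lemma sol_of_Eig {q : ℝ → ℝ} (hq : Continuous q) (hper : ∀ x, q (x + 1) = q x) {μ : ℝ}
    {F : HH} (hF : F ∈ Eig (mulOp (qC q hq hper)) μ) :
    ∃ (f : ℝ → ℂ) (hf : f ∈ sol2 q μ), cls (toC f hf.1.continuous hf.2.2) = F := by
  have hF' : IsD bas dd F ((μ : ℂ) • F - mulOp (qC q hq hper) F) := hF
  obtain ⟨g0, hg0⟩ := exists_cont (summable_of_isD hF')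
  set h0 : C(Cir, ℂ) := (μ : ℂ) • g0 - qC q hq hper * g0 with hh0
  have hGh : (μ : ℂ) • F - mulOp (qC q hq hper) F = cls h0 := by
    rw [← hg0, mulOp_cls, hh0, cls_sub, cls_smul]
  rw [hGh] at hF'
  set h : ℝ → ℂ := fun x => h0 (x : Cir) with hh
  have hhc : Continuous h := h0.continuous.comp (AddCircle.continuous_mk' _)
  have hhp : Function.Periodic h 2 := by
    intro x
    show h0 ((x + 2 : ℝ) : Cir) = h0 (x : Cir)
    rw [AddCircle.coe_add_period]
  have hth : toC h hhc hhp = h0 := by
    ext x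
    induction x using QuotientAddGroup.induction_on with
    | H x => rfl
  have hint : ∫ x in (0:ℝ)..2, h x = 0 := by
    have h1 := hF' 0
    rw [inner_bas_cls, ← hth, fourierCoeff_toC] at h1
    have h2 : dd 0 = 0 := by unfold dd; simp
    rw [h2] at h1
    simp only [neg_zero, fourier_zero, one_mul, Complex.ofReal_zero, zero_mul] at h1
    have h3 : ((1/2:ℝ)) ≠ 0 := by norm_num
    exact (smul_eq_zero.1 h1).resolve_left h3
  obtain ⟨y1, hy1, hy1p, hy1i⟩ := exists_antideriv hhc hhp hint
  have hy1c : Continuous y1 := continuous_iff_continuousAt.2 fun x => (hy1 x).continuousAt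
  obtain ⟨y2, hy2, hy2p, hy2i⟩ := exists_antideriv hy1c hy1p hy1i
  have hy2c : Continuous y2 := continuous_iff_continuousAt.2 fun x => (hy2 x).continuousAt
  -- f = a0 - y2
  set a0 : ℂ := inner ℂ (bas 0) F with ha0
  set f : ℝ → ℂ := fun x => a0 - y2 x with hf
  have hfd : ∀ x, HasDerivAt f (-(y1 x)) x := fun x => (hy2 x).const_sub a0
  have hfd2 : ∀ x, HasDerivAt (fun x => -(y1 x)) (-(h x)) x := fun x => (hy1 x).neg
  have hder1 : deriv f = fun x => -(y1 x) := by ext x; exact (hfd x).deriv
  have hder2 : deriv (deriv f) = fun x => -(h x) := by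
    rw [hder1]; ext x; exact (hfd2 x).deriv
  have hfp : Function.Periodic f 2 := by
    intro x; simp only [hf, hy2p x]
  have hfc : Continuous f := continuous_const.sub hy2c
  have hfC2 : ContDiff ℝ 2 f := by
    have e : (2 : WithTop ℕ∞) = 1 + 1 := by norm_num
    rw [e, contDiff_succ_iff_deriv]
    refine ⟨fun x => (hfd x).differentiableAt, by intro h; simp at h, ?_⟩
    rw [hder1]
    have e' : (1 : WithTop ℕ∞) = 0 + 1 := by norm_num
    rw [e', contDiff_succ_iff_deriv]
    refine ⟨fun x => (hfd2 x).differentiableAt, by intro h; simp at h, ?_⟩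
    have : deriv (fun x => -(y1 x)) = fun x => -(h x) := by ext x; exact (hfd2 x).deriv
    rw [this, contDiff_zero]
    exact hhc.neg
  have hfD := isD_of_C2 hfC2 hfp
  have heq : (toC (fun x => -(deriv (deriv f) x)) ((hfC2.iterate_deriv' 0 2).continuous.neg)
        (by intro x; simp only; rw [periodic_deriv (periodic_deriv hfp) x]) : C(Cir, ℂ)) = h0 := by
    rw [← hth]
    apply toC_congr
    intro x
    rw [hder2]; simp
  rw [heq] at hfD
  have hcls : cls (toC f hfC2.continuous hfp) = F := by
    apply ext_inner_basis (b := bas)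
    intro k
    by_cases hk : k = 0
    · rw [hk, inner_bas_cls, fourierCoeff_toC, ← ha0]
      simp only [neg_zero, fourier_zero, one_mul, hf]
      rw [intervalIntegral.integral_sub (by simp) (hy2c.intervalIntegrable _ _), hy2i,
        intervalIntegral.integral_const]
      simp only [sub_zero, Complex.real_smul]
      push_cast
      ring
    · have h1 := hfD k
      have h2 := hF' k
      rw [h1] at h2
      have hkr : (k:ℝ) ≠ 0 := by exact_mod_cast hk
      have h3 : (dd k : ℂ) ≠ 0 := by
        have : 0 < dd k := by unfold dd; positivity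
        exact_mod_cast this.ne'
      exact mul_left_cancel₀ h3 h2
  have hg0f : g0 = toC f hfC2.continuous hfp := cls_injective (hg0.trans hcls.symm)
  refine ⟨f, ⟨hfC2, fun x => ?_, hfp⟩, hcls⟩
  rw [hder2]
  have h4 : h x = (μ : ℂ) * f x - (q x : ℂ) * f x := by
    show h0 (x : Cir) = _
    rw [hh0, hg0f]
    rfl
  simp only
  rw [h4]; ring

/-- linear equivalence between 2-periodic solutions and eigenvectors -/
noncomputable def solEquiv {q : ℝ → ℝ} (hq : Continuous q) (hper : ∀ x, q (x + 1) = q x) (μ : ℝ) :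
    sol2 q μ ≃ₗ[ℂ] Eig (mulOp (qC q hq hper)) μ :=
  LinearEquiv.ofBijective
    { toFun := fun f => ⟨cls (toC f f.2.1.continuous f.2.2.2), Eig_of_sol hq hper f.2⟩
      map_add' := by
        intro f g
        apply Subtype.ext
        show cls _ = cls _ + cls _
        rw [← cls_add]
        congr 1
        ext x
        induction x using QuotientAddGroup.induction_on with
        | H x => rfl
      map_smul' := by
        intro c f
        apply Subtype.ext
        show cls _ = c • cls _
        rw [← cls_smul]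
        congr 1
        ext x
        induction x using QuotientAddGroup.induction_on with
        | H x => rfl }
    ⟨by
      intro f g hfg
      have h1 := congrArg Subtype.val hfg
      have h2 := cls_injective h1
      apply Subtype.ext
      ext x
      exact toC_inj _ _ _ _ h2 x, by
      intro F
      obtain ⟨f, hf, h⟩ := sol_of_Eig hq hper F.2
      exact ⟨⟨f, hf⟩, Subtype.ext h⟩⟩

end Run7.h374
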