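import Pool.Agent.Run7.h374.DiscEq
import Pool.Agent.Run7.h374.Floq2

/-! If `P` spans `F`, isospectral potentials are determined by their jet at one point. -/

set_option autoImplicit false

namespace Run7.h374

open Filter Topology Metric MeasureTheory
open scoped Interval ComplexConjugate ContDiff Classical

variable {p q : ℝ → ℝ} {lam : ℕ → ℝ}

lemma flatDiff_qh (hp : IsPot p) (hq : IsPot q) {x₀ : ℝ}
    (hjet : ∀ j : ℕ, iteratedDeriv j p x₀ = iteratedDeriv j q x₀) :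
    FlatDiff (qh p lam x₀) (qh q lam x₀) := by
  have hP : IsPot (qh p lam x₀) := isPot_qh hp x₀
  have hQ : IsPot (qh q lam x₀) := isPot_qh hq x₀
  set r : ℝ → ℝ := fun x => qh q lam x₀ x - qh p lam x₀ x with hr
  have hrs : ContDiff ℝ ∞ r := hQ.1.sub hP.1
  have hrp : ∀ x, r (x + 1) = r x := by
    intro x; simp only [hr]; rw [hQ.2, hP.2]
  have hr0 : r 0 = 0 := by
    have := hjet 0
    simp only [iteratedDeriv_zero] at this
    simp only [hr, qh, zero_add]
    rw [this]; ring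
  have hj : ∀ {f : ℝ → ℝ}, IsPot f → ∀ j : ℕ, 1 ≤ j →
      iteratedDeriv j (qh f lam x₀) 0 = iteratedDeriv j f x₀ := by
    intro f _ j hj
    obtain ⟨i, rfl⟩ : ∃ i, j = i + 1 := ⟨j - 1, by omega⟩
    have e : (qh f lam x₀) = fun x => (fun x => f (x + x₀)) x + (1 - lam 0) := rfl
    rw [e, iteratedDeriv_add_const', iteratedDeriv_comp_add_const]
    simp only [zero_add]
  have hrd : ∀ j : ℕ, 1 ≤ j → iteratedDeriv j r 0 = 0 := by
    intro j hj1
    have h1 : iteratedDeriv j r 0 = iteratedDeriv j (qh q lam x₀) 0 - iteratedDeriv j (qh p lam x₀) 0 :=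
      iteratedDeriv_fun_sub ((hQ.1.of_le (by exact_mod_cast le_top)).contDiffAt)
        ((hP.1.of_le (by exact_mod_cast le_top)).contDiffAt)
    rw [h1, hj hq j hj1, hj hp j hj1, hjet, sub_self]
  have hfl := flatEnds_of_deriv hrs hrp hrd
  intro N
  obtain ⟨C, hC0, hC⟩ := hfl N
  refine ⟨C, hC0, fun x hx => ?_⟩
  have := hC x hx
  rw [hr0, sub_zero] at this
  exact this

/-- **Jets separate isospectral potentials** if `P` spans `F`. -/
theorem jet_unique (hp : IsPot p) (hq : IsPot q) (hlam : IsHillSpectrum q lam)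
    (hspan : PSpans ℂ lam) (hiso : Isospectral p q) {x₀ : ℝ}
    (hjet : ∀ j : ℕ, iteratedDeriv j p x₀ = iteratedDeriv j q x₀) : p = q := by
  set P := qh p lam x₀ with hPd
  set Q := qh q lam x₀ with hQd
  have hpotP : IsPot P := isPot_qh hp x₀
  have hpotQ : IsPot Q := isPot_qh hq x₀
  have hcP := hpotP.1.continuous
  have hcQ := hpotQ.1.continuous
  obtain ⟨K1, hK1⟩ := exists_pot_bound hpotP
  obtain ⟨K2, hK2⟩ := exists_pot_bound hpotQ
  set K := max K1 K2 with hK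
  have hKP : ∀ x, |P x| ≤ K := fun x => (hK1 x).trans (le_max_left _ _)
  have hKQ : ∀ x, |Q x| ≤ K := fun x => (hK2 x).trans (le_max_right _ _)
  have hK0 : 0 ≤ K := (abs_nonneg _).trans (hKP 0)
  set mu : ℕ → ℝ := fun n => lam n + (1 - lam 0) with hmu
  have hmusQ : IsHillSpectrum Q mu := hill_qh hlam x₀
  have hmusP : IsHillSpectrum P mu := hill_qh (hiso.hill hlam) x₀
  have hmu1 : ∀ n, 1 ≤ mu n := by
    intro n
    have := hlam.mono (Nat.zero_le n)
    simp only [hmu]; linarith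
  have hgap : ∀ n, gap mu n = gap lam n := by
    intro n; unfold gap; simp only [hmu]; ring
  have hΔ : ∀ k, fy1 P 1 k + fz2 P 1 k = fy1 Q 1 k + fz2 Q 1 k :=
    fun k => disc_eq hp hq hlam hiso x₀ k
  have hflat : FlatDiff P Q := flatDiff_qh hp hq hjet
  have hdecay := decay_diff hcP hKP hcQ hKQ hflat hΔ
  have htn : ∀ n, tn lam n = mu (2 * (n + 1)) := fun n => rfl
  have hsq : ∀ n, ((Real.sqrt (tn lam n) : ℝ) : ℂ) ^ 2 = (mu (2 * (n + 1)) : ℂ) := by
    intro n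
    rw [← Complex.ofReal_pow, Real.sq_sqrt (by have := tn_ge hlam n; linarith), htn]
  have hcl : ∀ {r : ℝ → ℝ}, Continuous r → (∀ x, |r x| ≤ K) → IsHillSpectrum r mu →
      ∀ n : ℕ, gap lam (n + 1) = 0 →
      fy1 r 1 (Real.sqrt (tn lam n)) = fz2 r 1 (Real.sqrt (tn lam n)) ∧
      fy2 r 1 (Real.sqrt (tn lam n)) = 0 ∧ fz1 r 1 (Real.sqrt (tn lam n)) = 0 := by
    intro r hc hKr hr n hn
    rw [← hgap] at hn
    apply scalar_of_eq hc hKr hr (n := 2 * (n + 1)) (m := 2 * (n + 1) - 1) (by omega) _ (hsq n)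
    unfold gap at hn
    linarith
  have hsm : ∀ n : ℕ, 1 + Real.sqrt (tn lam n) ≤ 2 * tn lam n := by
    intro n
    have h1 := tn_ge hlam n
    have h2 : Real.sqrt (tn lam n) ≤ tn lam n := by
      apply Real.sqrt_le_iff.2
      constructor
      · linarith
      · nlinarith
    linarith
  obtain ⟨C1, hC10, N1, hN1⟩ := fund_gap hcP hpotP.2 hKP hmusP hmu1
  obtain ⟨C2, hC20, N2, hN2⟩ := fund_gap hcQ hpotQ.2 hKQ hmusQ hmu1
  have hgapb : ∀ n : ℕ, max N1 N2 ≤ n →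
      ‖fy2 Q 1 (Real.sqrt (tn lam n)) - fy2 P 1 (Real.sqrt (tn lam n))‖ ≤
        (2 * (C1 + C2)) * tn lam n ^ 2 * gap lam (n + 1) ∧
      ‖DD Q (Real.sqrt (tn lam n)) - DD P (Real.sqrt (tn lam n))‖ ≤
        (2 * (C1 + C2)) * tn lam n ^ 2 * gap lam (n + 1) ∧
      ‖fz1 Q 1 (Real.sqrt (tn lam n)) - fz1 P 1 (Real.sqrt (tn lam n))‖ ≤
        (2 * (C1 + C2)) * tn lam n ^ 2 * gap lam (n + 1) := by
    intro n hn
    obtain ⟨a1, a2, a3⟩ := hN1 (n + 1) (by have := le_max_left N1 N2; omega)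
    obtain ⟨b1, b2, b3⟩ := hN2 (n + 1) (by have := le_max_right N1 N2; omega)
    rw [← htn, hgap] at a1 a2 a3 b1 b2 b3
    have h5 := hsm n
    have h3 := gap_nonneg hlam (n + 1)
    have h4 := tn_ge hlam n
    have h6 : 1 + Real.sqrt (tn lam n) ≤ 2 * tn lam n ^ 2 := by nlinarith
    have h7 : (1:ℝ) ≤ 2 * tn lam n ^ 2 := by nlinarith
    have key : ∀ c : ℝ, 0 ≤ c → c * gap lam (n + 1) ≤ c * (2 * tn lam n ^ 2) * gap lam (n + 1) ∧
        c * (1 + Real.sqrt (tn lam n)) * gap lam (n + 1) ≤ c * (2 * tn lam n ^ 2) * gap lam (n + 1) := by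
      intro c hc
      constructor
      · calc c * gap lam (n + 1) = c * 1 * gap lam (n + 1) := by ring
          _ ≤ _ := by gcongr
      · gcongr
    obtain ⟨k1, k2⟩ := key C1 hC10
    obtain ⟨l1, l2⟩ := key C2 hC20
    have e : (2 * (C1 + C2)) * tn lam n ^ 2 * gap lam (n + 1) =
        C2 * (2 * tn lam n ^ 2) * gap lam (n + 1) + C1 * (2 * tn lam n ^ 2) * gap lam (n + 1) := by ring
    rw [e]
    unfold DD
    refine ⟨?_, ?_, ?_⟩
    · refine (norm_sub_le _ _).trans ?_; linarith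
    · refine (norm_sub_le _ _).trans ?_; linarith
    · refine (norm_sub_le _ _).trans ?_; linarith
  obtain ⟨G1, hG10, hG1⟩ := growth_DG hcP hKP
  obtain ⟨G2, hG20, hG2⟩ := growth_DG hcQ hKQ
  set E := Real.exp (1 + K) with hE
  have hE0 : 0 < E := Real.exp_pos _
  set B := (1 + K * E) with hB
  have hB0 : 0 ≤ B := by positivity
  set T := G1 + G2 + 2 * E + 2 * B with hT
  have hT0 : 0 ≤ T := by positivity
  have hpw : ∀ k : ℂ, (1:ℝ) ≤ (1 + ‖k‖) ^ 2 ∧ (1 + ‖k‖) ≤ (1 + ‖k‖) ^ 2 := by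
    intro k
    have := norm_nonneg k
    constructor
    · exact one_le_pow₀ (by linarith)
    · nlinarith
  have hev : ∀ {r : ℝ → ℝ}, Continuous r → (∀ x, |r x| ≤ K) → ∀ k,
      fy1 r 1 (-k) = fy1 r 1 k ∧ fz1 r 1 (-k) = fz1 r 1 k ∧ fy2 r 1 (-k) = fy2 r 1 k ∧
        fz2 r 1 (-k) = fz2 r 1 k := fun hc hKr k => fund_congr hc hKr (by ring) 1
  have hcj : ∀ {r : ℝ → ℝ}, Continuous r → (∀ x, |r x| ≤ K) → ∀ x : ℝ,
      conj (fy1 r 1 x) = fy1 r 1 x ∧ conj (fz1 r 1 x) = fz1 r 1 x ∧ conj (fy2 r 1 x) = fy2 r 1 x ∧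
        conj (fz2 r 1 x) = fz2 r 1 x := fun hc hKr x => fund_conj hc hKr (k := (x : ℂ)) (by simp) 1
  -- the three differences vanish
  have v2 : ∀ k, fy2 Q 1 k - fy2 P 1 k = 0 := by
    refine vanish_of_spans hq hlam hspan (R := fun k => fy2 Q 1 k - fy2 P 1 k)
      ((fy2_diff hcQ hKQ 1).sub (fy2_diff hcP hKP 1)) ?_ ?_ (C := T) (p := 2) hT0 ?_ ?_ ?_
      (C' := 2 * (C1 + C2)) (by positivity) (N := max N1 N2) (fun n hn => (hgapb n hn).1)
    · intro k; rw [(hev hcQ hKQ k).2.2.1, (hev hcP hKP k).2.2.1]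
    · intro x; rw [map_sub, (hcj hcQ hKQ x).2.2.1, (hcj hcP hKP x).2.2.1]
    · intro k
      have a := fy2_one_bound hKQ k
      have b := fy2_one_bound hKP k
      have hX := Real.exp_pos |k.im|
      refine (norm_sub_le _ _).trans ?_
      calc ‖fy2 Q 1 k‖ + ‖fy2 P 1 k‖ ≤ (2 * E) * 1 * Real.exp |k.im| := by
            rw [hE]; linarith
        _ ≤ T * (1 + ‖k‖) ^ 2 * Real.exp |k.im| := by
            have := (hpw k).1
            have h2 : 2 * E ≤ T := by rw [hT]; linarith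
            gcongr
    · intro N
      obtain ⟨c, h⟩ := hdecay N
      exact ⟨c, fun y hy => (h y hy).1⟩
    · intro n hn
      rw [(hcl hcQ hKQ hmusQ n hn).2.1, (hcl hcP hKP hmusP n hn).2.1, sub_self]
  have vD : ∀ k, DD Q k - DD P k = 0 := by
    refine vanish_of_spans hq hlam hspan (R := fun k => DD Q k - DD P k)
      (((fz2_diff hcQ hKQ 1).sub (fy1_diff hcQ hKQ 1)).sub
        ((fz2_diff hcP hKP 1).sub (fy1_diff hcP hKP 1))) ?_ ?_ (C := T) (p := 2) hT0 ?_ ?_ ?_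
      (C' := 2 * (C1 + C2)) (by positivity) (N := max N1 N2) (fun n hn => (hgapb n hn).2.1)
    · intro k; simp only [DD]
      rw [(hev hcQ hKQ k).1, (hev hcQ hKQ k).2.2.2, (hev hcP hKP k).1, (hev hcP hKP k).2.2.2]
    · intro x; simp only [DD]
      rw [map_sub, map_sub, map_sub, (hcj hcQ hKQ x).1, (hcj hcQ hKQ x).2.2.2, (hcj hcP hKP x).1,
        (hcj hcP hKP x).2.2.2]
    · intro k
      have a := (hG2 k).1
      have b := (hG1 k).1
      have hX := Real.exp_pos |k.im|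
      refine (norm_sub_le _ _).trans ?_
      calc ‖DD Q k‖ + ‖DD P k‖ ≤ (G1 + G2) * (1 + ‖k‖) ^ 2 * Real.exp |k.im| := by linarith
        _ ≤ T * (1 + ‖k‖) ^ 2 * Real.exp |k.im| := by
            have h2 : G1 + G2 ≤ T := by rw [hT]; linarith
            gcongr
    · intro N
      obtain ⟨c, h⟩ := hdecay N
      exact ⟨c, fun y hy => (h y hy).2.1⟩
    · intro n hn
      simp only [DD]
      rw [(hcl hcQ hKQ hmusQ n hn).1, (hcl hcP hKP hmusP n hn).1]; ring
  have v1 : ∀ k, fz1 Q 1 k - fz1 P 1 k = 0 := by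
    refine vanish_of_spans hq hlam hspan (R := fun k => fz1 Q 1 k - fz1 P 1 k)
      ((fz1_diff hcQ hKQ 1).sub (fz1_diff hcP hKP 1)) ?_ ?_ (C := T) (p := 2) hT0 ?_ ?_ ?_
      (C' := 2 * (C1 + C2)) (by positivity) (N := max N1 N2) (fun n hn => (hgapb n hn).2.2)
    · intro k; rw [(hev hcQ hKQ k).2.1, (hev hcP hKP k).2.1]
    · intro x; rw [map_sub, (hcj hcQ hKQ x).2.1, (hcj hcP hKP x).2.1]
    · intro k
      have a := fz1_growth hcQ hKQ k
      have b := fz1_growth hcP hKP k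
      have hX := Real.exp_pos |k.im|
      refine (norm_sub_le _ _).trans ?_
      calc ‖fz1 Q 1 k‖ + ‖fz1 P 1 k‖ ≤ (2 * B) * (1 + ‖k‖) * Real.exp |k.im| := by
            rw [hB, hE]; linarith
        _ ≤ T * (1 + ‖k‖) ^ 2 * Real.exp |k.im| := by
            have := (hpw k).2
            have h2 : 2 * B ≤ T := by rw [hT]; linarith
            have h3 : 0 ≤ 1 + ‖k‖ := by positivity
            gcongr
    · intro N
      obtain ⟨c, h⟩ := hdecay N
      exact ⟨c, fun y hy => (h y hy).2.2⟩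
    · intro n hn
      rw [(hcl hcQ hKQ hmusQ n hn).2.2, (hcl hcP hKP hmusP n hn).2.2, sub_self]
  have hM : ∀ k, fy1 P 1 k = fy1 Q 1 k ∧ fy2 P 1 k = fy2 Q 1 k ∧ fz1 P 1 k = fz1 Q 1 k ∧
      fz2 P 1 k = fz2 Q 1 k := by
    intro k
    have h1 := v1 k
    have h2 := v2 k
    have h3 := vD k
    have h4 := hΔ k
    unfold DD at h3
    refine ⟨?_, ?_, ?_, ?_⟩
    · linear_combination (1 / 2 : ℂ) * h4 + (1 / 2 : ℂ) * h3
    · linear_combination -h2
    · linear_combination -h1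
    · linear_combination (1 / 2 : ℂ) * h4 - (1 / 2 : ℂ) * h3
  have hPQ := pot_unique hcP hKP hcQ hKQ hM
  have hall : ∀ x, P x = Q x := by
    intro x
    have hper : Function.Periodic (fun x => P x - Q x) 1 := by
      intro x; simp only; rw [hpotP.2, hpotQ.2]
    obtain ⟨z, hz, hxz⟩ := hper.exists_mem_Ico₀ one_pos x
    have h1 := hPQ z ⟨hz.1, hz.2.le⟩
    have h2 : P x - Q x = P z - Q z := hxz
    linarith
  ext x
  have h := hall (x - x₀)
  simp only [hPd, hQd, qh, sub_add_cancel] at h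
  linarith

end Run7.h374
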