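import Pool.Agent.Run7.h374.Jet

/-! Translations and reflections of a potential; jets at two different points. -/

set_option autoImplicit false

namespace Run7.h374

open Filter Topology
open scoped ContDiff

variable {p q : ℝ → ℝ} {lam : ℕ → ℝ} {σ : ℂ} {μ : ℝ}

lemma refl_mem (hσ : σ * σ = 1) {f : ℝ → ℂ} (hf : f ∈ eigSpace q σ μ) :
    (fun x => f (-x)) ∈ eigSpace (fun x => q (-x)) σ μ := by
  refine ⟨hf.1.comp (by fun_prop), fun x => ?_, fun x => ?_⟩
  · have e1 : deriv (fun x => f (-x)) = fun x => -deriv f (-x) := by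
      ext x; exact deriv_comp_neg f x
    rw [e1]
    have e2 : deriv (fun x => -deriv f (-x)) x = deriv (deriv f) (-x) := by
      rw [deriv.fun_neg, deriv_comp_neg (deriv f) x, neg_neg]
    rw [e2]
    exact hf.2.1 (-x)
  · have h := hf.2.2 (-x - 1)
    rw [show -x - 1 + 1 = -x by ring] at h
    show f (-(x + 1)) = σ * f (-x)
    rw [h, ← mul_assoc, hσ, one_mul, show -(x + 1) = -x - 1 by ring]

/-- reflection as a linear equivalence -/
noncomputable def reflEquiv (q : ℝ → ℝ) (σ : ℂ) (hσ : σ * σ = 1) (μ : ℝ) :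
    eigSpace q σ μ ≃ₗ[ℂ] eigSpace (fun x => q (-x)) σ μ where
  toFun f := ⟨fun x => f.1 (-x), refl_mem hσ f.2⟩
  map_add' _ _ := rfl
  map_smul' _ _ := rfl
  invFun f := ⟨fun x => f.1 (-x), by
    have h := refl_mem hσ f.2
    have e1 : (fun x => (fun x => q (-x)) (-x)) = q := by
      ext x; simp
    rw [e1] at h
    exact h⟩
  left_inv f := by
    apply Subtype.ext
    ext x
    show f.1 (- -x) = f.1 x
    rw [neg_neg]
  right_inv f := by
    apply Subtype.ext
    ext x
    show f.1 (- -x) = f.1 x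
    rw [neg_neg]

lemma Isospectral.trans {p q r : ℝ → ℝ} (h : Isospectral p q) (h' : Isospectral q r) :
    Isospectral p r := fun μ =>
  ⟨(h μ).1.trans (h' μ).1, (h μ).2.trans (h' μ).2⟩

lemma Isospectral.symm {p q : ℝ → ℝ} (h : Isospectral p q) : Isospectral q p := fun μ =>
  ⟨(h μ).1.symm, (h μ).2.symm⟩

lemma isospectral_trl (q : ℝ → ℝ) (a : ℝ) : Isospectral q (fun x => q (x + a)) := by
  intro μ
  have h1 := (trlEquiv q 1 μ a 0).finrank_eq
  have h2 := (trlEquiv q (-1) μ a 0).finrank_eq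
  have e1 : (fun x => q (x + a) + 0) = fun x => q (x + a) := by ext x; simp
  rw [e1, add_zero μ] at h1 h2
  exact ⟨h1, h2⟩

lemma isospectral_refl (q : ℝ → ℝ) : Isospectral q (fun x => q (-x)) := fun μ =>
  ⟨(reflEquiv q 1 (by norm_num) μ).finrank_eq, (reflEquiv q (-1) (by norm_num) μ).finrank_eq⟩

lemma IsPot.trl (hq : IsPot q) (a : ℝ) : IsPot (fun x => q (x + a)) :=
  ⟨hq.1.comp (by fun_prop), fun x => by
    show q (x + 1 + a) = q (x + a)
    rw [show x + 1 + a = x + a + 1 by ring, hq.2]⟩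

lemma IsPot.refl (hq : IsPot q) : IsPot (fun x => q (-x)) :=
  ⟨hq.1.comp (by fun_prop), fun x => by
    show q (-(x + 1)) = q (-x)
    rw [← hq.2 (-(x + 1)), show -(x + 1) + 1 = -x by ring]⟩

/-- jets at two points, with or without a reflection -/
theorem jet_unique₂ (hp : IsPot p) (hq : IsPot q) (hlam : IsHillSpectrum q lam)
    (hspan : PSpans ℝ lam ∨ PSpans ℂ lam) (hiso : Isospectral p q) {x₀ y₀ ε : ℝ}
    (hε : ε = 1 ∨ ε = -1)
    (hjet : ∀ j : ℕ, iteratedDeriv j p x₀ = ε ^ j * iteratedDeriv j q y₀) (x : ℝ) :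
    p (x₀ + x) = q (y₀ + ε * x) := by
  have hs : PSpans ℂ lam := hspan.elim (fun h => (spans_real_iff hlam).1 h) id
  rcases hε with rfl | rfl
  · set r : ℝ → ℝ := fun x => q (x + (y₀ - x₀)) with hr
    have hrpot : IsPot r := hq.trl _
    have hri : Isospectral r q := (isospectral_trl q (y₀ - x₀)).symm
    have h := jet_unique hp hrpot (hri.hill hlam) hs (hiso.trans hri.symm) (x₀ := x₀) (by
      intro j
      rw [hjet j, one_pow, one_mul, hr, iteratedDeriv_comp_add_const]
      simp)
    rw [h, hr]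
    show q (x₀ + x + (y₀ - x₀)) = _
    congr 1; ring
  · set r : ℝ → ℝ := fun x => q (-(x - (x₀ + y₀))) with hr
    set q₁ : ℝ → ℝ := fun x => q (-x) with hq₁
    have hr' : r = fun x => q₁ (x + (-(x₀ + y₀))) := by
      ext x; simp only [hr, hq₁]; congr 1
    have hq₁pot : IsPot q₁ := hq.refl
    have hrpot : IsPot r := by rw [hr']; exact hq₁pot.trl _
    have hri : Isospectral r q := by
      rw [hr']
      exact (isospectral_trl q₁ _).symm.trans (isospectral_refl q).symm
    have h := jet_unique hp hrpot (hri.hill hlam) hs (hiso.trans hri.symm) (x₀ := x₀) (by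
      intro j
      rw [hjet j, hr', iteratedDeriv_comp_add_const]
      simp only [hq₁]
      rw [iteratedDeriv_comp_neg, smul_eq_mul]
      congr 2
      ring)
    rw [h, hr]
    show q (-(x₀ + x - (x₀ + y₀))) = _
    congr 1; ring

end Run7.h374
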