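import Mathlib

/-! A zero-free entire function of minimal exponential type is constant. -/

set_option autoImplicit false

namespace Run7.h374

open Complex Filter Topology Metric

/-- An entire function without zeros is the exponential of an entire function. -/
lemma exists_log {f : ℂ → ℂ} (hf : Differentiable ℂ f) (h0 : ∀ z, f z ≠ 0) :
    ∃ g : ℂ → ℂ, Differentiable ℂ g ∧ ∀ z, f z = Complex.exp (g z) := by
  have hd : Differentiable ℂ (fun z => deriv f z / f z) := by
    intro z
    have h1 : DifferentiableAt ℂ (deriv f) z :=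
      (hf.analyticAt z).deriv.differentiableAt
    exact h1.div (hf z) (h0 z)
  obtain ⟨g0, hg0⟩ := hd.isExactOn_univ
  have hg : ∀ z, HasDerivAt g0 (deriv f z / f z) z := fun z => hg0 z (Set.mem_univ z)
  have hconst : ∀ z w, f z * Complex.exp (- g0 z) = f w * Complex.exp (- g0 w) := by
    apply is_const_of_deriv_eq_zero (f := fun z => f z * Complex.exp (- g0 z)) (𝕜 := ℂ)
    · intro z
      exact (hf z).mul ((hg z).neg.cexp.differentiableAt)
    · intro z
      have h1 : HasDerivAt (fun z => f z * Complex.exp (- g0 z))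
          (deriv f z * Complex.exp (- g0 z) +
            f z * (Complex.exp (- g0 z) * -(deriv f z / f z))) z :=
        ((hf z).hasDerivAt).mul (hg z).neg.cexp
      rw [h1.deriv]
      have := h0 z
      field_simp
      ring
  have hc : f 0 * Complex.exp (- g0 0) ≠ 0 := mul_ne_zero (h0 0) (Complex.exp_ne_zero _)
  refine ⟨fun z => Complex.log (f 0 * Complex.exp (- g0 0)) + g0 z, ?_, ?_⟩
  · intro z
    exact (differentiableAt_const _).add (hg z).differentiableAt
  · intro z
    rw [Complex.exp_add, Complex.exp_log hc, ← hconst z 0, mul_assoc, ← Complex.exp_add]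
    simp

/-- A zero-free entire function of minimal exponential type is constant. -/
theorem zeroFree_const {f : ℂ → ℂ} (hf : Differentiable ℂ f) (h0 : ∀ z, f z ≠ 0)
    (hgr : ∀ ε : ℝ, 0 < ε → ∃ C : ℝ, ∀ z, ‖f z‖ ≤ C * Real.exp (ε * ‖z‖)) :
    ∃ c : ℂ, c ≠ 0 ∧ ∀ z, f z = c := by
  obtain ⟨g, hg, hfg⟩ := exists_log hf h0
  have hder : ∀ z, deriv g z = 0 := by
    intro z
    rw [← norm_le_zero_iff]
    apply le_of_forall_pos_le_add
    intro δ hδ
    rw [zero_add]
    -- choose ε
    set ε := δ / 16 with hε
    have hεpos : 0 < ε := by positivity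
    obtain ⟨C, hC⟩ := hgr ε hεpos
    have hCpos : 0 < C := by
      have h1 := hC 0
      have h2 : 0 < ‖f 0‖ := norm_pos_iff.2 (h0 0)
      simp at h1
      linarith
    -- Re g ≤ log C + ε ‖z‖
    have hre : ∀ w, (g w).re ≤ Real.log C + ε * ‖w‖ := by
      intro w
      have h1 := hC w
      rw [hfg, Complex.norm_exp] at h1
      have h2 : Real.exp (g w).re ≤ Real.exp (Real.log C + ε * ‖w‖) := by
        rw [Real.exp_add, Real.exp_log hCpos]; exact h1
      exact Real.exp_le_exp.1 h2
    set K := |Real.log C| + 1 with hK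
    have hKpos : 0 < K := by positivity
    -- bound of g on circle
    have hbound : ∀ R : ℝ, 0 < R → ∀ w : ℂ, ‖w‖ ≤ R →
        ‖g w‖ ≤ 2 * (K + ε * (2 * R)) + 3 * ‖g 0‖ := by
      intro R hR w hw
      have hM : 0 < K + ε * (2 * R) := by positivity
      have h1 := Complex.borelCaratheodory (f := g) (M := K + ε * (2 * R)) (R := 2 * R) (z := w)
        hM (hg.differentiableOn) (by
          intro v hv
          simp only [Set.mem_ofPred_eq]
          have h2 := hre v
          have h3 : ‖v‖ < 2 * R := by simpa using hv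
          have h4 : Real.log C ≤ K := by
            have := le_abs_self (Real.log C)
            rw [hK]; linarith
          have h5 : ε * ‖v‖ ≤ ε * (2 * R) := by gcongr
          linarith) (by positivity) (by simp; linarith)
      refine h1.trans ?_
      have h6 : 0 < 2 * R - ‖w‖ := by linarith
      have h7 : 2 * (K + ε * (2 * R)) * ‖w‖ / (2 * R - ‖w‖) ≤ 2 * (K + ε * (2 * R)) := by
        rw [div_le_iff₀ h6]
        have : ‖w‖ ≤ 2 * R - ‖w‖ := by linarith
        gcongr
      have h8 : ‖g 0‖ * (2 * R + ‖w‖) / (2 * R - ‖w‖) ≤ 3 * ‖g 0‖ := by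
        rw [div_le_iff₀ h6]
        have : (2 * R + ‖w‖) ≤ 3 * (2 * R - ‖w‖) := by linarith
        calc ‖g 0‖ * (2 * R + ‖w‖) ≤ ‖g 0‖ * (3 * (2 * R - ‖w‖)) := by gcongr
          _ = _ := by ring
      linarith
    -- Cauchy estimate
    set A := 2 * K + 3 * ‖g 0‖ + 4 * ε * ‖z‖ with hA
    have hApos : 0 < A := by positivity
    set r := A / (4 * ε) with hr
    have hrpos : 0 < r := by positivity
    have hcau := Complex.norm_deriv_le_of_forall_mem_sphere_norm_le (c := z) (R := r)
      (C := 8 * ε * r) (f := g) hrpos (hg.diffContOnCl) (by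
        intro w hw
        have h9 : ‖w‖ ≤ ‖z‖ + r := by
          have h10 : ‖w - z‖ = r := by simpa [dist_eq_norm] using hw
          calc ‖w‖ = ‖z + (w - z)‖ := by congr 1; ring
            _ ≤ ‖z‖ + ‖w - z‖ := norm_add_le _ _
            _ = _ := by rw [h10]
        have h11 := hbound (‖z‖ + r) (by positivity) w h9
        have h12 : 4 * ε * r = A := by rw [hr]; field_simp
        calc ‖g w‖ ≤ _ := h11
          _ = A + 4 * ε * r := by rw [hA]; ring
          _ = 8 * ε * r := by rw [← h12]; ring)
    refine hcau.trans ?_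
    rw [div_le_iff₀ hrpos, hε]
    nlinarith
  have hgc := is_const_of_deriv_eq_zero hg hder
  refine ⟨Complex.exp (g 0), Complex.exp_ne_zero _, fun z => ?_⟩
  rw [hfg, hgc z 0]

end Run7.h374
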