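import Pool.Agent.Run7.h374.Prod
import Pool.Agent.Run7.h374.ZeroFree
import Pool.Agent.Run7.h374.Ext

/-! Rigidity of extreme annihilators: their Cauchy transform is `c / ∏ (1 - z / t j)`. -/

set_option autoImplicit false

namespace Run7.h374

open Complex Filter Topology Metric
open scoped Classical

variable {κ : Type*} {t : κ → ℝ}

/-- `∏_{j ≠ i} (1 - t i / t j)`, real version -/
noncomputable def rprod (t : κ → ℝ) (i : κ) : ℝ := ∏' j, if j = i then 1 else (1 - t i / t j)

lemma summable_rfac (ht : ∀ i, 0 < t i) (hs : Summable fun i => (t i)⁻¹) (i : κ) :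
    Summable fun j => ‖(if j = i then (0:ℝ) else -(t i / t j))‖ := by
  apply Summable.of_nonneg_of_le (fun _ => norm_nonneg _) _ (hs.mul_left (t i))
  intro j
  split_ifs
  · rw [norm_zero]
    have := ht i
    have := ht j
    positivity
  · rw [norm_neg, norm_div, Real.norm_of_nonneg (ht i).le, Real.norm_of_nonneg (ht j).le,
      div_eq_mul_inv]

lemma rfac_eq (t : κ → ℝ) (i : κ) : (fun j => if j = i then (1:ℝ) else (1 - t i / t j)) =
    fun j => 1 + (if j = i then (0:ℝ) else -(t i / t j)) := by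
  ext j; split_ifs <;> ring

lemma multipliable_rprod (ht : ∀ i, 0 < t i) (hs : Summable fun i => (t i)⁻¹) (i : κ) :
    Multipliable fun j => if j = i then (1:ℝ) else (1 - t i / t j) := by
  rw [rfac_eq]
  exact multipliable_one_add_of_summable (summable_rfac ht hs i)

lemma rprod_ne_zero (ht : ∀ i, 0 < t i) (hinj : Function.Injective t)
    (hs : Summable fun i => (t i)⁻¹) (i : κ) : rprod t i ≠ 0 := by
  unfold rprod
  rw [rfac_eq]
  apply tprod_one_add_ne_zero_of_summable _ (summable_rfac ht hs i)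
  intro j
  split_ifs with hj
  · simp
  · intro h
    apply hj
    apply hinj
    have := (ht j).ne'
    field_simp at h
    linarith

lemma rprod_coe (ht : ∀ i, 0 < t i) (hs : Summable fun i => (t i)⁻¹) (i : κ) :
    ((rprod t i : ℝ) : ℂ) = prodExc t i (t i : ℂ) := by
  unfold prodExc
  have h1 := (multipliable_rprod ht hs i).hasProd
  have h2 : HasProd (fun j => ((if j = i then (1:ℝ) else (1 - t i / t j) : ℝ) : ℂ))
      ((rprod t i : ℝ) : ℂ) := by
    have := h1.map Complex.ofRealHom Complex.continuous_ofReal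
    exact this
  rw [← h2.tprod_eq]
  congr 1
  ext j
  unfold fac
  split_ifs
  · simp
  · push_cast; ring

lemma finite_le (ht : ∀ i, 0 < t i) (hs : Summable fun i => (t i)⁻¹) (M : ℝ) :
    {i | t i ≤ M}.Finite := by
  rcases le_or_gt M 0 with hM | hM
  · have : {i | t i ≤ M} = ∅ := by
      ext i
      simp only [Set.mem_ofPred_eq, Set.mem_empty_iff_false, iff_false, not_le]
      exact lt_of_le_of_lt hM (ht i)
    rw [this]; exact Set.finite_empty
  · have h1 := hs.tendsto_cofinite_zero
    have h2 : ∀ᶠ i in cofinite, (t i)⁻¹ < M⁻¹ := h1.eventually (gt_mem_nhds (by positivity))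
    have h3 : {i | ¬ (t i)⁻¹ < M⁻¹}.Finite := by simpa [Filter.eventually_cofinite] using h2
    apply h3.subset
    intro i hi
    simp only [Set.mem_ofPred_eq] at hi ⊢
    rw [not_lt]
    exact inv_anti₀ (ht i) hi

lemma rigid (ht : ∀ i, 0 < t i) (hinj : Function.Injective t) (hs : Summable fun i => (t i)⁻¹)
    {b : κ → ℝ} (hb : ∀ i, b i ≠ 0) (hbs : Summable fun i => |b i|)
    (hnz : ∀ z : ℂ, (∀ i, z ≠ (t i : ℂ)) → ∑' i, (b i : ℂ) / (z - (t i : ℂ)) ≠ 0) :
    ∃ c : ℂ, c ≠ 0 ∧ ∀ i, (b i : ℂ) * (-(1 / (t i : ℂ)) * prodExc t i (t i : ℂ)) = c := by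
  -- the function E
  set E : ℂ → ℂ := fun z => ∑' i, (b i : ℂ) * (-(1 / (t i : ℂ)) * prodExc t i z) with hE
  have hbt : Summable fun i => |b i| * (t i)⁻¹ := by
    apply Summable.of_nonneg_of_le _ _ (hs.mul_left (∑' i, |b i|))
    · intro i
      have := ht i
      positivity
    · intro i
      have h1 : |b i| ≤ ∑' i, |b i| := hbs.le_tsum i (fun j _ => abs_nonneg _)
      have := ht i
      gcongr
  have hterm : ∀ i z, ‖(b i : ℂ) * (-(1 / (t i : ℂ)) * prodExc t i z)‖ =
      |b i| * (t i)⁻¹ * ‖prodExc t i z‖ := by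
    intro i z
    rw [norm_mul, norm_mul, norm_neg, norm_div, norm_one, Complex.norm_real, Complex.norm_real,
      Real.norm_eq_abs, Real.norm_of_nonneg (ht i).le]
    ring
  have hgr : ∀ ε : ℝ, 0 < ε → ∃ C : ℝ, ∀ z, ‖E z‖ ≤ C * Real.exp (ε * ‖z‖) := by
    intro ε hε
    obtain ⟨C, hC, hCb⟩ := growth_prodExc ht hs hε
    refine ⟨(∑' i, |b i| * (t i)⁻¹) * C, fun z => ?_⟩
    have h1 : ∀ i, ‖(b i : ℂ) * (-(1 / (t i : ℂ)) * prodExc t i z)‖ ≤
        |b i| * (t i)⁻¹ * (C * Real.exp (ε * ‖z‖)) := by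
      intro i
      rw [hterm]
      have := ht i
      have := hCb i z
      gcongr
    have h2 := tsum_of_norm_bounded (hbt.mul_right (C * Real.exp (ε * ‖z‖))).hasSum h1
    rw [tsum_mul_right] at h2
    rw [hE]
    refine h2.trans (le_of_eq ?_)
    ring
  have hdiff : Differentiable ℂ E := by
    intro z
    obtain ⟨C, hC, hCb⟩ := growth_prodExc ht hs one_pos
    set R := ‖z‖ + 1 with hR
    have h1 : DifferentiableOn ℂ E (ball (0:ℂ) R) := by
      apply Complex.differentiableOn_tsum_of_summable_norm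
        (hbt.mul_right (C * Real.exp (1 * R)))
      · intro i
        exact (((differentiable_prodExc ht hs i).const_mul _).const_mul _).differentiableOn
      · exact isOpen_ball
      · intro i w hw
        rw [hterm]
        have h2 : ‖w‖ ≤ R := by
          have : ‖w‖ < R := by simpa using hw
          exact this.le
        have h3 := ht i
        have h4 := hCb i w
        have h5 : Real.exp (1 * ‖w‖) ≤ Real.exp (1 * R) := Real.exp_le_exp.2 (by linarith)
        have h6 : ‖prodExc t i w‖ ≤ C * Real.exp (1 * R) := h4.trans (by gcongr)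
        gcongr
    exact (h1 z (by simp [hR])).differentiableAt (isOpen_ball.mem_nhds (by simp [hR]))
  have hval : ∀ i, E (t i : ℂ) = (b i : ℂ) * (-(1 / (t i : ℂ)) * prodExc t i (t i : ℂ)) := by
    intro i
    rw [hE]
    simp only
    apply tsum_eq_single i
    intro j hj
    rw [prodExc_eq_zero ht (Ne.symm hj)]
    ring
  have hnz0 : ∀ z, E z ≠ 0 := by
    intro z
    by_cases hz : ∃ i, z = (t i : ℂ)
    · obtain ⟨i, rfl⟩ := hz
      rw [hval]
      have h1 : prodExc t i (t i : ℂ) ≠ 0 := by
        apply prodExc_ne_zero ht hs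
        intro j hj h2
        apply hj
        have h3 : t i = t j := by exact_mod_cast h2
        exact (hinj h3).symm
      have h2 : (t i : ℂ) ≠ 0 := by exact_mod_cast (ht i).ne'
      have h3 : (b i : ℂ) ≠ 0 := by exact_mod_cast hb i
      have h4 : -(1 / (t i : ℂ)) ≠ 0 := neg_ne_zero.2 (one_div_ne_zero h2)
      exact mul_ne_zero h3 (mul_ne_zero h4 h1)
    · push Not at hz
      have h1 : E z = prodAll t z * ∑' i, (b i : ℂ) / (z - (t i : ℂ)) := by
        rw [hE]
        simp only
        rw [← tsum_mul_left]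
        congr 1
        ext i
        rw [prodExc_eq_div ht hs i (hz i)]
        ring
      rw [h1]
      exact mul_ne_zero (prodAll_ne_zero ht hs hz) (hnz z hz)
  obtain ⟨c, hc, hEc⟩ := zeroFree_const hdiff hnz0 hgr
  exact ⟨c, hc, fun i => by rw [← hval, hEc]⟩

/-- division of an annihilator by a zero of its Cauchy transform -/
lemma div_ann (ht : ∀ i, 0 < t i) (hs : Summable fun i => (t i)⁻¹)
    {b : κ → ℝ} (hbs : ∀ k : ℕ, Summable fun i => |b i| * t i ^ k)
    (hann : ∀ k : ℕ, ∑' i, b i * t i ^ k = 0) {z : ℂ} (hz : ∀ i, z ≠ (t i : ℂ))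
    (h0 : ∑' i, (b i : ℂ) / (z - (t i : ℂ)) = 0) :
    ∃ h : κ → ℝ, (∀ i, h i ≠ 0) ∧ (∃ C, 0 < C ∧ ∀ i, |h i| ≤ C * (t i)⁻¹) ∧
      ∀ k : ℕ, ∑' i, (h i * b i) * t i ^ k = 0 := by
  set s : κ → ℂ := fun i => ((t i : ℂ) - z)⁻¹ with hsdef
  have hsne : ∀ i, (t i : ℂ) - z ≠ 0 := fun i => sub_ne_zero.2 (hz i).symm
  -- bound of s
  obtain ⟨C, hC, hCb⟩ : ∃ C, 0 < C ∧ ∀ i, ‖s i‖ ≤ C * (t i)⁻¹ := by
    have hfin := finite_le ht hs (2 * ‖z‖)
    obtain ⟨B, hB⟩ := (hfin.image fun i => ‖s i‖ * t i).bddAbove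
    refine ⟨max B 2, by positivity, fun i => ?_⟩
    rw [← div_eq_mul_inv, le_div_iff₀ (ht i)]
    by_cases hi : t i ≤ 2 * ‖z‖
    · exact (hB ⟨i, hi, rfl⟩).trans (le_max_left _ _)
    · push Not at hi
      refine le_trans ?_ (le_max_right _ _)
      rw [hsdef]
      simp only
      rw [norm_inv, inv_mul_le_iff₀ (norm_pos_iff.2 (hsne i))]
      have h1 : t i - ‖z‖ ≤ ‖(t i : ℂ) - z‖ := by
        have := norm_sub_norm_le (t i : ℂ) z
        rwa [Complex.norm_real, Real.norm_of_nonneg (ht i).le] at this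
      linarith
  have hsum : ∀ k : ℕ, Summable fun i => (b i : ℂ) * (t i : ℂ) ^ k * s i := by
    intro k
    obtain ⟨M, hM⟩ : ∃ M, ∀ i, ‖s i‖ ≤ M := by
      refine ⟨C * ∑' i, (t i)⁻¹, fun i => (hCb i).trans ?_⟩
      have := hs.le_tsum i (fun j _ => (inv_pos.2 (ht j)).le)
      gcongr
    apply Summable.of_norm_bounded ((hbs k).mul_right M)
    intro i
    rw [norm_mul, norm_mul, norm_pow, Complex.norm_real, Complex.norm_real, Real.norm_eq_abs,
      Real.norm_of_nonneg (ht i).le]
    have := ht i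
    have := hM i
    gcongr
  have hsb : ∀ k : ℕ, Summable fun i => (b i : ℂ) * (t i : ℂ) ^ k := by
    intro k
    apply Summable.of_norm_bounded (hbs k)
    intro i
    rw [norm_mul, norm_pow, Complex.norm_real, Complex.norm_real, Real.norm_eq_abs,
      Real.norm_of_nonneg (ht i).le]
  have hannC : ∀ k : ℕ, ∑' i, (b i : ℂ) * (t i : ℂ) ^ k = 0 := by
    intro k
    have : ∑' i, (b i : ℂ) * (t i : ℂ) ^ k = ((∑' i, b i * t i ^ k : ℝ) : ℂ) := by
      rw [Complex.ofReal_tsum]; congr 1; ext i; push_cast; ring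
    rw [this, hann k]; simp
  have hck : ∀ k : ℕ, ∑' i, (b i : ℂ) * (t i : ℂ) ^ k * s i = 0 := by
    intro k
    induction k with
    | zero =>
      have : (fun i => (b i : ℂ) * (t i : ℂ) ^ 0 * s i) = fun i => -((b i : ℂ) / (z - (t i : ℂ))) := by
        ext i
        rw [hsdef]
        simp only
        rw [pow_zero, mul_one, ← neg_sub z (t i : ℂ), inv_neg]
        ring
      rw [this, tsum_neg, h0, neg_zero]
    | succ k ih =>
      have : (fun i => (b i : ℂ) * (t i : ℂ) ^ (k+1) * s i) =
          fun i => (b i : ℂ) * (t i : ℂ) ^ k + z * ((b i : ℂ) * (t i : ℂ) ^ k * s i) := by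
        ext i
        rw [hsdef]
        simp only
        have := hsne i
        field_simp
        ring
      rw [this, (hsb k).tsum_add ((hsum k).mul_left z), tsum_mul_left, ih, hannC k]
      ring
  by_cases him : z.im = 0
  · refine ⟨fun i => (s i).re, fun i => ?_, ⟨C, hC, fun i => ?_⟩, fun k => ?_⟩
    · intro h1
      have h2 : (s i).im = 0 := by
        rw [hsdef]; simp [Complex.inv_im, him]
      have h3 : s i = 0 := Complex.ext h1 h2
      rw [hsdef] at h3
      exact hsne i (inv_eq_zero.1 h3)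
    · exact (Complex.abs_re_le_norm _).trans (hCb i)
    · have h1 := congrArg Complex.re (hck k)
      rw [Complex.re_tsum (hsum k)] at h1
      rw [Complex.zero_re] at h1
      rw [← h1]
      congr 1
      ext i
      have : (b i : ℂ) * (t i : ℂ) ^ k * s i = ((b i * t i ^ k : ℝ) : ℂ) * s i := by push_cast; ring
      rw [this, Complex.re_ofReal_mul]
      ring
  · refine ⟨fun i => (s i).im, fun i => ?_, ⟨C, hC, fun i => ?_⟩, fun k => ?_⟩
    · rw [hsdef]
      simp only [Complex.inv_im, Complex.sub_im, Complex.ofReal_im, zero_sub, neg_neg]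
      apply div_ne_zero him
      exact (Complex.normSq_pos.2 (hsne i)).ne'
    · exact (Complex.abs_im_le_norm _).trans (hCb i)
    · have h1 := congrArg Complex.im (hck k)
      rw [Complex.im_tsum (hsum k)] at h1
      rw [Complex.zero_im] at h1
      rw [← h1]
      congr 1
      ext i
      have : (b i : ℂ) * (t i : ℂ) ^ k * s i = ((b i * t i ^ k : ℝ) : ℂ) * s i := by push_cast; ring
      rw [this, Complex.im_ofReal_mul]
      ring

/-- a nonzero annihilator has infinite support -/
lemma support_infinite (hinj : Function.Injective t) {b : κ → ℝ} (hb : b ≠ 0)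
    (hann : ∀ k : ℕ, ∑' i, b i * t i ^ k = 0) : {i | b i ≠ 0}.Infinite := by
  intro hfin
  obtain ⟨i0, hi0⟩ := Function.ne_iff.1 hb
  have hpoly : ∀ p : Polynomial ℝ, ∑ i ∈ hfin.toFinset, b i * p.eval (t i) = 0 := by
    intro p
    induction p using Polynomial.induction_on' with
    | add p q hp hq =>
      simp only [Polynomial.eval_add, mul_add, Finset.sum_add_distrib, hp, hq, add_zero]
    | monomial n a =>
      have h1 : ∑' i, b i * t i ^ n = ∑ i ∈ hfin.toFinset, b i * t i ^ n := by
        apply tsum_eq_sum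
        intro i hi
        have : b i = 0 := by
          by_contra h
          exact hi (by simpa using h)
        rw [this, zero_mul]
      rw [hann n] at h1
      simp only [Polynomial.eval_monomial]
      calc ∑ i ∈ hfin.toFinset, b i * (a * t i ^ n) = a * ∑ i ∈ hfin.toFinset, b i * t i ^ n := by
            rw [Finset.mul_sum]; apply Finset.sum_congr rfl; intros; ring
        _ = 0 := by rw [← h1, mul_zero]
  have h2 := hpoly (∏ j ∈ hfin.toFinset.erase i0, (Polynomial.X - Polynomial.C (t j)))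
  have hmem : i0 ∈ hfin.toFinset := by simpa using hi0
  rw [Finset.sum_eq_single_of_mem i0 hmem] at h2
  · rw [Polynomial.eval_prod] at h2
    rcases mul_eq_zero.1 h2 with h3 | h3
    · exact hi0 h3
    · rw [Finset.prod_eq_zero_iff] at h3
      obtain ⟨j, hj, hj0⟩ := h3
      simp only [Polynomial.eval_sub, Polynomial.eval_X, Polynomial.eval_C] at hj0
      have : t i0 = t j := by linarith
      exact (Finset.ne_of_mem_erase hj) (hinj this).symm
  · intro j hj hne
    rw [Polynomial.eval_prod]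
    have : ∏ x ∈ hfin.toFinset.erase i0, Polynomial.eval (t j) (Polynomial.X - Polynomial.C (t x)) = 0 := by
      apply Finset.prod_eq_zero (Finset.mem_erase.2 ⟨hne, hj⟩)
      simp
    rw [this, mul_zero]

lemma tsum_restrict {f : κ → ℝ} {S : Set κ} (h : ∀ i, i ∉ S → f i = 0) :
    ∑' i : S, f i = ∑' i, f i := by
  apply tsum_subtype_eq_of_support_subset
  intro i hi
  by_contra hc
  exact hi (h i hc)

/-- the `ℓ¹` theorem -/
theorem exists_set_l1 (ht : ∀ i, 0 < t i) (hinj : Function.Injective t)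
    (hs : Summable fun i => (t i)⁻¹) {W : κ → ℝ} (hW : ∀ i, 0 < W i)
    (hsum : ∀ k : ℕ, Summable fun i => t i ^ k * (W i)⁻¹) {a : κ → ℝ} (ha0 : a ≠ 0)
    (haW : Summable fun i => |a i| * W i) (hann : ∀ k : ℕ, ∑' i, a i * t i ^ k = 0) :
    ∃ S : Set κ, S.Infinite ∧
      Summable fun i : S => W i * (t i / |rprod (fun j : S => t j) i|) := by
  obtain ⟨b, hb0, hbW, hbann, hbext⟩ := exists_extreme ht hW hsum ha0 haW hann
  set S : Set κ := {i | b i ≠ 0} with hS
  have hSinf : S.Infinite := support_infinite hinj hb0 hbann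
  refine ⟨S, hSinf, ?_⟩
  have hSinf' : Infinite S := hSinf.to_subtype
  set τ : S → ℝ := fun j => t j with hτ
  have hτt : ∀ i, 0 < τ i := fun i => ht i
  have hτinj : Function.Injective τ := fun i j h => Subtype.ext (hinj h)
  have hτs : Summable fun i => (τ i)⁻¹ := hs.subtype S
  -- summability of b t^k
  obtain ⟨M, hM⟩ : ∃ M, ∀ i, |b i| * W i ≤ M :=
    ⟨∑' i, |b i| * W i, fun i => hbW.le_tsum i (fun j _ => mul_nonneg (abs_nonneg _) (hW j).le)⟩
  have hbk : ∀ k : ℕ, Summable fun i => |b i| * t i ^ k := by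
    intro k
    apply Summable.of_nonneg_of_le _ _ ((hsum k).mul_left M)
    · intro i
      have := ht i
      positivity
    · intro i
      have h1 := hM i
      have h2 := hW i
      have h3 := ht i
      have h4 : |b i| ≤ M * (W i)⁻¹ := by rwa [← div_eq_mul_inv, le_div_iff₀ h2]
      calc |b i| * t i ^ k ≤ M * (W i)⁻¹ * t i ^ k := by gcongr
        _ = _ := by ring
  have hbkS : ∀ k : ℕ, Summable fun i : S => |b i| * τ i ^ k := fun k => (hbk k).subtype S
  have hannS : ∀ k : ℕ, ∑' i : S, b i * τ i ^ k = 0 := by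
    intro k
    rw [← hbann k]
    apply tsum_restrict (f := fun i => b i * t i ^ k)
    intro i hi
    have : b i = 0 := by simpa [hS] using hi
    simp [this]
  have hnz : ∀ z : ℂ, (∀ i : S, z ≠ (τ i : ℂ)) → ∑' i : S, ((b i : ℝ) : ℂ) / (z - (τ i : ℂ)) ≠ 0 := by
    intro z hz h0
    obtain ⟨h, hne, ⟨C, hC, hCb⟩, hhann⟩ := div_ann (b := fun i : S => b i) hτt hτs hbkS hannS hz h0
    -- extend h
    set H : κ → ℝ := fun i => if hi : i ∈ S then h ⟨i, hi⟩ else 0 with hH
    have hHS : ∀ i : S, H i = h i := by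
      intro i
      rw [hH]
      simp
    have hbd : ∃ B, ∀ i, |H i| ≤ B := by
      refine ⟨C * ∑' i : S, (τ i)⁻¹, fun i => ?_⟩
      by_cases hi : i ∈ S
      · have e1 : H i = h ⟨i, hi⟩ := hHS ⟨i, hi⟩
        rw [e1]
        refine (hCb _).trans ?_
        have := hτs.le_tsum ⟨i, hi⟩ (fun j _ => (inv_pos.2 (hτt j)).le)
        gcongr
      · have e1 : H i = 0 := by rw [hH]; simp [hi]
        rw [e1, abs_zero]
        have : 0 ≤ ∑' i : S, (τ i)⁻¹ := tsum_nonneg (fun j => (inv_pos.2 (hτt j)).le)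
        positivity
    have hHann : ∀ k : ℕ, ∑' i, (H i * b i) * t i ^ k = 0 := by
      intro k
      rw [← hhann k]
      symm
      have := tsum_restrict (f := fun i => (H i * b i) * t i ^ k) (S := S) (by
        intro i hi
        have : b i = 0 := by simpa [hS] using hi
        simp [this])
      rw [← this]
      congr 1
      ext i
      rw [hHS]
    obtain ⟨c, hc⟩ := hbext H hbd hHann
    have hc' : ∀ i : S, h i = c := by
      intro i
      rw [← hHS]
      exact hc i i.2
    -- contradiction: h tends to zero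
    obtain ⟨i1⟩ : Nonempty S := inferInstance
    have hcne : c ≠ 0 := by rw [← hc' i1]; exact hne i1
    have hfin := finite_le hτt hτs (C / |c|)
    have : {i : S | τ i ≤ C / |c|} = Set.univ := by
      ext i
      simp only [Set.mem_ofPred_eq, Set.mem_univ, iff_true]
      have h1 := hCb i
      rw [hc' i, ← div_eq_mul_inv, le_div_iff₀ (hτt i)] at h1
      rw [le_div_iff₀ (abs_pos.2 hcne)]
      linarith
    rw [this] at hfin
    exact Set.infinite_univ hfin
  have hbabs : Summable fun i : S => |b i| := by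
    have := hbkS 0
    simpa using this
  obtain ⟨c, hc, hcb⟩ := rigid (b := fun i : S => b i) hτt hτinj hτs (fun i => i.2) hbabs hnz
  have hkey : ∀ i : S, τ i / |rprod τ i| = |b i| * ‖c‖⁻¹ := by
    intro i
    have h1 := hcb i
    rw [← rprod_coe hτt hτs i] at h1
    have h2 := congrArg norm h1
    rw [norm_mul, norm_mul, norm_neg, norm_div, norm_one, Complex.norm_real, Complex.norm_real,
      Complex.norm_real, Real.norm_eq_abs, Real.norm_of_nonneg (hτt i).le, Real.norm_eq_abs] at h2
    have h3 : 0 < |rprod τ i| := abs_pos.2 (rprod_ne_zero hτt hτinj hτs i)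
    have h4 : 0 < ‖c‖ := norm_pos_iff.2 hc
    have h5 := hτt i
    have h6 : 0 < |b i| := abs_pos.2 i.2
    rw [← h2]
    field_simp
  have hfinal : (fun i : S => W i * (t i / |rprod (fun j : S => t j) i|)) =
      fun i : S => (|b i| * W i) * ‖c‖⁻¹ := by
    ext i
    have := hkey i
    rw [hτ] at this
    simp only at this
    rw [this]; ring
  rw [hfinal]
  exact (hbW.subtype S).mul_right _

end Run7.h374
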