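import Pool.Agent.Run7.h374.SinLow
import Pool.Agent.Run7.h374.Rigid
import Pool.Agent.Run7.h374.Compare

/-! A lower bound for `∏_{m ≠ n} |1 - t n / t m|`, `t n = π² n² + O(1)`. -/

set_option autoImplicit false

namespace Run7.h374

open Filter Topology Metric
open scoped Classical

lemma summable_sq_inv' : Summable fun n => (sq n)⁻¹ := by
  simpa [one_div] using summable_sq_inv

lemma sin_eq_prod (k : ℂ) : Complex.sin k = k * prodAll sq (k ^ 2) := by
  have hπ : (Real.pi : ℂ) ≠ 0 := by exact_mod_cast Real.pi_ne_zero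
  have hl := Complex.tendsto_euler_sin_prod (k / Real.pi)
  rw [mul_div_cancel₀ _ hπ] at hl
  have hm : Multipliable fun j => (1 + -(k ^ 2 / (sq j : ℂ))) :=
    multipliable_one_add_of_summable (summable_norm_div sq_pos summable_sq_inv' (k ^ 2))
  have hr := (hm.hasProd.tendsto_prod_nat).const_mul k
  refine tendsto_nhds_unique (hl.congr fun N => ?_) hr
  congr 1
  apply Finset.prod_congr rfl
  intro j _
  have hj1 : ((j : ℂ) + 1) ≠ 0 := by exact_mod_cast (Nat.succ_ne_zero j)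
  unfold sq
  push_cast
  field_simp
  ring

lemma norm_prodExc_sq (i : ℕ) : ‖prodExc sq i (sq i : ℂ)‖ = 1 / 2 := by
  set k0 : ℂ := ((Real.pi * (i + 1) : ℝ) : ℂ) with hk0
  have hsq : k0 ^ 2 = (sq i : ℂ) := by
    rw [hk0, ← Complex.ofReal_pow]
    congr 1
    unfold sq; ring
  have hs0 : (sq i : ℂ) ≠ 0 := by exact_mod_cast (sq_pos i).ne'
  have e1 : Complex.sin = fun k => (k * (1 - k ^ 2 / (sq i : ℂ))) * prodExc sq i (k ^ 2) := by
    ext k
    rw [sin_eq_prod, prodAll_eq sq_pos summable_sq_inv' i]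
    ring
  have h1 : HasDerivAt (fun k : ℂ => k * (1 - k ^ 2 / (sq i : ℂ))) (-2) k0 := by
    have h2 : HasDerivAt (fun k : ℂ => k * (1 - k ^ 2 / (sq i : ℂ)))
        (1 * (1 - k0 ^ 2 / (sq i : ℂ)) + k0 * (0 - (((2:ℕ):ℂ) * k0 ^ (2 - 1)) / (sq i : ℂ))) k0 := by
      have h3 := (hasDerivAt_pow 2 k0).div_const (sq i : ℂ)
      exact (hasDerivAt_id' k0).mul ((hasDerivAt_const k0 (1:ℂ)).sub h3)
    refine h2.congr_deriv ?_
    rw [← hsq]
    have : k0 ^ 2 ≠ 0 := by rw [hsq]; exact hs0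
    have hk : k0 ≠ 0 := fun h => this (by rw [h]; ring)
    field_simp
    push_cast
    ring
  have h2 : HasDerivAt (fun k : ℂ => prodExc sq i (k ^ 2))
      (deriv (prodExc sq i) (k0 ^ 2) * (((2:ℕ):ℂ) * k0 ^ (2 - 1))) k0 :=
    HasDerivAt.comp (h₂ := prodExc sq i) (h := fun k => k ^ 2) k0
      ((differentiable_prodExc sq_pos summable_sq_inv' i (k0 ^ 2)).hasDerivAt)
      (hasDerivAt_pow 2 k0)
  have h3 := h1.mul h2
  have h4 : HasDerivAt Complex.sin (Complex.cos k0) k0 := Complex.hasDerivAt_sin k0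
  have h5 : (fun k : ℂ => k * (1 - k ^ 2 / (sq i : ℂ))) * (fun k : ℂ => prodExc sq i (k ^ 2)) =
      Complex.sin := by
    rw [e1]; rfl
  rw [h5] at h3
  have h6 := h3.unique h4
  have h7 : k0 * (1 - k0 ^ 2 / (sq i : ℂ)) = 0 := by
    rw [hsq, div_self hs0]; ring
  rw [h7, zero_mul, add_zero, hsq] at h6
  have h8 : ‖Complex.cos k0‖ = 1 := by
    rw [hk0, ← Complex.ofReal_cos, Complex.norm_real, Real.norm_eq_abs,
      show Real.pi * ((i:ℝ) + 1) = ((i + 1 : ℕ) : ℝ) * Real.pi by push_cast; ring,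
      Real.cos_nat_mul_pi, abs_pow, abs_neg, abs_one, one_pow]
  rw [← h6, norm_mul, norm_neg, Complex.norm_ofNat] at h8
  linarith

lemma rprod_nat_sq (i : ℕ) : rprod (fun k : ℕ => ((k + 1 : ℕ) : ℝ) ^ 2) i ^ 2 = 1 / 4 := by
  have h1 : rprod (fun k : ℕ => ((k + 1 : ℕ) : ℝ) ^ 2) i = rprod sq i := by
    unfold rprod
    congr 1
    ext j
    split_ifs
    · rfl
    · congr 1
      unfold sq
      have : ((j:ℝ) + 1) ≠ 0 := by positivity
      push_cast
      field_simp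
  have h2 := rprod_coe sq_pos summable_sq_inv' i
  have h3 := norm_prodExc_sq i
  rw [← h2, Complex.norm_real, Real.norm_eq_abs] at h3
  rw [h1, ← sq_abs, h3]
  norm_num

/-- lower bound -/
theorem prodExc_lower {t : ℕ → ℝ} (ht : ∀ n, 0 < t n) (hmono : StrictMono t) {M : ℝ}
    (hM : ∀ n, |t n - sq n| ≤ M) (hs : Summable fun n => (t n)⁻¹) :
    ∃ c : ℝ, 0 < c ∧ ∀ n, c ≤ ‖prodExc t n (t n : ℂ)‖ := by
  have hπ : 0 < Real.pi ^ 2 := by positivity
  obtain ⟨A, B, hA, hB, hAB⟩ := rprod_compare (T := fun i => t (i - 1) / Real.pi ^ 2)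
    (O := {i | 1 ≤ i}) (fun i hi => hi)
    (fun i _ => by have := ht (i - 1); positivity)
    (fun i hi j hj hij => by
      have hi' : 1 ≤ i := hi
      have h1 : t (i - 1) < t (j - 1) := hmono (by omega)
      have h2 : t (i - 1) / Real.pi ^ 2 < t (j - 1) / Real.pi ^ 2 := by gcongr
      exact h2)
    (M := M / Real.pi ^ 2)
    (fun i hi => by
      have hi' : 1 ≤ i := hi
      have h1 := hM (i - 1)
      have h2 : t (i - 1) / Real.pi ^ 2 - (i:ℝ) ^ 2 = (t (i - 1) - sq (i - 1)) / Real.pi ^ 2 := by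
        unfold sq
        rw [Nat.cast_sub hi', Nat.cast_one]
        field_simp
        ring
      show |t (i - 1) / Real.pi ^ 2 - (i:ℝ) ^ 2| ≤ M / Real.pi ^ 2
      rw [h2, abs_div, abs_of_pos hπ]
      gcongr)
  refine ⟨Real.sqrt (A * (1 / 4)), Real.sqrt_pos.2 (by positivity), fun n => ?_⟩
  have h1 := (hAB ℕ (fun k => k + 1) (fun a b h => by simpa using h)
    (fun k => by show 1 ≤ k + 1; omega) n).1
  have h2 := rprod_nat_sq n
  rw [h2] at h1
  have h3 : rprod (fun k : ℕ => (fun i => t (i - 1) / Real.pi ^ 2) (k + 1)) n = rprod t n := by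
    unfold rprod
    congr 1
    ext j
    split_ifs
    · rfl
    · show 1 - t (n + 1 - 1) / Real.pi ^ 2 / (t (j + 1 - 1) / Real.pi ^ 2) = _
      rw [Nat.add_sub_cancel, Nat.add_sub_cancel, div_div_div_cancel_right₀ hπ.ne']
  rw [h3] at h1
  rw [← rprod_coe ht hs, Complex.norm_real, Real.norm_eq_abs]
  exact Real.sqrt_le_iff.2 ⟨abs_nonneg _, by rwa [sq_abs]⟩

end Run7.h374
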