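import Pool.Agent.Run7.h374.Major

/-! A majorant for potentials in Denjoy-Carleman classes. -/

set_option autoImplicit false

namespace Run7.h374

open Filter Topology

/-- regular weight sequence `b n = n! m n` with `m` log-convex, `m 0 = 1 ≤ m 1` -/
structure IsReg (m : ℕ → ℝ) : Prop where
  zero : m 0 = 1
  one_le : 1 ≤ m 1
  pos : ∀ n, 0 < m n
  conv : ∀ n, m (n + 1) ^ 2 ≤ m n * m (n + 2)

/-- `n! m n` -/
noncomputable def fm (m : ℕ → ℝ) (n : ℕ) : ℝ := n.factorial * m n

namespace IsReg

variable {m : ℕ → ℝ} (h : IsReg m)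

include h

lemma ratio_mono {j k : ℕ} (hjk : j ≤ k) : m (j + 1) / m j ≤ m (k + 1) / m k := by
  induction hjk with
  | refl => exact le_rfl
  | step hjk ih =>
    rename_i k
    refine ih.trans ?_
    have h1 := h.conv k
    have h2 := h.pos k
    have h3 := h.pos (k + 1)
    rw [div_le_div_iff₀ h2 h3]
    nlinarith

lemma one_le_ratio (k : ℕ) : 1 ≤ m (k + 1) / m k := by
  have h1 := h.ratio_mono (Nat.zero_le k)
  rw [zero_add, h.zero, div_one] at h1
  exact h.one_le.trans h1

lemma le_succ (k : ℕ) : m k ≤ m (k + 1) := by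
  have := h.one_le_ratio k
  rwa [one_le_div (h.pos k)] at this

lemma mono : Monotone m := monotone_nat_of_le_succ h.le_succ

lemma one_le_m (k : ℕ) : 1 ≤ m k := by
  rw [← h.zero]; exact h.mono (Nat.zero_le k)

lemma mul_le_add (p r : ℕ) : m p * m r ≤ m (p + r) := by
  induction p with
  | zero => rw [h.zero, one_mul, zero_add]
  | succ p ih =>
    have h1 := h.ratio_mono (show p ≤ p + r by omega)
    have h2 := h.pos p
    have h3 := h.pos (p + r)
    have h4 := h.pos r
    rw [div_le_div_iff₀ h2 h3] at h1
    have h5 : (m (p + 1) * m r) * m p ≤ m (p + r + 1) * m p := by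
      calc (m (p + 1) * m r) * m p = m (p + 1) * (m p * m r) := by ring
        _ ≤ m (p + 1) * m (p + r) := by
          have := h.pos (p + 1)
          gcongr
        _ ≤ m (p + r + 1) * m p := h1
    have h6 := le_of_mul_le_mul_right h5 h2
    rwa [show p + r + 1 = p + 1 + r by ring] at h6

lemma fm_pos (n : ℕ) : 0 < fm m n := by
  unfold fm
  have := h.pos n
  positivity

lemma fm_zero : fm m 0 = 1 := by
  unfold fm; simp [h.zero]

lemma one_le_fm (n : ℕ) : 1 ≤ fm m n := by
  unfold fm
  have h1 : (1:ℝ) ≤ n.factorial := by exact_mod_cast Nat.factorial_pos n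
  have h2 := h.one_le_m n
  nlinarith

lemma succ_mul_fm (n : ℕ) : ((n : ℝ) + 1) * fm m n ≤ fm m (n + 1) := by
  unfold fm
  rw [Nat.factorial_succ]
  push_cast
  have h1 := h.le_succ n
  have h2 : (0:ℝ) < n.factorial := by positivity
  rw [mul_assoc]
  gcongr

lemma fm_mono : Monotone (fm m) := by
  apply monotone_nat_of_le_succ
  intro n
  have h1 := h.succ_mul_fm n
  have h2 := h.fm_pos n
  have h3 : (0:ℝ) ≤ n := by positivity
  nlinarith

lemma fm_mul_le (p r : ℕ) : fm m p * fm m r ≤ fm m (p + r) := by
  unfold fm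
  have h1 := h.mul_le_add p r
  have h2 : ((p.factorial : ℝ) * r.factorial) ≤ (p + r).factorial := by
    exact_mod_cast Nat.le_of_dvd (Nat.factorial_pos _) (Nat.factorial_mul_factorial_dvd_factorial_add p r)
  have h3 := h.pos p
  have h4 := h.pos r
  calc (p.factorial * m p) * (r.factorial * m r) = ((p.factorial : ℝ) * r.factorial) * (m p * m r) := by
        ring
    _ ≤ (p + r).factorial * m (p + r) := by gcongr

omit h in
lemma fac_aux (p r : ℕ) : (p + 1).factorial * (r + 1).factorial ≤ (p + r + 1).factorial := by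
  have h1 : (p + 1).factorial * r.factorial * (p + 1 + r).choose (p + 1) = (p + 1 + r).factorial := by
    have := Nat.choose_mul_factorial_mul_factorial (show p + 1 ≤ p + 1 + r by omega)
    rw [Nat.add_sub_cancel_left] at this
    rw [← this]; ring
  have h2 : r + 1 ≤ (p + 1 + r).choose (p + 1) := by
    have e : (p + 1 + r).choose (p + 1) = (p + 1 + r).choose r := by
      rw [← Nat.choose_symm_of_eq_add (show p + 1 + r = r + (p + 1) by ring)]
    rw [e]
    have h3 : (1 + r).choose r ≤ (p + 1 + r).choose r := Nat.choose_le_choose r (by omega)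
    have h4 : (1 + r).choose r = r + 1 := by
      rw [add_comm 1 r, Nat.choose_succ_self_right]
    omega
  calc (p + 1).factorial * (r + 1).factorial = (p + 1).factorial * r.factorial * (r + 1) := by
        rw [Nat.factorial_succ r]; ring
    _ ≤ (p + 1).factorial * r.factorial * (p + 1 + r).choose (p + 1) :=
        Nat.mul_le_mul_left _ h2
    _ = (p + r + 1).factorial := by rw [h1]; congr 1; ring

lemma fm_mul_le' (p r : ℕ) :
    fm m (p + 1) * fm m (r + 1) * ((p : ℝ) + r + 2) ≤ fm m (p + r + 2) := by
  unfold fm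
  have h1 := h.mul_le_add (p + 1) (r + 1)
  have h2 : (((p + 1).factorial : ℝ) * (r + 1).factorial) ≤ (p + r + 1).factorial := by
    exact_mod_cast fac_aux p r
  have h3 := h.pos (p + 1)
  have h4 := h.pos (r + 1)
  have h5 : ((p + r + 2).factorial : ℝ) = ((p : ℝ) + r + 2) * (p + r + 1).factorial := by
    rw [Nat.factorial_succ (p + r + 1)]
    push_cast; ring
  rw [h5]
  rw [show p + 1 + (r + 1) = p + r + 2 by ring] at h1
  calc ((p + 1).factorial * m (p + 1)) * ((r + 1).factorial * m (r + 1)) * ((p : ℝ) + r + 2) =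
        ((p : ℝ) + r + 2) * (((p + 1).factorial : ℝ) * (r + 1).factorial) * (m (p + 1) * m (r + 1)) := by
        ring
    _ ≤ ((p : ℝ) + r + 2) * (p + r + 1).factorial * m (p + r + 2) := by gcongr

lemma fm_ratio_mono {j k : ℕ} (hjk : j ≤ k) : fm m (j + 1) / fm m j ≤ fm m (k + 1) / fm m k := by
  have e : ∀ n, fm m (n + 1) / fm m n = ((n : ℝ) + 1) * (m (n + 1) / m n) := by
    intro n
    unfold fm
    rw [Nat.factorial_succ]
    have h1 := h.pos n
    have h2 : (n.factorial : ℝ) ≠ 0 := by positivity
    push_cast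
    field_simp
  rw [e, e]
  have h1 := h.ratio_mono hjk
  have h2 : (j : ℝ) ≤ k := by exact_mod_cast hjk
  have h3 := h.pos j
  have h4 := h.pos (j + 1)
  gcongr

lemma fm_shift {u v : ℕ} (huv : u ≤ v) (d : ℕ) : fm m (u + d) * fm m v ≤ fm m u * fm m (v + d) := by
  induction d with
  | zero => simp
  | succ d ih =>
    have h1 := h.fm_ratio_mono (show u + d ≤ v + d by omega)
    have a1 := h.fm_pos (u + d)
    have a2 := h.fm_pos (v + d)
    have a3 := h.fm_pos (u + d + 1)
    have a4 := h.fm_pos v
    have a5 := h.fm_pos u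
    rw [div_le_div_iff₀ a1 a2] at h1
    have h2 : (fm m (u + d + 1) * fm m v) * fm m (u + d) ≤ (fm m u * fm m (v + d + 1)) * fm m (u + d) := by
      calc (fm m (u + d + 1) * fm m v) * fm m (u + d) = fm m (u + d + 1) * (fm m (u + d) * fm m v) := by
            ring
        _ ≤ fm m (u + d + 1) * (fm m u * fm m (v + d)) := by gcongr
        _ = fm m u * (fm m (u + d + 1) * fm m (v + d)) := by ring
        _ ≤ fm m u * (fm m (v + d + 1) * fm m (u + d)) := by gcongr
        _ = _ := by ring
    exact le_of_mul_le_mul_right h2 a1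

lemma fm_pow (k d : ℕ) : fm m (k + d) ≤ fm m k * (fm m (k + d + 1) / fm m (k + d)) ^ d := by
  induction d with
  | zero => simp
  | succ d ih =>
    have h1 := h.fm_ratio_mono (show k + d ≤ k + d + 1 by omega)
    have a1 := h.fm_pos (k + d)
    have a2 := h.fm_pos (k + d + 1)
    have a3 := h.fm_pos (k + d + 2)
    have a4 := h.fm_pos k
    calc fm m (k + (d + 1)) = fm m (k + d) * (fm m (k + d + 1) / fm m (k + d)) := by
          rw [mul_div_cancel₀ _ a1.ne']
          rfl
      _ ≤ (fm m k * (fm m (k + d + 1) / fm m (k + d)) ^ d) * (fm m (k + d + 1) / fm m (k + d)) := by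
          gcongr
      _ = fm m k * (fm m (k + d + 1) / fm m (k + d)) ^ (d + 1) := by ring
      _ ≤ fm m k * (fm m (k + (d + 1) + 1) / fm m (k + (d + 1))) ^ (d + 1) :=
          mul_le_mul_of_nonneg_left (pow_le_pow_left₀ (by positivity) h1 (d + 1)) a4.le

end IsReg

/-- the majorant -/
noncomputable def bdc (α β : ℝ) (m : ℕ → ℝ) (j s : ℕ) : ℝ :=
  if j = 0 then β ^ s * fm m s else α ^ j * β ^ (max s 1) * fm m (j + max s 1)

lemma bdc_zero (α β : ℝ) (m : ℕ → ℝ) (s : ℕ) : bdc α β m 0 s = β ^ s * fm m s := by
  unfold bdc; rw [if_pos rfl]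

lemma bdc_succ_zero (α β : ℝ) (m : ℕ → ℝ) (j : ℕ) :
    bdc α β m (j + 1) 0 = α ^ (j + 1) * β * fm m (j + 2) := by
  unfold bdc; rw [if_neg (by omega)]; simp

lemma bdc_succ (α β : ℝ) (m : ℕ → ℝ) (j s : ℕ) :
    bdc α β m j (s + 1) = α ^ j * β ^ (s + 1) * fm m (j + s + 1) := by
  unfold bdc
  rw [show max (s + 1) 1 = s + 1 by omega]
  split_ifs with h
  · rw [h]; simp
  · rw [← add_assoc]

theorem isMajorant_bdc {m : ℕ → ℝ} (h : IsReg m) {Q ρ α β : ℝ} (hQ : 0 ≤ Q) (hρ : 0 ≤ ρ)
    (hβ1 : 1 ≤ β) (hβρ : 2 * ρ ≤ β) (hα : β + Q + Q * β ≤ α) :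
    IsMajorant (fun i => Q * ρ ^ i * fm m i) (bdc α β m) := by
  have hβ0 : 0 < β := by linarith
  have hα0 : 0 < α := by nlinarith
  have hnn : ∀ j s, 0 ≤ bdc α β m j s := by
    intro j s
    unfold bdc
    split_ifs
    · have := h.fm_pos s; positivity
    · have := h.fm_pos (j + max s 1); positivity
  -- uniform bound
  have hU : ∀ j s, bdc α β m j s ≤ α ^ j * β ^ (s + 1) * fm m (j + s + 1) := by
    intro j s
    rcases s with _ | s
    · rcases j with _ | j
      · rw [bdc_zero]
        simp only [pow_zero, one_mul, zero_add, pow_one]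
        have h1 := h.fm_mono (show 0 ≤ 1 by omega)
        have h2 := h.fm_pos 1
        have h3 := h.fm_pos 0
        nlinarith
      · rw [bdc_succ_zero]
        simp
    · rw [bdc_succ]
      have h1 := h.fm_mono (show j + s + 1 ≤ j + (s + 1) + 1 by omega)
      have h2 := h.fm_pos (j + s + 1)
      have h3 : β ^ (s + 1) ≤ β ^ (s + 1 + 1) := pow_le_pow_right₀ hβ1 (by omega)
      gcongr
  refine ⟨?_, hnn, ?_, ?_⟩
  · rw [bdc_zero, h.fm_zero]; simp
  · intro j
    rw [bdc_succ_zero, show (1:ℕ) = 0 + 1 by rfl, bdc_succ]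
    simp
  · intro j s
    have htarget : bdc α β m (j + 1) (s + 1) = α ^ (j + 1) * β ^ (s + 1) * fm m (j + s + 2) := by
      rw [bdc_succ]; congr 2; ring
    set T := α ^ j * β ^ (s + 1) * fm m (j + s + 2) with hT
    have hT0 : 0 < T := by
      have := h.fm_pos (j + s + 2)
      positivity
    have htT : bdc α β m (j + 1) (s + 1) = α * T := by rw [htarget, hT]; ring
    -- first term
    have t1 : bdc α β m j (s + 2) = β * T := by
      rw [show s + 2 = (s + 1) + 1 by ring, bdc_succ, hT]
      have : j + (s + 1) + 1 = j + s + 2 := by ring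
      rw [this]; ring
    -- relation between consecutive
    have hstep : fm m (j + s + 1) * 2 ≤ fm m (j + s + 2) := by
      have h1 := h.succ_mul_fm (j + s + 1)
      have h2 := h.fm_pos (j + s + 1)
      push_cast at h1
      have h3 : (0:ℝ) ≤ j := by positivity
      have h4 : (0:ℝ) ≤ s := by positivity
      have h5 : fm m (j + s + 1 + 1) = fm m (j + s + 2) := rfl
      rw [h5] at h1
      nlinarith
    -- second term
    have t2 : ∑ i ∈ Finset.range (s + 1), (s.choose i : ℝ) * (Q * ρ ^ i * fm m i) *
        bdc α β m j (s - i) ≤ Q * T := by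
      have hterm : ∀ i ∈ Finset.range (s + 1), (s.choose i : ℝ) * (Q * ρ ^ i * fm m i) *
          bdc α β m j (s - i) ≤ (Q * α ^ j * β ^ (s + 1) * fm m (j + s + 1)) * (1 / 2) ^ i := by
        intro i hi
        have hi' : i ≤ s := by have := Finset.mem_range.1 hi; omega
        have h1 := hU j (s - i)
        have h2 : (s.choose i : ℝ) * (fm m i * fm m (j + (s - i) + 1)) ≤ fm m (j + s + 1) := by
          unfold fm
          have a1 := h.mul_le_add i (j + (s - i) + 1)
          rw [show i + (j + (s - i) + 1) = j + s + 1 by omega] at a1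
          have a2 : (s.choose i : ℝ) * ((i.factorial : ℝ) * (j + (s - i) + 1).factorial) ≤
              (j + s + 1).factorial := by
            have b1 : s.choose i ≤ (j + s + 1).choose i := Nat.choose_le_choose i (by omega)
            have b2 := Nat.choose_mul_factorial_mul_factorial (show i ≤ j + s + 1 by omega)
            rw [show j + s + 1 - i = j + (s - i) + 1 by omega] at b2
            have b3 : s.choose i * (i.factorial * (j + (s - i) + 1).factorial) ≤ (j + s + 1).factorial := by
              calc s.choose i * (i.factorial * (j + (s - i) + 1).factorial) ≤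
                    (j + s + 1).choose i * (i.factorial * (j + (s - i) + 1).factorial) :=
                    Nat.mul_le_mul_right _ b1
                _ = (j + s + 1).factorial := by rw [← b2]; ring
            exact_mod_cast b3
          have a3 := h.pos i
          have a4 := h.pos (j + (s - i) + 1)
          calc (s.choose i : ℝ) * (i.factorial * m i * ((j + (s - i) + 1).factorial * m (j + (s - i) + 1)))
              = ((s.choose i : ℝ) * ((i.factorial : ℝ) * (j + (s - i) + 1).factorial)) *
                (m i * m (j + (s - i) + 1)) := by ring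
            _ ≤ (j + s + 1).factorial * m (j + s + 1) := by gcongr
        have h3 : ρ ^ i * β ^ (s - i + 1) ≤ β ^ (s + 1) * (1 / 2) ^ i := by
          have : ρ ≤ β * (1 / 2) := by linarith
          calc ρ ^ i * β ^ (s - i + 1) ≤ (β * (1 / 2)) ^ i * β ^ (s - i + 1) := by gcongr
            _ = β ^ (i + (s - i + 1)) * (1 / 2) ^ i := by rw [mul_pow, pow_add]; ring
            _ = β ^ (s + 1) * (1 / 2) ^ i := by congr 2; omega
        have hfi := h.fm_pos i
        calc (s.choose i : ℝ) * (Q * ρ ^ i * fm m i) * bdc α β m j (s - i)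
            ≤ (s.choose i : ℝ) * (Q * ρ ^ i * fm m i) *
              (α ^ j * β ^ (s - i + 1) * fm m (j + (s - i) + 1)) := by gcongr
          _ = Q * α ^ j * (ρ ^ i * β ^ (s - i + 1)) *
              ((s.choose i : ℝ) * (fm m i * fm m (j + (s - i) + 1))) := by ring
          _ ≤ Q * α ^ j * (β ^ (s + 1) * (1 / 2) ^ i) * fm m (j + s + 1) := by
              have h6 : 0 ≤ (s.choose i : ℝ) * (fm m i * fm m (j + (s - i) + 1)) := by
                have := h.fm_pos (j + (s - i) + 1)
                positivity
              gcongr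
          _ = _ := by ring
      refine (Finset.sum_le_sum hterm).trans ?_
      rw [← Finset.mul_sum]
      have hgeo : ∑ i ∈ Finset.range (s + 1), ((1:ℝ) / 2) ^ i ≤ 2 := by
        have := (summable_geometric_two).sum_le_tsum (Finset.range (s + 1)) (fun _ _ => by positivity)
        rwa [tsum_geometric_two] at this
      have hfm := h.fm_pos (j + s + 1)
      calc (Q * α ^ j * β ^ (s + 1) * fm m (j + s + 1)) * ∑ i ∈ Finset.range (s + 1), ((1:ℝ) / 2) ^ i
          ≤ (Q * α ^ j * β ^ (s + 1) * fm m (j + s + 1)) * 2 := by gcongr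
        _ = Q * (α ^ j * β ^ (s + 1) * (fm m (j + s + 1) * 2)) := by ring
        _ ≤ Q * (α ^ j * β ^ (s + 1) * fm m (j + s + 2)) := by gcongr
        _ = Q * T := by rw [hT]
    -- third term
    have t3 : ∑ i ∈ Finset.range (j + 1), (Q * ρ ^ 0 * fm m 0) * bdc α β m i 0 *
        bdc α β m (j - i) s ≤ Q * β * T := by
      have hterm : ∀ i ∈ Finset.range (j + 1), (Q * ρ ^ 0 * fm m 0) * bdc α β m i 0 *
          bdc α β m (j - i) s ≤ Q * β * T * (1 / ((j : ℝ) + s + 2)) := by
        intro i hi
        have hi' : i ≤ j := by have := Finset.mem_range.1 hi; omega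
        rw [pow_zero, mul_one, h.fm_zero, mul_one, mul_assoc Q]
        have hD : (0:ℝ) < (j : ℝ) + s + 2 := by positivity
        have hD2 : fm m (j + s + 1) * ((j : ℝ) + s + 2) ≤ fm m (j + s + 2) := by
          have h1 := h.succ_mul_fm (j + s + 1)
          push_cast at h1
          have h5 : fm m (j + s + 1 + 1) = fm m (j + s + 2) := rfl
          rw [h5] at h1
          linarith
        have key : bdc α β m i 0 * bdc α β m (j - i) s * ((j : ℝ) + s + 2) ≤
            α ^ j * β ^ (s + 2) * fm m (j + s + 2) := by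
          rcases i with _ | i
          · rw [bdc_zero, h.fm_zero, pow_zero, one_mul, one_mul, Nat.sub_zero]
            calc bdc α β m j s * ((j : ℝ) + s + 2)
                ≤ (α ^ j * β ^ (s + 1) * fm m (j + s + 1)) * ((j : ℝ) + s + 2) := by
                  have := hU j s
                  gcongr
              _ = α ^ j * β ^ (s + 1) * (fm m (j + s + 1) * ((j : ℝ) + s + 2)) := by ring
              _ ≤ α ^ j * β ^ (s + 2) * fm m (j + s + 2) := by
                  have h3 : β ^ (s + 1) ≤ β ^ (s + 2) := pow_le_pow_right₀ hβ1 (by omega)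
                  have h4 := h.fm_pos (j + s + 1)
                  gcongr
          · rw [bdc_succ_zero]
            obtain ⟨d, hd⟩ : ∃ d, j = i + 1 + d := ⟨j - (i + 1), by omega⟩
            have hjd : j - (i + 1) = d := by omega
            rw [hjd]
            rcases d with _ | d
            · -- j = i + 1
              rw [bdc_zero]
              have hji : j = i + 1 := by omega
              have h1 := h.fm_mul_le (i + 2) s
              have e1 : i + 2 + s = j + s + 1 := by omega
              rw [e1] at h1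
              have h3 : β ^ (s + 1) ≤ β ^ (s + 2) := pow_le_pow_right₀ hβ1 (by omega)
              have h4 := h.fm_pos (i + 2)
              have h5 := h.fm_pos s
              calc α ^ (i + 1) * β * fm m (i + 2) * (β ^ s * fm m s) * ((j : ℝ) + s + 2)
                  = α ^ (i + 1) * β ^ (s + 1) * ((fm m (i + 2) * fm m s) * ((j : ℝ) + s + 2)) := by ring
                _ ≤ α ^ (i + 1) * β ^ (s + 2) * (fm m (j + s + 1) * ((j : ℝ) + s + 2)) := by gcongr
                _ ≤ α ^ (i + 1) * β ^ (s + 2) * fm m (j + s + 2) := by gcongr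
                _ = α ^ j * β ^ (s + 2) * fm m (j + s + 2) := by rw [hji]
            · rcases s with _ | s
              · rw [bdc_succ_zero]
                have h1 := h.fm_mul_le' (i + 1) (d + 1)
                have e1 : i + 1 + (d + 1) + 2 = j + 0 + 2 := by omega
                rw [e1] at h1
                have e2 : ((i + 1 : ℕ) : ℝ) + ((d + 1 : ℕ) : ℝ) + 2 = (j : ℝ) + ((0:ℕ) : ℝ) + 2 := by
                  rw [hd]; push_cast; ring
                rw [e2] at h1
                calc α ^ (i + 1) * β * fm m (i + 2) * (α ^ (d + 1) * β * fm m (d + 2)) *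
                      ((j : ℝ) + ((0:ℕ) : ℝ) + 2)
                    = α ^ (i + 1 + (d + 1)) * β ^ (0 + 2) * (fm m (i + 1 + 1) * fm m (d + 1 + 1) *
                      ((j : ℝ) + ((0:ℕ) : ℝ) + 2)) := by rw [pow_add]; ring
                  _ ≤ α ^ (i + 1 + (d + 1)) * β ^ (0 + 2) * fm m (j + 0 + 2) := by gcongr
                  _ = α ^ j * β ^ (0 + 2) * fm m (j + 0 + 2) := by rw [hd]
              · rw [bdc_succ]
                have h1 := h.fm_mul_le' (i + 1) (d + 1 + s)
                have e1 : i + 1 + (d + 1 + s) + 2 = j + (s + 1) + 1 := by omega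
                rw [e1] at h1
                have e2 : ((i + 1 : ℕ) : ℝ) + ((d + 1 + s : ℕ) : ℝ) + 2 = (j : ℝ) + s + 2 := by
                  rw [hd]; push_cast; ring
                rw [e2] at h1
                have h2 : fm m (j + (s + 1) + 1) * ((j : ℝ) + ((s + 1 : ℕ) : ℝ) + 2) ≤
                    fm m (j + (s + 1) + 2) := by
                  have h1 := h.succ_mul_fm (j + (s + 1) + 1)
                  push_cast at h1 ⊢
                  have h5 : fm m (j + (s + 1) + 1 + 1) = fm m (j + (s + 1) + 2) := rfl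
                  rw [h5] at h1
                  linarith
                have h3 : β ^ (s + 1 + 1) ≤ β ^ (s + 1 + 2) := pow_le_pow_right₀ hβ1 (by omega)
                have h4 := h.fm_pos (i + 1 + 1)
                have h5 := h.fm_pos (d + 1 + s + 1)
                have h6 : (1:ℝ) ≤ (j : ℝ) + s + 2 := by
                  have : (0:ℝ) ≤ j := by positivity
                  have : (0:ℝ) ≤ s := by positivity
                  linarith
                have h7 : fm m (i + 1 + 1) * fm m (d + 1 + s + 1) ≤ fm m (j + (s + 1) + 1) := by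
                  have : 0 < fm m (i + 1 + 1) * fm m (d + 1 + s + 1) := by positivity
                  nlinarith
                calc α ^ (i + 1) * β * fm m (i + 2) * (α ^ (d + 1) * β ^ (s + 1) * fm m (d + 1 + s + 1)) *
                      ((j : ℝ) + ((s + 1 : ℕ) : ℝ) + 2)
                    = α ^ (i + 1 + (d + 1)) * β ^ (s + 1 + 1) * ((fm m (i + 1 + 1) *
                      fm m (d + 1 + s + 1)) * ((j : ℝ) + ((s + 1 : ℕ) : ℝ) + 2)) := by
                      rw [pow_add]; ring
                  _ ≤ α ^ (i + 1 + (d + 1)) * β ^ (s + 1 + 2) * (fm m (j + (s + 1) + 1) *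
                      ((j : ℝ) + ((s + 1 : ℕ) : ℝ) + 2)) := by gcongr
                  _ ≤ α ^ (i + 1 + (d + 1)) * β ^ (s + 1 + 2) * fm m (j + (s + 1) + 2) := by gcongr
                  _ = α ^ j * β ^ (s + 1 + 2) * fm m (j + (s + 1) + 2) := by rw [hd]
        have e3 : Q * β * T * (1 / ((j : ℝ) + s + 2)) = Q * ((α ^ j * β ^ (s + 2) * fm m (j + s + 2)) / ((j : ℝ) + s + 2)) := by
          rw [hT]; field_simp; ring
        rw [e3]
        apply mul_le_mul_of_nonneg_left _ hQ
        rw [le_div_iff₀ hD]
        exact key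
      refine (Finset.sum_le_sum hterm).trans ?_
      rw [Finset.sum_const, Finset.card_range, nsmul_eq_mul]
      have hD : (0:ℝ) < (j : ℝ) + s + 2 := by positivity
      have h1 : ((j + 1 : ℕ) : ℝ) * (1 / ((j : ℝ) + s + 2)) ≤ 1 := by
        rw [mul_one_div, div_le_one hD]
        push_cast
        have : (0:ℝ) ≤ s := by positivity
        linarith
      have h2 : 0 ≤ Q * β * T := by positivity
      calc ((j + 1 : ℕ) : ℝ) * (Q * β * T * (1 / ((j : ℝ) + s + 2)))
          = (Q * β * T) * (((j + 1 : ℕ) : ℝ) * (1 / ((j : ℝ) + s + 2))) := by ring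
        _ ≤ (Q * β * T) * 1 := by gcongr
        _ = Q * β * T := mul_one _
    rw [htT, t1]
    have : (β + Q + Q * β) * T ≤ α * T := by gcongr
    nlinarith

end Run7.h374
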