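import Pool.Agent.Run7.h374.WKB

/-! Majorants for the coefficient functions of the formal solution. -/

set_option autoImplicit false

namespace Run7.h374

open Filter Topology MeasureTheory
open scoped ComplexConjugate ContDiff

/-- a majorant array -/
structure IsMajorant (K : ℕ → ℝ) (B : ℕ → ℕ → ℝ) : Prop where
  one_le : 1 ≤ B 0 0
  nonneg : ∀ j s, 0 ≤ B j s
  one_zero : ∀ j, B (j + 1) 1 ≤ B (j + 1) 0
  step : ∀ j s, B j (s + 2) + ∑ i ∈ Finset.range (s + 1), (s.choose i : ℝ) * K i * B j (s - i) +
    ∑ i ∈ Finset.range (j + 1), K 0 * B i 0 * B (j - i) s ≤ B (j + 1) (s + 1)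

lemma norm_le_of_mean {w : ℝ → ℂ} (hs : Differentiable ℝ w) (hp : ∀ x, w (x + 1) = w x)
    (hm : ∫ x in (0:ℝ)..1, w x = 0) {C : ℝ} (hC : ∀ x, ‖deriv w x‖ ≤ C) (x : ℝ) : ‖w x‖ ≤ C := by
  have hp' : Function.Periodic w 1 := hp
  have h1 : ∫ y in x..(x+1), w y = 0 := by
    rw [hp'.intervalIntegral_add_eq x 0, zero_add, hm]
  have h2 : w x = ∫ y in x..(x+1), (w x - w y) := by
    rw [intervalIntegral.integral_sub (by simp) (hs.continuous.intervalIntegrable _ _), h1,
      intervalIntegral.integral_const]
    simp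
  rw [h2]
  have h3 : ∀ y ∈ Set.uIoc x (x+1), ‖w x - w y‖ ≤ C := by
    intro y hy
    rw [Set.uIoc_of_le (by linarith)] at hy
    have h4 := Convex.norm_image_sub_le_of_norm_deriv_le (f := w) (s := Set.univ) (C := C)
      (x := y) (y := x) (fun z _ => hs z) (fun z _ => hC z) convex_univ (Set.mem_univ _)
      (Set.mem_univ _)
    refine h4.trans ?_
    have h5 : ‖x - y‖ ≤ 1 := by
      rw [Real.norm_eq_abs, abs_le]
      constructor <;> linarith [hy.1, hy.2]
    have h6 : 0 ≤ C := (norm_nonneg _).trans (hC x)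
    nlinarith
  have h4 := intervalIntegral.norm_integral_le_of_norm_le_const h3
  simpa using h4

lemma continuousAt_cd {f : ℝ → ℂ} (hf : ContDiff ℝ ∞ f) (n : ℕ) (x : ℝ) : ContDiffAt ℝ n f x :=
  (hf.of_le (by exact_mod_cast le_top)).contDiffAt

/-- the majorant lemma -/
theorem WKB.le_majorant {q : ℝ → ℝ} {w : ℕ → ℝ → ℂ} {E : ℕ → ℂ} (h : WKB q w E)
    (hqs : ContDiff ℝ ∞ (fun x => (q x : ℂ))) {K : ℕ → ℝ} {B : ℕ → ℕ → ℝ} (hB : IsMajorant K B)
    {m : ℕ} (hq : ∀ i ≤ m, ∀ x, ‖iteratedDeriv i (fun x => (q x : ℂ)) x‖ ≤ K i) :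
    ∀ j s, j ≤ m → j + s ≤ m + 1 → ∀ x, ‖iteratedDeriv s (w j) x‖ ≤ B j s := by
  have hK0 : ∀ x, ‖(q x : ℂ)‖ ≤ K 0 := by
    intro x
    have := hq 0 (Nat.zero_le _) x
    simpa using this
  have hK0nn : 0 ≤ K 0 := (norm_nonneg _).trans (hK0 0)
  have hE : ∀ j, (∀ x, ‖w j x‖ ≤ B j 0) → ‖E j‖ ≤ K 0 * B j 0 := by
    intro j hj
    rw [h.E_eq j]
    have h1 : ∀ y ∈ Set.uIoc (0:ℝ) 1, ‖(q y : ℂ) * w j y‖ ≤ K 0 * B j 0 := by
      intro y _
      rw [norm_mul]
      have := hK0 y
      have := hj y
      gcongr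
    have h4 := intervalIntegral.norm_integral_le_of_norm_le_const h1
    simpa using h4
  intro j
  induction j using Nat.strong_induction_on with
  | _ j ih =>
    rcases Nat.eq_zero_or_pos j with hj | hj
    · subst hj
      intro s _ _ x
      have h0 : w 0 = fun _ => (1 : ℂ) := by ext x; exact h.zero x
      rw [h0]
      rcases Nat.eq_zero_or_pos s with hs | hs
      · subst hs
        simp only [iteratedDeriv_zero, norm_one]
        exact hB.one_le
      · rw [iteratedDeriv_const, if_neg (by omega), norm_zero]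
        exact hB.nonneg 0 s
    · obtain ⟨j, rfl⟩ : ∃ m, j = m + 1 := ⟨j - 1, by omega⟩
      -- the case s + 1
      have key : ∀ s, j + 1 ≤ m → j + 1 + (s + 1) ≤ m + 1 → ∀ x,
          ‖iteratedDeriv (s + 1) (w (j + 1)) x‖ ≤ B (j + 1) (s + 1) := by
        intro s hjm hjs x
        refine le_trans ?_ (hB.step j s)
        rw [iteratedDeriv_succ']
        have e1 : deriv (w (j + 1)) = fun x => -(deriv (deriv (w j)) x) + (q x : ℂ) * w j x -
            ∑ i ∈ Finset.range (j + 1), E i * w (j - i) x := by
          ext x; exact h.step j x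
        rw [e1]
        have s1 : ContDiff ℝ ∞ (deriv (w j)) := (contDiff_infty_iff_deriv.1 (h.smooth j)).2
        have s2 : ContDiff ℝ ∞ (deriv (deriv (w j))) := (contDiff_infty_iff_deriv.1 s1).2
        have s3 : ContDiff ℝ ∞ (fun x => (q x : ℂ) * w j x) := hqs.mul (h.smooth j)
        have s4 : ContDiff ℝ ∞ (fun x => -(deriv (deriv (w j)) x) + (q x : ℂ) * w j x) :=
          s2.neg.add s3
        have s5 : ContDiff ℝ ∞ (fun x => ∑ i ∈ Finset.range (j + 1), E i * w (j - i) x) := by
          apply ContDiff.sum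
          intro i _
          exact contDiff_const.mul (h.smooth _)
        rw [iteratedDeriv_fun_sub (continuousAt_cd s4 s x) (continuousAt_cd s5 s x),
          iteratedDeriv_fun_add (continuousAt_cd s2.neg s x) (continuousAt_cd s3 s x),
          iteratedDeriv_fun_neg, iteratedDeriv_fun_mul (continuousAt_cd hqs s x)
            (continuousAt_cd (h.smooth j) s x),
          iteratedDeriv_fun_sum (fun i _ => continuousAt_cd (contDiff_const.mul (h.smooth _)) s x)]
        refine (norm_sub_le _ _).trans (add_le_add ((norm_add_le _ _).trans (add_le_add ?_ ?_)) ?_)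
        · rw [norm_neg, ← iteratedDeriv_succ', ← iteratedDeriv_succ']
          exact ih j (by omega) (s + 2) (by omega) (by omega) x
        · refine (norm_sum_le _ _).trans (Finset.sum_le_sum fun i hi => ?_)
          have hi' : i ≤ s := by have := Finset.mem_range.1 hi; omega
          rw [norm_mul, norm_mul, Complex.norm_natCast]
          have a1 := hq i (by omega) x
          have a2 := ih j (by omega) (s - i) (by omega) (by omega) x
          have a3 : 0 ≤ K i := (norm_nonneg _).trans a1
          gcongr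
        · refine (norm_sum_le _ _).trans (Finset.sum_le_sum fun i hi => ?_)
          have hi' : i ≤ j := by have := Finset.mem_range.1 hi; omega
          rw [iteratedDeriv_const_mul_field, norm_mul]
          have a1 := hE i (fun y => by
            have := ih i (by omega) 0 (by omega) (by omega) y
            simpa using this)
          have a2 := ih (j - i) (by omega) s (by omega) (by omega) x
          have a3 : 0 ≤ K 0 * B i 0 := mul_nonneg hK0nn (hB.nonneg i 0)
          gcongr
      intro s hjm hjs x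
      rcases Nat.eq_zero_or_pos s with hs | hs
      · subst hs
        rw [iteratedDeriv_zero]
        refine le_trans ?_ (hB.one_zero j)
        apply norm_le_of_mean ((h.smooth (j+1)).differentiable (by simp)) (h.per (j + 1)) (h.mean j)
        intro y
        have := key 0 hjm (by omega) y
        rwa [zero_add, iteratedDeriv_one] at this
      · obtain ⟨s, rfl⟩ : ∃ m, s = m + 1 := ⟨s - 1, by omega⟩
        exact key s hjm hjs x

/-- bound of the numbers `E j` -/
lemma WKB.norm_E_le {q : ℝ → ℝ} {w : ℕ → ℝ → ℂ} {E : ℕ → ℂ} (h : WKB q w E) {K0 b : ℝ}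
    (hK0 : ∀ x, ‖(q x : ℂ)‖ ≤ K0) {j : ℕ} (hj : ∀ x, ‖w j x‖ ≤ b) : ‖E j‖ ≤ K0 * b := by
  have hK0nn : 0 ≤ K0 := (norm_nonneg _).trans (hK0 0)
  rw [h.E_eq j]
  have h1 : ∀ y ∈ Set.uIoc (0:ℝ) 1, ‖(q y : ℂ) * w j y‖ ≤ K0 * b := by
    intro y _
    rw [norm_mul]
    have := hK0 y
    have := hj y
    gcongr
  have h4 := intervalIntegral.norm_integral_le_of_norm_le_const h1
  simpa using h4

/-- the majorant defined by the recursion -/
noncomputable def maj (K : ℕ → ℝ) : ℕ → ℕ → ℝ := fun j =>
  Nat.strongRecOn j fun j rec => match j with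
    | 0 => fun _ => 1
    | (j + 1) => fun s =>
      let f : ℕ → ℝ := fun s => rec j (by omega) (s + 2) +
        ∑ i ∈ Finset.range (s + 1), (s.choose i : ℝ) * K i * rec j (by omega) (s - i) +
        ∑ i ∈ (Finset.range (j + 1)).attach, K 0 * rec i (by
          have := Finset.mem_range.1 i.2; omega) 0 * rec (j - i) (by omega) s
      match s with
        | 0 => f 0
        | (s + 1) => f s

lemma maj_zero (K : ℕ → ℝ) (s : ℕ) : maj K 0 s = 1 := by
  unfold maj
  rw [Nat.strongRecOn_eq]

lemma maj_succ (K : ℕ → ℝ) (j s : ℕ) : maj K (j + 1) (s + 1) = maj K j (s + 2) +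
    ∑ i ∈ Finset.range (s + 1), (s.choose i : ℝ) * K i * maj K j (s - i) +
    ∑ i ∈ Finset.range (j + 1), K 0 * maj K i 0 * maj K (j - i) s := by
  rw [← Finset.sum_attach (Finset.range (j + 1))]
  conv_lhs => unfold maj
  rw [Nat.strongRecOn_eq]
  rfl

lemma maj_succ_zero (K : ℕ → ℝ) (j : ℕ) : maj K (j + 1) 0 = maj K (j + 1) 1 := by
  unfold maj
  rw [Nat.strongRecOn_eq]

lemma isMajorant_maj {K : ℕ → ℝ} (hK : ∀ i, 0 ≤ K i) : IsMajorant K (maj K) := by
  have hnn : ∀ j s, 0 ≤ maj K j s := by
    intro j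
    induction j using Nat.strong_induction_on with
    | _ j ih =>
      rcases Nat.eq_zero_or_pos j with hj | hj
      · subst hj; intro s; rw [maj_zero]; exact zero_le_one
      · obtain ⟨j, rfl⟩ : ∃ m, j = m + 1 := ⟨j - 1, by omega⟩
        have key : ∀ s, 0 ≤ maj K (j + 1) (s + 1) := by
          intro s
          rw [maj_succ]
          have a1 := ih j (by omega) (s + 2)
          have a2 : 0 ≤ ∑ i ∈ Finset.range (s + 1), (s.choose i : ℝ) * K i * maj K j (s - i) := by
            apply Finset.sum_nonneg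
            intro i _
            have := ih j (by omega) (s - i)
            have := hK i
            positivity
          have a3 : 0 ≤ ∑ i ∈ Finset.range (j + 1), K 0 * maj K i 0 * maj K (j - i) s := by
            apply Finset.sum_nonneg
            intro i hi
            have hi' := Finset.mem_range.1 hi
            have := ih i (by omega) 0
            have := ih (j - i) (by omega) s
            have := hK 0
            positivity
          linarith
        intro s
        rcases Nat.eq_zero_or_pos s with hs | hs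
        · subst hs; rw [maj_succ_zero]; exact key 0
        · obtain ⟨s, rfl⟩ : ∃ m, s = m + 1 := ⟨s - 1, by omega⟩
          exact key s
  refine ⟨by rw [maj_zero], hnn, fun j => (maj_succ_zero K j).ge, fun j s => (maj_succ K j s).ge⟩

end Run7.h374
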