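import Pool.Agent.Run7.h374.Fund

/-! The monodromy matrix and the periodic/antiperiodic spectrum. -/

set_option autoImplicit false

namespace Run7.h374

open Filter Topology Metric MeasureTheory
open scoped Interval ComplexConjugate

variable {q : ℝ → ℝ} {K : ℝ} {σ k : ℂ} {μ : ℝ}

lemma isSol_of_mem (hk : k ^ 2 = (μ : ℂ)) {f : ℝ → ℂ} (hf : f ∈ eigSpace q σ μ) :
    IsSol q k f (deriv f) where
  d1 := fun x => (hf.1.differentiable (by norm_num) x).hasDerivAt
  d2 := fun x => by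
    have h1 : DifferentiableAt ℝ (deriv f) x :=
      ((hf.1.iterate_deriv' 1 1).differentiable (by norm_num)) x
    have h2 := h1.hasDerivAt
    have h3 := hf.2.1 x
    refine h2.congr_deriv ?_
    rw [hk]
    linear_combination -h3

lemma contDiff_two_of_isSol (hq : Continuous q) {f g : ℝ → ℂ} (h : IsSol q k f g) :
    ContDiff ℝ 2 f := by
  have e1 : deriv f = g := by ext x; exact (h.d1 x).deriv
  have hfc : Continuous f := continuous_iff_continuousAt.2 fun x => (h.d1 x).continuousAt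
  have e2 : deriv g = fun x => ((q x : ℂ) - k ^ 2) * f x := by ext x; exact (h.d2 x).deriv
  have hg : ContDiff ℝ 1 g := by
    rw [show (1 : WithTop ℕ∞) = 0 + 1 by norm_num, contDiff_succ_iff_deriv]
    refine ⟨fun x => (h.d2 x).differentiableAt, by simp, ?_⟩
    rw [e2, contDiff_zero]
    fun_prop
  rw [show (2 : WithTop ℕ∞) = 1 + 1 by norm_num, contDiff_succ_iff_deriv]
  refine ⟨fun x => (h.d1 x).differentiableAt, by simp, ?_⟩
  rw [e1]
  exact hg

lemma mem_of_isSol (hq : Continuous q) (hk : k ^ 2 = (μ : ℂ)) {f g : ℝ → ℂ} (h : IsSol q k f g)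
    (hσ : ∀ x, f (x + 1) = σ * f x) : f ∈ eigSpace q σ μ := by
  refine ⟨contDiff_two_of_isSol hq h, fun x => ?_, hσ⟩
  have e1 : deriv f = g := by ext x; exact (h.d1 x).deriv
  rw [e1, (h.d2 x).deriv, ← hk]
  ring

/-- Cauchy data at `0` -/
noncomputable def evalMap (q : ℝ → ℝ) (σ : ℂ) (μ : ℝ) : eigSpace q σ μ →ₗ[ℂ] ℂ × ℂ where
  toFun f := (f.1 0, deriv f.1 0)
  map_add' := by
    rintro ⟨f, hf⟩ ⟨g, hg⟩
    have h : deriv (f + g) 0 = deriv f 0 + deriv g 0 :=
      deriv_add (hf.1.differentiable (by norm_num) 0) (hg.1.differentiable (by norm_num) 0)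
    show ((f + g) 0, deriv (f + g) 0) = (f 0, deriv f 0) + (g 0, deriv g 0)
    rw [h]; rfl
  map_smul' := by
    rintro c ⟨f, hf⟩
    have h : deriv (c • f) 0 = c • deriv f 0 :=
      deriv_const_smul c (hf.1.differentiable (by norm_num) 0)
    show ((c • f) 0, deriv (c • f) 0) = c • (f 0, deriv f 0)
    rw [h]; rfl

lemma exists_sqrt (μ : ℝ) : ∃ k : ℂ, k ^ 2 = (μ : ℂ) := by
  obtain ⟨z, hz⟩ := IsAlgClosed.exists_pow_nat_eq (μ : ℂ) (n := 2) (by norm_num)
  exact ⟨z, hz⟩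

lemma evalMap_inj (hq : Continuous q) (hK : ∀ x, |q x| ≤ K) :
    Function.Injective (evalMap q σ μ) := by
  rintro ⟨f, hf⟩ ⟨g, hg⟩ h
  obtain ⟨k, hk⟩ := exists_sqrt μ
  have h1 : (f 0, deriv f 0) = (g 0, deriv g 0) := h
  rw [Prod.mk.injEq] at h1
  apply Subtype.ext
  ext x
  exact (sol_unique hq hK (isSol_of_mem hk hf) (isSol_of_mem hk hg) h1.1 h1.2 x).1

lemma eig_finite (hq : Continuous q) (hK : ∀ x, |q x| ≤ K) :
    Module.Finite ℂ (eigSpace q σ μ) :=
  Module.Finite.of_injective _ (evalMap_inj hq hK)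

lemma finrank_le_two (hq : Continuous q) (hK : ∀ x, |q x| ≤ K) :
    Module.finrank ℂ (eigSpace q σ μ) ≤ 2 := by
  have := LinearMap.finrank_le_finrank_of_injective (evalMap_inj (σ := σ) (μ := μ) hq hK)
  rwa [Module.finrank_prod, Module.finrank_self] at this

lemma mono_eig (hq : Continuous q) (hK : ∀ x, |q x| ≤ K) (hk : k ^ 2 = (μ : ℂ)) {f : ℝ → ℂ}
    (hf : f ∈ eigSpace q σ μ) :
    f 0 * fy1 q 1 k + deriv f 0 * fy2 q 1 k = σ * f 0 ∧
      f 0 * fz1 q 1 k + deriv f 0 * fz2 q 1 k = σ * deriv f 0 := by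
  have h := isSol_of_mem hk hf
  have h1 := sol_rep hq hK h 1
  rw [← h1.1, ← h1.2]
  constructor
  · have := hf.2.2 0
    rwa [zero_add] at this
  · have h2 : HasDerivAt (fun x => f (x + 1)) (deriv f (0 + 1)) 0 := (h.d1 (0 + 1)).comp_add_const 0 1
    have h3 : HasDerivAt (fun x => f (x + 1)) (σ * deriv f 0) 0 := by
      have e : (fun x => f (x + 1)) = fun x => σ * f x := by ext x; exact hf.2.2 x
      rw [e]
      exact (h.d1 0).const_mul σ
    have := h2.unique h3
    rwa [zero_add] at this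

lemma disc_of_ne (hq : Continuous q) (hK : ∀ x, |q x| ≤ K) (hk : k ^ 2 = (μ : ℂ))
    (hσ : σ ^ 2 = 1) {f : ℝ → ℂ} (hf : f ∈ eigSpace q σ μ) (hf0 : f ≠ 0) :
    fy1 q 1 k + fz2 q 1 k = 2 * σ := by
  obtain ⟨h1, h2⟩ := mono_eig hq hK hk hf
  have h3 := wronsk_one hq hK k 1
  have h4 : f 0 ≠ 0 ∨ deriv f 0 ≠ 0 := by
    by_contra hcon
    push Not at hcon
    apply hf0
    have h5 : (⟨f, hf⟩ : eigSpace q σ μ) = 0 := by
      apply evalMap_inj hq hK
      rw [map_zero]
      show (f 0, deriv f 0) = 0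
      rw [hcon.1, hcon.2]; rfl
    exact congrArg Subtype.val h5
  have h5 : (fy1 q 1 k - σ) * (fz2 q 1 k - σ) - fz1 q 1 k * fy2 q 1 k = 0 := by
    rcases h4 with h | h
    · apply mul_left_cancel₀ h
      linear_combination (fz2 q 1 k - σ) * h1 - fy2 q 1 k * h2
    · apply mul_left_cancel₀ h
      linear_combination (fy1 q 1 k - σ) * h2 - fz1 q 1 k * h1
  have h6 : 2 - σ * (fy1 q 1 k + fz2 q 1 k) = 0 := by
    linear_combination h5 - h3 - hσ
  linear_combination (-σ) * h6 - (fy1 q 1 k + fz2 q 1 k) * hσ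

lemma isSol_shift (hper : ∀ x, q (x + 1) = q x) {f g : ℝ → ℂ} (h : IsSol q k f g) :
    IsSol q k (fun x => f (x + 1)) (fun x => g (x + 1)) where
  d1 := fun x => (h.d1 (x + 1)).comp_add_const x 1
  d2 := fun x => by
    have := (h.d2 (x + 1)).comp_add_const x 1
    rwa [hper] at this

lemma isSol_comb {f g f' g' : ℝ → ℂ} (h : IsSol q k f g) (h' : IsSol q k f' g') (α β : ℂ) :
    IsSol q k (fun x => α * f x + β * f' x) (fun x => α * g x + β * g' x) where
  d1 := fun x => ((h.d1 x).const_mul α).add ((h'.d1 x).const_mul β)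
  d2 := fun x => by
    refine (((h.d2 x).const_mul α).add ((h'.d2 x).const_mul β)).congr_deriv ?_
    ring

lemma comb_mem (hq : Continuous q) (hper : ∀ x, q (x + 1) = q x) (hK : ∀ x, |q x| ≤ K)
    (hk : k ^ 2 = (μ : ℂ)) {α β : ℂ} (h1 : α * fy1 q 1 k + β * fy2 q 1 k = σ * α)
    (h2 : α * fz1 q 1 k + β * fz2 q 1 k = σ * β) :
    (fun x => α * fy1 q x k + β * fy2 q x k) ∈ eigSpace q σ μ := by
  have hs := isSol_comb (sol1 hq hK k) (sol2' hq hK k) α β
  refine mem_of_isSol hq hk hs fun x => ?_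
  have h3 := (sol_rep hq hK (isSol_shift hper hs) x).1
  simp only [zero_add] at h3
  rw [h3, h1, h2]; ring

lemma exists_eig (hq : Continuous q) (hper : ∀ x, q (x + 1) = q x) (hK : ∀ x, |q x| ≤ K)
    (hk : k ^ 2 = (μ : ℂ)) (hσ : σ ^ 2 = 1) (hΔ : fy1 q 1 k + fz2 q 1 k = 2 * σ) :
    ∃ f ∈ eigSpace q σ μ, f ≠ 0 := by
  have h3 := wronsk_one hq hK k 1
  have hne : ∀ α β : ℂ, (α ≠ 0 ∨ β ≠ 0) → (fun x => α * fy1 q x k + β * fy2 q x k) ≠ 0 := by
    intro α β hab h0
    have e1 : α = 0 := by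
      have := congrFun h0 0
      simp only [fy1_zero hq hK, fy2_zero hq hK, Pi.zero_apply] at this
      simpa using this
    have e2 : β = 0 := by
      have hd := (isSol_comb (sol1 hq hK k) (sol2' hq hK k) α β).d1 0
      simp only [fz1_zero, fz2_zero] at hd
      have h0' : (fun x => α * fy1 q x k + β * fy2 q x k) = fun _ => (0:ℂ) := h0
      rw [h0'] at hd
      have := hd.unique (hasDerivAt_const (0:ℝ) (0:ℂ))
      simpa using this
    rcases hab with h | h
    · exact h e1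
    · exact h e2
  by_cases hy : fy2 q 1 k = 0
  · by_cases hz : fz1 q 1 k = 0
    · have h5 : fy1 q 1 k = σ := by
        have e1 : (fy1 q 1 k - σ) ^ 2 = 0 := by
          rw [hy, hz] at h3
          have e2 : fz2 q 1 k = 2 * σ - fy1 q 1 k := by linear_combination hΔ
          rw [e2] at h3
          linear_combination -h3 + hσ
        have := pow_eq_zero_iff (two_ne_zero) |>.1 e1
        linear_combination this
      exact ⟨_, comb_mem hq hper hK hk (α := 1) (β := 0) (by rw [h5]; ring) (by rw [hz]; ring),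
        hne 1 0 (Or.inl one_ne_zero)⟩
    · exact ⟨_, comb_mem hq hper hK hk (α := σ - fz2 q 1 k) (β := fz1 q 1 k)
        (by linear_combination σ * hΔ - h3 + hσ) (by ring), hne _ _ (Or.inr hz)⟩
  · exact ⟨_, comb_mem hq hper hK hk (α := fy2 q 1 k) (β := σ - fy1 q 1 k) (by ring)
      (by linear_combination σ * hΔ - h3 + hσ), hne _ _ (Or.inl hy)⟩

/-- two-dimensional eigenspace: the monodromy is scalar -/
lemma scalar_of_finrank (hq : Continuous q) (hK : ∀ x, |q x| ≤ K) (hk : k ^ 2 = (μ : ℂ))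
    (h2 : 2 ≤ Module.finrank ℂ (eigSpace q σ μ)) :
    fy1 q 1 k = σ ∧ fy2 q 1 k = 0 ∧ fz1 q 1 k = 0 ∧ fz2 q 1 k = σ := by
  have := eig_finite (σ := σ) (μ := μ) hq hK
  have hfr : Module.finrank ℂ (eigSpace q σ μ) = Module.finrank ℂ (ℂ × ℂ) := by
    rw [Module.finrank_prod, Module.finrank_self]
    exact le_antisymm (finrank_le_two hq hK) h2
  have hsurj : Function.Surjective (evalMap q σ μ) :=
    (LinearMap.injective_iff_surjective_of_finrank_eq_finrank hfr).1 (evalMap_inj hq hK)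
  obtain ⟨⟨f, hf⟩, h⟩ := hsurj (1, 0)
  obtain ⟨⟨g, hg⟩, h'⟩ := hsurj (0, 1)
  have e1 : (f 0, deriv f 0) = (1, 0) := h
  have e2 : (g 0, deriv g 0) = (0, 1) := h'
  rw [Prod.mk.injEq] at e1 e2
  obtain ⟨a1, a2⟩ := mono_eig hq hK hk hf
  obtain ⟨b1, b2⟩ := mono_eig hq hK hk hg
  rw [e1.1, e1.2] at a1 a2
  rw [e2.1, e2.2] at b1 b2
  refine ⟨by linear_combination a1, by linear_combination b1, by linear_combination a2,
    by linear_combination b2⟩

lemma finrank_of_scalar (hq : Continuous q) (hper : ∀ x, q (x + 1) = q x) (hK : ∀ x, |q x| ≤ K)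
    (hk : k ^ 2 = (μ : ℂ)) (h1 : fy1 q 1 k = σ) (h2 : fy2 q 1 k = 0) (h3 : fz1 q 1 k = 0)
    (h4 : fz2 q 1 k = σ) : 2 ≤ Module.finrank ℂ (eigSpace q σ μ) := by
  have := eig_finite (σ := σ) (μ := μ) hq hK
  have hsurj : Function.Surjective (evalMap q σ μ) := by
    rintro ⟨α, β⟩
    refine ⟨⟨_, comb_mem hq hper hK hk (α := α) (β := β) (by rw [h1, h2]; ring)
      (by rw [h3, h4]; ring)⟩, ?_⟩
    have hd := ((isSol_comb (sol1 hq hK k) (sol2' hq hK k) α β).d1 0).deriv
    show (α * fy1 q 0 k + β * fy2 q 0 k, deriv (fun x => α * fy1 q x k + β * fy2 q x k) 0) = (α, β)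
    rw [hd, fy1_zero hq hK, fy2_zero hq hK, fz1_zero, fz2_zero]
    simp
  have := LinearMap.finrank_le_finrank_of_surjective hsurj
  rwa [Module.finrank_prod, Module.finrank_self] at this

lemma disc_of_finrank (hq : Continuous q) (hK : ∀ x, |q x| ≤ K) (hk : k ^ 2 = (μ : ℂ))
    (hσ : σ ^ 2 = 1) (h : 1 ≤ Module.finrank ℂ (eigSpace q σ μ)) :
    fy1 q 1 k + fz2 q 1 k = 2 * σ := by
  have h1 : 0 < Module.finrank ℂ (eigSpace q σ μ) := h
  have := eig_finite (σ := σ) (μ := μ) hq hK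
  have h2 : Nontrivial (eigSpace q σ μ) := Module.finrank_pos_iff.1 h1
  obtain ⟨f, hf⟩ := exists_ne (0 : eigSpace q σ μ)
  exact disc_of_ne hq hK hk hσ f.2 (fun h => hf (Subtype.ext h))

/-- at most one of the two eigenspaces is nontrivial -/
lemma one_zero (hq : Continuous q) (hK : ∀ x, |q x| ≤ K) :
    Module.finrank ℂ (eigSpace q 1 μ) = 0 ∨ Module.finrank ℂ (eigSpace q (-1) μ) = 0 := by
  obtain ⟨k, hk⟩ := exists_sqrt μ
  by_contra hcon
  push Not at hcon
  have h1 := disc_of_finrank hq hK hk (σ := 1) (by norm_num) (Nat.one_le_iff_ne_zero.2 hcon.1)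
  have h2 := disc_of_finrank hq hK hk (σ := -1) (by norm_num) (Nat.one_le_iff_ne_zero.2 hcon.2)
  rw [h1] at h2
  norm_num at h2

section spectrum

variable {lam : ℕ → ℝ}

lemma no_triple (hq : Continuous q) (hK : ∀ x, |q x| ≤ K) (hlam : IsHillSpectrum q lam) (n : ℕ) :
    lam n < lam (n + 2) := by
  rcases (hlam.mono (show n ≤ n + 2 by omega)).lt_or_eq with h | h
  · exact h
  · exfalso
    have h1 : lam (n + 1) = lam n :=
      le_antisymm (h ▸ hlam.mono (show n + 1 ≤ n + 2 by omega)) (hlam.mono (by omega))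
    have h2 : ({n, n + 1, n + 2} : Set ℕ) ⊆ {m | lam m = lam n} := by
      rintro m (rfl | rfl | rfl)
      · rfl
      · exact h1
      · exact h.symm
    have h3 := Set.encard_le_encard h2
    rw [hlam.mult] at h3
    have h4 : ({n, n + 1, n + 2} : Set ℕ).encard = 3 := by
      rw [Set.encard_eq_three]
      exact ⟨n, n + 1, n + 2, by omega, by omega, by omega, rfl⟩
    rw [h4] at h3
    have h5 : 3 ≤ Module.finrank ℂ (eigSpace q 1 (lam n)) +
        Module.finrank ℂ (eigSpace q (-1) (lam n)) := by exact_mod_cast h3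
    have h6 := finrank_le_two (σ := 1) (μ := lam n) hq hK
    have h7 := finrank_le_two (σ := -1) (μ := lam n) hq hK
    rcases one_zero (μ := lam n) hq hK with h8 | h8 <;> omega

lemma scalar_of_eq (hq : Continuous q) (hK : ∀ x, |q x| ≤ K) (hlam : IsHillSpectrum q lam)
    {n m : ℕ} (hnm : n ≠ m) (he : lam n = lam m) (hk : k ^ 2 = (lam n : ℂ)) :
    fy1 q 1 k = fz2 q 1 k ∧ fy2 q 1 k = 0 ∧ fz1 q 1 k = 0 := by
  have h2 : ({n, m} : Set ℕ) ⊆ {j | lam j = lam n} := by
    rintro j (rfl | rfl)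
    · rfl
    · exact he.symm
  have h3 := Set.encard_le_encard h2
  rw [hlam.mult, Set.encard_pair hnm] at h3
  have h5 : 2 ≤ Module.finrank ℂ (eigSpace q 1 (lam n)) +
        Module.finrank ℂ (eigSpace q (-1) (lam n)) := by exact_mod_cast h3
  rcases one_zero (μ := lam n) hq hK with h8 | h8
  · obtain ⟨a, b, c, d⟩ := scalar_of_finrank (σ := -1) hq hK hk (by omega)
    exact ⟨by rw [a, d], b, c⟩
  · obtain ⟨a, b, c, d⟩ := scalar_of_finrank (σ := 1) hq hK hk (by omega)
    exact ⟨by rw [a, d], b, c⟩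

lemma eq_of_scalar (hq : Continuous q) (hper : ∀ x, q (x + 1) = q x) (hK : ∀ x, |q x| ≤ K)
    (hlam : IsHillSpectrum q lam) (n : ℕ) (hk : k ^ 2 = (lam n : ℂ))
    (h1 : fy1 q 1 k = fz2 q 1 k) (h2 : fy2 q 1 k = 0) (h3 : fz1 q 1 k = 0) :
    ∃ m ≠ n, lam m = lam n := by
  have hw := wronsk_one hq hK k 1
  rw [h2, h3, ← h1] at hw
  have h4 : (fy1 q 1 k - 1) * (fy1 q 1 k + 1) = 0 := by linear_combination hw
  have h5 : 2 ≤ Module.finrank ℂ (eigSpace q 1 (lam n)) +
        Module.finrank ℂ (eigSpace q (-1) (lam n)) := by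
    rcases mul_eq_zero.1 h4 with h | h
    · have h6 : fy1 q 1 k = 1 := by linear_combination h
      have := finrank_of_scalar hq hper hK hk h6 h2 h3 (by rw [← h1, h6])
      omega
    · have h6 : fy1 q 1 k = -1 := by linear_combination h
      have := finrank_of_scalar hq hper hK hk h6 h2 h3 (by rw [← h1, h6])
      omega
  have h6 : (2 : ℕ∞) ≤ {j | lam j = lam n}.encard := by
    rw [hlam.mult]; exact_mod_cast h5
  have h7 : (1 : ℕ∞) < {j | lam j = lam n}.encard := lt_of_lt_of_le (by norm_num) h6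
  rw [Set.one_lt_encard_iff] at h7
  obtain ⟨a, b, ha, hb, hab⟩ := h7
  by_cases h : a = n
  · exact ⟨b, fun hb' => hab (by rw [h, hb']), hb⟩
  · exact ⟨a, h, ha⟩

lemma disc_at (hq : Continuous q) (hK : ∀ x, |q x| ≤ K) (hlam : IsHillSpectrum q lam)
    (n : ℕ) (hk : k ^ 2 = (lam n : ℂ)) : (fy1 q 1 k + fz2 q 1 k) ^ 2 = 4 := by
  have h1 : (1 : ℕ∞) ≤ {j | lam j = lam n}.encard := by
    rw [Set.one_le_encard_iff_nonempty]
    exact ⟨n, rfl⟩
  rw [hlam.mult] at h1
  have h2 : 1 ≤ Module.finrank ℂ (eigSpace q 1 (lam n)) +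
        Module.finrank ℂ (eigSpace q (-1) (lam n)) := by exact_mod_cast h1
  by_cases h3 : 1 ≤ Module.finrank ℂ (eigSpace q 1 (lam n))
  · rw [disc_of_finrank (σ := 1) hq hK hk (by norm_num) h3]; norm_num
  · rw [disc_of_finrank (σ := -1) hq hK hk (by norm_num) (by omega)]; norm_num

lemma mem_range_of_disc (hq : Continuous q) (hper : ∀ x, q (x + 1) = q x) (hK : ∀ x, |q x| ≤ K)
    (hlam : IsHillSpectrum q lam) (hk : k ^ 2 = (μ : ℂ))
    (h : (fy1 q 1 k + fz2 q 1 k) ^ 2 = 4) : ∃ n, lam n = μ := by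
  have key : ∀ σ : ℂ, σ ^ 2 = 1 → fy1 q 1 k + fz2 q 1 k = 2 * σ →
      1 ≤ Module.finrank ℂ (eigSpace q σ μ) := by
    intro σ hσ h1
    obtain ⟨f, hf, hf0⟩ := exists_eig hq hper hK hk hσ h1
    have := eig_finite (σ := σ) (μ := μ) hq hK
    have h2 : Nontrivial (eigSpace q σ μ) :=
      ⟨⟨f, hf⟩, 0, fun h => hf0 (congrArg Subtype.val h)⟩
    exact Module.finrank_pos_iff.2 h2
  have h4 : (fy1 q 1 k + fz2 q 1 k - 2) * (fy1 q 1 k + fz2 q 1 k + 2) = 0 := by
    linear_combination h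
  have h5 : 1 ≤ Module.finrank ℂ (eigSpace q 1 μ) + Module.finrank ℂ (eigSpace q (-1) μ) := by
    rcases mul_eq_zero.1 h4 with h | h
    · have := key 1 (by norm_num) (by linear_combination h)
      omega
    · have := key (-1) (by norm_num) (by linear_combination h)
      omega
  have h6 : (1 : ℕ∞) ≤ {j | lam j = μ}.encard := by
    rw [hlam.mult]; exact_mod_cast h5
  rw [Set.one_le_encard_iff_nonempty] at h6
  exact h6

end spectrum

/-! ### translation -/

/-- translating `f` -/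
lemma trl_mem (x₀ c : ℝ) {f : ℝ → ℂ} (hf : f ∈ eigSpace q σ μ) :
    (fun x => f (x + x₀)) ∈ eigSpace (fun x => q (x + x₀) + c) σ (μ + c) := by
  refine ⟨hf.1.comp (by fun_prop), fun x => ?_, fun x => ?_⟩
  · have e1 : deriv (fun x => f (x + x₀)) = fun x => deriv f (x + x₀) := by
      ext x; exact deriv_comp_add_const f x₀ x
    rw [e1]
    have e2 : deriv (fun x => deriv f (x + x₀)) x = deriv (deriv f) (x + x₀) :=
      deriv_comp_add_const (deriv f) x₀ x
    rw [e2]
    have := hf.2.1 (x + x₀)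
    push_cast
    linear_combination this
  · have := hf.2.2 (x + x₀)
    show f (x + 1 + x₀) = σ * f (x + x₀)
    rw [show x + 1 + x₀ = x + x₀ + 1 by ring]
    exact this

/-- translation as a linear equivalence -/
noncomputable def trlEquiv (q : ℝ → ℝ) (σ : ℂ) (μ x₀ c : ℝ) :
    eigSpace q σ μ ≃ₗ[ℂ] eigSpace (fun x => q (x + x₀) + c) σ (μ + c) where
  toFun f := ⟨fun x => f.1 (x + x₀), trl_mem x₀ c f.2⟩
  map_add' _ _ := rfl
  map_smul' _ _ := rfl
  invFun f := ⟨fun x => f.1 (x - x₀), by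
    have h := trl_mem (-x₀) (-c) f.2
    have e1 : (fun x => (fun x => q (x + x₀) + c) (x + -x₀) + -c) = q := by
      ext x; simp
    have e2 : μ + c + -c = μ := by ring
    rw [e1, e2] at h
    simpa only [sub_eq_add_neg] using h⟩
  left_inv f := by
    apply Subtype.ext
    ext x
    show f.1 (x - x₀ + x₀) = f.1 x
    rw [sub_add_cancel]
  right_inv f := by
    apply Subtype.ext
    ext x
    show f.1 (x + x₀ - x₀) = f.1 x
    rw [add_sub_cancel_right]

lemma hill_shift {lam : ℕ → ℝ} (hlam : IsHillSpectrum q lam) (x₀ c : ℝ) :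
    IsHillSpectrum (fun x => q (x + x₀) + c) (fun n => lam n + c) where
  mono := fun i j hij => by
    have := hlam.mono hij
    simp only; linarith
  mult := fun μ => by
    have e1 : {n | (fun n => lam n + c) n = μ} = {n | lam n = μ - c} := by
      ext n
      simp only [Set.mem_ofPred_eq]
      constructor
      · intro h; linarith
      · intro h; linarith
    rw [e1, hlam.mult, (trlEquiv q 1 (μ - c) x₀ c).finrank_eq,
      (trlEquiv q (-1) (μ - c) x₀ c).finrank_eq, sub_add_cancel]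

end Run7.h374
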