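import Pool.Agent.Run7.h374.Mono
import Pool.Agent.Run7.h374.Asym

/-! Zeros of `y₂(1, ·)` and `y₁'(1, ·)` in the lacunae. -/

set_option autoImplicit false

namespace Run7.h374

open Filter Topology Metric MeasureTheory
open scoped Interval ComplexConjugate

variable {q : ℝ → ℝ} {K : ℝ}

lemma norm_Sx_real {k : ℝ} (hk : 0 < k) (x : ℝ) : ‖Sx x k‖ ≤ 1 / k := by
  have h1 := Sx_mul (k : ℂ) x
  have h2 : k * ‖Sx x k‖ ≤ 1 := by
    have h3 : ‖(k : ℂ) * Sx x k‖ = k * ‖Sx x k‖ := by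
      rw [norm_mul, Complex.norm_real, Real.norm_of_nonneg hk.le]
    rw [← h3, h1, ← Complex.ofReal_mul, ← Complex.ofReal_sin, Complex.norm_real]
    exact Real.abs_sin_le_one _
  rw [le_div_iff₀ hk]
  linarith

lemma norm_Cx_real (k x : ℝ) : ‖Cx x k‖ ≤ 1 := by
  unfold Cx
  rw [← Complex.ofReal_mul, ← Complex.ofReal_cos, Complex.norm_real]
  exact Real.abs_cos_le_one _

lemma int_real_bound (hK : ∀ x, |q x| ≤ K) {W Y : ℝ → ℂ} {A B x : ℝ} (hx : x ∈ Set.Icc (0:ℝ) 1)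
    (hA : 0 ≤ A) (hB : 0 ≤ B)
    (hW : ∀ t, ‖W t‖ ≤ A) (hY : ∀ t ∈ Set.Icc (0:ℝ) 1, ‖Y t‖ ≤ B) :
    ‖∫ t in (0:ℝ)..x, W t * ((q t : ℂ) * Y t)‖ ≤ A * (K * B) := by
  have hK0 : 0 ≤ K := (abs_nonneg _).trans (hK 0)
  have h1 : ∀ t ∈ Ι (0:ℝ) x, ‖W t * ((q t : ℂ) * Y t)‖ ≤ A * (K * B) := by
    intro t ht
    rw [Set.uIoc_of_le hx.1] at ht
    rw [norm_mul, norm_mul, Complex.norm_real, Real.norm_eq_abs]
    have h2 := hW t
    have h3 := hK t
    have h4 := hY t ⟨ht.1.le, ht.2.trans hx.2⟩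
    gcongr
  refine (intervalIntegral.norm_integral_le_of_norm_le_const h1).trans ?_
  rw [sub_zero, abs_of_nonneg hx.1]
  have : 0 ≤ A * (K * B) := by positivity
  nlinarith [hx.2]

lemma fy1_real_le (hK : ∀ x, |q x| ≤ K) (k : ℝ) {x : ℝ} (hx : x ∈ Set.Icc (0:ℝ) 1) :
    ‖fy1 q x k‖ ≤ Real.exp (1 + K) := by
  have hK0 : 0 ≤ K := (abs_nonneg _).trans (hK 0)
  refine (fy1_bound hK x k).trans ?_
  apply Real.exp_le_exp.2
  rw [Complex.ofReal_im, abs_zero, zero_add, abs_of_nonneg hx.1]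
  nlinarith [hx.2]

lemma fy2_real_le (hK : ∀ x, |q x| ≤ K) (k : ℝ) {x : ℝ} (hx : x ∈ Set.Icc (0:ℝ) 1) :
    ‖fy2 q x k‖ ≤ Real.exp (1 + K) := by
  have hK0 : 0 ≤ K := (abs_nonneg _).trans (hK 0)
  refine (fy2_bound hK x k).trans ?_
  apply Real.exp_le_exp.2
  rw [Complex.ofReal_im, abs_zero, zero_add, abs_of_nonneg hx.1]
  nlinarith [hx.2]

/-- asymptotics on the real axis -/
lemma real_asym (hq : Continuous q) (hK : ∀ x, |q x| ≤ K) :
    ∃ C : ℝ, 0 ≤ C ∧ ∀ k : ℝ, 0 < k →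
      ‖(k : ℂ) * fy2 q 1 k - Complex.sin k‖ ≤ C / k ∧
      ‖fz1 q 1 k + k * Complex.sin k‖ ≤ C ∧
      ‖fy1 q 1 k - Complex.cos k‖ ≤ C / k ∧
      ‖fz2 q 1 k - Complex.cos k‖ ≤ C / k := by
  have hK0 : 0 ≤ K := (abs_nonneg _).trans (hK 0)
  set E := Real.exp (1 + K) with hE
  have hE0 : 0 < E := Real.exp_pos _
  set C1 := 1 + K * E with hC1
  have hC10 : 0 ≤ C1 := by positivity
  have h01 : (1:ℝ) ∈ Set.Icc (0:ℝ) 1 := ⟨zero_le_one, le_rfl⟩
  refine ⟨K * E + K * C1, by positivity, fun k hk => ?_⟩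
  have hKE : 0 ≤ K * E := by positivity
  have hKC : 0 ≤ K * C1 := by positivity
  have b2 : ∀ x ∈ Set.Icc (0:ℝ) 1, ‖fy2 q x k‖ ≤ C1 / k := by
    intro x hx
    have e := Vsol_int hq Sx_cont hK norm_Sx_le' x (k : ℂ)
    have h1 := int_real_bound hK (W := fun t => Sx (x - t) k) (Y := fun t => fy2 q t k) hx
      (one_div_pos.2 hk).le hE0.le (fun t => norm_Sx_real hk _) (fun t ht => fy2_real_le hK k ht)
    show ‖Vsol q Sx x k‖ ≤ _
    rw [e]
    refine (norm_add_le _ _).trans ?_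
    have h2 := norm_Sx_real hk x
    have h3 : 1 / k + 1 / k * (K * E) = C1 / k := by rw [hC1]; ring
    rw [← h3]
    exact add_le_add h2 h1
  have eS : (k : ℂ) * Sx 1 k = Complex.sin k := by rw [Sx_mul]; simp
  have eC : Cx 1 (k : ℂ) = Complex.cos k := by unfold Cx; simp
  refine ⟨?_, ?_, ?_, ?_⟩
  · have e := Vsol_int hq Sx_cont hK norm_Sx_le' 1 (k : ℂ)
    have h1 := int_real_bound hK (W := fun t => Sx (1 - t) k) (Y := fun t => fy2 q t k) h01
      (one_div_pos.2 hk).le (by positivity : 0 ≤ C1 / k) (fun t => norm_Sx_real hk _) b2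
    have e2 : (k : ℂ) * fy2 q 1 k - Complex.sin k =
        k * ∫ t in (0:ℝ)..1, Sx (1 - t) k * ((q t : ℂ) * fy2 q t k) := by
      rw [← eS, ← mul_sub]
      congr 1
      show Vsol q Sx 1 k - Sx 1 k = _
      rw [e, add_sub_cancel_left]; rfl
    rw [e2, norm_mul, Complex.norm_real, Real.norm_of_nonneg hk.le]
    calc k * ‖∫ t in (0:ℝ)..1, Sx (1 - t) k * ((q t : ℂ) * fy2 q t k)‖
        ≤ k * (1 / k * (K * (C1 / k))) := by gcongr
      _ = K * C1 / k := by field_simp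
      _ ≤ (K * E + K * C1) / k := by gcongr; linarith
  · have h1 := fz1_one_bound hq hK (k : ℂ)
    rw [Complex.ofReal_im, abs_zero, Real.exp_zero, mul_one] at h1
    have e3 : (k : ℂ) ^ 2 * Sx 1 k = k * Complex.sin k := by rw [← eS]; ring
    rw [e3] at h1
    linarith
  · have e := Vsol_int hq Cx_cont hK norm_Cx_le' 1 (k : ℂ)
    have h1 := int_real_bound hK (W := fun t => Sx (1 - t) k) (Y := fun t => fy1 q t k) h01
      (one_div_pos.2 hk).le hE0.le (fun t => norm_Sx_real hk _) (fun t ht => fy1_real_le hK k ht)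
    have e2 : fy1 q 1 k - Complex.cos k =
        ∫ t in (0:ℝ)..1, Sx (1 - t) k * ((q t : ℂ) * fy1 q t k) := by
      rw [← eC]
      show Vsol q Cx 1 k - Cx 1 k = _
      rw [e, add_sub_cancel_left]; rfl
    rw [e2]
    refine h1.trans ?_
    rw [one_div_mul_eq_div]
    gcongr
    linarith
  · have h1 := int_real_bound hK (W := fun t => Cx (1 - t) k) (Y := fun t => fy2 q t k) h01
      zero_le_one (by positivity : 0 ≤ C1 / k) (fun t => norm_Cx_real _ _) b2
    have e2 : fz2 q 1 k - Complex.cos k =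
        ∫ t in (0:ℝ)..1, Cx (1 - t) k * ((q t : ℂ) * fy2 q t k) := by
      rw [← eC]
      unfold fz2
      rw [Vsold_int hq Sx_cont hK norm_Sx_le', add_sub_cancel_left]; rfl
    rw [e2]
    refine h1.trans ?_
    rw [one_mul, mul_div_assoc']
    gcongr
    linarith

/-- an entire function of linear growth times `e^{|Im|}` is Lipschitz near the real axis -/
lemma lip_real {G : ℂ → ℂ} (hG : Differentiable ℂ G) {A : ℝ} (hA : 0 ≤ A)
    (hb : ∀ k, ‖G k‖ ≤ A * (1 + ‖k‖) * Real.exp |k.im|) {x y : ℝ} (hx : 0 ≤ x) (hxy : x ≤ y) :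
    ‖G y - G x‖ ≤ A * (2 + y) * Real.exp 1 * (y - x) := by
  set s : Set ℂ := {z | ∃ r : ℝ, r ∈ Set.Icc x y ∧ z = r} with hs
  have hconv : Convex ℝ s := by
    rintro z ⟨r, hr, rfl⟩ w ⟨r', hr', rfl⟩ a b ha hb hab
    refine ⟨a * r + b * r', ?_, ?_⟩
    · have := (convex_Icc x y) hr hr' ha hb hab
      simpa using this
    · simp
  have hbd : ∀ z ∈ s, ‖deriv G z‖ ≤ A * (2 + y) * Real.exp 1 := by
    rintro z ⟨r, hr, rfl⟩
    have h1 := Complex.norm_deriv_le_of_forall_mem_sphere_norm_le (c := (r : ℂ)) (R := 1)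
      (C := A * (2 + y) * Real.exp 1) one_pos hG.diffContOnCl (by
        intro w hw
        refine (hb w).trans ?_
        have h2 : ‖w - r‖ = 1 := by
          have : dist w (r : ℂ) = 1 := hw
          rwa [dist_eq_norm] at this
        have h3 : ‖w‖ ≤ 1 + y := by
          calc ‖w‖ = ‖(w - r) + r‖ := by rw [sub_add_cancel]
            _ ≤ ‖w - r‖ + ‖(r : ℂ)‖ := norm_add_le _ _
            _ ≤ 1 + y := by
              rw [h2, Complex.norm_real, Real.norm_of_nonneg (hx.trans hr.1)]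
              linarith [hr.2]
        have h4 : |w.im| ≤ 1 := by
          have h5 := Complex.abs_im_le_norm (w - r)
          rw [h2] at h5
          simpa using h5
        have h6 : Real.exp |w.im| ≤ Real.exp 1 := Real.exp_le_exp.2 h4
        have h7 : 1 + ‖w‖ ≤ 2 + y := by linarith
        have h8 : 0 ≤ A * (2 + y) := mul_nonneg hA (by linarith)
        gcongr)
    simpa using h1
  have h := hconv.norm_image_sub_le_of_norm_deriv_le (f := G) (fun z _ => hG z) hbd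
    (show (x : ℂ) ∈ s from ⟨x, ⟨le_rfl, hxy⟩, rfl⟩) (show (y : ℂ) ∈ s from ⟨y, ⟨hxy, le_rfl⟩, rfl⟩)
  have e : ‖(y : ℂ) - x‖ = y - x := by
    rw [← Complex.ofReal_sub, Complex.norm_real, Real.norm_of_nonneg (by linarith)]
  rwa [e] at h

/-- real-valued functions: intermediate value theorem for a sign change up to a common sign -/
lemma exists_zero_sign {f : ℝ → ℝ} (hf : Continuous f) {a b e : ℝ} (hab : a ≤ b) (he : e ≠ 0)
    (ha : e * f a ≤ 0) (hb : 0 ≤ e * f b) : ∃ z ∈ Set.Icc a b, f z = 0 := by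
  have h1 : Continuous fun x => e * f x := continuous_const.mul hf
  obtain ⟨z, hz, hz'⟩ := intermediate_value_Icc hab h1.continuousOn ⟨ha, hb⟩
  exact ⟨z, hz, (mul_eq_zero.1 hz').resolve_left he⟩

lemma real_of_conj {z : ℂ} (h : conj z = z) : ((z.re : ℝ) : ℂ) = z := Complex.conj_eq_iff_re.1 h

section

variable {lam : ℕ → ℝ}

/-- localisation: a point of `(π(n-1/2), π(n+1/2))` with `Δ² ≥ 4` lies in the `n`-th lacuna -/
lemma mem_gap (hq : Continuous q) (hper : ∀ x, q (x + 1) = q x) (hK : ∀ x, |q x| ≤ K)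
    (hlam : IsHillSpectrum q lam) {M : ℝ} (hM0 : 0 ≤ M)
    (hM : ∀ n, |lam n - lam0 n| ≤ M) {C : ℝ}
    (hC : ∀ k : ℝ, 0 < k → ‖fy1 q 1 k - Complex.cos k‖ ≤ C / k ∧
      ‖fz2 q 1 k - Complex.cos k‖ ≤ C / k) {n : ℕ} (hn : 1 ≤ n) (hn1 : M < n) (hn2 : 2 * C < n)
    {z : ℝ} (hz : z ∈ Set.Icc (Real.pi * (n - 1 / 2)) (Real.pi * (n + 1 / 2)))
    (hΔ : 4 ≤ (fy1 q 1 z + fz2 q 1 z).re ^ 2) :
    z ∈ Set.Icc (Real.sqrt (lam (2 * n - 1))) (Real.sqrt (lam (2 * n))) := by
  have hπ := Real.pi_gt_three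
  have hn' : (1:ℝ) ≤ n := by exact_mod_cast hn
  have ha0 : 0 < Real.pi * (n - 1 / 2) := by nlinarith
  have hreal : ∀ k : ℝ, (((fy1 q 1 k + fz2 q 1 k).re : ℝ) : ℂ) = fy1 q 1 k + fz2 q 1 k := by
    intro k
    apply real_of_conj
    have h := fund_conj hq hK (k := (k : ℂ)) (by simp) 1
    rw [map_add, h.1, h.2.2.2]
  set H : ℝ → ℝ := fun k => (fy1 q 1 k + fz2 q 1 k).re ^ 2 - 4 with hH
  have hHc : Continuous H := by
    have h3 := (fy1_diff hq hK 1).continuous
    have h4 := (fz2_diff hq hK 1).continuous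
    have h5 : Continuous fun k : ℝ => (k : ℂ) := Complex.continuous_ofReal
    have h6 := (Complex.continuous_re.comp ((h3.add h4).comp h5))
    exact (h6.pow 2).sub continuous_const
  -- negative at the end points
  have hneg : ∀ k : ℝ, (n:ℝ) ≤ k → Real.cos k = 0 → H k < 0 := by
    intro k hk hcos
    have hk0 : 0 < k := by linarith
    obtain ⟨h3, h4⟩ := hC k hk0
    have e1 : Complex.cos (k : ℂ) = 0 := by rw [← Complex.ofReal_cos, hcos]; simp
    rw [e1, sub_zero] at h3 h4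
    have h5 : |(fy1 q 1 k + fz2 q 1 k).re| ≤ 2 * C / k := by
      refine (Complex.abs_re_le_norm _).trans ((norm_add_le _ _).trans ?_)
      have : 2 * C / k = C / k + C / k := by ring
      linarith
    have h6 : 2 * C / k < 1 := by
      rw [div_lt_one hk0]; linarith
    have h7 : (fy1 q 1 k + fz2 q 1 k).re ^ 2 < 4 := by
      rw [← sq_abs]
      nlinarith [abs_nonneg (fy1 q 1 k + fz2 q 1 k).re]
    show (fy1 q 1 k + fz2 q 1 k).re ^ 2 - 4 < 0
    linarith
  have hna : H (Real.pi * (n - 1 / 2)) < 0 := by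
    apply hneg
    · nlinarith
    · rw [Real.cos_eq_zero_iff]
      exact ⟨(n : ℤ) - 1, by push_cast; ring⟩
  have hnb : H (Real.pi * (n + 1 / 2)) < 0 := by
    apply hneg
    · nlinarith
    · rw [Real.cos_eq_zero_iff]
      exact ⟨(n : ℤ), by push_cast; ring⟩
  have hHz : 0 ≤ H z := by show 0 ≤ (fy1 q 1 z + fz2 q 1 z).re ^ 2 - 4; linarith
  -- zeros of `H` give eigenvalues
  have hzero : ∀ w : ℝ, H w = 0 → ∃ j, lam j = w ^ 2 := by
    intro w hw
    apply mem_range_of_disc hq hper hK hlam (k := (w : ℂ)) (by push_cast; ring)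
    have h3 : (fy1 q 1 w + fz2 q 1 w).re ^ 2 = 4 := by
      have : (fy1 q 1 w + fz2 q 1 w).re ^ 2 - 4 = 0 := hw
      linarith
    rw [← hreal, ← Complex.ofReal_pow, h3]
    norm_num
  constructor
  · by_contra hcon
    push Not at hcon
    have hz0 : 0 ≤ z := ha0.le.trans hz.1
    obtain ⟨w, hw, hw0⟩ := exists_zero_sign hHc hz.1 (one_ne_zero) (by linarith) (by linarith)
    obtain ⟨j, hj⟩ := hzero w hw0
    have hw1 : w ^ 2 < lam (2 * n - 1) := by
      have h4 : w < Real.sqrt (lam (2 * n - 1)) := lt_of_le_of_lt hw.2 hcon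
      have h5 := (Real.lt_sqrt (ha0.le.trans hw.1)).1 h4
      exact h5
    have hj1 : j < 2 * n - 1 := by
      by_contra h
      push Not at h
      have := hlam.mono h
      linarith
    have hj2 := hlam.mono (show j ≤ 2 * (n - 1) by omega)
    have h6 := (abs_le.1 (hM (2 * (n - 1)))).2
    rw [lam0_even] at h6
    have h7 : ((n - 1 : ℕ) : ℝ) = (n:ℝ) - 1 := by push_cast [Nat.cast_sub hn]; ring
    rw [h7] at h6
    have hw2 : (Real.pi * (n - 1 / 2)) ^ 2 ≤ w ^ 2 := by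
      apply pow_le_pow_left₀ ha0.le hw.1
    have h8 : Real.pi ^ 2 * (n:ℝ) - Real.pi ^ 2 * (3/4) ≤ M := by nlinarith
    nlinarith
  · by_contra hcon
    push Not at hcon
    obtain ⟨w, hw, hw0⟩ := exists_zero_sign hHc hz.2 (neg_ne_zero.2 one_ne_zero)
      (by linarith) (by linarith)
    obtain ⟨j, hj⟩ := hzero w hw0
    have hz0 : 0 ≤ z := ha0.le.trans hz.1
    have hw1 : lam (2 * n) < w ^ 2 := by
      have h4 : Real.sqrt (lam (2 * n)) < w := lt_of_lt_of_le hcon hw.1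
      exact (Real.sqrt_lt' (lt_of_le_of_lt (Real.sqrt_nonneg _) h4)).1 h4
    have hj1 : 2 * n < j := by
      by_contra h
      push Not at h
      have := hlam.mono h
      linarith
    have hj2 := hlam.mono (show 2 * (n + 1) - 1 ≤ j by omega)
    have h6 := (abs_le.1 (hM (2 * (n + 1) - 1))).1
    rw [lam0_odd (n + 1) (by omega)] at h6
    push_cast at h6
    have hw2 : w ^ 2 ≤ (Real.pi * (n + 1 / 2)) ^ 2 := by
      apply pow_le_pow_left₀ (hz0.trans hw.1) hw.2
    have h8 : Real.pi ^ 2 * (n:ℝ) + Real.pi ^ 2 * (3/4) ≤ M := by nlinarith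
    nlinarith

lemma disc_ge (hq : Continuous q) (hK : ∀ x, |q x| ≤ K) (z : ℝ)
    (h : fy2 q 1 z = 0 ∨ fz1 q 1 z = 0) : 4 ≤ (fy1 q 1 z + fz2 q 1 z).re ^ 2 := by
  have hc := fund_conj hq hK (k := (z : ℂ)) (by simp) 1
  have e1 := real_of_conj hc.1
  have e2 := real_of_conj hc.2.2.2
  have hw := wronsk_one hq hK (z : ℂ) 1
  have h0 : fz1 q 1 z * fy2 q 1 z = 0 := by
    rcases h with h | h <;> simp [h]
  rw [h0, sub_zero, ← e1, ← e2, ← Complex.ofReal_mul] at hw
  have hw' : (fy1 q 1 z).re * (fz2 q 1 z).re = 1 := by exact_mod_cast hw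
  rw [Complex.add_re]
  nlinarith [sq_nonneg ((fy1 q 1 z).re - (fz2 q 1 z).re)]

lemma exists_zeros (hq : Continuous q) (hK : ∀ x, |q x| ≤ K) {C : ℝ} (hC0 : 0 ≤ C)
    (hC : ∀ k : ℝ, 0 < k →
      ‖(k : ℂ) * fy2 q 1 k - Complex.sin k‖ ≤ C / k ∧
      ‖fz1 q 1 k + k * Complex.sin k‖ ≤ C) {n : ℕ} (hn : 1 ≤ n) (hn2 : C < n) :
    (∃ z ∈ Set.Icc (Real.pi * (n - 1 / 2)) (Real.pi * (n + 1 / 2)), fy2 q 1 z = 0) ∧
    (∃ z ∈ Set.Icc (Real.pi * (n - 1 / 2)) (Real.pi * (n + 1 / 2)), fz1 q 1 z = 0) := by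
  have hπ := Real.pi_gt_three
  have hn' : (1:ℝ) ≤ n := by exact_mod_cast hn
  have ha0 : (n:ℝ) ≤ Real.pi * (n - 1 / 2) := by nlinarith
  have hb0 : (n:ℝ) ≤ Real.pi * (n + 1 / 2) := by nlinarith
  have hab : Real.pi * (n - 1 / 2) ≤ Real.pi * ((n:ℝ) + 1 / 2) := by nlinarith
  set e : ℝ := (-1) ^ n with he
  have he2 : e * e = 1 := by rw [he, ← pow_add, ← two_mul, pow_mul]; norm_num
  have he0 : e ≠ 0 := by intro h; rw [h] at he2; norm_num at he2
  have hsa : Real.sin (Real.pi * (n - 1 / 2)) = -e := by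
    rw [show Real.pi * ((n:ℝ) - 1 / 2) = n * Real.pi - Real.pi / 2 by ring, Real.sin_sub_pi_div_two,
      Real.cos_nat_mul_pi]
  have hsb : Real.sin (Real.pi * (n + 1 / 2)) = e := by
    rw [show Real.pi * ((n:ℝ) + 1 / 2) = n * Real.pi + Real.pi / 2 by ring, Real.sin_add_pi_div_two,
      Real.cos_nat_mul_pi]
  have habs : |e| = 1 := by
    rw [he, abs_pow, abs_neg, abs_one, one_pow]
  have hcr : Continuous fun k : ℝ => (k : ℂ) := Complex.continuous_ofReal
  constructor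
  · set f : ℝ → ℝ := fun k => k * (fy2 q 1 k).re with hf
    have hfc : Continuous f :=
      continuous_id.mul (Complex.continuous_re.comp ((fy2_diff hq hK 1).continuous.comp hcr))
    have hfk : ∀ k : ℝ, 0 < k → |f k - Real.sin k| ≤ C / k := by
      intro k hk
      have h1 := (Complex.abs_re_le_norm _).trans (hC k hk).1
      rw [Complex.sub_re, Complex.re_ofReal_mul, ← Complex.ofReal_sin, Complex.ofReal_re] at h1
      exact h1
    have hlt : ∀ k : ℝ, (n:ℝ) ≤ k → |f k - Real.sin k| < 1 := by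
      intro k hk
      have hk0 : 0 < k := by linarith
      refine lt_of_le_of_lt (hfk k hk0) ?_
      rw [div_lt_one hk0]; linarith
    obtain ⟨z, hz, hz0⟩ := exists_zero_sign hfc hab he0 (by
      have h1 := hlt _ ha0
      rw [hsa] at h1
      have h2 : |e * (f (Real.pi * (n - 1 / 2)) - -e)| < 1 := by rw [abs_mul, habs, one_mul]; exact h1
      have h3 := (abs_lt.1 h2).2
      nlinarith) (by
      have h1 := hlt _ hb0
      rw [hsb] at h1
      have h2 : |e * (f (Real.pi * (n + 1 / 2)) - e)| < 1 := by rw [abs_mul, habs, one_mul]; exact h1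
      have h3 := (abs_lt.1 h2).1
      nlinarith)
    refine ⟨z, hz, ?_⟩
    have hz1 : z ≠ 0 := by
      have := hz.1
      intro h
      rw [h] at this
      linarith
    have h4 : (fy2 q 1 z).re = 0 := (mul_eq_zero.1 hz0).resolve_left hz1
    rw [← real_of_conj (fund_conj hq hK (k := (z : ℂ)) (by simp) 1).2.2.1, h4]
    simp
  · set f : ℝ → ℝ := fun k => -(fz1 q 1 k).re with hf
    have hfc : Continuous f :=
      (Complex.continuous_re.comp ((fz1_diff hq hK 1).continuous.comp hcr)).neg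
    have hfk : ∀ k : ℝ, 0 < k → |f k - k * Real.sin k| ≤ C := by
      intro k hk
      have h1 := (Complex.abs_re_le_norm _).trans (hC k hk).2
      rw [Complex.add_re, Complex.re_ofReal_mul, ← Complex.ofReal_sin, Complex.ofReal_re] at h1
      rw [← abs_neg]
      have e1 : -(f k - k * Real.sin k) = (fz1 q 1 k).re + k * Real.sin k := by
        simp only [hf]; ring
      rw [e1]
      exact h1
    obtain ⟨z, hz, hz0⟩ := exists_zero_sign hfc hab he0 (by
      have h1 := hfk _ (by linarith : 0 < Real.pi * ((n:ℝ) - 1 / 2))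
      rw [hsa] at h1
      have h2 : |e * (f (Real.pi * (n - 1 / 2)) - Real.pi * (n - 1 / 2) * -e)| ≤ C := by
        rw [abs_mul, habs, one_mul]; exact h1
      have h3 := (abs_le.1 h2).2
      nlinarith) (by
      have h1 := hfk _ (by linarith : 0 < Real.pi * ((n:ℝ) + 1 / 2))
      rw [hsb] at h1
      have h2 : |e * (f (Real.pi * (n + 1 / 2)) - Real.pi * (n + 1 / 2) * e)| ≤ C := by
        rw [abs_mul, habs, one_mul]; exact h1
      have h3 := (abs_le.1 h2).1
      nlinarith)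
    refine ⟨z, hz, ?_⟩
    have h4 : (fz1 q 1 z).re = 0 := by
      have : -(fz1 q 1 z).re = 0 := hz0
      linarith
    rw [← real_of_conj (fund_conj hq hK (k := (z : ℂ)) (by simp) 1).2.1, h4]
    simp

/-- the entries of the monodromy matrix at `λ_{2n}` are controlled by the length of the lacuna -/
theorem fund_gap (hq : Continuous q) (hper : ∀ x, q (x + 1) = q x) (hK : ∀ x, |q x| ≤ K)
    (hlam : IsHillSpectrum q lam) (h1 : ∀ n, 1 ≤ lam n) :
    ∃ C : ℝ, 0 ≤ C ∧ ∃ N : ℕ, ∀ n : ℕ, N ≤ n →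
      ‖fy2 q 1 (Real.sqrt (lam (2 * n)))‖ ≤ C * gap lam n ∧
      ‖fz1 q 1 (Real.sqrt (lam (2 * n)))‖ ≤ C * (1 + Real.sqrt (lam (2 * n))) * gap lam n ∧
      ‖fz2 q 1 (Real.sqrt (lam (2 * n))) - fy1 q 1 (Real.sqrt (lam (2 * n)))‖ ≤
        C * (1 + Real.sqrt (lam (2 * n))) * gap lam n := by
  have hK0 : 0 ≤ K := (abs_nonneg _).trans (hK 0)
  obtain ⟨C, hC0, hC⟩ := real_asym hq hK
  set M := ‖qC q hq hper‖ with hM
  have hMb := fun n => abs_lam_sub hq hper hlam n
  obtain ⟨N, hN⟩ := exists_nat_gt (max M (2 * C))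
  set A := Real.exp (1 + K) + 1 + K * Real.exp (1 + K) with hA
  have hA0 : 0 ≤ A := by positivity
  have hKE : 0 ≤ K * Real.exp (1 + K) := by positivity
  have hE0 := Real.exp_pos (1 + K)
  set B := A * Real.exp 1 with hB
  have hB0 : 0 ≤ B := by positivity
  have hL2 : ∀ k : ℂ, ‖fy2 q 1 k‖ ≤ Real.exp (1 + K) * Real.exp |k.im| := fun k => fy2_one_bound hK k
  have hL1 : ∀ k : ℂ, ‖fz1 q 1 k‖ ≤ A * (1 + ‖k‖) * Real.exp |k.im| := by
    intro k
    have h2 := fz1_one_bound hq hK k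
    have h3 : ‖k ^ 2 * Sx 1 k‖ ≤ ‖k‖ * Real.exp |k.im| := by
      have e : k ^ 2 * Sx 1 k = k * Complex.sin k := by
        have := Sx_mul k 1
        rw [Complex.ofReal_one, mul_one] at this
        rw [← this]; ring
      rw [e, norm_mul]
      have h4 : ‖Complex.sin k‖ ≤ Real.exp |k.im| := by
        have h5 := norm_cos_le (k - Real.pi / 2)
        rw [Complex.cos_sub_pi_div_two] at h5
        have e6 : (k - (Real.pi : ℂ) / 2).im = k.im := by
          rw [Complex.sub_im]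
          have : ((Real.pi : ℂ) / 2).im = 0 := by
            rw [show ((Real.pi : ℂ) / 2) = ((Real.pi / 2 : ℝ) : ℂ) by push_cast; rfl]
            exact Complex.ofReal_im _
          rw [this, sub_zero]
        rwa [e6] at h5
      gcongr
    have h4 : ‖fz1 q 1 k‖ ≤ ‖fz1 q 1 k + k ^ 2 * Sx 1 k‖ + ‖k ^ 2 * Sx 1 k‖ := by
      have := norm_sub_le (fz1 q 1 k + k ^ 2 * Sx 1 k) (k ^ 2 * Sx 1 k)
      rwa [add_sub_cancel_right] at this
    have h5 := Real.exp_pos |k.im|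
    have h6 := norm_nonneg k
    have h7 : (‖k‖ + K * Real.exp (1 + K)) ≤ A * (1 + ‖k‖) := by
      rw [hA]; nlinarith
    calc ‖fz1 q 1 k‖ ≤ (‖k‖ + K * Real.exp (1 + K)) * Real.exp |k.im| := by linarith
      _ ≤ _ := by gcongr
  have hLip2 : ∀ x y : ℝ, 0 ≤ x → x ≤ y → ‖fy2 q 1 y - fy2 q 1 x‖ ≤ B * (y - x) := by
    intro x y hx hxy
    set s : Set ℂ := {z | ∃ r : ℝ, r ∈ Set.Icc x y ∧ z = r} with hs
    have hconv : Convex ℝ s := by
      rintro z ⟨r, hr, rfl⟩ w ⟨r', hr', rfl⟩ a b ha hb hab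
      refine ⟨a * r + b * r', ?_, ?_⟩
      · have := (convex_Icc x y) hr hr' ha hb hab
        simpa using this
      · simp
    have hbd : ∀ z ∈ s, ‖deriv (fun k => fy2 q 1 k) z‖ ≤ B := by
      rintro z ⟨r, hr, rfl⟩
      have h1 := Complex.norm_deriv_le_of_forall_mem_sphere_norm_le (c := (r : ℂ)) (R := 1)
        (f := fun k => fy2 q 1 k)
        (C := B) one_pos (fy2_diff hq hK 1).diffContOnCl (by
          intro w hw
          refine (hL2 w).trans ?_
          have h2 : ‖w - r‖ = 1 := by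
            have : dist w (r : ℂ) = 1 := hw
            rwa [dist_eq_norm] at this
          have h4 : |w.im| ≤ 1 := by
            have h5 := Complex.abs_im_le_norm (w - r)
            rw [h2] at h5
            simpa using h5
          have h6 : Real.exp |w.im| ≤ Real.exp 1 := Real.exp_le_exp.2 h4
          have h7 : Real.exp (1 + K) ≤ A := by rw [hA]; linarith
          rw [hB]
          gcongr)
      simpa using h1
    have h := hconv.norm_image_sub_le_of_norm_deriv_le (f := fun k => fy2 q 1 k)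
      (fun z _ => fy2_diff hq hK 1 z) hbd
      (show (x : ℂ) ∈ s from ⟨x, ⟨le_rfl, hxy⟩, rfl⟩) (show (y : ℂ) ∈ s from ⟨y, ⟨hxy, le_rfl⟩, rfl⟩)
    have e : ‖(y : ℂ) - x‖ = y - x := by
      rw [← Complex.ofReal_sub, Complex.norm_real, Real.norm_of_nonneg (by linarith)]
    rwa [e] at h
  refine ⟨2 * (2 * B), by positivity, N + 1, fun n hn => ?_⟩
  have hn1 : 1 ≤ n := by omega
  have hNn : (N:ℝ) ≤ n := by exact_mod_cast (by omega : N ≤ n)
  have hnM : M < n := lt_of_le_of_lt (le_max_left _ _) (lt_of_lt_of_le hN hNn)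
  have hnC : 2 * C < n := lt_of_le_of_lt (le_max_right _ _) (lt_of_lt_of_le hN hNn)
  have hpos : ∀ m, 0 < lam m := fun m => lt_of_lt_of_le one_pos (h1 m)
  obtain ⟨⟨z, hz, hz0⟩, ⟨z', hz', hz0'⟩⟩ := exists_zeros hq hK hC0
    (fun k hk => ⟨(hC k hk).1, (hC k hk).2.1⟩) hn1 (by linarith)
  have hg := mem_gap hq hper hK hlam (norm_nonneg _) hMb
    (fun k hk => ⟨(hC k hk).2.2.1, (hC k hk).2.2.2⟩) hn1 hnM hnC hz (disc_ge hq hK z (Or.inl hz0))
  have hg' := mem_gap hq hper hK hlam (norm_nonneg _) hMb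
    (fun k hk => ⟨(hC k hk).2.2.1, (hC k hk).2.2.2⟩) hn1 hnM hnC hz' (disc_ge hq hK z' (Or.inr hz0'))
  set b := Real.sqrt (lam (2 * n)) with hb
  set a := Real.sqrt (lam (2 * n - 1)) with ha
  have ha1 : 1 ≤ a := by rw [ha]; exact Real.one_le_sqrt.2 (h1 _)
  have hab : b - a ≤ gap lam n := by
    have e1 : b ^ 2 = lam (2 * n) := Real.sq_sqrt (hpos _).le
    have e2 : a ^ 2 = lam (2 * n - 1) := Real.sq_sqrt (hpos _).le
    have h3 : a ≤ b := hg.1.trans hg.2
    unfold gap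
    rw [← e1, ← e2]
    nlinarith
  have hgap0 : 0 ≤ gap lam n := by
    have h3 : a ≤ b := hg.1.trans hg.2
    linarith
  have hy2 : ‖fy2 q 1 b‖ ≤ B * gap lam n := by
    have h3 := hLip2 z b (by linarith [hg.1]) hg.2
    rw [hz0, sub_zero] at h3
    refine h3.trans ?_
    have : b - z ≤ gap lam n := by linarith [hg.1]
    gcongr
  have hz1 : ‖fz1 q 1 b‖ ≤ 2 * B * (1 + b) * gap lam n := by
    have h3 := lip_real (fz1_diff hq hK 1) hA0 hL1 (x := z') (y := b) (by linarith [hg'.1]) hg'.2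
    simp only [hz0', sub_zero] at h3
    refine h3.trans ?_
    have h4 : b - z' ≤ gap lam n := by linarith [hg'.1]
    have h5 : 0 ≤ b := Real.sqrt_nonneg _
    have h6 : 0 ≤ b - z' := by linarith [hg'.2]
    calc A * (2 + b) * Real.exp 1 * (b - z') = B * (2 + b) * (b - z') := by rw [hB]; ring
      _ ≤ B * (2 * (1 + b)) * gap lam n := by
        gcongr
        linarith
      _ = _ := by ring
  have hb0 : 0 ≤ b := Real.sqrt_nonneg _
  have hb1 : 0 ≤ B * gap lam n := by positivity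
  refine ⟨by linarith, ?_, ?_⟩
  · have : 0 ≤ 2 * B * (1 + b) * gap lam n := by positivity
    linarith
  · have hk : (b : ℂ) ^ 2 = (lam (2 * n) : ℂ) := by
      rw [← Complex.ofReal_pow, hb, Real.sq_sqrt (hpos _).le]
    have h4 := disc_at hq hK hlam (2 * n) hk
    have h5 := wronsk_one hq hK (b : ℂ) 1
    have h6 : (fz2 q 1 b - fy1 q 1 b) ^ 2 = -4 * (fz1 q 1 b * fy2 q 1 b) := by
      linear_combination h4 - 4 * h5
    have h7 : ‖fz2 q 1 b - fy1 q 1 b‖ ^ 2 ≤ (2 * (2 * B) * (1 + b) * gap lam n) ^ 2 := by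
      rw [← norm_pow, h6, norm_mul, norm_mul, norm_neg, Complex.norm_ofNat]
      have h8 : ‖fz1 q 1 b‖ * ‖fy2 q 1 b‖ ≤ (2 * B * (1 + b) * gap lam n) * (B * gap lam n) := by
        gcongr
      have h9 : (2 * B * (1 + b) * gap lam n) * (B * gap lam n) ≤
          (2 * B * (1 + b) * gap lam n) * (2 * B * (1 + b) * gap lam n) := by
        have : B * gap lam n ≤ 2 * B * (1 + b) * gap lam n := by nlinarith
        gcongr
      nlinarith
    exact (pow_le_pow_iff_left₀ (norm_nonneg _) (by positivity) two_ne_zero).1 h7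

end

end Run7.h374
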