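import Pool.Agent.Run7.h374.Flat2
import Pool.Agent.Run7.h374.Zero
import Pool.Agent.Run7.h374.Lower
import Pool.Agent.Run7.h374.Ann
import Pool.Agent.Run7.h374.Final

/-! Spanning forces functions which are small along the imaginary axis and at the lacunae to
vanish. -/

set_option autoImplicit false

namespace Run7.h374

open Filter Topology Metric MeasureTheory
open scoped Interval ComplexConjugate ContDiff Classical

variable {q : ℝ → ℝ} {lam : ℕ → ℝ}

lemma exists_pot_bound (hq : IsPot q) : ∃ K : ℝ, ∀ x, |q x| ≤ K := by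
  obtain ⟨C, hC⟩ := (isCompact_Icc (a := (0:ℝ)) (b := 1)).exists_bound_of_continuousOn
    hq.1.continuous.continuousOn
  have hp : Function.Periodic q 1 := hq.2
  refine ⟨C, fun x => ?_⟩
  obtain ⟨y, hy, hxy⟩ := hp.exists_mem_Ico₀ one_pos x
  rw [hxy]
  exact hC y ⟨hy.1, hy.2.le⟩

/-- the points `λ_{2(n+1)} + (1 - λ_0)` -/
noncomputable def tn (lam : ℕ → ℝ) (n : ℕ) : ℝ := lam (2 * (n + 1)) + (1 - lam 0)

lemma tn_ge (hlam : IsHillSpectrum q lam) (n : ℕ) : 1 ≤ tn lam n := by
  unfold tn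
  have := hlam.mono (Nat.zero_le (2 * (n + 1)))
  linarith

lemma tn_strictMono (hq : IsPot q) (hlam : IsHillSpectrum q lam) : StrictMono (tn lam) := by
  obtain ⟨K, hK⟩ := exists_pot_bound hq
  apply strictMono_nat_of_lt_succ
  intro n
  unfold tn
  have := no_triple hq.1.continuous hK hlam (2 * (n + 1))
  have e : 2 * (n + 1 + 1) = 2 * (n + 1) + 2 := by ring
  rw [e]
  linarith

lemma tn_dist (hq : IsPot q) (hlam : IsHillSpectrum q lam) :
    ∃ M : ℝ, 1 ≤ M ∧ ∀ n, |tn lam n - sq n| ≤ M := by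
  obtain ⟨M, hM0, hM⟩ := bounded_dist hq hlam
  refine ⟨1 + M + |1 - lam 0|, by linarith [abs_nonneg (1 - lam 0)], fun n => ?_⟩
  have h1 := hM (n + 1)
  have e : tn lam n - sq n = (lam (2 * (n + 1)) - Real.pi ^ 2 * ((n + 1 : ℕ) : ℝ) ^ 2) + (1 - lam 0) := by
    unfold tn sq
    push_cast; ring
  rw [e]
  refine (abs_add_le _ _).trans ?_
  linarith

lemma tn_le (hq : IsPot q) (hlam : IsHillSpectrum q lam) :
    ∃ L : ℝ, 1 ≤ L ∧ ∀ n : ℕ, tn lam n ≤ L * ((n:ℝ) + 1) ^ 2 := by
  obtain ⟨M, hM1, hM⟩ := tn_dist hq hlam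
  refine ⟨Real.pi ^ 2 + M, by have := sq_nonneg Real.pi; linarith, fun n => ?_⟩
  have h1 := (abs_le.1 (hM n)).2
  have h2 : sq n = Real.pi ^ 2 * ((n:ℝ) + 1) ^ 2 := rfl
  have h3 : (1:ℝ) ≤ ((n:ℝ) + 1) ^ 2 := one_le_pow₀ (by have := Nat.cast_nonneg (α := ℝ) n; linarith)
  nlinarith

lemma tn_summable (hq : IsPot q) (hlam : IsHillSpectrum q lam) :
    Summable fun n => (tn lam n)⁻¹ := by
  obtain ⟨M, hM1, hM⟩ := tn_dist hq hlam
  have h1 := summable_sq_inv'.mul_left (1 + M)
  refine Summable.of_nonneg_of_le (fun n => ?_) (fun n => ?_) h1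
  · have := tn_ge hlam n; positivity
  · have h2 := tn_ge hlam n
    have h3 := (abs_le.1 (hM n)).1
    have h4 := sq_pos n
    rw [inv_eq_one_div, ← div_eq_mul_inv, div_le_div_iff₀ (by linarith) h4]
    nlinarith

/-- summability of polynomially weighted lengths -/
lemma gap_poly_summable (hq : IsPot q) (hlam : IsHillSpectrum q lam) (i j : ℕ) :
    Summable fun n : ℕ => gap lam (n + 1) * ((n:ℝ) + 1) ^ i * tn lam n ^ j := by
  obtain ⟨L, hL1, hL⟩ := tn_le hq hlam
  obtain ⟨C, hC0, hC⟩ := rapid hq hlam (i + 2 * j + 2)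
  have h1 : Summable fun n : ℕ => (C * L ^ j) * (1 / ((n + 1 : ℕ) : ℝ) ^ 2) :=
    ((summable_nat_add_iff 1).2 (Real.summable_one_div_nat_pow.2 (by norm_num : 1 < 2))).mul_left _
  refine Summable.of_nonneg_of_le (fun n => ?_) (fun n => ?_) h1
  · have := tn_ge hlam n
    have := gap_nonneg hlam (n + 1)
    positivity
  · have h2 := tn_ge hlam n
    have h3 := gap_nonneg hlam (n + 1)
    have h4 := hC (n + 1) (by omega)
    have h5 := hL n
    have h6 : (0:ℝ) < (n:ℝ) + 1 := by positivity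
    push_cast at h4 ⊢
    calc gap lam (n + 1) * ((n:ℝ) + 1) ^ i * tn lam n ^ j
        ≤ gap lam (n + 1) * ((n:ℝ) + 1) ^ i * (L * ((n:ℝ) + 1) ^ 2) ^ j := by
          have : 0 ≤ tn lam n := by linarith
          gcongr
      _ = (gap lam (n + 1) * ((n:ℝ) + 1) ^ (i + 2 * j + 2)) * L ^ j * (1 / ((n:ℝ) + 1) ^ 2) := by
          rw [mul_pow, ← pow_mul, pow_add, pow_add]
          field_simp
      _ ≤ C * L ^ j * (1 / ((n:ℝ) + 1) ^ 2) := by gcongr

theorem vanish_of_spans (hq : IsPot q) (hlam : IsHillSpectrum q lam) (hspan : PSpans ℂ lam)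
    {R : ℂ → ℂ} (hR : Differentiable ℂ R) (heven : ∀ k, R (-k) = R k)
    (hreal : ∀ x : ℝ, conj (R x) = R x)
    {C : ℝ} {p : ℕ} (hC : 0 ≤ C) (hgrow : ∀ k, ‖R k‖ ≤ C * (1 + ‖k‖) ^ p * Real.exp |k.im|)
    (hdec : ∀ N : ℕ, ∃ C2 : ℝ, ∀ y : ℝ, 1 ≤ y → ‖R (y * Complex.I)‖ * y ^ N ≤ C2 * Real.exp y)
    (hclosed : ∀ n : ℕ, gap lam (n + 1) = 0 → R (Real.sqrt (tn lam n)) = 0)
    {C' : ℝ} (hC' : 0 ≤ C') {N : ℕ}
    (hgap : ∀ n : ℕ, N ≤ n → ‖R (Real.sqrt (tn lam n))‖ ≤ C' * tn lam n ^ 2 * gap lam (n + 1)) :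
    ∀ k, R k = 0 := by
  have ht : ∀ n, 0 < tn lam n := fun n => lt_of_lt_of_le one_pos (tn_ge hlam n)
  have hmono := tn_strictMono hq hlam
  have hs := tn_summable hq hlam
  obtain ⟨M, hM1, hM⟩ := tn_dist hq hlam
  obtain ⟨c, hc, hlow⟩ := prodExc_lower ht hmono hM hs
  have hpe : ∀ n, prodExc (tn lam) n (tn lam n : ℂ) ≠ 0 := fun n h => by
    have := hlow n
    rw [h, norm_zero] at this
    linarith
  have htC : ∀ n, (tn lam n : ℂ) ≠ 0 := fun n => by exact_mod_cast (ht n).ne'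
  set a : ℕ → ℂ := fun n => R (Real.sqrt (tn lam n)) /
    (-(1 / (tn lam n : ℂ)) * prodExc (tn lam) n (tn lam n : ℂ)) with ha
  have hden : ∀ n, -(1 / (tn lam n : ℂ)) * prodExc (tn lam) n (tn lam n : ℂ) ≠ 0 := fun n =>
    mul_ne_zero (neg_ne_zero.2 (one_div_ne_zero (htC n))) (hpe n)
  have haR : ∀ n, R (Real.sqrt (tn lam n) : ℂ) =
      a n * (-(1 / (tn lam n : ℂ)) * prodExc (tn lam) n (tn lam n : ℂ)) := by
    intro n
    simp only [ha]
    rw [div_mul_cancel₀ _ (hden n)]
  have hna : ∀ n, ‖a n‖ ≤ ‖R (Real.sqrt (tn lam n))‖ * tn lam n / c := by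
    intro n
    simp only [ha]
    rw [norm_div, norm_mul, norm_neg, norm_div, norm_one, Complex.norm_real,
      Real.norm_of_nonneg (ht n).le]
    have h1 := hlow n
    have h2 := ht n
    have hp := norm_pos_iff.2 (hpe n)
    rw [div_le_div_iff₀ (by positivity) hc]
    have h3 := norm_nonneg (R (Real.sqrt (tn lam n)))
    calc ‖R (Real.sqrt (tn lam n))‖ * c ≤ ‖R (Real.sqrt (tn lam n))‖ *
          ‖prodExc (tn lam) n (tn lam n : ℂ)‖ := by gcongr
      _ = _ := by field_simp
  have hna' : ∀ n, N ≤ n → ‖a n‖ ≤ (C' / c) * (gap lam (n + 1) * tn lam n ^ 3) := by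
    intro n hn
    refine (hna n).trans ?_
    have h1 := hgap n hn
    have h2 := ht n
    calc ‖R (Real.sqrt (tn lam n))‖ * tn lam n / c ≤
          (C' * tn lam n ^ 2 * gap lam (n + 1)) * tn lam n / c := by gcongr
      _ = _ := by ring
  have hsum : ∀ j : ℕ, Summable fun n => ‖a n‖ * tn lam n ^ j := by
    intro j
    have h1 := (gap_poly_summable hq hlam 0 (3 + j)).mul_left (C' / c)
    refine Summable.of_norm_bounded_eventually_nat h1 ?_
    filter_upwards [eventually_ge_atTop N] with n hn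
    have h2 := hna' n hn
    have h3 := ht n
    rw [norm_mul, norm_norm, norm_pow, Real.norm_of_nonneg h3.le]
    calc ‖a n‖ * tn lam n ^ j ≤ ((C' / c) * (gap lam (n + 1) * tn lam n ^ 3)) * tn lam n ^ j := by
          gcongr
      _ = _ := by rw [pow_zero, pow_add]; ring
  have hsum0 : Summable fun n => ‖a n‖ := by simpa using hsum 0
  obtain ⟨C2, hC2⟩ := hdec 2
  have hRL := interpolation ht hmono.injective hs hM1 hM hR heven hC hgrow hC2 haR hsum0
  have hmom := moments_vanish ht hs hM1 hM hRL hdec hsum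
  -- realness
  set r : ℕ → ℝ := fun n => (a n).re with hr
  have har : ∀ n, a n = (r n : ℂ) := by
    intro n
    symm
    apply real_of_conj
    simp only [ha]
    rw [← rprod_coe ht hs, map_div₀, hreal, map_mul, map_neg, map_div₀, map_one, Complex.conj_ofReal,
      Complex.conj_ofReal]
  have hr0 : ∀ n, gap lam (n + 1) = 0 → r n = 0 := by
    intro n hn
    have h1 := hclosed n hn
    have h2 : a n = 0 := by simp only [ha]; rw [h1, zero_div]
    simp only [hr]; rw [h2]; rfl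
  -- the index map
  set e : Op lam → ℕ := fun n => ((n : ℕ+) : ℕ) - 1 with he
  have he1 : ∀ n : Op lam, e n + 1 = ((n : ℕ+) : ℕ) := fun n => Nat.sub_add_cancel (n : ℕ+).2
  have hinj : Function.Injective e := by
    intro i j hij
    apply Subtype.ext
    apply PNat.coe_injective
    rw [← he1 i, ← he1 j, hij]
  have hte : ∀ n : Op lam, tt lam n = tn lam (e n) := by
    intro n
    unfold tt tn
    rw [he1]
  have hD := (spans_iff_dense hq hlam).1 hspan
  have hpos : ∀ n : Op lam, 0 < tt lam n := fun n => lt_of_lt_of_le one_pos (tt_ge hlam n)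
  have hρ := no_ann_of_dense hpos (fun n : Op lam => n.2) (summable_mom hq hlam) hD
    (a := fun n => r (e n)) ?_ ?_
  · have ha0 : a = 0 := by
      ext n
      rw [har]
      rcases (gap_nonneg hlam (n + 1)).lt_or_eq with h | h
      · have h' : 0 < gap lam ((Nat.succPNat n : ℕ+) : ℕ) := h
        have h1 : r (e ⟨Nat.succPNat n, h'⟩) = 0 := congrFun hρ ⟨Nat.succPNat n, h'⟩
        have h2 : e ⟨Nat.succPNat n, h'⟩ = n := Nat.add_sub_cancel (n := n) (m := 1)
        rw [h2] at h1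
        rw [h1]; rfl
      · rw [hr0 n h.symm]; rfl
    intro k
    rw [hRL k, ha0]
    unfold LL
    simp
  · -- summability
    have h1 : Summable fun n : ℕ => r n ^ 2 / gap lam (n + 1) := by
      have h2 := (gap_poly_summable hq hlam 0 6).mul_left ((C' / c) ^ 2)
      refine Summable.of_norm_bounded_eventually_nat h2 ?_
      filter_upwards [eventually_ge_atTop N] with n hn
      have h3 := hna' n hn
      have h4 : |r n| ≤ ‖a n‖ := by rw [har n, Complex.norm_real, Real.norm_eq_abs]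
      have h5 := gap_nonneg hlam (n + 1)
      rw [norm_div, norm_pow, Real.norm_eq_abs, Real.norm_of_nonneg h5]
      rcases h5.lt_or_eq with h | h
      · rw [div_le_iff₀ h]
        calc |r n| ^ 2 ≤ ((C' / c) * (gap lam (n + 1) * tn lam n ^ 3)) ^ 2 := by
              have := h4.trans h3
              gcongr
          _ = _ := by ring
      · rw [← h]; simp
    have h2 := h1.comp_injective hinj
    refine h2.congr fun n => ?_
    simp only [Function.comp_apply]
    rw [he1]
  · intro k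
    have h1 := hmom k
    have h2 : ∑' n, r n * tn lam n ^ k = 0 := by
      have h3 : ((∑' n, r n * tn lam n ^ k : ℝ) : ℂ) = 0 := by
        rw [Complex.ofReal_tsum, ← h1]
        congr 1
        ext n
        rw [har]; push_cast; rfl
      exact_mod_cast h3
    rw [← h2, ← hinj.tsum_eq]
    · apply tsum_congr
      intro n
      rw [hte]
    · intro n hn
      have h4 : gap lam (n + 1) ≠ 0 := by
        intro h
        apply hn
        simp only [hr0 n h, zero_mul]
      have h5 : 0 < gap lam (n + 1) := lt_of_le_of_ne (gap_nonneg hlam (n + 1)) h4.symm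
      have h' : 0 < gap lam ((Nat.succPNat n : ℕ+) : ℕ) := h5
      exact ⟨⟨Nat.succPNat n, h'⟩, Nat.add_sub_cancel (n := n) (m := 1)⟩

end Run7.h374
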