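import Pool.Agent.Run7.h374.Obst

/-! The obstruction to spanning given by a point where the potential is flat. -/

set_option autoImplicit false

namespace Run7.h374

open Filter Topology Metric MeasureTheory
open scoped Interval ComplexConjugate ContDiff Classical

variable {q : ℝ → ℝ} {lam : ℕ → ℝ}

lemma iteratedDeriv_add_const' (f : ℝ → ℝ) (c : ℝ) (j : ℕ) :
    iteratedDeriv (j + 1) (fun x => f x + c) = iteratedDeriv (j + 1) f := by
  rw [iteratedDeriv_succ', iteratedDeriv_succ']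
  congr 1
  ext x
  rw [deriv_add_const]

/-- the translated and normalised potential -/
def qh (q : ℝ → ℝ) (lam : ℕ → ℝ) (x₀ x : ℝ) : ℝ := q (x + x₀) + (1 - lam 0)

lemma isPot_qh (hq : IsPot q) (x₀ : ℝ) : IsPot (qh q lam x₀) := by
  constructor
  · have h1 : ContDiff ℝ ∞ (fun x : ℝ => x + x₀) := by fun_prop
    exact (hq.1.comp h1).add contDiff_const
  · intro x
    unfold qh
    rw [show x + 1 + x₀ = x + x₀ + 1 by ring, hq.2]

lemma hill_qh (hlam : IsHillSpectrum q lam) (x₀ : ℝ) :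
    IsHillSpectrum (qh q lam x₀) (fun n => lam n + (1 - lam 0)) := hill_shift hlam x₀ (1 - lam 0)

lemma flat_qh (hq : IsPot q) {x₀ : ℝ} (hd : ∀ j : ℕ, 1 ≤ j → iteratedDeriv j q x₀ = 0) :
    FlatEnds (qh q lam x₀) := by
  have h := isPot_qh (lam := lam) hq x₀
  apply flatEnds_of_deriv h.1 h.2
  intro j hj
  obtain ⟨i, rfl⟩ : ∃ i, j = i + 1 := ⟨j - 1, by omega⟩
  have e : (qh q lam x₀) = fun x => (fun x => q (x + x₀)) x + (1 - lam 0) := rfl
  rw [e, iteratedDeriv_add_const', iteratedDeriv_comp_add_const]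
  simp only [zero_add]
  exact hd (i + 1) hj

/-- if `P` spans `F` and `q` is flat at `x₀`, then `D` and `Γ` vanish identically -/
theorem DG_vanish (hq : IsPot q) (hlam : IsHillSpectrum q lam) (hspan : PSpans ℂ lam) {x₀ : ℝ}
    (hd : ∀ j : ℕ, 1 ≤ j → iteratedDeriv j q x₀ = 0) (k : ℂ) :
    DD (qh q lam x₀) k = 0 ∧ GG (qh q lam x₀) k = 0 := by
  set p := qh q lam x₀ with hp
  have hpot : IsPot p := isPot_qh hq x₀
  have hc := hpot.1.continuous
  have hflat : FlatEnds p := flat_qh hq hd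
  obtain ⟨K, hK⟩ := exists_pot_bound hpot
  have hK0 : 0 ≤ K := (abs_nonneg _).trans (hK 0)
  set mu : ℕ → ℝ := fun n => lam n + (1 - lam 0) with hmu
  have hmus : IsHillSpectrum p mu := hill_qh hlam x₀
  have hmu1 : ∀ n, 1 ≤ mu n := by
    intro n
    have := hlam.mono (Nat.zero_le n)
    simp only [hmu]; linarith
  have hgap : ∀ n, gap mu n = gap lam n := by
    intro n; unfold gap; simp only [hmu]; ring
  obtain ⟨C, hC0, hC⟩ := growth_DG hc hK
  obtain ⟨C', hC0', N, hN⟩ := fund_gap hc hpot.2 hK hmus hmu1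
  have htn : ∀ n, tn lam n = mu (2 * (n + 1)) := fun n => rfl
  have hsq : ∀ n, ((Real.sqrt (tn lam n) : ℝ) : ℂ) ^ 2 = (mu (2 * (n + 1)) : ℂ) := by
    intro n
    rw [← Complex.ofReal_pow, Real.sq_sqrt (by have := tn_ge hlam n; linarith), htn]
  have hcl : ∀ n : ℕ, gap lam (n + 1) = 0 →
      fy1 p 1 (Real.sqrt (tn lam n)) = fz2 p 1 (Real.sqrt (tn lam n)) ∧
      fy2 p 1 (Real.sqrt (tn lam n)) = 0 ∧ fz1 p 1 (Real.sqrt (tn lam n)) = 0 := by
    intro n hn
    rw [← hgap] at hn
    apply scalar_of_eq hc hK hmus (n := 2 * (n + 1)) (m := 2 * (n + 1) - 1) (by omega) _ (hsq n)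
    unfold gap at hn
    linarith
  have hsm : ∀ n : ℕ, 1 + Real.sqrt (tn lam n) ≤ 2 * tn lam n := by
    intro n
    have h1 := tn_ge hlam n
    have h2 : Real.sqrt (tn lam n) ≤ tn lam n := by
      apply Real.sqrt_le_iff.2
      constructor
      · linarith
      · nlinarith
    linarith
  constructor
  · refine vanish_of_spans hq hlam hspan (R := DD p) ((fz2_diff hc hK 1).sub (fy1_diff hc hK 1)) ?_ ?_
      hC0 (fun k => (hC k).1) ?_ ?_ (C' := C' * 2) (by positivity) (N := N) ?_ k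
    · intro k
      obtain ⟨h1, h2, h3, h4⟩ := fund_congr hc hK (k := -k) (k' := k) (by ring) 1
      unfold DD; rw [h1, h4]
    · intro x
      obtain ⟨h1, h2, h3, h4⟩ := fund_conj hc hK (k := (x : ℂ)) (by simp) 1
      unfold DD; rw [map_sub, h1, h4]
    · intro N
      obtain ⟨C2, h⟩ := decay_flat hc hK hflat N
      exact ⟨C2, fun y hy => (h y hy).1⟩
    · intro n hn
      obtain ⟨h1, h2, h3⟩ := hcl n hn
      unfold DD; rw [h1, sub_self]
    · intro n hn
      have h1 := (hN (n + 1) (by omega)).2.2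
      rw [← htn, hgap] at h1
      have h2 := hsm n
      have h3 := gap_nonneg hlam (n + 1)
      have h4 := tn_ge hlam n
      unfold DD
      refine h1.trans ?_
      have h5 : C' * (1 + Real.sqrt (tn lam n)) ≤ C' * 2 * tn lam n ^ 2 := by
        have : 1 + Real.sqrt (tn lam n) ≤ 2 * tn lam n ^ 2 := by nlinarith
        calc C' * (1 + Real.sqrt (tn lam n)) ≤ C' * (2 * tn lam n ^ 2) := by gcongr
          _ = _ := by ring
      gcongr
  · refine vanish_of_spans hq hlam hspan (R := GG p) ?_ ?_ ?_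
      hC0 (fun k => (hC k).2) ?_ ?_ (C' := C' * (K + 3)) (by positivity) (N := N) ?_ k
    · exact (((differentiable_const _).sub (differentiable_id.pow 2)).mul (fy2_diff hc hK 1)).sub
        (fz1_diff hc hK 1)
    · intro k
      obtain ⟨h1, h2, h3, h4⟩ := fund_congr hc hK (k := -k) (k' := k) (by ring) 1
      unfold GG; rw [h2, h3, neg_sq]
    · intro x
      obtain ⟨h1, h2, h3, h4⟩ := fund_conj hc hK (k := (x : ℂ)) (by simp) 1
      unfold GG
      rw [map_sub, map_mul, map_sub, h2, h3, map_pow, Complex.conj_ofReal, Complex.conj_ofReal]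
    · intro N
      obtain ⟨C2, h⟩ := decay_flat hc hK hflat N
      exact ⟨C2, fun y hy => (h y hy).2⟩
    · intro n hn
      obtain ⟨h1, h2, h3⟩ := hcl n hn
      unfold GG; rw [h2, h3]; ring
    · intro n hn
      obtain ⟨h1, h2, -⟩ := hN (n + 1) (by omega)
      rw [← htn, hgap] at h1 h2
      have h5 := hsm n
      have h3 := gap_nonneg hlam (n + 1)
      have h4 := tn_ge hlam n
      unfold GG
      have h6 : ‖(p 0 : ℂ) - (Real.sqrt (tn lam n) : ℂ) ^ 2‖ ≤ K + tn lam n := by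
        refine (norm_sub_le _ _).trans ?_
        rw [Complex.norm_real, Real.norm_eq_abs, ← Complex.ofReal_pow, Complex.norm_real,
          Real.sq_sqrt (by linarith), Real.norm_of_nonneg (by linarith)]
        have := hK 0
        linarith
      calc ‖((p 0 : ℂ) - (Real.sqrt (tn lam n) : ℂ) ^ 2) * fy2 p 1 (Real.sqrt (tn lam n)) -
            fz1 p 1 (Real.sqrt (tn lam n))‖
          ≤ (K + tn lam n) * (C' * gap lam (n + 1)) +
            C' * (1 + Real.sqrt (tn lam n)) * gap lam (n + 1) := by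
            refine (norm_sub_le _ _).trans (add_le_add ?_ h2)
            rw [norm_mul]
            gcongr
        _ = C' * (K + tn lam n + (1 + Real.sqrt (tn lam n))) * gap lam (n + 1) := by ring
        _ ≤ C' * ((K + 3) * tn lam n ^ 2) * gap lam (n + 1) := by
            have h7 : K + tn lam n + (1 + Real.sqrt (tn lam n)) ≤ (K + 3) * tn lam n ^ 2 := by
              have h8 : tn lam n ≤ tn lam n ^ 2 := by nlinarith
              have h9 : K ≤ K * tn lam n ^ 2 := by nlinarith
              nlinarith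
            gcongr
        _ = _ := by ring

/-- **Obstruction.** If infinitely many lacunae are open and `q` is flat at some point, then `P`
does not span `F`. -/
theorem flat_obstruction (hq : IsPot q) (hlam : IsHillSpectrum q lam)
    (hg : {n : ℕ+ | 0 < gap lam n}.Infinite) {x₀ : ℝ}
    (hd : ∀ j : ℕ, 1 ≤ j → iteratedDeriv j q x₀ = 0) : ¬ PSpans ℂ lam := by
  intro hspan
  have hDG := DG_vanish hq hlam hspan hd
  set p := qh q lam x₀ with hp
  have hpot : IsPot p := isPot_qh hq x₀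
  have hc := hpot.1.continuous
  obtain ⟨K, hK⟩ := exists_pot_bound hpot
  have hK0 : 0 ≤ K := (abs_nonneg _).trans (hK 0)
  set mu : ℕ → ℝ := fun n => lam n + (1 - lam 0) with hmu
  have hmus : IsHillSpectrum p mu := hill_qh hlam x₀
  have hmu1 : ∀ n, 1 ≤ mu n := by
    intro n
    have := hlam.mono (Nat.zero_le n)
    simp only [hmu]; linarith
  set M := ‖qC p hc hpot.2‖ with hM
  have hMb := fun n => abs_lam_sub hc hpot.2 hmus n
  obtain ⟨N, hN⟩ := exists_nat_gt (M + K)
  obtain ⟨n, hn, hnN⟩ := hg.exists_gt ⟨N + 1, by omega⟩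
  have hnN' : N + 1 < (n : ℕ) := hnN
  have hn' : 0 < gap lam n := hn
  set m : ℕ := (n : ℕ) with hm
  have hm1 : 1 ≤ m := by omega
  have hmr : (N:ℝ) + 1 < m := by exact_mod_cast hnN'
  have hMn : 0 ≤ M := norm_nonneg _
  have e1 := abs_le.1 (hMb (2 * m))
  have e2 := abs_le.1 (hMb (2 * (m + 1) - 1))
  rw [lam0_even] at e1
  rw [lam0_odd (m + 1) (by omega)] at e2
  push_cast at e2
  have hπ := Real.pi_gt_three
  have hm1r : (1:ℝ) ≤ m := by exact_mod_cast hm1
  rw [← hM] at e1 e2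
  have hπ2 : 9 < Real.pi ^ 2 := by nlinarith
  have hex : Real.pi ^ 2 * ((m:ℝ) + 1) ^ 2 = Real.pi ^ 2 * (m:ℝ) ^ 2 + Real.pi ^ 2 * (2 * m + 1) := by
    ring
  have hex2 : 9 * (2 * (m:ℝ) + 1) ≤ Real.pi ^ 2 * (2 * m + 1) := by gcongr
  have hlt1 : mu (2 * m) < mu (2 * m + 1) := by
    have e : 2 * (m + 1) - 1 = 2 * m + 1 := by omega
    rw [e, hex] at e2
    linarith [e1.2, e2.1]
  have hlt0 : mu (2 * m - 1) < mu (2 * m) := by
    unfold gap at hn'
    simp only [hmu]; linarith
  have hKm : K < mu (2 * m) := by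
    have h8 : (m:ℝ) ≤ Real.pi ^ 2 * (m:ℝ) ^ 2 := by nlinarith
    linarith [e1.1]
  set k : ℂ := ((Real.sqrt (mu (2 * m)) : ℝ) : ℂ) with hk
  have hk2 : k ^ 2 = (mu (2 * m) : ℂ) := by
    rw [hk, ← Complex.ofReal_pow, Real.sq_sqrt (by have := hmu1 (2 * m); linarith)]
  obtain ⟨hD, hG⟩ := hDG k
  unfold DD at hD
  unfold GG at hG
  have h4 := disc_at hc hK hmus (2 * m) hk2
  have h5 := wronsk_one hc hK k 1
  have h6 : fy2 p 1 k * fz1 p 1 k = 0 := by
    have : (fz2 p 1 k - fy1 p 1 k) ^ 2 = -4 * (fz1 p 1 k * fy2 p 1 k) := by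
      linear_combination h4 - 4 * h5
    rw [hD] at this
    linear_combination (1 / 4 : ℂ) * this
  have h7 : (p 0 : ℂ) - k ^ 2 ≠ 0 := by
    rw [hk2, ← Complex.ofReal_sub]
    have h8 := (abs_le.1 (hK 0)).2
    have : p 0 - mu (2 * m) ≠ 0 := by
      intro h; linarith
    exact_mod_cast this
  have h8 : fy2 p 1 k = 0 := by
    have h9 : ((p 0 : ℂ) - k ^ 2) * fy2 p 1 k ^ 2 = 0 := by
      linear_combination fy2 p 1 k * hG + h6
    rcases mul_eq_zero.1 h9 with h | h
    · exact absurd h h7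
    · exact pow_eq_zero_iff (two_ne_zero) |>.1 h
  have h9 : fz1 p 1 k = 0 := by
    rw [h8] at hG
    linear_combination -hG
  obtain ⟨j, hj, hj'⟩ := eq_of_scalar hc hpot.2 hK hmus (2 * m) hk2 (by linear_combination -hD) h8 h9
  rcases lt_or_gt_of_ne hj with h | h
  · have := hmus.mono (show j ≤ 2 * m - 1 by omega)
    linarith
  · have := hmus.mono (show 2 * m + 1 ≤ j by omega)
    linarith

end Run7.h374
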