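import Mathlib

/-! Diagonal operator plus a bounded symmetric perturbation, in Hilbert bases. -/

set_option autoImplicit false
set_option linter.unusedSectionVars false

namespace Run7.h374

open Filter Topology
open scoped ComplexConjugate

variable {H : Type*} [NormedAddCommGroup H] [InnerProductSpace ℂ H] [CompleteSpace H]
variable {ι J : Type*}

/-- `h = D f` where `D` is the diagonal operator with entries `d` in the Hilbert basis `b` -/
def IsD (b : HilbertBasis ι ℂ H) (d : ι → ℝ) (f h : H) : Prop :=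
  ∀ k, inner ℂ (b k) h = (d k : ℂ) * inner ℂ (b k) f

section basic

variable {b : HilbertBasis ι ℂ H} {d : ι → ℝ}

lemma IsD.add {f h f' h' : H} (h1 : IsD b d f h) (h2 : IsD b d f' h') :
    IsD b d (f + f') (h + h') := by
  intro k
  rw [inner_add_right, inner_add_right, h1 k, h2 k]; ring

lemma IsD.smul {f h : H} (c : ℂ) (h1 : IsD b d f h) : IsD b d (c • f) (c • h) := by
  intro k
  rw [inner_smul_right, inner_smul_right, h1 k]; ring

lemma IsD.zero : IsD b d (0 : H) 0 := by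
  intro k; simp

lemma IsD.basis (k : ι) : IsD b d (b k) ((d k : ℂ) • b k) := by
  intro j
  rw [inner_smul_right]
  by_cases h : j = k
  · rw [h]
  · have : inner ℂ (b j) (b k) = 0 := b.orthonormal.2 h
    rw [this]; ring

lemma IsD.unique {f h h' : H} (h1 : IsD b d f h) (h2 : IsD b d f h') : h = h' := by
  apply b.repr.injective
  ext k
  rw [b.repr_apply_apply, b.repr_apply_apply, h1 k, h2 k]

lemma ext_inner_basis {f g : H} (h : ∀ k, inner ℂ (b k) f = inner ℂ (b k) g) : f = g := by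
  apply b.repr.injective
  ext k
  rw [b.repr_apply_apply, b.repr_apply_apply, h k]

/-- symmetry of the diagonal operator -/
lemma IsD.symm_inner {f h f' h' : H} (h1 : IsD b d f h) (h2 : IsD b d f' h') :
    inner ℂ h f' = inner ℂ f h' := by
  rw [← b.tsum_inner_mul_inner h f', ← b.tsum_inner_mul_inner f h']
  congr 1
  ext k
  have e1 : inner ℂ h (b k) = conj (inner ℂ (b k) h) := (inner_conj_symm _ _).symm
  have e2 : inner ℂ f (b k) = conj (inner ℂ (b k) f) := (inner_conj_symm _ _).symm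
  rw [e1, e2, h1 k, h2 k, map_mul, Complex.conj_ofReal]
  ring

end basic

/-- `φ` consists of eigenvectors of `D + Q` with eigenvalues `ν` -/
def Rel (b : HilbertBasis ι ℂ H) (d : ι → ℝ) (Q : H →L[ℂ] H) (φ : HilbertBasis J ℂ H)
    (ν : J → ℝ) : Prop :=
  ∀ j, IsD b d (φ j) ((ν j : ℂ) • φ j - Q (φ j))

/-- symmetric bounded operator -/
def Sym (Q : H →L[ℂ] H) : Prop := ∀ f g, inner ℂ (Q f) g = inner ℂ f (Q g)

lemma Rel.isD {b : HilbertBasis ι ℂ H} {d : ι → ℝ} {Q : H →L[ℂ] H} {φ : HilbertBasis J ℂ H}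
    {ν : J → ℝ} (hQ : Sym Q) (hrel : Rel b d Q φ ν) {f h : H} (hf : IsD b d f h) :
    IsD φ ν f (h + Q f) := by
  intro j
  have h1 := (hrel j).symm_inner hf
  rw [inner_add_right, ← hQ, ← h1, inner_sub_left, inner_smul_left, Complex.conj_ofReal]
  ring

lemma Rel.symm {b : HilbertBasis ι ℂ H} {d : ι → ℝ} {Q : H →L[ℂ] H} {φ : HilbertBasis J ℂ H}
    {ν : J → ℝ} (hQ : Sym Q) (hrel : Rel b d Q φ ν) : Rel φ ν (-Q) b d := by
  intro k
  have h1 := hrel.isD hQ (IsD.basis (b := b) (d := d) k)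
  have h2 : ((d k : ℂ) • b k - (-Q) (b k)) = (d k : ℂ) • b k + Q (b k) := by simp
  rw [h2]; exact h1

lemma Sym.neg {Q : H →L[ℂ] H} (hQ : Sym Q) : Sym (-Q) := by
  intro f g
  simp only [neg_apply, inner_neg_left, inner_neg_right]
  rw [hQ]

lemma Sym.sub {Q Q' : H →L[ℂ] H} (hQ : Sym Q) (hQ' : Sym Q') : Sym (Q - Q') := by
  intro f g
  simp only [sub_apply, inner_sub_left, inner_sub_right]
  rw [hQ, hQ']

lemma Rel.trans {ι' : Type*} {b : HilbertBasis ι ℂ H} {d : ι → ℝ} {Q Q' : H →L[ℂ] H}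
    {φ : HilbertBasis J ℂ H} {ν : J → ℝ} {φ' : HilbertBasis ι' ℂ H} {ν' : ι' → ℝ} (hQ : Sym Q)
    (hrel : Rel b d Q φ ν) (hrel' : Rel b d Q' φ' ν') : Rel φ ν (Q' - Q) φ' ν' := by
  intro j
  have h1 := hrel.isD hQ (hrel' j)
  have h2 : (ν' j : ℂ) • φ' j - Q' (φ' j) + Q (φ' j) = (ν' j : ℂ) • φ' j - (Q' - Q) (φ' j) := by
    simp only [sub_apply]; abel
  rw [← h2]; exact h1

/-- a nontrivial combination orthogonal to finitely many vectors -/
lemma exists_orth {n : ℕ} (v : Fin (n + 1) → H) (u : Fin n → H) :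
    ∃ c : Fin (n + 1) → ℂ, c ≠ 0 ∧ ∀ j, inner ℂ (u j) (∑ k, c k • v k) = 0 := by
  let L : (Fin (n + 1) → ℂ) →ₗ[ℂ] (Fin n → ℂ) :=
    { toFun := fun c j => inner ℂ (u j) (∑ k, c k • v k)
      map_add' := by
        intro c c'
        ext j
        simp only [Pi.add_apply, add_smul, Finset.sum_add_distrib, inner_add_right]
      map_smul' := by
        intro a c
        ext j
        simp only [Pi.smul_apply, smul_eq_mul, mul_smul, RingHom.id_apply]
        rw [← Finset.smul_sum, inner_smul_right] }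
  have hker : LinearMap.ker L ≠ ⊥ := by
    apply LinearMap.ker_ne_bot_of_finrank_lt
    simp
  obtain ⟨c, hc, hc0⟩ := (Submodule.ne_bot_iff _).1 hker
  refine ⟨c, hc0, fun j => ?_⟩
  have : L c = 0 := hc
  exact congrFun this j

lemma hasSum_norm_sq (b : HilbertBasis ι ℂ H) (f : H) :
    HasSum (fun k => ‖(inner ℂ (b k) f : ℂ)‖ ^ 2) (‖f‖ ^ 2) := by
  have h1 := b.hasSum_inner_mul_inner f f
  have h2 := Complex.hasSum_re h1
  have h3 : (inner ℂ f f : ℂ).re = ‖f‖ ^ 2 := by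
    rw [inner_self_eq_norm_sq_to_K]
    norm_cast
  rw [h3] at h2
  refine (Eq.subst (motive := fun F => HasSum F (‖f‖ ^ 2)) ?_ h2)
  ext k
  have e1 : inner ℂ f (b k) = conj (inner ℂ (b k) f) := (inner_conj_symm _ _).symm
  rw [e1, mul_comm, Complex.mul_conj, Complex.normSq_eq_norm_sq]
  norm_cast

lemma hasSum_form {b : HilbertBasis ι ℂ H} {d : ι → ℝ} {f h : H} (hf : IsD b d f h) :
    HasSum (fun k => d k * ‖(inner ℂ (b k) f : ℂ)‖ ^ 2) (inner ℂ f h : ℂ).re := by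
  have h1 := b.hasSum_inner_mul_inner f h
  have h2 := Complex.hasSum_re h1
  refine (Eq.subst (motive := fun F => HasSum F ((inner ℂ f h : ℂ).re)) ?_ h2)
  ext k
  have e1 : inner ℂ f (b k) = conj (inner ℂ (b k) f) := (inner_conj_symm _ _).symm
  rw [e1, hf k]
  have e2 : conj (inner ℂ (b k) f : ℂ) * ((d k : ℂ) * inner ℂ (b k) f) =
      (d k : ℂ) * ((inner ℂ (b k) f : ℂ) * conj (inner ℂ (b k) f : ℂ)) := by ring
  rw [e2, Complex.mul_conj, Complex.normSq_eq_norm_sq]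
  norm_cast

lemma form_le {b : HilbertBasis ι ℂ H} {d : ι → ℝ} {f h : H} (hf : IsD b d f h) {M : ℝ}
    (hM : ∀ k, (inner ℂ (b k) f : ℂ) ≠ 0 → d k ≤ M) : (inner ℂ f h : ℂ).re ≤ M * ‖f‖ ^ 2 := by
  refine hasSum_le (fun k => ?_) (hasSum_form hf) ((hasSum_norm_sq b f).mul_left M)
  by_cases hk : (inner ℂ (b k) f : ℂ) = 0
  · rw [hk]; simp
  · have := hM k hk
    gcongr

lemma le_form {b : HilbertBasis ι ℂ H} {d : ι → ℝ} {f h : H} (hf : IsD b d f h) {m : ℝ}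
    (hm : ∀ k, (inner ℂ (b k) f : ℂ) ≠ 0 → m ≤ d k) : m * ‖f‖ ^ 2 ≤ (inner ℂ f h : ℂ).re := by
  refine hasSum_le (fun k => ?_) ((hasSum_norm_sq b f).mul_left m) (hasSum_form hf)
  by_cases hk : (inner ℂ (b k) f : ℂ) = 0
  · rw [hk]; simp
  · have := hm k hk
    gcongr

lemma IsD.sum {b : HilbertBasis ι ℂ H} {d : ι → ℝ} {n : ℕ} {v w : Fin n → H} (c : Fin n → ℂ)
    (h : ∀ k, IsD b d (v k) (w k)) : IsD b d (∑ k, c k • v k) (∑ k, c k • w k) := by
  intro j
  simp only [inner_sum, inner_smul_right]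
  rw [Finset.mul_sum]
  apply Finset.sum_congr rfl
  intro k _
  rw [h k j]; ring

/-- comparison of sorted eigenvalues -/
theorem le_of_rel {b : HilbertBasis ℕ ℂ H} {d : ℕ → ℝ} {Q : H →L[ℂ] H} {φ : HilbertBasis ℕ ℂ H}
    {ν : ℕ → ℝ} (hQ : Sym Q) (hrel : Rel b d Q φ ν) (hd : Monotone d) (hν : Monotone ν) {C : ℝ}
    (hC : ‖Q‖ ≤ C) (n : ℕ) : ν n ≤ d n + C := by
  obtain ⟨c, hc, horth⟩ := exists_orth (n := n) (fun k => b k) (fun j => φ j)
  set f : H := ∑ k : Fin (n + 1), c k • b k with hf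
  have hD : IsD b d f (∑ k : Fin (n + 1), c k • ((d k : ℂ) • b k)) :=
    IsD.sum c fun k => IsD.basis (k : ℕ)
  set h : H := ∑ k : Fin (n + 1), c k • ((d k : ℂ) • b k) with hh
  have hinner : ∀ k : ℕ, (inner ℂ (b k) f : ℂ) = if hk : k < n + 1 then c ⟨k, hk⟩ else 0 := by
    intro k
    rw [hf, inner_sum]
    simp only [inner_smul_right, orthonormal_iff_ite.1 b.orthonormal]
    by_cases hk : k < n + 1
    · rw [dif_pos hk, Finset.sum_eq_single ⟨k, hk⟩]
      · simp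
      · intro j _ hj
        have : k ≠ (j : ℕ) := fun h => hj (Fin.ext h.symm)
        rw [if_neg this, mul_zero]
      · intro h; exact absurd (Finset.mem_univ _) h
    · rw [dif_neg hk]
      apply Finset.sum_eq_zero
      intro j _
      have : k ≠ (j : ℕ) := fun h => hk (h ▸ j.2)
      rw [if_neg this, mul_zero]
  have hf0 : f ≠ 0 := by
    intro h0
    apply hc
    ext k
    have := hinner k
    rw [h0, inner_zero_right, dif_pos k.2] at this
    exact this.symm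
  have hup : (inner ℂ f h : ℂ).re ≤ d n * ‖f‖ ^ 2 := by
    apply form_le hD
    intro k hk
    apply hd
    by_contra hcon
    apply hk
    rw [hinner, dif_neg (by omega)]
  have hlow : ν n * ‖f‖ ^ 2 ≤ (inner ℂ f (h + Q f) : ℂ).re := by
    apply le_form (hrel.isD hQ hD)
    intro k hk
    apply hν
    by_contra hcon
    apply hk
    exact horth ⟨k, by omega⟩
  have hQf : (inner ℂ f (Q f) : ℂ).re ≤ C * ‖f‖ ^ 2 := by
    calc (inner ℂ f (Q f) : ℂ).re ≤ ‖(inner ℂ f (Q f) : ℂ)‖ := Complex.re_le_norm _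
      _ ≤ ‖f‖ * ‖Q f‖ := norm_inner_le_norm _ _
      _ ≤ ‖f‖ * (C * ‖f‖) := by
          have := Q.le_opNorm f
          gcongr
          exact this.trans (by gcongr)
      _ = _ := by ring
  rw [inner_add_right, Complex.add_re] at hlow
  have hpos : 0 < ‖f‖ ^ 2 := by positivity
  have : ν n * ‖f‖ ^ 2 ≤ (d n + C) * ‖f‖ ^ 2 := by linarith
  exact le_of_mul_le_mul_right this hpos

theorem abs_sub_le_of_rel {b : HilbertBasis ℕ ℂ H} {d : ℕ → ℝ} {Q : H →L[ℂ] H}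
    {φ : HilbertBasis ℕ ℂ H}
    {ν : ℕ → ℝ} (hQ : Sym Q) (hrel : Rel b d Q φ ν) (hd : Monotone d) (hν : Monotone ν) {C : ℝ}
    (hC : ‖Q‖ ≤ C) (n : ℕ) : |ν n - d n| ≤ C := by
  rw [abs_le]
  constructor
  · have := le_of_rel hQ.neg (hrel.symm hQ) hν hd (C := C) (by rwa [norm_neg]) n
    linarith
  · have := le_of_rel hQ hrel hd hν hC n
    linarith

/-- two quasi-modes give two eigenvalues -/
theorem quasimode {φ : HilbertBasis J ℂ H} {ν : J → ℝ} {f₁ f₂ g₁ g₂ : H} (h₁ : IsD φ ν f₁ g₁)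
    (h₂ : IsD φ ν f₂ g₂) {Λ ε c : ℝ} (hc : 0 < c) (hε : 0 ≤ ε)
    (he₁ : ‖g₁ - (Λ : ℂ) • f₁‖ ≤ ε)
    (he₂ : ‖g₂ - (Λ : ℂ) • f₂‖ ≤ ε)
    (hlow : ∀ α β : ℂ, c * (‖α‖ + ‖β‖) ≤ ‖α • f₁ + β • f₂‖) (j₀ : J) :
    ∃ j, j ≠ j₀ ∧ |ν j - Λ| ≤ ε / c := by
  by_contra hcon
  push Not at hcon
  obtain ⟨a, ha, horth⟩ := exists_orth (n := 1) ![f₁, f₂] ![φ j₀]
  have horth0 : (inner ℂ (φ j₀) (a 0 • f₁ + a 1 • f₂) : ℂ) = 0 := by
    simpa [Fin.sum_univ_succ] using horth 0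
  set f := a 0 • f₁ + a 1 • f₂ with hf
  set g := a 0 • g₁ + a 1 • g₂ with hg
  have hD : IsD φ ν f g := (h₁.smul (a 0)).add (h₂.smul (a 1))
  have hapos : 0 < ‖a 0‖ + ‖a 1‖ := by
    by_contra hle
    push Not at hle
    have e0 : ‖a 0‖ = 0 := by linarith [norm_nonneg (a 0), norm_nonneg (a 1)]
    have e1 : ‖a 1‖ = 0 := by linarith [norm_nonneg (a 0), norm_nonneg (a 1)]
    apply ha
    ext k
    fin_cases k
    · exact norm_eq_zero.1 e0
    · exact norm_eq_zero.1 e1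
  have hfpos : 0 < ‖f‖ := lt_of_lt_of_le (by positivity) (hlow (a 0) (a 1))
  have herr : ‖g - (Λ : ℂ) • f‖ ≤ ε / c * ‖f‖ := by
    calc ‖g - (Λ : ℂ) • f‖ = ‖a 0 • (g₁ - (Λ : ℂ) • f₁) + a 1 • (g₂ - (Λ : ℂ) • f₂)‖ := by
          congr 1
          rw [hf, hg]
          simp only [smul_sub, smul_add, smul_smul, mul_comm]
          abel
      _ ≤ ‖a 0‖ * ‖g₁ - (Λ : ℂ) • f₁‖ + ‖a 1‖ * ‖g₂ - (Λ : ℂ) • f₂‖ := by
          refine (norm_add_le _ _).trans ?_
          rw [norm_smul, norm_smul]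
      _ ≤ ‖a 0‖ * ε + ‖a 1‖ * ε := by gcongr
      _ = ε / c * (c * (‖a 0‖ + ‖a 1‖)) := by field_simp
      _ ≤ ε / c * ‖f‖ := by
          have := hlow (a 0) (a 1)
          gcongr
  have hsum1 : HasSum (fun j => (ν j - Λ) ^ 2 * ‖(inner ℂ (φ j) f : ℂ)‖ ^ 2)
      (‖g - (Λ : ℂ) • f‖ ^ 2) := by
    refine (Eq.subst (motive := fun F => HasSum F (‖g - (Λ : ℂ) • f‖ ^ 2)) ?_
      (hasSum_norm_sq φ (g - (Λ : ℂ) • f)))
    ext j
    rw [inner_sub_right, inner_smul_right, hD j, ← sub_mul, norm_mul, mul_pow,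
      ← Complex.ofReal_sub, Complex.norm_real, Real.norm_eq_abs, sq_abs]
  have hsum2 := (hasSum_norm_sq φ f).mul_left ((ε / c) ^ 2)
  obtain ⟨j1, hj1⟩ : ∃ j, (inner ℂ (φ j) f : ℂ) ≠ 0 := by
    by_contra hall
    push Not at hall
    have : f = 0 := ext_inner_basis (b := φ) fun k => by rw [hall k, inner_zero_right]
    rw [this, norm_zero] at hfpos
    exact lt_irrefl _ hfpos
  have hj1ne : j1 ≠ j₀ := by
    intro h
    rw [h] at hj1
    exact hj1 horth0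
  have hεc : 0 ≤ ε / c := by positivity
  have hlt := hasSum_lt (f := fun j => (ε / c) ^ 2 * ‖(inner ℂ (φ j) f : ℂ)‖ ^ 2)
    (g := fun j => (ν j - Λ) ^ 2 * ‖(inner ℂ (φ j) f : ℂ)‖ ^ 2) (i := j1) (by
      intro j
      by_cases hj : j = j₀
      · rw [hj]
        simp only
        rw [horth0]; simp
      · have h1 := hcon j hj
        have h2 : (ε / c) ^ 2 ≤ (ν j - Λ) ^ 2 := by
          rw [← sq_abs (ν j - Λ)]
          gcongr
        simp only
        gcongr) (by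
      have h1 := hcon j1 hj1ne
      have h2 : (ε / c) ^ 2 < (ν j1 - Λ) ^ 2 := by
        rw [← sq_abs (ν j1 - Λ)]
        gcongr
      have h3 : 0 < ‖(inner ℂ (φ j1) f : ℂ)‖ ^ 2 := by positivity
      gcongr) hsum2 hsum1
  have h4 : ‖g - (Λ : ℂ) • f‖ ^ 2 ≤ (ε / c) ^ 2 * ‖f‖ ^ 2 := by
    rw [← mul_pow]
    gcongr
  linarith

end Run7.h374
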