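import Mathlib

/-! An even entire function of exponential type which is bounded on the axes is constant. -/

set_option autoImplicit false

namespace Run7.h374

open Filter Topology Metric Complex Set Bornology

lemma PL_even {F : ℂ → ℂ} (hF : Differentiable ℂ F) (heven : ∀ k, F (-k) = F k) {A B : ℝ}
    (hA : 0 ≤ A) (hgrow : ∀ k, ‖F k‖ ≤ A * Real.exp (B * ‖k‖)) {C : ℝ}
    (hre : ∀ x : ℝ, 0 ≤ x → ‖F x‖ ≤ C) (him : ∀ x : ℝ, 0 ≤ x → ‖F (x * I)‖ ≤ C) (k : ℂ) :
    ‖F k‖ ≤ C := by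
  have hO : ∀ (G : ℂ → ℂ), (∀ k, ‖G k‖ ≤ A * Real.exp (B * ‖k‖)) →
      ∃ c < (2 : ℝ), ∃ B', G =O[cobounded ℂ ⊓ 𝓟 (Ioi 0 ×ℂ Ioi 0)]
        fun z => Real.exp (B' * ‖z‖ ^ c) := by
    intro G hG
    refine ⟨1, by norm_num, B, ?_⟩
    apply Asymptotics.IsBigO.of_bound A
    filter_upwards with z
    rw [Real.norm_of_nonneg (Real.exp_pos _).le, Real.rpow_one]
    exact hG z
  have h1 : ∀ z : ℂ, 0 ≤ z.re → 0 ≤ z.im → ‖F z‖ ≤ C := by
    intro z hz1 hz2
    exact PhragmenLindelof.quadrant_I hF.diffContOnCl (hO F hgrow) hre him hz1 hz2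
  have h2 : ∀ z : ℂ, 0 ≤ z.re → 0 ≤ z.im → ‖F (-I * z)‖ ≤ C := by
    intro z hz1 hz2
    have hd : Differentiable ℂ fun z => F (-I * z) := hF.comp (by fun_prop)
    refine PhragmenLindelof.quadrant_I (f := fun z => F (-I * z)) hd.diffContOnCl
      (hO _ fun k => ?_) ?_ ?_ hz1 hz2
    · refine (hgrow _).trans (le_of_eq ?_)
      rw [norm_mul, norm_neg, norm_I, one_mul]
    · intro x hx
      have : -I * (x : ℂ) = -((x : ℂ) * I) := by ring
      rw [this, heven]
      exact him x hx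
    · intro x hx
      have : -I * ((x : ℂ) * I) = x := by
        rw [mul_comm (x : ℂ) I, ← mul_assoc, neg_mul, I_mul_I]; ring
      rw [this]
      exact hre x hx
  have h3 : ∀ z : ℂ, 0 ≤ z.re → ‖F z‖ ≤ C := by
    intro z hz
    rcases le_total 0 z.im with h | h
    · exact h1 z hz h
    · have e : z = -I * (I * z) := by rw [← mul_assoc, neg_mul, I_mul_I]; ring
      rw [e]
      apply h2
      · simp only [mul_re, I_re, I_im]; linarith
      · simp only [mul_im, I_re, I_im]; linarith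
  rcases le_total 0 k.re with h | h
  · exact h3 k h
  · rw [← heven]
    exact h3 (-k) (by simpa using h)

theorem const_of_axes {F : ℂ → ℂ} (hF : Differentiable ℂ F) (heven : ∀ k, F (-k) = F k) {A B : ℝ}
    (hA : 0 ≤ A) (hgrow : ∀ k, ‖F k‖ ≤ A * Real.exp (B * ‖k‖)) {C y₀ : ℝ}
    (hre : ∀ x : ℝ, y₀ ≤ x → ‖F x‖ ≤ C) (him : ∀ x : ℝ, y₀ ≤ x → ‖F (x * I)‖ ≤ C) {L : ℂ}
    (hL : Tendsto (fun n : ℕ => F (n : ℂ)) atTop (𝓝 L)) (k : ℂ) : F k = L := by
  obtain ⟨C', hC'⟩ := (isCompact_closedBall (0:ℂ) |y₀|).exists_bound_of_continuousOn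
    hF.continuous.continuousOn
  have hre' : ∀ x : ℝ, 0 ≤ x → ‖F x‖ ≤ max C C' := by
    intro x hx
    rcases le_total y₀ x with h | h
    · exact (hre x h).trans (le_max_left _ _)
    · refine (hC' x ?_).trans (le_max_right _ _)
      rw [mem_closedBall_zero_iff, Complex.norm_real, Real.norm_of_nonneg hx]
      exact h.trans (le_abs_self _)
  have him' : ∀ x : ℝ, 0 ≤ x → ‖F (x * I)‖ ≤ max C C' := by
    intro x hx
    rcases le_total y₀ x with h | h
    · exact (him x h).trans (le_max_left _ _)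
    · refine (hC' _ ?_).trans (le_max_right _ _)
      rw [mem_closedBall_zero_iff, norm_mul, norm_I, mul_one, Complex.norm_real,
        Real.norm_of_nonneg hx]
      exact h.trans (le_abs_self _)
  have hb := PL_even hF heven hA hgrow hre' him'
  have hbd : IsBounded (range F) := by
    rw [isBounded_iff_forall_norm_le]
    refine ⟨max C C', ?_⟩
    rintro _ ⟨z, rfl⟩
    exact hb z
  have hconst : ∀ z w, F z = F w := fun z w => hF.apply_eq_apply_of_bounded hbd z w
  have h1 : Tendsto (fun n : ℕ => F (n : ℂ)) atTop (𝓝 (F k)) := by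
    have : (fun n : ℕ => F (n : ℂ)) = fun _ => F k := by ext n; exact hconst _ _
    rw [this]; exact tendsto_const_nhds
  exact tendsto_nhds_unique h1 hL

end Run7.h374
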