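import Mathlib

/-! Infinite products `∏_{j ≠ i} (1 - z / t j)` with `∑ 1 / t j < ∞`. -/

set_option autoImplicit false

namespace Run7.h374

open Complex Filter Topology Metric
open scoped Classical

variable {κ : Type*} (t : κ → ℝ)

/-- the perturbation `-z / t j` for `j ≠ i`, zero for `j = i` -/
noncomputable def fac (i : κ) (z : ℂ) (j : κ) : ℂ := if j = i then 0 else -(z / (t j : ℂ))

/-- `∏_{j ≠ i} (1 - z / t j)` -/
noncomputable def prodExc (i : κ) (z : ℂ) : ℂ := ∏' j, (1 + fac t i z j)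

/-- `∏_j (1 - z / t j)` -/
noncomputable def prodAll (z : ℂ) : ℂ := ∏' j, (1 + -(z / (t j : ℂ)))

variable {t}

lemma norm_div_t (ht : ∀ i, 0 < t i) (z : ℂ) (j : κ) : ‖-(z / (t j : ℂ))‖ = ‖z‖ * (t j)⁻¹ := by
  rw [norm_neg, norm_div, Complex.norm_real, Real.norm_of_nonneg (ht j).le, div_eq_mul_inv]

lemma norm_fac_le (ht : ∀ i, 0 < t i) (i : κ) (z : ℂ) (j : κ) :
    ‖fac t i z j‖ ≤ ‖z‖ * (t j)⁻¹ := by
  unfold fac
  split_ifs with h
  · rw [norm_zero]
    have := ht j
    positivity
  · rw [norm_div_t ht]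

lemma summable_norm_fac (ht : ∀ i, 0 < t i) (hs : Summable fun i => (t i)⁻¹) (i : κ) (z : ℂ) :
    Summable fun j => ‖fac t i z j‖ :=
  Summable.of_nonneg_of_le (fun _ => norm_nonneg _) (norm_fac_le ht i z) (hs.mul_left _)

lemma summable_norm_div (ht : ∀ i, 0 < t i) (hs : Summable fun i => (t i)⁻¹) (z : ℂ) :
    Summable fun j => ‖-(z / (t j : ℂ))‖ := by
  simp only [norm_div_t ht]
  exact hs.mul_left _

lemma differentiable_prodExc (ht : ∀ i, 0 < t i) (hs : Summable fun i => (t i)⁻¹) (i : κ) :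
    Differentiable ℂ (prodExc t i) := by
  intro z
  set R := ‖z‖ + 1 with hR
  have h1 : HasProdLocallyUniformlyOn (fun j w => 1 + fac t i w j)
      (fun w => ∏' j, (1 + fac t i w j)) (ball (0 : ℂ) R) := by
    apply Summable.hasProdLocallyUniformlyOn_one_add isOpen_ball (hs.mul_left R)
    · refine Filter.Eventually.of_forall fun j w hw => ?_
      refine (norm_fac_le ht i w j).trans ?_
      have h2 : ‖w‖ < R := by simpa using hw
      have := ht j
      gcongr
    · intro j
      unfold fac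
      split_ifs
      · exact continuousOn_const
      · exact ((continuous_id.div_const _).neg).continuousOn
  have h2 : DifferentiableOn ℂ (fun w => ∏' j, (1 + fac t i w j)) (ball (0 : ℂ) R) := by
    refine TendstoLocallyUniformlyOn.differentiableOn h1 ?_ isOpen_ball
    refine Filter.Eventually.of_forall fun s => ?_
    apply DifferentiableOn.fun_finsetProd
    intro j _
    unfold fac
    split_ifs
    · fun_prop
    · fun_prop
  exact (h2 z (by simp [hR])).differentiableAt (isOpen_ball.mem_nhds (by simp [hR]))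

lemma prodExc_eq_zero (ht : ∀ i, 0 < t i) {i j : κ} (hij : j ≠ i) :
    prodExc t i (t j : ℂ) = 0 := by
  unfold prodExc
  apply tprod_of_exists_eq_zero
  refine ⟨j, ?_⟩
  unfold fac
  rw [if_neg hij, div_self]
  · ring
  · exact_mod_cast (ht j).ne'

lemma prodExc_ne_zero (ht : ∀ i, 0 < t i) (hs : Summable fun i => (t i)⁻¹) {i : κ} {z : ℂ}
    (h : ∀ j, j ≠ i → z ≠ (t j : ℂ)) : prodExc t i z ≠ 0 := by
  unfold prodExc
  apply tprod_one_add_ne_zero_of_summable
  · intro j
    unfold fac
    split_ifs with hj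
    · simp
    · have h1 : (t j : ℂ) ≠ 0 := by exact_mod_cast (ht j).ne'
      have h2 := h j hj
      intro h3
      apply h2
      field_simp at h3
      linear_combination -h3
  · exact summable_norm_fac ht hs i z

lemma prodAll_ne_zero (ht : ∀ i, 0 < t i) (hs : Summable fun i => (t i)⁻¹) {z : ℂ}
    (h : ∀ j, z ≠ (t j : ℂ)) : prodAll t z ≠ 0 := by
  unfold prodAll
  apply tprod_one_add_ne_zero_of_summable
  · intro j
    have h1 : (t j : ℂ) ≠ 0 := by exact_mod_cast (ht j).ne'
    have h2 := h j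
    intro h3
    apply h2
    field_simp at h3
    linear_combination -h3
  · exact summable_norm_div ht hs z

lemma prodAll_eq (ht : ∀ i, 0 < t i) (hs : Summable fun i => (t i)⁻¹) (i : κ) (z : ℂ) :
    prodAll t z = (1 - z / (t i : ℂ)) * prodExc t i z := by
  have h1 : Multipliable fun j => (1 + fac t i z j) :=
    multipliable_one_add_of_summable (summable_norm_fac ht hs i z)
  have h2 : HasProd (fun j => if j = i then (1 - z / (t i : ℂ)) else 1) (1 - z / (t i : ℂ)) := by
    have := hasProd_single (f := fun j => if j = i then (1 - z / (t i : ℂ)) else 1) i (by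
      intro b hb
      simp [hb])
    simpa using this
  have h3 := (h2.mul h1.hasProd).tprod_eq
  unfold prodAll prodExc
  rw [← h3]
  congr 1
  ext j
  unfold fac
  by_cases hj : j = i
  · subst hj; simp; ring
  · simp [hj]

lemma prodExc_eq_div (ht : ∀ i, 0 < t i) (hs : Summable fun i => (t i)⁻¹) (i : κ) {z : ℂ}
    (hz : z ≠ (t i : ℂ)) :
    -(1 / (t i : ℂ)) * prodExc t i z = prodAll t z / (z - (t i : ℂ)) := by
  have h1 : (t i : ℂ) ≠ 0 := by exact_mod_cast (ht i).ne'
  have h2 : z - (t i : ℂ) ≠ 0 := sub_ne_zero.2 hz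
  rw [prodAll_eq ht hs i z, eq_div_iff h2]
  field_simp
  ring

/-- polynomial-type growth of one factor -/
lemma one_add_le_exp {s δ x : ℝ} (hs : 0 < s) (hδ : 0 < δ) (hx : 0 ≤ x) :
    1 + x * s⁻¹ ≤ (1 + (δ * s)⁻¹) * Real.exp (δ * x) := by
  have h1 : 1 ≤ Real.exp (δ * x) := Real.one_le_exp (by positivity)
  have h2 : δ * x ≤ Real.exp (δ * x) := by
    have := Real.add_one_le_exp (δ * x); linarith
  have h3 : x * s⁻¹ = (δ * s)⁻¹ * (δ * x) := by field_simp
  have h4 : (δ * s)⁻¹ * (δ * x) ≤ (δ * s)⁻¹ * Real.exp (δ * x) := by gcongr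
  rw [h3]; nlinarith

lemma growth_aux (ht : ∀ i, 0 < t i) (hs : Summable fun i => (t i)⁻¹) {ε : ℝ} (hε : 0 < ε) :
    ∃ C : ℝ, 0 < C ∧ ∀ (F : Finset κ) (x : ℝ), 0 ≤ x →
      ∏ j ∈ F, (1 + x * (t j)⁻¹) ≤ C * Real.exp (ε * x) := by
  -- choose a finite set outside of which the sum is small
  obtain ⟨F0, hF0⟩ := hs.vanishing (e := Metric.ball (0:ℝ) (ε / 2)) (Metric.ball_mem_nhds _ (by positivity))
  set δ := ε / (2 * (F0.card + 1)) with hδ
  have hδpos : 0 < δ := by positivity
  refine ⟨∏ j ∈ F0, (1 + (δ * t j)⁻¹), ?_, ?_⟩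
  · apply Finset.prod_pos
    intro j _
    have := ht j
    positivity
  · intro F x hx
    have hone : ∀ j, 1 ≤ 1 + x * (t j)⁻¹ := by
      intro j
      have := ht j
      have : 0 ≤ x * (t j)⁻¹ := by positivity
      linarith
    have hpos : ∀ j, 0 ≤ 1 + x * (t j)⁻¹ := fun j => zero_le_one.trans (hone j)
    have h1 : ∏ j ∈ F, (1 + x * (t j)⁻¹) ≤
        (∏ j ∈ F0, (1 + x * (t j)⁻¹)) * ∏ j ∈ F \ F0, (1 + x * (t j)⁻¹) := by
      have e1 : ∏ j ∈ F, (1 + x * (t j)⁻¹) =
          (∏ j ∈ F ∩ F0, (1 + x * (t j)⁻¹)) * ∏ j ∈ F \ F0, (1 + x * (t j)⁻¹) :=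
        (Finset.prod_inter_mul_prod_sdiff F F0 _).symm
      have e2 : ∏ j ∈ F0, (1 + x * (t j)⁻¹) =
          (∏ j ∈ F0 ∩ F, (1 + x * (t j)⁻¹)) * ∏ j ∈ F0 \ F, (1 + x * (t j)⁻¹) :=
        (Finset.prod_inter_mul_prod_sdiff F0 F _).symm
      have e3 : 1 ≤ ∏ j ∈ F0 \ F, (1 + x * (t j)⁻¹) := Finset.one_le_prod fun j _ => hone j
      have e4 : 0 ≤ ∏ j ∈ F ∩ F0, (1 + x * (t j)⁻¹) := Finset.prod_nonneg fun j _ => hpos j
      have e5 : 0 ≤ ∏ j ∈ F \ F0, (1 + x * (t j)⁻¹) := Finset.prod_nonneg fun j _ => hpos j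
      rw [e1, e2, Finset.inter_comm F0 F]
      have e6 := mul_le_mul_of_nonneg_left e3 e4
      rw [mul_one] at e6
      exact mul_le_mul_of_nonneg_right e6 e5
    refine h1.trans ?_
    have h2 : ∏ j ∈ F \ F0, (1 + x * (t j)⁻¹) ≤ Real.exp (ε / 2 * x) := by
      calc ∏ j ∈ F \ F0, (1 + x * (t j)⁻¹) ≤ ∏ j ∈ F \ F0, Real.exp (x * (t j)⁻¹) := by
            apply Finset.prod_le_prod
            · intro j _; exact hpos j
            · intro j _
              have := Real.add_one_le_exp (x * (t j)⁻¹); linarith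
        _ = Real.exp (∑ j ∈ F \ F0, x * (t j)⁻¹) := (Real.exp_sum _ _).symm
        _ ≤ Real.exp (ε / 2 * x) := by
            apply Real.exp_le_exp.2
            rw [← Finset.mul_sum]
            have h3 := hF0 (F \ F0) Finset.sdiff_disjoint
            have h4 : |∑ j ∈ F \ F0, (t j)⁻¹| < ε / 2 := by simpa [Real.dist_eq] using h3
            have h5 := (abs_lt.1 h4).2
            nlinarith
    have h3 : ∏ j ∈ F0, (1 + x * (t j)⁻¹) ≤ (∏ j ∈ F0, (1 + (δ * t j)⁻¹)) * Real.exp (ε / 2 * x) := by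
      calc ∏ j ∈ F0, (1 + x * (t j)⁻¹) ≤ ∏ j ∈ F0, ((1 + (δ * t j)⁻¹) * Real.exp (δ * x)) := by
            apply Finset.prod_le_prod
            · intro j _; exact hpos j
            · intro j _
              exact one_add_le_exp (ht j) hδpos hx
        _ = (∏ j ∈ F0, (1 + (δ * t j)⁻¹)) * Real.exp (δ * x) ^ F0.card := by
            rw [Finset.prod_mul_distrib, Finset.prod_const]
        _ ≤ _ := by
            have h6 : Real.exp (δ * x) ^ F0.card ≤ Real.exp (ε / 2 * x) := by
              rw [← Real.exp_nat_mul]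
              apply Real.exp_le_exp.2
              have h7 : (F0.card : ℝ) * δ ≤ ε / 2 := by
                rw [hδ]
                have : (0:ℝ) < F0.card + 1 := by positivity
                rw [mul_div_assoc', div_le_div_iff₀ (by positivity) (by positivity)]
                nlinarith
              calc (F0.card : ℝ) * (δ * x) = (F0.card * δ) * x := by ring
                _ ≤ _ := by gcongr
            have h8 : 0 ≤ ∏ j ∈ F0, (1 + (δ * t j)⁻¹) := by
              apply Finset.prod_nonneg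
              intro j _
              have := ht j
              positivity
            gcongr
    calc (∏ j ∈ F0, (1 + x * (t j)⁻¹)) * ∏ j ∈ F \ F0, (1 + x * (t j)⁻¹)
        ≤ ((∏ j ∈ F0, (1 + (δ * t j)⁻¹)) * Real.exp (ε / 2 * x)) * Real.exp (ε / 2 * x) := by
          apply mul_le_mul h3 h2
          · apply Finset.prod_nonneg; intro j _; exact hpos j
          · have h8 : 0 ≤ ∏ j ∈ F0, (1 + (δ * t j)⁻¹) := by
              apply Finset.prod_nonneg
              intro j _
              have := ht j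
              positivity
            positivity
      _ = _ := by
          rw [mul_assoc, ← Real.exp_add]
          congr 2
          ring

lemma growth_prodExc (ht : ∀ i, 0 < t i) (hs : Summable fun i => (t i)⁻¹) {ε : ℝ} (hε : 0 < ε) :
    ∃ C : ℝ, 0 < C ∧ ∀ (i : κ) (z : ℂ), ‖prodExc t i z‖ ≤ C * Real.exp (ε * ‖z‖) := by
  obtain ⟨C, hC, h⟩ := growth_aux ht hs hε
  refine ⟨C, hC, fun i z => ?_⟩
  have h1 : HasProd (fun j => (1 + fac t i z j)) (prodExc t i z) :=
    (multipliable_one_add_of_summable (summable_norm_fac ht hs i z)).hasProd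
  have h2 := h1.norm
  refine le_of_tendsto' h2 fun F => ?_
  refine le_trans ?_ (h F ‖z‖ (norm_nonneg _))
  apply Finset.prod_le_prod
  · intro j _; exact norm_nonneg _
  · intro j _
    refine (norm_add_le _ _).trans ?_
    rw [norm_one]
    have := norm_fac_le ht i z j
    linarith

end Run7.h374
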