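import Pool.Agent.Run7.h374.GapDC
import Pool.Agent.Run7.h374.Bang
import Pool.Agent.Run7.h374.APu
import Pool.Agent.Run7.h374.Final

/-! Spanning for potentials in quasi-analytic classes. -/

set_option autoImplicit false

namespace Run7.h374

open Filter Topology
open scoped ContDiff

/-- density of the polynomials from moment bounds of quasi-analytic type -/
theorem dense_of_moments {κ : Type*} [Countable κ] {t w : κ → ℝ} (ht : ∀ i, 0 < t i)
    (hinj : Function.Injective t) (hw : ∀ i, 0 < w i)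
    (hmom : ∀ k : ℕ, Summable fun i => w i * t i ^ k) {A : ℕ → ℝ} (hA : ∀ k, 0 < A k)
    (hmomA : ∀ k, ∑' i, w i * t i ^ k ≤ A k ^ 2)
    (hmono : ∀ j k, j ≤ k → A (j + 1) / A j ≤ A (k + 1) / A k)
    (hdiv : ¬ Summable fun k => A k / A (k + 1)) : DenseP t w := by
  apply dense_of_no_ann ht hw hmom
  intro a ha hann
  set τ : κ → ℝ := fun i => Real.sqrt (t i) with hτ
  have hτ0 : ∀ i, 0 < τ i := fun i => Real.sqrt_pos.2 (ht i)
  have hτsq : ∀ i, τ i ^ 2 = t i := fun i => Real.sq_sqrt (ht i).le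
  have hτinj : Function.Injective τ := by
    intro i j hij
    apply hinj
    rw [← hτsq i, ← hτsq j, hij]
  -- Cauchy-Schwarz
  set S : ℝ := ∑' i, a i ^ 2 / w i with hS
  have hS0 : 0 ≤ S := tsum_nonneg fun i => by have := hw i; positivity
  have hcs : ∀ k : ℕ, Summable (fun i => |a i| * τ i ^ k) ∧
      ∑' i, |a i| * τ i ^ k ≤ Real.sqrt (S + 1) * A k := by
    intro k
    have h1 : Summable fun i => (|a i| / Real.sqrt (w i)) ^ 2 := by
      refine ha.congr fun i => ?_
      rw [div_pow, sq_abs, Real.sq_sqrt (hw i).le]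
    have h2 : Summable fun i => (Real.sqrt (w i) * τ i ^ k) ^ 2 := by
      refine (hmom k).congr fun i => ?_
      rw [mul_pow, Real.sq_sqrt (hw i).le, ← pow_mul, mul_comm k 2, pow_mul, hτsq]
    have h3 := Real.inner_le_Lp_mul_Lq_tsum_of_nonneg (f := fun i => |a i| / Real.sqrt (w i))
      (g := fun i => Real.sqrt (w i) * τ i ^ k) Real.HolderConjugate.two_two
      (fun i => by positivity) (fun i => by have := hτ0 i; positivity)
      (by simpa using h1) (by simpa using h2)
    have h3' := Real.summable_mul_of_Lp_Lq_of_nonneg (f := fun i => |a i| / Real.sqrt (w i))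
      (g := fun i => Real.sqrt (w i) * τ i ^ k) Real.HolderConjugate.two_two
      (fun i => by positivity) (fun i => by have := hτ0 i; positivity)
      (by simpa using h1) (by simpa using h2)
    have h4 : (fun i => |a i| / Real.sqrt (w i) * (Real.sqrt (w i) * τ i ^ k)) =
        fun i => |a i| * τ i ^ k := by
      ext i
      have := Real.sqrt_pos.2 (hw i)
      field_simp
    rw [h4] at h3 h3'
    refine ⟨h3', h3.trans ?_⟩
    have h5 : (∑' i, (|a i| / Real.sqrt (w i)) ^ (2:ℝ)) ^ ((1:ℝ) / 2) ≤ Real.sqrt (S + 1) := by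
      rw [← Real.sqrt_eq_rpow]
      apply Real.sqrt_le_sqrt
      have : ∑' i, (|a i| / Real.sqrt (w i)) ^ (2:ℝ) = S := by
        rw [hS]; congr 1; ext i
        rw [Real.rpow_two, div_pow, sq_abs, Real.sq_sqrt (hw i).le]
      linarith
    have h6 : (∑' i, (Real.sqrt (w i) * τ i ^ k) ^ (2:ℝ)) ^ ((1:ℝ) / 2) ≤ A k := by
      rw [← Real.sqrt_eq_rpow]
      rw [Real.sqrt_le_left (hA k).le]
      refine le_trans (le_of_eq ?_) (hmomA k)
      congr 1; ext i
      rw [Real.rpow_two, mul_pow, Real.sq_sqrt (hw i).le, ← pow_mul, mul_comm k 2, pow_mul, hτsq]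
    gcongr
  -- the chain
  set g : ℕ → ℝ → ℝ := fun k x => ∑' i, a i * τ i ^ k * Real.cos (τ i * x + k * (Real.pi / 2)) with hg
  have hgbound : ∀ k x, |g k x| ≤ Real.sqrt (S + 1) * A k := by
    intro k x
    have h1 : ∀ i, ‖a i * τ i ^ k * Real.cos (τ i * x + k * (Real.pi / 2))‖ ≤ |a i| * τ i ^ k := by
      intro i
      rw [norm_mul, norm_mul, Real.norm_eq_abs, Real.norm_of_nonneg (pow_nonneg (hτ0 i).le k),
        Real.norm_eq_abs]
      have h2 := Real.abs_cos_le_one (τ i * x + k * (Real.pi / 2))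
      have h3 : 0 ≤ |a i| * τ i ^ k := mul_nonneg (abs_nonneg _) (pow_nonneg (hτ0 i).le k)
      nlinarith
    exact (tsum_of_norm_bounded (hcs k).1.hasSum h1).trans (hcs k).2
  have hgd : ∀ k x, HasDerivAt (g k) (g (k + 1) x) x := by
    intro k x
    refine hasDerivAt_tsum (u := fun i => |a i| * τ i ^ (k + 1)) (hcs (k + 1)).1
      (g := fun i x => a i * τ i ^ k * Real.cos (τ i * x + k * (Real.pi / 2)))
      (g' := fun i x => a i * τ i ^ (k + 1) * Real.cos (τ i * x + ((k + 1 : ℕ) : ℝ) * (Real.pi / 2)))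
      (y₀ := 0) (fun i y => ?_) (fun i y => ?_) ?_ x
    · have h1 : HasDerivAt (fun y : ℝ => τ i * y + k * (Real.pi / 2)) (τ i) y := by
        simpa using ((hasDerivAt_id y).const_mul (τ i)).add_const (k * (Real.pi / 2))
      have h2 := (h1.cos).const_mul (a i * τ i ^ k)
      have e : a i * τ i ^ (k + 1) * Real.cos (τ i * y + ((k + 1 : ℕ) : ℝ) * (Real.pi / 2)) =
          a i * τ i ^ k * (-Real.sin (τ i * y + k * (Real.pi / 2)) * τ i) := by
        have : τ i * y + ((k + 1 : ℕ) : ℝ) * (Real.pi / 2) =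
            (τ i * y + k * (Real.pi / 2)) + Real.pi / 2 := by push_cast; ring
        rw [this, Real.cos_add_pi_div_two]
        ring
      rw [e]
      exact h2
    · rw [norm_mul, norm_mul, Real.norm_eq_abs, Real.norm_of_nonneg (pow_nonneg (hτ0 i).le _),
        Real.norm_eq_abs]
      have h2 := Real.abs_cos_le_one (τ i * y + ((k + 1 : ℕ) : ℝ) * (Real.pi / 2))
      have h3 : 0 ≤ |a i| * τ i ^ (k + 1) := mul_nonneg (abs_nonneg _) (pow_nonneg (hτ0 i).le _)
      nlinarith
    · apply Summable.of_norm_bounded (hcs k).1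
      intro i
      rw [norm_mul, norm_mul, Real.norm_eq_abs, Real.norm_of_nonneg (pow_nonneg (hτ0 i).le k),
        Real.norm_eq_abs]
      have h2 := Real.abs_cos_le_one (τ i * 0 + k * (Real.pi / 2))
      have h3 : 0 ≤ |a i| * τ i ^ k := mul_nonneg (abs_nonneg _) (pow_nonneg (hτ0 i).le k)
      nlinarith
  have hg0 : ∀ k, g k 0 = 0 := by
    intro k
    have e1 : g k 0 = (∑' i, a i * τ i ^ k) * Real.cos (k * (Real.pi / 2)) := by
      simp only [hg]
      rw [← tsum_mul_right]
      congr 1; ext i; rw [mul_zero, zero_add]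
    rcases Nat.even_or_odd' k with ⟨j, hj | hj⟩
    · have e2 : ∑' i, a i * τ i ^ k = 0 := by
        rw [← hann j]
        congr 1; ext i
        rw [hj, pow_mul, hτsq]
      rw [e1, e2, zero_mul]
    · have e2 : Real.cos (k * (Real.pi / 2)) = 0 := by
        rw [Real.cos_eq_zero_iff]
        exact ⟨j, by rw [hj]; push_cast; ring⟩
      rw [e1, e2, mul_zero]
  have hsq : 0 < Real.sqrt (S + 1) := Real.sqrt_pos.2 (by linarith)
  have hzero : ∀ x : ℝ, 0 ≤ x → g 0 x = 0 := by
    intro x hx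
    refine bang hgd (A := fun k => Real.sqrt (S + 1) * A k) (fun k => mul_pos hsq (hA k)) hgbound
      ?_ ?_ hg0 hx
    · intro j k hjk
      have e : ∀ k, Real.sqrt (S + 1) * A (k + 1) / (Real.sqrt (S + 1) * A k) = A (k + 1) / A k := by
        intro k
        have := hA k
        field_simp
      simp only [e]
      exact hmono j k hjk
    · intro hs
      apply hdiv
      refine hs.congr fun k => ?_
      have := hA (k + 1)
      field_simp
  apply cos_unique hτ0 hτinj
  · have := (hcs 0).1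
    simpa using this
  · intro x hx
    have := hzero x hx
    simp only [hg] at this
    simpa using this

/-- spanning for potentials in a regular quasi-analytic class -/
theorem spans_of_dc {m : ℕ → ℝ} (h : IsReg m) (hdiv : ¬ Summable fun k => fm m k / fm m (k + 1))
    {Q ρ : ℝ} (hQ : 0 ≤ Q) (hρ : 0 ≤ ρ) {q : ℝ → ℝ} (hq : IsPot q)
    (hK : ∀ i x, ‖iteratedDeriv i (fun x => (q x : ℂ)) x‖ ≤ Q * ρ ^ i * fm m i)
    {lam : ℕ → ℝ} (hlam : IsHillSpectrum q lam) : PSpans ℂ lam := by
  have hpos : ∀ n, 0 < tt lam n := fun n => lt_of_lt_of_le one_pos (tt_ge hlam n)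
  rw [spans_iff_dense hq hlam]
  obtain ⟨C, A, hC, hA, hgap⟩ := gap_dc h hQ hρ hq hK hlam
  obtain ⟨M, hM0, hM⟩ := bounded_dist hq hlam
  set L : ℝ := Real.pi ^ 2 + (M + |1 - lam 0|) with hL
  have hL1 : 1 ≤ L := by
    have h1 : (1:ℝ) ≤ Real.pi ^ 2 := by nlinarith [Real.pi_gt_three]
    have h2 : 0 ≤ M + |1 - lam 0| := by positivity
    linarith
  set Z : ℝ := ∑' n : ℕ+, 1 / (n : ℝ) ^ 2 with hZ
  have hZ0 : 0 ≤ Z := tsum_nonneg fun n => by positivity
  -- moments
  have hsz : Summable fun n : Op lam => 1 / ((n : ℕ+) : ℝ) ^ 2 :=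
    summable_pnat_sq.comp_injective Subtype.val_injective
  have hmomA : ∀ k, ∑' n : Op lam, gap lam (n : ℕ+) * tt lam n ^ k ≤
      (C * L ^ k * A ^ (2 * k + 6) * fm m (2 * k + 6)) * (Z + 1) := by
    intro k
    have hD : 0 ≤ C * L ^ k * A ^ (2 * k + 6) * fm m (2 * k + 6) := by
      have := h.fm_pos (2 * k + 6)
      positivity
    have hterm : ∀ n : Op lam, gap lam (n : ℕ+) * tt lam n ^ k ≤
        (C * L ^ k * A ^ (2 * k + 6) * fm m (2 * k + 6)) * (1 / ((n : ℕ+) : ℝ) ^ 2) := by
      intro n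
      have h2 := tt_ge hlam n
      have h4 : (1:ℝ) ≤ ((n : ℕ+) : ℝ) := by exact_mod_cast (n : ℕ+).one_le
      have hnp : (0:ℝ) < ((n : ℕ+) : ℝ) := by linarith
      have h3 := (abs_le.1 (hM ((n : ℕ+) : ℕ))).2
      have h5 : tt lam n ≤ L * ((n : ℕ+) : ℝ) ^ 2 := by
        unfold tt
        have h6 := le_abs_self (1 - lam 0)
        have h7 : (1:ℝ) ≤ ((n : ℕ+) : ℝ) ^ 2 := one_le_pow₀ h4
        have h8 : M + |1 - lam 0| ≤ (M + |1 - lam 0|) * ((n : ℕ+) : ℝ) ^ 2 := by
          have : 0 ≤ M + |1 - lam 0| := by positivity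
          nlinarith
        rw [hL, add_mul]
        linarith
      have h9 := hgap ((n : ℕ+) : ℕ) (2 * k + 6) (n : ℕ+).one_le (by omega)
      have h10 := n.2
      have h11 := h.fm_pos (2 * k + 6)
      calc gap lam (n : ℕ+) * tt lam n ^ k
          ≤ (C * ((n : ℕ+) : ℝ) ^ 4 * ((A / ((n : ℕ+) : ℝ)) ^ (2 * k + 6) * fm m (2 * k + 6))) *
            (L * ((n : ℕ+) : ℝ) ^ 2) ^ k := by
            have : 0 ≤ tt lam n := by linarith
            gcongr
        _ = (C * L ^ k * A ^ (2 * k + 6) * fm m (2 * k + 6)) * (1 / ((n : ℕ+) : ℝ) ^ 2) := by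
            rw [div_pow, mul_pow L, ← pow_mul, pow_add ((n : ℕ+) : ℝ) (2 * k) 6]
            field_simp
    have hs1 := hsz.mul_left (C * L ^ k * A ^ (2 * k + 6) * fm m (2 * k + 6))
    have hs2 := summable_mom hq hlam k
    calc ∑' n : Op lam, gap lam (n : ℕ+) * tt lam n ^ k
        ≤ ∑' n : Op lam, (C * L ^ k * A ^ (2 * k + 6) * fm m (2 * k + 6)) * (1 / ((n : ℕ+) : ℝ) ^ 2) :=
          hs2.tsum_le_tsum hterm hs1
      _ = (C * L ^ k * A ^ (2 * k + 6) * fm m (2 * k + 6)) * ∑' n : Op lam, 1 / ((n : ℕ+) : ℝ) ^ 2 := by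
          rw [tsum_mul_left]
      _ ≤ (C * L ^ k * A ^ (2 * k + 6) * fm m (2 * k + 6)) * Z := by
          gcongr
          exact tsum_comp_le_tsum_of_inj summable_pnat_sq (fun n => by positivity)
            Subtype.val_injective
      _ ≤ _ := by
          gcongr
          linarith
  -- the majorising sequence
  set D : ℕ → ℝ := fun k => (C * L ^ k * A ^ (2 * k + 6) * fm m (2 * k + 6)) * (Z + 1) with hDdef
  have hDpos : ∀ k, 0 < D k := by
    intro k
    have := h.fm_pos (2 * k + 6)
    have : 0 < L := by linarith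
    have : 0 < A := by linarith
    positivity
  have hratio : ∀ k, D (k + 1) / D k = L * A ^ 2 * ((fm m (2 * k + 8) / fm m (2 * k + 7)) *
      (fm m (2 * k + 7) / fm m (2 * k + 6))) := by
    intro k
    have h1 := h.fm_pos (2 * k + 6)
    have h2 := h.fm_pos (2 * k + 7)
    have h3 : 0 < L := by linarith
    have h4 : 0 < A := by linarith
    simp only [hDdef]
    rw [show 2 * (k + 1) + 6 = 2 * k + 8 by ring]
    rw [pow_succ L k, show 2 * k + 8 = 2 * k + 6 + 2 by ring, pow_add A (2 * k + 6) 2]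
    field_simp
  have hr1 : ∀ k, fm m (2 * k + 8) / fm m (2 * k + 7) ≥ fm m (2 * k + 7) / fm m (2 * k + 6) :=
    fun k => h.fm_ratio_mono (show 2 * k + 6 ≤ 2 * k + 7 by omega)
  refine dense_of_moments (A := fun k => Real.sqrt (D k)) hpos (tt_inj hlam) (fun n => n.2)
    (summable_mom hq hlam) (fun k => Real.sqrt_pos.2 (hDpos k)) ?_ ?_ ?_
  · intro k
    rw [Real.sq_sqrt (hDpos k).le]
    exact hmomA k
  · intro j k hjk
    rw [← Real.sqrt_div' _ (hDpos j).le, ← Real.sqrt_div' _ (hDpos k).le]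
    apply Real.sqrt_le_sqrt
    rw [hratio, hratio]
    have e1 := h.fm_ratio_mono (show 2 * j + 7 ≤ 2 * k + 7 by omega)
    have e2 := h.fm_ratio_mono (show 2 * j + 6 ≤ 2 * k + 6 by omega)
    have e1' : fm m (2 * j + 8) / fm m (2 * j + 7) ≤ fm m (2 * k + 8) / fm m (2 * k + 7) := e1
    have e2' : fm m (2 * j + 7) / fm m (2 * j + 6) ≤ fm m (2 * k + 7) / fm m (2 * k + 6) := e2
    have p1 := h.fm_pos (2 * j + 6)
    have p2 := h.fm_pos (2 * j + 7)
    have p3 := h.fm_pos (2 * k + 8)
    have p4 := h.fm_pos (2 * k + 7)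
    gcongr
  · intro hs
    apply hdiv
    -- compare
    have hL0 : 0 < L := by linarith
    have hA0 : 0 < A := by linarith
    have h1 : ∀ k, fm m (2 * k + 7) / fm m (2 * k + 8) ≤
        Real.sqrt (L * A ^ 2) * (Real.sqrt (D k) / Real.sqrt (D (k + 1))) := by
      intro k
      have p1 := h.fm_pos (2 * k + 6)
      have p2 := h.fm_pos (2 * k + 7)
      have p3 := h.fm_pos (2 * k + 8)
      rw [← Real.sqrt_div' _ (hDpos (k + 1)).le, ← Real.sqrt_mul (by positivity)]
      apply Real.le_sqrt_of_sq_le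
      have h2 : D k / D (k + 1) = (D (k + 1) / D k)⁻¹ := by rw [inv_div]
      rw [h2, hratio]
      have h3 := hr1 k
      set x := fm m (2 * k + 8) / fm m (2 * k + 7) with hx
      set y := fm m (2 * k + 7) / fm m (2 * k + 6) with hy
      have hx0 : 0 < x := by positivity
      have hy0 : 0 < y := by positivity
      have h4 : fm m (2 * k + 7) / fm m (2 * k + 8) = x⁻¹ := by rw [hx, inv_div]
      rw [h4]
      have h5 : L * A ^ 2 * (L * A ^ 2 * (x * y))⁻¹ = (x * y)⁻¹ := by
        have : 0 < L * A ^ 2 := by positivity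
        field_simp
      rw [h5, inv_pow]
      apply inv_anti₀ (by positivity)
      nlinarith
    have h2 : Summable fun k => fm m (2 * k + 7) / fm m (2 * k + 8) := by
      refine Summable.of_nonneg_of_le (fun k => ?_) h1 (hs.mul_left _)
      have p2 := h.fm_pos (2 * k + 7)
      have p3 := h.fm_pos (2 * k + 8)
      positivity
    -- monotone: the even terms are dominated by the odd ones
    have hanti : ∀ j k, j ≤ k → fm m k / fm m (k + 1) ≤ fm m j / fm m (j + 1) := by
      intro j k hjk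
      have p1 := h.fm_pos j
      have p2 := h.fm_pos (j + 1)
      have p3 := h.fm_pos k
      have p4 := h.fm_pos (k + 1)
      have h3 := h.fm_ratio_mono hjk
      have h4 : fm m k / fm m (k + 1) = (fm m (k + 1) / fm m k)⁻¹ := by rw [inv_div]
      have h5 : fm m j / fm m (j + 1) = (fm m (j + 1) / fm m j)⁻¹ := by rw [inv_div]
      rw [h4, h5]
      exact inv_anti₀ (by positivity) h3
    have h3 : Summable fun k => fm m (2 * k + 8) / fm m (2 * k + 9) := by
      refine Summable.of_nonneg_of_le (fun k => ?_) (fun k => ?_) h2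
      · have p2 := h.fm_pos (2 * k + 8)
        have p3 := h.fm_pos (2 * k + 9)
        positivity
      · exact hanti (2 * k + 7) (2 * k + 8) (by omega)
    have h4 : Summable fun k => fm m (k + 7) / fm m (k + 7 + 1) := by
      apply Summable.even_add_odd
      · refine h2.congr fun k => ?_
        rfl
      · refine h3.congr fun k => ?_
        have e1 : 2 * k + 1 + 7 = 2 * k + 8 := by ring
        rw [e1]
    exact (summable_nat_add_iff 7).1 h4

end Run7.h374
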