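import Pool.Agent.Run7.h374.Resid
import Pool.Agent.Run7.h374.Asym

/-! Quasi-modes bound the lengths of the lacunae. -/

set_option autoImplicit false

namespace Run7.h374

open Filter Topology MeasureTheory AddCircle
open scoped ComplexConjugate ContDiff

lemma norm_cls_le {f : C(Cir, ℂ)} {C : ℝ} (hC : 0 ≤ C) (h : ∀ x, ‖f x‖ ≤ C) : ‖cls f‖ ≤ C := by
  have h1 := Lp.norm_le_of_ae_bound (p := 2) (μ := haarAddCircle (T := (2:ℝ))) (f := cls f) hC (by
    filter_upwards [cls_coeFn f] with x hx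
    rw [hx]; exact h x)
  simpa [measureUnivNNReal] using h1

lemma norm_cls_sub_le {f g : C(Cir, ℂ)} {C : ℝ} (hC : 0 ≤ C) (h : ∀ x, ‖f x - g x‖ ≤ C) :
    ‖cls f - cls g‖ ≤ C := by
  rw [← cls_sub]
  exact norm_cls_le hC h

lemma pw_per (n : ℕ) : Function.Periodic (pw n) 2 := by
  intro x
  unfold pw
  have : (Real.pi * n * Complex.I * ((x + 2 : ℝ) : ℂ) : ℂ) =
      Real.pi * n * Complex.I * x + n * (2 * Real.pi * Complex.I) := by
    push_cast; ring
  rw [this, Complex.exp_add, Complex.exp_nat_mul_two_pi_mul_I, mul_one]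

lemma pw_eq_fourier (n : ℕ) (x : ℝ) : pw n x = fourier (T := 2) (n : ℤ) (x : Cir) := by
  rw [fourier_coe_apply]
  unfold pw
  congr 1
  push_cast
  ring

lemma conj_pw_eq_fourier (n : ℕ) (x : ℝ) :
    conj (pw n x) = fourier (T := 2) (-(n : ℤ)) (x : Cir) := by
  rw [pw_eq_fourier, fourier_neg]

variable {q : ℝ → ℝ} {w : ℕ → ℝ → ℂ} {E : ℕ → ℂ}

lemma WN_per (h : WKB q w E) (ε : ℂ) (N : ℕ) : Function.Periodic (WN w ε N) 2 := by
  intro x
  unfold WN
  apply Finset.sum_congr rfl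
  intro j _
  rw [show x + 2 = x + 1 + 1 by ring, h.per, h.per]

lemma uN_per (h : WKB q w E) (n N : ℕ) : Function.Periodic (uN w n N) 2 := by
  intro x
  unfold uN
  rw [pw_per n x, WN_per h _ N x]

lemma uN_smooth (h : WKB q w E) (n N : ℕ) : ContDiff ℝ ∞ (uN w n N) :=
  (pw_smooth n).mul (WN_smooth h _ N)

/-- a function with small residual is a quasi-mode -/
lemma quasi_of_fun (hq : Continuous q) (hper : ∀ x, q (x + 1) = q x) {φ : HilbertBasis ℕ ℂ HH}
    {lam : ℕ → ℝ} (hrel : Rel bas dd (QQ hq hper) φ lam) {u : ℝ → ℂ} (hu : ContDiff ℝ 2 u)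
    (hp : Function.Periodic u 2) {Λ : ℂ} {δ : ℝ}
    (hδ : ∀ x, ‖-(deriv (deriv u) x) + (q x : ℂ) * u x - Λ * u x‖ ≤ δ) :
    ∃ g : HH, IsD φ lam (cls (toC u hu.continuous hp)) g ∧
      ‖g - Λ • cls (toC u hu.continuous hp)‖ ≤ δ := by
  have hδ0 : 0 ≤ δ := (norm_nonneg _).trans (hδ 0)
  have h1 := hrel.isD (sym_QQ hq hper) (isD_of_C2 hu hp)
  refine ⟨_, h1, ?_⟩
  have h2 : QQ hq hper (cls (toC u hu.continuous hp)) =
      cls (qC q hq hper * toC u hu.continuous hp) := mulOp_cls _ _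
  rw [h2, ← cls_smul, ← cls_add, ← cls_sub]
  apply norm_cls_le hδ0
  intro x
  induction x using QuotientAddGroup.induction_on with
  | H x => exact hδ x

lemma im_bound {φ : HilbertBasis ℕ ℂ HH} {lam : ℕ → ℝ} {f g : HH} (h : IsD φ lam f g) {Λ : ℂ}
    {δ : ℝ} (hδ : ‖g - Λ • f‖ ≤ δ) : ‖g - ((Λ.re : ℝ) : ℂ) • f‖ ≤ 2 * δ := by
  have h1 : (inner ℂ f g : ℂ).im = 0 := by
    have e1 := h.symm_inner h
    have e2 : inner ℂ g f = conj (inner ℂ f g) := (inner_conj_symm _ _).symm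
    rw [e2] at e1
    have := congrArg Complex.im e1
    rw [Complex.conj_im] at this
    linarith
  have h2 : (inner ℂ f (g - Λ • f) : ℂ).im = -(Λ.im * ‖f‖ ^ 2) := by
    have e : (inner ℂ f f : ℂ) = ((‖f‖ ^ 2 : ℝ) : ℂ) := by
      rw [inner_self_eq_norm_sq_to_K]
      norm_cast
    rw [inner_sub_right, inner_smul_right, Complex.sub_im, h1, e, Complex.mul_im,
      Complex.ofReal_re, Complex.ofReal_im]
    ring
  have h3 : |Λ.im| * ‖f‖ ^ 2 ≤ ‖f‖ * δ := by
    calc |Λ.im| * ‖f‖ ^ 2 = |(inner ℂ f (g - Λ • f) : ℂ).im| := by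
          rw [h2, abs_neg, abs_mul, abs_of_nonneg (sq_nonneg ‖f‖)]
      _ ≤ ‖(inner ℂ f (g - Λ • f) : ℂ)‖ := Complex.abs_im_le_norm _
      _ ≤ ‖f‖ * ‖g - Λ • f‖ := norm_inner_le_norm _ _
      _ ≤ ‖f‖ * δ := by gcongr
  have hδ0 : 0 ≤ δ := (norm_nonneg _).trans hδ
  have h4 : |Λ.im| * ‖f‖ ≤ δ := by
    rcases (norm_nonneg f).eq_or_lt with h0 | h0
    · rw [← h0, mul_zero]; exact hδ0
    · have : ‖f‖ * (|Λ.im| * ‖f‖) ≤ ‖f‖ * δ := by nlinarith
      exact le_of_mul_le_mul_left this h0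
  have h5 : g - ((Λ.re : ℝ) : ℂ) • f = (g - Λ • f) + (((Λ.im : ℝ) : ℂ) * Complex.I) • f := by
    have : Λ • f = ((Λ.re : ℝ) : ℂ) • f + (((Λ.im : ℝ) : ℂ) * Complex.I) • f := by
      rw [← add_smul, Complex.re_add_im]
    rw [this]; abel
  rw [h5]
  refine (norm_add_le _ _).trans ?_
  rw [norm_smul, norm_mul, Complex.norm_I, mul_one, Complex.norm_real, Real.norm_eq_abs]
  linarith

lemma lower_bound {F₁ F₂ : HH} {n : ℕ} (hn : 1 ≤ n) (h1 : ‖F₁ - bas (n : ℤ)‖ ≤ 1 / 4)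
    (h2 : ‖F₂ - bas (-(n : ℤ))‖ ≤ 1 / 4) (α β : ℂ) :
    1 / 4 * (‖α‖ + ‖β‖) ≤ ‖α • F₁ + β • F₂‖ := by
  set e₁ : HH := bas (n : ℤ) with he₁
  set e₂ : HH := bas (-(n : ℤ)) with he₂
  have hne : (n : ℤ) ≠ -(n : ℤ) := by omega
  have i11 : inner ℂ e₁ e₁ = (1 : ℂ) := by
    rw [he₁, inner_self_eq_norm_sq_to_K, bas.orthonormal.1]; simp
  have i22 : inner ℂ e₂ e₂ = (1 : ℂ) := by
    rw [he₂, inner_self_eq_norm_sq_to_K, bas.orthonormal.1]; simp
  have i12 : inner ℂ e₁ e₂ = (0 : ℂ) := bas.orthonormal.2 hne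
  have i21 : inner ℂ e₂ e₁ = (0 : ℂ) := bas.orthonormal.2 hne.symm
  have n1 : ‖e₁‖ = 1 := bas.orthonormal.1 _
  have n2 : ‖e₂‖ = 1 := bas.orthonormal.1 _
  have a1 : ‖α‖ ≤ ‖α • e₁ + β • e₂‖ := by
    have := norm_inner_le_norm (𝕜 := ℂ) e₁ (α • e₁ + β • e₂)
    rw [inner_add_right, inner_smul_right, inner_smul_right, i11, i12, mul_one, mul_zero,
      add_zero, n1, one_mul] at this
    exact this
  have a2 : ‖β‖ ≤ ‖α • e₁ + β • e₂‖ := by
    have := norm_inner_le_norm (𝕜 := ℂ) e₂ (α • e₁ + β • e₂)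
    rw [inner_add_right, inner_smul_right, inner_smul_right, i21, i22, mul_one, mul_zero,
      zero_add, n2, one_mul] at this
    exact this
  have a3 : ‖α • e₁ + β • e₂‖ ≤ ‖α • F₁ + β • F₂‖ + (‖α‖ * (1 / 4) + ‖β‖ * (1 / 4)) := by
    have e : α • e₁ + β • e₂ = (α • F₁ + β • F₂) - (α • (F₁ - e₁) + β • (F₂ - e₂)) := by
      simp only [smul_sub]; abel
    rw [e]
    refine (norm_sub_le _ _).trans ?_
    gcongr
    refine (norm_add_le _ _).trans ?_
    rw [norm_smul, norm_smul]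
    gcongr
  linarith

/-- the lengths of the lacunae are controlled by the remainder -/
theorem gap_le (hq : Continuous q) (hper : ∀ x, q (x + 1) = q x)
    (hqs : ContDiff ℝ ∞ (fun x => (q x : ℂ))) (h : WKB q w E) {lam : ℕ → ℝ}
    (hlam : IsHillSpectrum q lam) {K : ℕ → ℝ} {B : ℕ → ℕ → ℝ} (hB : IsMajorant K B)
    {N n : ℕ} (hn : 1 ≤ n)
    (hK : ∀ i ≤ N + 1, ∀ x, ‖iteratedDeriv i (fun x => (q x : ℂ)) x‖ ≤ K i)
    (hA : ∑ j ∈ Finset.range N, (1 / (2 * Real.pi * n)) ^ (j + 1) * B (j + 1) 0 ≤ 1 / 4)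
    (hδ : dlt K B N (1 / (2 * Real.pi * n)) ≤ 1)
    (hbig : 3 * K 0 + 8 < Real.pi ^ 2 * (2 * n - 1)) :
    gap lam n ≤ 16 * dlt K B N (1 / (2 * Real.pi * n)) := by
  obtain ⟨φ, hrel⟩ := exists_nat_basis hq hper hlam
  set δ := dlt K B N (1 / (2 * Real.pi * n)) with hδdef
  set Λ := LN E n N with hΛ
  have hres : ∀ x, ‖-(deriv (deriv (uN w n N)) x) + (q x : ℂ) * uN w n N x - Λ * uN w n N x‖ ≤ δ := by
    intro x
    rw [hΛ, residual h hn N x, norm_mul, norm_pw, one_mul]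
    exact norm_RemN_le h hqs hB hK x
  have hδ0 : 0 ≤ δ := (norm_nonneg _).trans (hres 0)
  have hu2 : ContDiff ℝ 2 (uN w n N) := (uN_smooth h n N).of_le
    (WithTop.coe_le_coe.2 le_top)
  have hup := uN_per h n N
  -- the conjugate function
  set v : ℝ → ℂ := fun x => conj (uN w n N x) with hv
  have hconj : ∀ (f : ℝ → ℂ), deriv (fun x => conj (f x)) = fun x => conj (deriv f x) := by
    intro f
    exact deriv.star'
  have hv2 : ContDiff ℝ 2 v := Complex.conjCLE.contDiff.comp hu2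
  have hvp : Function.Periodic v 2 := by
    intro x
    show conj (uN w n N (x + 2)) = conj (uN w n N x)
    rw [hup x]
  have hres' : ∀ x, ‖-(deriv (deriv v) x) + (q x : ℂ) * v x - conj Λ * v x‖ ≤ δ := by
    intro x
    have e1 : deriv v = fun x => conj (deriv (uN w n N) x) := hconj _
    have e2 : deriv (deriv v) x = conj (deriv (deriv (uN w n N)) x) := by
      rw [e1, hconj]
    have e3 : -(deriv (deriv v) x) + (q x : ℂ) * v x - conj Λ * v x =
        conj (-(deriv (deriv (uN w n N)) x) + (q x : ℂ) * uN w n N x - Λ * uN w n N x) := by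
      rw [e2, hv]
      simp only [map_sub, map_add, map_neg, map_mul, Complex.conj_ofReal]
    rw [e3, Complex.norm_conj]
    exact hres x
  obtain ⟨g₁, hD₁, hg₁⟩ := quasi_of_fun hq hper hrel hu2 hup hres
  obtain ⟨g₂, hD₂, hg₂⟩ := quasi_of_fun hq hper hrel hv2 hvp hres'
  have hg₁' := im_bound hD₁ hg₁
  have hg₂' := im_bound hD₂ hg₂
  rw [Complex.conj_re] at hg₂'
  -- closeness to the exponentials
  have hW : ∀ x, ‖WN w (eps n) N x - 1‖ ≤ 1 / 4 := fun x =>
    (norm_WN_sub_one_le h hqs hB hK x).trans hA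
  have hb : ∀ k : ℤ, (bas k : HH) = cls (fourier k) := by
    intro k
    rw [coe_fourierBasis]
  have hc₁ : ‖cls (toC (uN w n N) hu2.continuous hup) - bas (n : ℤ)‖ ≤ 1 / 4 := by
    rw [hb]
    apply norm_cls_sub_le (by norm_num)
    intro x
    induction x using QuotientAddGroup.induction_on with
    | H x =>
      have e : toC (uN w n N) hu2.continuous hup (x : Cir) = pw n x * WN w (eps n) N x := rfl
      have e' : toC (uN w n N) hu2.continuous hup (x : Cir) - fourier (n : ℤ) (x : Cir) =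
          pw n x * (WN w (eps n) N x - 1) := by
        rw [e, ← pw_eq_fourier]; ring
      show ‖toC (uN w n N) hu2.continuous hup (x : Cir) - fourier (n : ℤ) (x : Cir)‖ ≤ 1 / 4
      rw [e', norm_mul, norm_pw, one_mul]
      exact hW x
  have hc₂ : ‖cls (toC v hv2.continuous hvp) - bas (-(n : ℤ))‖ ≤ 1 / 4 := by
    rw [hb]
    apply norm_cls_sub_le (by norm_num)
    intro x
    induction x using QuotientAddGroup.induction_on with
    | H x =>
      have e : toC v hv2.continuous hvp (x : Cir) = conj (pw n x * WN w (eps n) N x) := rfl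
      have e' : toC v hv2.continuous hvp (x : Cir) - fourier (-(n : ℤ)) (x : Cir) =
          conj (pw n x * (WN w (eps n) N x - 1)) := by
        rw [e, ← conj_pw_eq_fourier, ← map_sub]; congr 1; ring
      show ‖toC v hv2.continuous hvp (x : Cir) - fourier (-(n : ℤ)) (x : Cir)‖ ≤ 1 / 4
      rw [e', Complex.norm_conj, norm_mul, norm_pw, one_mul]
      exact hW x
  have hlow := lower_bound hn hc₁ hc₂
  have hqm := fun j₀ => quasimode hD₁ hD₂ (by norm_num : (0:ℝ) < 1 / 4) (by positivity) hg₁' hg₂'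
    hlow j₀
  -- all the other eigenvalues are far away
  have hqK : ‖qC q hq hper‖ ≤ K 0 := by
    rw [ContinuousMap.norm_le _ ((norm_nonneg _).trans (hK 0 (Nat.zero_le _) 0))]
    intro x
    induction x using QuotientAddGroup.induction_on with
    | H x =>
      have := hK 0 (Nat.zero_le _) x
      rw [iteratedDeriv_zero] at this
      exact this
  have hΛ2 : |Λ.re - Real.pi ^ 2 * n ^ 2| ≤ 2 * K 0 := by
    have h1 := norm_LN_sub_le h hqs hB hK hA
    have h2 := (Complex.abs_re_le_norm _).trans h1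
    have h3 : (LN E n N - (Real.pi : ℂ) ^ 2 * (n : ℂ) ^ 2).re = Λ.re - Real.pi ^ 2 * n ^ 2 := by
      rw [Complex.sub_re]
      congr 1
      have : ((Real.pi : ℂ) ^ 2 * (n : ℂ) ^ 2) = ((Real.pi ^ 2 * (n : ℝ) ^ 2 : ℝ) : ℂ) := by
        push_cast; ring
      rw [this, Complex.ofReal_re]
    rwa [h3] at h2
  have hfar : ∀ j, j ≠ 2 * n → j ≠ 2 * n - 1 → 8 < |lam j - Λ.re| := by
    intro j hj1 hj2
    have h1 := (abs_lam_sub hq hper hlam j).trans hqK
    have h2 : Real.pi ^ 2 * (2 * n - 1) ≤ |lam0 j - Real.pi ^ 2 * n ^ 2| := by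
      have hn1 : (1:ℝ) ≤ n := by exact_mod_cast hn
      unfold lam0
      rw [← mul_sub, abs_mul, abs_of_nonneg (by positivity : 0 ≤ Real.pi ^ 2)]
      apply mul_le_mul_of_nonneg_left _ (by positivity)
      rcases lt_or_ge j (2 * n - 1) with hj | hj
      · have h3 : (((j + 1) / 2 : ℕ) : ℝ) ≤ n - 1 := by
          have : (j + 1) / 2 + 1 ≤ n := by omega
          have : (((j + 1) / 2 : ℕ) : ℝ) + 1 ≤ n := by exact_mod_cast this
          linarith
        have h4 : (0:ℝ) ≤ (((j + 1) / 2 : ℕ) : ℝ) := by positivity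
        rw [abs_sub_comm]
        refine le_trans ?_ (le_abs_self _)
        nlinarith
      · have h3 : (n : ℝ) + 1 ≤ (((j + 1) / 2 : ℕ) : ℝ) := by
          have : n + 1 ≤ (j + 1) / 2 := by omega
          exact_mod_cast this
        refine le_trans ?_ (le_abs_self _)
        nlinarith
    have h3 : |lam0 j - Real.pi ^ 2 * n ^ 2| ≤ |lam j - Λ.re| + (|lam j - lam0 j| +
        |Λ.re - Real.pi ^ 2 * n ^ 2|) := by
      have e : lam0 j - Real.pi ^ 2 * n ^ 2 = (lam j - Λ.re) + (-(lam j - lam0 j) +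
        (Λ.re - Real.pi ^ 2 * n ^ 2)) := by ring
      rw [e]
      refine (abs_add_le _ _).trans ?_
      gcongr
      refine (abs_add_le _ _).trans ?_
      rw [abs_neg]
    linarith
  obtain ⟨j, hj, hj'⟩ := hqm (2 * n)
  obtain ⟨i, hi, hi'⟩ := hqm (2 * n - 1)
  have hval : 2 * δ / (1 / 4) = 8 * δ := by ring
  rw [hval] at hj' hi'
  have hj2 : j = 2 * n - 1 := by
    by_contra hcon
    have := hfar j hj hcon
    linarith
  have hi2 : i = 2 * n := by
    by_contra hcon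
    have := hfar i hcon hi
    linarith
  rw [hj2] at hj'
  rw [hi2] at hi'
  unfold gap
  rw [abs_le] at hj' hi'
  linarith [hj'.1, hi'.2]

end Run7.h374
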