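import Pool.Agent.Run7.h374.Major

/-! The residual of the truncated formal solution. -/

set_option autoImplicit false

namespace Run7.h374

open Filter Topology MeasureTheory
open scoped ComplexConjugate ContDiff

/-- the index set of the remainder -/
def remIdx (N : ℕ) : Finset (ℕ × ℕ) :=
  (Finset.range N ×ˢ Finset.range (N + 1)).filter fun p => N ≤ p.1 + p.2

lemma alg_rem (a b E : ℕ → ℂ) (q ε : ℂ) (N : ℕ) :
    (∑ j ∈ Finset.range (N + 1), ε ^ j * (-a j + q * b j)) -
      (∑ j ∈ Finset.range N, ε ^ j * (-a j + q * b j - ∑ i ∈ Finset.range (j + 1), E i * b (j - i))) -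
      (∑ i ∈ Finset.range N, ε ^ i * E i) * (∑ l ∈ Finset.range (N + 1), ε ^ l * b l) =
    ε ^ N * (-a N + q * b N) - ∑ p ∈ remIdx N, ε ^ (p.1 + p.2) * (E p.1 * b p.2) := by
  have h1 : ∑ j ∈ Finset.range N, ε ^ j * (-a j + q * b j - ∑ i ∈ Finset.range (j + 1), E i * b (j - i)) =
      ∑ j ∈ Finset.range N, ε ^ j * (-a j + q * b j) -
      ∑ j ∈ Finset.range N, ∑ i ∈ Finset.range (j + 1), ε ^ j * (E i * b (j - i)) := by
    rw [← Finset.sum_sub_distrib]
    apply Finset.sum_congr rfl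
    intro j _
    rw [mul_sub, Finset.mul_sum]
  have h2 : ∑ j ∈ Finset.range N, ∑ i ∈ Finset.range (j + 1), ε ^ j * (E i * b (j - i)) =
      ∑ p ∈ (Finset.range N ×ˢ Finset.range (N + 1)).filter (fun p => ¬ N ≤ p.1 + p.2),
        ε ^ (p.1 + p.2) * (E p.1 * b p.2) := by
    rw [Finset.sum_sigma']
    apply Finset.sum_nbij' (fun p => (p.2, p.1 - p.2)) (fun p => ⟨p.1 + p.2, p.1⟩)
    · rintro ⟨j, i⟩ h
      simp only [Finset.mem_sigma, Finset.mem_range] at h
      simp only [Finset.mem_filter, Finset.mem_product, Finset.mem_range]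
      omega
    · rintro ⟨i, l⟩ h
      simp only [Finset.mem_filter, Finset.mem_product, Finset.mem_range] at h
      simp only [Finset.mem_sigma, Finset.mem_range]
      omega
    · rintro ⟨j, i⟩ h
      simp only [Finset.mem_sigma, Finset.mem_range] at h
      have hji : i + (j - i) = j := by omega
      show (⟨i + (j - i), i⟩ : (_ : ℕ) × ℕ) = ⟨j, i⟩
      rw [hji]
    · rintro ⟨i, l⟩ h
      show (i, i + l - i) = (i, l)
      rw [Nat.add_sub_cancel_left]
    · rintro ⟨j, i⟩ h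
      simp only [Finset.mem_sigma, Finset.mem_range] at h
      simp only
      rw [show i + (j - i) = j by omega]
  have h3 : (∑ i ∈ Finset.range N, ε ^ i * E i) * (∑ l ∈ Finset.range (N + 1), ε ^ l * b l) =
      ∑ p ∈ Finset.range N ×ˢ Finset.range (N + 1), ε ^ (p.1 + p.2) * (E p.1 * b p.2) := by
    rw [Finset.sum_mul_sum, Finset.sum_product]
    apply Finset.sum_congr rfl
    intro i _
    apply Finset.sum_congr rfl
    intro l _
    rw [pow_add]; ring
  have h4 := Finset.sum_filter_add_sum_filter_not (Finset.range N ×ˢ Finset.range (N + 1))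
    (fun p => N ≤ p.1 + p.2) (fun p => ε ^ (p.1 + p.2) * (E p.1 * b p.2))
  rw [h1, h2, h3, ← h4, Finset.sum_range_succ]
  unfold remIdx
  ring

/-- the truncated amplitude -/
noncomputable def WN (w : ℕ → ℝ → ℂ) (ε : ℂ) (N : ℕ) (x : ℝ) : ℂ :=
  ∑ j ∈ Finset.range (N + 1), ε ^ j * w j x

/-- the plane wave -/
noncomputable def pw (n : ℕ) (x : ℝ) : ℂ := Complex.exp (Real.pi * n * Complex.I * x)

/-- `1 / (2 i π n)` -/
noncomputable def eps (n : ℕ) : ℂ := 1 / (2 * Complex.I * Real.pi * n)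

lemma norm_eps (n : ℕ) : ‖eps n‖ = 1 / (2 * Real.pi * n) := by
  unfold eps
  rw [norm_div, norm_mul, norm_mul, norm_mul, Complex.norm_I, Complex.norm_real,
    Complex.norm_natCast, Complex.norm_ofNat, norm_one, Real.norm_of_nonneg Real.pi_pos.le]
  ring

lemma pw_deriv (n : ℕ) (x : ℝ) : HasDerivAt (pw n) (Real.pi * n * Complex.I * pw n x) x := by
  unfold pw
  have h1 : HasDerivAt (fun y : ℝ => (Real.pi * n * Complex.I * y : ℂ)) (Real.pi * n * Complex.I) x := by
    have := (Complex.ofRealCLM.hasDerivAt (x := x)).const_mul (Real.pi * n * Complex.I : ℂ)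
    simpa using this
  have h2 := h1.cexp
  convert h2 using 1
  ring

lemma pw_smooth (n : ℕ) : ContDiff ℝ ∞ (pw n) := by
  unfold pw
  apply ContDiff.cexp
  exact contDiff_const.mul Complex.ofRealCLM.contDiff

lemma norm_pw (n : ℕ) (x : ℝ) : ‖pw n x‖ = 1 := by
  unfold pw
  rw [Complex.norm_exp]
  simp

/-- the quasi-mode -/
noncomputable def uN (w : ℕ → ℝ → ℂ) (n N : ℕ) (x : ℝ) : ℂ := pw n x * WN w (eps n) N x

/-- the approximate eigenvalue -/
noncomputable def LN (E : ℕ → ℂ) (n N : ℕ) : ℂ :=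
  Real.pi ^ 2 * n ^ 2 + ∑ i ∈ Finset.range N, eps n ^ i * E i

/-- the remainder -/
noncomputable def RemN (q : ℝ → ℝ) (w : ℕ → ℝ → ℂ) (E : ℕ → ℂ) (n N : ℕ) (x : ℝ) : ℂ :=
  eps n ^ N * (-(deriv (deriv (w N)) x) + (q x : ℂ) * w N x) -
    ∑ p ∈ remIdx N, eps n ^ (p.1 + p.2) * (E p.1 * w p.2 x)

lemma WN_smooth {q : ℝ → ℝ} {w : ℕ → ℝ → ℂ} {E : ℕ → ℂ} (h : WKB q w E) (ε : ℂ) (N : ℕ) :
    ContDiff ℝ ∞ (WN w ε N) := by
  unfold WN
  apply ContDiff.sum
  intro j _
  exact contDiff_const.mul (h.smooth j)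

lemma WN_deriv {w : ℕ → ℝ → ℂ} (hs : ∀ j, Differentiable ℝ (w j)) (ε : ℂ) (N : ℕ) (x : ℝ) :
    HasDerivAt (WN w ε N) (WN (fun j => deriv (w j)) ε N x) x := by
  unfold WN
  apply HasDerivAt.fun_sum
  intro j _
  exact ((hs j x).hasDerivAt).const_mul _

theorem residual {q : ℝ → ℝ} {w : ℕ → ℝ → ℂ} {E : ℕ → ℂ} (h : WKB q w E) {n : ℕ} (hn : 1 ≤ n)
    (N : ℕ) (x : ℝ) :
    -(deriv (deriv (uN w n N)) x) + (q x : ℂ) * uN w n N x - LN E n N * uN w n N x =
      pw n x * RemN q w E n N x := by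
  have s0 : ∀ j, Differentiable ℝ (w j) := fun j => (h.smooth j).differentiable (by simp)
  have s1 : ∀ j, ContDiff ℝ ∞ (deriv (w j)) := fun j => (contDiff_infty_iff_deriv.1 (h.smooth j)).2
  have s1' : ∀ j, Differentiable ℝ (deriv (w j)) := fun j => (s1 j).differentiable (by simp)
  set ε := eps n with hε
  set k : ℂ := Real.pi * n * Complex.I with hk
  have d1 : ∀ y, HasDerivAt (uN w n N)
      (k * pw n y * WN w ε N y + pw n y * WN (fun j => deriv (w j)) ε N y) y := by
    intro y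
    exact (pw_deriv n y).mul (WN_deriv s0 ε N y)
  have e1 : deriv (uN w n N) = fun y =>
      k * pw n y * WN w ε N y + pw n y * WN (fun j => deriv (w j)) ε N y := by
    ext y; exact (d1 y).deriv
  have d2 : HasDerivAt (fun y => k * pw n y * WN w ε N y + pw n y * WN (fun j => deriv (w j)) ε N y)
      ((k * (k * pw n x) * WN w ε N x + k * pw n x * WN (fun j => deriv (w j)) ε N x) +
        (k * pw n x * WN (fun j => deriv (w j)) ε N x +
          pw n x * WN (fun j => deriv (deriv (w j))) ε N x)) x := by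
    apply HasDerivAt.add
    · exact ((pw_deriv n x).const_mul k).mul (WN_deriv s0 ε N x)
    · exact (pw_deriv n x).mul (WN_deriv s1' ε N x)
  rw [e1, d2.deriv]
  have hk2 : k * k = -(Real.pi ^ 2 * n ^ 2) := by
    rw [hk]
    have := Complex.I_mul_I
    linear_combination (Real.pi ^ 2 * n ^ 2 : ℂ) * this
  have hn0 : (n : ℂ) ≠ 0 := by
    have : n ≠ 0 := by omega
    exact_mod_cast this
  have hpi : (Real.pi : ℂ) ≠ 0 := by exact_mod_cast Real.pi_ne_zero
  have hkε : 2 * k * ε = 1 := by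
    rw [hk, hε]
    unfold eps
    field_simp
  -- the derivative sum
  have hder : 2 * k * WN (fun j => deriv (w j)) ε N x =
      ∑ j ∈ Finset.range N, ε ^ j * (-(deriv (deriv (w j)) x) + (q x : ℂ) * w j x -
        ∑ i ∈ Finset.range (j + 1), E i * w (j - i) x) := by
    unfold WN
    rw [Finset.sum_range_succ']
    have h0 : deriv (w 0) x = 0 := by
      have : w 0 = fun _ => (1 : ℂ) := by ext y; exact h.zero y
      rw [this]; exact deriv_const x (1 : ℂ)
    simp only [h0, mul_zero, add_zero]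
    rw [Finset.mul_sum]
    apply Finset.sum_congr rfl
    intro j _
    rw [h.step j x, pow_succ]
    linear_combination (ε ^ j * (-(deriv (deriv (w j)) x) + (q x : ℂ) * w j x -
      ∑ i ∈ Finset.range (j + 1), E i * w (j - i) x)) * hkε
  have hmain := alg_rem (fun j => deriv (deriv (w j)) x) (fun j => w j x) E (q x : ℂ) ε N
  have hsplit : ∑ j ∈ Finset.range (N + 1), ε ^ j * (-(deriv (deriv (w j)) x) + (q x : ℂ) * w j x) =
      -WN (fun j => deriv (deriv (w j))) ε N x + (q x : ℂ) * WN w ε N x := by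
    unfold WN
    rw [Finset.mul_sum, ← Finset.sum_neg_distrib, ← Finset.sum_add_distrib]
    apply Finset.sum_congr rfl
    intro j _; ring
  unfold RemN LN uN
  rw [← hε]
  rw [← hmain, hsplit, ← hder]
  have hW : WN w ε N x = ∑ l ∈ Finset.range (N + 1), ε ^ l * w l x := rfl
  rw [← hW]
  linear_combination (-(pw n x * WN w ε N x)) * hk2

/-- the size of the remainder -/
noncomputable def dlt (K : ℕ → ℝ) (B : ℕ → ℕ → ℝ) (N : ℕ) (ρ : ℝ) : ℝ :=
  ρ ^ N * (B N 2 + K 0 * B N 0) + ∑ p ∈ remIdx N, ρ ^ (p.1 + p.2) * (K 0 * B p.1 0 * B p.2 0)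

theorem norm_RemN_le {q : ℝ → ℝ} {w : ℕ → ℝ → ℂ} {E : ℕ → ℂ} (h : WKB q w E)
    (hqs : ContDiff ℝ ∞ (fun x => (q x : ℂ))) {K : ℕ → ℝ} {B : ℕ → ℕ → ℝ} (hB : IsMajorant K B)
    {N n : ℕ} (hq : ∀ i ≤ N + 1, ∀ x, ‖iteratedDeriv i (fun x => (q x : ℂ)) x‖ ≤ K i) (x : ℝ) :
    ‖RemN q w E n N x‖ ≤ dlt K B N (1 / (2 * Real.pi * n)) := by
  have hmaj := h.le_majorant hqs hB hq
  have hK0 : ∀ x, ‖(q x : ℂ)‖ ≤ K 0 := by
    intro x
    have := hq 0 (Nat.zero_le _) x
    simpa using this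
  have hK0nn : 0 ≤ K 0 := (norm_nonneg _).trans (hK0 0)
  have hw : ∀ j ≤ N, ∀ x, ‖w j x‖ ≤ B j 0 := by
    intro j hj x
    have := hmaj j 0 (by omega) (by omega) x
    simpa using this
  unfold RemN dlt
  refine (norm_sub_le _ _).trans (add_le_add ?_ ?_)
  · rw [norm_mul, norm_pow, norm_eps]
    have h1 : ‖-(deriv (deriv (w N)) x) + (q x : ℂ) * w N x‖ ≤ B N 2 + K 0 * B N 0 := by
      refine (norm_add_le _ _).trans (add_le_add ?_ ?_)
      · rw [norm_neg]
        have := hmaj N 2 (by omega) (by omega) x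
        rwa [iteratedDeriv_succ', iteratedDeriv_one] at this
      · rw [norm_mul]
        have := hK0 x
        have := hw N le_rfl x
        gcongr
    gcongr
  · refine (norm_sum_le _ _).trans (Finset.sum_le_sum fun p hp => ?_)
    have hp' : p.1 < N ∧ p.2 < N + 1 := by
      unfold remIdx at hp
      simp only [Finset.mem_filter, Finset.mem_product, Finset.mem_range] at hp
      exact hp.1
    rw [norm_mul, norm_pow, norm_eps, norm_mul]
    have a1 := h.norm_E_le hK0 (hw p.1 (by omega))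
    have a2 := hw p.2 (by omega) x
    have a3 := hB.nonneg p.1 0
    gcongr

lemma norm_WN_sub_one_le {q : ℝ → ℝ} {w : ℕ → ℝ → ℂ} {E : ℕ → ℂ} (h : WKB q w E)
    (hqs : ContDiff ℝ ∞ (fun x => (q x : ℂ))) {K : ℕ → ℝ} {B : ℕ → ℕ → ℝ} (hB : IsMajorant K B)
    {N n : ℕ} (hq : ∀ i ≤ N + 1, ∀ x, ‖iteratedDeriv i (fun x => (q x : ℂ)) x‖ ≤ K i) (x : ℝ) :
    ‖WN w (eps n) N x - 1‖ ≤ ∑ j ∈ Finset.range N, (1 / (2 * Real.pi * n)) ^ (j + 1) * B (j + 1) 0 := by
  have hmaj := h.le_majorant hqs hB hq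
  unfold WN
  rw [Finset.sum_range_succ', pow_zero, h.zero, one_mul, add_sub_cancel_right]
  refine (norm_sum_le _ _).trans (Finset.sum_le_sum fun j hj => ?_)
  have hj' := Finset.mem_range.1 hj
  rw [norm_mul, norm_pow, norm_eps]
  have a1 : ‖w (j + 1) x‖ ≤ B (j + 1) 0 := by
    have := hmaj (j + 1) 0 (by omega) (by omega) x
    simpa using this
  gcongr

lemma norm_LN_sub_le {q : ℝ → ℝ} {w : ℕ → ℝ → ℂ} {E : ℕ → ℂ} (h : WKB q w E)
    (hqs : ContDiff ℝ ∞ (fun x => (q x : ℂ))) {K : ℕ → ℝ} {B : ℕ → ℕ → ℝ} (hB : IsMajorant K B)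
    {N n : ℕ} (hq : ∀ i ≤ N + 1, ∀ x, ‖iteratedDeriv i (fun x => (q x : ℂ)) x‖ ≤ K i)
    (hA : ∑ j ∈ Finset.range N, (1 / (2 * Real.pi * n)) ^ (j + 1) * B (j + 1) 0 ≤ 1 / 4) :
    ‖LN E n N - Real.pi ^ 2 * n ^ 2‖ ≤ 2 * K 0 := by
  have hmaj := h.le_majorant hqs hB hq
  have hK0 : ∀ x, ‖(q x : ℂ)‖ ≤ K 0 := by
    intro x
    have := hq 0 (Nat.zero_le _) x
    simpa using this
  have hK0nn : 0 ≤ K 0 := (norm_nonneg _).trans (hK0 0)
  unfold LN
  rw [add_sub_cancel_left]
  rcases Nat.eq_zero_or_pos N with hN | hN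
  · subst hN; simp; linarith
  · obtain ⟨M, rfl⟩ : ∃ m, N = m + 1 := ⟨N - 1, by omega⟩
    rw [Finset.sum_range_succ']
    refine (norm_add_le _ _).trans ?_
    have e0 : ‖eps n ^ 0 * E 0‖ ≤ K 0 := by
      rw [pow_zero, one_mul]
      have := h.norm_E_le hK0 (j := 0) (b := 1) (by intro x; rw [h.zero x, norm_one])
      linarith
    have e1 : ‖∑ j ∈ Finset.range M, eps n ^ (j + 1) * E (j + 1)‖ ≤ K 0 * (1 / 4) := by
      calc ‖∑ j ∈ Finset.range M, eps n ^ (j + 1) * E (j + 1)‖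
          ≤ ∑ j ∈ Finset.range M, (1 / (2 * Real.pi * n)) ^ (j + 1) * (K 0 * B (j + 1) 0) := by
            refine (norm_sum_le _ _).trans (Finset.sum_le_sum fun j hj => ?_)
            have hj' := Finset.mem_range.1 hj
            rw [norm_mul, norm_pow, norm_eps]
            have a1 : ∀ x, ‖w (j + 1) x‖ ≤ B (j + 1) 0 := by
              intro x
              have := hmaj (j + 1) 0 (by omega) (by omega) x
              simpa using this
            have a2 := h.norm_E_le hK0 a1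
            gcongr
        _ = K 0 * ∑ j ∈ Finset.range M, (1 / (2 * Real.pi * n)) ^ (j + 1) * B (j + 1) 0 := by
            rw [Finset.mul_sum]
            apply Finset.sum_congr rfl
            intro j _; ring
        _ ≤ K 0 * (1 / 4) := by
            apply mul_le_mul_of_nonneg_left _ hK0nn
            refine le_trans ?_ hA
            apply Finset.sum_le_sum_of_subset_of_nonneg
            · exact Finset.range_subset_range.2 (Nat.le_succ M)
            · intro j _ _
              have := hB.nonneg (j + 1) 0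
              positivity
    linarith

end Run7.h374
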