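import Pool.Agent.Run7.h374.Hill

/-! The Hill spectrum and eigenbases. -/

set_option autoImplicit false
set_option linter.unusedSectionVars false

namespace Run7.h374

open Filter Topology MeasureTheory AddCircle
open scoped ComplexConjugate Classical

section abstractpart

variable {H : Type*} [NormedAddCommGroup H] [InnerProductSpace ℂ H] [CompleteSpace H]
variable {ι J J' : Type*}

/-- reindexing a Hilbert basis -/
lemma exists_reindex (φ : HilbertBasis J ℂ H) (e : J' ≃ J) :
    ∃ φ' : HilbertBasis J' ℂ H, ∀ j, φ' j = φ (e j) := by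
  have hon : Orthonormal ℂ (φ ∘ e) := φ.orthonormal.comp e e.injective
  have hsp : ⊤ ≤ (Submodule.span ℂ (Set.range (φ ∘ e))).topologicalClosure := by
    have : Set.range (φ ∘ e) = Set.range φ := e.surjective.range_comp φ
    rw [this, φ.dense_span]
  refine ⟨HilbertBasis.mk hon hsp, fun j => ?_⟩
  rw [HilbertBasis.coe_mk]; rfl

/-- finiteness of the sublevel sets of the eigenvalues -/
lemma finite_sublevel {b : HilbertBasis ι ℂ H} {d : ι → ℝ} {Q : H →L[ℂ] H}
    {φ : HilbertBasis J ℂ H} {ν : J → ℝ} (_hQ : Sym Q) (hrel : Rel b d Q φ ν)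
    (hd : ∀ M, {k | d k ≤ M}.Finite) (μ : ℝ) : {j | ν j ≤ μ}.Finite := by
  by_contra hinf
  have hinf' : {j | ν j ≤ μ}.Infinite := hinf
  have hfin := hd (μ + ‖Q‖ + 1)
  set n := hfin.toFinset.card with hn
  obtain ⟨G, hG, hGcard⟩ := hinf'.exists_subset_card_eq (n + 1)
  have eG : Fin (n + 1) ≃ G := (Finset.equivFinOfCardEq hGcard).symm
  have eK : Fin n ≃ hfin.toFinset := (Finset.equivFinOfCardEq hn.symm).symm
  obtain ⟨c, hc, horth⟩ := exists_orth (n := n) (fun k => φ (eG k)) (fun j => b (eK j))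
  set f : H := ∑ k, c k • φ (eG k) with hf
  set h : H := ∑ k, c k • (((ν (eG k) : ℝ) : ℂ) • φ (eG k) - Q (φ (eG k))) with hh
  have hD : IsD b d f h := IsD.sum c fun k => hrel (eG k)
  have hDφ : IsD φ ν f (∑ k, c k • (((ν (eG k) : ℝ) : ℂ) • φ (eG k))) :=
    IsD.sum c fun k => IsD.basis ((eG k : J))
  have hhQ : h + Q f = ∑ k, c k • (((ν (eG k) : ℝ) : ℂ) • φ (eG k)) := by
    rw [hh, hf, map_sum, ← Finset.sum_add_distrib]
    apply Finset.sum_congr rfl
    intro k _
    rw [map_smul, smul_sub]; abel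
  have hinner : ∀ j : J, (inner ℂ (φ j) f : ℂ) ≠ 0 → ν j ≤ μ := by
    intro j hj
    rw [hf, inner_sum] at hj
    obtain ⟨k, _, hk⟩ := Finset.exists_ne_zero_of_sum_ne_zero hj
    rw [inner_smul_right, orthonormal_iff_ite.1 φ.orthonormal] at hk
    by_cases hjk : j = eG k
    · rw [hjk]; exact hG (eG k).2
    · rw [if_neg hjk, mul_zero] at hk
      exact absurd rfl hk
  have hf0 : f ≠ 0 := by
    intro h0
    apply hc
    ext k
    have h1 : (inner ℂ (φ (eG k)) f : ℂ) = c k := by
      rw [hf, inner_sum, Finset.sum_eq_single k]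
      · rw [inner_smul_right, orthonormal_iff_ite.1 φ.orthonormal, if_pos rfl, mul_one]
      · intro i _ hi
        rw [inner_smul_right, orthonormal_iff_ite.1 φ.orthonormal, if_neg, mul_zero]
        intro h2
        apply hi
        have := eG.injective (Subtype.ext h2)
        exact this.symm
      · intro h2; exact absurd (Finset.mem_univ _) h2
    rw [h0, inner_zero_right] at h1
    exact h1.symm
  have h1 := form_le hDφ hinner
  rw [← hhQ, inner_add_right, Complex.add_re] at h1
  have h2 : (μ + ‖Q‖ + 1) * ‖f‖ ^ 2 ≤ (inner ℂ f h : ℂ).re := by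
    apply le_form hD
    intro k hk
    by_contra hcon
    push Not at hcon
    have hmem : k ∈ hfin.toFinset := by
      simp only [Set.Finite.mem_toFinset, Set.mem_ofPred_eq]
      exact hcon.le
    apply hk
    have := horth (eK.symm ⟨k, hmem⟩)
    simpa using this
  have hQf : -(‖Q‖ * ‖f‖ ^ 2) ≤ (inner ℂ f (Q f) : ℂ).re := by
    have e1 : ‖(inner ℂ f (Q f) : ℂ)‖ ≤ ‖Q‖ * ‖f‖ ^ 2 := by
      calc ‖(inner ℂ f (Q f) : ℂ)‖ ≤ ‖f‖ * ‖Q f‖ := norm_inner_le_norm _ _
        _ ≤ ‖f‖ * (‖Q‖ * ‖f‖) := by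
            have := Q.le_opNorm f
            gcongr
        _ = _ := by ring
    have e2 := Complex.abs_re_le_norm (inner ℂ f (Q f) : ℂ)
    have e3 := (abs_le.1 (e2.trans e1)).1
    exact e3
  have hpos : 0 < ‖f‖ ^ 2 := by positivity
  nlinarith

/-- eigenvectors for `μ` are the combinations of the basis vectors for `μ` -/
lemma eig_span {b : HilbertBasis ι ℂ H} {d : ι → ℝ} {Q : H →L[ℂ] H}
    {φ : HilbertBasis J ℂ H} {ν : J → ℝ} (hQ : Sym Q) (hrel : Rel b d Q φ ν)
    (hd : ∀ M, {k | d k ≤ M}.Finite) {μ : ℝ} {F : H} (hF : IsD b d F ((μ : ℂ) • F - Q F)) :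
    F ∈ Submodule.span ℂ (Set.range fun j : {j | ν j = μ} => φ j) := by
  have h1 := hrel.isD hQ hF
  have h2 : (μ : ℂ) • F - Q F + Q F = (μ : ℂ) • F := by abel
  rw [h2] at h1
  have h3 : ∀ j, ν j ≠ μ → (inner ℂ (φ j) F : ℂ) = 0 := by
    intro j hj
    have h4 := h1 j
    rw [inner_smul_right] at h4
    have h5 : ((μ : ℂ) - (ν j : ℂ)) * inner ℂ (φ j) F = 0 := by linear_combination h4
    rcases mul_eq_zero.1 h5 with h6 | h6
    · exfalso
      apply hj
      have : (μ : ℂ) = (ν j : ℂ) := sub_eq_zero.1 h6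
      exact_mod_cast this.symm
    · exact h6
  have hfin : {j | ν j = μ}.Finite := (finite_sublevel hQ hrel hd μ).subset fun j hj => le_of_eq hj
  have h4 : F = ∑ j ∈ hfin.toFinset, (inner ℂ (φ j) F : ℂ) • φ j := by
    apply ext_inner_basis (b := φ)
    intro i
    rw [inner_sum]
    by_cases hi : ν i = μ
    · rw [Finset.sum_eq_single i]
      · rw [inner_smul_right, orthonormal_iff_ite.1 φ.orthonormal, if_pos rfl, mul_one]
      · intro j _ hj
        rw [inner_smul_right, orthonormal_iff_ite.1 φ.orthonormal, if_neg (Ne.symm hj), mul_zero]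
      · intro h5
        exact absurd (by simpa using hi) h5
    · rw [h3 i hi]
      symm
      apply Finset.sum_eq_zero
      intro j hj
      rw [inner_smul_right, orthonormal_iff_ite.1 φ.orthonormal, if_neg, mul_zero]
      intro h5
      apply hi
      rw [h5]
      simpa using hj
  rw [h4]
  apply Submodule.sum_mem
  intro j hj
  apply Submodule.smul_mem
  apply Submodule.subset_span
  have hj' : ν j = μ := by simpa using hj
  exact ⟨⟨j, hj'⟩, rfl⟩

end abstractpart

lemma dd_nonneg (k : ℤ) : 0 ≤ dd k := by unfold dd; positivity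

lemma dd_pos {c : ℝ} (hc : 0 < c) (k : ℤ) : 0 < dd k + c := by
  have := dd_nonneg k; linarith

lemma summable_dd {c : ℝ} (hc : 0 < c) : Summable fun k : ℤ => (dd k + c)⁻¹ := by
  have h1 : Summable fun k : ℤ => (1 / Real.pi ^ 2) * (1 / (k:ℝ) ^ 2) :=
    (Real.summable_one_div_int_pow.2 (by norm_num)).mul_left _
  apply Summable.of_norm_bounded_eventually h1
  rw [Filter.eventually_cofinite]
  apply (Set.finite_singleton (0 : ℤ)).subset
  intro k hk
  simp only [Set.mem_singleton_iff]
  by_contra hk0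
  apply hk
  have hkr : (k:ℝ) ≠ 0 := by exact_mod_cast hk0
  have h3 : 0 < dd k := by unfold dd; positivity
  rw [Real.norm_of_nonneg (inv_pos.2 (dd_pos hc k)).le]
  calc (dd k + c)⁻¹ ≤ (dd k)⁻¹ := inv_anti₀ h3 (by linarith)
    _ = _ := by unfold dd; field_simp

lemma finite_dd (M : ℝ) : {k : ℤ | dd k ≤ M}.Finite := by
  obtain ⟨N, hN⟩ := exists_nat_ge M
  apply (Set.finite_Icc (-(N:ℤ)) N).subset
  intro k hk
  simp only [Set.mem_ofPred_eq] at hk
  have h1 : (k:ℝ) ^ 2 ≤ N := by
    have h2 : (1:ℝ) ≤ Real.pi ^ 2 := by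
      have := Real.pi_gt_three
      nlinarith
    have h3 : 0 ≤ (k:ℝ) ^ 2 := sq_nonneg _
    unfold dd at hk
    nlinarith
  have h2 : k ^ 2 ≤ (N : ℤ) := by exact_mod_cast h1
  rw [Set.mem_Icc]
  constructor
  · by_contra h3; push Not at h3; nlinarith
  · by_contra h3; push Not at h3; nlinarith

lemma tendsto_sum_dd : Tendsto (fun n : ℕ => ∑' k : ℤ, (dd k + (n + 1))⁻¹) atTop (𝓝 0) := by
  have h1 : Tendsto (fun n : ℕ => ∑' k : ℤ, (dd k + (n + 1))⁻¹) atTop (𝓝 (∑' k : ℤ, (0:ℝ))) := by
    apply tendsto_tsum_of_dominated_convergence (summable_dd one_pos)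
    · intro k
      apply tendsto_inv_atTop_zero.comp
      apply tendsto_atTop_add_const_left
      exact tendsto_atTop_add_const_right _ _ tendsto_natCast_atTop_atTop
    · refine Eventually.of_forall fun n k => ?_
      have hn : (0:ℝ) ≤ n := Nat.cast_nonneg n
      rw [Real.norm_of_nonneg (inv_pos.2 (dd_pos (by positivity) k)).le]
      apply inv_anti₀ (dd_pos one_pos k)
      linarith
  simpa using h1

/-- an eigenbasis for the Hill operator on the circle of length 2 -/
lemma exists_eigenbasis_HH (Q : HH →L[ℂ] HH) (hQ : Sym Q) :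
    ∃ (J : Type) (φ : HilbertBasis J ℂ HH) (ν : J → ℝ), Rel bas dd Q φ ν := by
  have h1 : Tendsto (fun n : ℕ => (∑' k : ℤ, (dd k + (n + 1))⁻¹) * ‖Q‖) atTop (𝓝 0) := by
    simpa using tendsto_sum_dd.mul_const ‖Q‖
  obtain ⟨n, hn⟩ := (h1.eventually (gt_mem_nhds one_pos)).exists
  have hn1 : (0:ℝ) < (n:ℝ) + 1 := by positivity
  exact exists_eigenbasis bas dd Q hQ (dd_pos hn1) (summable_dd hn1) hn

variable {q : ℝ → ℝ} (hq : Continuous q) (hper : ∀ x, q (x + 1) = q x)

/-- the multiplication operator by `q` -/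
noncomputable abbrev QQ : HH →L[ℂ] HH := mulOp (qC q hq hper)

lemma sym_QQ : Sym (QQ hq hper) := sym_mulOp (conj_qC q hq hper)

include hq hper in
/-- multiplicities in terms of an eigenbasis -/
lemma mult_eq {J : Type*} {φ : HilbertBasis J ℂ HH} {ν : J → ℝ}
    (hrel : Rel bas dd (QQ hq hper) φ ν) (μ : ℝ) :
    {j | ν j = μ}.encard =
    ((Module.finrank ℂ (eigSpace q 1 μ) + Module.finrank ℂ (eigSpace q (-1) μ) : ℕ) : ℕ∞) := by
  have hQ := sym_QQ hq hper
  have hfin : {j | ν j = μ}.Finite :=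
    (finite_sublevel hQ hrel finite_dd μ).subset fun j hj => le_of_eq hj
  have : Fintype {j | ν j = μ} := hfin.fintype
  have hspan : Eig (QQ hq hper) μ =
      Submodule.span ℂ (Set.range fun j : {j | ν j = μ} => φ j) := by
    apply le_antisymm
    · intro F hF
      exact eig_span hQ hrel finite_dd hF
    · rw [Submodule.span_le]
      rintro _ ⟨⟨j, hj⟩, rfl⟩
      have h1 := hrel j
      rw [show ν j = μ from hj] at h1
      exact h1
  have hli : LinearIndependent ℂ (fun j : {j | ν j = μ} => φ j) :=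
    (φ.orthonormal.linearIndependent).comp _ Subtype.val_injective
  have hfr : Module.finrank ℂ (Eig (QQ hq hper) μ) = Fintype.card {j | ν j = μ} := by
    rw [hspan]
    exact finrank_span_eq_card hli
  have hfd : FiniteDimensional ℂ (Eig (QQ hq hper) μ) := by
    rw [hspan]
    exact FiniteDimensional.span_of_finite ℂ (Set.finite_range _)
  have e1 := solEquiv hq hper μ
  have hfd2 : FiniteDimensional ℂ (sol2 q μ) := e1.symm.finiteDimensional
  have e2 := splitEquiv q hper μ
  have hfd3 : FiniteDimensional ℂ (eigSpace q 1 μ × eigSpace q (-1) μ) := e2.finiteDimensional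
  have hfd4 : FiniteDimensional ℂ (eigSpace q 1 μ) :=
    Module.Finite.of_surjective (LinearMap.fst ℂ (eigSpace q 1 μ) (eigSpace q (-1) μ))
      LinearMap.fst_surjective
  have hfd5 : FiniteDimensional ℂ (eigSpace q (-1) μ) :=
    Module.Finite.of_surjective (LinearMap.snd ℂ (eigSpace q 1 μ) (eigSpace q (-1) μ))
      LinearMap.snd_surjective
  rw [← Module.finrank_prod, ← e2.finrank_eq, e1.finrank_eq, hfr]
  rw [← Set.coe_fintypeCard]

include hq hper in
/-- A Hill spectrum gives an eigenbasis indexed by `ℕ`. -/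
theorem exists_nat_basis {lam : ℕ → ℝ} (hlam : IsHillSpectrum q lam) :
    ∃ φ : HilbertBasis ℕ ℂ HH, Rel bas dd (QQ hq hper) φ lam := by
  obtain ⟨J, φ, ν, hrel⟩ := exists_eigenbasis_HH (QQ hq hper) (sym_QQ hq hper)
  have hcard : ∀ μ : ℝ, Nonempty ({n // lam n = μ} ≃ {j // ν j = μ}) := by
    intro μ
    have h1 := hlam.mult μ
    have h2 := mult_eq hq hper hrel μ
    have hf1 : {n | lam n = μ}.Finite := Set.finite_of_encard_eq_coe h1
    have hf2 : {j | ν j = μ}.Finite := Set.finite_of_encard_eq_coe h2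
    have : Finite {n // lam n = μ} := hf1
    have : Finite {j // ν j = μ} := hf2
    apply Finite.card_eq.1
    have h3 : {n | lam n = μ}.ncard = {j | ν j = μ}.ncard := by
      rw [Set.ncard_def, Set.ncard_def, h1, h2]
    exact h3
  set e : ℕ ≃ J := Equiv.ofFiberEquiv (fun μ => (hcard μ).some) with he
  obtain ⟨φ', hφ'⟩ := exists_reindex φ e
  refine ⟨φ', fun n => ?_⟩
  have h1 : ν (e n) = lam n := Equiv.ofFiberEquiv_map _ n
  have h2 := hrel (e n)
  rw [← hφ', h1] at h2
  exact h2

end Run7.h374
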