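import Pool.Agent.Run7.h374.Asy
import Pool.Agent.Run7.h374.PLev
import Pool.Agent.Run7.h374.Zero

/-! The monodromy matrix determines the potential (Borg-Marchenko uniqueness). -/

set_option autoImplicit false

namespace Run7.h374

open Filter Topology Metric MeasureTheory
open scoped Interval ComplexConjugate

/-- bounds for the fundamental solutions on `[0,1]` -/
structure AsyC (q : ℝ → ℝ) (C : ℝ) : Prop where
  one_le : 1 ≤ C
  all : ∀ x ∈ Set.Icc (0:ℝ) 1, ∀ k : ℂ, k ≠ 0 →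
      ‖fy1 q x k - Cx x k‖ ≤ C * Real.exp (|k.im| * x) / ‖k‖ ∧
      ‖fy2 q x k - Sx x k‖ ≤ C * Real.exp (|k.im| * x) / ‖k‖ ^ 2 ∧
      ‖fz1 q x k + k ^ 2 * Sx x k‖ ≤ C * Real.exp (|k.im| * x) ∧
      ‖fz2 q x k - Cx x k‖ ≤ C * Real.exp (|k.im| * x) / ‖k‖ ∧
      ‖fy1 q x k‖ ≤ C * Real.exp (|k.im| * x) ∧
      ‖fy2 q x k‖ ≤ C * Real.exp (|k.im| * x) / ‖k‖ ∧
      ‖fy2 q x k‖ ≤ C * Real.exp (|k.im| * x)

lemma AsyC.mono {q : ℝ → ℝ} {C C' : ℝ} (h : AsyC q C) (hCC : C ≤ C') : AsyC q C' where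
  one_le := h.one_le.trans hCC
  all := fun x hx k hk => by
    obtain ⟨a, b, c, d, e, f, g⟩ := h.all x hx k hk
    have hX := Real.exp_pos (|k.im| * x)
    have hk' : 0 < ‖k‖ := norm_pos_iff.2 hk
    refine ⟨a.trans ?_, b.trans ?_, c.trans ?_, d.trans ?_, e.trans ?_, f.trans ?_, g.trans ?_⟩ <;> gcongr

lemma exists_asyC {q : ℝ → ℝ} {K : ℝ} (hq : Continuous q) (hK : ∀ x, |q x| ≤ K) :
    ∃ C, AsyC q C := by
  obtain ⟨C, hC, h⟩ := asym_all hq hK
  exact ⟨C, hC, h⟩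

variable {p q : ℝ → ℝ} {K C : ℝ}

lemma AsyC.z1 (h : AsyC q C) {x : ℝ} (hx : x ∈ Set.Icc (0:ℝ) 1) {k : ℂ} (hk : 1 ≤ ‖k‖) :
    ‖fz1 q x k‖ ≤ 2 * C * ‖k‖ * Real.exp (|k.im| * x) := by
  have hk0 : k ≠ 0 := by
    intro h0; rw [h0, norm_zero] at hk; linarith
  obtain ⟨-, -, c, -⟩ := h.all x hx k hk0
  have h1 := norm_Sx_le2 hx.1 hk0
  have h2 : ‖k ^ 2 * Sx x k‖ ≤ ‖k‖ * Real.exp (|k.im| * x) := by
    rw [norm_mul, norm_pow]
    calc ‖k‖ ^ 2 * ‖Sx x k‖ ≤ ‖k‖ ^ 2 * (Real.exp (|k.im| * x) / ‖k‖) := by gcongr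
      _ = _ := by field_simp
  have h3 : ‖fz1 q x k‖ ≤ ‖fz1 q x k + k ^ 2 * Sx x k‖ + ‖k ^ 2 * Sx x k‖ := by
    have := norm_sub_le (fz1 q x k + k ^ 2 * Sx x k) (k ^ 2 * Sx x k)
    rwa [add_sub_cancel_right] at this
  have hX := Real.exp_pos (|k.im| * x)
  have hC := h.one_le
  have h4 : C * Real.exp (|k.im| * x) ≤ C * ‖k‖ * Real.exp (|k.im| * x) := by
    have : C * 1 ≤ C * ‖k‖ := by gcongr
    nlinarith
  have h5 : ‖k‖ * Real.exp (|k.im| * x) ≤ C * ‖k‖ * Real.exp (|k.im| * x) := by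
    have : 1 * ‖k‖ ≤ C * ‖k‖ := by gcongr
    nlinarith
  nlinarith

lemma AsyC.z2 (h : AsyC q C) {x : ℝ} (hx : x ∈ Set.Icc (0:ℝ) 1) {k : ℂ} (hk : 1 ≤ ‖k‖) :
    ‖fz2 q x k‖ ≤ 2 * C * Real.exp (|k.im| * x) := by
  have hk0 : k ≠ 0 := by
    intro h0; rw [h0, norm_zero] at hk; linarith
  obtain ⟨-, -, -, c, -⟩ := h.all x hx k hk0
  have h1 := norm_Cx_le2 hx.1 k
  have h3 : ‖fz2 q x k‖ ≤ ‖fz2 q x k - Cx x k‖ + ‖Cx x k‖ := by
    have := norm_add_le (fz2 q x k - Cx x k) (Cx x k)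
    rwa [sub_add_cancel] at this
  have hX := Real.exp_pos (|k.im| * x)
  have hC := h.one_le
  have h4 : C * Real.exp (|k.im| * x) / ‖k‖ ≤ C * Real.exp (|k.im| * x) :=
    div_le_self (by positivity) hk
  nlinarith

/-- the growing solution on the imaginary axis -/
noncomputable def ph (q : ℝ → ℝ) (y x : ℝ) : ℂ :=
  1 * fy1 q x (y * Complex.I) + (y : ℂ) * fy2 q x (y * Complex.I)
/-- its derivative -/
noncomputable def phd (q : ℝ → ℝ) (y x : ℝ) : ℂ :=
  1 * fz1 q x (y * Complex.I) + (y : ℂ) * fz2 q x (y * Complex.I)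

lemma ph_sol (hq : Continuous q) (hK : ∀ x, |q x| ≤ K) (y : ℝ) :
    IsSol q (y * Complex.I) (ph q y) (phd q y) :=
  isSol_comb (sol1 hq hK _) (sol2' hq hK _) 1 (y : ℂ)

lemma norm_yI {y : ℝ} (hy : 0 ≤ y) : ‖(y : ℂ) * Complex.I‖ = y := by
  rw [norm_mul, Complex.norm_I, mul_one, Complex.norm_real, Real.norm_of_nonneg hy]

lemma im_yI (y : ℝ) : ((y : ℂ) * Complex.I).im = y := by simp

lemma yI_ne {y : ℝ} (hy : 1 ≤ y) : (y : ℂ) * Complex.I ≠ 0 := by
  apply mul_ne_zero _ Complex.I_ne_zero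
  have : y ≠ 0 := by linarith
  exact_mod_cast this

lemma ph_bound (h : AsyC q C) {y : ℝ} (hy : 1 ≤ y) {x : ℝ} (hx : x ∈ Set.Icc (0:ℝ) 1) :
    ‖ph q y x‖ ≤ 4 * C * Real.exp (y * x) ∧ ‖phd q y x‖ ≤ 4 * C * y * Real.exp (y * x) := by
  have hC := h.one_le
  have hn := norm_yI (y := y) (by linarith)
  have him := im_yI y
  have hab : |((y : ℂ) * Complex.I).im| = y := by rw [him, abs_of_nonneg (by linarith)]
  obtain ⟨-, -, -, -, e, f, -⟩ := h.all x hx _ (yI_ne hy)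
  have hz1 := h.z1 hx (k := (y : ℂ) * Complex.I) (by rw [hn]; exact hy)
  have hz2 := h.z2 hx (k := (y : ℂ) * Complex.I) (by rw [hn]; exact hy)
  rw [hab] at e f hz1 hz2
  rw [hn] at f hz1
  have hX := Real.exp_pos (y * x)
  have hy0 : 0 < y := by linarith
  constructor
  · unfold ph
    refine (norm_add_le _ _).trans ?_
    rw [one_mul, norm_mul, Complex.norm_real, Real.norm_of_nonneg hy0.le]
    have h1 : y * ‖fy2 q x (↑y * Complex.I)‖ ≤ C * Real.exp (y * x) := by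
      calc y * ‖fy2 q x (↑y * Complex.I)‖ ≤ y * (C * Real.exp (y * x) / y) := by gcongr
        _ = _ := by field_simp
    nlinarith
  · unfold phd
    refine (norm_add_le _ _).trans ?_
    rw [one_mul, norm_mul, Complex.norm_real, Real.norm_of_nonneg hy0.le]
    have h1 : y * ‖fz2 q x (↑y * Complex.I)‖ ≤ y * (2 * C * Real.exp (y * x)) := by gcongr
    nlinarith

lemma Cx_add_Sx (y x : ℝ) :
    Cx x (y * Complex.I) + y * Sx x (y * Complex.I) = ((Real.exp (y * x) : ℝ) : ℂ) := by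
  have h1 := Sx_mul ((y : ℂ) * Complex.I) x
  have h2 : (y : ℂ) * Sx x (y * Complex.I) = -Complex.I * Complex.sin (y * Complex.I * x) := by
    rw [← h1]
    linear_combination ((y : ℂ) * Sx x (y * Complex.I)) * Complex.I_sq
  rw [h2]
  unfold Cx
  rw [show (y : ℂ) * Complex.I * x = (y * x) * Complex.I by ring, Complex.cos_mul_I,
    Complex.sin_mul_I, Complex.ofReal_exp, Complex.ofReal_mul]
  have h3 := Complex.cosh_add_sinh ((y : ℂ) * x)
  linear_combination h3 - Complex.sinh (y * x) * Complex.I_sq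

lemma ph_one (h : AsyC q C) {y : ℝ} (hy : 1 ≤ y) :
    ‖ph q y 1 - ((Real.exp y : ℝ) : ℂ)‖ ≤ 2 * C * Real.exp y / y ∧
      ‖phd q y 1 - y * ((Real.exp y : ℝ) : ℂ)‖ ≤ 2 * C * Real.exp y := by
  have hC := h.one_le
  have hn := norm_yI (y := y) (by linarith)
  have hab : |((y : ℂ) * Complex.I).im| = y := by rw [im_yI y, abs_of_nonneg (by linarith)]
  have h01 : (1:ℝ) ∈ Set.Icc (0:ℝ) 1 := ⟨zero_le_one, le_rfl⟩
  obtain ⟨a, b, c, d, -⟩ := h.all 1 h01 _ (yI_ne hy)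
  rw [hab, hn, mul_one] at a b d
  rw [hab, mul_one] at c
  have hcs := Cx_add_Sx y 1
  rw [mul_one] at hcs
  have hX := Real.exp_pos y
  have hy0 : 0 < y := by linarith
  constructor
  · have e : ph q y 1 - ((Real.exp y : ℝ) : ℂ) =
        (fy1 q 1 (y * Complex.I) - Cx 1 (y * Complex.I)) +
          y * (fy2 q 1 (y * Complex.I) - Sx 1 (y * Complex.I)) := by
      rw [← hcs]; unfold ph; ring
    rw [e]
    refine (norm_add_le _ _).trans ?_
    rw [norm_mul, Complex.norm_real, Real.norm_of_nonneg hy0.le]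
    have h1 : y * ‖fy2 q 1 (y * Complex.I) - Sx 1 (y * Complex.I)‖ ≤ C * Real.exp y / y := by
      calc _ ≤ y * (C * Real.exp y / y ^ 2) := by gcongr
        _ = _ := by field_simp
    have h2 : 2 * C * Real.exp y / y = C * Real.exp y / y + C * Real.exp y / y := by ring
    linarith
  · have e : phd q y 1 - y * ((Real.exp y : ℝ) : ℂ) =
        (fz1 q 1 (y * Complex.I) + (y * Complex.I) ^ 2 * Sx 1 (y * Complex.I)) +
          y * (fz2 q 1 (y * Complex.I) - Cx 1 (y * Complex.I)) := by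
      rw [← hcs]; unfold phd
      linear_combination (-(y : ℂ) ^ 2 * Sx 1 (y * Complex.I)) * Complex.I_sq
    rw [e]
    refine (norm_add_le _ _).trans ?_
    rw [norm_mul, Complex.norm_real, Real.norm_of_nonneg hy0.le]
    have h1 : y * ‖fz2 q 1 (y * Complex.I) - Cx 1 (y * Complex.I)‖ ≤ C * Real.exp y := by
      calc _ ≤ y * (C * Real.exp y / y) := by gcongr
        _ = _ := by field_simp
    linarith

lemma isSol_refl {k : ℂ} {f g : ℝ → ℂ} (h : IsSol (fun x => q (1 - x)) k f g) :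
    IsSol q k (fun x => f (1 - x)) (fun x => -g (1 - x)) where
  d1 := fun x => by
    have := (h.d1 (1 - x)).comp_const_sub 1 x
    exact this
  d2 := fun x => by
    have := ((h.d2 (1 - x)).comp_const_sub 1 x).neg
    rw [neg_neg] at this
    simp only [sub_sub_cancel] at this
    exact this

/-- the transition matrix between the two equations, first row -/
noncomputable def N1 (p q : ℝ → ℝ) (x : ℝ) (k : ℂ) : ℂ :=
  fy1 p x k * fz2 q x k - fy2 p x k * fz1 q x k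
/-- the transition matrix between the two equations, first row -/
noncomputable def N2 (p q : ℝ → ℝ) (x : ℝ) (k : ℂ) : ℂ :=
  fy2 p x k * fy1 q x k - fy1 p x k * fy2 q x k

lemma N_apply (hp : Continuous p) (hKp : ∀ x, |p x| ≤ K) (hq : Continuous q)
    (hKq : ∀ x, |q x| ≤ K) {k : ℂ} {f g f' g' : ℝ → ℂ} (h : IsSol p k f g) (h' : IsSol q k f' g')
    (h0 : f 0 = f' 0) (h0' : g 0 = g' 0) (x : ℝ) :
    f x = N1 p q x k * f' x + N2 p q x k * g' x := by
  rw [(sol_rep hp hKp h x).1, (sol_rep hq hKq h' x).1, (sol_rep hq hKq h' x).2, h0, h0']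
  have hw := wronsk_one hq hKq k x
  unfold N1 N2
  linear_combination (-f' 0 * fy1 p x k - g' 0 * fy2 p x k) * hw

/-- `W` is large -/
lemma W_lower (h : AsyC q C) {y : ℝ} (hy : 4 * C ≤ y) :
    y * Real.exp y ≤ ‖(y : ℂ) * ph q y 1 + phd q y 1‖ := by
  have hC := h.one_le
  have hy1 : 1 ≤ y := by linarith
  have hy0 : 0 < y := by linarith
  obtain ⟨a, b⟩ := ph_one h hy1
  have hX := Real.exp_pos y
  have e : (y : ℂ) * ph q y 1 + phd q y 1 = ((2 * y * Real.exp y : ℝ) : ℂ) +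
      (y * (ph q y 1 - ((Real.exp y : ℝ) : ℂ)) + (phd q y 1 - y * ((Real.exp y : ℝ) : ℂ))) := by
    push_cast; ring
  have h1 : ‖y * (ph q y 1 - ((Real.exp y : ℝ) : ℂ)) + (phd q y 1 - y * ((Real.exp y : ℝ) : ℂ))‖ ≤
      4 * C * Real.exp y := by
    refine (norm_add_le _ _).trans ?_
    rw [norm_mul, Complex.norm_real, Real.norm_of_nonneg hy0.le]
    have h2 : y * ‖ph q y 1 - ((Real.exp y : ℝ) : ℂ)‖ ≤ 2 * C * Real.exp y := by
      calc _ ≤ y * (2 * C * Real.exp y / y) := by gcongr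
        _ = _ := by field_simp
    linarith
  have h2 := norm_sub_norm_le (((2 * y * Real.exp y : ℝ) : ℂ))
    (-(y * (ph q y 1 - ((Real.exp y : ℝ) : ℂ)) + (phd q y 1 - y * ((Real.exp y : ℝ) : ℂ))))
  rw [sub_neg_eq_add, ← e, norm_neg, Complex.norm_real, Real.norm_of_nonneg (by positivity)] at h2
  nlinarith

lemma N_imag (hp : Continuous p) (hKp : ∀ x, |p x| ≤ K) (hq : Continuous q)
    (hKq : ∀ x, |q x| ≤ K) (hCp : AsyC p C) (hCq : AsyC q C)
    (hCp' : AsyC (fun x => p (1 - x)) C) (hCq' : AsyC (fun x => q (1 - x)) C)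
    (hM : ∀ k, fy1 p 1 k = fy1 q 1 k ∧ fy2 p 1 k = fy2 q 1 k ∧ fz1 p 1 k = fz1 q 1 k ∧
      fz2 p 1 k = fz2 q 1 k) {y : ℝ} (hy : 4 * C ≤ y) {x : ℝ} (hx : x ∈ Set.Icc (0:ℝ) 1) :
    ‖N1 p q x (y * Complex.I)‖ ≤ 32 * C ^ 2 ∧ ‖N2 p q x (y * Complex.I)‖ ≤ 32 * C ^ 2 := by
  have hC := hCp.one_le
  have hy1 : 1 ≤ y := by linarith
  have hy0 : 0 < y := by linarith
  set k : ℂ := (y : ℂ) * Complex.I with hk
  have hcp : Continuous fun x => p (1 - x) := by fun_prop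
  have hcq : Continuous fun x => q (1 - x) := by fun_prop
  have hKp' : ∀ x, |(fun x => p (1 - x)) x| ≤ K := fun x => hKp _
  have hKq' : ∀ x, |(fun x => q (1 - x)) x| ≤ K := fun x => hKq _
  have sφp := ph_sol hp hKp y
  have sφq := ph_sol hq hKq y
  have sψp := isSol_refl (q := p) (ph_sol hcp hKp' y)
  have sψq := isSol_refl (q := q) (ph_sol hcq hKq' y)
  -- values
  have ph0 : ∀ {r : ℝ → ℝ}, Continuous r → (∀ x, |r x| ≤ K) → ph r y 0 = 1 ∧ phd r y 0 = y := by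
    intro r hr hKr
    unfold ph phd
    rw [fy1_zero hr hKr, fy2_zero hr hKr, fz1_zero, fz2_zero]
    constructor <;> ring
  -- same Cauchy data of ψ at 0
  have hψ : ph (fun x => p (1 - x)) y (1 - 0) = ph (fun x => q (1 - x)) y (1 - 0) ∧
      -phd (fun x => p (1 - x)) y (1 - 0) = -phd (fun x => q (1 - x)) y (1 - 0) := by
    have rp := sol_rep hp hKp sψp 1
    have rq := sol_rep hq hKq sψq 1
    obtain ⟨m1, m2, m3, m4⟩ := hM k
    rw [m1, m2, m3, m4] at rp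
    simp only [sub_self, sub_zero] at rp rq ⊢
    rw [(ph0 hcp hKp').1, (ph0 hcp hKp').2] at rp
    rw [(ph0 hcq hKq').1, (ph0 hcq hKq').2] at rq
    have hw := wronsk_one hq hKq k 1
    obtain ⟨rp1, rp2⟩ := rp
    obtain ⟨rq1, rq2⟩ := rq
    constructor
    · linear_combination (-ph (fun x => p (1 - x)) y 1 + ph (fun x => q (1 - x)) y 1) * hw -
        fz2 q 1 k * (rp1 - rq1) + fy2 q 1 k * (rp2 - rq2)
    · linear_combination (phd (fun x => p (1 - x)) y 1 - phd (fun x => q (1 - x)) y 1) * hw +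
        fz1 q 1 k * (rp1 - rq1) - fy1 q 1 k * (rp2 - rq2)
  have a1 := N_apply hp hKp hq hKq sφp sφq (by rw [(ph0 hp hKp).1, (ph0 hq hKq).1])
    (by rw [(ph0 hp hKp).2, (ph0 hq hKq).2]) x
  have a2 := N_apply hp hKp hq hKq sψp sψq hψ.1 hψ.2 x
  rw [← hk] at a1 a2
  have hWc := wronsk sφq sψq x
  have hWc1 := wronsk sφq sψq 1
  simp only [sub_self] at hWc hWc1
  rw [← hWc, (ph0 hcq hKq').1, (ph0 hcq hKq').2] at hWc1
  have hWl := W_lower hCq hy
  set W : ℂ := ph q y x * -phd (fun x => q (1 - x)) y (1 - x) -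
    phd q y x * ph (fun x => q (1 - x)) y (1 - x) with hW
  have hWn : y * Real.exp y ≤ ‖W‖ := by
    rw [← hWc1]
    refine hWl.trans (le_of_eq ?_)
    rw [← norm_neg]
    congr 1; ring
  have e1 : N1 p q x k * W = ph p y x * -phd (fun x => q (1 - x)) y (1 - x) -
      ph (fun x => p (1 - x)) y (1 - x) * phd q y x := by
    rw [hW]
    linear_combination (phd (fun x => q (1 - x)) y (1 - x)) * a1 + phd q y x * a2
  have e2 : N2 p q x k * W = -(ph p y x * ph (fun x => q (1 - x)) y (1 - x)) +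
      ph (fun x => p (1 - x)) y (1 - x) * ph q y x := by
    rw [hW]
    linear_combination (ph (fun x => q (1 - x)) y (1 - x)) * a1 - ph q y x * a2
  have hx' : 1 - x ∈ Set.Icc (0:ℝ) 1 := ⟨by linarith [hx.2], by linarith [hx.1]⟩
  obtain ⟨b1, b2⟩ := ph_bound hCp hy1 hx
  obtain ⟨b3, b4⟩ := ph_bound hCq hy1 hx
  obtain ⟨b5, b6⟩ := ph_bound hCp' hy1 hx'
  obtain ⟨b7, b8⟩ := ph_bound hCq' hy1 hx'
  have hE : Real.exp (y * x) * Real.exp (y * (1 - x)) = Real.exp y := by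
    rw [← Real.exp_add]; congr 1; ring
  have hWpos : 0 < y * Real.exp y := by positivity
  have hX := Real.exp_pos y
  have n1 : ‖ph p y x‖ * ‖phd (fun x => q (1 - x)) y (1 - x)‖ ≤ 16 * C ^ 2 * (y * Real.exp y) := by
    calc _ ≤ (4 * C * Real.exp (y * x)) * (4 * C * y * Real.exp (y * (1 - x))) := by gcongr
      _ = 16 * C ^ 2 * (y * (Real.exp (y * x) * Real.exp (y * (1 - x)))) := by ring
      _ = _ := by rw [hE]
  have n2 : ‖ph (fun x => p (1 - x)) y (1 - x)‖ * ‖phd q y x‖ ≤ 16 * C ^ 2 * (y * Real.exp y) := by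
    calc _ ≤ (4 * C * Real.exp (y * (1 - x))) * (4 * C * y * Real.exp (y * x)) := by gcongr
      _ = 16 * C ^ 2 * (y * (Real.exp (y * x) * Real.exp (y * (1 - x)))) := by ring
      _ = _ := by rw [hE]
  have n3 : ‖ph p y x‖ * ‖ph (fun x => q (1 - x)) y (1 - x)‖ ≤ 16 * C ^ 2 * (y * Real.exp y) := by
    calc _ ≤ (4 * C * Real.exp (y * x)) * (4 * C * Real.exp (y * (1 - x))) := by gcongr
      _ = 16 * C ^ 2 * (1 * (Real.exp (y * x) * Real.exp (y * (1 - x)))) := by ring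
      _ ≤ 16 * C ^ 2 * (y * (Real.exp (y * x) * Real.exp (y * (1 - x)))) := by gcongr
      _ = _ := by rw [hE]
  have n4 : ‖ph (fun x => p (1 - x)) y (1 - x)‖ * ‖ph q y x‖ ≤ 16 * C ^ 2 * (y * Real.exp y) := by
    calc _ ≤ (4 * C * Real.exp (y * (1 - x))) * (4 * C * Real.exp (y * x)) := by gcongr
      _ = 16 * C ^ 2 * (1 * (Real.exp (y * x) * Real.exp (y * (1 - x)))) := by ring
      _ ≤ 16 * C ^ 2 * (y * (Real.exp (y * x) * Real.exp (y * (1 - x)))) := by gcongr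
      _ = _ := by rw [hE]
  have fin : ∀ (n w a b : ℂ), n * w = a - b → y * Real.exp y ≤ ‖w‖ →
      ‖a‖ ≤ 16 * C ^ 2 * (y * Real.exp y) → ‖b‖ ≤ 16 * C ^ 2 * (y * Real.exp y) → ‖n‖ ≤ 32 * C ^ 2 := by
    intro n w a b hnw hw ha hb
    have h1 : ‖n‖ * ‖w‖ ≤ 32 * C ^ 2 * (y * Real.exp y) := by
      rw [← norm_mul, hnw]
      refine (norm_sub_le _ _).trans ?_
      linarith
    have h2 : ‖n‖ * (y * Real.exp y) ≤ 32 * C ^ 2 * (y * Real.exp y) := by
      refine le_trans ?_ h1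
      gcongr
    exact le_of_mul_le_mul_right h2 hWpos
  constructor
  · refine fin _ W _ _ e1 hWn ?_ ?_
    · rw [norm_mul, norm_neg]; exact n1
    · rw [norm_mul]; exact n2
  · refine fin _ W (-(ph p y x * ph (fun x => q (1 - x)) y (1 - x)))
      (-(ph (fun x => p (1 - x)) y (1 - x) * ph q y x)) (by rw [e2]; ring) hWn ?_ ?_
    · rw [norm_neg, norm_mul]; exact n3
    · rw [norm_neg, norm_mul]; exact n4

lemma N_real (hCp : AsyC p C) (hCq : AsyC q C) {k : ℝ} (hk : 1 ≤ k) {x : ℝ}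
    (hx : x ∈ Set.Icc (0:ℝ) 1) :
    ‖N1 p q x k - 1‖ ≤ 6 * C ^ 2 / k ∧ ‖N2 p q x k‖ ≤ 6 * C ^ 2 / k := by
  have hC := hCp.one_le
  have hk0 : (0:ℝ) < k := by linarith
  have hkc : (k : ℂ) ≠ 0 := by exact_mod_cast hk0.ne'
  have hn : ‖(k : ℂ)‖ = k := by rw [Complex.norm_real, Real.norm_of_nonneg hk0.le]
  have hX : Real.exp (|((k : ℂ)).im| * x) = 1 := by
    rw [Complex.ofReal_im, abs_zero, zero_mul, Real.exp_zero]
  obtain ⟨a1, a2, a3, a4, a5, a6, a7⟩ := hCp.all x hx (k : ℂ) hkc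
  obtain ⟨b1, b2, b3, b4, b5, b6, b7⟩ := hCq.all x hx (k : ℂ) hkc
  rw [hX, hn, mul_one] at a1 a2 a6 b1 b2 b4 b6 a4
  rw [hX, mul_one] at a3 a5 a7 b3 b5 b7
  have hS := norm_Sx_real hk0 x
  have hc := norm_Cx_real k x
  constructor
  · have e : N1 p q x k - 1 = Cx x k * (fz2 q x k - Cx x k) + (fy1 p x k - Cx x k) * Cx x k +
        (fy1 p x k - Cx x k) * (fz2 q x k - Cx x k) -
        (Sx x k * (fz1 q x k + (k : ℂ) ^ 2 * Sx x k) - (fy2 p x k - Sx x k) * ((k : ℂ) ^ 2 * Sx x k) +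
          (fy2 p x k - Sx x k) * (fz1 q x k + (k : ℂ) ^ 2 * Sx x k)) := by
      have h1 := sq_add (k : ℂ) x
      unfold N1
      linear_combination h1
    rw [e]
    have hk2 : ‖(k : ℂ) ^ 2 * Sx x k‖ ≤ k := by
      rw [norm_mul, norm_pow, hn]
      calc k ^ 2 * ‖Sx x k‖ ≤ k ^ 2 * (1 / k) := by gcongr
        _ = k := by field_simp
    have hCk : C / k * (C / k) ≤ C ^ 2 / k := by
      rw [div_mul_div_comm, div_le_div_iff₀ (by positivity) hk0]
      have h1 : k ≤ k * k := by nlinarith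
      have h2 : C ^ 2 * k ≤ C ^ 2 * (k * k) := by gcongr
      nlinarith
    have hCk1 : C / k ≤ C ^ 2 / k := by
      gcongr; nlinarith
    have t1 : ‖Cx x k * (fz2 q x k - Cx x k)‖ ≤ C ^ 2 / k := by
      rw [norm_mul]
      calc _ ≤ 1 * (C / k) := by gcongr
        _ ≤ _ := by rw [one_mul]; exact hCk1
    have t2 : ‖(fy1 p x k - Cx x k) * Cx x k‖ ≤ C ^ 2 / k := by
      rw [norm_mul]
      calc _ ≤ (C / k) * 1 := by gcongr
        _ ≤ _ := by rw [mul_one]; exact hCk1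
    have t3 : ‖(fy1 p x k - Cx x k) * (fz2 q x k - Cx x k)‖ ≤ C ^ 2 / k := by
      rw [norm_mul]
      calc _ ≤ (C / k) * (C / k) := by gcongr
        _ ≤ _ := hCk
    have t4 : ‖Sx x k * (fz1 q x k + (k : ℂ) ^ 2 * Sx x k)‖ ≤ C ^ 2 / k := by
      rw [norm_mul]
      calc _ ≤ (1 / k) * C := by gcongr
        _ = C / k := by ring
        _ ≤ _ := hCk1
    have t5 : ‖(fy2 p x k - Sx x k) * ((k : ℂ) ^ 2 * Sx x k)‖ ≤ C ^ 2 / k := by
      rw [norm_mul]
      calc _ ≤ (C / k ^ 2) * k := by gcongr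
        _ = C / k := by field_simp
        _ ≤ _ := hCk1
    have t6 : ‖(fy2 p x k - Sx x k) * (fz1 q x k + (k : ℂ) ^ 2 * Sx x k)‖ ≤ C ^ 2 / k := by
      rw [norm_mul]
      calc _ ≤ (C / k ^ 2) * C := by gcongr
        _ ≤ (C / k) * C := by
          gcongr
          nlinarith
        _ = _ := by ring
    have n1 := norm_sub_le (Cx x k * (fz2 q x k - Cx x k) + (fy1 p x k - Cx x k) * Cx x k +
        (fy1 p x k - Cx x k) * (fz2 q x k - Cx x k))
        (Sx x k * (fz1 q x k + (k : ℂ) ^ 2 * Sx x k) - (fy2 p x k - Sx x k) * ((k : ℂ) ^ 2 * Sx x k) +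
          (fy2 p x k - Sx x k) * (fz1 q x k + (k : ℂ) ^ 2 * Sx x k))
    have n2 := norm_add₃_le (a := Cx x k * (fz2 q x k - Cx x k)) (b := (fy1 p x k - Cx x k) * Cx x k)
      (c := (fy1 p x k - Cx x k) * (fz2 q x k - Cx x k))
    have n3 := norm_add_le (Sx x k * (fz1 q x k + (k : ℂ) ^ 2 * Sx x k) -
      (fy2 p x k - Sx x k) * ((k : ℂ) ^ 2 * Sx x k))
      ((fy2 p x k - Sx x k) * (fz1 q x k + (k : ℂ) ^ 2 * Sx x k))
    have n4 := norm_sub_le (Sx x k * (fz1 q x k + (k : ℂ) ^ 2 * Sx x k))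
      ((fy2 p x k - Sx x k) * ((k : ℂ) ^ 2 * Sx x k))
    have e6 : 6 * C ^ 2 / k = 6 * (C ^ 2 / k) := by ring
    rw [e6]
    linarith
  · unfold N2
    refine (norm_sub_le _ _).trans ?_
    rw [norm_mul, norm_mul]
    have t1 : ‖fy2 p x k‖ * ‖fy1 q x k‖ ≤ C ^ 2 / k := by
      calc _ ≤ (C / k) * C := by gcongr
        _ = _ := by ring
    have t2 : ‖fy1 p x k‖ * ‖fy2 q x k‖ ≤ C ^ 2 / k := by
      calc _ ≤ C * (C / k) := by gcongr
        _ = _ := by ring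
    have e6 : 6 * C ^ 2 / k = 6 * (C ^ 2 / k) := by ring
    have : 0 ≤ C ^ 2 / k := by positivity
    rw [e6]
    linarith

lemma fy_x_growth (hK : ∀ x, |q x| ≤ K) {x : ℝ} (hx : x ∈ Set.Icc (0:ℝ) 1) (k : ℂ) :
    ‖fy1 q x k‖ ≤ Real.exp (1 + K) * Real.exp (|k.im| * x) ∧
    ‖fy2 q x k‖ ≤ Real.exp (1 + K) * Real.exp (|k.im| * x) := by
  have hK0 : 0 ≤ K := (abs_nonneg _).trans (hK 0)
  constructor
  · refine (fy1_bound hK x k).trans ?_
    rw [← Real.exp_add, abs_of_nonneg hx.1]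
    apply Real.exp_le_exp.2
    nlinarith [hx.1, hx.2, abs_nonneg k.im]
  · refine (fy2_bound hK x k).trans ?_
    rw [← Real.exp_add, abs_of_nonneg hx.1]
    apply Real.exp_le_exp.2
    nlinarith [hx.1, hx.2, abs_nonneg k.im]

lemma fz_x_growth (hq : Continuous q) (hK : ∀ x, |q x| ≤ K) {x : ℝ} (hx : x ∈ Set.Icc (0:ℝ) 1)
    (k : ℂ) : ‖fz1 q x k‖ ≤ (2 * Real.exp 1 + K * Real.exp (1 + K) + 1) * Real.exp (2 * ‖k‖) ∧
      ‖fz2 q x k‖ ≤ (2 * Real.exp 1 + K * Real.exp (1 + K) + 1) * Real.exp (2 * ‖k‖) := by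
  have hK0 : 0 ≤ K := (abs_nonneg _).trans (hK 0)
  have him := Complex.abs_im_le_norm k
  have hn := norm_nonneg k
  have hexp : Real.exp (|k.im| * x) ≤ Real.exp (2 * ‖k‖) := by
    apply Real.exp_le_exp.2
    nlinarith [hx.1, hx.2, abs_nonneg k.im]
  have hE := Real.exp_pos (1 + K)
  have hW : ∀ t ∈ Set.Icc (0:ℝ) x, ‖Cx (x - t) k‖ ≤ 1 * Real.exp (|k.im| * (x - t)) := by
    intro t ht
    rw [one_mul]
    exact norm_Cx_le2 (by linarith [ht.2]) k
  have i1 := int_asy hK (W := fun t => Cx (x - t) k) (Y := fun t => fy1 q t k) (y := |k.im|) hx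
    zero_le_one hE.le hW (fun t ht => (fy_x_growth hK ht k).1)
  have i2 := int_asy hK (W := fun t => Cx (x - t) k) (Y := fun t => fy2 q t k) (y := |k.im|) hx
    zero_le_one hE.le hW (fun t ht => (fy_x_growth hK ht k).2)
  rw [one_mul] at i1 i2
  have j : K * Real.exp (1 + K) * Real.exp (|k.im| * x) ≤
      K * Real.exp (1 + K) * Real.exp (2 * ‖k‖) := by gcongr
  have h2X := Real.exp_pos (2 * ‖k‖)
  constructor
  · unfold fz1
    rw [Vsold_int hq Cx_cont hK norm_Cx_le']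
    refine (norm_add_le _ _).trans ?_
    have h1 : ‖-(k ^ 2 * Sx x k)‖ ≤ (2 * Real.exp 1) * Real.exp (2 * ‖k‖) := by
      rw [norm_neg, norm_mul, norm_pow]
      have h2 := norm_Sx_le' x k
      have h3 : ‖k‖ ^ 2 ≤ 2 * Real.exp ‖k‖ := by
        have := Real.quadratic_le_exp_of_nonneg hn
        nlinarith
      have h4 : Real.exp ((|k.im| + 1) * |x|) ≤ Real.exp 1 * Real.exp ‖k‖ := by
        rw [← Real.exp_add, abs_of_nonneg hx.1]
        apply Real.exp_le_exp.2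
        nlinarith [hx.1, hx.2, abs_nonneg k.im]
      calc ‖k‖ ^ 2 * ‖Sx x k‖ ≤ 2 * Real.exp ‖k‖ * (Real.exp 1 * Real.exp ‖k‖) := by
            gcongr
            exact h2.trans h4
        _ = (2 * Real.exp 1) * (Real.exp ‖k‖ * Real.exp ‖k‖) := by ring
        _ = _ := by rw [← Real.exp_add]; congr 2; ring
    have e : (∫ t in (0:ℝ)..x, Cx (x - t) k * ((q t : ℂ) * Vsol q Cx t k)) =
      ∫ t in (0:ℝ)..x, Cx (x - t) k * ((q t : ℂ) * fy1 q t k) := rfl
    rw [e]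
    linarith
  · unfold fz2
    rw [Vsold_int hq Sx_cont hK norm_Sx_le']
    refine (norm_add_le _ _).trans ?_
    have h1 : ‖Cx x k‖ ≤ Real.exp (2 * ‖k‖) := (norm_Cx_le2 hx.1 k).trans hexp
    have e : (∫ t in (0:ℝ)..x, Cx (x - t) k * ((q t : ℂ) * Vsol q Sx t k)) =
      ∫ t in (0:ℝ)..x, Cx (x - t) k * ((q t : ℂ) * fy2 q t k) := rfl
    rw [e]
    have : 0 ≤ 2 * Real.exp 1 * Real.exp (2 * ‖k‖) := by positivity
    linarith

/-- the monodromy matrix determines the potential -/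
theorem pot_unique (hp : Continuous p) (hKp : ∀ x, |p x| ≤ K) (hq : Continuous q)
    (hKq : ∀ x, |q x| ≤ K)
    (hM : ∀ k, fy1 p 1 k = fy1 q 1 k ∧ fy2 p 1 k = fy2 q 1 k ∧ fz1 p 1 k = fz1 q 1 k ∧
      fz2 p 1 k = fz2 q 1 k) : ∀ x ∈ Set.Icc (0:ℝ) 1, p x = q x := by
  have hK0 : 0 ≤ K := (abs_nonneg _).trans (hKp 0)
  obtain ⟨c1, h1⟩ := exists_asyC hp hKp
  obtain ⟨c2, h2⟩ := exists_asyC hq hKq
  obtain ⟨c3, h3⟩ := exists_asyC (q := fun x => p (1 - x)) (K := K) (by fun_prop) (fun x => hKp _)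
  obtain ⟨c4, h4⟩ := exists_asyC (q := fun x => q (1 - x)) (K := K) (by fun_prop) (fun x => hKq _)
  set C := c1 + c2 + c3 + c4 with hC
  have p1 := h1.one_le
  have p2 := h2.one_le
  have p3 := h3.one_le
  have p4 := h4.one_le
  have H1 : AsyC p C := h1.mono (by linarith)
  have H2 : AsyC q C := h2.mono (by linarith)
  have H3 : AsyC (fun x => p (1 - x)) C := h3.mono (by linarith)
  have H4 : AsyC (fun x => q (1 - x)) C := h4.mono (by linarith)
  have hC1 : 1 ≤ C := H1.one_le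
  have hN : ∀ x ∈ Set.Icc (0:ℝ) 1, ∀ k, N1 p q x k = 1 ∧ N2 p q x k = 0 := by
    intro x hx
    have hev : ∀ k, N1 p q x (-k) = N1 p q x k ∧ N2 p q x (-k) = N2 p q x k := by
      intro k
      obtain ⟨a1, a2, a3, a4⟩ := fund_congr hp hKp (k := -k) (k' := k) (by ring) x
      obtain ⟨b1, b2, b3, b4⟩ := fund_congr hq hKq (k := -k) (k' := k) (by ring) x
      unfold N1 N2
      rw [a1, a3, b1, b2, b3, b4]
      exact ⟨rfl, rfl⟩
    set B := 2 * Real.exp 1 + K * Real.exp (1 + K) + 1 with hB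
    have hB0 : 0 ≤ B := by positivity
    have hE1 : Real.exp (1 + K) ≤ Real.exp (1 + K) := le_rfl
    have hfy : ∀ {r : ℝ → ℝ}, (∀ x, |r x| ≤ K) → ∀ k, ‖fy1 r x k‖ ≤ Real.exp (1 + K) * Real.exp (2 * ‖k‖) ∧
        ‖fy2 r x k‖ ≤ Real.exp (1 + K) * Real.exp (2 * ‖k‖) := by
      intro r hr k
      have hexp : Real.exp (|k.im| * x) ≤ Real.exp (2 * ‖k‖) := by
        apply Real.exp_le_exp.2
        nlinarith [hx.1, hx.2, abs_nonneg k.im, Complex.abs_im_le_norm k]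
      obtain ⟨a, b⟩ := fy_x_growth hr hx k
      exact ⟨a.trans (by gcongr), b.trans (by gcongr)⟩
    set G := Real.exp (1 + K) with hG
    have hG0 : 0 < G := Real.exp_pos _
    have hgrow1 : ∀ k, ‖N1 p q x k‖ ≤ (2 * G * B) * Real.exp (4 * ‖k‖) := by
      intro k
      obtain ⟨a1, a2⟩ := hfy hKp k
      obtain ⟨b1, b2⟩ := fz_x_growth hq hKq hx k
      unfold N1
      refine (norm_sub_le _ _).trans ?_
      rw [norm_mul, norm_mul]
      have e4 : Real.exp (4 * ‖k‖) = Real.exp (2 * ‖k‖) * Real.exp (2 * ‖k‖) := by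
        rw [← Real.exp_add]; congr 1; ring
      have t1 : ‖fy1 p x k‖ * ‖fz2 q x k‖ ≤ (G * Real.exp (2 * ‖k‖)) * (B * Real.exp (2 * ‖k‖)) := by
        gcongr
      have t2 : ‖fy2 p x k‖ * ‖fz1 q x k‖ ≤ (G * Real.exp (2 * ‖k‖)) * (B * Real.exp (2 * ‖k‖)) := by
        gcongr
      rw [e4]
      nlinarith
    have hgrow2 : ∀ k, ‖N2 p q x k‖ ≤ (2 * G * G) * Real.exp (4 * ‖k‖) := by
      intro k
      obtain ⟨a1, a2⟩ := hfy hKp k
      obtain ⟨b1, b2⟩ := hfy hKq k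
      unfold N2
      refine (norm_sub_le _ _).trans ?_
      rw [norm_mul, norm_mul]
      have e4 : Real.exp (4 * ‖k‖) = Real.exp (2 * ‖k‖) * Real.exp (2 * ‖k‖) := by
        rw [← Real.exp_add]; congr 1; ring
      have t1 : ‖fy2 p x k‖ * ‖fy1 q x k‖ ≤ (G * Real.exp (2 * ‖k‖)) * (G * Real.exp (2 * ‖k‖)) := by
        gcongr
      have t2 : ‖fy1 p x k‖ * ‖fy2 q x k‖ ≤ (G * Real.exp (2 * ‖k‖)) * (G * Real.exp (2 * ‖k‖)) := by
        gcongr
      rw [e4]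
      nlinarith
    have hd1 : Differentiable ℂ (N1 p q x) :=
      ((fy1_diff hp hKp x).mul (fz2_diff hq hKq x)).sub ((fy2_diff hp hKp x).mul (fz1_diff hq hKq x))
    have hd2 : Differentiable ℂ (N2 p q x) :=
      ((fy2_diff hp hKp x).mul (fy1_diff hq hKq x)).sub ((fy1_diff hp hKp x).mul (fy2_diff hq hKq x))
    have hlim : Tendsto (fun n : ℕ => 6 * C ^ 2 / (n : ℝ)) atTop (𝓝 0) :=
      tendsto_const_div_atTop_nhds_zero_nat _
    have hL1 : Tendsto (fun n : ℕ => N1 p q x (n : ℂ)) atTop (𝓝 1) := by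
      rw [tendsto_iff_norm_sub_tendsto_zero]
      refine squeeze_zero' (Eventually.of_forall fun n => norm_nonneg _) ?_ hlim
      filter_upwards [eventually_ge_atTop 1] with n hn
      have := (N_real H1 H2 (k := (n : ℝ)) (by exact_mod_cast hn) hx).1
      simpa using this
    have hL2 : Tendsto (fun n : ℕ => N2 p q x (n : ℂ)) atTop (𝓝 0) := by
      rw [tendsto_iff_norm_sub_tendsto_zero]
      refine squeeze_zero' (Eventually.of_forall fun n => norm_nonneg _) ?_ hlim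
      filter_upwards [eventually_ge_atTop 1] with n hn
      have := (N_real H1 H2 (k := (n : ℝ)) (by exact_mod_cast hn) hx).2
      simpa using this
    intro k
    constructor
    · refine const_of_axes hd1 (fun k => (hev k).1) (by positivity) hgrow1
        (C := 1 + 32 * C ^ 2) (y₀ := 6 * C ^ 2) ?_ ?_ hL1 k
      · intro t ht
        have ht1 : 1 ≤ t := by nlinarith
        have := (N_real H1 H2 ht1 hx).1
        have h5 : 6 * C ^ 2 / t ≤ 1 := by
          rw [div_le_one (by linarith)]; exact ht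
        have h6 : ‖N1 p q x t‖ ≤ ‖N1 p q x t - 1‖ + ‖(1:ℂ)‖ := by
          have := norm_add_le (N1 p q x t - 1) 1
          rwa [sub_add_cancel] at this
        rw [norm_one] at h6
        nlinarith
      · intro t ht
        have := (N_imag hp hKp hq hKq H1 H2 H3 H4 hM (y := t) (by nlinarith) hx).1
        linarith
    · refine const_of_axes hd2 (fun k => (hev k).2) (by positivity) hgrow2
        (C := 1 + 32 * C ^ 2) (y₀ := 6 * C ^ 2) ?_ ?_ hL2 k
      · intro t ht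
        have ht1 : 1 ≤ t := by nlinarith
        have := (N_real H1 H2 ht1 hx).2
        have h5 : 6 * C ^ 2 / t ≤ 1 := by
          rw [div_le_one (by linarith)]; exact ht
        nlinarith
      · intro t ht
        have := (N_imag hp hKp hq hKq H1 H2 H3 H4 hM (y := t) (by nlinarith) hx).2
        linarith
  -- the solutions agree
  have hsame : ∀ x ∈ Set.Icc (0:ℝ) 1, fy1 p x 0 = fy1 q x 0 ∧ fy2 p x 0 = fy2 q x 0 := by
    intro x hx
    obtain ⟨e1, e2⟩ := hN x hx 0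
    have hw := wronsk_one hq hKq 0 x
    unfold N1 at e1
    unfold N2 at e2
    constructor
    · linear_combination fy1 q x 0 * e1 + fz1 q x 0 * e2 - fy1 p x 0 * hw
    · linear_combination fy2 q x 0 * e1 + fz2 q x 0 * e2 - fy2 p x 0 * hw
  have hint : ∀ x ∈ Set.Ioo (0:ℝ) 1, p x = q x := by
    intro x hx
    have hnh : Set.Icc (0:ℝ) 1 ∈ 𝓝 x := Icc_mem_nhds hx.1 hx.2
    have sp1 := sol1 hp hKp 0
    have sq1 := sol1 hq hKq 0
    have sp2 := sol2' hp hKp 0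
    have sq2 := sol2' hq hKq 0
    -- derivatives agree on the open interval
    have hz : ∀ z ∈ Set.Ioo (0:ℝ) 1, fz1 p z 0 = fz1 q z 0 ∧ fz2 p z 0 = fz2 q z 0 := by
      intro z hz
      have hnz : Set.Icc (0:ℝ) 1 ∈ 𝓝 z := Icc_mem_nhds hz.1 hz.2
      constructor
      · have e : (fun x => fy1 p x 0) =ᶠ[𝓝 z] fun x => fy1 q x 0 := by
          filter_upwards [hnz] with w hw
          exact (hsame w hw).1
        exact (sp1.d1 z).unique ((sq1.d1 z).congr_of_eventuallyEq e)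
      · have e : (fun x => fy2 p x 0) =ᶠ[𝓝 z] fun x => fy2 q x 0 := by
          filter_upwards [hnz] with w hw
          exact (hsame w hw).2
        exact (sp2.d1 z).unique ((sq2.d1 z).congr_of_eventuallyEq e)
    have hno : Set.Ioo (0:ℝ) 1 ∈ 𝓝 x := Ioo_mem_nhds hx.1 hx.2
    have f1 : (fun x => fz1 p x 0) =ᶠ[𝓝 x] fun x => fz1 q x 0 := by
      filter_upwards [hno] with w hw
      exact (hz w hw).1
    have f2 : (fun x => fz2 p x 0) =ᶠ[𝓝 x] fun x => fz2 q x 0 := by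
      filter_upwards [hno] with w hw
      exact (hz w hw).2
    have g1 := (sp1.d2 x).unique ((sq1.d2 x).congr_of_eventuallyEq f1)
    have g2 := (sp2.d2 x).unique ((sq2.d2 x).congr_of_eventuallyEq f2)
    obtain ⟨s1, s2⟩ := hsame x ⟨hx.1.le, hx.2.le⟩
    rw [s1] at g1
    rw [s2] at g2
    have hw := wronsk_one hq hKq 0 x
    have hpq : ((p x : ℂ) - q x) = 0 := by
      linear_combination (-((p x : ℂ) - q x)) * hw + fz2 q x 0 * g1 - fz1 q x 0 * g2
    have : (p x : ℂ) = q x := by linear_combination hpq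
    exact_mod_cast this
  intro x hx
  have hcl : closure (Set.Ioo (0:ℝ) 1) = Set.Icc 0 1 := closure_Ioo (by norm_num)
  have : Set.EqOn p q (closure (Set.Ioo (0:ℝ) 1)) := Set.EqOn.closure hint hp hq
  rw [hcl] at this
  exact this hx

end Run7.h374
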