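import Mathlib

/-! Solutions of `-y'' + q y = k² y`, entire in `k`, by Volterra iteration. -/

set_option autoImplicit false

namespace Run7.h374

open Filter Topology Metric MeasureTheory
open scoped Interval

/-- an integral of functions which are entire in the parameter is entire -/
lemma differentiable_integral {F : ℝ → ℂ → ℂ} (hc : Continuous (Function.uncurry F))
    (hd : ∀ t, Differentiable ℂ (F t)) (a b : ℝ) :
    Differentiable ℂ (fun k => ∫ t in a..b, F t k) := by
  intro k₀
  have hcomp : IsCompact (Set.uIcc a b ×ˢ closedBall k₀ 2) :=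
    isCompact_uIcc.prod (isCompact_closedBall k₀ 2)
  obtain ⟨B, hB⟩ := hcomp.exists_bound_of_continuousOn hc.continuousOn
  have hFt : ∀ k, Continuous (fun t => F t k) := fun k =>
    hc.comp (continuous_id.prodMk continuous_const)
  have h := intervalIntegral.hasDerivAt_integral_of_dominated_loc_of_deriv_le (μ := volume)
    (F := fun k t => F t k) (F' := fun k t => deriv (F t) k) (x₀ := k₀) (s := ball k₀ 1)
    (bound := fun _ => B) (a := a) (b := b) (ball_mem_nhds k₀ one_pos)
    (Eventually.of_forall fun k => (hFt k).aestronglyMeasurable)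
    ((hFt k₀).intervalIntegrable _ _)
    (by
      have h1 := measurable_deriv_with_param hc
      exact (h1.comp (measurable_id.prodMk measurable_const)).aestronglyMeasurable)
    (Eventually.of_forall fun t ht k hk => by
      have h1 := Complex.norm_deriv_le_of_forall_mem_sphere_norm_le (c := k) (R := 1) (C := B)
        one_pos (hd t).diffContOnCl (by
          intro z hz
          apply hB (t, z)
          refine ⟨Set.uIoc_subset_uIcc ht, ?_⟩
          rw [mem_closedBall]
          have h2 : dist z k = 1 := hz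
          have h3 : dist k k₀ < 1 := hk
          have := dist_triangle z k k₀
          linarith)
      simpa using h1)
    (by simp)
    (Eventually.of_forall fun t _ k _ => (hd t k).hasDerivAt)
  exact h.2.differentiableAt

/-- `∫_0^x cos (k u) du` -/
noncomputable def Sx (x : ℝ) (k : ℂ) : ℂ := ∫ u in (0:ℝ)..x, Complex.cos (k * u)

/-- `cos (k x)` -/
noncomputable def Cx (x : ℝ) (k : ℂ) : ℂ := Complex.cos (k * x)

lemma Cx_cont : Continuous (Function.uncurry Cx) := by
  have : Function.uncurry Cx = fun p : ℝ × ℂ => Complex.cos (p.2 * p.1) := by ext p; rfl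
  rw [this]; fun_prop

lemma Cx_diff (x : ℝ) : Differentiable ℂ (Cx x) := by
  have : Cx x = fun k => Complex.cos (k * x) := rfl
  rw [this]; fun_prop

lemma Sx_cont : Continuous (Function.uncurry Sx) := by
  have h1 : Continuous (Function.uncurry fun (p : ℝ × ℂ) (u : ℝ) => Complex.cos (p.2 * u)) := by
    have : (Function.uncurry fun (p : ℝ × ℂ) (u : ℝ) => Complex.cos (p.2 * u)) =
      fun r : (ℝ × ℂ) × ℝ => Complex.cos (r.1.2 * r.2) := by ext r; rfl
    rw [this]; fun_prop
  exact intervalIntegral.continuous_parametric_intervalIntegral_of_continuous (a₀ := 0) h1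
    (s := fun p : ℝ × ℂ => p.1) continuous_fst

lemma Sx_diff (x : ℝ) : Differentiable ℂ (Sx x) := by
  apply differentiable_integral (F := fun u k => Complex.cos (k * u))
  · have : (Function.uncurry fun (u : ℝ) (k : ℂ) => Complex.cos (k * u)) =
      fun r : ℝ × ℂ => Complex.cos (r.2 * r.1) := by ext r; rfl
    rw [this]; fun_prop
  · intro u; fun_prop

lemma Sx_deriv (k : ℂ) (x : ℝ) : HasDerivAt (fun x => Sx x k) (Cx x k) x := by
  have hc : Continuous fun u : ℝ => Complex.cos (k * u) := by fun_prop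
  exact (hc.integral_hasStrictDerivAt 0 x).hasDerivAt

lemma Sx_mul (k : ℂ) (x : ℝ) : k * Sx x k = Complex.sin (k * x) := by
  have h1 : ∀ u ∈ Set.uIcc (0:ℝ) x, HasDerivAt (fun u : ℝ => Complex.sin (k * u))
      (k * Complex.cos (k * u)) u := by
    intro u _
    have h2 : HasDerivAt (fun y : ℝ => (k * y : ℂ)) k u := by
      have := (Complex.ofRealCLM.hasDerivAt (x := u)).const_mul k
      simpa using this
    have h3 := (Complex.hasDerivAt_sin (k * u)).comp u h2
    rw [mul_comm] at h3
    exact h3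
  have h2 := intervalIntegral.integral_eq_sub_of_hasDerivAt h1
    (by apply Continuous.intervalIntegrable; fun_prop)
  rw [intervalIntegral.integral_const_mul] at h2
  unfold Sx
  rw [h2]
  simp

lemma Sx_zero (x : ℝ) : Sx x 0 = x := by
  unfold Sx; simp

lemma Cx_deriv (k : ℂ) (x : ℝ) : HasDerivAt (fun x => Cx x k) (-(k ^ 2 * Sx x k)) x := by
  have h2 : HasDerivAt (fun y : ℝ => (k * y : ℂ)) k x := by
    have := (Complex.ofRealCLM.hasDerivAt (x := x)).const_mul k
    simpa using this
  have h3 := (Complex.hasDerivAt_cos (k * x)).comp x h2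
  have e : -(k ^ 2 * Sx x k) = -Complex.sin (k * x) * k := by
    rw [← Sx_mul]; ring
  rw [e]
  exact h3

lemma sq_add (k : ℂ) (x : ℝ) : Cx x k ^ 2 + k ^ 2 * Sx x k ^ 2 = 1 := by
  rw [← mul_pow, Sx_mul]
  unfold Cx
  rw [add_comm]
  exact Complex.sin_sq_add_cos_sq _

lemma Sx_sub (k : ℂ) (x t : ℝ) : Sx (x - t) k = Sx x k * Cx t k - Cx x k * Sx t k := by
  by_cases hk : k = 0
  · subst hk
    simp only [Sx_zero, Cx, zero_mul, Complex.cos_zero]
    push_cast; ring
  · apply mul_left_cancel₀ hk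
    have h1 := Sx_mul k (x - t)
    have h2 := Sx_mul k x
    have h3 := Sx_mul k t
    rw [h1]
    unfold Cx
    push_cast
    rw [mul_sub, Complex.sin_sub, ← h2, ← h3]
    ring

lemma Cx_sub (k : ℂ) (x t : ℝ) : Cx (x - t) k = Cx x k * Cx t k + k ^ 2 * (Sx x k * Sx t k) := by
  have h2 := Sx_mul k x
  have h3 := Sx_mul k t
  have e : k ^ 2 * (Sx x k * Sx t k) = Complex.sin (k * x) * Complex.sin (k * t) := by
    rw [← h2, ← h3]; ring
  rw [e]
  unfold Cx
  push_cast
  rw [mul_sub, Complex.cos_sub]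

lemma norm_cos_le (w : ℂ) : ‖Complex.cos w‖ ≤ Real.exp |w.im| := by
  rw [Complex.cos, norm_div]
  have e1 : ‖Complex.exp (w * Complex.I)‖ = Real.exp (-w.im) := by
    rw [Complex.norm_exp]; simp
  have e2 : ‖Complex.exp (-w * Complex.I)‖ = Real.exp w.im := by
    rw [Complex.norm_exp]; simp
  have h1 := norm_add_le (Complex.exp (w * Complex.I)) (Complex.exp (-w * Complex.I))
  rw [e1, e2] at h1
  have h2 : Real.exp (-w.im) ≤ Real.exp |w.im| := Real.exp_le_exp.2 (neg_le_abs _)
  have h3 : Real.exp w.im ≤ Real.exp |w.im| := Real.exp_le_exp.2 (le_abs_self _)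
  rw [Complex.norm_ofNat]
  linarith

lemma norm_Cx_le (x : ℝ) (k : ℂ) : ‖Cx x k‖ ≤ Real.exp (|k.im| * |x|) := by
  unfold Cx
  have h := norm_cos_le (k * x)
  simp only [Complex.mul_im, Complex.ofReal_re, Complex.ofReal_im, mul_zero, zero_add] at h
  rwa [abs_mul] at h

lemma norm_Sx_le (x : ℝ) (k : ℂ) : ‖Sx x k‖ ≤ |x| * Real.exp (|k.im| * |x|) := by
  unfold Sx
  have h1 : ∀ u ∈ Ι (0:ℝ) x, ‖Complex.cos (k * u)‖ ≤ Real.exp (|k.im| * |x|) := by
    intro u hu
    refine (norm_Cx_le u k).trans ?_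
    have h2 : |u| ≤ |x| := by
      rcases le_total 0 x with h | h
      · rw [Set.uIoc_of_le h] at hu
        rw [abs_of_pos hu.1, abs_of_nonneg h]; exact hu.2
      · rw [Set.uIoc_of_ge h] at hu
        rw [abs_of_nonpos hu.2, abs_of_nonpos h]; linarith [hu.1]
    gcongr
  have h2 := intervalIntegral.norm_integral_le_of_norm_le_const h1
  rw [sub_zero] at h2
  linarith

lemma norm_Sx_le' (x : ℝ) (k : ℂ) : ‖Sx x k‖ ≤ Real.exp ((|k.im| + 1) * |x|) := by
  refine (norm_Sx_le x k).trans ?_
  rw [add_mul, one_mul, Real.exp_add, mul_comm]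
  have := Real.add_one_le_exp |x|
  gcongr
  linarith

lemma norm_Cx_le' (x : ℝ) (k : ℂ) : ‖Cx x k‖ ≤ Real.exp ((|k.im| + 1) * |x|) := by
  refine (norm_Cx_le x k).trans ?_
  apply Real.exp_le_exp.2
  have := abs_nonneg x
  nlinarith

/-- the iterates -/
noncomputable def Vit (q : ℝ → ℝ) (u0 : ℝ → ℂ → ℂ) : ℕ → ℝ → ℂ → ℂ
  | 0 => u0
  | n + 1 => fun x k => ∫ t in (0:ℝ)..x, Sx (x - t) k * ((q t : ℂ) * Vit q u0 n t k)

section

variable {q : ℝ → ℝ} (hq : Continuous q) {u0 : ℝ → ℂ → ℂ} (hu : Continuous (Function.uncurry u0))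
  (hud : ∀ x, Differentiable ℂ (u0 x))

include hq hu

lemma Vit_cont (n : ℕ) : Continuous (Function.uncurry (Vit q u0 n)) := by
  induction n with
  | zero => exact hu
  | succ n ih =>
    have h1 : Continuous (Function.uncurry fun (p : ℝ × ℂ) (t : ℝ) =>
        Sx (p.1 - t) p.2 * ((q t : ℂ) * Vit q u0 n t p.2)) := by
      have e : (Function.uncurry fun (p : ℝ × ℂ) (t : ℝ) =>
          Sx (p.1 - t) p.2 * ((q t : ℂ) * Vit q u0 n t p.2)) =
        fun r : (ℝ × ℂ) × ℝ => Function.uncurry Sx (r.1.1 - r.2, r.1.2) *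
          ((q r.2 : ℂ) * Function.uncurry (Vit q u0 n) (r.2, r.1.2)) := by ext r; rfl
      rw [e]
      have h2 := Sx_cont
      fun_prop
    exact intervalIntegral.continuous_parametric_intervalIntegral_of_continuous (a₀ := 0) h1
      (s := fun p : ℝ × ℂ => p.1) continuous_fst

include hud in
lemma Vit_diff (n : ℕ) (x : ℝ) : Differentiable ℂ (Vit q u0 n x) := by
  induction n generalizing x with
  | zero => exact hud x
  | succ n ih =>
    apply differentiable_integral (F := fun t k => Sx (x - t) k * ((q t : ℂ) * Vit q u0 n t k))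
    · have e : (Function.uncurry fun (t : ℝ) (k : ℂ) =>
          Sx (x - t) k * ((q t : ℂ) * Vit q u0 n t k)) =
        fun r : ℝ × ℂ => Function.uncurry Sx (x - r.1, r.2) *
          ((q r.1 : ℂ) * Function.uncurry (Vit q u0 n) (r.1, r.2)) := by ext r; rfl
      rw [e]
      have h2 := Sx_cont
      have h3 := Vit_cont hq hu n
      fun_prop
    · intro t
      exact (Sx_diff (x - t)).mul ((differentiable_const _).mul (ih t))

omit hq hu in
lemma abs_sub_add_abs {x t : ℝ} (ht : t ∈ Ι (0:ℝ) x) : |x - t| + |t| = |x| := by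
  rcases le_total 0 x with h | h
  · rw [Set.uIoc_of_le h] at ht
    rw [abs_of_nonneg (by linarith [ht.2]), abs_of_pos ht.1, abs_of_nonneg h]; ring
  · rw [Set.uIoc_of_ge h] at ht
    rw [abs_of_nonpos (by linarith [ht.1]), abs_of_nonpos ht.2, abs_of_nonpos h]; ring

omit hq hu in
lemma integral_pow_abs (K : ℝ) (n : ℕ) (x : ℝ) :
    |∫ t in (0:ℝ)..x, K * ((K * |t|) ^ n / n.factorial)| ≤ |K| * (|K| ^ n * |x| ^ (n + 1) / (n + 1).factorial) := by
  have h1 : ∀ x : ℝ, 0 ≤ x → ∫ t in (0:ℝ)..x, K * ((K * |t|) ^ n / n.factorial) =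
      K * (K ^ n * x ^ (n + 1) / (n + 1).factorial) := by
    intro x hx
    rw [intervalIntegral.integral_congr (g := fun t => (K * K ^ n / n.factorial) * t ^ n)]
    · rw [intervalIntegral.integral_const_mul, integral_pow, Nat.factorial_succ]
      push_cast
      simp only [ne_eq, Nat.add_eq_zero_iff, one_ne_zero, and_false, not_false_eq_true, zero_pow, sub_zero]
      have : ((n : ℝ) + 1) ≠ 0 := by positivity
      field_simp
    · intro t ht
      rw [Set.uIcc_of_le hx] at ht
      simp only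
      rw [abs_of_nonneg ht.1, mul_pow]; ring
  rcases le_total 0 x with hx | hx
  · rw [h1 x hx, abs_mul, abs_div, abs_mul, abs_pow, abs_pow]
    rw [abs_of_nonneg (by positivity : (0:ℝ) ≤ ((n + 1).factorial : ℝ))]
  · have h2 : ∫ t in (0:ℝ)..x, K * ((K * |t|) ^ n / n.factorial) =
        -∫ t in (0:ℝ)..(-x), K * ((K * |t|) ^ n / n.factorial) := by
      rw [← intervalIntegral.integral_symm]
      have h3 := intervalIntegral.integral_comp_neg (a := 0) (b := -x)
        (f := fun t => K * ((K * |t|) ^ n / n.factorial))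
      simp only [abs_neg, neg_neg, neg_zero] at h3
      rw [intervalIntegral.integral_symm x 0, ← h3, ← intervalIntegral.integral_symm]
    rw [h2, abs_neg, h1 (-x) (by linarith), abs_mul, abs_div, abs_mul, abs_pow, abs_pow, abs_neg]
    rw [abs_of_nonneg (by positivity : (0:ℝ) ≤ ((n + 1).factorial : ℝ))]

omit hq hu in
lemma Vit_bound {K : ℝ} (hK : ∀ x, |q x| ≤ K)
    (hub : ∀ x k, ‖u0 x k‖ ≤ Real.exp ((|k.im| + 1) * |x|)) (n : ℕ) (x : ℝ) (k : ℂ) :
    ‖Vit q u0 n x k‖ ≤ Real.exp ((|k.im| + 1) * |x|) * ((K * |x|) ^ n / n.factorial) := by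
  have hK0 : 0 ≤ K := (abs_nonneg _).trans (hK 0)
  induction n generalizing x with
  | zero =>
    have h := hub x k
    show ‖u0 x k‖ ≤ _
    simpa using h
  | succ n ih =>
    show ‖∫ t in (0:ℝ)..x, Sx (x - t) k * ((q t : ℂ) * Vit q u0 n t k)‖ ≤ _
    have h1 : ∀ t ∈ Ι (0:ℝ) x, ‖Sx (x - t) k * ((q t : ℂ) * Vit q u0 n t k)‖ ≤
        Real.exp ((|k.im| + 1) * |x|) * (K * ((K * |t|) ^ n / n.factorial)) := by
      intro t ht
      have h2 := abs_sub_add_abs ht
      rw [norm_mul, norm_mul, Complex.norm_real, Real.norm_eq_abs]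
      have h3 := norm_Sx_le' (x - t) k
      have h4 := ih t
      have h5 := hK t
      calc ‖Sx (x - t) k‖ * (|q t| * ‖Vit q u0 n t k‖)
          ≤ Real.exp ((|k.im| + 1) * |x - t|) *
            (K * (Real.exp ((|k.im| + 1) * |t|) * ((K * |t|) ^ n / n.factorial))) := by gcongr
        _ = (Real.exp ((|k.im| + 1) * |x - t|) * Real.exp ((|k.im| + 1) * |t|)) *
            (K * ((K * |t|) ^ n / n.factorial)) := by ring
        _ = _ := by rw [← Real.exp_add, ← mul_add, h2]
    have h6 := intervalIntegral.norm_integral_le_abs_of_norm_le (μ := volume)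
      (f := fun t => Sx (x - t) k * ((q t : ℂ) * Vit q u0 n t k))
      (g := fun t => Real.exp ((|k.im| + 1) * |x|) * (K * ((K * |t|) ^ n / n.factorial)))
      ((ae_restrict_iff' measurableSet_uIoc).2 (Eventually.of_forall fun t ht => h1 t ht))
      (by apply Continuous.intervalIntegrable; fun_prop)
    refine h6.trans ?_
    rw [intervalIntegral.integral_const_mul, abs_mul, abs_of_pos (Real.exp_pos _)]
    apply mul_le_mul_of_nonneg_left _ (Real.exp_pos _).le
    refine (integral_pow_abs K n x).trans (le_of_eq ?_)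
    rw [abs_of_nonneg hK0, mul_pow, pow_succ K n]
    ring

end

end Run7.h374
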