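import Pool.Agent.Run7.h374.Volt

/-! Solutions of `-y'' + q y = k² y`, entire in `k`: summation of the Volterra series. -/

set_option autoImplicit false

namespace Run7.h374

open Filter Topology Metric MeasureTheory
open scoped Interval

/-- the sum of the Volterra series -/
noncomputable def Vsol (q : ℝ → ℝ) (u0 : ℝ → ℂ → ℂ) (x : ℝ) (k : ℂ) : ℂ := ∑' n, Vit q u0 n x k

/-- `∫_0^x C(t) q y` -/
noncomputable def VA (q : ℝ → ℝ) (u0 : ℝ → ℂ → ℂ) (x : ℝ) (k : ℂ) : ℂ :=
  ∫ t in (0:ℝ)..x, Cx t k * ((q t : ℂ) * Vsol q u0 t k)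

/-- `∫_0^x S(t) q y` -/
noncomputable def VB (q : ℝ → ℝ) (u0 : ℝ → ℂ → ℂ) (x : ℝ) (k : ℂ) : ℂ :=
  ∫ t in (0:ℝ)..x, Sx t k * ((q t : ℂ) * Vsol q u0 t k)

section

variable {q : ℝ → ℝ} {u0 : ℝ → ℂ → ℂ} {K : ℝ}

lemma hasSum_exp_aux (c z : ℝ) :
    HasSum (fun n : ℕ => Real.exp c * (z ^ n / n.factorial)) (Real.exp c * Real.exp z) := by
  have h : HasSum (fun n : ℕ => z ^ n / n.factorial) (Real.exp z) := by
    have := NormedSpace.expSeries_div_hasSum_exp (𝔸 := ℝ) z
    rwa [← Real.exp_eq_exp_ℝ] at this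
  exact h.mul_left _

lemma Vit_summable (hK : ∀ x, |q x| ≤ K)
    (hub : ∀ x k, ‖u0 x k‖ ≤ Real.exp ((|k.im| + 1) * |x|)) (x : ℝ) (k : ℂ) :
    Summable fun n => ‖Vit q u0 n x k‖ :=
  Summable.of_nonneg_of_le (fun _ => norm_nonneg _) (fun n => Vit_bound hK hub n x k)
    (hasSum_exp_aux _ _).summable

lemma Vsol_bound (hK : ∀ x, |q x| ≤ K)
    (hub : ∀ x k, ‖u0 x k‖ ≤ Real.exp ((|k.im| + 1) * |x|)) (x : ℝ) (k : ℂ) :
    ‖Vsol q u0 x k‖ ≤ Real.exp ((|k.im| + 1 + K) * |x|) := by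
  have h := tsum_of_norm_bounded (hasSum_exp_aux ((|k.im| + 1) * |x|) (K * |x|))
    (fun n => Vit_bound hK hub n x k)
  rw [← Real.exp_add, ← add_mul] at h
  exact h

lemma Vit_bound_unif (hK : ∀ x, |q x| ≤ K)
    (hub : ∀ x k, ‖u0 x k‖ ≤ Real.exp ((|k.im| + 1) * |x|)) {A : ℝ} (n : ℕ) {x : ℝ} {k : ℂ}
    (hx : |x| ≤ A) (hk : |k.im| ≤ A) :
    ‖Vit q u0 n x k‖ ≤ Real.exp ((A + 1) * A) * ((K * A) ^ n / n.factorial) := by
  have hK0 : 0 ≤ K := (abs_nonneg _).trans (hK 0)
  have hA : 0 ≤ A := (abs_nonneg _).trans hx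
  refine (Vit_bound hK hub n x k).trans ?_
  have h1 : Real.exp ((|k.im| + 1) * |x|) ≤ Real.exp ((A + 1) * A) := by
    apply Real.exp_le_exp.2
    gcongr
  gcongr

lemma Vsol_cont (hq : Continuous q) (hu : Continuous (Function.uncurry u0))
    (hK : ∀ x, |q x| ≤ K)
    (hub : ∀ x k, ‖u0 x k‖ ≤ Real.exp ((|k.im| + 1) * |x|)) :
    Continuous (Function.uncurry (Vsol q u0)) := by
  rw [continuous_iff_continuousAt]
  rintro ⟨x, k⟩
  set A : ℝ := |x| + |k.im| + 1 with hA
  have h1 : ContinuousOn (fun p : ℝ × ℂ => ∑' n, Vit q u0 n p.1 p.2)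
      {p : ℝ × ℂ | |p.1| < A ∧ |p.2.im| < A} := by
    apply continuousOn_tsum (u := fun n => Real.exp ((A + 1) * A) * ((K * A) ^ n / n.factorial))
    · intro n
      exact (Vit_cont hq hu n).continuousOn
    · exact (hasSum_exp_aux _ _).summable
    · intro n p hp
      exact Vit_bound_unif hK hub n hp.1.le hp.2.le
  apply h1.continuousAt
  apply IsOpen.mem_nhds
  · apply IsOpen.inter
    · exact isOpen_lt (f := fun p : ℝ × ℂ => |p.1|) (g := fun _ => A) (by fun_prop) continuous_const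
    · exact isOpen_lt (f := fun p : ℝ × ℂ => |p.2.im|) (g := fun _ => A) (by fun_prop)
        continuous_const
  · constructor
    · show |x| < A
      have := abs_nonneg k.im
      linarith
    · show |k.im| < A
      have := abs_nonneg x
      linarith

lemma Vsol_diff (hq : Continuous q) (hu : Continuous (Function.uncurry u0))
    (hud : ∀ x, Differentiable ℂ (u0 x)) (hK : ∀ x, |q x| ≤ K)
    (hub : ∀ x k, ‖u0 x k‖ ≤ Real.exp ((|k.im| + 1) * |x|)) (x : ℝ) :
    Differentiable ℂ (Vsol q u0 x) := by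
  intro k
  set A : ℝ := |x| + |k.im| + 1 with hA
  have hopen : IsOpen {w : ℂ | |w.im| < A} := isOpen_lt (by fun_prop) continuous_const
  have h1 : DifferentiableOn ℂ (fun w => ∑' n, Vit q u0 n x w) {w : ℂ | |w.im| < A} := by
    apply Complex.differentiableOn_tsum_of_summable_norm
      (u := fun n => Real.exp ((A + 1) * A) * ((K * A) ^ n / n.factorial))
    · exact (hasSum_exp_aux _ _).summable
    · intro n
      exact (Vit_diff hq hu hud n x).differentiableOn
    · exact hopen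
    · intro n w hw
      refine Vit_bound_unif hK hub n ?_ (le_of_lt hw)
      have := abs_nonneg k.im
      linarith
  apply h1.differentiableAt
  apply hopen.mem_nhds
  show |k.im| < A
  have := abs_nonneg x
  linarith

lemma Vsol_int (hq : Continuous q) (hu : Continuous (Function.uncurry u0))
    (hK : ∀ x, |q x| ≤ K)
    (hub : ∀ x k, ‖u0 x k‖ ≤ Real.exp ((|k.im| + 1) * |x|)) (x : ℝ) (k : ℂ) :
    Vsol q u0 x k = u0 x k + ∫ t in (0:ℝ)..x, Sx (x - t) k * ((q t : ℂ) * Vsol q u0 t k) := by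
  have hsum := fun t => (Vit_summable hK hub t k).of_norm
  unfold Vsol
  rw [(hsum x).tsum_eq_zero_add]
  congr 1
  have h := intervalIntegral.hasSum_integral_of_dominated_convergence (μ := volume)
    (a := 0) (b := x) (F := fun n t => Sx (x - t) k * ((q t : ℂ) * Vit q u0 n t k))
    (f := fun t => Sx (x - t) k * ((q t : ℂ) * ∑' n, Vit q u0 n t k))
    (fun n _ => Real.exp ((|k.im| + 1) * |x|) *
      (K * (Real.exp ((|k.im| + 1) * |x|) * ((K * |x|) ^ n / n.factorial)))) ?_ ?_ ?_ ?_ ?_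
  · exact h.tsum_eq
  · intro n
    apply Continuous.aestronglyMeasurable
    have e : (fun t => Sx (x - t) k * ((q t : ℂ) * Vit q u0 n t k)) =
        fun t : ℝ => Function.uncurry Sx (x - t, k) *
          ((q t : ℂ) * Function.uncurry (Vit q u0 n) (t, k)) := by ext r; rfl
    rw [e]
    have h2 := Sx_cont
    have h3 := Vit_cont hq hu n
    fun_prop
  · intro n
    refine Eventually.of_forall fun t ht => ?_
    have h2 := abs_sub_add_abs ht
    have h2a : |t| ≤ |x| := by linarith [abs_nonneg (x - t)]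
    have h2b : |x - t| ≤ |x| := by linarith [abs_nonneg t]
    have hK0 : 0 ≤ K := (abs_nonneg _).trans (hK 0)
    rw [norm_mul, norm_mul, Complex.norm_real, Real.norm_eq_abs]
    have h3 := norm_Sx_le' (x - t) k
    have h4 := Vit_bound hK hub n t k
    have h5 := hK t
    have h6 : Real.exp ((|k.im| + 1) * |x - t|) ≤ Real.exp ((|k.im| + 1) * |x|) := by
      apply Real.exp_le_exp.2; gcongr
    have h7 : Real.exp ((|k.im| + 1) * |t|) ≤ Real.exp ((|k.im| + 1) * |x|) := by
      apply Real.exp_le_exp.2; gcongr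
    calc ‖Sx (x - t) k‖ * (|q t| * ‖Vit q u0 n t k‖)
        ≤ Real.exp ((|k.im| + 1) * |x - t|) *
          (K * (Real.exp ((|k.im| + 1) * |t|) * ((K * |t|) ^ n / n.factorial))) := by gcongr
      _ ≤ _ := by gcongr
  · refine Eventually.of_forall fun t _ => ?_
    exact (((hasSum_exp_aux _ _).mul_left K).mul_left _).summable
  · simp
  · refine Eventually.of_forall fun t _ => ?_
    exact ((hsum t).hasSum.mul_left _).mul_left _

lemma VA_cont_int (hq : Continuous q) (hu : Continuous (Function.uncurry u0))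
    (hK : ∀ x, |q x| ≤ K)
    (hub : ∀ x k, ‖u0 x k‖ ≤ Real.exp ((|k.im| + 1) * |x|)) (k : ℂ) :
    Continuous (fun t : ℝ => Cx t k * ((q t : ℂ) * Vsol q u0 t k)) := by
  have e : (fun t : ℝ => Cx t k * ((q t : ℂ) * Vsol q u0 t k)) =
        fun t : ℝ => Function.uncurry Cx (t, k) *
          ((q t : ℂ) * Function.uncurry (Vsol q u0) (t, k)) := by ext r; rfl
  rw [e]
  have h2 := Cx_cont
  have h3 := Vsol_cont hq hu hK hub
  fun_prop

lemma VB_cont_int (hq : Continuous q) (hu : Continuous (Function.uncurry u0))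
    (hK : ∀ x, |q x| ≤ K)
    (hub : ∀ x k, ‖u0 x k‖ ≤ Real.exp ((|k.im| + 1) * |x|)) (k : ℂ) :
    Continuous (fun t : ℝ => Sx t k * ((q t : ℂ) * Vsol q u0 t k)) := by
  have e : (fun t : ℝ => Sx t k * ((q t : ℂ) * Vsol q u0 t k)) =
        fun t : ℝ => Function.uncurry Sx (t, k) *
          ((q t : ℂ) * Function.uncurry (Vsol q u0) (t, k)) := by ext r; rfl
  rw [e]
  have h2 := Sx_cont
  have h3 := Vsol_cont hq hu hK hub
  fun_prop

lemma Vsol_eq (hq : Continuous q) (hu : Continuous (Function.uncurry u0))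
    (hK : ∀ x, |q x| ≤ K)
    (hub : ∀ x k, ‖u0 x k‖ ≤ Real.exp ((|k.im| + 1) * |x|)) (x : ℝ) (k : ℂ) :
    Vsol q u0 x k = u0 x k + Sx x k * VA q u0 x k - Cx x k * VB q u0 x k := by
  rw [Vsol_int hq hu hK hub x k]
  have hA := VA_cont_int hq hu hK hub k
  have hB := VB_cont_int hq hu hK hub k
  unfold VA VB
  rw [← intervalIntegral.integral_const_mul, ← intervalIntegral.integral_const_mul, add_sub_assoc,
    ← intervalIntegral.integral_sub]
  · congr 1
    apply intervalIntegral.integral_congr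
    intro t _
    simp only
    rw [Sx_sub]; ring
  · exact (continuous_const.mul hA).intervalIntegrable _ _
  · exact (continuous_const.mul hB).intervalIntegrable _ _

/-- the derivative -/
noncomputable def Vsold (q : ℝ → ℝ) (u0 u0d : ℝ → ℂ → ℂ) (x : ℝ) (k : ℂ) : ℂ :=
  u0d x k + Cx x k * VA q u0 x k + k ^ 2 * Sx x k * VB q u0 x k

lemma Vsold_int (hq : Continuous q) (hu : Continuous (Function.uncurry u0))
    (hK : ∀ x, |q x| ≤ K)
    (hub : ∀ x k, ‖u0 x k‖ ≤ Real.exp ((|k.im| + 1) * |x|)) (u0d : ℝ → ℂ → ℂ) (x : ℝ) (k : ℂ) :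
    Vsold q u0 u0d x k =
      u0d x k + ∫ t in (0:ℝ)..x, Cx (x - t) k * ((q t : ℂ) * Vsol q u0 t k) := by
  have hA := VA_cont_int hq hu hK hub k
  have hB := VB_cont_int hq hu hK hub k
  unfold Vsold VA VB
  rw [← intervalIntegral.integral_const_mul, ← intervalIntegral.integral_const_mul, add_assoc,
    ← intervalIntegral.integral_add]
  · congr 1
    apply intervalIntegral.integral_congr
    intro t _
    simp only
    rw [Cx_sub]; ring
  · exact (continuous_const.mul hA).intervalIntegrable _ _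
  · exact (continuous_const.mul hB).intervalIntegrable _ _

lemma Vsol_hasDeriv (hq : Continuous q) (hu : Continuous (Function.uncurry u0))
    (hK : ∀ x, |q x| ≤ K)
    (hub : ∀ x k, ‖u0 x k‖ ≤ Real.exp ((|k.im| + 1) * |x|)) {u0d : ℝ → ℂ → ℂ} {k : ℂ}
    (h0 : ∀ x, HasDerivAt (fun x => u0 x k) (u0d x k) x) (x : ℝ) :
    HasDerivAt (fun x => Vsol q u0 x k) (Vsold q u0 u0d x k) x := by
  have hA : HasDerivAt (fun x => VA q u0 x k) (Cx x k * ((q x : ℂ) * Vsol q u0 x k)) x :=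
    ((VA_cont_int hq hu hK hub k).integral_hasStrictDerivAt 0 x).hasDerivAt
  have hB : HasDerivAt (fun x => VB q u0 x k) (Sx x k * ((q x : ℂ) * Vsol q u0 x k)) x :=
    ((VB_cont_int hq hu hK hub k).integral_hasStrictDerivAt 0 x).hasDerivAt
  have h := ((h0 x).add ((Sx_deriv k x).mul hA)).sub ((Cx_deriv k x).mul hB)
  have e : (fun x => Vsol q u0 x k) =
      (((fun x => u0 x k) + (fun x => Sx x k) * fun x => VA q u0 x k) -
        (fun x => Cx x k) * fun x => VB q u0 x k) := by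
    ext x
    rw [Vsol_eq hq hu hK hub]; rfl
  rw [e]
  refine h.congr_deriv ?_
  unfold Vsold
  ring

lemma Vsold_hasDeriv (hq : Continuous q) (hu : Continuous (Function.uncurry u0))
    (hK : ∀ x, |q x| ≤ K)
    (hub : ∀ x k, ‖u0 x k‖ ≤ Real.exp ((|k.im| + 1) * |x|)) {u0d : ℝ → ℂ → ℂ} {k : ℂ}
    (h1 : ∀ x, HasDerivAt (fun x => u0d x k) (-(k ^ 2 * u0 x k)) x) (x : ℝ) :
    HasDerivAt (fun x => Vsold q u0 u0d x k) (((q x : ℂ) - k ^ 2) * Vsol q u0 x k) x := by
  have hA : HasDerivAt (fun x => VA q u0 x k) (Cx x k * ((q x : ℂ) * Vsol q u0 x k)) x :=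
    ((VA_cont_int hq hu hK hub k).integral_hasStrictDerivAt 0 x).hasDerivAt
  have hB : HasDerivAt (fun x => VB q u0 x k) (Sx x k * ((q x : ℂ) * Vsol q u0 x k)) x :=
    ((VB_cont_int hq hu hK hub k).integral_hasStrictDerivAt 0 x).hasDerivAt
  have h := ((h1 x).add ((Cx_deriv k x).mul hA)).add (((Sx_deriv k x).const_mul (k ^ 2)).mul hB)
  have e : (fun x => Vsold q u0 u0d x k) =
      (((fun x => u0d x k) + (fun x => Cx x k) * fun x => VA q u0 x k) +
        (fun x => k ^ 2 * Sx x k) * fun x => VB q u0 x k) := by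
    ext x
    rfl
  rw [e]
  refine h.congr_deriv ?_
  have h3 := sq_add k x
  have h4 := Vsol_eq hq hu hK hub x k
  linear_combination ((q x : ℂ) * Vsol q u0 x k) * h3 + k ^ 2 * h4

end

end Run7.h374
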