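import Mathlib

/-! Formal solutions `e^{iπnx} ∑ w_j(x) / (2iπn)^j` of Hill's equation. -/

set_option autoImplicit false

namespace Run7.h374

open Filter Topology MeasureTheory
open scoped ComplexConjugate ContDiff

/-- data of the formal solution -/
structure WKB (q : ℝ → ℝ) (w : ℕ → ℝ → ℂ) (E : ℕ → ℂ) : Prop where
  smooth : ∀ j, ContDiff ℝ ∞ (w j)
  per : ∀ j x, w j (x + 1) = w j x
  zero : ∀ x, w 0 x = 1
  E_eq : ∀ j, E j = ∫ x in (0:ℝ)..1, (q x : ℂ) * w j x
  mean : ∀ j, ∫ x in (0:ℝ)..1, w (j + 1) x = 0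
  step : ∀ j x, deriv (w (j + 1)) x = -(deriv (deriv (w j)) x) + (q x : ℂ) * w j x -
    ∑ i ∈ Finset.range (j + 1), E i * w (j - i) x

/-- antiderivative normalised to mean zero -/
noncomputable def Iz (r : ℝ → ℂ) (x : ℝ) : ℂ :=
  (∫ y in (0:ℝ)..x, r y) - ∫ z in (0:ℝ)..1, (∫ y in (0:ℝ)..z, r y)

lemma Iz_hasDerivAt {r : ℝ → ℂ} (hc : Continuous r) (x : ℝ) : HasDerivAt (Iz r) (r x) x :=
  (hc.integral_hasStrictDerivAt 0 x).hasDerivAt.sub_const _

lemma Iz_smooth {r : ℝ → ℂ} (hr : ContDiff ℝ ∞ r) : ContDiff ℝ ∞ (Iz r) := by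
  rw [contDiff_infty_iff_deriv]
  refine ⟨fun x => (Iz_hasDerivAt hr.continuous x).differentiableAt, ?_⟩
  have : deriv (Iz r) = r := by ext x; exact (Iz_hasDerivAt hr.continuous x).deriv
  rw [this]; exact hr

lemma Iz_per {r : ℝ → ℂ} (hc : Continuous r) (hp : ∀ x, r (x + 1) = r x)
    (h0 : ∫ x in (0:ℝ)..1, r x = 0) (x : ℝ) : Iz r (x + 1) = Iz r x := by
  unfold Iz
  congr 1
  have h1 : ∫ y in (0:ℝ)..(x + 1), r y = (∫ y in (0:ℝ)..x, r y) + ∫ y in x..(x+1), r y :=
    (intervalIntegral.integral_add_adjacent_intervals (hc.intervalIntegrable _ _)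
      (hc.intervalIntegrable _ _)).symm
  have hp' : Function.Periodic r 1 := hp
  rw [h1, hp'.intervalIntegral_add_eq x 0, zero_add, h0, add_zero]

lemma Iz_mean {r : ℝ → ℂ} (hc : Continuous r) : ∫ x in (0:ℝ)..1, Iz r x = 0 := by
  have hc1 : Continuous fun x => ∫ y in (0:ℝ)..x, r y := by
    apply continuous_iff_continuousAt.2
    intro x
    exact (hc.integral_hasStrictDerivAt 0 x).hasDerivAt.continuousAt
  unfold Iz
  rw [intervalIntegral.integral_sub (hc1.intervalIntegrable _ _) (by simp)]
  rw [intervalIntegral.integral_const]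
  simp

/-- right hand side of the recursion -/
noncomputable def rhs (q : ℝ → ℝ) (v : ℕ → ℝ → ℂ) (j : ℕ) (x : ℝ) : ℂ :=
  -(deriv (deriv (v j)) x) + (q x : ℂ) * v j x -
    ∑ i ∈ Finset.range (j + 1), (∫ y in (0:ℝ)..1, (q y : ℂ) * v i y) * v (j - i) x

/-- the states -/
noncomputable def St (q : ℝ → ℝ) : ℕ → (ℕ → ℝ → ℂ)
  | 0 => fun _ _ => 1
  | (j + 1) => Function.update (St q j) (j + 1) (Iz (rhs q (St q j) j))

/-- the coefficient functions -/
noncomputable def ww (q : ℝ → ℝ) (j : ℕ) : ℝ → ℂ := St q j j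

lemma St_eq (q : ℝ → ℝ) (j i : ℕ) (h : i ≤ j) : St q j i = ww q i := by
  induction j with
  | zero =>
    have : i = 0 := by omega
    rw [this]; rfl
  | succ j ih =>
    rcases Nat.lt_or_ge i (j + 1) with h1 | h1
    · show Function.update (St q j) (j + 1) _ i = _
      rw [Function.update_of_ne (by omega)]
      exact ih (by omega)
    · have : i = j + 1 := by omega
      rw [this]; rfl

lemma rhs_congr {q : ℝ → ℝ} {v v' : ℕ → ℝ → ℂ} {j : ℕ} (h : ∀ i, i ≤ j → v i = v' i) :
    rhs q v j = rhs q v' j := by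
  ext x
  unfold rhs
  rw [h j le_rfl]
  congr 1
  apply Finset.sum_congr rfl
  intro i hi
  have hi' : i ≤ j := by
    have := Finset.mem_range.1 hi
    omega
  rw [h i hi', h (j - i) (by omega)]

lemma ww_succ (q : ℝ → ℝ) (j : ℕ) : ww q (j + 1) = Iz (rhs q (ww q) j) := by
  show Function.update (St q j) (j + 1) _ (j + 1) = _
  rw [Function.update_self]
  congr 1
  exact rhs_congr fun i hi => St_eq q j i hi

/-- existence of the formal solution -/
theorem exists_WKB {q : ℝ → ℝ} (hq : ContDiff ℝ ∞ q) (hper : ∀ x, q (x + 1) = q x) :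
    WKB q (ww q) (fun j => ∫ x in (0:ℝ)..1, (q x : ℂ) * ww q j x) := by
  have hqC : ContDiff ℝ ∞ (fun x => (q x : ℂ)) := Complex.ofRealCLM.contDiff.comp hq
  have h0 : ww q 0 = fun _ => 1 := rfl
  have hmean0 : ∀ j, (∀ i, i ≤ j → ContDiff ℝ ∞ (ww q i)) →
      (∀ i, i ≤ j → i ≠ 0 → ∫ x in (0:ℝ)..1, ww q i x = 0) →
      (∀ i, i ≤ j → ∀ x, ww q i (x + 1) = ww q i x) →
      ContDiff ℝ ∞ (rhs q (ww q) j) ∧ (∀ x, rhs q (ww q) j (x + 1) = rhs q (ww q) j x) ∧
      ∫ x in (0:ℝ)..1, rhs q (ww q) j x = 0 := by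
    intro j hs hm hp
    have hs1 : ContDiff ℝ ∞ (deriv (ww q j)) := (contDiff_infty_iff_deriv.1 (hs j le_rfl)).2
    have hs2 : ContDiff ℝ ∞ (deriv (deriv (ww q j))) := (contDiff_infty_iff_deriv.1 hs1).2
    have hp1 : ∀ x, deriv (ww q j) (x + 1) = deriv (ww q j) x := by
      intro x
      rw [← deriv_comp_add_const]
      congr 1
      ext y; exact hp j le_rfl y
    have hp2 : ∀ x, deriv (deriv (ww q j)) (x + 1) = deriv (deriv (ww q j)) x := by
      intro x
      rw [← deriv_comp_add_const]
      congr 1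
      ext y; exact hp1 y
    refine ⟨?_, ?_, ?_⟩
    · unfold rhs
      apply ContDiff.sub
      · exact hs2.neg.add (hqC.mul (hs j le_rfl))
      · apply ContDiff.sum
        intro i hi
        exact contDiff_const.mul (hs (j - i) (by omega))
    · intro x
      unfold rhs
      rw [hp2, hper, hp j le_rfl]
      congr 1
      apply Finset.sum_congr rfl
      intro i _
      rw [hp (j - i) (by omega)]
    · unfold rhs
      rw [intervalIntegral.integral_sub, intervalIntegral.integral_add, intervalIntegral.integral_neg,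
        intervalIntegral.integral_finsetSum]
      · have e1 : ∫ x in (0:ℝ)..1, deriv (deriv (ww q j)) x = 0 := by
          rw [intervalIntegral.integral_deriv_eq_sub]
          · have := hp1 0
            rw [zero_add] at this
            rw [this, sub_self]
          · intro x _
            exact (hs1.differentiable (by simp)) x
          · exact hs2.continuous.intervalIntegrable _ _
        rw [e1]
        have e2 : ∀ i ∈ Finset.range (j + 1),
            ∫ x in (0:ℝ)..1, (∫ y in (0:ℝ)..1, (q y : ℂ) * ww q i y) * ww q (j - i) x =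
            if i = j then ∫ y in (0:ℝ)..1, (q y : ℂ) * ww q j y else 0 := by
          intro i hi
          have hi' := Finset.mem_range.1 hi
          rw [intervalIntegral.integral_const_mul]
          by_cases hij : i = j
          · rw [if_pos hij, hij, Nat.sub_self, h0]
            simp
          · rw [if_neg hij, hm (j - i) (by omega) (by omega), mul_zero]
        rw [Finset.sum_congr rfl e2, Finset.sum_ite_eq' (Finset.range (j + 1)) j]
        simp
      · intro i _
        exact (continuous_const.mul (hs (j - i) (by omega)).continuous).intervalIntegrable _ _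
      · exact (hs2.continuous.neg).intervalIntegrable _ _
      · exact (hqC.continuous.mul (hs j le_rfl).continuous).intervalIntegrable _ _
      · exact ((hs2.continuous.neg).add (hqC.continuous.mul (hs j le_rfl).continuous)).intervalIntegrable _ _
      · apply Continuous.intervalIntegrable
        apply continuous_finsetSum
        intro i _
        exact continuous_const.mul (hs (j - i) (by omega)).continuous
  have hall : ∀ j, ContDiff ℝ ∞ (ww q j) ∧ (j ≠ 0 → ∫ x in (0:ℝ)..1, ww q j x = 0) ∧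
      ∀ x, ww q j (x + 1) = ww q j x := by
    intro j
    induction j using Nat.strong_induction_on with
    | _ j ih =>
      rcases Nat.eq_zero_or_pos j with hj | hj
      · subst hj
        rw [h0]
        exact ⟨contDiff_const, fun h => absurd rfl h, fun _ => rfl⟩
      · obtain ⟨m, rfl⟩ : ∃ m, j = m + 1 := ⟨j - 1, by omega⟩
        obtain ⟨h1, h2, h3⟩ := hmean0 m (fun i hi => (ih i (by omega)).1)
          (fun i hi hi0 => (ih i (by omega)).2.1 hi0) (fun i hi => (ih i (by omega)).2.2)
        rw [ww_succ]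
        exact ⟨Iz_smooth h1, fun _ => Iz_mean h1.continuous, Iz_per h1.continuous h2 h3⟩
  refine ⟨fun j => (hall j).1, fun j => (hall j).2.2, fun x => by rw [h0], fun j => rfl,
    fun j => (hall (j + 1)).2.1 (by omega), fun j x => ?_⟩
  obtain ⟨h1, -, -⟩ := hmean0 j (fun i _ => (hall i).1) (fun i _ => (hall i).2.1)
    (fun i _ => (hall i).2.2)
  rw [ww_succ, (Iz_hasDerivAt h1.continuous x).deriv]
  rfl

end Run7.h374
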